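import Pool.Agent.ZDM.P11

/-!
# Merged form of the modules ZDB.AccB1, ZDB.AccB, ZDB.PickW, ZDB.WLev, ZDB.AccNu, ZDB.AccLam, ZDB.AccVal, ZDB.MkPath, ZDB.Finish
-/

set_option autoImplicit false
set_option linter.unusedSectionVars false

section

/-!
# ZDB/AccB1 : points over l with small F, accepted by the first K blocks, have few cheap returns
b, l, kB = S.kB n, m = (lam l).real univ.  b ⊆ Av K both Ret.  l' ∈ LA (Av K), ρ_b l' = l: rigid_mass: (lam l').real univ ≤ m + C(Fv l' − Fv l) ≤ m + C·kB (sB_le); lam_real_ge: ≥ m.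
For j < K: l' ∈ P_j, so (lam l').real (Cs F_j)ᶜ ≥ m − kB (Block.ret), hence (lam l').real (Cs F_j) ≤ (C+1)kB (isClosed_Cs: measurable).  CU K = ⋃_{j<K} Cs F_j has measure ≤ K(C+1)kB, so
(lam l').real (CU K)ᶜ ≥ m − K(C+1)kB > m − eta:  K(C+1)kB ≤ n·2C·eta/(8C(n+1)) < eta.
-/

open Set Filter Topology MeasureTheory Pool.Agent.H53.ZD

namespace Pool.Agent.ZDB

variable {κ L : Type*} [TopologicalSpace L] [CompactSpace L] [T2Space L] [TotallyDisconnectedSpace L]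
  [MeasurableSpace L] [BorelSpace L]

namespace Sys

variable {S : Sys κ L} {𝒢 : GoodFam S} {n : ℕ} {𝒢' : GoodFam S} {cb : CtxB 𝒢 n} {h : ℝ}
  {ct : CtxT 𝒢' cb h} {Fm : Fam ct}

theorem Config.mem_HK (c : Config Fm) {K : ℕ} (hK : K ≤ n) {l' : L} (h1 : l' ∈ S.LA (c.Av K))
    (h2 : S.rho cb.r.w.a.b l' = cb.r.w.a.l) (h3 : S.Fv l' ≤ cb.sB) (h4 : l' ∈ c.PI K) :
    l' ∈ c.HK K := by
  have hC := S.C_pos
  have hC1 := S.one_le
  have hb : S.Ret cb.r.w.a.b := 𝒢.ret _ cb.r.w.a.base.good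
  have hr := S.rigid_mass hb (c.ret_Av K) (c.b_sub_Av K) h1 h2
  have hm : (S.lam cb.r.w.a.l).real univ ≤ (S.lam l').real univ :=
    S.lam_real_ge hb h2 MeasurableSet.univ (fun y _ => mem_univ y)
  have hsB := cb.sB_le
  have he : 0 < S.eta := by unfold eta; positivity
  have hk : 0 < S.kB n := by unfold kB; positivity
  have hup : (S.lam l').real univ ≤ (S.lam cb.r.w.a.l).real univ + S.C * S.kB n := by
    have h5 : S.Fv l' - S.Fv cb.r.w.a.l ≤ S.kB n := by linarith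
    have h6 : S.C * (S.Fv l' - S.Fv cb.r.w.a.l) ≤ S.C * S.kB n :=
      mul_le_mul_of_nonneg_left h5 hC.le
    linarith
  have hj : ∀ j ∈ Finset.range K, (S.lam l').real (ct.Cs (c.Fj j)) ≤ (S.C + 1) * S.kB n := by
    intro j hj
    have h5 := (Fm.Bl j (c.ix j)).ret l' (h4 j (Finset.mem_range.1 hj))
    have h6 : (S.lam l').real (ct.Cs (c.Fj j))ᶜ =
        (S.lam l').real univ - (S.lam l').real (ct.Cs (c.Fj j)) :=
      measureReal_compl (ct.isClosed_Cs _).measurableSet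
    have h7 : (S.lam cb.r.w.a.l).real univ - S.kB n ≤ (S.lam l').real (ct.Cs (c.Fj j))ᶜ := h5
    linarith
  have hcu : (S.lam l').real (c.CU K) ≤ K * ((S.C + 1) * S.kB n) := by
    have h5 : c.CU K ⊆ ⋃ j ∈ Finset.range K, ct.Cs (c.Fj j) := by
      rintro y ⟨j, hj, hy⟩
      exact mem_biUnion (Finset.mem_coe.2 (Finset.mem_range.2 hj)) hy
    refine (measureReal_mono h5 (measure_ne_top _ _)).trans ?_
    refine (measureReal_biUnion_finset_le _ _).trans ?_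
    refine (Finset.sum_le_sum hj).trans ?_
    simp
  have hcc : (S.lam l').real (c.CU K)ᶜ = (S.lam l').real univ - (S.lam l').real (c.CU K) :=
    measureReal_compl (c.isClosed_CU K).measurableSet
  have hnum : K * ((S.C + 1) * S.kB n) < S.eta := by
    have hn0 : (0 : ℝ) ≤ n := Nat.cast_nonneg n
    have hKn : (K : ℝ) ≤ n := by exact_mod_cast hK
    calc K * ((S.C + 1) * S.kB n) ≤ n * ((2 * S.C) * S.kB n) := by
          gcongr
          linarith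
      _ = n / (n + 1) * (S.eta / 4) := by
          unfold kB
          field_simp
          ring
      _ ≤ 1 * (S.eta / 4) := by
          gcongr
          rw [div_le_one (by positivity)]
          linarith
      _ < S.eta := by linarith
  show (S.lam cb.r.w.a.l).real univ - S.eta < (S.lam l').real (c.CU K)ᶜ
  rw [hcc]
  linarith

end Sys

end Pool.Agent.ZDB

end

section

/-!
# ZDB/AccB : README 9.4, acceptance without the w-object
X = bsum y v (range K), D = D As (Av K), kB = S.kB n, b, l.  nm X < nm y + tB (nm_bsum_lt), Ext (ext_bsum), Stab b As (stabAs), nm y ≤ 1 − 2tw ≤ 1 − 2tB.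
(1) nu_X(OB ∩ D) ≤ ahat y OB tB ≤ ahat y OB (2tB) ≤ ab0 y l + kB (ext_le_ahat0, ahat_mono_tau, b1).
(2) for O' ∈ Clop b, l ∈ O': ahat y (OB∖O') tB ≤ ahat y OB (2tB) − ahat y (OB∩O') tB ≤ (ab0 y l + kB) − ab0 y l = kB (ahat_split with U = OB; ahat ≥ alpha ≥ ab0: alpha_le_ahat, ab0_le).
  So nu_X((OB∩D)∖fibre) ≤ kB (ext_fibre_le).
(3) nu_X(OB ∩ Fs sB ∩ D) ≤ ahat y (OB∩Fs sB) tB ≤ kB (b2).
(4) j < K: P_j ⊆ OB ∩ D, nu_X(P_j) > ab0 y l − 3kB (acc), so nu_X((OB∩D)∖P_j) ≤ 4kB.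
(5) nu_X((LA (Av K))ᶜ) = 0 (nu_compl_LA, bsum_mem).
(OB∩D)∖(PI K∩HK K) is contained in the union of the sets (2), (3), (4) for j < K and (5) (mem_HK), so nu_X of it is ≤ (4K+2)kB (toMeasurable not needed: HK, PI, D open, Fs open,
{ρ_b l' = l} closed).  nu_X(PI K∩HK K) ≥ nu_X(OB∩D) − (4K+2)kB ≥ nu_X(P_0) − (4K+2)kB > ab0 y l − (4K+5)kB ≥ ab0 y l − eta: (4n+5)/(8C(n+1)) ≤ 1.
-/

open Set Filter Topology MeasureTheory Pool.Agent.H53.ZD

namespace Pool.Agent.ZDB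

variable {κ L : Type*} [TopologicalSpace L] [CompactSpace L] [T2Space L] [TotallyDisconnectedSpace L]
  [MeasurableSpace L] [BorelSpace L]

namespace Sys

variable {S : Sys κ L} {𝒢 : GoodFam S} {n : ℕ} {𝒢' : GoodFam S} {cb : CtxB 𝒢 n} {h : ℝ}
  {ct : CtxT 𝒢' cb h} {Fm : Fam ct}

theorem Config.accB (c : Config Fm) {K : ℕ} (hK0 : 0 < K) (hK : K ≤ n) :
    S.ab0 c.y cb.r.w.a.l - S.eta <
      (S.nu (bsum c.y c.v (Finset.range K))).real (c.PI K ∩ c.HK K) := by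
  classical
  obtain ⟨X, hXdef⟩ : ∃ X, X = bsum c.y c.v (Finset.range K) := ⟨_, rfl⟩
  have hE : S.Ext c.y Fm.As Fm.As (c.Av K) X := hXdef ▸ c.ext_bsum hK
  have hX : nm X < nm c.y + cb.tB := hXdef ▸ c.nm_bsum_lt hK
  have hXm : X ∈ BA (c.Av K) := hXdef ▸ c.bsum_mem hK
  rw [← hXdef]
  have hC := S.C_pos
  have hC1 := S.one_le
  have heta : 0 < S.eta := by unfold eta; positivity
  have hkB : 0 < S.kB n := by unfold kB; positivity
  have hb : S.Ret cb.r.w.a.b := 𝒢.ret _ cb.r.w.a.base.good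
  have hl : cb.r.w.a.l ∈ S.LA cb.r.w.a.b := cb.r.w.a.base.memL
  have hτ : 0 < cb.tB := cb.tB_pos
  have hτr : (0 : ℝ) < cb.tB := by exact_mod_cast cb.tB_pos
  have htB := cb.tB_le
  have htw : (0 : ℝ) < cb.r.w.a.tw := by linarith
  have hnm := c.nm_y_le
  have hyτ : nm c.y ≤ 1 - (cb.tB : ℝ) := by linarith
  have hy2 : 2 * (cb.tB : ℝ) ≤ 1 - nm c.y := by linarith
  -- (1)
  have h1 : (S.nu X).real (cb.OB ∩ S.D Fm.As (c.Av K)) ≤ S.ab0 c.y cb.r.w.a.l + S.kB n := by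
    refine (S.ext_le_ahat0 Fm.stabAs c.y_mem hτ hyτ cb.clopOB hE hX).trans ?_
    exact (S.ahat_mono_tau (by linarith) _ _).trans (cb.b1 c.y c.hy)
  -- (2)
  have h2 : (S.nu X).real ((cb.OB ∩ S.D Fm.As (c.Av K)) \
      {l' | S.rho cb.r.w.a.b l' = cb.r.w.a.l}) ≤ S.kB n := by
    refine S.ext_fibre_le hb hl Fm.stabAs c.y_mem hτ hyτ cb.clopOB hE hX (fun O' hO' hlO' => ?_)
    have h3 := S.ahat_split (x := c.y) cb.clopOB.1.isOpen (S.upperSome_clopen cb.clopOB.1)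
      hO'.1 hτr hy2
    have h4 : S.ab0 c.y cb.r.w.a.l ≤ S.ahat c.y (cb.OB ∩ O') cb.tB :=
      (S.ab0_le (cb.clopOB.1.inter hO'.1) ⟨cb.memOB, hlO'⟩).trans (S.alpha_le_ahat hτr)
    have h5 := cb.b1 c.y c.hy
    linarith
  -- (3)
  have h3 : (S.nu X).real (cb.OB ∩ S.Fs cb.sB ∩ S.D Fm.As (c.Av K)) ≤ S.kB n :=
    (S.ext_le_ahat Fm.stabAs c.y_mem hτ hyτ cb.clopOB cb.sB hE hX).trans (cb.b2 c.y c.hy)
  -- (4)
  have hPsub : ∀ j, j < K → c.Pj j ⊆ cb.OB ∩ S.D Fm.As (c.Av K) := fun j hj =>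
    subset_inter (c.Pj_sub_OB j) (c.Pj_sub_D hj hK)
  have hacc : ∀ j, j < K → S.ab0 c.y cb.r.w.a.l - 3 * S.kB n < (S.nu X).real (c.Pj j) := by
    intro j hj
    rw [hXdef]
    exact c.acc K hK j hj
  have h4 : ∀ j, j < K → (S.nu X).real ((cb.OB ∩ S.D Fm.As (c.Av K)) \ c.Pj j) ≤ 4 * S.kB n := by
    intro j hj
    rw [measureReal_sdiff (hPsub j hj) (c.isClopen_Pj j).2.measurableSet]
    have := hacc j hj
    linarith
  -- (5)
  have h5 : (S.nu X).real (S.LA (c.Av K))ᶜ = 0 := by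
    rw [measureReal_def, S.nu_compl_LA (c.ret_Av K) hXm, ENNReal.toReal_zero]
  -- the covering
  have hcov : cb.OB ∩ S.D Fm.As (c.Av K) ⊆ (c.PI K ∩ c.HK K) ∪
      (((cb.OB ∩ S.D Fm.As (c.Av K)) \ {l' | S.rho cb.r.w.a.b l' = cb.r.w.a.l}) ∪
      ((cb.OB ∩ S.Fs cb.sB ∩ S.D Fm.As (c.Av K)) ∪
      ((⋃ j ∈ Finset.range K, (cb.OB ∩ S.D Fm.As (c.Av K)) \ c.Pj j) ∪ (S.LA (c.Av K))ᶜ))) := by
    intro l' hl'
    by_contra hcon
    simp only [mem_union, not_or] at hcon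
    obtain ⟨n1, n2, n3, n4, n5⟩ := hcon
    have e1 : l' ∈ S.LA (c.Av K) := by
      by_contra h
      exact n5 h
    have e2 : S.rho cb.r.w.a.b l' = cb.r.w.a.l := by
      by_contra h
      exact n2 ⟨hl', h⟩
    have e3 : S.Fv l' ≤ cb.sB := by
      by_contra h
      rw [not_le] at h
      exact n3 ⟨⟨hl'.1, h⟩, hl'.2⟩
    have e4 : l' ∈ c.PI K := by
      intro j hj
      by_contra h
      exact n4 (mem_biUnion (Finset.mem_coe.2 (Finset.mem_range.2 hj)) ⟨hl', h⟩)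
    exact n1 ⟨e4, c.mem_HK hK e1 e2 e3 e4⟩
  have h6 : (S.nu X).real (⋃ j ∈ Finset.range K, (cb.OB ∩ S.D Fm.As (c.Av K)) \ c.Pj j) ≤
      K * (4 * S.kB n) := by
    refine (measureReal_biUnion_finset_le _ _).trans ?_
    refine (Finset.sum_le_sum fun j hj => h4 j (Finset.mem_range.1 hj)).trans ?_
    rw [Finset.sum_const, Finset.card_range, nsmul_eq_mul]
  have h7 : (S.nu X).real (cb.OB ∩ S.D Fm.As (c.Av K)) ≤ (S.nu X).real (c.PI K ∩ c.HK K) +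
      (S.kB n + (S.kB n + (K * (4 * S.kB n) + 0))) := by
    refine (measureReal_mono hcov).trans ?_
    refine (measureReal_union_le _ _).trans ?_
    refine add_le_add le_rfl ?_
    refine (measureReal_union_le _ _).trans ?_
    refine add_le_add h2 ?_
    refine (measureReal_union_le _ _).trans ?_
    refine add_le_add h3 ?_
    refine (measureReal_union_le _ _).trans ?_
    exact add_le_add h6 h5.le
  have h8 : S.ab0 c.y cb.r.w.a.l - 3 * S.kB n <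
      (S.nu X).real (cb.OB ∩ S.D Fm.As (c.Av K)) :=
    (hacc 0 hK0).trans_le (measureReal_mono (hPsub 0 hK0))
  have h9 : (4 * (K : ℝ) + 5) * S.kB n ≤ S.eta := by
    have hKn : (K : ℝ) ≤ n := by exact_mod_cast hK
    have hn0 : (0 : ℝ) < 8 * S.C * (n + 1) := by positivity
    unfold kB
    rw [mul_div_assoc', div_le_iff₀ hn0]
    have h10 : (4 * (K : ℝ) + 5) ≤ 8 * S.C * (n + 1) := by
      have : (n : ℝ) + 1 ≤ S.C * (n + 1) := by
        have h11 : (0 : ℝ) ≤ (n : ℝ) + 1 := by positivity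
        nlinarith
      have h12 : (0 : ℝ) ≤ n := Nat.cast_nonneg n
      nlinarith
    calc (4 * (K : ℝ) + 5) * S.eta ≤ (8 * S.C * (n + 1)) * S.eta :=
          mul_le_mul_of_nonneg_right h10 heta.le
      _ = S.eta * (8 * S.C * (n + 1)) := by ring
  linarith

end Sys

end Pool.Agent.ZDB

end

section

/-!
# ZDB/PickW : README 9.4, the choice of the w-object
y ∈ cb.K ⊆ r.K ⊆ K1: exists_tauF gives ζ.  emb (cw i) ζ ∈ BA (range (cw i)) (emb_mem), pairwise disjoint sets (cw_disj), nm (emb (cw i) ζ) = nm ζ (nm_emb, wobj injective).  For 0 < K ≤ n the points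
plus (bsum y v (range K)) (emb (cw i) ζ) converge to bsum y v (range K) (tendsto_plus; nm_bsum_le, sum_le, nm_y_le: 1 − 2tw + tB/2 + tw/2 ≤ 1), and the condition accB is open
(isOpen_nu for the open set PI K ∩ HK K): it holds for all large i.  Take iw large for all K ≤ n.
-/

open Set Filter Topology MeasureTheory Pool.Agent.H53.ZD

namespace Pool.Agent.ZDB

variable {κ L : Type*} [TopologicalSpace L] [CompactSpace L] [T2Space L] [TotallyDisconnectedSpace L]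
  [MeasurableSpace L] [BorelSpace L]

namespace Sys

variable {S : Sys κ L} {𝒢 : GoodFam S} {n : ℕ} {𝒢' : GoodFam S} {cb : CtxB 𝒢 n} {h : ℝ}
  {ct : CtxT 𝒢' cb h} {Fm : Fam ct}

/-- the configuration with the `w`-object -/
structure ConfigW {S : Sys κ L} {𝒢 : GoodFam S} {n : ℕ} {𝒢' : GoodFam S} {cb : CtxB 𝒢 n} {h : ℝ}
    {ct : CtxT 𝒢' cb h} {Fm : Fam ct} (c : Config Fm) where
  iw : ℕ
  ζ : Ball (Fin cb.r.w.t.n₁)
  nm_ζ : nm ζ = S.tauF cb.r.w.a.O cb.r.w.t c.y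
  ζ_le : nm ζ ≤ (cb.r.w.a.tw : ℝ) / 2
  phi_ge : 3 / 5 * |S.T (cind cb.r.w.a.O) c.y| ≤ |cb.r.w.t.phi c.y ζ|
  accw : ∀ K, 0 < K → K ≤ n → S.ab0 c.y cb.r.w.a.l - S.eta <
    (S.nu (plus (bsum c.y c.v (Finset.range K)) (emb (Fm.cw iw) ζ))).real (c.PI K ∩ c.HK K)

theorem Config.exists_configW (c : Config Fm) : Nonempty (ConfigW c) := by
  have hyK1 : c.y ∈ cb.r.w.K1 := cb.r.K_sub (cb.K_sub c.hy)
  obtain ⟨h1, ζ, hζ, hφ⟩ := exists_tauF cb.r.w hyK1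
  have htw : (0 : ℝ) < cb.r.w.a.tw := by exact_mod_cast cb.r.w.a.tw_pos
  have hev : ∀ K, K ∈ Finset.range (n + 1) → ∀ᶠ i in atTop, 0 < K →
      S.ab0 c.y cb.r.w.a.l - S.eta <
      (S.nu (plus (bsum c.y c.v (Finset.range K)) (emb (Fm.cw i) ζ))).real
        (c.PI K ∩ c.HK K) := by
    intro K hK
    have hKn : K ≤ n := Nat.lt_succ_iff.1 (Finset.mem_range.1 hK)
    rcases Nat.eq_zero_or_pos K with h0 | hK0
    · exact Eventually.of_forall fun i hi => absurd hi (by omega)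
    · have hop := S.isOpen_nu ((c.isOpen_PI K).inter (c.isOpen_HK K))
        (S.ab0 c.y cb.r.w.a.l - S.eta)
      have ht : Tendsto (fun i => plus (bsum c.y c.v (Finset.range K)) (emb (Fm.cw i) ζ)) atTop
          (𝓝 (bsum c.y c.v (Finset.range K))) := by
        refine tendsto_plus (Q := fun i => range (Fm.cw i)) Fm.cw_disj
          (fun i => emb_mem _ _) (fun i => ?_)
        rw [nm_emb (Fm.wobj i).1]
        have e1 := nm_bsum_le c.y c.v (Finset.range K)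
        have e2 := c.sum_le hKn
        have e3 := c.nm_y_le
        have e4 := cb.tB_le
        linarith
      filter_upwards [ht.eventually (hop.mem_nhds (c.accB hK0 hKn))] with i hi _
      exact hi
  obtain ⟨iw, hiw⟩ := ((Filter.eventually_all_finset _).2 hev).exists
  exact ⟨{ iw := iw, ζ := ζ, nm_ζ := hζ, ζ_le := by rw [hζ]; exact h1, phi_ge := hφ,
           accw := fun K hK0 hK => hiw K (Finset.mem_range.2 (Nat.lt_succ_of_le hK)) hK0 }⟩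

end Sys

end Pool.Agent.ZDB

end

section

/-!
# ZDB/WLev : levels of the points X_K = bsum y v (range K) + emb (cw iw) ζ
c₁ := cw iw, injective (wobj.1), outside As (cw_out), range c₁ ⊆ A'_j for all j (f2), so range c₁ ⊆ Av k for all k (k ≥ n: A'_{n−1} ⊆ top').  z := emb c₁ ζ ∈ BA (range c₁), nm z = nm ζ = tauF y ≤ tw/2.
All masses are fine: nm y ≤ 1 − 2tw, ∑ nm (v j) ≤ tB/2 ≤ tw/4.
* nm_X_le: nm_plus_le, nm_bsum_le, sum_le.  X_mem: plus_mem_BA.  res_X: `res_plus` (BallAux), res_bsum_Av, z ∈ BA (Av k).  ext_X: res As X = plus (res As bsum) (res As z) = plus y 0 (z vanishes on As).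
* step_le: bsum y v (range (K+1)) = plus (bsum y v (range K)) (v K) (Finset.range_add_one, bsum_insert); X (K+1) = plus (X K) (v K) (plus_assoc, plus_comm), nm_plus_le, v_nm.
* pull_X: pull_plus_emb with y := bsum: it vanishes on range c₁ (y ∈ BA b, b ⊆ As; v j ∈ BA (top'_j∖A'_j), range c₁ ⊆ A'_j).
* clopE: f2', Clop.mono.  E_disj: let l' ∈ E ∩ LA As.  For y'' ∈ BA As: pull c₁ y'' = 0 (cw_out), |T 1_E y''| ≤ |phi y'' 0| + e₁ ≤ 2e₁ (wobj, phi0).  one_le_int_T: 1 ≤ ∫ |T 1_E| dlam_{l'}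
  ≤ 2e₁·C ≤ 1/100 (lam_{l'} is carried by BA As).  Contradiction.  E_sub_D: Clop.subset_D.
-/

open Set Filter Topology MeasureTheory Pool.Agent.H53.ZD

namespace Pool.Agent.ZDB

variable {κ L : Type*} [TopologicalSpace L] [CompactSpace L] [T2Space L] [TotallyDisconnectedSpace L]
  [MeasurableSpace L] [BorelSpace L]

namespace Sys

variable {S : Sys κ L} {𝒢 : GoodFam S} {n : ℕ} {𝒢' : GoodFam S} {cb : CtxB 𝒢 n} {h : ℝ}
  {ct : CtxT 𝒢' cb h} {Fm : Fam ct}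

namespace ConfigW

variable {c : Config Fm} (W : ConfigW c)

/-- the points of the stem -/
noncomputable def X (K : ℕ) : Ball κ :=
  plus (bsum c.y c.v (Finset.range K)) (emb (Fm.cw W.iw) W.ζ)

/-- the clopen set of the `w`-object -/
def E : Set L := Fm.Ew W.iw

theorem wobjE : S.WObj cb.r.w.t cb.r.w.a.O cb.r.w.e₁ (Fm.cw W.iw) W.E := Fm.wobj W.iw

theorem range_sub_Av (k : ℕ) : range (Fm.cw W.iw) ⊆ c.Av k := by
  unfold Config.Av
  split_ifs with hk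
  · exact Fm.f2 k _ W.iw
  · exact (Fm.f2 (n - 1) _ W.iw).trans (Fm.Bl (n - 1) (c.ix (n - 1))).sub

private theorem wl_inj : Function.Injective (Fm.cw W.iw) := (Fm.wobj W.iw).1

private theorem wl_tB : (cb.tB : ℝ) ≤ cb.r.w.a.tw / 2 := by exact_mod_cast cb.tB_le

private theorem wl_tw : (0 : ℝ) < cb.r.w.a.tw := by exact_mod_cast cb.r.w.a.tw_pos

private theorem wl_nm_emb : nm (emb (Fm.cw W.iw) W.ζ) = nm W.ζ := nm_emb W.wl_inj W.ζ

private theorem wl_mass {K : ℕ} (hK : K ≤ n) :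
    nm c.y + ∑ j ∈ Finset.range K, nm (c.v j) + nm (emb (Fm.cw W.iw) W.ζ) ≤ 1 := by
  rw [W.wl_nm_emb]
  have h1 := c.sum_le hK
  have h2 := c.nm_y_le
  have h3 := W.ζ_le
  have h4 := wl_tB (cb := cb)
  have h5 := wl_tw (cb := cb)
  linarith

private theorem wl_mass' {K : ℕ} (hK : K ≤ n) :
    nm (bsum c.y c.v (Finset.range K)) + nm (emb (Fm.cw W.iw) W.ζ) ≤ 1 := by
  have h1 := W.wl_mass hK
  have h2 := nm_bsum_le c.y c.v (Finset.range K)
  linarith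

theorem nm_X_le {K : ℕ} (hK : K ≤ n) :
    nm (W.X K) ≤ nm c.y + S.tauF cb.r.w.a.O cb.r.w.t c.y + cb.tB / 2 := by
  have h1 := nm_plus_le (bsum c.y c.v (Finset.range K)) (emb (Fm.cw W.iw) W.ζ)
  have h2 := nm_bsum_le c.y c.v (Finset.range K)
  have h3 := c.sum_le hK
  rw [W.wl_nm_emb, W.nm_ζ] at h1
  unfold X
  linarith

theorem nm_X_lt {K : ℕ} (hK : K ≤ n) : nm (W.X K) < nm c.y + cb.r.w.a.tw := by
  have h1 := W.nm_X_le hK
  have h2 := W.ζ_le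
  rw [W.nm_ζ] at h2
  have h4 := wl_tB (cb := cb)
  have h5 := wl_tw (cb := cb)
  linarith

theorem X_mem {K : ℕ} (hK : K ≤ n) : W.X K ∈ BA (c.Av K) :=
  plus_mem_BA (c.bsum_mem hK) (BA_mono (W.range_sub_Av K) (emb_mem _ _))

theorem res_X {k K : ℕ} (hk : k ≤ K) (hK : K ≤ n) : Ball.res (c.Av k) (W.X K) = W.X k := by
  unfold X
  rw [res_plus (W.wl_mass' hK), c.res_bsum_Av hk hK]
  congr 1
  exact BA_mono (W.range_sub_Av k) (emb_mem _ _)

theorem ext_X {K : ℕ} (hK : K ≤ n) : S.Ext c.y Fm.As Fm.As (c.Av K) (W.X K) where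
  sub₀ := Subset.refl _
  sub₁ := c.As_sub_Av K
  ret₀ := 𝒢'.ret _ Fm.goodAs
  ret₁ := c.ret_Av K
  memY := W.X_mem hK
  resY := by
    unfold X
    rw [res_plus (W.wl_mass' hK), c.res_As hK]
    have h1 : Ball.res Fm.As (emb (Fm.cw W.iw) W.ζ) = 0 := by
      ext i
      by_cases hi : i ∈ Fm.As
      · rw [Ball.res_of_mem _ hi, Ball.zero_apply]
        refine mem_BA.1 (emb_mem (Fm.cw W.iw) W.ζ) i ?_
        rintro ⟨j, hj⟩
        exact Fm.cw_out W.iw j (hj ▸ hi)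
      · rw [Ball.res_of_notMem _ hi, Ball.zero_apply]
    rw [h1, plus_zero]

theorem step_le {K : ℕ} (hK : K < n) :
    nm (W.X (K + 1)) - nm (W.X K) ≤ (1 + h) * ct.t * cb.r.rh c.y := by
  have h0 := W.wl_mass (K := K + 1) hK
  have hz := nm_nonneg (emb (Fm.cw W.iw) W.ζ)
  have h1 : bsum c.y c.v (Finset.range (K + 1)) =
      plus (bsum c.y c.v (Finset.range K)) (c.v K) := by
    rw [Finset.range_add_one]
    refine bsum_insert Finset.notMem_range_self ?_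
    rw [← Finset.range_add_one]
    linarith
  have h2 : nm (bsum c.y c.v (Finset.range K)) + nm (c.v K) +
      nm (emb (Fm.cw W.iw) W.ζ) ≤ 1 := by
    have h3 := nm_bsum_le c.y c.v (Finset.range K)
    rw [Finset.sum_range_succ] at h0
    linarith
  have h4 : W.X (K + 1) = plus (W.X K) (c.v K) := by
    unfold X
    rw [h1, plus_assoc h2, plus_comm (c.v K), ← plus_assoc (by linarith)]
  have h5 := nm_plus_le (W.X K) (c.v K)
  rw [h4]
  have h6 := c.v_nm K hK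
  linarith

theorem pull_X {K : ℕ} (hK : K ≤ n) : pull (Fm.cw W.iw) (W.X K) = W.ζ := by
  unfold X
  refine pull_plus_emb W.wl_inj ?_ (by rw [← W.wl_nm_emb]; exact W.wl_mass' hK)
  intro j
  have hz := nm_nonneg (emb (Fm.cw W.iw) W.ζ)
  have h1 := W.wl_mass hK
  rw [bsum_apply (by linarith)]
  have h2 : c.y (Fm.cw W.iw j) = 0 :=
    mem_BA.1 c.y_mem _ fun hc => Fm.cw_out W.iw j (Fm.stabAs.1 hc)
  rw [h2, zero_add]
  refine Finset.sum_eq_zero fun i hi => ?_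
  refine mem_BA.1 (c.v_mem i ((Finset.mem_range.1 hi).trans_le hK)) _ fun hc => hc.2 ?_
  exact Fm.f2 i _ W.iw (mem_range_self j)

theorem clopE (k : ℕ) : S.Clop (c.Av k) W.E := by
  unfold Config.Av
  split_ifs with hk
  · exact Fm.f2' k _ W.iw
  · exact Clop.mono S (𝒢'.ret _ (Fm.Bl (n - 1) (c.ix (n - 1))).goodA')
      (𝒢'.ret _ (Fm.Bl (n - 1) (c.ix (n - 1))).goodT) (Fm.Bl (n - 1) (c.ix (n - 1))).sub
      (Fm.f2' (n - 1) _ W.iw)

theorem E_disj : Disjoint W.E (S.LA Fm.As) := by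
  rw [Set.disjoint_left]
  intro l' hl' hlA
  have hAs : S.Ret Fm.As := 𝒢'.ret _ Fm.goodAs
  have hC := S.C_pos
  have h1 := S.one_le_int_T W.wobjE.2.1 hl'
  have he : (0 : ℝ) < cb.r.w.e₁ := by exact_mod_cast cb.r.w.e₁_pos
  have hBA : ∀ᵐ y ∂(S.lam l'), y ∈ BA Fm.As := by
    rw [ae_iff]
    exact S.lam_compl_BA hAs hlA
  have h2 : ∀ᵐ y ∂(S.lam l'), |S.T (cind W.E) y| ≤ 2 * (cb.r.w.e₁ : ℝ) := by
    filter_upwards [hBA] with y hy
    have h3 := W.wobjE.2.2.2 y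
    have h4 : pull (Fm.cw W.iw) y = 0 := by
      ext j
      rw [pull_apply W.wl_inj, Ball.zero_apply]
      exact mem_BA.1 hy _ (Fm.cw_out W.iw j)
    rw [h4] at h3
    have h5 := cb.r.w.phi0 y
    have h6 := abs_sub_abs_le_abs_sub (S.T (cind W.E) y) (cb.r.w.t.phi y 0)
    linarith
  have h3 : ∫ y, |S.T (cind W.E) y| ∂(S.lam l') ≤ ∫ _y, 2 * (cb.r.w.e₁ : ℝ) ∂(S.lam l') := by
    refine integral_mono_ae ?_ (integrable_const _) h2
    refine integrable_bdd _ (S.T (cind W.E)).continuous.abs.measurable ‖S.T (cind W.E)‖ ?_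
    intro y
    rw [abs_abs]
    exact (S.T (cind W.E)).norm_coe_le_norm y
  rw [integral_const, smul_eq_mul] at h3
  have h4 := S.lam_univ_le l'
  have h5 : (cb.r.w.e₁ : ℝ) * S.C ≤ 1 / 200 := by
    have h6 := mul_le_mul_of_nonneg_right cb.r.w.e₁_le hC.le
    refine h6.trans (le_of_eq ?_)
    field_simp
  have h7 : (S.lam l').real univ * (2 * (cb.r.w.e₁ : ℝ)) ≤ S.C * (2 * (cb.r.w.e₁ : ℝ)) :=
    mul_le_mul_of_nonneg_right h4 (by linarith)
  linarith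

theorem E_sub_D (K : ℕ) : W.E ⊆ S.D Fm.As (c.Av K) :=
  Clop.subset_D S (𝒢'.ret _ Fm.goodAs) (c.ret_Av K) (c.As_sub_Av K) (W.clopE K) W.E_disj

end ConfigW

end Sys

end Pool.Agent.ZDB

end

section

/-!
# ZDB/AccNu : README 9.4, the accepted part of |ν_{X_K}|
X = W.X K, O = cb.r.w.a.O, D = D As (Av K), η = eta, c₁-tuple cw iw.
nu_E_ge: nu_X(E) ≥ |T 1_E X| (abs_T_cind_le) ≥ |phi X (pull cw X)| − e₁ (wobj) = |phi X ζ| − e₁ (pull_X) = |phi y ζ| − e₁ (phi_congr: p i ∈ b ⊆ As and res As X = y (ext_X))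
 ≥ 3/5·49/(100C) − 1/(200C) ≥ 1/(4C) (phi_ge, CtxA.TO_ge, e₁_le).
nu_SK_ge: nm X < nm y + tw, nm y ≤ 1 − 2tw.
(1) nu_X(O∩D) ≤ ahat y O tw ≤ alpha y O + (ahat y univ (2tw) − alpha y univ) ≤ ab0 y l + 2η (ext_le_ahat0, ahat_light, k4, k5).
(2) for O' ∈ Clop b, l ∈ O': ahat y (O∖O') tw ≤ alpha y (O∖O') + η (ahat_light, k5), alpha y (O∖O') = alpha y O − alpha y (O∩O') ≤ (ab0 y l + η) − ab0 y l (alpha_split, k4, ab0_le; nm y < 1).
  So nu_X((O∩D)∖fibre) ≤ 2η (ext_fibre_le).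
(3) nu_X(O ∩ Fs sw ∩ D) ≤ ahat y (O∩Fs sw) tw ≤ η (ext_le_ahat, k6).
(4) K > 0: PI K∩HK K ⊆ P_0 ⊆ OB ∩ D ⊆ O ∩ D (Pj_sub_OB, OB_sub, Pj_sub_D) and nu_X(PI K∩HK K) > ab0 y l − η (accw), so nu_X((O∩D)∖(PI K∩HK K)) ≤ 3η.
  K = 0: PI 0 = univ, CU 0 = ∅, and on the fibre (lam l').real univ ≥ (lam l).real univ (lam_real_ge): (O∩D)∖(PI 0∩HK 0) ⊆ (O∩D)∖fibre.
(5) nu_X((LA (Av K))ᶜ) = 0 (X_mem).
E ⊆ O ∩ D (wobj, E_sub_D), so E∖SK K is contained in the union of (2)-(5): nu_X(SK K) ≥ 1/(4C) − 2η − η − 3η ≥ 1/(8C).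
-/

open Set Filter Topology MeasureTheory Pool.Agent.H53.ZD

namespace Pool.Agent.ZDB

variable {κ L : Type*} [TopologicalSpace L] [CompactSpace L] [T2Space L] [TotallyDisconnectedSpace L]
  [MeasurableSpace L] [BorelSpace L]

namespace Sys

variable {S : Sys κ L} {𝒢 : GoodFam S} {n : ℕ} {𝒢' : GoodFam S} {cb : CtxB 𝒢 n} {h : ℝ}
  {ct : CtxT 𝒢' cb h} {Fm : Fam ct}

namespace ConfigW

variable {c : Config Fm} (W : ConfigW c)

/-- the accepted points of `L` -/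
def SK (K : ℕ) : Set L :=
  {l' | l' ∈ W.E ∧ l' ∈ c.PI K ∧ l' ∈ c.HK K ∧ S.rho cb.r.w.a.b l' = cb.r.w.a.l ∧
    S.Fv l' ≤ cb.r.w.a.sw ∧ l' ∈ S.LA (c.Av K)}

theorem nu_E_ge {K : ℕ} (hK : K ≤ n) : 1 / (4 * S.C) ≤ (S.nu (W.X K)).real W.E := by
  have hC := S.C_pos
  have h0 := W.wobjE
  have h1 := S.abs_T_cind_le h0.2.1 (W.X K)
  have h2 := h0.2.2.2 (W.X K)
  rw [W.pull_X hK] at h2
  have h3 : cb.r.w.t.phi (W.X K) W.ζ = cb.r.w.t.phi c.y W.ζ := by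
    refine cb.r.w.t.phi_congr (fun i => ?_) _
    have h4 : cb.r.w.t.p i ∈ Fm.As := Fm.stabAs.1 (cb.r.w.p_sub (mem_range_self i))
    have h5 := (W.ext_X hK).resY
    rw [← h5]
    exact (Ball.res_of_mem _ h4).symm
  rw [h3] at h2
  have h4 := W.phi_ge
  have h5 := cb.r.w.a.TO_ge c.y_K0
  have h6 := cb.r.w.e₁_le
  have h7 := abs_sub_abs_le_abs_sub (cb.r.w.t.phi c.y W.ζ) (S.T (cind W.E) (W.X K))
  rw [abs_sub_comm] at h7
  have h8 : 3 / 5 * (49 / (100 * S.C)) = 1 / (4 * S.C) + 1 / (200 * S.C) + 39 / (1000 * S.C) := by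
    field_simp
    norm_num
  have h9 : 0 < 39 / (1000 * S.C) := by positivity
  linarith

private theorem an_eta (S : Sys κ L) : 0 < S.eta ∧ 6 * S.eta ≤ 1 / (8 * S.C) := by
  have hC := S.C_pos
  have hC1 := S.one_le
  have h1 : S.eta = 1 / (10000 * S.C ^ 2) := rfl
  rw [h1]
  refine ⟨by positivity, ?_⟩
  rw [mul_one_div, div_le_div_iff₀ (by positivity) (by positivity)]
  nlinarith

private theorem an_tw (cb : CtxB 𝒢 n) : (0 : ℝ) < cb.r.w.a.tw := by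
  exact_mod_cast cb.r.w.a.tw_pos

include W in
private theorem an_fibre {K : ℕ} (hK : K ≤ n) :
    (S.nu (W.X K)).real ((cb.r.w.a.O ∩ S.D Fm.As (c.Av K)) \
      {l' | S.rho cb.r.w.a.b l' = cb.r.w.a.l}) ≤ 2 * S.eta := by
  have htw := an_tw cb
  have hy1 := c.nm_y_le
  refine S.ext_fibre_le (𝒢.ret _ cb.r.w.a.base.good) cb.r.w.a.base.memL Fm.stabAs c.y_mem
    cb.r.w.a.tw_pos (by linarith) cb.r.w.a.clopO (W.ext_X hK) (W.nm_X_lt hK) ?_
  intro O' hO' hlO'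
  have h1 := S.ahat_light (x := c.y) (cb.r.w.a.clopO.diff S hO').1 htw (by linarith)
  have h2 := S.alpha_split (x := c.y) cb.r.w.a.clopO.1.isOpen
    (S.upperSome_clopen cb.r.w.a.clopO.1) hO'.1 (by linarith)
  have h3 := cb.r.w.a.k4 _ c.y_K0
  have h4 := cb.r.w.a.k5 _ c.y_K0
  have h5 := S.ab0_le (x := c.y) (cb.r.w.a.clopO.1.inter hO'.1) ⟨cb.r.w.a.memO, hlO'⟩
  linarith

private theorem an_top {K : ℕ} (hK : K ≤ n) :
    (S.nu (W.X K)).real (cb.r.w.a.O ∩ S.D Fm.As (c.Av K)) ≤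
      S.ab0 c.y cb.r.w.a.l + 2 * S.eta := by
  have htw := an_tw cb
  have hy1 := c.nm_y_le
  have h0 := S.ext_le_ahat0 Fm.stabAs c.y_mem cb.r.w.a.tw_pos (by linarith) cb.r.w.a.clopO
    (W.ext_X hK) (W.nm_X_lt hK)
  have h1 := S.ahat_light (x := c.y) cb.r.w.a.clopO.1 htw (by linarith)
  have h3 := cb.r.w.a.k4 _ c.y_K0
  have h4 := cb.r.w.a.k5 _ c.y_K0
  linarith

private theorem an_Fs {K : ℕ} (hK : K ≤ n) :
    (S.nu (W.X K)).real (cb.r.w.a.O ∩ S.Fs cb.r.w.a.sw ∩ S.D Fm.As (c.Av K)) ≤ S.eta := by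
  have htw := an_tw cb
  have hy1 := c.nm_y_le
  have h0 := S.ext_le_ahat Fm.stabAs c.y_mem cb.r.w.a.tw_pos (by linarith) cb.r.w.a.clopO
    cb.r.w.a.sw (W.ext_X hK) (W.nm_X_lt hK)
  exact h0.trans (cb.r.w.a.k6 _ c.y_K0)

private theorem an_acc {K : ℕ} (hK : K ≤ n) :
    (S.nu (W.X K)).real ((cb.r.w.a.O ∩ S.D Fm.As (c.Av K)) \ (c.PI K ∩ c.HK K)) ≤
      3 * S.eta := by
  have hη := (an_eta S).1
  rcases Nat.eq_zero_or_pos K with rfl | hK0
  · refine (measureReal_mono ?_).trans ((W.an_fibre hK).trans (by linarith))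
    rintro l' ⟨h1, h2⟩
    refine ⟨h1, fun h3 => h2 ⟨fun j hj => absurd hj (Nat.not_lt_zero j), ?_⟩⟩
    have h4 : c.CU 0 = ∅ := by
      ext y'
      simp only [Config.CU, mem_ofPred_eq, mem_empty_iff_false, iff_false]
      rintro ⟨j, hj, -⟩
      exact absurd hj (Nat.not_lt_zero j)
    have h5 := S.lam_real_ge (𝒢.ret _ cb.r.w.a.base.good) (l := l') (l₀ := cb.r.w.a.l) h3
      (W := univ) MeasurableSet.univ (fun _ _ => mem_univ _)
    change (S.lam cb.r.w.a.l).real univ - S.eta < (S.lam l').real (c.CU 0)ᶜ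
    rw [h4, compl_empty]
    linarith
  · have h1 := W.accw K hK0 hK
    have h2 := W.an_top hK
    have hsub : c.PI K ∩ c.HK K ⊆ cb.r.w.a.O ∩ S.D Fm.As (c.Av K) := by
      rintro l' ⟨h3, -⟩
      have h4 := h3 0 hK0
      exact ⟨cb.OB_sub (c.Pj_sub_OB 0 h4), c.Pj_sub_D hK0 hK h4⟩
    have hm : MeasurableSet (c.PI K ∩ c.HK K) :=
      ((c.isOpen_PI K).inter (c.isOpen_HK K)).measurableSet
    rw [measureReal_sdiff hsub hm]
    change S.ab0 c.y cb.r.w.a.l - S.eta < (S.nu (W.X K)).real (c.PI K ∩ c.HK K) at h1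
    linarith

theorem nu_SK_ge {K : ℕ} (hK : K ≤ n) : 1 / (8 * S.C) ≤ (S.nu (W.X K)).real (W.SK K) := by
  have hC := S.C_pos
  have hη := an_eta S
  have h1 := W.nu_E_ge hK
  have h2 := W.an_fibre hK
  have h3 := W.an_Fs hK
  have h4 := W.an_acc hK
  have h5 : (S.nu (W.X K)).real (S.LA (c.Av K))ᶜ = 0 := by
    rw [measureReal_def, S.nu_compl_LA (c.ret_Av K) (W.X_mem hK), ENNReal.toReal_zero]
  have hsub : W.E ⊆ W.SK K ∪ (((cb.r.w.a.O ∩ S.D Fm.As (c.Av K)) \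
      {l' | S.rho cb.r.w.a.b l' = cb.r.w.a.l}) ∪
      ((cb.r.w.a.O ∩ S.Fs cb.r.w.a.sw ∩ S.D Fm.As (c.Av K)) ∪
      (((cb.r.w.a.O ∩ S.D Fm.As (c.Av K)) \ (c.PI K ∩ c.HK K)) ∪ (S.LA (c.Av K))ᶜ))) := by
    intro l' hl'
    have h6 : l' ∈ cb.r.w.a.O := W.wobjE.2.2.1 hl'
    have h7 : l' ∈ S.D Fm.As (c.Av K) := W.E_sub_D K hl'
    by_cases c1 : S.rho cb.r.w.a.b l' = cb.r.w.a.l
    · by_cases c2 : S.Fv l' ≤ cb.r.w.a.sw
      · by_cases c3 : l' ∈ c.PI K ∩ c.HK K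
        · by_cases c4 : l' ∈ S.LA (c.Av K)
          · exact Or.inl ⟨hl', c3.1, c3.2, c1, c2, c4⟩
          · exact Or.inr (Or.inr (Or.inr (Or.inr c4)))
        · exact Or.inr (Or.inr (Or.inr (Or.inl ⟨⟨h6, h7⟩, c3⟩)))
      · exact Or.inr (Or.inr (Or.inl ⟨⟨h6, not_le.1 c2⟩, h7⟩))
    · exact Or.inr (Or.inl ⟨⟨h6, h7⟩, c1⟩)
  have h6 := measureReal_mono (μ := S.nu (W.X K)) hsub
  have u1 := measureReal_union_le (μ := S.nu (W.X K)) (W.SK K)
    (((cb.r.w.a.O ∩ S.D Fm.As (c.Av K)) \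
      {l' | S.rho cb.r.w.a.b l' = cb.r.w.a.l}) ∪
      ((cb.r.w.a.O ∩ S.Fs cb.r.w.a.sw ∩ S.D Fm.As (c.Av K)) ∪
      (((cb.r.w.a.O ∩ S.D Fm.As (c.Av K)) \ (c.PI K ∩ c.HK K)) ∪ (S.LA (c.Av K))ᶜ)))
  have u2 := measureReal_union_le (μ := S.nu (W.X K)) ((cb.r.w.a.O ∩ S.D Fm.As (c.Av K)) \
      {l' | S.rho cb.r.w.a.b l' = cb.r.w.a.l})
      ((cb.r.w.a.O ∩ S.Fs cb.r.w.a.sw ∩ S.D Fm.As (c.Av K)) ∪
      (((cb.r.w.a.O ∩ S.D Fm.As (c.Av K)) \ (c.PI K ∩ c.HK K)) ∪ (S.LA (c.Av K))ᶜ))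
  have u3 := measureReal_union_le (μ := S.nu (W.X K))
      (cb.r.w.a.O ∩ S.Fs cb.r.w.a.sw ∩ S.D Fm.As (c.Av K))
      (((cb.r.w.a.O ∩ S.D Fm.As (c.Av K)) \ (c.PI K ∩ c.HK K)) ∪ (S.LA (c.Av K))ᶜ)
  have u4 := measureReal_union_le (μ := S.nu (W.X K))
      ((cb.r.w.a.O ∩ S.D Fm.As (c.Av K)) \ (c.PI K ∩ c.HK K)) (S.LA (c.Av K))ᶜ
  have h7 : 1 / (4 * S.C) = 1 / (8 * S.C) + 1 / (8 * S.C) := by
    field_simp
    norm_num
  linarith [hη.2]

end ConfigW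

end Sys

end Pool.Agent.ZDB

end

section

/-!
# ZDB/AccLam : README 9.4, the accepted part of |λ_{l'}|
l' ∈ SK K, b ⊆ Av K, l' ∈ LA (Av K), ρ_b l' = l, Fv l' ≤ sw ≤ Fv l + eta; m = (lam l).real univ; μ = lam l'.
* μ(univ) ≤ m + C·eta (rigid_mass, Fv_mono_of_rho).  μ(CU K) = μ(univ) − μ((CU K)ᶜ) ≤ (C+1)eta (HK; isClosed_CU).
* μ(res b⁻¹ K₂) ≥ (lam l).real K₂ ≥ 1/(10C) (lam_rho_real, K₂_ge).
* Bw := {y' | res b y' ∈ K₂, |T 1_E y'| < 9/10|T 1_O y'|}: for such y' let y₂ = res b y' ∈ K₂ ⊆ cb.K ⊆ K0: |T 1_O y'| = |T 1_O y₂| ≥ 49/(100C) (Clop.T_res, TO_ge);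
  T 1_O y' = T 1_E y' + T 1_{O∖E} y' (cind_diff, E ⊆ O), |T 1_{O∖E} y'| ≤ nu_{y'}(O∖E) ≤ nu_{y'}(O∖{l'}) (l' ∈ E), so nu_{y'}(O∖{l'}) > 1/10·49/(100C) = 49/(1000C).
  ∫ nu_{y'}(O∖{l'}) dμ ≤ (Fv l' − Fv l) + ∫ nu_y(O∖{l}) dlam_l ≤ 2eta (rigid_clop, k7).  Markov: μ(Bw) ≤ 2eta·1000C/49 ≤ 41·C·eta.
* μ(RK K) ≥ 1/(10C) − (C+1)eta − 41·C·eta ≥ 1/(10C) − 43/(10000C) ≥ 1/(20C).
-/

open Set Filter Topology MeasureTheory Pool.Agent.H53.ZD

namespace Pool.Agent.ZDB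

variable {κ L : Type*} [TopologicalSpace L] [CompactSpace L] [T2Space L] [TotallyDisconnectedSpace L]
  [MeasurableSpace L] [BorelSpace L]

namespace Sys

variable {S : Sys κ L} {𝒢 : GoodFam S} {n : ℕ} {𝒢' : GoodFam S} {cb : CtxB 𝒢 n} {h : ℝ}
  {ct : CtxT 𝒢' cb h} {Fm : Fam ct}

namespace ConfigW

variable {c : Config Fm} (W : ConfigW c)

/-- the accepted points of the ball -/
def RK (K : ℕ) : Set (Ball κ) :=
  {y' | Ball.res cb.r.w.a.b y' ∈ ct.K₂ ∧ y' ∉ c.CU K ∧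
    9 / 10 * |S.T (cind cb.r.w.a.O) y'| ≤ |S.T (cind W.E) y'|}

private theorem al_val {y : Ball κ} {l' : L} (hE : l' ∈ W.E)
    (hy : Ball.res cb.r.w.a.b y ∈ ct.K₂)
    (hn : (S.nu y).real (cb.r.w.a.O \ {l'}) < 49 / (1000 * S.C)) :
    9 / 10 * |S.T (cind cb.r.w.a.O) y| ≤ |S.T (cind W.E) y| := by
  have hC := S.C_pos
  have hrb := 𝒢.ret _ cb.r.w.a.base.good
  have hEc : IsClopen W.E := W.wobjE.2.1
  have hEO : W.E ⊆ cb.r.w.a.O := W.wobjE.2.2.1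
  have h5 := cb.r.w.a.TO_ge (cb.r.w.K1_sub (cb.r.K_sub (cb.K_sub (ct.K₂_sub hy))))
  have h6 : S.T (cind cb.r.w.a.O) (Ball.res cb.r.w.a.b y) = S.T (cind cb.r.w.a.O) y :=
    cb.r.w.a.clopO.T_res S hrb y
  rw [h6] at h5
  have h7 : |S.T (cind cb.r.w.a.O) y - S.T (cind W.E) y| ≤
      (S.nu y).real (cb.r.w.a.O \ {l'}) := by
    have h8 : S.T (cind cb.r.w.a.O) y - S.T (cind W.E) y =
        S.T (cind (cb.r.w.a.O \ W.E)) y := by
      rw [cind_diff cb.r.w.a.clopO.1 hEc hEO, map_sub]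
      rfl
    rw [h8]
    refine (S.abs_T_cind_le (cb.r.w.a.clopO.1.diff hEc) y).trans ?_
    refine measureReal_mono ?_
    exact sdiff_subset_sdiff_right (singleton_subset_iff.2 hE)
  have h9 : 49 / (1000 * S.C) = 1 / 10 * (49 / (100 * S.C)) := by
    field_simp
    norm_num
  have h11 := abs_sub_abs_le_abs_sub (S.T (cind cb.r.w.a.O) y) (S.T (cind W.E) y)
  rw [h9] at hn
  linarith

theorem lam_RK_ge {K : ℕ} {l' : L} (hl' : l' ∈ W.SK K) :
    1 / (20 * S.C) ≤ (S.lam l').real (W.RK K) := by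
  obtain ⟨hE, -, hHK, hrho, hF, hLA⟩ := hl'
  have hC := S.C_pos
  have hC1 := S.one_le
  have hrb := 𝒢.ret _ cb.r.w.a.base.good
  have hrA := c.ret_Av K
  have hbA := c.b_sub_Av K
  have hsw := cb.r.w.a.sw_le
  have hdF : S.Fv l' - S.Fv cb.r.w.a.l ≤ S.eta := by linarith
  have heta : S.eta = 1 / (10000 * S.C ^ 2) := rfl
  have hCeta : S.C * S.eta = 1 / 10000 * (1 / S.C) := by
    rw [heta]
    field_simp
  have heta0 : 0 ≤ S.eta := by
    rw [heta]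
    positivity
  have heta1 : S.eta ≤ S.C * S.eta := le_mul_of_one_le_left heta0 hC1
  -- mass
  have h1 := S.rigid_mass hrb hrA hbA hLA hrho
  have h1' : S.C * (S.Fv l' - S.Fv cb.r.w.a.l) ≤ S.C * S.eta :=
    mul_le_mul_of_nonneg_left hdF hC.le
  -- cheap returns
  have hCUm : MeasurableSet (c.CU K) := (c.isClosed_CU K).measurableSet
  have h2 := measureReal_compl (μ := S.lam l') hCUm
  have h2' : (S.lam cb.r.w.a.l).real univ - S.eta < (S.lam l').real (c.CU K)ᶜ := hHK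
  -- the set over `K₂`
  have hK₂m : MeasurableSet ct.K₂ := ct.K₂_compact.isClosed.measurableSet
  have h3 := S.lam_rho_real hrb l' hK₂m
  rw [hrho] at h3
  have h3' := ct.K₂_ge
  -- Markov
  have hOm : MeasurableSet (cb.r.w.a.O \ {l'}) :=
    cb.r.w.a.clopO.1.isOpen.measurableSet.diff (measurableSet_singleton _)
  have hint : Integrable (fun y => (S.nu y).real (cb.r.w.a.O \ {l'})) (S.lam l') :=
    integrable_bdd _ (S.measurable_nu_real hOm) S.C fun y => by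
      rw [abs_of_nonneg measureReal_nonneg]
      exact S.nu_le y _
  have h6 := mul_meas_ge_le_integral_of_nonneg
    (ae_of_all _ fun y => (measureReal_nonneg : 0 ≤ (S.nu y).real (cb.r.w.a.O \ {l'}))) hint
    (49 / (1000 * S.C))
  have h7 := S.rigid_clop hrb hrA hbA hLA hrho cb.r.w.a.clopO cb.r.w.a.memO
  have h8 := cb.r.w.a.k7
  have h9 : (S.lam l').real {y | 49 / (1000 * S.C) ≤ (S.nu y).real (cb.r.w.a.O \ {l'})} ≤
      41 * (S.C * S.eta) := by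
    have h10 : 49 / (1000 * S.C) * (S.lam l').real
        {y | 49 / (1000 * S.C) ≤ (S.nu y).real (cb.r.w.a.O \ {l'})} ≤
        49 / (1000 * S.C) * (41 * (S.C * S.eta)) := by
      have h11 : 49 / (1000 * S.C) * (41 * (S.C * S.eta)) = 2009 / 1000 * S.eta := by
        field_simp
        ring
      rw [h11]
      linarith
    exact le_of_mul_le_mul_left h10 (by positivity)
  -- the cover
  have hsub : Ball.res cb.r.w.a.b ⁻¹' ct.K₂ ⊆ W.RK K ∪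
      (c.CU K ∪ {y | 49 / (1000 * S.C) ≤ (S.nu y).real (cb.r.w.a.O \ {l'})}) := by
    intro y hy
    by_cases h10 : y ∈ c.CU K
    · exact Or.inr (Or.inl h10)
    · by_cases h11 : 49 / (1000 * S.C) ≤ (S.nu y).real (cb.r.w.a.O \ {l'})
      · exact Or.inr (Or.inr h11)
      · exact Or.inl ⟨hy, h10, al_val W hE hy (not_le.1 h11)⟩
  have h12 := measureReal_mono (μ := S.lam l') hsub
  have h13 := measureReal_union_le (μ := S.lam l') (W.RK K)
    (c.CU K ∪ {y | 49 / (1000 * S.C) ≤ (S.nu y).real (cb.r.w.a.O \ {l'})})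
  have h14 := measureReal_union_le (μ := S.lam l') (c.CU K)
    {y | 49 / (1000 * S.C) ≤ (S.nu y).real (cb.r.w.a.O \ {l'})}
  have h15 : 1 / (10 * S.C) = 1 / 10 * (1 / S.C) := by field_simp
  have h16 : 1 / (20 * S.C) = 1 / 20 * (1 / S.C) := by field_simp
  have h17 : 0 < 1 / S.C := by positivity
  rw [h15] at h3'
  rw [h16]
  rw [hCeta] at h1' h9 heta1
  linarith

end ConfigW

end Sys

end Pool.Agent.ZDB

end

section

/-!
# ZDB/AccVal : README 9.4, the values of the event functions on the accepted part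
Let y' ∈ RK K, y₂ := res b y' ∈ K₂ ⊆ cb.K ⊆ r.K ⊆ K1 ⊆ K0.
* mass_F₀_ge: |T 1_O y₂| = |T 1_O y'| =: M ≥ 49/(100C) (Clop.T_res, TO_ge).  |phi y' (pull cw y')| ≥ |T 1_E y'| − e₁ ≥ 9/10·M − e₁ ≥ 17/20·M (e₁ ≤ 1/(200C) ≤ M/20), phi y' · = phi y₂ ·
  (phi_congr, p_sub: y' = y₂ on b).  gap: tauF y₂ + g ≤ nm (pull cw y') = mass (range cw) y' (nm_pull).  mass Fb y' = mass Fb y₂ ≥ nm y₂ − g/100 (Fb_sub, Fb_ge).
  rh_close: nm y₂ + tauF y₂ ≥ 1 − rh y₂ − g·tw/1000, rh y₂ = rh y' (rh_lev); tw ≤ 1/2.  Fb ⊆ b ⊆ As and range cw (outside As) are disjoint, so mass F₀ y' = mass Fb y' + mass (range cw) y'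
  ≥ 1 − rh y' + g − g/100 − g/1000 ≥ 1 − rh y' + 9g/10.
* pf_val: y' ∉ CU K, j < K, res b y' ∈ K₂: mass F_j y' > (1−2h)·t·rh y' (def of Cs).  h·t·rh > 0 (rh ≥ tw/2 > 0), ginv_apply: mass F_j y'·ginv y' ≥ (1−2h)/h = (1−3h)/h + 1: pf_eq_one.
-/

open Set Filter Topology MeasureTheory Pool.Agent.H53.ZD

namespace Pool.Agent.ZDB

variable {κ L : Type*} [TopologicalSpace L] [CompactSpace L] [T2Space L] [TotallyDisconnectedSpace L]
  [MeasurableSpace L] [BorelSpace L]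

namespace Sys

variable {S : Sys κ L} {𝒢 : GoodFam S} {n : ℕ} {𝒢' : GoodFam S} {cb : CtxB 𝒢 n} {h : ℝ}
  {ct : CtxT 𝒢' cb h} {Fm : Fam ct}

namespace ConfigW

variable {c : Config Fm} (W : ConfigW c)

open Classical in
/-- the coordinates of the event `e₀` -/
noncomputable def F₀ : Finset κ := cb.r.Fb ∪ Finset.univ.image (Fm.cw W.iw)

private theorem av_coe_F₀ : (W.F₀ : Set κ) = (cb.r.Fb : Set κ) ∪ range (Fm.cw W.iw) := by
  classical
  unfold F₀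
  rw [Finset.coe_union, Finset.coe_image, Finset.coe_univ, image_univ]

theorem F₀_sub : (W.F₀ : Set κ) ⊆ c.Av 0 := by
  rw [av_coe_F₀]
  exact union_subset (cb.r.Fb_sub.trans (c.b_sub_Av 0)) (W.range_sub_Av 0)

theorem mass_F₀_ge {K : ℕ} {y' : Ball κ} (hy' : y' ∈ W.RK K) :
    1 - cb.r.rh y' + 9 * cb.r.g / 10 ≤ Ball.mass (W.F₀ : Set κ) y' := by
  have hC := S.C_pos
  have hrb : S.Ret cb.r.w.a.b := 𝒢.ret _ cb.r.w.a.base.good
  set b : Set κ := cb.r.w.a.b with hb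
  set y₂ : Ball κ := Ball.res b y' with hy₂
  obtain ⟨hK₂, -, hE⟩ := hy'
  have hcK : y₂ ∈ cb.K := ct.K₂_sub hK₂
  have hrK : y₂ ∈ cb.r.K := cb.K_sub hcK
  have hK1 : y₂ ∈ cb.r.w.K1 := cb.r.K_sub hrK
  have hK0 : y₂ ∈ cb.r.w.a.K0 := cb.r.w.K1_sub hK1
  have hTO : S.T (cind cb.r.w.a.O) y₂ = S.T (cind cb.r.w.a.O) y' :=
    Clop.T_res S hrb cb.r.w.a.clopO y'
  have hM := cb.r.w.a.TO_ge hK0
  rw [hTO] at hM
  have hinj : Function.Injective (Fm.cw W.iw) := (W.wobjE).1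
  have hw := (W.wobjE).2.2.2 y'
  have hphi : cb.r.w.t.phi y' (pull (Fm.cw W.iw) y') =
      cb.r.w.t.phi y₂ (pull (Fm.cw W.iw) y') := by
    refine cb.r.w.t.phi_congr (fun i => ?_) _
    have h1 : cb.r.w.t.p i ∈ b := cb.r.w.p_sub ⟨i, rfl⟩
    rw [hy₂, Ball.res_of_mem _ h1]
  have he₁ := cb.r.w.e₁_le
  have hgap := cb.r.gap y₂ hK0 (pull (Fm.cw W.iw) y') (by
    rw [← hphi, hTO]
    have h1 : |S.T (cind W.E) y'| - |cb.r.w.t.phi y' (pull (Fm.cw W.iw) y')| ≤ cb.r.w.e₁ :=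
      (abs_sub_abs_le_abs_sub _ _).trans hw
    have h2 : (1 : ℝ) / (200 * S.C) ≤ 1 / 20 * |S.T (cind cb.r.w.a.O) y'| := by
      refine le_trans ?_ (mul_le_mul_of_nonneg_left hM (by norm_num))
      rw [← sub_nonneg]
      have : 1 / 20 * (49 / (100 * S.C)) - 1 / (200 * S.C) = 39 / (2000 * S.C) := by
        field_simp
        norm_num
      rw [this]
      positivity
    linarith)
  rw [nm_pull hinj] at hgap
  have hcl := (abs_le.1 (cb.r.rh_close y₂ hrK)).1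
  have hFb := cb.r.Fb_ge y₂ hrK
  have hrh : cb.r.rh y₂ = cb.r.rh y' := DFunLike.congr_fun cb.r.rh_lev y'
  have hmF : Ball.mass (cb.r.Fb : Set κ) y₂ = Ball.mass (cb.r.Fb : Set κ) y' :=
    Ball.mass_congr fun i hi => Ball.res_of_mem _ (cb.r.Fb_sub hi)
  have hdis : Disjoint (cb.r.Fb : Set κ) (range (Fm.cw W.iw)) := by
    rw [Set.disjoint_left]
    rintro _ h1 ⟨j, rfl⟩
    exact Fm.cw_out W.iw j (Fm.stabAs.1 (cb.r.Fb_sub h1))
  rw [av_coe_F₀, Ball.mass_union hdis]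
  have htw := cb.r.w.a.tw_le
  have hg := cb.r.g_pos
  have hgt : cb.r.g * cb.r.w.a.tw ≤ cb.r.g * (1 / 2) := mul_le_mul_of_nonneg_left htw hg.le
  rw [hmF] at hFb
  rw [hrh] at hcl
  linarith

theorem rh_pos (hh : 0 < h) (y : Ball κ) : 0 < h * ct.t * cb.r.rh y := by
  have h1 : (0 : ℝ) < ct.t := by exact_mod_cast ct.t_pos
  have h2 : (0 : ℝ) < cb.r.w.a.tw := by exact_mod_cast cb.r.w.a.tw_pos
  have h3 := cb.r.rh_ge y
  have h4 : 0 < cb.r.rh y := by linarith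
  positivity

theorem pf_val (hh : 0 < h) {K j : ℕ} (hj : j < K) {l' : L} (hl' : l' ∈ c.Pj j) {y' : Ball κ}
    (hy' : y' ∈ W.RK K) :
    pf (ginv cb.r.rh (h * ct.t)) ((1 - 3 * h) / h) (c.Pj j) (c.Fj j) (l', y') = 1 := by
  refine pf_eq_one (c.isClopen_Pj j) hl' ?_
  rw [ginv_apply (fun y => rh_pos hh y)]
  obtain ⟨hK₂, hCU, -⟩ := hy'
  have hnot : y' ∉ ct.Cs (c.Fj j) := fun h1 => hCU ⟨j, hj, h1⟩
  have hlt : (1 - 2 * h) * ct.t * cb.r.rh y' < Ball.mass (c.Fj j : Set κ) y' := by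
    by_contra hcon
    exact hnot ⟨hK₂, not_lt.1 hcon⟩
  have hp := rh_pos (ct := ct) hh y'
  have hhne : h ≠ 0 := hh.ne'
  rw [← div_eq_mul_inv, le_div_iff₀ hp]
  have e : ((1 - 3 * h) / h + 1) * (h * ct.t * cb.r.rh y') = (1 - 2 * h) * ct.t * cb.r.rh y' := by
    field_simp
    ring
  rw [e]
  exact hlt.le

end ConfigW

end Sys

end Pool.Agent.ZDB

end

section

/-!
# ZDB/MkPath : the path data of the final assembly
The fields are the lemmas of ConfDef, WLev, EvDef, AccVal.  mkPath_Xk: res_X.  mkPath_N: N_ge with U = SK K, R = fun _ => RK K, r = 1/(8C), s = 1/(20C): on SK K × RK K the function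
ek K = e₀·∏_{i<K} pf .. is 1 (evE_eq_one with mass_F₀_ge; pf_val, PI).
-/

open Set Filter Topology MeasureTheory Pool.Agent.H53.ZD

namespace Pool.Agent.ZDB

variable {κ L : Type*} [TopologicalSpace L] [CompactSpace L] [T2Space L] [TotallyDisconnectedSpace L]
  [MeasurableSpace L] [BorelSpace L]

namespace Sys

variable {S : Sys κ L} {𝒢 : GoodFam S} {n : ℕ} {𝒢' : GoodFam S} {cb : CtxB 𝒢 n} {h : ℝ}
  {ct : CtxT 𝒢' cb h} {Fm : Fam ct}

namespace ConfigW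

variable {c : Config Fm} (W : ConfigW c)

/-- the path data -/
noncomputable def mkPath (hh : 0 < h) (hh' : h ≤ 1 / 4)
    (hst : ∀ A, 𝒢'.G A → S.StemRefl (ginv cb.r.rh (h * ct.t)) ((1 - 3 * h) / h) A) :
    PathData S n where
  g := ginv cb.r.rh (h * ct.t)
  r₀ := (1 - 3 * h) / h
  g_pos := ginv_pos _ _
  r₀_nonneg := div_nonneg (by linarith) hh.le
  A := c.Av
  mono := c.mono_Av
  ret := c.ret_Av
  stem := fun k _ => hst _ (c.good_Av k)
  g_lev := ginv_lev _ cb.r.rh_lev (c.b_sub_Av 0)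
  X := W.X n
  memX := W.X_mem le_rfl
  e₀ := evE W.E W.F₀ cb.r.rh cb.r.g
  e₀_nonneg := evE_nonneg _ _ _ _
  e₀_le_one := evE_le_one _ _ _ _
  e₀_lev := S.evE_lev (W.clopE 0) W.F₀_sub cb.r.rh_lev (c.b_sub_Av 0) _
  P := c.Pj
  F := c.Fj
  clopP := fun _ hk => c.clopP hk
  F_sub := fun _ hk => c.Fj_sub hk
  F_ne := fun k _ => (Fm.Bl k (c.ix k)).F_ne
  F₀ := W.F₀
  F₀_sub := W.F₀_sub
  u := (1 + h) * ct.t * cb.r.rh c.y
  u_pos := by
    have h1 : (0 : ℝ) < ct.t := by exact_mod_cast ct.t_pos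
    have h2 : (0 : ℝ) < cb.r.w.a.tw := by exact_mod_cast cb.r.w.a.tw_pos
    have h3 := cb.r.rh_ge c.y
    have h4 : 0 < cb.r.rh c.y := lt_of_lt_of_le (by positivity) h3
    positivity
  step_le := fun k hk => by
    rw [W.res_X hk le_rfl, W.res_X hk.le le_rfl]
    exact W.step_le hk

theorem mkPath_Xk (hh : 0 < h) (hh' : h ≤ 1 / 4)
    (hst : ∀ A, 𝒢'.G A → S.StemRefl (ginv cb.r.rh (h * ct.t)) ((1 - 3 * h) / h) A) {k : ℕ}
    (hk : k ≤ n) : (W.mkPath hh hh' hst).Xk k = W.X k := W.res_X hk le_rfl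

theorem mkPath_N (hh : 0 < h) (hh' : h ≤ 1 / 4)
    (hst : ∀ A, 𝒢'.G A → S.StemRefl (ginv cb.r.rh (h * ct.t)) ((1 - 3 * h) / h) A) {k : ℕ}
    (hk : k ≤ n) : 1 / (160 * S.C ^ 2) ≤
      S.N ((W.mkPath hh hh' hst).Xk k) ((W.mkPath hh hh' hst).ek k) := by
  have hC := S.C_pos
  rw [W.mkPath_Xk hh hh' hst hk]
  have h1 : 1 / (160 * S.C ^ 2) = 1 / (8 * S.C) * (1 / (20 * S.C)) := by
    field_simp
    norm_num
  rw [h1]
  refine S.N_ge (W.X k) ((W.mkPath hh hh' hst).ek_nonneg k) (U := W.SK k)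
    (R := fun _ => W.RK k) (by positivity) (by positivity) (W.nu_SK_ge hk)
    (fun l hl => W.lam_RK_ge hl) ?_
  intro l hl y hy
  refine le_of_eq (Eq.symm ?_)
  have h2 : (W.mkPath hh hh' hst).e₀ (l, y) = 1 :=
    evE_eq_one cb.r.g_pos (W.clopE 0).1 hl.1 (W.mass_F₀_ge hy)
  have h3 : ∀ i ∈ Finset.range k, pf (W.mkPath hh hh' hst).g (W.mkPath hh hh' hst).r₀
      ((W.mkPath hh hh' hst).P i) ((W.mkPath hh hh' hst).F i) (l, y) = 1 := by
    intro i hi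
    exact W.pf_val hh (Finset.mem_range.1 hi) (hl.2.1 i (Finset.mem_range.1 hi)) hy
  rw [PathData.ek, ContinuousMap.mul_apply, h2, one_mul, ContinuousMap.prod_apply]
  exact Finset.prod_eq_one h3

end ConfigW

end Sys

end Pool.Agent.ZDB

end

section

/-!
# ZDB/Finish : the contradiction
𝒢₀ (exists_goodFam), 𝒢 := refine club_wrefl, (b,l) := exists_base 𝒢, a := exists_ctxA, w := exists_ctxW, r := exists_ctxR, h := r.g/100, (n, J) := path_thm S (1/(160C²)) h,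
𝒢' := 𝒢.refine (∀ q : ℚ, StemRefl (ginv r.rh (h q)) ((1−3h)/h)) (Club.forall, club_stem), dB := g·tw/(500(1+J)), cb := exists_ctxB r n, ct, Fm, c, W; path data mkPath;
ψ₀ y := 1 − rh y + g/2: evE_pos; numFin with nX = nm X ≤ nm y + tauF y + tB/2 (nm_X_le), rh_close; mkPath_N.
-/

open Set Filter Topology MeasureTheory Pool.Agent.H53.ZD

namespace Pool.Agent.ZDB

variable {κ L : Type*} [TopologicalSpace L] [CompactSpace L] [T2Space L] [TotallyDisconnectedSpace L]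
  [MeasurableSpace L] [BorelSpace L]

namespace Sys

theorem no_sys [Uncountable κ] (S : Sys κ L) : False := by
  classical
  obtain ⟨𝒢₀⟩ := exists_goodFam S
  obtain ⟨𝒢, h𝒢⟩ := 𝒢₀.refine S.club_wrefl
  obtain ⟨b, l, hbl⟩ := exists_base 𝒢
  obtain ⟨a⟩ := exists_ctxA hbl (h𝒢 _ hbl.good).2
  obtain ⟨w⟩ := exists_ctxW a
  obtain ⟨r⟩ := exists_ctxR w
  have hg := r.g_pos
  have hg1 := r.g_le
  have hC := S.C_pos
  obtain ⟨n, J, hn, hJ, hpath⟩ := path_thm S (θ := 1 / (160 * S.C ^ 2)) (η := r.g / 100)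
    (by positivity) (by positivity) (by linarith)
  obtain ⟨𝒢', h𝒢'⟩ := 𝒢.refine (Club.forall fun q : ℚ =>
    S.club_stem (ginv r.rh (r.g / 100 * q)) ((1 - 3 * (r.g / 100)) / (r.g / 100)))
  have htw : (0 : ℝ) < r.w.a.tw := by exact_mod_cast r.w.a.tw_pos
  obtain ⟨cb, hr, hd⟩ := exists_ctxB r n (dB := r.g * r.w.a.tw / (500 * (1 + J)))
    (by positivity)
  subst hr
  have hh : 0 < cb.r.g / 100 := by positivity
  have hh' : cb.r.g / 100 ≤ 1 / 4 := by linarith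
  obtain ⟨ct⟩ := exists_ctxT hn 𝒢' (fun A hA => (h𝒢' A hA).1) cb hh (by linarith)
  obtain ⟨Fm⟩ := exists_fam hn (fun A hA => (h𝒢' A hA).1) hh hh' ct
  obtain ⟨c⟩ := Fm.exists_config hn
  obtain ⟨W⟩ := c.exists_configW
  have hst : ∀ A, 𝒢'.G A → S.StemRefl (ginv cb.r.rh (cb.r.g / 100 * ct.t))
      ((1 - 3 * (cb.r.g / 100)) / (cb.r.g / 100)) A := fun A hA => (h𝒢' A hA).2 ct.t
  refine hpath (W.mkPath hh hh' hst) (fun y => 1 - cb.r.rh y + cb.r.g / 2) ?_ ?_ ?_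
  · intro l' y h
    exact evE_pos hg h
  · intro y
    have ht : (0 : ℝ) < ct.t := by exact_mod_cast ct.t_pos
    have htB : (0 : ℝ) < cb.tB := by exact_mod_cast cb.tB_pos
    have hry := cb.r.rh_ge c.y
    have hr'0 : 0 < cb.r.rh y := lt_of_lt_of_le (by positivity) (cb.r.rh_ge y)
    have hclose := abs_le.1 (cb.r.rh_close c.y (cb.K_sub c.hy))
    have hnX : nm (W.X n) ≤ 1 - cb.r.rh c.y + cb.r.g * cb.r.w.a.tw / 1000 + cb.tB / 2 := by
      have := W.nm_X_le (K := n) le_rfl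
      linarith [hclose.2]
    have key := numFin (n := n) (J := J) hg hg1 htw ht htB hn hry hr'0 (cb.r.rh_le y) hnX
      ct.t_le hd
    have hginv : ginv cb.r.rh (cb.r.g / 100 * ct.t) y = (cb.r.g / 100 * ct.t * cb.r.rh y)⁻¹ :=
      ginv_apply (fun z => by
        have : 0 < cb.r.rh z := lt_of_lt_of_le (by positivity) (cb.r.rh_ge z)
        positivity) y
    change 1 ≤ 1 - cb.r.rh y + cb.r.g / 2 + (1 - cb.r.g / 100) *
      ((1 - nm (W.X n)) / ((1 + cb.r.g / 100) * ct.t * cb.r.rh c.y) - J) *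
      (((1 - 3 * (cb.r.g / 100)) / (cb.r.g / 100)) / ginv cb.r.rh (cb.r.g / 100 * ct.t) y)
    rw [hginv]
    exact key
  · intro k hk
    exact W.mkPath_N hh hh' hst hk

end Sys

end Pool.Agent.ZDB

end
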