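import Mathlib

/-!
# Merged form of the modules H53.ZD.Ball, H53.ZD.Func, ZDB.Core, ZDB.BallAux, ZDB.CindAux, ZDB.Club
-/

set_option autoImplicit false
set_option linter.unusedSectionVars false

section

open Set Filter Topology

namespace Pool.Agent.H53.ZD

/-- the closed unit ball of `ℓ¹(ι)`, with the topology of pointwise convergence -/
def Ball (ι : Type*) : Type _ := {x : ι → ℝ // ∀ s : Finset ι, ∑ i ∈ s, |x i| ≤ 1}

variable {ι : Type*}

instance : TopologicalSpace (Ball ι) :=
  TopologicalSpace.induced (fun x : {x : ι → ℝ // ∀ s : Finset ι, ∑ i ∈ s, |x i| ≤ 1} => x.1)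
    inferInstance

instance : FunLike (Ball ι) ι ℝ where
  coe x := x.1
  coe_injective := Subtype.val_injective

namespace Ball

lemma inducing : Topology.IsInducing (fun x : Ball ι => (x : ι → ℝ)) := ⟨rfl⟩

@[ext] lemma ext' {x y : Ball ι} (h : ∀ i, x i = y i) : x = y := DFunLike.ext _ _ h

lemma sum_le (x : Ball ι) (s : Finset ι) : ∑ i ∈ s, |x i| ≤ 1 := x.2 s

lemma abs_le_one (x : Ball ι) (i : ι) : |x i| ≤ 1 := by simpa using x.sum_le {i}

lemma continuous_val : Continuous (fun x : Ball ι => (x : ι → ℝ)) := inducing.continuous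

lemma continuous_coord (i : ι) : Continuous (fun x : Ball ι => x i) :=
  (continuous_apply i).comp continuous_val

lemma continuous_iff {X : Type*} [TopologicalSpace X] {f : X → Ball ι} :
    Continuous f ↔ ∀ i, Continuous (fun a => f a i) := by
  rw [inducing.continuous_iff, continuous_pi_iff]
  rfl

lemma tendsto_iff {α : Type*} {l : Filter α} {f : α → Ball ι} {x : Ball ι} :
    Tendsto f l (𝓝 x) ↔ ∀ i, Tendsto (fun a => f a i) l (𝓝 (x i)) := by
  rw [inducing.tendsto_nhds_iff, tendsto_pi_nhds]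
  rfl

lemma isClosed_range : IsClosed {x : ι → ℝ | ∀ s : Finset ι, ∑ i ∈ s, |x i| ≤ 1} := by
  simp only [ofPred_forall]
  exact isClosed_iInter fun s => isClosed_le (by fun_prop) continuous_const

instance : CompactSpace (Ball ι) := by
  have h : IsCompact {x : ι → ℝ | ∀ s : Finset ι, ∑ i ∈ s, |x i| ≤ 1} := by
    apply IsCompact.of_isClosed_subset (isCompact_univ_pi (fun _ : ι => isCompact_Icc (a := (-1 : ℝ))
      (b := 1))) isClosed_range
    intro x hx i _
    have := hx {i}
    simp only [Finset.sum_singleton] at this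
    exact abs_le.1 this
  constructor
  rw [inducing.isCompact_iff]
  convert h
  ext x
  constructor
  · rintro ⟨y, -, rfl⟩
    exact y.2
  · intro hx
    exact ⟨⟨x, hx⟩, mem_univ _, rfl⟩

instance : T2Space (Ball ι) :=
  Topology.IsEmbedding.t2Space ⟨inducing, DFunLike.coe_injective⟩

instance [Countable ι] : SecondCountableTopology (Ball ι) :=
  inducing.secondCountableTopology

instance : Zero (Ball ι) := ⟨⟨0, by simp⟩⟩

@[simp] lemma zero_apply (i : ι) : (0 : Ball ι) i = 0 := rfl

lemma summable (x : Ball ι) : Summable (fun i => |x i|) :=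
  summable_of_sum_le (fun _ => abs_nonneg _) x.2

/-- mass of `x` on the set `A` -/
noncomputable def mass (A : Set ι) (x : Ball ι) : ℝ := ∑' i, A.indicator (fun i => |x i|) i

lemma summable_ind (A : Set ι) (x : Ball ι) : Summable (A.indicator (fun i => |x i|)) :=
  x.summable.indicator A

lemma mass_nonneg (A : Set ι) (x : Ball ι) : 0 ≤ mass A x :=
  tsum_nonneg fun i => indicator_nonneg (fun _ _ => abs_nonneg _) i

lemma mass_mono {A B : Set ι} (h : A ⊆ B) (x : Ball ι) : mass A x ≤ mass B x :=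
  (summable_ind A x).tsum_le_tsum
    (fun i => indicator_le_indicator_of_subset h (fun _ => abs_nonneg _) i) (summable_ind B x)

lemma mass_union {A B : Set ι} (h : Disjoint A B) (x : Ball ι) :
    mass (A ∪ B) x = mass A x + mass B x := by
  unfold mass
  rw [← (summable_ind A x).tsum_add (summable_ind B x)]
  congr 1
  ext i
  rw [indicator_union_of_disjoint h]

lemma mass_le_one (A : Set ι) (x : Ball ι) : mass A x ≤ 1 := by
  refine (summable_ind A x).tsum_le_of_sum_le fun s => ?_
  refine (Finset.sum_le_sum fun i _ => ?_).trans (x.2 s)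
  exact indicator_le_self' (fun _ _ => abs_nonneg _) i

lemma sum_le_mass {A : Set ι} (x : Ball ι) (s : Finset ι) (hs : ∀ i ∈ s, i ∈ A) :
    ∑ i ∈ s, |x i| ≤ mass A x := by
  have : ∑ i ∈ s, |x i| = ∑ i ∈ s, A.indicator (fun i => |x i|) i :=
    Finset.sum_congr rfl fun i hi => by rw [indicator_of_mem (hs i hi)]
  rw [this]
  exact (summable_ind A x).sum_le_tsum s fun i _ => indicator_nonneg (fun _ _ => abs_nonneg _) i

lemma mass_le_iff {A : Set ι} {x : Ball ι} {r : ℝ} :
    mass A x ≤ r ↔ ∀ s : Finset ι, (∀ i ∈ s, i ∈ A) → ∑ i ∈ s, |x i| ≤ r := by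
  constructor
  · exact fun h s hs => (sum_le_mass x s hs).trans h
  · intro h
    refine (summable_ind A x).tsum_le_of_sum_le fun s => ?_
    classical
    rw [Finset.sum_indicator_eq_sum_filter]
    exact h _ (by simp)

lemma abs_le_mass {A : Set ι} (x : Ball ι) {i : ι} (hi : i ∈ A) : |x i| ≤ mass A x := by
  simpa using sum_le_mass x {i} (by simpa using hi)

lemma mass_congr {A : Set ι} {x y : Ball ι} (h : ∀ i ∈ A, x i = y i) : mass A x = mass A y := by
  unfold mass
  congr 1
  ext i
  by_cases hi : i ∈ A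
  · simp [hi, h i hi]
  · simp [hi]

lemma mass_empty (x : Ball ι) : mass ∅ x = 0 := by simp [mass]

lemma isClosed_mass_le (A : Set ι) (r : ℝ) : IsClosed {x : Ball ι | mass A x ≤ r} := by
  simp only [mass_le_iff, ofPred_forall]
  refine isClosed_iInter fun s => isClosed_iInter fun _ => ?_
  exact isClosed_le (continuous_finsetSum _ fun i _ => (continuous_coord i).abs) continuous_const

/-- restriction to a set of coordinates -/
noncomputable def res (A : Set ι) (x : Ball ι) : Ball ι :=
  ⟨A.indicator (x : ι → ℝ), fun s => by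
    refine (Finset.sum_le_sum fun i _ => ?_).trans (x.sum_le s)
    by_cases hi : i ∈ A
    · simp [hi]
    · simp [hi]⟩

lemma res_apply (A : Set ι) (x : Ball ι) (i : ι) : res A x i = A.indicator (x : ι → ℝ) i := rfl

lemma res_of_mem {A : Set ι} (x : Ball ι) {i : ι} (hi : i ∈ A) : res A x i = x i := by
  simp [res_apply, hi]

lemma res_of_notMem {A : Set ι} (x : Ball ι) {i : ι} (hi : i ∉ A) : res A x i = 0 := by
  simp [res_apply, hi]

lemma continuous_res (A : Set ι) : Continuous (res A : Ball ι → Ball ι) := by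
  rw [continuous_iff]
  intro i
  by_cases hi : i ∈ A
  · simp only [res_of_mem _ hi]; exact continuous_coord i
  · simp only [res_of_notMem _ hi]; exact continuous_const

lemma res_res (A B : Set ι) (x : Ball ι) : res A (res B x) = res (A ∩ B) x := by
  ext i
  by_cases hA : i ∈ A <;> by_cases hB : i ∈ B <;> simp [res_apply, hA, hB]

lemma res_eq_of_subset {A B : Set ι} (h : A ⊆ B) (x : Ball ι) : res A (res B x) = res A x := by
  rw [res_res, inter_eq_left.2 h]

lemma res_eq_of_subset' {A B : Set ι} (h : A ⊆ B) (x : Ball ι) : res B (res A x) = res A x := by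
  rw [res_res, inter_eq_right.2 h]

lemma res_eq_iff {A : Set ι} {x y : Ball ι} : res A x = res A y ↔ ∀ i ∈ A, x i = y i := by
  constructor
  · intro h i hi
    rw [← res_of_mem x hi, ← res_of_mem y hi, h]
  · intro h
    ext i
    by_cases hi : i ∈ A
    · rw [res_of_mem _ hi, res_of_mem _ hi, h i hi]
    · rw [res_of_notMem _ hi, res_of_notMem _ hi]

lemma mass_res (A B : Set ι) (x : Ball ι) : mass A (res B x) = mass (A ∩ B) x := by
  unfold mass
  congr 1
  ext i
  by_cases hA : i ∈ A <;> by_cases hB : i ∈ B <;> simp [res_apply, hA, hB]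

/-- every continuous function depends, up to `ε`, on finitely many coordinates, with
a uniform modulus -/
lemma unif_dep {f : Ball ι → ℝ} (hf : Continuous f) {ε : ℝ} (hε : 0 < ε) :
    ∃ (F : Finset ι) (d : ℝ), 0 < d ∧ ∀ x y : Ball ι, (∀ i ∈ F, |x i - y i| < d) →
      |f x - f y| < ε := by
  by_contra hcon
  push Not at hcon
  -- closed sets
  let Z : Finset ι × {d : ℝ // 0 < d} → Set (Ball ι × Ball ι) := fun p =>
    {q | (∀ i ∈ p.1, |q.1 i - q.2 i| ≤ p.2.1) ∧ ε ≤ |f q.1 - f q.2|}
  have hcl : ∀ p, IsClosed (Z p) := by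
    intro p
    have e : Z p = (⋂ i ∈ p.1, {q : Ball ι × Ball ι | |q.1 i - q.2 i| ≤ p.2.1}) ∩
        {q | ε ≤ |f q.1 - f q.2|} := by
      ext q; simp [Z]
    rw [e]
    refine IsClosed.inter ?_ ?_
    · refine isClosed_iInter fun i => isClosed_iInter fun _ => ?_
      exact isClosed_le (((continuous_coord i).comp continuous_fst).sub
        ((continuous_coord i).comp continuous_snd)).abs continuous_const
    · exact isClosed_le continuous_const ((hf.comp continuous_fst).sub (hf.comp continuous_snd)).abs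
  have hdir : Directed (· ⊇ ·) Z := by
    classical
    intro p q
    refine ⟨(p.1 ∪ q.1, ⟨min p.2.1 q.2.1, lt_min p.2.2 q.2.2⟩), ?_, ?_⟩
    · rintro z ⟨h1, h2⟩
      exact ⟨fun i hi => (h1 i (Finset.mem_union_left _ hi)).trans (min_le_left _ _), h2⟩
    · rintro z ⟨h1, h2⟩
      exact ⟨fun i hi => (h1 i (Finset.mem_union_right _ hi)).trans (min_le_right _ _), h2⟩
  have hne : ∀ p, (Z p).Nonempty := by
    intro p
    obtain ⟨x, y, h1, h2⟩ := hcon p.1 p.2.1 p.2.2
    exact ⟨(x, y), fun i hi => (h1 i hi).le, h2⟩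
  have : Nonempty (Finset ι × {d : ℝ // 0 < d}) := ⟨(∅, ⟨1, one_pos⟩)⟩
  obtain ⟨⟨x, y⟩, hxy⟩ := IsCompact.nonempty_iInter_of_directed_nonempty_isCompact_isClosed Z hdir hne
    (fun p => (hcl p).isCompact) hcl
  rw [mem_iInter] at hxy
  have hxy' : x = y := by
    ext i
    by_contra hne
    have h1 : 0 < |x i - y i| := abs_pos.2 (sub_ne_zero.2 hne)
    have := (hxy ({i}, ⟨|x i - y i| / 2, by positivity⟩)).1 i (by simp)
    simp only at this
    linarith
  have := (hxy (∅, ⟨1, one_pos⟩)).2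
  simp only [hxy', sub_self, abs_zero] at this
  linarith

lemma approx_res {f : Ball ι → ℝ} (hf : Continuous f) {ε : ℝ} (hε : 0 < ε) :
    ∃ F : Finset ι, ∀ A : Set ι, (∀ i ∈ F, i ∈ A) → ∀ x, |f (res A x) - f x| < ε := by
  obtain ⟨F, d, hd, h⟩ := unif_dep hf hε
  refine ⟨F, fun A hA x => h _ _ fun i hi => ?_⟩
  rw [res_of_mem x (hA i hi), sub_self, abs_zero]
  exact hd

/-- construct a point from a function with bounded sums -/
def mk' (y : ι → ℝ) (h : ∀ s : Finset ι, ∑ i ∈ s, |y i| ≤ 1) : Ball ι := ⟨y, h⟩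

@[simp] lemma mk'_apply (y : ι → ℝ) (h : ∀ s : Finset ι, ∑ i ∈ s, |y i| ≤ 1) (i : ι) :
    (mk' y h) i = y i := rfl

/-- sum of two points when the masses allow it -/
noncomputable def add (x y : Ball ι) (h : mass univ x + mass univ y ≤ 1) : Ball ι :=
  ⟨fun i => x i + y i, fun s => by
    refine (Finset.sum_le_sum fun i _ => abs_add_le _ _).trans ?_
    rw [Finset.sum_add_distrib]
    exact (add_le_add (sum_le_mass x s (fun _ _ => mem_univ _))
      (sum_le_mass y s (fun _ _ => mem_univ _))).trans h⟩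

@[simp] lemma add_apply (x y : Ball ι) (h : mass univ x + mass univ y ≤ 1) (i : ι) :
    add x y h i = x i + y i := rfl

lemma mass_add_le (A : Set ι) (x y : Ball ι) (h : mass univ x + mass univ y ≤ 1) :
    mass A (add x y h) ≤ mass A x + mass A y := by
  rw [mass_le_iff]
  intro s hs
  refine (Finset.sum_le_sum fun i _ => abs_add_le _ _).trans ?_
  rw [Finset.sum_add_distrib]
  exact add_le_add (sum_le_mass x s hs) (sum_le_mass y s hs)

/-- scaling -/
noncomputable def scale (t : ℝ) (ht : |t| ≤ 1) (x : Ball ι) : Ball ι :=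
  ⟨fun i => t * x i, fun s => by
    simp only [abs_mul]
    rw [← Finset.mul_sum]
    exact mul_le_one₀ ht (Finset.sum_nonneg fun _ _ => abs_nonneg _) (x.2 s)⟩

@[simp] lemma scale_apply (t : ℝ) (ht : |t| ≤ 1) (x : Ball ι) (i : ι) :
    scale t ht x i = t * x i := rfl

lemma mass_scale (t : ℝ) (ht : |t| ≤ 1) (A : Set ι) (x : Ball ι) :
    mass A (scale t ht x) = |t| * mass A x := by
  unfold mass
  rw [← tsum_mul_left]
  congr 1
  ext i
  by_cases hi : i ∈ A <;> simp [hi, abs_mul]

instance : MeasurableSpace (Ball ι) := borel _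
instance : BorelSpace (Ball ι) := ⟨rfl⟩

lemma measurable_mass (A : Set ι) : Measurable (mass A : Ball ι → ℝ) :=
  measurable_of_Iic fun r => (isClosed_mass_le A r).measurableSet

lemma measurable_res (A : Set ι) : Measurable (res A : Ball ι → Ball ι) :=
  (continuous_res A).measurable

/-- masses of decreasing sets with empty intersection tend to zero -/
lemma mass_tendsto_zero (A : ℕ → Set ι) (hA : ∀ i, ∀ᶠ n in atTop, i ∉ A n) (x : Ball ι) :
    Tendsto (fun n => mass (A n) x) atTop (𝓝 0) := by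
  have : Tendsto (fun n => ∑' i, (A n).indicator (fun i => |x i|) i) atTop
      (𝓝 (∑' _ : ι, (0 : ℝ))) := by
    refine tendsto_tsum_of_dominated_convergence x.summable ?_ ?_
    · intro i
      refine tendsto_const_nhds.congr' ?_
      filter_upwards [hA i] with n hn
      simp [hn]
    · refine Eventually.of_forall fun n i => ?_
      rw [Real.norm_eq_abs, abs_of_nonneg (indicator_nonneg (fun _ _ => abs_nonneg _) i)]
      exact indicator_le_self' (fun _ _ => abs_nonneg _) i
  simpa [mass] using this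

/-- masses of pairwise disjoint sets tend to zero -/
lemma mass_disjoint_tendsto_zero (A : ℕ → Set ι) (hA : Pairwise fun m n => Disjoint (A m) (A n))
    (x : Ball ι) : Tendsto (fun n => mass (A n) x) atTop (𝓝 0) := by
  refine mass_tendsto_zero A (fun i => ?_) x
  by_cases h : ∃ m, i ∈ A m
  · obtain ⟨m, hm⟩ := h
    filter_upwards [eventually_gt_atTop m] with n hn hi
    exact (Set.disjoint_left.1 (hA hn.ne)) hm hi
  · push Not at h
    exact Eventually.of_forall h

end Ball

end Pool.Agent.H53.ZD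

end

section

open scoped NNReal CompactlySupported
open MeasureTheory Set

namespace Pool.Agent.H53.ZD

variable {X : Type*} [TopologicalSpace X] [CompactSpace X] [T2Space X]

/-- the values of a functional on the functions dominated by `f` -/
def domSet (φ : C(X, ℝ) →L[ℝ] ℝ) (f : X → ℝ) : Set ℝ :=
  {r | ∃ g : C(X, ℝ), (∀ x, |g x| ≤ f x) ∧ r = φ g}

lemma domSet_bdd (φ : C(X, ℝ) →L[ℝ] ℝ) (f : X → ℝ) (hf : BddAbove (range f)) :
    BddAbove (domSet φ f) := by
  obtain ⟨M, hM⟩ := hf
  refine ⟨‖φ‖ * |M|, ?_⟩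
  rintro r ⟨g, hg, rfl⟩
  refine (le_abs_self _).trans ((φ.le_opNorm g).trans ?_)
  refine mul_le_mul_of_nonneg_left ?_ (norm_nonneg _)
  rw [ContinuousMap.norm_le _ (abs_nonneg _)]
  intro x
  exact (hg x).trans ((hM ⟨x, rfl⟩).trans (le_abs_self _))

lemma domSet_nonempty (φ : C(X, ℝ) →L[ℝ] ℝ) (f : X → ℝ) (hf : ∀ x, 0 ≤ f x) :
    (0 : ℝ) ∈ domSet φ f := ⟨0, fun x => by simpa using hf x, by simp⟩

/-- the variation of a functional -/
noncomputable def absF (φ : C(X, ℝ) →L[ℝ] ℝ) (f : X → ℝ) : ℝ := sSup (domSet φ f)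

lemma absF_nonneg (φ : C(X, ℝ) →L[ℝ] ℝ) (f : X → ℝ) (hb : BddAbove (range f))
    (hf : ∀ x, 0 ≤ f x) : 0 ≤ absF φ f :=
  le_csSup (domSet_bdd φ f hb) (domSet_nonempty φ f hf)

lemma bdd_of_cont (f : C(X, ℝ)) : BddAbove (range (f : X → ℝ)) :=
  ⟨‖f‖, by rintro _ ⟨x, rfl⟩; exact (le_abs_self _).trans (f.norm_coe_le_norm x)⟩

lemma le_absF (φ : C(X, ℝ) →L[ℝ] ℝ) (f : X → ℝ) (hb : BddAbove (range f)) (g : C(X, ℝ))
    (hg : ∀ x, |g x| ≤ f x) : φ g ≤ absF φ f :=
  le_csSup (domSet_bdd φ f hb) ⟨g, hg, rfl⟩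

lemma absF_isLUB (φ : C(X, ℝ) →L[ℝ] ℝ) (f : X → ℝ) (hb : BddAbove (range f))
    (hf : ∀ x, 0 ≤ f x) : IsLUB (domSet φ f) (absF φ f) :=
  isLUB_csSup ⟨0, domSet_nonempty φ f hf⟩ (domSet_bdd φ f hb)

lemma absF_add (φ : C(X, ℝ) →L[ℝ] ℝ) (f₁ f₂ : C(X, ℝ)) (h₁ : ∀ x, 0 ≤ f₁ x)
    (h₂ : ∀ x, 0 ≤ f₂ x) : absF φ (fun x => f₁ x + f₂ x) = absF φ f₁ + absF φ f₂ := by
  have hb12 : BddAbove (range (fun x => f₁ x + f₂ x)) := by
    exact bdd_of_cont (f₁ + f₂)
  apply le_antisymm
  · apply csSup_le ⟨0, domSet_nonempty φ _ (fun x => add_nonneg (h₁ x) (h₂ x))⟩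
    rintro r ⟨g, hg, rfl⟩
    let g₁ : C(X, ℝ) := ⟨fun x => max (-f₁ x) (min (g x) (f₁ x)), by fun_prop⟩
    have e : g = g₁ + (g - g₁) := by abel
    rw [e, map_add]
    refine add_le_add (le_absF φ _ (bdd_of_cont f₁) _ ?_) (le_absF φ _ (bdd_of_cont f₂) _ ?_)
    · intro x
      have h1 := h₁ x
      show |max (-f₁ x) (min (g x) (f₁ x))| ≤ f₁ x
      rw [abs_le]
      exact ⟨le_max_left _ _, max_le (by linarith) (min_le_right _ _)⟩
    · intro x
      have h1 := h₁ x
      have h2 := h₂ x
      have h3 := abs_le.1 (hg x)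
      show |g x - max (-f₁ x) (min (g x) (f₁ x))| ≤ f₂ x
      rw [abs_le]
      constructor
      · rcases le_total (-f₁ x) (min (g x) (f₁ x)) with h | h
        · rw [max_eq_right h]
          have := min_le_left (g x) (f₁ x); linarith
        · rw [max_eq_left h]; linarith
      · rcases le_total (g x) (f₁ x) with h | h
        · rw [min_eq_left h]
          have := le_max_right (-f₁ x) (g x); linarith
        · rw [min_eq_right h]
          have := le_max_right (-f₁ x) (f₁ x); linarith
  · rw [← le_sub_iff_add_le]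
    apply csSup_le ⟨0, domSet_nonempty φ _ h₁⟩
    rintro r ⟨g₁, hg₁, rfl⟩
    rw [le_sub_comm]
    apply csSup_le ⟨0, domSet_nonempty φ _ h₂⟩
    rintro r ⟨g₂, hg₂, rfl⟩
    rw [le_sub_iff_add_le, ← map_add]
    apply le_absF φ _ hb12
    intro x
    have := hg₁ x
    have := hg₂ x
    exact (abs_add_le _ _).trans (by simpa [add_comm] using add_le_add (hg₁ x) (hg₂ x))

lemma absF_smul (φ : C(X, ℝ) →L[ℝ] ℝ) (c : ℝ) (hc : 0 ≤ c) (f : C(X, ℝ)) (h : ∀ x, 0 ≤ f x) :
    absF φ (fun x => c * f x) = c * absF φ f := by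
  rcases hc.eq_or_lt with rfl | hc
  · simp only [zero_mul]
    apply le_antisymm
    · apply csSup_le ⟨0, domSet_nonempty φ _ (fun x => le_rfl)⟩
      rintro r ⟨g, hg, rfl⟩
      have : g = 0 := by
        ext x
        simpa using hg x
      simp [this]
    · apply absF_nonneg _ _ _ (fun x => le_rfl)
      exact ⟨0, by rintro _ ⟨x, rfl⟩; rfl⟩
  · have key : ∀ (c : ℝ), 0 < c → ∀ f : C(X, ℝ), (∀ x, 0 ≤ f x) →
        c * absF φ f ≤ absF φ (fun x => c * f x) := by
      intro c hc f h
      rw [← le_div_iff₀' hc]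
      apply csSup_le ⟨0, domSet_nonempty φ _ h⟩
      rintro r ⟨g, hg, rfl⟩
      rw [le_div_iff₀' hc]
      have : c * φ g = φ (c • g) := by simp
      rw [this]
      apply le_absF φ _ (bdd_of_cont (c • f))
      intro x
      simp only [ContinuousMap.coe_smul, Pi.smul_apply, smul_eq_mul, abs_mul, abs_of_pos hc]
      exact mul_le_mul_of_nonneg_left (hg x) hc.le
    apply le_antisymm
    · have := key c⁻¹ (inv_pos.2 hc) (c • f) (fun x => by
        simpa using mul_nonneg hc.le (h x))
      have e : (fun x => c⁻¹ * (c • f) x) = f := by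
        ext x; simp [inv_mul_cancel_left₀ hc.ne']
      rw [e] at this
      rw [inv_mul_le_iff₀ hc] at this
      exact this
    · exact key c hc f h

/-- the variation as a linear functional on nonnegative functions -/
noncomputable def absLin (φ : C(X, ℝ) →L[ℝ] ℝ) : C_c(X, ℝ≥0) →ₗ[ℝ≥0] ℝ≥0 where
  toFun f := ⟨absF φ (fun x => (f x : ℝ)), absF_nonneg φ _
    (bdd_of_cont ⟨fun x => (f x : ℝ), by fun_prop⟩) (fun x => (f x).2)⟩
  map_add' f g := by
    apply NNReal.coe_injective
    exact absF_add φ ⟨fun x => (f x : ℝ), by fun_prop⟩ ⟨fun x => (g x : ℝ), by fun_prop⟩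
      (fun x => (f x).2) (fun x => (g x).2)
  map_smul' c f := by
    apply NNReal.coe_injective
    exact absF_smul φ c c.2 ⟨fun x => (f x : ℝ), by fun_prop⟩ (fun x => (f x).2)

variable [MeasurableSpace X] [BorelSpace X]

/-- the variation measure of a functional -/
noncomputable def vm (φ : C(X, ℝ) →L[ℝ] ℝ) : Measure X := NNRealRMK.rieszMeasure (absLin φ)

instance vm_regular (φ : C(X, ℝ) →L[ℝ] ℝ) : (vm φ).Regular :=
  NNRealRMK.rieszMeasure_regular _

instance vm_finite (φ : C(X, ℝ) →L[ℝ] ℝ) : IsFiniteMeasure (vm φ) :=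
  ⟨isCompact_univ.measure_lt_top⟩

lemma integrable_cont (μ : Measure X) [IsFiniteMeasure μ] (f : X → ℝ) (hf : Continuous f) :
    Integrable f μ :=
  hf.integrable_of_hasCompactSupport (HasCompactSupport.of_compactSpace f)

lemma integral_vm (φ : C(X, ℝ) →L[ℝ] ℝ) (f : X → ℝ) (hc : Continuous f) (hf : ∀ x, 0 ≤ f x) :
    ∫ x, f x ∂(vm φ) = absF φ f := by
  let F : C_c(X, ℝ≥0) := ⟨⟨fun x => ⟨f x, hf x⟩, by fun_prop⟩, HasCompactSupport.of_compactSpace _⟩
  exact NNRealRMK.integral_rieszMeasure (absLin φ) F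

/-- (A1) a functional is dominated by its variation measure -/
lemma abs_le_integral_vm (φ : C(X, ℝ) →L[ℝ] ℝ) (f : C(X, ℝ)) :
    |φ f| ≤ ∫ x, |f x| ∂(vm φ) := by
  rw [integral_vm φ (fun x => |f x|) (by fun_prop) (fun x => abs_nonneg _)]
  have hb : BddAbove (range (fun x => |f x|)) := bdd_of_cont ⟨fun x => |f x|, by fun_prop⟩
  rw [abs_le]
  constructor
  · have := le_absF φ (fun x => |f x|) hb (-f) (fun x => by simp)
    rw [map_neg] at this
    linarith
  · exact le_absF φ (fun x => |f x|) hb f (fun x => le_rfl)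

/-- (A2) total mass -/
lemma isLUB_vm_univ (φ : C(X, ℝ) →L[ℝ] ℝ) :
    IsLUB (domSet φ (fun _ => 1)) ((vm φ).real univ) := by
  have h := absF_isLUB φ (fun _ => (1 : ℝ)) (bdd_of_cont (1 : C(X, ℝ))) (fun _ => zero_le_one)
  have h2 := integral_vm φ (fun _ => (1 : ℝ)) continuous_const (fun _ => zero_le_one)
  simp at h2
  rwa [h2]

lemma vm_univ_le (φ : C(X, ℝ) →L[ℝ] ℝ) : (vm φ).real univ ≤ ‖φ‖ := by
  apply (isLUB_vm_univ φ).2
  rintro r ⟨g, hg, rfl⟩
  refine (le_abs_self _).trans ((φ.le_opNorm g).trans ?_)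
  refine mul_le_of_le_one_right (norm_nonneg _) ?_
  rw [ContinuousMap.norm_le _ zero_le_one]
  exact hg

/-- (D) domination of functionals gives domination of variation measures -/
lemma measure_le_of_integral_le {X : Type*} [TopologicalSpace X] [CompactSpace X] [T2Space X]
    [MeasurableSpace X] [BorelSpace X] (μ ν : Measure X) [IsFiniteMeasure μ] [IsFiniteMeasure ν]
    [μ.Regular] [ν.Regular]
    (h : ∀ f : C(X, ℝ), (∀ x, 0 ≤ f x) → ∫ x, f x ∂μ ≤ ∫ x, f x ∂ν) : μ ≤ ν := by
  -- compact sets first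
  have hK : ∀ K : Set X, IsCompact K → ∀ O : Set X, IsOpen O → K ⊆ O → μ K ≤ ν O := by
    intro K hK O hO hKO
    obtain ⟨f, hf1, hf0, -, hf⟩ := exists_continuous_one_zero_of_isCompact hK hO.isClosed_compl
      (disjoint_compl_right_iff_subset.2 hKO)
    have h1 : μ.real K ≤ ∫ x, f x ∂μ := by
      have : μ.real K = ∫ x, K.indicator (fun _ => (1 : ℝ)) x ∂μ := by
        rw [integral_indicator hK.measurableSet]; simp
      rw [this]
      apply integral_mono
      · exact (integrable_const (1 : ℝ)).indicator hK.measurableSet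
      · exact integrable_cont μ f f.continuous
      · intro x
        by_cases hx : x ∈ K
        · simp only [indicator_of_mem hx]
          rw [hf1 hx]; simp
        · simp only [indicator_of_notMem hx]
          exact (hf x).1
    have h2 : ∫ x, f x ∂ν ≤ ν.real O := by
      have : ν.real O = ∫ x, O.indicator (fun _ => (1 : ℝ)) x ∂ν := by
        rw [integral_indicator hO.measurableSet]; simp
      rw [this]
      apply integral_mono
      · exact integrable_cont ν f f.continuous
      · exact (integrable_const (1 : ℝ)).indicator hO.measurableSet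
      · intro x
        by_cases hx : x ∈ O
        · simp only [indicator_of_mem hx]
          exact (hf x).2
        · simp only [indicator_of_notMem hx]
          rw [hf0 hx]; simp
    have h3 := h1.trans ((h f (fun x => (hf x).1)).trans h2)
    exact (ENNReal.toReal_le_toReal (measure_ne_top _ _) (measure_ne_top _ _)).1 h3
  rw [Measure.le_iff]
  intro s hs
  -- outer regularity of ν, inner regularity of μ
  apply le_of_forall_gt
  intro r hr
  obtain ⟨O, hsO, hO, hOr⟩ := s.exists_isOpen_lt_of_lt r hr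
  refine lt_of_le_of_lt ?_ hOr
  rw [hs.measure_eq_iSup_isCompact_of_ne_top (measure_ne_top _ _)]
  exact iSup₂_le fun K hKs => iSup_le fun hKc => hK K hKc O hO (hKs.trans hsO)

/-- weak convergence: pointwise bounded convergence implies convergence of functionals -/
lemma tendsto_of_pointwise (φ : C(X, ℝ) →L[ℝ] ℝ) (f : ℕ → C(X, ℝ)) (g : C(X, ℝ)) (M : ℝ)
    (hM : ∀ n x, |f n x| ≤ M)
    (h : ∀ x, Filter.Tendsto (fun n => f n x) Filter.atTop (nhds (g x))) :
    Filter.Tendsto (fun n => φ (f n)) Filter.atTop (nhds (φ g)) := by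
  rw [tendsto_iff_norm_sub_tendsto_zero]
  have h1 : ∀ n, ‖φ (f n) - φ g‖ ≤ ∫ x, |(f n - g) x| ∂(vm φ) := by
    intro n
    rw [← map_sub]
    exact abs_le_integral_vm φ (f n - g)
  have h2 : Filter.Tendsto (fun n => ∫ x, |(f n - g) x| ∂(vm φ)) Filter.atTop (nhds 0) := by
    have := tendsto_integral_of_dominated_convergence (μ := vm φ) (F := fun n x => |(f n - g) x|)
      (f := fun _ => 0) (fun x => M + |g x|)
      (fun n => (integrable_cont (vm φ) _ (by fun_prop)).aestronglyMeasurable)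
      (integrable_cont (vm φ) _ (by fun_prop))
      (fun n => Filter.Eventually.of_forall fun x => by
        simp only [ContinuousMap.coe_sub, Pi.sub_apply, Real.norm_eq_abs, abs_abs]
        exact (abs_sub _ _).trans (by have := hM n x; linarith))
      (Filter.Eventually.of_forall fun x => by
        have := (h x).sub_const (g x)
        simp only [sub_self] at this
        simpa using this.abs)
    simpa using this
  exact squeeze_zero (fun n => norm_nonneg _) h1 h2

end Pool.Agent.H53.ZD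

end

section

/-!
# ZDB/Core : definitions for MP_751bb7_an, all uncountable `κ` (paper proof: ZDB/README.md)

`Sys κ L`: an isomorphism `T : C(L) ≃ C(B(κ))` with a common bound `C` of the norms.
`nu y`, `lam l`: total variation measures of `f ↦ T f y` and `g ↦ T⁻¹ g l`.
`Ret A`: `A` is countable and there is a continuous `ρ : L → L` with `T⁻¹ ((T f) ∘ res A) = f ∘ ρ`.
`a`, `ahat`, `alpha`: the saturated measure of light extensions (README §3), `ab` = `ᾱ`.
`Fv`: the functional `F` of README §4.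
-/

open Set Filter Topology MeasureTheory Pool.Agent.H53.ZD

namespace Pool.Agent.ZDB

variable {κ L : Type*} [TopologicalSpace L]

/-- the norm `|x| = ∑ |x i|` -/
noncomputable abbrev nm (x : Ball κ) : ℝ := Ball.mass univ x

/-- the points of the ball supported in `A` -/
def BA (A : Set κ) : Set (Ball κ) := {y | Ball.res A y = y}

/-- total addition on the ball (junk value `0` if the masses do not allow the sum) -/
noncomputable def plus (x y : Ball κ) : Ball κ :=
  open Classical in if h : Ball.mass univ x + Ball.mass univ y ≤ 1 then Ball.add x y h else 0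

/-- the restriction to `A` as a continuous map -/
noncomputable def resC (A : Set κ) : C(Ball κ, Ball κ) := ⟨Ball.res A, Ball.continuous_res A⟩

/-- the indicator of a clopen set (and `0` for other sets) -/
noncomputable def cind (O : Set L) : C(L, ℝ) :=
  open Classical in
  if h : IsClopen O then ⟨O.indicator (fun _ => 1), continuous_const.indicator (by
    intro x hx; rw [h.frontier_eq] at hx; exact hx.elim)⟩ else 0

/-- an isomorphism between `C(L)` and `C(B(κ))` with a common bound of the norms -/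
structure Sys (κ L : Type*) [TopologicalSpace L] where
  T : C(L, ℝ) ≃L[ℝ] C(Ball κ, ℝ)
  C : ℝ
  one_le : 1 ≤ C
  hT : ∀ (f : C(L, ℝ)) (M : ℝ), (∀ l, |f l| ≤ M) → 0 ≤ M → ∀ y, |T f y| ≤ C * M
  hV : ∀ (g : C(Ball κ, ℝ)) (M : ℝ), (∀ y, |g y| ≤ M) → 0 ≤ M → ∀ l, |T.symm g l| ≤ C * M

namespace Sys

section rets

variable (S : Sys κ L)

/-- `ρ` is the retraction of level `A` -/
def IsRet (A : Set κ) (ρ : C(L, L)) : Prop :=
  ∀ f : C(L, ℝ), S.T.symm ((S.T f).comp (resC A)) = f.comp ρ

/-- `A` is countable and has a retraction -/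
def Ret (A : Set κ) : Prop := A.Countable ∧ ∃ ρ, S.IsRet A ρ

/-- the retraction of level `A` -/
noncomputable def rho (A : Set κ) : C(L, L) :=
  open Classical in if h : ∃ ρ, S.IsRet A ρ then h.choose else ContinuousMap.id L

/-- the range of the retraction -/
def LA (A : Set κ) : Set L := {l | S.rho A l = l}

/-- clopen sets of level `A` -/
def Clop (A : Set κ) (O : Set L) : Prop := IsClopen O ∧ S.rho A ⁻¹' O = O

/-- the set where the retractions of levels `A₀` and `A₁` differ -/
def D (A₀ A₁ : Set κ) : Set L := {l | S.rho A₀ l ≠ S.rho A₁ l}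

/-- `A`-upper sets -/
def Upper (A : Set κ) (U : Set L) : Prop :=
  ∀ A', A ⊆ A' → S.Ret A' → ∀ l, S.rho A' l ∈ U → l ∈ U

/-- every countable set is contained in a set with retraction -/
def RetCof : Prop := ∀ A : Set κ, A.Countable → ∃ A', A ⊆ A' ∧ S.Ret A'

end rets

variable [CompactSpace L] [T2Space L] [MeasurableSpace L] [BorelSpace L] (S : Sys κ L)

/-- evaluation of `T` at a point -/
noncomputable def nuF (y : Ball κ) : C(L, ℝ) →L[ℝ] ℝ :=
  (ContinuousMap.evalCLM ℝ y).comp (S.T : C(L, ℝ) →L[ℝ] C(Ball κ, ℝ))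

/-- evaluation of `T⁻¹` at a point -/
noncomputable def lamF (l : L) : C(Ball κ, ℝ) →L[ℝ] ℝ :=
  (ContinuousMap.evalCLM ℝ l).comp (S.T.symm : C(Ball κ, ℝ) →L[ℝ] C(L, ℝ))

/-- `|ν_y|` -/
noncomputable def nu (y : Ball κ) : Measure L := vm (S.nuF y)

/-- `|λ_l|` -/
noncomputable def lam (l : L) : Measure (Ball κ) := vm (S.lamF l)

/-- the two step functional `N_x(f) = ∫∫ f(l,y) d|λ_l|(y) d|ν_x|(l)` -/
noncomputable def N (x : Ball κ) (f : C(L × Ball κ, ℝ)) : ℝ :=
  ∫ l, (∫ y, f (l, y) ∂(S.lam l)) ∂(S.nu x)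

/-- the return cost -/
noncomputable def cost (b : Set κ) (l : L) : ℝ := ∫ y, Ball.mass bᶜ y ∂(S.lam l)

/-- extensions of `x` over `A` -/
structure Ext (x : Ball κ) (A A₀ A₁ : Set κ) (Y : Ball κ) : Prop where
  sub₀ : A ⊆ A₀
  sub₁ : A₀ ⊆ A₁
  ret₀ : S.Ret A₀
  ret₁ : S.Ret A₁
  memY : Y ∈ BA A₁
  resY : Ball.res A₀ Y = x

/-- `a_x(U;A,τ)` -/
noncomputable def a (x : Ball κ) (U : Set L) (A : Set κ) (τ : ℝ) : ℝ :=
  sSup {r | ∃ A₀ A₁ Y, S.Ext x A A₀ A₁ Y ∧ nm Y < nm x + τ ∧ r = (S.nu Y).real (U ∩ S.D A₀ A₁)}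

/-- `â_x(U;τ)` -/
noncomputable def ahat (x : Ball κ) (U : Set L) (τ : ℝ) : ℝ :=
  sInf {r | ∃ A : Set κ, A.Countable ∧ r = S.a x U A τ}

/-- `α_x(U)` -/
noncomputable def alpha (x : Ball κ) (U : Set L) : ℝ :=
  sInf {r | ∃ τ : ℝ, 0 < τ ∧ r = S.ahat x U τ}

/-- the functional `F` -/
noncomputable def Fv (l : L) : ℝ :=
  sSup {r | ∃ O : Set L, IsClopen O ∧ l ∈ O ∧
    r = ∫ y, ((S.nu y).real univ + (S.nu y).real Oᶜ) ∂(S.lam l)}

/-- the open upper sets `{F > s}` -/
def Fs (s : ℝ) : Set L := {l | s < S.Fv l}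

/-- `ᾱ_x(l;s)` -/
noncomputable def ab (x : Ball κ) (l : L) (s : ℝ) : ℝ :=
  sInf {r | ∃ O : Set L, IsClopen O ∧ l ∈ O ∧ r = S.alpha x (O ∩ S.Fs s)}

/-- `ᾱ_x(l)` -/
noncomputable def ab0 (x : Ball κ) (l : L) : ℝ := S.ab x l (-1)

end Sys

end Pool.Agent.ZDB

end

section

/-!
# ZDB/BallAux : elementary facts on the ball (see Pool/Agent/H53/ZD/Ball.lean for `mass`, `res`, `add`)
All are coordinatewise: `mass A y = ∑' A.indicator |y|`, `res A y = A.indicator y`.
* nm_plus_eq: masses of points with disjoint supports add up (mass over univ = mass A + mass Aᶜ, x = 0 off A, z = 0 on A).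
* continuousOn_plus: on {x | nm x + nm z ≤ 1} the map is x ↦ x + z coordinatewise (`Ball.tendsto_iff`).
* tendsto_plus: v i has support in Q i, the Q i are pairwise disjoint, so every coordinate of v i is eventually 0.
* exists_countable_BA: the support of a summable family is countable (`Summable.countable_support`).
-/

open Set Filter Topology MeasureTheory Pool.Agent.H53.ZD

namespace Pool.Agent.ZDB

variable {κ : Type*}

theorem nm_nonneg (y : Ball κ) : 0 ≤ nm y := Ball.mass_nonneg _ _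
theorem nm_le_one (y : Ball κ) : nm y ≤ 1 := Ball.mass_le_one _ _

theorem nm_res (A : Set κ) (y : Ball κ) : nm (Ball.res A y) = Ball.mass A y := by
  rw [nm, Ball.mass_res, univ_inter]

theorem nm_split (A : Set κ) (y : Ball κ) : nm y = Ball.mass A y + Ball.mass Aᶜ y := by
  rw [← Ball.mass_union disjoint_compl_right, union_compl_self]

theorem nm_res_le (A : Set κ) (y : Ball κ) : nm (Ball.res A y) ≤ nm y := by
  rw [nm_res]
  exact Ball.mass_mono (subset_univ _) y

theorem mass_eq_zero {A : Set κ} {y : Ball κ} : Ball.mass A y = 0 ↔ ∀ i ∈ A, y i = 0 := by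
  constructor
  · intro h i hi
    have h1 := Ball.abs_le_mass y hi
    rw [h] at h1
    exact abs_nonpos_iff.1 h1
  · intro h
    refine le_antisymm ?_ (Ball.mass_nonneg _ _)
    rw [Ball.mass_le_iff]
    intro s hs
    refine (Finset.sum_eq_zero fun i hi => ?_).le
    rw [h i (hs i hi), abs_zero]

theorem nm_eq_zero {y : Ball κ} : nm y = 0 ↔ y = 0 := by
  rw [nm, mass_eq_zero]
  constructor
  · intro h
    ext i
    exact h i (mem_univ _)
  · rintro rfl i _
    rfl

theorem mem_BA {A : Set κ} {y : Ball κ} : y ∈ BA A ↔ ∀ i, i ∉ A → y i = 0 := by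
  constructor
  · intro h i hi
    have h' : Ball.res A y = y := h
    rw [← h', Ball.res_of_notMem _ hi]
  · intro h
    show Ball.res A y = y
    ext i
    by_cases hi : i ∈ A
    · rw [Ball.res_of_mem _ hi]
    · rw [Ball.res_of_notMem _ hi, h i hi]

theorem mem_BA_iff_mass {A : Set κ} {y : Ball κ} : y ∈ BA A ↔ Ball.mass Aᶜ y = 0 := by
  rw [mem_BA, mass_eq_zero]
  rfl

theorem BA_mono {A A' : Set κ} (h : A ⊆ A') : BA A ⊆ BA A' := by
  intro y hy
  rw [mem_BA] at hy ⊢
  exact fun i hi => hy i fun hi' => hi (h hi')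

theorem isClosed_BA (A : Set κ) : IsClosed (BA A) :=
  isClosed_eq (Ball.continuous_res A) continuous_id

theorem res_mem_BA (A : Set κ) (y : Ball κ) : Ball.res A y ∈ BA A :=
  mem_BA.2 fun _ hi => Ball.res_of_notMem _ hi

theorem res_res_of_subset {A A' : Set κ} (h : A ⊆ A') (y : Ball κ) :
    Ball.res A (Ball.res A' y) = Ball.res A y := Ball.res_eq_of_subset h y

theorem exists_countable_BA (y : Ball κ) : ∃ A : Set κ, A.Countable ∧ y ∈ BA A := by
  refine ⟨Function.support fun i => |y i|, y.summable.countable_support, ?_⟩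
  rw [mem_BA]
  intro i hi
  exact abs_eq_zero.1 (Function.notMem_support.1 hi)

/-- a point whose restriction has the full mass is equal to its restriction -/
theorem eq_of_res_eq_of_nm_le {A : Set κ} {x y : Ball κ} (h : Ball.res A y = x)
    (hn : nm y ≤ nm x) : y = x := by
  rw [← h, nm_res, nm_split A y] at hn
  have h0 : Ball.mass Aᶜ y = 0 := le_antisymm (by linarith) (Ball.mass_nonneg _ _)
  have h1 : Ball.res A y = y := mem_BA_iff_mass.2 h0
  rw [← h, h1]

theorem plus_apply {x z : Ball κ} (h : nm x + nm z ≤ 1) (i : κ) : plus x z i = x i + z i := by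
  unfold plus
  rw [dif_pos h, Ball.add_apply]

theorem nm_plus_le (x z : Ball κ) : nm (plus x z) ≤ nm x + nm z := by
  by_cases h : Ball.mass univ x + Ball.mass univ z ≤ 1
  · unfold plus
    rw [dif_pos h]
    exact Ball.mass_add_le _ _ _ h
  · unfold plus
    rw [dif_neg h]
    have h0 : nm (0 : Ball κ) = 0 := nm_eq_zero.2 rfl
    rw [h0]
    exact add_nonneg (nm_nonneg x) (nm_nonneg z)

theorem nm_plus_eq {A : Set κ} {x z : Ball κ} (hx : x ∈ BA A) (hz : z ∈ BA Aᶜ)
    (h : nm x + nm z ≤ 1) : nm (plus x z) = nm x + nm z := by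
  have hx' := mem_BA.1 hx
  have hz' := mem_BA.1 hz
  have e1 : Ball.mass A (plus x z) = Ball.mass A x :=
    Ball.mass_congr fun i hi => by
      rw [plus_apply h, hz' i (fun hc => hc hi), add_zero]
  have e2 : Ball.mass Aᶜ (plus x z) = Ball.mass Aᶜ z :=
    Ball.mass_congr fun i hi => by
      rw [plus_apply h, hx' i hi, zero_add]
  have e3 : Ball.mass Aᶜ x = 0 := mem_BA_iff_mass.1 hx
  have e4 : Ball.mass A z = 0 := by
    have := mem_BA_iff_mass.1 hz
    rwa [compl_compl] at this
  rw [nm_split A (plus x z), nm_split A x, nm_split A z, e1, e2, e3, e4]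
  ring

theorem plus_mem_BA {A : Set κ} {x z : Ball κ} (hx : x ∈ BA A) (hz : z ∈ BA A) :
    plus x z ∈ BA A := by
  rw [mem_BA] at *
  intro i hi
  by_cases h : nm x + nm z ≤ 1
  · rw [plus_apply h, hx i hi, hz i hi, add_zero]
  · unfold plus
    rw [dif_neg h]
    rfl

theorem res_plus {A : Set κ} {x z : Ball κ} (h : nm x + nm z ≤ 1) :
    Ball.res A (plus x z) = plus (Ball.res A x) (Ball.res A z) := by
  have h' : nm (Ball.res A x) + nm (Ball.res A z) ≤ 1 :=
    (add_le_add (nm_res_le A x) (nm_res_le A z)).trans h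
  ext i
  rw [plus_apply h']
  by_cases hi : i ∈ A
  · rw [Ball.res_of_mem _ hi, Ball.res_of_mem _ hi, Ball.res_of_mem _ hi, plus_apply h]
  · rw [Ball.res_of_notMem _ hi, Ball.res_of_notMem _ hi, Ball.res_of_notMem _ hi, add_zero]

theorem res_plus_left {A : Set κ} {x z : Ball κ} (hx : x ∈ BA A) (hz : z ∈ BA Aᶜ)
    (h : nm x + nm z ≤ 1) : Ball.res A (plus x z) = x := by
  have hx' := mem_BA.1 hx
  have hz' := mem_BA.1 hz
  ext i
  by_cases hi : i ∈ A
  · rw [Ball.res_of_mem _ hi, plus_apply h, hz' i (fun hc => hc hi), add_zero]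
  · rw [Ball.res_of_notMem _ hi, hx' i hi]

theorem plus_res_compl (A : Set κ) (y : Ball κ) :
    plus (Ball.res A y) (Ball.res Aᶜ y) = y := by
  have h : nm (Ball.res A y) + nm (Ball.res Aᶜ y) ≤ 1 := by
    rw [nm_res, nm_res, ← nm_split]
    exact nm_le_one y
  ext i
  rw [plus_apply h]
  by_cases hi : i ∈ A
  · have hi' : i ∉ Aᶜ := fun hc => hc hi
    rw [Ball.res_of_mem _ hi, Ball.res_of_notMem _ hi', add_zero]
  · rw [Ball.res_of_notMem _ hi, Ball.res_of_mem _ (show i ∈ Aᶜ from hi), zero_add]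

theorem nm_res_compl (A : Set κ) (y : Ball κ) : nm (Ball.res Aᶜ y) = nm y - nm (Ball.res A y) := by
  rw [nm_res, nm_res, nm_split A y]
  ring

theorem mass_compl (A : Set κ) (y : Ball κ) : Ball.mass Aᶜ y = nm y - nm (Ball.res A y) := by
  rw [nm_res, nm_split A y]
  ring

theorem plus_zero (x : Ball κ) : plus x 0 = x := by
  have h0 : nm (0 : Ball κ) = 0 := nm_eq_zero.2 rfl
  have h : nm x + nm (0 : Ball κ) ≤ 1 := by
    rw [h0, add_zero]
    exact nm_le_one x
  ext i
  rw [plus_apply h, Ball.zero_apply, add_zero]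

theorem plus_comm (x z : Ball κ) : plus x z = plus z x := by
  by_cases h : nm x + nm z ≤ 1
  · have h' : nm z + nm x ≤ 1 := by rwa [add_comm]
    ext i
    rw [plus_apply h, plus_apply h', add_comm]
  · have h' : ¬ nm z + nm x ≤ 1 := by rwa [add_comm]
    unfold plus
    rw [dif_neg h, dif_neg h']

theorem plus_assoc {x y z : Ball κ} (h : nm x + nm y + nm z ≤ 1) :
    plus (plus x y) z = plus x (plus y z) := by
  have hx := nm_nonneg x
  have hy := nm_nonneg y
  have hz := nm_nonneg z
  have h1 := nm_plus_le x y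
  have h2 := nm_plus_le y z
  ext i
  rw [plus_apply (by linarith : nm (plus x y) + nm z ≤ 1),
    plus_apply (by linarith : nm x + nm y ≤ 1),
    plus_apply (by linarith : nm x + nm (plus y z) ≤ 1),
    plus_apply (by linarith : nm y + nm z ≤ 1), add_assoc]

theorem continuousOn_plus (z : Ball κ) :
    ContinuousOn (fun x : Ball κ => plus x z) {x | nm x + nm z ≤ 1} := by
  rw [continuousOn_iff_continuous_domRestrict, Ball.continuous_iff]
  intro i
  have e : (fun a : {x : Ball κ | nm x + nm z ≤ 1} =>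
      ({x | nm x + nm z ≤ 1} : Set (Ball κ)).domRestrict (fun x : Ball κ => plus x z) a i) =
      fun a => a.1 i + z i := by
    funext a
    exact plus_apply a.2 i
  rw [e]
  exact ((Ball.continuous_coord i).comp continuous_subtype_val).add continuous_const

theorem tendsto_plus {x : Ball κ} {v : ℕ → Ball κ} {Q : ℕ → Set κ}
    (hQ : Pairwise fun i j => Disjoint (Q i) (Q j)) (hv : ∀ i, v i ∈ BA (Q i))
    (h : ∀ i, nm x + nm (v i) ≤ 1) : Tendsto (fun i => plus x (v i)) atTop (𝓝 x) := by
  rw [Ball.tendsto_iff]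
  intro j
  have hev : ∀ᶠ n in atTop, j ∉ Q n := by
    by_cases hj : ∃ m, j ∈ Q m
    · obtain ⟨m, hm⟩ := hj
      filter_upwards [eventually_gt_atTop m] with n hn hjn
      exact (Set.disjoint_left.1 (hQ hn.ne)) hm hjn
    · push Not at hj
      exact Eventually.of_forall hj
  refine tendsto_const_nhds.congr' ?_
  filter_upwards [hev] with n hn
  rw [plus_apply (h n), mem_BA.1 (hv n) j hn, add_zero]

/-- restrictions to increasing sets converge -/
theorem tendsto_res {A : ℕ → Set κ} (hA : Monotone A) {y : Ball κ} (hy : y ∈ BA (⋃ n, A n)) :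
    Tendsto (fun n => Ball.res (A n) y) atTop (𝓝 y) := by
  rw [Ball.tendsto_iff]
  intro j
  refine tendsto_const_nhds.congr' ?_
  by_cases hj : j ∈ ⋃ n, A n
  · obtain ⟨m, hm⟩ := mem_iUnion.1 hj
    filter_upwards [eventually_ge_atTop m] with n hn
    rw [Ball.res_of_mem _ (hA hn hm)]
  · refine Eventually.of_forall fun n => ?_
    have hn : j ∉ A n := fun hc => hj (mem_iUnion.2 ⟨n, hc⟩)
    simp only [Ball.res_of_notMem _ hn, mem_BA.1 hy j hj]

theorem tendsto_nm_res {A : ℕ → Set κ} (hA : Monotone A) {y : Ball κ} (hy : y ∈ BA (⋃ n, A n)) :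
    Tendsto (fun n => nm (Ball.res (A n) y)) atTop (𝓝 (nm y)) := by
  have h0 : Tendsto (fun n => Ball.mass ((⋃ m, A m) ∩ (A n)ᶜ) y) atTop (𝓝 0) := by
    refine Ball.mass_tendsto_zero _ (fun i => ?_) y
    by_cases hi : i ∈ ⋃ n, A n
    · obtain ⟨m, hm⟩ := mem_iUnion.1 hi
      filter_upwards [eventually_ge_atTop m] with n hn hc
      exact hc.2 (hA hn hm)
    · exact Eventually.of_forall fun n hc => hi hc.1
  have h1 : ∀ n, nm (Ball.res (A n) y) = nm y - Ball.mass ((⋃ m, A m) ∩ (A n)ᶜ) y := by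
    intro n
    have e : Ball.mass (A n)ᶜ y = Ball.mass ((⋃ m, A m) ∩ (A n)ᶜ) y := by
      have hy' : Ball.res (⋃ n, A n) y = y := hy
      conv_lhs => rw [← hy']
      rw [Ball.mass_res, inter_comm]
    rw [nm_res, nm_split (A n) y, e]
    ring
  simp only [h1]
  simpa using tendsto_const_nhds.sub h0

/-- basic neighbourhoods -/
theorem mem_nhds_ball {y : Ball κ} {W : Set (Ball κ)} (hW : W ∈ 𝓝 y) :
    ∃ (F : Finset κ) (δ : ℝ), 0 < δ ∧ ∀ z : Ball κ, (∀ i ∈ F, |z i - y i| < δ) → z ∈ W := by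
  rw [Ball.inducing.nhds_eq_comap, mem_comap] at hW
  obtain ⟨U, hU, hUW⟩ := hW
  rw [nhds_pi, Filter.mem_pi] at hU
  obtain ⟨I, hI, t, ht, htU⟩ := hU
  have hev : ∀ᶠ δ in 𝓝[>] (0 : ℝ), ∀ i ∈ I, Metric.ball (y i) δ ⊆ t i := by
    rw [Filter.eventually_all_finite hI]
    intro i _
    obtain ⟨d, hd, hdt⟩ := Metric.mem_nhds_iff.1 (ht i)
    have : ∀ᶠ δ in 𝓝[>] (0 : ℝ), δ < d := (eventually_lt_nhds hd).filter_mono nhdsWithin_le_nhds
    filter_upwards [this] with δ hδ
    exact (Metric.ball_subset_ball hδ.le).trans hdt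
  obtain ⟨δ, hδ, hδ0⟩ := (hev.and self_mem_nhdsWithin).exists
  refine ⟨hI.toFinset, δ, hδ0, fun z hz => hUW (htU ?_)⟩
  intro i hi
  refine hδ i hi ?_
  rw [Metric.mem_ball, Real.dist_eq]
  exact hz i (hI.mem_toFinset.2 hi)

theorem mass_finset (F : Finset κ) (y : Ball κ) : Ball.mass (F : Set κ) y = ∑ i ∈ F, |y i| := by
  refine le_antisymm ?_ (Ball.sum_le_mass y F fun i hi => hi)
  rw [Ball.mass_le_iff]
  intro s hs
  exact Finset.sum_le_sum_of_subset_of_nonneg (fun i hi => hs i hi) fun _ _ _ => abs_nonneg _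

/-- the sum of a finite set of coordinates is continuous -/
theorem continuous_mass_finset (F : Finset κ) :
    Continuous (fun y : Ball κ => Ball.mass (F : Set κ) y) := by
  simp only [mass_finset]
  exact continuous_finsetSum _ fun i _ => (Ball.continuous_coord i).abs

/-- the mass on a countable set is the supremum of the masses of finite subsets -/
theorem exists_finset_mass {A : Set κ} {y : Ball κ} {r : ℝ} (h : r < Ball.mass A y) :
    ∃ F : Finset κ, (F : Set κ) ⊆ A ∧ r < Ball.mass (F : Set κ) y := by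
  by_contra hcon
  push Not at hcon
  refine absurd h (not_lt.2 ?_)
  rw [Ball.mass_le_iff]
  intro s hs
  have := hcon s (fun i hi => hs i hi)
  rwa [mass_finset] at this

end Pool.Agent.ZDB

end

section

/-!
# ZDB/CindAux : indicators of clopen sets
`cind O` is the indicator of O if O is clopen and 0 otherwise.  In a zero-dimensional compact space (compact, T2,
totally disconnected) clopen sets form a base (`isTopologicalBasis_isClopen`, `compact_exists_isClopen_in_isOpen`), and the
linear span of the cind O is dense in C(L, ℝ) (approximate f by a step function over a finite clopen partition on whose members f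
oscillates by less than ε).
-/

open Set Filter Topology MeasureTheory Pool.Agent.H53.ZD

namespace Pool.Agent.ZDB

variable {L : Type*} [TopologicalSpace L]

theorem cind_of_mem {O : Set L} (hO : IsClopen O) {l : L} (h : l ∈ O) : cind O l = 1 := by
  unfold cind
  rw [dif_pos hO]
  show O.indicator (fun _ => (1 : ℝ)) l = 1
  rw [indicator_of_mem h]

theorem cind_of_notMem {O : Set L} {l : L} (h : l ∉ O) : cind O l = 0 := by
  unfold cind
  by_cases hO : IsClopen O
  · rw [dif_pos hO]
    show O.indicator (fun _ => (1 : ℝ)) l = 0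
    rw [indicator_of_notMem h]
  · rw [dif_neg hO]
    rfl

theorem cind_zero_or_one (O : Set L) (l : L) : cind O l = 0 ∨ cind O l = 1 := by
  by_cases hO : IsClopen O
  · by_cases h : l ∈ O
    · exact Or.inr (cind_of_mem hO h)
    · exact Or.inl (cind_of_notMem h)
  · left
    unfold cind
    rw [dif_neg hO]
    rfl

theorem cind_nonneg (O : Set L) (l : L) : 0 ≤ cind O l := by
  rcases cind_zero_or_one O l with h | h <;> rw [h]
  exact zero_le_one

theorem cind_le_one (O : Set L) (l : L) : cind O l ≤ 1 := by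
  rcases cind_zero_or_one O l with h | h <;> rw [h]
  exact zero_le_one

theorem abs_cind_le (O : Set L) (l : L) : |cind O l| ≤ 1 := by
  rw [abs_of_nonneg (cind_nonneg O l)]
  exact cind_le_one O l

theorem cind_injective {O O' : Set L} (hO : IsClopen O) (hO' : IsClopen O')
    (h : cind O = cind O') : O = O' := by
  have key : ∀ {A B : Set L}, IsClopen A → cind A = cind B → A ⊆ B := by
    intro A B hA hAB l hl
    by_contra hlB
    have h1 := cind_of_mem hA hl
    rw [hAB, cind_of_notMem hlB] at h1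
    exact zero_ne_one h1
  exact Subset.antisymm (key hO h) (key hO' h.symm)

theorem cind_univ : cind (univ : Set L) = 1 := by
  ext l
  exact cind_of_mem isClopen_univ (mem_univ l)

theorem cind_empty : cind (∅ : Set L) = 0 := by
  ext l
  exact cind_of_notMem (notMem_empty l)

theorem cind_inter {O O' : Set L} (hO : IsClopen O) (hO' : IsClopen O') :
    cind (O ∩ O') = cind O * cind O' := by
  ext l
  rw [ContinuousMap.mul_apply]
  by_cases h : l ∈ O
  · by_cases h' : l ∈ O'
    · rw [cind_of_mem (hO.inter hO') ⟨h, h'⟩, cind_of_mem hO h, cind_of_mem hO' h', mul_one]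
    · rw [cind_of_notMem h', cind_of_notMem (fun h1 => h' h1.2), mul_zero]
  · rw [cind_of_notMem h, cind_of_notMem (fun h1 => h h1.1), zero_mul]

theorem cind_union {O O' : Set L} (hO : IsClopen O) (hO' : IsClopen O') (hd : Disjoint O O') :
    cind (O ∪ O') = cind O + cind O' := by
  ext l
  rw [ContinuousMap.add_apply]
  by_cases h : l ∈ O
  · have h' : l ∉ O' := fun h1 => Set.disjoint_left.1 hd h h1
    rw [cind_of_mem (hO.union hO') (Or.inl h), cind_of_mem hO h, cind_of_notMem h', add_zero]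
  · by_cases h' : l ∈ O'
    · rw [cind_of_mem (hO.union hO') (Or.inr h'), cind_of_mem hO' h', cind_of_notMem h, zero_add]
    · rw [cind_of_notMem h, cind_of_notMem h', cind_of_notMem (fun h1 => h1.elim h h'), add_zero]

theorem cind_diff {O O' : Set L} (hO : IsClopen O) (hO' : IsClopen O') (h : O' ⊆ O) :
    cind (O \ O') = cind O - cind O' := by
  have h1 : O = (O \ O') ∪ O' := by
    rw [sdiff_union_self, union_eq_left.2 h]
  have h2 := cind_union (hO.diff hO') hO' disjoint_sdiff_left
  rw [← h1] at h2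
  rw [h2, add_sub_cancel_right]

theorem cind_comp (ρ : C(L, L)) {O : Set L} (hO : IsClopen O) :
    cind (ρ ⁻¹' O) = (cind O).comp ρ := by
  ext l
  rw [ContinuousMap.comp_apply]
  by_cases h : ρ l ∈ O
  · rw [cind_of_mem hO h, cind_of_mem (hO.preimage ρ.continuous) h]
  · rw [cind_of_notMem h, cind_of_notMem (O := ρ ⁻¹' O) h]

variable [CompactSpace L] [T2Space L] [TotallyDisconnectedSpace L]

theorem exists_clopen_between {K U : Set L} (hK : IsCompact K) (hU : IsOpen U) (h : K ⊆ U) :
    ∃ O, IsClopen O ∧ K ⊆ O ∧ O ⊆ U := by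
  refine hK.induction_on (p := fun s => ∃ O, IsClopen O ∧ s ⊆ O ∧ O ⊆ U)
    ⟨∅, isClopen_empty, subset_rfl, empty_subset _⟩ ?_ ?_ ?_
  · rintro s t hst ⟨O, h1, h2, h3⟩
    exact ⟨O, h1, hst.trans h2, h3⟩
  · rintro s t ⟨O, h1, h2, h3⟩ ⟨O', h1', h2', h3'⟩
    exact ⟨O ∪ O', h1.union h1', union_subset_union h2 h2', union_subset h3 h3'⟩
  · intro x hx
    obtain ⟨V, h1, h2, h3⟩ := compact_exists_isClopen_in_isOpen hU (h hx)
    exact ⟨V, mem_nhdsWithin_of_mem_nhds (h1.isOpen.mem_nhds h2), V, h1, subset_rfl, h3⟩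

/-- simple functions are dense -/
theorem exists_step (f : C(L, ℝ)) {ε : ℝ} (hε : 0 < ε) :
    ∃ (n : ℕ) (O : Fin n → Set L) (c : Fin n → ℝ), (∀ i, IsClopen (O i)) ∧
      ∀ l, |f l - ∑ i, c i * cind (O i) l| < ε := by
  have key : ∃ W : Set L, IsClopen W ∧ univ ⊆ W ∧ ∃ (n : ℕ) (O : Fin n → Set L) (c : Fin n → ℝ),
      (∀ i, IsClopen (O i)) ∧ (∀ l ∈ W, |f l - ∑ i, c i * cind (O i) l| < ε) ∧
        ∀ l, l ∉ W → ∑ i, c i * cind (O i) l = 0 := by
    refine isCompact_univ.induction_on (p := fun s => ∃ W : Set L, IsClopen W ∧ s ⊆ W ∧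
      ∃ (n : ℕ) (O : Fin n → Set L) (c : Fin n → ℝ),
      (∀ i, IsClopen (O i)) ∧ (∀ l ∈ W, |f l - ∑ i, c i * cind (O i) l| < ε) ∧
        ∀ l, l ∉ W → ∑ i, c i * cind (O i) l = 0) ?_ ?_ ?_ ?_
    · refine ⟨∅, isClopen_empty, subset_rfl, 0, fun _ => ∅, fun _ => 0,
        fun i => isClopen_empty, fun l hl => hl.elim, fun l _ => ?_⟩
      simp
    · rintro s t hst ⟨W, h1, h2, h3⟩
      exact ⟨W, h1, hst.trans h2, h3⟩
    · rintro s t ⟨W1, h1, h2, n1, O1, c1, h3, h4, h5⟩ ⟨W2, g1, g2, n2, O2, c2, g3, g4, g5⟩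
      have hsum : ∀ l, ∑ i, (Fin.append c1 c2) i *
          cind ((Fin.append O1 (fun i => O2 i \ W1)) i) l =
          ∑ i, c1 i * cind (O1 i) l + ∑ i, c2 i * cind (O2 i \ W1) l := by
        intro l
        rw [Fin.sum_univ_add]
        simp only [Fin.append_left, Fin.append_right]
      have hin : ∀ l ∈ W1, ∑ i, c2 i * cind (O2 i \ W1) l = 0 := by
        intro l hl
        refine Finset.sum_eq_zero (fun i _ => ?_)
        rw [cind_of_notMem (fun h => h.2 hl), mul_zero]
      have hout : ∀ l, l ∉ W1 → ∑ i, c2 i * cind (O2 i \ W1) l = ∑ i, c2 i * cind (O2 i) l := by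
        intro l hl
        refine Finset.sum_congr rfl (fun i _ => ?_)
        congr 1
        by_cases h : l ∈ O2 i
        · rw [cind_of_mem (g3 i) h, cind_of_mem ((g3 i).diff h1) ⟨h, hl⟩]
        · rw [cind_of_notMem h, cind_of_notMem (fun h' => h h'.1)]
      refine ⟨W1 ∪ W2, h1.union g1, union_subset_union h2 g2, n1 + n2,
        Fin.append O1 (fun i => O2 i \ W1), Fin.append c1 c2, ?_, ?_, ?_⟩
      · intro i
        refine Fin.addCases (fun j => ?_) (fun j => ?_) i
        · rw [Fin.append_left]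
          exact h3 j
        · rw [Fin.append_right]
          exact (g3 j).diff h1
      · intro l hl
        rw [hsum]
        by_cases hl1 : l ∈ W1
        · rw [hin l hl1, add_zero]
          exact h4 l hl1
        · rw [hout l hl1, h5 l hl1, zero_add]
          exact g4 l (hl.resolve_left hl1)
      · intro l hl
        have hl1 : l ∉ W1 := fun h => hl (Or.inl h)
        have hl2 : l ∉ W2 := fun h => hl (Or.inr h)
        rw [hsum, hout l hl1, h5 l hl1, g5 l hl2, add_zero]
    · intro x _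
      have hU : IsOpen {l : L | |f l - f x| < ε} :=
        isOpen_lt (by fun_prop) continuous_const
      obtain ⟨V, h1, h2, h3⟩ := compact_exists_isClopen_in_isOpen hU
        (show x ∈ {l : L | |f l - f x| < ε} by
          show |f x - f x| < ε
          rw [sub_self, abs_zero]
          exact hε)
      refine ⟨V, mem_nhdsWithin_of_mem_nhds (h1.isOpen.mem_nhds h2), V, h1, subset_rfl, 1,
        fun _ => V, fun _ => f x, fun _ => h1, ?_, ?_⟩
      · intro l hl
        rw [Fin.sum_univ_one, cind_of_mem h1 hl, mul_one]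
        exact h3 hl
      · intro l hl
        rw [Fin.sum_univ_one, cind_of_notMem hl, mul_zero]
  obtain ⟨W, -, hW, n, O, c, h1, h2, -⟩ := key
  exact ⟨n, O, c, h1, fun l => h2 l (hW (mem_univ l))⟩

end Pool.Agent.ZDB

end

section

/-!
# ZDB/Club : club families of countable sets (Mathlib only, except Core)
A `ClubFam` is a cofinal family of countable sets closed under increasing unions.  `Club P`: P holds on some ClubFam.
* of_closing: for φ : Finset κ → Set κ with countable values, the countable A with (∀ F ⊆ A finite, φ F ⊆ A) form a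
  ClubFam: cofinal: A_0 = A, A_{n+1} = A_n ∪ ⋃_{F ⊆ A_n} φ F (the set of finite subsets of a countable set is countable);
  a finite F ⊆ ⋃A_n lies in some A_n.
* inter: countably many ClubFams 𝒢_i: the sets in all 𝒢_i.  Cofinal: let e : ℕ → ι hit each index infinitely often
  (`exists_surjective..`, e.g. through Nat.unpair and a surjection ℕ → ι), A_0 ⊆ A_1 ⊆ … with A_{n+1} ∈ 𝒢_{e n}; for each
  i the union is the union of the increasing subsequence of the A_{n+1} with e n = i.  If ι is empty: any family, e.g. all countable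
  sets.
* refine: 𝒢' = 𝒢 ∩ (the family of P).
-/

open Set Filter Topology MeasureTheory Pool.Agent.H53.ZD

namespace Pool.Agent.ZDB

variable {κ : Type*}

structure ClubFam (κ : Type*) where
  G : Set κ → Prop
  countable : ∀ A, G A → A.Countable
  cofinal : ∀ A : Set κ, A.Countable → ∃ A', A ⊆ A' ∧ G A'
  union : ∀ A : ℕ → Set κ, Monotone A → (∀ n, G (A n)) → G (⋃ n, A n)

def Club (P : Set κ → Prop) : Prop := ∃ 𝒢 : ClubFam κ, ∀ A, 𝒢.G A → P A

theorem Club.mono {P Q : Set κ → Prop} (h : Club P) (hPQ : ∀ A, P A → Q A) : Club Q :=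
  let ⟨𝒢, h𝒢⟩ := h
  ⟨𝒢, fun A hA => hPQ A (h𝒢 A hA)⟩

private theorem Club_fin_sub {A : ℕ → Set κ} (hA : Monotone A) (F : Finset κ)
    (hF : (F : Set κ) ⊆ ⋃ n, A n) : ∃ n, (F : Set κ) ⊆ A n := by
  classical
  induction F using Finset.induction_on with
  | empty => exact ⟨0, by simp⟩
  | insert a s _ ih =>
    have h1 : (s : Set κ) ⊆ ⋃ n, A n := fun x hx => hF (by
      rw [Finset.coe_insert]
      exact Or.inr hx)
    obtain ⟨n, hn⟩ := ih h1
    have h2 : a ∈ ⋃ n, A n := hF (by simp)
    obtain ⟨m, hm⟩ := Set.mem_iUnion.1 h2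
    refine ⟨max n m, ?_⟩
    intro x hx
    rcases Finset.mem_insert.1 (Finset.mem_coe.1 hx) with rfl | hx
    · exact hA (le_max_right _ _) hm
    · exact hA (le_max_left _ _) (hn (Finset.mem_coe.2 hx))

private theorem Club_inter_aux {ι : Type*} [Countable ι] (𝒢 : ι → ClubFam κ) :
    ∃ 𝒢' : ClubFam κ, ∀ A, 𝒢'.G A → ∀ i, (𝒢 i).G A := by
  classical
  refine ⟨⟨fun A => A.Countable ∧ ∀ i, (𝒢 i).G A, fun A hA => hA.1, ?_, ?_⟩, fun A hA => hA.2⟩
  · intro A hA
    rcases isEmpty_or_nonempty ι with hι | hι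
    · exact ⟨A, Set.Subset.rfl, hA, fun i => (hι.false i).elim⟩
    · obtain ⟨e0, he0⟩ := exists_surjective_nat ι
      have hnx : ∀ (i : ι) (B : Set κ), ∃ C : Set κ, B.Countable → B ⊆ C ∧ (𝒢 i).G C := by
        intro i B
        by_cases hB : B.Countable
        · obtain ⟨C, hC1, hC2⟩ := (𝒢 i).cofinal B hB
          exact ⟨C, fun _ => ⟨hC1, hC2⟩⟩
        · exact ⟨∅, fun h => (hB h).elim⟩
      choose nx hnx using hnx
      let S : ℕ → Set κ := fun n => Nat.rec A (fun n B => nx (e0 (Nat.unpair n).1) B) n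
      have hS0 : S 0 = A := rfl
      have hS1 : ∀ n, S (n + 1) = nx (e0 (Nat.unpair n).1) (S n) := fun n => rfl
      have hSc : ∀ n, (S n).Countable := by
        intro n
        induction n with
        | zero => exact hA
        | succ n ih =>
          rw [hS1]
          exact (𝒢 _).countable _ (hnx _ _ ih).2
      have hmono : Monotone S := by
        refine monotone_nat_of_le_succ fun n => ?_
        rw [hS1]
        exact (hnx _ _ (hSc n)).1
      refine ⟨⋃ n, S n, Set.subset_iUnion S 0, Set.countable_iUnion hSc, ?_⟩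
      intro i
      obtain ⟨a, rfl⟩ := he0 i
      have e : (⋃ n, S n) = ⋃ j, S (Nat.pair a j + 1) := by
        apply Set.Subset.antisymm
        · refine Set.iUnion_subset fun n => ?_
          refine Set.Subset.trans (hmono (show n ≤ Nat.pair a n + 1 from
            (Nat.right_le_pair a n).trans (Nat.le_succ _))) ?_
          exact Set.subset_iUnion (fun j => S (Nat.pair a j + 1)) n
        · exact Set.iUnion_subset fun j => Set.subset_iUnion S (Nat.pair a j + 1)
      rw [e]
      have hp : StrictMono fun j => Nat.pair a j := fun b1 b2 h => Nat.pair_lt_pair_right a h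
      refine (𝒢 (e0 a)).union _ ?_ ?_
      · intro j1 j2 hj
        exact hmono (Nat.succ_le_succ (hp.monotone hj))
      · intro j
        have h1 := (hnx (e0 (Nat.unpair (Nat.pair a j)).1) (S (Nat.pair a j))
          (hSc (Nat.pair a j))).2
        have h2 : (Nat.unpair (Nat.pair a j)).1 = a := by rw [Nat.unpair_pair]
        show (𝒢 (e0 a)).G (S (Nat.pair a j + 1))
        rw [hS1]
        rw [h2] at h1 ⊢
        exact h1
  · intro A hA h
    exact ⟨Set.countable_iUnion fun n => (h n).1, fun i => (𝒢 i).union A hA fun n => (h n).2 i⟩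

theorem Club.of_closing (φ : Finset κ → Set κ) (hφ : ∀ F, (φ F).Countable) :
    Club (fun A : Set κ => A.Countable ∧ ∀ F : Finset κ, (F : Set κ) ⊆ A → φ F ⊆ A) := by
  classical
  refine ⟨⟨fun A => A.Countable ∧ ∀ F : Finset κ, (F : Set κ) ⊆ A → φ F ⊆ A,
    fun A hA => hA.1, ?_, ?_⟩, fun A hA => hA⟩
  · intro A hA
    let step : Set κ → Set κ := fun B => B ∪ ⋃ F ∈ {F : Finset κ | (F : Set κ) ⊆ B}, φ F
    have hstep : ∀ B : Set κ, B.Countable → (step B).Countable := by
      intro B hB
      refine hB.union (Set.Countable.biUnion ?_ fun F _ => hφ F)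
      have h1 := Set.countable_ofPred_finite_subset hB
      have h2 : ((fun F : Finset κ => (F : Set κ)) ⁻¹' {t | t.Finite ∧ t ⊆ B}).Countable :=
        h1.preimage_of_injOn (fun F _ F' _ h => Finset.coe_injective h)
      refine h2.mono ?_
      intro F hF
      exact ⟨F.finite_toSet, hF⟩
    let S : ℕ → Set κ := fun n => step^[n] A
    have hS1 : ∀ n, S (n + 1) = step (S n) := fun n => Function.iterate_succ_apply' step n A
    have hSc : ∀ n, (S n).Countable := by
      intro n
      induction n with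
      | zero => exact hA
      | succ n ih =>
        rw [hS1]
        exact hstep _ ih
    have hmono : Monotone S := by
      refine monotone_nat_of_le_succ fun n => ?_
      rw [hS1]
      exact Set.subset_union_left
    refine ⟨⋃ n, S n, Set.subset_iUnion S 0, Set.countable_iUnion hSc, ?_⟩
    intro F hF
    obtain ⟨n, hn⟩ := Club_fin_sub hmono F hF
    refine Set.Subset.trans ?_ (Set.subset_iUnion S (n + 1))
    rw [hS1]
    refine Set.Subset.trans ?_ Set.subset_union_right
    exact Set.subset_biUnion_of_mem (u := fun F : Finset κ => φ F) (show F ∈ {F : Finset κ | (F : Set κ) ⊆ S n} from hn)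
  · intro A hA h
    refine ⟨Set.countable_iUnion fun n => (h n).1, fun F hF => ?_⟩
    obtain ⟨n, hn⟩ := Club_fin_sub hA F hF
    exact Set.Subset.trans ((h n).2 F hn) (Set.subset_iUnion A n)

theorem Club.forall {ι : Type*} [Countable ι] {P : ι → Set κ → Prop} (h : ∀ i, Club (P i)) :
    Club (fun A => ∀ i, P i A) := by
  choose 𝒢 h𝒢 using h
  obtain ⟨𝒢', h'⟩ := Club_inter_aux 𝒢
  exact ⟨𝒢', fun A hA i => h𝒢 i A (h' A hA i)⟩

theorem Club.and {P Q : Set κ → Prop} (h : Club P) (h' : Club Q) :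
    Club (fun A => P A ∧ Q A) := by
  obtain ⟨𝒢₁, h₁⟩ := h
  obtain ⟨𝒢₂, h₂⟩ := h'
  obtain ⟨𝒢', h⟩ := Club_inter_aux (fun b : Bool => cond b 𝒢₁ 𝒢₂)
  exact ⟨𝒢', fun A hA => ⟨h₁ A (h A hA true), h₂ A (h A hA false)⟩⟩

theorem Club.superset (B : Set κ) (hB : B.Countable) : Club (fun A => B ⊆ A) := by
  refine (Club.of_closing (fun _ => B) (fun _ => hB)).mono ?_
  intro A hA
  exact hA.2 ∅ (by simp)

theorem Club.exists {P : Set κ → Prop} (h : Club P) {A : Set κ} (hA : A.Countable) :
    ∃ A', A ⊆ A' ∧ A'.Countable ∧ P A' := by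
  obtain ⟨𝒢, h𝒢⟩ := h
  obtain ⟨A', h1, h2⟩ := 𝒢.cofinal A hA
  exact ⟨A', h1, 𝒢.countable _ h2, h𝒢 _ h2⟩

theorem Club.refine {P : Set κ → Prop} (h : Club P) (𝒢 : ClubFam κ) :
    ∃ 𝒢' : ClubFam κ, ∀ A, 𝒢'.G A → 𝒢.G A ∧ P A := by
  obtain ⟨𝒢₂, h₂⟩ := h
  obtain ⟨𝒢', h⟩ := Club_inter_aux (fun b : Bool => cond b 𝒢 𝒢₂)
  exact ⟨𝒢', fun A hA => ⟨h A hA true, h₂ A (h A hA false)⟩⟩

end Pool.Agent.ZDB

end
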