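import Pool.Agent.ZDM.P01

/-!
# Merged form of the modules ZDB.Code, ZDB.NumFin, ZDB.Stretch, ZDB.VmOpen, ZDB.BSum, ZDB.MeasDense, ZDB.Refl, ZDB.ReflUnb, ZDB.RetMake, ZDB.VmLsc, ZDB.VmMap, ZDB.WDef
-/

set_option autoImplicit false
set_option linter.unusedSectionVars false

section

/-!
# ZDB/Code : countably many codes for continuous functions on the ball
`cubePt p y` = the coordinates of y along the tuple p, a point of the cube.  `dseq n` = a dense sequence in C(Cube n, ℝ)
(separable: `ContinuousMap.instSecondCountableTopology`).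
* exists_code.  f = f ∘ res A.  By `Ball.approx_res` there is a finite F₀ with |f(res A' y) − f y| < ε/3 for A' ⊇ F₀; put
  F = F₀ ∩ A.  Let p be a tuple, F ⊆ R := range p ⊆ A.  f(res R y): since f = f∘res A, f(res R y) = f(res (R ∪ (F₀∖A)) (res A y)), and
  R ∪ (F₀∖A) ⊇ F₀, so |f(res R y) − f(res A y)| < ε/3 and f(res A y) = f y.
  The function h(y) = f(res R y) factors through q = cubePt p : Ball κ → Cube n (res R y depends only on cubePt p y).  q is a
  continuous map between compact Hausdorff spaces, hence a quotient map onto its closed image X (`IsQuotientMap`/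
  `Continuous.isClosedMap`), so h = g₀ ∘ q with g₀ continuous on X; Tietze (`ContinuousMap.exists_extension`/
  `exists_restrict_eq`...) extends g₀ to g ∈ C(Cube n, ℝ); choose m with ‖dseq n m − g‖ < ε/3.
  (Alternative to the quotient argument: choose a subset of indices on which p is injective; g₀(z) = f(extension by zero).)
* exists_code_level: apply exists_code to a tuple enumerating F exactly.
* fibre_countable: FCode κ with c.supp = F injects into Σ n, (Fin n → F) × ℕ.
-/

open Set Filter Topology MeasureTheory Pool.Agent.H53.ZD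

namespace Pool.Agent.ZDB

variable {κ : Type*}

/-- the cube -/
abbrev Cube (n : ℕ) := Fin n → Icc (-1 : ℝ) 1

/-- the coordinates along a tuple -/
noncomputable def cubePt {n : ℕ} (p : Fin n → κ) (y : Ball κ) : Cube n :=
  fun i => ⟨y (p i), abs_le.1 (y.abs_le_one (p i))⟩

lemma continuous_cubePt {n : ℕ} (p : Fin n → κ) : Continuous (cubePt p : Ball κ → Cube n) :=
  continuous_pi fun i => (Ball.continuous_coord (p i)).subtype_mk _

/-- the coordinates along a tuple, as a continuous map -/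
noncomputable def cubeC {n : ℕ} (p : Fin n → κ) : C(Ball κ, Cube n) :=
  ⟨cubePt p, continuous_cubePt p⟩

/-- a dense sequence in the continuous functions on the cube -/
noncomputable def dseq (n : ℕ) : ℕ → C(Cube n, ℝ) := TopologicalSpace.denseSeq C(Cube n, ℝ)

/-- a code of a continuous function on the ball -/
structure FCode (κ : Type*) where
  n : ℕ
  p : Fin n → κ
  m : ℕ

/-- the support of a code -/
noncomputable def FCode.supp (c : FCode κ) : Finset κ :=
  open Classical in Finset.univ.image c.p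

/-- the coded function -/
noncomputable def FCode.ev (c : FCode κ) : C(Ball κ, ℝ) := (dseq c.n c.m).comp (cubeC c.p)

lemma FCode.ev_apply (c : FCode κ) (y : Ball κ) : c.ev y = dseq c.n c.m (cubePt c.p y) := rfl

private theorem exists_factor (f : C(Ball κ, ℝ)) {n : ℕ} (p : Fin n → κ) :
    ∃ g : C(Cube n, ℝ), ∀ y, g (cubePt p y) = f (Ball.res (range p) y) := by
  -- the closed image
  set q : C(Ball κ, range (cubePt p : Ball κ → Cube n)) :=
    ⟨fun y => ⟨cubePt p y, mem_range_self y⟩, (continuous_cubePt p).subtype_mk _⟩ with hq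
  have hsurj : Function.Surjective q := by
    rintro ⟨z, y, rfl⟩
    exact ⟨y, rfl⟩
  have hcl : IsClosedMap q := q.continuous.isClosedMap
  have hquot : Topology.IsQuotientMap q := hcl.isQuotientMap q.continuous hsurj
  have hfac : ∀ a b, q a = q b → (f.comp (resC (range p))) a = (f.comp (resC (range p))) b := by
    intro a b hab
    have h1 : cubePt p a = cubePt p b := congrArg Subtype.val hab
    have h2 : Ball.res (range p) a = Ball.res (range p) b := by
      rw [Ball.res_eq_iff]
      rintro _ ⟨j, rfl⟩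
      exact congrArg Subtype.val (congrFun h1 j)
    change f (Ball.res (range p) a) = f (Ball.res (range p) b)
    rw [h2]
  have hce : Topology.IsClosedEmbedding (Subtype.val : range (cubePt p : Ball κ → Cube n) → Cube n) :=
    (isCompact_range (continuous_cubePt p)).isClosed.isClosedEmbedding_subtypeVal
  obtain ⟨g, hg⟩ := ContinuousMap.exists_extension hce (hquot.lift _ hfac)
  refine ⟨g, fun y => ?_⟩
  have h3 := DFunLike.congr_fun hg (q y)
  have h4 : (hquot.lift (f.comp (resC (range p))) hfac) (q y) = f (Ball.res (range p) y) :=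
    DFunLike.congr_fun (hquot.lift_comp (f.comp (resC (range p))) hfac) y
  rw [h4] at h3
  exact h3

theorem exists_code (f : C(Ball κ, ℝ)) (A : Set κ) (hf : f.comp (resC A) = f) {ε : ℝ}
    (hε : 0 < ε) : ∃ F : Finset κ, (F : Set κ) ⊆ A ∧ ∀ (n : ℕ) (p : Fin n → κ),
      (F : Set κ) ⊆ range p → range p ⊆ A → ∃ m, ∀ y, |f y - dseq n m (cubePt p y)| < ε := by
  classical
  have hfA : ∀ y, f (Ball.res A y) = f y := fun y => DFunLike.congr_fun hf y
  obtain ⟨F₀, hF₀⟩ := Ball.approx_res f.continuous (half_pos hε)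
  refine ⟨F₀.filter (fun i => i ∈ A), ?_, ?_⟩
  · intro i hi
    exact (Finset.mem_filter.1 (Finset.mem_coe.1 hi)).2
  · intro n p hFp hpA
    obtain ⟨g, hg⟩ := exists_factor f p
    obtain ⟨m, hm⟩ := (TopologicalSpace.denseRange_denseSeq C(Cube n, ℝ)).exists_dist_lt g
      (half_pos hε)
    refine ⟨m, fun y => ?_⟩
    have h1 : |f (Ball.res (range p) y) - f y| < ε / 2 := by
      have h2 := hF₀ (range p ∪ {i | i ∈ F₀ ∧ i ∉ A}) (fun i hi => by
        by_cases hA : i ∈ A
        · exact Or.inl (hFp (by simp [hi, hA]))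
        · exact Or.inr ⟨hi, hA⟩) (Ball.res A y)
      rw [Ball.res_res, hfA] at h2
      have h3 : (range p ∪ {i | i ∈ F₀ ∧ i ∉ A}) ∩ A = range p := by
        ext i
        constructor
        · rintro ⟨h4 | h4, h5⟩
          · exact h4
          · exact absurd h5 h4.2
        · intro h4
          exact ⟨Or.inl h4, hpA h4⟩
      rwa [h3] at h2
    have h4 : |g (cubePt p y) - dseq n m (cubePt p y)| < ε / 2 := by
      have h5 := ContinuousMap.dist_apply_le_dist (f := g) (g := dseq n m) (cubePt p y)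
      rw [Real.dist_eq] at h5
      exact h5.trans_lt hm
    rw [hg] at h4
    have h6 := abs_lt.1 h1
    have h7 := abs_lt.1 h4
    rw [abs_lt]
    constructor <;> linarith

theorem exists_code_level (f : C(Ball κ, ℝ)) (A : Set κ) (hf : f.comp (resC A) = f) {ε : ℝ}
    (hε : 0 < ε) : ∃ c : FCode κ, (c.supp : Set κ) ⊆ A ∧ ∀ y, |f y - c.ev y| < ε := by
  classical
  obtain ⟨F, hFA, hF⟩ := exists_code f A hf hε
  have hr : range (fun i : Fin F.card => (F.equivFin.symm i : κ)) = (F : Set κ) := by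
    ext i
    constructor
    · rintro ⟨j, rfl⟩
      exact (F.equivFin.symm j).2
    · intro hi
      exact ⟨F.equivFin ⟨i, hi⟩, by simp⟩
  obtain ⟨m, hm⟩ := hF F.card (fun i => (F.equivFin.symm i : κ)) hr.ge (hr.le.trans hFA)
  refine ⟨⟨F.card, fun i => (F.equivFin.symm i : κ), m⟩, ?_, hm⟩
  have h1 : ((⟨F.card, fun i => (F.equivFin.symm i : κ), m⟩ : FCode κ).supp : Set κ) =
      range (fun i : Fin F.card => (F.equivFin.symm i : κ)) := by
    unfold FCode.supp
    ext i
    simp
  rw [h1]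
  exact hr.le.trans hFA

theorem FCode.countable_of_supp (A : Set κ) (hA : A.Countable) :
    {c : FCode κ | (c.supp : Set κ) ⊆ A}.Countable := by
  have : Countable A := hA.to_subtype
  refine (countable_range (fun z : (Σ n : ℕ, (Fin n → A) × ℕ) =>
    (⟨z.1, fun i => (z.2.1 i : κ), z.2.2⟩ : FCode κ))).mono ?_
  rintro ⟨n, p, m⟩ hc
  have hp : ∀ i, p i ∈ A := fun i => hc (by simp [FCode.supp])
  exact ⟨⟨n, (fun i => ⟨p i, hp i⟩, m)⟩, rfl⟩

theorem FCode.fibre_countable (F : Finset κ) : {c : FCode κ | c.supp = F}.Countable := by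
  refine (FCode.countable_of_supp (F : Set κ) F.countable_toSet).mono ?_
  intro c hc
  have h : c.supp = F := hc
  change (c.supp : Set κ) ⊆ (F : Set κ)
  rw [h]

theorem FCode.ev_level (c : FCode κ) (A : Set κ) (h : (c.supp : Set κ) ⊆ A) :
    c.ev.comp (resC A) = c.ev := by
  ext y
  change dseq c.n c.m (cubePt c.p (Ball.res A y)) = dseq c.n c.m (cubePt c.p y)
  have h1 : cubePt c.p (Ball.res A y) = cubePt c.p y := by
    funext i
    apply Subtype.ext
    change Ball.res A y (c.p i) = y (c.p i)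
    exact Ball.res_of_mem y (h (by simp [FCode.supp]))
  rw [h1]

/-- every continuous function on the ball depends on countably many coordinates -/
theorem exists_countable_level (f : C(Ball κ, ℝ)) :
    ∃ A : Set κ, A.Countable ∧ ∀ A', A ⊆ A' → f.comp (resC A') = f := by
  have h1 : ∀ n : ℕ, ∃ F : Finset κ, ∀ A : Set κ, (∀ i ∈ F, i ∈ A) → ∀ x,
      |f (Ball.res A x) - f x| < 1 / ((n : ℝ) + 1) := fun n =>
    Ball.approx_res f.continuous (by positivity)
  choose F hF using h1
  refine ⟨⋃ n, (F n : Set κ), countable_iUnion (fun n => (F n).countable_toSet), ?_⟩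
  intro A' hA'
  ext x
  change f (Ball.res A' x) = f x
  by_contra hne
  have hpos : 0 < |f (Ball.res A' x) - f x| := abs_pos.2 (sub_ne_zero.2 hne)
  obtain ⟨n, hn⟩ := exists_nat_one_div_lt hpos
  have h2 := hF n A' (fun i hi => hA' (mem_iUnion.2 ⟨n, hi⟩)) x
  linarith

end Pool.Agent.ZDB

end

section

/-!
# ZDB/NumFin : the final numerical inequality (pure real arithmetic)
h = g/100.  ((1−3h)/h)/((h t r')⁻¹) = (1−3h)·t·r'.  1 − nX ≥ ry − g·tw/1000 − tB/2, and 1/ry ≤ 2/tw, so
(1−nX)/((1+h)·t·ry)·t ≥ (1 − g/500 − tB/tw)/(1+h), tB/tw ≤ g/(500(1+J)) ≤ g/500, J·t ≤ J·tB/tw ≤ g/500 (n ≥ 1).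
So the second summand is ≥ (1−h)(1−3h)·((1 − g/250)/(1+h) − g/500)·r' ≥ (1−h)(1−3h)((1−h)(1−g/250) − g/500)·r' ≥ (1 − g/10)·r' ≥ r' − g/10.
-/

open Set Filter Topology MeasureTheory Pool.Agent.H53.ZD

namespace Pool.Agent.ZDB

theorem numFin {g tw t tB ry r' nX : ℝ} {n J : ℕ} (hg : 0 < g) (hg1 : g ≤ 1) (htw : 0 < tw)
    (ht : 0 < t) (htB : 0 < tB) (hn : 0 < n) (h1 : tw / 2 ≤ ry) (h2 : 0 < r') (h3 : r' ≤ 1)
    (h4 : nX ≤ 1 - ry + g * tw / 1000 + tB / 2) (h5 : t ≤ tB / (n * tw))
    (h6 : tB ≤ g * tw / (500 * (1 + J))) :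
    1 ≤ (1 - r' + g / 2) + (1 - g / 100) * ((1 - nX) / ((1 + g / 100) * t * ry) - J) *
      (((1 - 3 * (g / 100)) / (g / 100)) / ((g / 100) * t * r')⁻¹) := by
  have hry : 0 < ry := by linarith
  have hJ : (0 : ℝ) ≤ J := Nat.cast_nonneg J
  have hn' : (1 : ℝ) ≤ n := by exact_mod_cast hn
  have hq0 : 0 ≤ tB / tw := by positivity
  have hq : tB / tw * (1 + J) ≤ g / 500 := by
    rw [le_div_iff₀ (by positivity)] at h6
    rw [div_mul_eq_mul_div, div_le_iff₀ htw]
    linarith
  have hq1 : tB / tw ≤ g / 500 := by nlinarith [mul_nonneg hq0 hJ]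
  have hqJ : (J : ℝ) * (tB / tw) ≤ g / 500 := by nlinarith
  have htq : t ≤ tB / tw := by
    refine h5.trans (div_le_div_of_nonneg_left htB.le htw ?_)
    nlinarith
  have hJt : (J : ℝ) * t ≤ g / 500 := (mul_le_mul_of_nonneg_left htq hJ).trans hqJ
  have htB' : tB ≤ g / 500 * tw := by rwa [div_le_iff₀ htw] at hq1
  have ha : 1 - g / 250 ≤ (1 - nX) / ry := by
    rw [le_div_iff₀ hry]
    nlinarith
  have e : ((1 - nX) / ((1 + g / 100) * t * ry) - J) *
      (((1 - 3 * (g / 100)) / (g / 100)) / ((g / 100) * t * r')⁻¹) =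
      ((1 - nX) / ry / (1 + g / 100) - J * t) * ((1 - 3 * (g / 100)) * r') := by
    have h7 : (1 : ℝ) + g / 100 ≠ 0 := by positivity
    field_simp
  rw [mul_assoc, e]
  have hb : (1 - g / 100) * (1 - g / 250) ≤ (1 - nX) / ry / (1 + g / 100) := by
    rw [le_div_iff₀ (by positivity)]
    have h8 : 0 ≤ (g / 100) ^ 2 * (1 - g / 250) := mul_nonneg (sq_nonneg _) (by linarith)
    linarith
  have hc : 1 - 2 * g / 125 ≤ (1 - nX) / ry / (1 + g / 100) - J * t := by nlinarith
  have hd : (1 - g / 25) * r' ≤ (1 - g / 100) * ((1 - 3 * (g / 100)) * r') := by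
    have h8 : 0 ≤ g * g * r' := by positivity
    linarith
  have hd0 : 0 ≤ (1 - g / 100) * ((1 - 3 * (g / 100)) * r') :=
    mul_nonneg (by linarith) (mul_nonneg (by linarith) h2.le)
  have hf : (1 - 2 * g / 125) * ((1 - g / 100) * ((1 - 3 * (g / 100)) * r')) ≤
      ((1 - nX) / ry / (1 + g / 100) - J * t) * ((1 - g / 100) * ((1 - 3 * (g / 100)) * r')) :=
    mul_le_mul_of_nonneg_right hc hd0
  have hk : (1 - 2 * g / 125) * ((1 - g / 25) * r') ≤
      (1 - 2 * g / 125) * ((1 - g / 100) * ((1 - 3 * (g / 100)) * r')) :=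
    mul_le_mul_of_nonneg_left hd (by linarith)
  have hl : r' - g / 2 ≤ (1 - 2 * g / 125) * ((1 - g / 25) * r') := by
    have h8 : 0 ≤ g * g * r' := by positivity
    have h9 : g * r' ≤ g := by nlinarith
    nlinarith
  nlinarith

end Pool.Agent.ZDB

end

section

/-!
# ZDB/Stretch : a pure pigeonhole lemma
Φ is monotone on [α,β].  The increments over the K consecutive intervals [α+ir, α+(i+1)r], i < K, are ≥ 0 and add up to at most B ≤ K·ε, so one of
them is ≤ ε.
-/

open Set Filter Topology MeasureTheory Pool.Agent.H53.ZD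

namespace Pool.Agent.ZDB

theorem exists_stretch (Φ : ℕ → ℝ) (α β r K : ℕ) (B ε : ℝ)
    (hm : ∀ k, α ≤ k → k < β → Φ k ≤ Φ (k + 1)) (hB : Φ β - Φ α ≤ B) (hK : B ≤ K * ε)
    (hK0 : 0 < K) (hlen : α + K * r ≤ β) :
    ∃ α', α ≤ α' ∧ α' + r ≤ β ∧ Φ (α' + r) - Φ α' ≤ ε := by
  by_contra hcon
  push Not at hcon
  have hmono : ∀ j, ∀ k, α ≤ k → k + j ≤ β → Φ k ≤ Φ (k + j) := by
    intro j
    induction j with
    | zero => intro k _ _; exact le_rfl
    | succ j ih =>
      intro k hk hkj
      exact (ih k hk (by omega)).trans (hm (k + j) (by omega) (by omega))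
  have hsum : ∀ i, 0 < i → i ≤ K → (i : ℝ) * ε < Φ (α + i * r) - Φ α := by
    intro i
    induction i with
    | zero => intro h; exact absurd h (lt_irrefl 0)
    | succ i ih =>
      intro _ hi
      have h1 : i * r + r ≤ K * r := by
        have := Nat.mul_le_mul_right r hi
        rwa [Nat.add_mul, one_mul] at this
      have h2 := hcon (α + i * r) (by omega) (by omega)
      have h3 : α + (i + 1) * r = α + i * r + r := by ring
      rw [h3]
      push_cast
      rcases Nat.eq_zero_or_pos i with h0 | h0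
      · subst h0
        simp only [zero_mul, add_zero, Nat.cast_zero, zero_add, one_mul] at h2 ⊢
        linarith
      · have h4 := ih h0 (by omega)
        linarith
  have h1 := hsum K hK0 le_rfl
  have h2 := hmono (β - (α + K * r)) (α + K * r) (by omega) (by omega)
  have h3 : α + K * r + (β - (α + K * r)) = β := by omega
  rw [h3] at h2
  linarith

end Pool.Agent.ZDB

end

section

/-!
# ZDB/VmOpen (general; `vm φ` = variation measure of a functional, see Pool/Agent/H53/ZD/Func.lean)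
(1) lt_vm_open.  U open, r < vm(U).  By inner regularity (`IsOpen.measure_eq_iSup_isCompact`, vm is Regular) there is a
compact K ⊆ U with r < vm(K).  Urysohn: g continuous, g=1 on K, g=0 off U, 0≤g≤1 (`exists_continuous_one_zero_of_isCompact`).
Then r < vm(K) ≤ ∫ g dvm = absF φ g (`integral_vm`), a supremum over `domSet φ g`; so some f with |f| ≤ g has r < φ f.
(2) le_vm.  φ f ≤ |φ f| ≤ ∫|f| dvm (`abs_le_integral_vm`) ≤ ∫ 1_U dvm = vm(U).
(3) vm_cind: |cind E| ≤ 1 and it vanishes off E; use (2) for ± cind E.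
(4) vm_atom.  Let l ∈ E clopen, ε > 0.  Outer regularity: an open O with l ∈ O ⊆ E, vm(O) < vm({l})+ε.  By (1) there is f,
|f| ≤ 1, f = 0 off O, φ f > vm(O) − ε.  Put s = f l, h = f − s·cind E.  |φ h| ≤ ∫|h| dvm and h(l) = 0, |h| ≤ 2 on O∖{l},
|h| ≤ |s| ≤ 1 on E∖O, h = 0 off E.  So φ f ≤ |s||φ(cind E)| + 2vm(O∖{l}) + vm(E∖O) ≤ |φ(cind E)| + 2ε + vm(E∖{l}),
and φ f > vm(O) − ε ≥ vm({l}) − ε.  Let ε → 0.
-/

open Set Filter Topology MeasureTheory Pool.Agent.H53.ZD

namespace Pool.Agent.ZDB

variable {X : Type*} [TopologicalSpace X] [CompactSpace X] [T2Space X] [MeasurableSpace X] [BorelSpace X]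

theorem lt_vm_open (φ : C(X, ℝ) →L[ℝ] ℝ) {U : Set X} (hU : IsOpen U) {r : ℝ}
    (h : r < (vm φ).real U) :
    ∃ f : C(X, ℝ), (∀ x, |f x| ≤ 1) ∧ (∀ x, x ∉ U → f x = 0) ∧ r < φ f := by
  rcases lt_or_ge r 0 with hr | hr
  · exact ⟨0, fun x => by simp, fun x _ => rfl, by simpa using hr⟩
  have h' : ENNReal.ofReal r < vm φ U :=
    (ENNReal.ofReal_lt_iff_lt_toReal hr (measure_ne_top _ _)).2 h
  obtain ⟨K, hKU, hK, hrK⟩ := hU.exists_lt_isCompact h'
  have hrK' : r < (vm φ).real K :=
    (ENNReal.ofReal_lt_iff_lt_toReal hr (measure_ne_top _ _)).1 hrK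
  obtain ⟨g, hg1, hg0, -, hg⟩ := exists_continuous_one_zero_of_isCompact hK hU.isClosed_compl
    (disjoint_compl_right_iff_subset.2 hKU)
  have h1 : (vm φ).real K ≤ ∫ x, g x ∂(vm φ) := by
    have : (vm φ).real K = ∫ x, K.indicator (fun _ => (1 : ℝ)) x ∂(vm φ) := by
      rw [integral_indicator hK.measurableSet]; simp
    rw [this]
    apply integral_mono
    · exact (integrable_const (1 : ℝ)).indicator hK.measurableSet
    · exact integrable_cont (vm φ) g g.continuous
    · intro x
      by_cases hx : x ∈ K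
      · simp only [indicator_of_mem hx]
        rw [hg1 hx]; simp
      · simp only [indicator_of_notMem hx]
        exact (hg x).1
  rw [integral_vm φ g g.continuous fun x => (hg x).1] at h1
  obtain ⟨y, ⟨f, hf, rfl⟩, hy⟩ := exists_lt_of_lt_csSup
    ⟨0, domSet_nonempty φ g fun x => (hg x).1⟩ (lt_of_lt_of_le hrK' h1)
  refine ⟨f, fun x => (hf x).trans (hg x).2, fun x hx => ?_, hy⟩
  have h2 := hf x
  rw [hg0 hx] at h2
  simpa using h2

theorem le_vm (φ : C(X, ℝ) →L[ℝ] ℝ) {U : Set X} (hU : MeasurableSet U) (f : C(X, ℝ))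
    (h1 : ∀ x, |f x| ≤ 1) (h0 : ∀ x, x ∉ U → f x = 0) : φ f ≤ (vm φ).real U := by
  refine (le_abs_self _).trans ((abs_le_integral_vm φ f).trans ?_)
  have : (vm φ).real U = ∫ x, U.indicator (fun _ => (1 : ℝ)) x ∂(vm φ) := by
    rw [integral_indicator hU]; simp
  rw [this]
  apply integral_mono
  · exact integrable_cont (vm φ) _ (by fun_prop)
  · exact (integrable_const (1 : ℝ)).indicator hU
  · intro x
    by_cases hx : x ∈ U
    · simp only [indicator_of_mem hx]
      exact h1 x
    · simp only [indicator_of_notMem hx]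
      rw [h0 x hx]
      simp

theorem abs_vm_cind (φ : C(X, ℝ) →L[ℝ] ℝ) {E : Set X} (hE : IsClopen E) :
    |φ (cind E)| ≤ (vm φ).real E := by
  have e : ∀ x, cind E x = E.indicator (fun _ => (1 : ℝ)) x := by
    intro x
    unfold cind
    rw [dif_pos hE]
    rfl
  have h1 : ∀ x, |cind E x| ≤ 1 := by
    intro x
    rw [e]
    by_cases hx : x ∈ E
    · simp [hx]
    · simp [hx]
  have h0 : ∀ x, x ∉ E → cind E x = 0 := by
    intro x hx
    rw [e, indicator_of_notMem hx]
  rw [abs_le]
  constructor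
  · have := le_vm φ hE.isOpen.measurableSet (-cind E) (fun x => by simpa using h1 x)
      (fun x hx => by simp [h0 x hx])
    rw [map_neg] at this
    linarith
  · exact le_vm φ hE.isOpen.measurableSet (cind E) h1 h0

theorem vm_atom (φ : C(X, ℝ) →L[ℝ] ℝ) {E : Set X} (hE : IsClopen E) {l : X} (hl : l ∈ E) :
    (vm φ).real {l} - (vm φ).real (E \ {l}) ≤ |φ (cind E)| := by
  have e : ∀ x, cind E x = E.indicator (fun _ => (1 : ℝ)) x := by
    intro x
    unfold cind
    rw [dif_pos hE]
    rfl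
  have hlm : MeasurableSet ({l} : Set X) := isClosed_singleton.measurableSet
  refine le_of_forall_pos_le_add fun ε hε => ?_
  obtain ⟨ε', hε', hε3⟩ : ∃ ε', 0 < ε' ∧ 4 * ε' ≤ ε := ⟨ε / 4, by positivity, by linarith⟩
  have hlt : vm φ {l} < vm φ {l} + ENNReal.ofReal ε' :=
    ENNReal.lt_add_right (measure_ne_top _ _) (by simpa using hε')
  obtain ⟨O', hlO', hO', hO'r⟩ := ({l} : Set X).exists_isOpen_lt_of_lt _ hlt
  have hO'r' : (vm φ).real O' < (vm φ).real {l} + ε' := by
    have h1 := (ENNReal.toReal_lt_toReal (measure_ne_top _ _)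
      (ENNReal.add_ne_top.2 ⟨measure_ne_top _ _, ENNReal.ofReal_ne_top⟩)).2 hO'r
    rw [ENNReal.toReal_add (measure_ne_top _ _) ENNReal.ofReal_ne_top,
      ENNReal.toReal_ofReal hε'.le] at h1
    exact h1
  set O := O' ∩ E with hOdef
  have hO : IsOpen O := hO'.inter hE.isOpen
  have hlO : l ∈ O := ⟨hlO' rfl, hl⟩
  have hOr : (vm φ).real O < (vm φ).real {l} + ε' :=
    lt_of_le_of_lt (measureReal_mono inter_subset_left) hO'r'
  obtain ⟨f, hf1, hf0, hφf⟩ := lt_vm_open φ hO
    (show (vm φ).real O - ε' < (vm φ).real O by linarith)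
  have hlO1 : (vm φ).real {l} ≤ (vm φ).real O := measureReal_mono (singleton_subset_iff.2 hlO)
  set h : C(X, ℝ) := f - (f l) • cind E with hh
  have hhx : ∀ x, h x = f x - f l * E.indicator (fun _ => (1 : ℝ)) x := by
    intro x
    rw [hh, ContinuousMap.sub_apply, ContinuousMap.smul_apply, e, smul_eq_mul]
  have hbound : |φ h| ≤ 2 * (vm φ).real (O \ {l}) + (vm φ).real (E \ {l}) := by
    refine (abs_le_integral_vm φ h).trans ?_
    have hm1 : MeasurableSet (O \ {l}) := hO.measurableSet.diff hlm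
    have hm2 : MeasurableSet (E \ {l}) := hE.isOpen.measurableSet.diff hlm
    have e1 : 2 * (vm φ).real (O \ {l}) + (vm φ).real (E \ {l}) =
        ∫ x, ((O \ {l}).indicator (fun _ => (2 : ℝ)) x +
          (E \ {l}).indicator (fun _ => (1 : ℝ)) x) ∂(vm φ) := by
      rw [integral_add ((integrable_const (2 : ℝ)).indicator hm1)
        ((integrable_const (1 : ℝ)).indicator hm2), integral_indicator hm1,
        integral_indicator hm2]
      simp [mul_comm]
    rw [e1]
    apply integral_mono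
    · exact integrable_cont (vm φ) _ (by fun_prop)
    · exact ((integrable_const (2 : ℝ)).indicator hm1).add
        ((integrable_const (1 : ℝ)).indicator hm2)
    · intro x
      show |h x| ≤ (O \ {l}).indicator (fun _ => (2 : ℝ)) x +
          (E \ {l}).indicator (fun _ => (1 : ℝ)) x
      rw [hhx]
      by_cases hxl : x = l
      · subst hxl
        rw [indicator_of_mem hl]
        simp
      · have hi1 : 0 ≤ (O \ {l}).indicator (fun _ => (2 : ℝ)) x :=
          indicator_nonneg (fun _ _ => by norm_num) _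
        have hi2 : 0 ≤ (E \ {l}).indicator (fun _ => (1 : ℝ)) x :=
          indicator_nonneg (fun _ _ => by norm_num) _
        by_cases hxE : x ∈ E
        · rw [indicator_of_mem hxE, mul_one,
            indicator_of_mem (show x ∈ E \ {l} from ⟨hxE, hxl⟩)]
          by_cases hxO : x ∈ O
          · rw [indicator_of_mem (show x ∈ O \ {l} from ⟨hxO, hxl⟩)]
            have g1 := abs_le.1 (hf1 x)
            have g2 := abs_le.1 (hf1 l)
            rw [abs_le]
            constructor <;> linarith [g1.1, g1.2, g2.1, g2.2]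
          · rw [hf0 x hxO, zero_sub, abs_neg]
            linarith [hf1 l]
        · have hxO : x ∉ O := fun hx => hxE hx.2
          rw [indicator_of_notMem hxE, hf0 x hxO]
          simp only [mul_zero, sub_zero, abs_zero]
          linarith
  have hsplit : φ f = φ h + f l * φ (cind E) := by
    rw [hh, map_sub, map_smul, smul_eq_mul]
    ring
  have hprod : f l * φ (cind E) ≤ |φ (cind E)| := by
    calc f l * φ (cind E) ≤ |f l * φ (cind E)| := le_abs_self _
      _ = |f l| * |φ (cind E)| := abs_mul _ _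
      _ ≤ 1 * |φ (cind E)| := mul_le_mul_of_nonneg_right (hf1 l) (abs_nonneg _)
      _ = _ := one_mul _
  have hdiff : (vm φ).real (O \ {l}) = (vm φ).real O - (vm φ).real {l} :=
    measureReal_sdiff (singleton_subset_iff.2 hlO) hlm
  have h3 := le_abs_self (φ h)
  linarith

end Pool.Agent.ZDB

end

section

/-!
# ZDB/BSum : finite sums in the ball
bsum y v J = y + ∑_{j∈J} v j, coordinatewise (when the masses allow it).  bsum_insert: coordinatewise, both sums are allowed.  res_bsum: coordinatewise: on A the v j with j ∈ J₂ vanish,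
off A y and the v j with j ∈ J₁ vanish.
-/

open Set Filter Topology MeasureTheory Pool.Agent.H53.ZD

namespace Pool.Agent.ZDB

variable {κ : Type*}

/-- finite sums -/
noncomputable def bsum (y : Ball κ) (v : ℕ → Ball κ) (J : Finset ℕ) : Ball κ :=
  open Classical in
  if h : nm y + ∑ j ∈ J, nm (v j) ≤ 1 then Ball.mk' (fun i => y i + ∑ j ∈ J, v j i) (fun s => by
    have h1 : ∑ i ∈ s, |y i + ∑ j ∈ J, v j i| ≤
        ∑ i ∈ s, |y i| + ∑ j ∈ J, ∑ i ∈ s, |v j i| := by
      rw [Finset.sum_comm, ← Finset.sum_add_distrib]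
      exact Finset.sum_le_sum fun i _ => (abs_add_le _ _).trans
        (add_le_add le_rfl (Finset.abs_sum_le_sum_abs _ _))
    refine h1.trans (le_trans (add_le_add ?_ (Finset.sum_le_sum fun j _ => ?_)) h)
    · exact Ball.sum_le_mass y s (fun _ _ => mem_univ _)
    · exact Ball.sum_le_mass (v j) s (fun _ _ => mem_univ _)) else 0

theorem bsum_apply {y : Ball κ} {v : ℕ → Ball κ} {J : Finset ℕ}
    (h : nm y + ∑ j ∈ J, nm (v j) ≤ 1) (i : κ) : bsum y v J i = y i + ∑ j ∈ J, v j i := by
  classical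
  unfold bsum
  rw [dif_pos h, Ball.mk'_apply]

theorem bsum_empty (y : Ball κ) (v : ℕ → Ball κ) : bsum y v ∅ = y := by
  ext i
  rw [bsum_apply (by simpa using nm_le_one y), Finset.sum_empty, add_zero]

theorem nm_bsum_le (y : Ball κ) (v : ℕ → Ball κ) (J : Finset ℕ) :
    nm (bsum y v J) ≤ nm y + ∑ j ∈ J, nm (v j) := by
  classical
  by_cases h : nm y + ∑ j ∈ J, nm (v j) ≤ 1
  · rw [nm, Ball.mass_le_iff]
    intro s _
    have h1 : ∑ i ∈ s, |bsum y v J i| ≤ ∑ i ∈ s, |y i| + ∑ j ∈ J, ∑ i ∈ s, |v j i| := by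
      rw [Finset.sum_comm, ← Finset.sum_add_distrib]
      refine Finset.sum_le_sum fun i _ => ?_
      rw [bsum_apply h]
      exact (abs_add_le _ _).trans (add_le_add le_rfl (Finset.abs_sum_le_sum_abs _ _))
    refine h1.trans (add_le_add ?_ (Finset.sum_le_sum fun j _ => ?_))
    · exact Ball.sum_le_mass y s (fun _ _ => mem_univ _)
    · exact Ball.sum_le_mass (v j) s (fun _ _ => mem_univ _)
  · unfold bsum
    rw [dif_neg h]
    have h0 : nm (0 : Ball κ) = 0 := nm_eq_zero.2 rfl
    rw [h0]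
    exact add_nonneg (nm_nonneg y) (Finset.sum_nonneg fun j _ => nm_nonneg (v j))

theorem bsum_insert {y : Ball κ} {v : ℕ → Ball κ} {J : Finset ℕ} {j : ℕ} (hj : j ∉ J)
    (h : nm y + ∑ j ∈ insert j J, nm (v j) ≤ 1) :
    bsum y v (insert j J) = plus (bsum y v J) (v j) := by
  have h' := h
  rw [Finset.sum_insert hj] at h'
  have h1 : nm y + ∑ j ∈ J, nm (v j) ≤ 1 := by
    have := nm_nonneg (v j)
    linarith
  have h2 : nm (bsum y v J) + nm (v j) ≤ 1 := by
    have := nm_bsum_le y v J
    linarith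
  ext i
  rw [bsum_apply h, plus_apply h2, bsum_apply h1, Finset.sum_insert hj]
  ring

theorem bsum_mem_BA {A : Set κ} {y : Ball κ} {v : ℕ → Ball κ} {J : Finset ℕ} (hy : y ∈ BA A)
    (hv : ∀ j ∈ J, v j ∈ BA A) : bsum y v J ∈ BA A := by
  rw [mem_BA]
  intro i hi
  by_cases h : nm y + ∑ j ∈ J, nm (v j) ≤ 1
  · rw [bsum_apply h, mem_BA.1 hy i hi, zero_add]
    exact Finset.sum_eq_zero fun j hj => mem_BA.1 (hv j hj) i hi
  · unfold bsum
    rw [dif_neg h]
    rfl

theorem res_bsum {A : Set κ} {y : Ball κ} {v : ℕ → Ball κ} {J₁ J₂ : Finset ℕ}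
    (hd : Disjoint J₁ J₂) (hy : y ∈ BA A) (h₁ : ∀ j ∈ J₁, v j ∈ BA A)
    (h₂ : ∀ j ∈ J₂, v j ∈ BA Aᶜ) (h : nm y + ∑ j ∈ J₁ ∪ J₂, nm (v j) ≤ 1) :
    Ball.res A (bsum y v (J₁ ∪ J₂)) = bsum y v J₁ := by
  have h1 : nm y + ∑ j ∈ J₁, nm (v j) ≤ 1 := by
    refine le_trans (add_le_add le_rfl ?_) h
    exact Finset.sum_le_sum_of_subset_of_nonneg Finset.subset_union_left
      fun j _ _ => nm_nonneg (v j)
  ext i
  rw [bsum_apply h1]
  by_cases hi : i ∈ A
  · rw [Ball.res_of_mem _ hi, bsum_apply h, Finset.sum_union hd]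
    have : ∑ j ∈ J₂, v j i = 0 :=
      Finset.sum_eq_zero fun j hj => mem_BA.1 (h₂ j hj) i (fun hc => hc hi)
    rw [this, add_zero]
  · rw [Ball.res_of_notMem _ hi, mem_BA.1 hy i hi, zero_add]
    exact (Finset.sum_eq_zero fun j hj => mem_BA.1 (h₁ j hj) i hi).symm

theorem bsum_congr {y : Ball κ} {v v' : ℕ → Ball κ} {J : Finset ℕ} (h : ∀ j ∈ J, v j = v' j) :
    bsum y v J = bsum y v' J := by
  have e : ∑ j ∈ J, nm (v j) = ∑ j ∈ J, nm (v' j) :=
    Finset.sum_congr rfl fun j hj => by rw [h j hj]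
  by_cases h1 : nm y + ∑ j ∈ J, nm (v j) ≤ 1
  · have h2 : nm y + ∑ j ∈ J, nm (v' j) ≤ 1 := by rw [← e]; exact h1
    ext i
    rw [bsum_apply h1, bsum_apply h2]
    congr 1
    exact Finset.sum_congr rfl fun j hj => by rw [h j hj]
  · have h2 : ¬ nm y + ∑ j ∈ J, nm (v' j) ≤ 1 := by rw [← e]; exact h1
    unfold bsum
    rw [dif_neg h1, dif_neg h2]

end Pool.Agent.ZDB

end

section

/-!
# ZDB/MeasDense : a countable measure dense family
b countable, μ finite, regular, carried by BA b.  𝒟: the finite unions of sets {z ∈ BA b | ∀ i ∈ F, |z i − q i| < δ} with F ⊆ b finite, q : κ →₀ ℚ supported in F, δ ∈ ℚ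
positive: countably many (enumerate; also ∅).  Given V measurable and e > 0: compact V' ⊆ V with μ(V∖V') ≤ e/2 (inner regularity), open U ⊇ V' with μ(U∖V') ≤ e/2 (outer
regularity).  For y ∈ V' ∩ BA b: mem_nhds_ball gives a finite G, δ with {z | |z i − y i| < δ, i ∈ G} ⊆ U; for z ∈ BA b the coordinates outside b are 0 = y i, so with F = G ∩ b and rational
q, δ' close to y there is a basic set D_y with y ∈ D_y ⊆ U.  V' ∩ BA b is compact: finitely many D_y cover it; D := their union, V' ∩ BA b ⊆ D ⊆ U ∩ BA b, so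
μ(V Δ D) ≤ μ(V∖V') + μ(U∖V') + μ((BA b)ᶜ) ≤ e.  (Each basic set is relatively open in the closed BA b, hence measurable.)
-/

open Set Filter Topology MeasureTheory Pool.Agent.H53.ZD

namespace Pool.Agent.ZDB

variable {κ : Type*}

theorem exists_measDense {b : Set κ} (hb : b.Countable) (μ : Measure (Ball κ))
    [IsFiniteMeasure μ] [μ.Regular] (hμ : μ (BA b)ᶜ = 0) :
    ∃ 𝒟 : ℕ → Set (Ball κ), (∀ i, MeasurableSet (𝒟 i)) ∧
      ∀ V, MeasurableSet V → ∀ e : ℝ, 0 < e → ∃ i, μ.real (symmDiff V (𝒟 i)) ≤ e := by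
  have : Countable b := hb.to_subtype
  have hcl := isClosed_BA b
  have : CompactSpace (BA b) := isCompact_iff_compactSpace.1 hcl.isCompact
  -- second countability of the subspace
  let φ : BA b → (b → ℝ) := fun y i => y.1 i.1
  have hφc : Continuous φ := by
    rw [continuous_pi_iff]
    intro i
    exact (Ball.continuous_coord i.1).comp continuous_subtype_val
  have hφi : Function.Injective φ := by
    intro y z h
    apply Subtype.ext
    ext i
    by_cases hi : i ∈ b
    · exact congrFun h ⟨i, hi⟩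
    · rw [mem_BA.1 y.2 i hi, mem_BA.1 z.2 i hi]
  have hemb : Topology.IsClosedEmbedding φ := hφc.isClosedEmbedding hφi
  have : SecondCountableTopology (BA b) := hemb.isInducing.secondCountableTopology
  let B : Set (Set (BA b)) := TopologicalSpace.countableBasis (BA b)
  have hB : TopologicalSpace.IsTopologicalBasis B :=
    TopologicalSpace.isBasis_countableBasis (BA b)
  have hBc : B.Countable := TopologicalSpace.countable_countableBasis (BA b)
  have hFc : {s : Set (Set (BA b)) | s.Finite ∧ s ⊆ B}.Countable :=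
    Set.countable_ofPred_finite_subset hBc
  obtain ⟨g, hg⟩ := hFc.exists_eq_range ⟨∅, finite_empty, empty_subset _⟩
  have hgm : ∀ i, (g i).Finite ∧ g i ⊆ B := fun i => by
    have : g i ∈ {s : Set (Set (BA b)) | s.Finite ∧ s ⊆ B} := by
      rw [hg]
      exact mem_range_self i
    exact this
  refine ⟨fun i => Subtype.val '' (⋃₀ g i), fun i => ?_, fun V hV e he => ?_⟩
  · refine MeasurableSet.subtype_image hcl.measurableSet (IsOpen.measurableSet ?_)
    exact isOpen_sUnion fun s hs => hB.isOpen ((hgm i).2 hs)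
  · have he2 : ENNReal.ofReal (e / 2) ≠ 0 := by
      rw [Ne, ENNReal.ofReal_eq_zero]
      linarith
    obtain ⟨V', hV'V, hV'c, hV'm⟩ := hV.exists_isCompact_sdiff_lt (measure_ne_top μ V) he2
    obtain ⟨U, hUV', hUo, -, hUm⟩ :=
      hV'c.isClosed.measurableSet.exists_isOpen_sdiff_lt (measure_ne_top μ V') he2
    have hKc : IsCompact ((Subtype.val : BA b → Ball κ) ⁻¹' V') :=
      (hV'c.isClosed.preimage continuous_subtype_val).isCompact
    have hUo' : IsOpen ((Subtype.val : BA b → Ball κ) ⁻¹' U) :=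
      hUo.preimage continuous_subtype_val
    obtain ⟨b', hb'1, hb'2, hb'3⟩ := hKc.elim_finite_subcover_image
      (b := {s | s ∈ B ∧ s ⊆ (Subtype.val : BA b → Ball κ) ⁻¹' U}) (c := id)
      (fun s hs => hB.isOpen hs.1) (by
        intro y hy
        obtain ⟨s, hsB, hys, hsU⟩ := hB.exists_subset_of_mem_open
          (show y ∈ (Subtype.val : BA b → Ball κ) ⁻¹' U from hUV' hy) hUo'
        exact mem_biUnion (show s ∈ {s | s ∈ B ∧ s ⊆ (Subtype.val : BA b → Ball κ) ⁻¹' U} from
          ⟨hsB, hsU⟩) hys)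
    have hb'4 : b' ∈ {s : Set (Set (BA b)) | s.Finite ∧ s ⊆ B} :=
      ⟨hb'2, fun s hs => (hb'1 hs).1⟩
    rw [hg] at hb'4
    obtain ⟨i, hi⟩ := hb'4
    refine ⟨i, ?_⟩
    have hsub : symmDiff V (Subtype.val '' (⋃₀ g i)) ⊆ ((V \ V') ∪ (U \ V')) ∪ (BA b)ᶜ := by
      rw [hi]
      rintro z (⟨hzV, hzD⟩ | ⟨hzD, hzV⟩)
      · by_cases hz' : z ∈ V'
        · right
          intro hzb
          apply hzD
          have h1 : (⟨z, hzb⟩ : BA b) ∈ (Subtype.val : BA b → Ball κ) ⁻¹' V' := hz'
          obtain ⟨s, hs, hzs⟩ := mem_iUnion₂.1 (hb'3 h1)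
          exact ⟨⟨z, hzb⟩, mem_sUnion.2 ⟨s, hs, hzs⟩, rfl⟩
        · exact Or.inl (Or.inl ⟨hzV, hz'⟩)
      · obtain ⟨y, hy, rfl⟩ := hzD
        obtain ⟨s, hs, hys⟩ := mem_sUnion.1 hy
        exact Or.inl (Or.inr ⟨(hb'1 hs).2 hys, fun h => hzV (hV'V h)⟩)
    have hle : μ (symmDiff V (Subtype.val '' (⋃₀ g i))) ≤ ENNReal.ofReal e := by
      calc μ (symmDiff V (Subtype.val '' (⋃₀ g i)))
          ≤ μ (((V \ V') ∪ (U \ V')) ∪ (BA b)ᶜ) := measure_mono hsub
        _ ≤ μ ((V \ V') ∪ (U \ V')) + μ (BA b)ᶜ := measure_union_le _ _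
        _ ≤ (μ (V \ V') + μ (U \ V')) + μ (BA b)ᶜ := by
            gcongr
            exact measure_union_le _ _
        _ ≤ (ENNReal.ofReal (e / 2) + ENNReal.ofReal (e / 2)) + 0 := by
            rw [hμ]
            gcongr
        _ = ENNReal.ofReal e := by
            rw [add_zero, ← ENNReal.ofReal_add (by linarith) (by linarith)]
            congr 1
            ring
    exact ENNReal.toReal_le_of_le_ofReal he.le hle

end Pool.Agent.ZDB

end

section

/-!
# ZDB/Refl : reflection and Skolem closings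
P: parameters with finite supports `sp p ⊆ κ` (countably many parameters with a given support), β: candidates with countable
supports `sb b`.
* refl.  Call p bounded if there is a countable A' such that every b with R p b and sb b nonempty meets A'
  (¬ Disjoint (sb b) A').  If p is bounded let φ_p := such an A'.  If p is unbounded choose recursively s_0, s_1, … with
  R p (s_n), sb (s_n) nonempty and disjoint from the countable set ⋃_{m<n} sb (s_m); let φ_p := ⋃ sb (s_n).
  φ(F) := ⋃_{p : sp p = F} φ_p (countable union); use `Club.of_closing`.  Let A be closed, sp p ⊆ A, R p b, sb b nonempty and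
  disjoint from A.  φ_p ⊆ A, so p is not bounded (b would meet φ_p ⊆ A); the sequence s does the job.
* skolem.  φ(F) := ⋃_{p : sp p = F} sb (b_p), b_p a choice with R p b_p if there is one.
-/

open Set Filter Topology MeasureTheory Pool.Agent.H53.ZD

namespace Pool.Agent.ZDB

variable {κ : Type*}

theorem refl {P β : Type*} (sp : P → Finset κ) (hsp : ∀ F, {p | sp p = F}.Countable)
    (sb : β → Set κ) (hsb : ∀ b, (sb b).Countable) (R : P → β → Prop) :
    Club (fun A : Set κ => ∀ p, (sp p : Set κ) ⊆ A → ∀ b, R p b → (sb b).Nonempty →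
      Disjoint (sb b) A → ∃ s : ℕ → β, (∀ n, R p (s n)) ∧ (∀ n, (sb (s n)).Nonempty) ∧
        (∀ n, sb (s n) ⊆ A) ∧ Pairwise (fun m n => Disjoint (sb (s m)) (sb (s n)))) := by
  classical
  have key : ∀ p : P, ∃ φp : Set κ, φp.Countable ∧
      ((∀ b, R p b → (sb b).Nonempty → ¬ Disjoint (sb b) φp) ∨
        ∃ s : ℕ → β, (∀ n, R p (s n)) ∧ (∀ n, (sb (s n)).Nonempty) ∧
          (∀ n, sb (s n) ⊆ φp) ∧ Pairwise (fun m n => Disjoint (sb (s m)) (sb (s n)))) := by
    intro p
    by_cases hb : ∃ A' : Set κ, A'.Countable ∧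
        ∀ b, R p b → (sb b).Nonempty → ¬ Disjoint (sb b) A'
    · obtain ⟨A', h1, h2⟩ := hb
      exact ⟨A', h1, Or.inl h2⟩
    · have hub : ∀ A' : {A : Set κ // A.Countable}, ∃ b, R p b ∧ (sb b).Nonempty ∧
          Disjoint (sb b) A'.1 := by
        intro A'
        by_contra h1
        apply hb
        refine ⟨A'.1, A'.2, fun b h2 h3 h4 => h1 ⟨b, h2, h3, h4⟩⟩
      choose pick hp1 hp2 hp3 using hub
      let U : ℕ → {A : Set κ // A.Countable} := fun n =>
        Nat.rec ⟨∅, countable_empty⟩ (fun _ A => ⟨A.1 ∪ sb (pick A), A.2.union (hsb _)⟩) n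
      have hU : ∀ n, (U (n + 1)).1 = (U n).1 ∪ sb (pick (U n)) := fun n => rfl
      have hmono : ∀ m k, (U m).1 ⊆ (U (m + k)).1 := by
        intro m k
        induction k with
        | zero => exact subset_rfl
        | succ k ih =>
          rw [← add_assoc, hU]
          exact ih.trans subset_union_left
      have hlt : ∀ m n, m < n → sb (pick (U m)) ⊆ (U n).1 := by
        intro m n hmn
        obtain ⟨k, rfl⟩ : ∃ k, n = (m + 1) + k := ⟨n - (m + 1), by omega⟩
        refine Subset.trans ?_ (hmono (m + 1) k)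
        rw [hU]
        exact subset_union_right
      refine ⟨⋃ n, sb (pick (U n)), countable_iUnion (fun n => hsb _), Or.inr
        ⟨fun n => pick (U n), fun n => hp1 _, fun n => hp2 _, fun n =>
          subset_iUnion (fun n => sb (pick (U n))) n, ?_⟩⟩
      intro m n hmn
      rcases lt_or_gt_of_ne hmn with h | h
      · exact ((hp3 (U n)).mono_right (hlt m n h)).symm
      · exact (hp3 (U m)).mono_right (hlt n m h)
  choose φ hφ1 hφ2 using key
  refine (Club.of_closing (fun F => ⋃ p ∈ {p | sp p = F}, φ p)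
    (fun F => (hsp F).biUnion (fun p _ => hφ1 p))).mono ?_
  rintro A ⟨-, hA⟩ p hp b hb hne hdis
  have hsub : φ p ⊆ A := by
    refine Subset.trans ?_ (hA (sp p) hp)
    exact subset_biUnion_of_mem (u := fun p => φ p) (show p ∈ {p' | sp p' = sp p} from rfl)
  rcases hφ2 p with h | ⟨s, h1, h2, h3, h4⟩
  · exact absurd (hdis.mono_right hsub) (h b hb hne)
  · exact ⟨s, h1, h2, fun n => (h3 n).trans hsub, h4⟩

theorem skolem {P β : Type*} (sp : P → Finset κ) (hsp : ∀ F, {p | sp p = F}.Countable)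
    (sb : β → Set κ) (hsb : ∀ b, (sb b).Countable) (R : P → β → Prop) :
    Club (fun A : Set κ => ∀ p, (sp p : Set κ) ⊆ A → (∃ b, R p b) →
      ∃ b, R p b ∧ sb b ⊆ A) := by
  classical
  have key : ∀ p : P, ∃ φp : Set κ, φp.Countable ∧ ((∃ b, R p b) → ∃ b, R p b ∧ sb b ⊆ φp) := by
    intro p
    by_cases hb : ∃ b, R p b
    · obtain ⟨b, hb⟩ := hb
      exact ⟨sb b, hsb b, fun _ => ⟨b, hb, subset_rfl⟩⟩
    · exact ⟨∅, countable_empty, fun h => absurd h hb⟩
  choose φ hφ1 hφ2 using key
  refine (Club.of_closing (fun F => ⋃ p ∈ {p | sp p = F}, φ p)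
    (fun F => (hsp F).biUnion (fun p _ => hφ1 p))).mono ?_
  rintro A ⟨-, hA⟩ p hp hb
  have hsub : φ p ⊆ A := by
    refine Subset.trans ?_ (hA (sp p) hp)
    exact subset_biUnion_of_mem (u := fun p => φ p) (show p ∈ {p' | sp p' = sp p} from rfl)
  obtain ⟨b, h1, h2⟩ := hφ2 p hb
  exact ⟨b, h1, h2.trans hsub⟩

end Pool.Agent.ZDB

end

section

/-!
# ZDB/ReflUnb : unbounded copies (README 1.1 (b))
refl_unbdd: as in ZDB/Refl: call p bounded if there is a countable A' such that every b with R p b and sb b nonempty satisfies ¬ Disjoint (sb b) A'; for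
bounded p let φ_p be such an A', otherwise φ_p = ∅; φ(F) = ⋃_{sp p = F} φ_p; `Club.of_closing`.  If A is closed, sp p ⊆ A, R p b, sb b nonempty and disjoint
from A, then p is not bounded, which is the claim.
refl_unbdd_tuple: β = Σ n, (Fin n → κ), R' p b := ∃ c, b = ⟨nn p, c⟩ ∧ R p c, sb = range.
-/

open Set Filter Topology MeasureTheory Pool.Agent.H53.ZD

namespace Pool.Agent.ZDB

variable {κ : Type*}

theorem refl_unbdd {P β : Type*} (sp : P → Finset κ) (hsp : ∀ F, {p | sp p = F}.Countable)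
    (sb : β → Set κ) (hsb : ∀ b, (sb b).Countable) (R : P → β → Prop) :
    Club (fun A : Set κ => ∀ p, (sp p : Set κ) ⊆ A → ∀ b, R p b → (sb b).Nonempty →
      Disjoint (sb b) A → ∀ A' : Set κ, A'.Countable →
        ∃ b', R p b' ∧ (sb b').Nonempty ∧ Disjoint (sb b') A') := by
  classical
  have key : ∀ p : P, ∃ φp : Set κ, φp.Countable ∧
      ((∀ b, R p b → (sb b).Nonempty → ¬ Disjoint (sb b) φp) ∨
        ∀ A' : Set κ, A'.Countable → ∃ b', R p b' ∧ (sb b').Nonempty ∧ Disjoint (sb b') A') := by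
    intro p
    by_cases hb : ∃ A' : Set κ, A'.Countable ∧
        ∀ b, R p b → (sb b).Nonempty → ¬ Disjoint (sb b) A'
    · obtain ⟨A', h1, h2⟩ := hb
      exact ⟨A', h1, Or.inl h2⟩
    · refine ⟨∅, countable_empty, Or.inr fun A' hA' => ?_⟩
      by_contra h1
      apply hb
      exact ⟨A', hA', fun b h2 h3 h4 => h1 ⟨b, h2, h3, h4⟩⟩
  choose φ hφ1 hφ2 using key
  refine (Club.of_closing (fun F => ⋃ p ∈ {p | sp p = F}, φ p)
    (fun F => (hsp F).biUnion (fun p _ => hφ1 p))).mono ?_
  rintro A ⟨-, hA⟩ p hp b hb hne hdis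
  have hsub : φ p ⊆ A := by
    refine Subset.trans ?_ (hA (sp p) hp)
    exact subset_biUnion_of_mem (u := fun p => φ p) (show p ∈ {p' | sp p' = sp p} from rfl)
  rcases hφ2 p with h | h
  · exact absurd (hdis.mono_right hsub) (h b hb hne)
  · exact h

theorem refl_unbdd_tuple {P : Type*} (sp : P → Finset κ) (hsp : ∀ F, {p | sp p = F}.Countable)
    (nn : P → ℕ) (R : ∀ p : P, (Fin (nn p) → κ) → Prop) :
    Club (fun A : Set κ => ∀ p, (sp p : Set κ) ⊆ A → ∀ c : Fin (nn p) → κ, R p c → 0 < nn p →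
      (∀ j, c j ∉ A) → ∀ A' : Set κ, A'.Countable → ∃ c', R p c' ∧ ∀ j, c' j ∉ A') := by
  refine (refl_unbdd (β := Σ n, (Fin n → κ)) sp hsp (fun b => range b.2)
    (fun b => countable_range b.2)
    (fun p b => ∃ c : Fin (nn p) → κ, b = ⟨nn p, c⟩ ∧ R p c)).mono ?_
  intro A hA p hp c hc hn hout A' hA'
  obtain ⟨b', ⟨c', hb', hc'⟩, -, hd⟩ := hA p hp ⟨nn p, c⟩ ⟨c, rfl, hc⟩
    ⟨c ⟨0, hn⟩, mem_range_self _⟩
    (by
      rw [Set.disjoint_left]
      rintro _ ⟨j, rfl⟩ h
      exact hout j h) A' hA'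
  refine ⟨c', hc', fun j hj => ?_⟩
  rw [hb'] at hd
  exact Set.disjoint_left.1 hd (mem_range_self j) hj

end Pool.Agent.ZDB

end

section

/-!
# ZDB/RetMake : construction of the retraction from the {0,1}-property
P f := V((T f)∘res A), a bounded linear operator C(L) → C(L) with P 1 = 1 and P(cind O) {0,1}-valued (so P(cind O) = cind O* for a
clopen O*; P(cind O)(l) = 1 iff l ∈ O*).  P(cind(O∩O')) = P(cind O)·P(cind O'): for disjoint O, O' the sum
P cind O + P cind O' = P cind(O∪O') is {0,1}-valued, so O*, O'* are disjoint; apply this to O∩O', O∖O', O'∖O.  By density of step functions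
(exists_step) and continuity of P, P(fg) = P f · P g for all f, g.  For l ∈ L, f ↦ P f l is a unital algebra homomorphism C(L,ℝ) → ℝ,
hence evaluation at a unique point ρ(l): either by Mathlib (`ContinuousMap`/character space: `WeakDual.CharacterSpace.homeoEval`,
or `ContinuousMap.idealOfSet`...) or directly: the clopen sets O with l ∈ O* have the finite intersection property (∅* = ∅), so there is a
point ρ(l) in ⋂{O : l ∈ O*}; it is unique and l ∈ O* iff ρ(l) ∈ O; ρ is continuous because ρ⁻¹(O) = O* for clopen O; finally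
P f = f∘ρ for f = cind O, hence for step functions, hence for all f by density.
-/

open Set Filter Topology MeasureTheory Pool.Agent.H53.ZD

namespace Pool.Agent.ZDB

variable {κ L : Type*} [TopologicalSpace L] [CompactSpace L] [T2Space L] [TotallyDisconnectedSpace L]

namespace Sys

variable (S : Sys κ L)

private lemma rm_bound {A : Set κ} (f : C(L, ℝ)) (M : ℝ) (hM : 0 ≤ M) (hf : ∀ l, |f l| ≤ M) (l : L) :
    |S.T.symm ((S.T f).comp (resC A)) l| ≤ S.C * (S.C * M) := by
  have hC : 0 ≤ S.C := zero_le_one.trans S.one_le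
  refine S.hV _ (S.C * M) (fun y => ?_) (mul_nonneg hC hM) l
  exact S.hT f M hf hM _

private lemma rm_add {A : Set κ} (f g : C(L, ℝ)) :
    S.T.symm ((S.T (f + g)).comp (resC A)) =
      S.T.symm ((S.T f).comp (resC A)) + S.T.symm ((S.T g).comp (resC A)) := by
  rw [← map_add]
  congr 1
  ext y
  simp

private lemma rm_smul {A : Set κ} (c : ℝ) (f : C(L, ℝ)) :
    S.T.symm ((S.T (c • f)).comp (resC A)) = c • S.T.symm ((S.T f).comp (resC A)) := by
  rw [← map_smul]
  congr 1
  ext y
  simp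

private lemma rm_zero {A : Set κ} : S.T.symm ((S.T (0 : C(L, ℝ))).comp (resC A)) = 0 := by
  simp

private lemma rm_sum {A : Set κ} (n : ℕ) (c : Fin n → ℝ) (g : Fin n → C(L, ℝ)) :
    S.T.symm ((S.T (∑ i, c i • g i)).comp (resC A)) =
      ∑ i, c i • S.T.symm ((S.T (g i)).comp (resC A)) := by
  classical
  have key : ∀ s : Finset (Fin n), S.T.symm ((S.T (∑ i ∈ s, c i • g i)).comp (resC A)) =
      ∑ i ∈ s, c i • S.T.symm ((S.T (g i)).comp (resC A)) := by
    intro s
    induction s using Finset.induction_on with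
    | empty => simp
    | insert a s ha ih => rw [Finset.sum_insert ha, Finset.sum_insert ha, rm_add, rm_smul, ih]
  exact key _

theorem exists_isRet {A : Set κ}
    (h01 : ∀ O : Set L, IsClopen O → ∀ l, S.T.symm ((S.T (cind O)).comp (resC A)) l = 0 ∨
      S.T.symm ((S.T (cind O)).comp (resC A)) l = 1)
    (h1 : (S.T 1).comp (resC A) = S.T 1) : ∃ ρ, S.IsRet A ρ := by
  classical
  set P : C(L, ℝ) → C(L, ℝ) := fun f => S.T.symm ((S.T f).comp (resC A)) with hP
  have hP1 : P 1 = 1 := by
    simp only [hP]; rw [h1]; simp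
  have hPadd : ∀ f g, P (f + g) = P f + P g := fun f g => S.rm_add f g
  have hP0 : P 0 = 0 := S.rm_zero
  -- complement
  have hcompl : ∀ O : Set L, IsClopen O → ∀ l, P (cind O) l + P (cind Oᶜ) l = 1 := by
    intro O hO l
    have e : cind (O ∪ Oᶜ) = cind O + cind Oᶜ := cind_union hO hO.compl disjoint_compl_right
    rw [union_compl_self, cind_univ] at e
    have := congrArg P e
    rw [hP1, hPadd] at this
    have := congrArg (fun f : C(L, ℝ) => f l) this
    simpa using this.symm
  have hinter : ∀ O O' : Set L, IsClopen O → IsClopen O' → ∀ l, P (cind O) l = 1 →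
      P (cind O') l = 1 → P (cind (O ∩ O')) l = 1 := by
    intro O O' hO hO' l h h'
    have hd1 : Disjoint (O ∩ O') (O \ O') := by
      rw [Set.disjoint_left]; rintro x ⟨_, hx⟩ ⟨_, hx'⟩; exact hx' hx
    have hd2 : Disjoint (O ∩ O') (O' \ O) := by
      rw [Set.disjoint_left]; rintro x ⟨hx, _⟩ ⟨_, hx'⟩; exact hx' hx
    have hd3 : Disjoint O (O' \ O) := disjoint_sdiff_right
    have e1 : cind O = cind (O ∩ O') + cind (O \ O') := by
      rw [← cind_union (hO.inter hO') (hO.diff hO') hd1, inter_union_sdiff]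
    have e2 : cind O' = cind (O ∩ O') + cind (O' \ O) := by
      rw [← cind_union (hO.inter hO') (hO'.diff hO) hd2, inter_comm O O', inter_union_sdiff]
    have e3 : cind (O ∪ O') = cind O + cind (O' \ O) := by
      rw [← cind_union hO (hO'.diff hO) hd3, union_sdiff_self]
    have f1 : P (cind O) l = P (cind (O ∩ O')) l + P (cind (O \ O')) l := by
      rw [e1, hPadd]; rfl
    have f2 : P (cind O') l = P (cind (O ∩ O')) l + P (cind (O' \ O)) l := by
      rw [e2, hPadd]; rfl
    have f3 : P (cind (O ∪ O')) l = P (cind O) l + P (cind (O' \ O)) l := by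
      rw [e3, hPadd]; rfl
    rcases h01 _ (hO.inter hO') l with ha | ha
    · exfalso
      have ha' : P (cind (O ∩ O')) l = 0 := ha
      rcases h01 _ (hO.union hO') l with hb | hb
      · have hb' : P (cind (O ∪ O')) l = 0 := hb
        linarith
      · have hb' : P (cind (O ∪ O')) l = 1 := hb
        linarith
    · exact ha
  -- the point
  have hpt : ∀ l : L, ∃ m : L, ∀ O : Set L, IsClopen O → P (cind O) l = 1 → m ∈ O := by
    intro l
    let U := {O : Set L // IsClopen O ∧ P (cind O) l = 1}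
    have hU : Nonempty U := ⟨⟨univ, isClopen_univ, by rw [cind_univ, hP1]; rfl⟩⟩
    have hne := IsCompact.nonempty_iInter_of_directed_nonempty_isCompact_isClosed
      (fun O : U => (O.1 : Set L)) ?_ ?_ (fun O => O.2.1.1.isCompact) (fun O => O.2.1.1)
    · obtain ⟨m, hm⟩ := hne
      rw [mem_iInter] at hm
      exact ⟨m, fun O hO h => hm ⟨O, hO, h⟩⟩
    · rintro ⟨O, hO, h⟩ ⟨O', hO', h'⟩
      exact ⟨⟨O ∩ O', hO.inter hO', hinter O O' hO hO' l h h'⟩, inter_subset_left,
        inter_subset_right⟩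
    · rintro ⟨O, hO, h⟩
      rw [nonempty_iff_ne_empty]
      rintro rfl
      rw [cind_empty, hP0] at h
      simp at h
  choose r hr using hpt
  have hr' : ∀ O : Set L, IsClopen O → ∀ l, P (cind O) l = cind O (r l) := by
    intro O hO l
    by_cases hm : r l ∈ O
    · rw [cind_of_mem hO hm]
      rcases h01 O hO l with h | h
      · exfalso
        have h2 := hcompl O hO l
        have h3 : P (cind O) l = 0 := h
        rw [h3, zero_add] at h2
        exact hr l _ hO.compl h2 hm
      · exact h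
    · rw [cind_of_notMem hm]
      rcases h01 O hO l with h | h
      · exact h
      · exact absurd (hr l _ hO h) hm
  have hcont : Continuous r := by
    rw [isTopologicalBasis_isClopen.continuous_iff]
    intro O hO
    have e : r ⁻¹' O = {l | 1 / 2 < P (cind O) l} := by
      ext l
      rw [mem_preimage, mem_ofPred_eq, hr' O hO l]
      by_cases hm : r l ∈ O
      · rw [cind_of_mem hO hm]; simp only [hm, true_iff]; norm_num
      · rw [cind_of_notMem hm]; simp only [hm, false_iff]; norm_num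
    rw [e]
    exact isOpen_lt continuous_const (P (cind O)).continuous
  refine ⟨⟨r, hcont⟩, fun f => ?_⟩
  ext l
  change P f l = f (r l)
  have hC : 0 ≤ S.C := zero_le_one.trans S.one_le
  have hle : ∀ ε : ℝ, 0 < ε → |P f l - f (r l)| ≤ (S.C * S.C + 1) * ε := by
    intro ε hε
    obtain ⟨n, O, c, hO, happ⟩ := exists_step f hε
    set g : C(L, ℝ) := ∑ i, c i • cind (O i) with hg
    have hgx : ∀ x, g x = ∑ i, c i * cind (O i) x := by
      intro x
      simp [hg]
    have hPg : P g l = g (r l) := by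
      have e1 : P g = ∑ i, c i • P (cind (O i)) := S.rm_sum n c _
      rw [e1, hgx]
      simp only [ContinuousMap.coe_sum, ContinuousMap.coe_smul, Finset.sum_apply, Pi.smul_apply,
        smul_eq_mul]
      exact Finset.sum_congr rfl fun i _ => by rw [hr' _ (hO i)]
    have hfg : f = g + (f - g) := by abel
    have h2 : P f l = P g l + P (f - g) l := by
      conv_lhs => rw [hfg, hPadd]
      rfl
    have h3 : |P (f - g) l| ≤ S.C * (S.C * ε) := by
      refine S.rm_bound (f - g) ε hε.le (fun x => ?_) l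
      have := happ x
      rw [← hgx] at this
      exact this.le
    have h4 : |f (r l) - g (r l)| ≤ ε := by
      have := happ (r l)
      rw [← hgx] at this
      exact this.le
    rw [h2, hPg]
    have e5 : g (r l) + P (f - g) l - f (r l) = P (f - g) l - (f (r l) - g (r l)) := by ring
    rw [e5]
    refine (abs_sub _ _).trans ?_
    nlinarith
  have h0 : |P f l - f (r l)| ≤ 0 := by
    refine le_of_forall_pos_le_add fun δ hδ => ?_
    have hK : 0 < S.C * S.C + 1 := by positivity
    have := hle (δ / (S.C * S.C + 1)) (by positivity)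
    rw [mul_div_cancel₀ _ hK.ne'] at this
    linarith
  have := abs_nonpos_iff.1 h0
  linarith

end Sys

end Pool.Agent.ZDB

end

section

/-!
# ZDB/VmLsc : lower semicontinuity (general)
(1) isOpen_lt_vm: if r < vm(Φ y)(U), take f from `lt_vm_open`; for y' near y: r < Φ y' f ≤ vm(Φ y')(U) (`le_vm`).
(If r < 0 the set is everything.)
(2) isOpen_lt_integral: 0 ≤ h ≤ M, {h > s} open for all s.  For n ≥ 1 put h_n = (1/n)·∑_{i=1}^{⌈nM⌉} 1_{h > i/n}; then
h − 1/n ≤ h_n ≤ h, and ∫ h_n dvm(Φ y) = (1/n)∑ vm(Φ y){h > i/n}.  If r < ∫ h dvm(Φ y) choose n with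
r < ∫ h_n dvm(Φ y); by (1) every term is lower semicontinuous in y, so r < ∫ h_n dvm(Φ y') ≤ ∫ h dvm(Φ y') near y.
(Alternatively: lintegral layer-cake + Fatou.  h is measurable by `measurable_of_Ioi`.)
(3) measurable_vm: for Borel U the map y ↦ vm(Φ y)(U) is measurable: open sets form a π-system generating the Borel
sets, lower semicontinuous functions are measurable; use `Measurable.measure_of_isPiSystem` (GiryMonad).
-/

open Set Filter Topology MeasureTheory Pool.Agent.H53.ZD

namespace Pool.Agent.ZDB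

variable {X : Type*} [TopologicalSpace X] [CompactSpace X] [T2Space X] [MeasurableSpace X] [BorelSpace X]

variable {Y : Type*} [TopologicalSpace Y]

theorem isOpen_lt_vm (Φ : Y → C(X, ℝ) →L[ℝ] ℝ) (hΦ : ∀ f, Continuous fun y => Φ y f) {U : Set X}
    (hU : IsOpen U) (r : ℝ) : IsOpen {y | r < (vm (Φ y)).real U} := by
  rw [isOpen_iff_forall_mem_open]
  intro y hy
  obtain ⟨f, hf1, hf0, hf⟩ := lt_vm_open (Φ y) hU hy
  exact ⟨{y' | r < Φ y' f}, fun y' hy' => lt_of_lt_of_le hy'
    (le_vm (Φ y') hU.measurableSet f hf1 hf0), isOpen_lt continuous_const (hΦ f), hf⟩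

private theorem count_le (N : ℕ) (t : ℝ) (h0 : 0 ≤ t) (hN : t ≤ N) :
    (∑ i ∈ Finset.range N, if ((i : ℝ) + 1 < t) then (1 : ℝ) else 0) ≤ t ∧
      t ≤ (∑ i ∈ Finset.range N, if ((i : ℝ) + 1 < t) then (1 : ℝ) else 0) + 1 := by
  have h1 : (∑ i ∈ Finset.range N, if ((i : ℝ) + 1 < t) then (1 : ℝ) else 0) =
      ((⌈t⌉₊ - 1 : ℕ) : ℝ) := by
    rw [Finset.sum_ite, Finset.sum_const_zero, add_zero, Finset.sum_const, nsmul_eq_mul, mul_one]
    congr 1
    have h2 : (Finset.range N).filter (fun i : ℕ => ((i : ℝ) + 1 < t)) =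
        Finset.range (⌈t⌉₊ - 1) := by
      ext i
      rw [Finset.mem_filter, Finset.mem_range, Finset.mem_range]
      have h3 : ((i : ℝ) + 1 < t) ↔ i + 1 < ⌈t⌉₊ := by
        rw [Nat.lt_ceil]
        push_cast
        exact Iff.rfl
      have h4 : ⌈t⌉₊ ≤ N := Nat.ceil_le.2 hN
      rw [h3]
      omega
    rw [h2, Finset.card_range]
  rw [h1]
  have h5 := Nat.le_ceil t
  have h6 := Nat.ceil_lt_add_one h0
  rcases Nat.eq_zero_or_pos ⌈t⌉₊ with h7 | h7
  · rw [h7] at h5 ⊢
    simp only [Nat.cast_zero, Nat.zero_sub] at h5 ⊢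
    constructor
    · exact h0
    · linarith
  · rw [Nat.cast_sub h7, Nat.cast_one]
    constructor <;> linarith

theorem isOpen_lt_integral (Φ : Y → C(X, ℝ) →L[ℝ] ℝ) (hΦ : ∀ f, Continuous fun y => Φ y f)
    {h : X → ℝ} (h0 : ∀ x, 0 ≤ h x) (M : ℝ) (hM : ∀ x, h x ≤ M)
    (hl : ∀ s, IsOpen {x | s < h x}) (r : ℝ) : IsOpen {y | r < ∫ x, h x ∂(vm (Φ y))} := by
  have hmeas : Measurable h := measurable_of_Ioi (fun s => (hl s).measurableSet)
  have hint : ∀ y, Integrable h (vm (Φ y)) := fun y =>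
    Integrable.of_bound hmeas.aestronglyMeasurable M (Filter.Eventually.of_forall (fun x => by
      rw [Real.norm_eq_abs, abs_of_nonneg (h0 x)]
      exact hM x))
  -- the approximations
  set S : ℕ → X → ℝ := fun n x => ∑ i ∈ Finset.range ⌈((n : ℝ) + 1) * M⌉₊,
    {x | ((i : ℝ) + 1) / (n + 1) < h x}.indicator (fun _ => (1 : ℝ)) x with hS
  have hSi : ∀ n y, Integrable (S n) (vm (Φ y)) := by
    intro n y
    apply integrable_finsetSum
    intro i _
    exact (integrable_const (1 : ℝ)).indicator (hl _).measurableSet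
  have hSint : ∀ n y, ∫ x, S n x ∂(vm (Φ y)) = ∑ i ∈ Finset.range ⌈((n : ℝ) + 1) * M⌉₊,
      (vm (Φ y)).real {x | ((i : ℝ) + 1) / (n + 1) < h x} := by
    intro n y
    rw [integral_finsetSum]
    · apply Finset.sum_congr rfl
      intro i _
      rw [integral_indicator (hl _).measurableSet]
      simp
    · intro i _
      exact (integrable_const (1 : ℝ)).indicator (hl _).measurableSet
  have hSb : ∀ n x, S n x ≤ (n + 1) * h x ∧ (n + 1) * h x ≤ S n x + 1 := by
    intro n x
    have hn : (0 : ℝ) < (n : ℝ) + 1 := by positivity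
    have h1 := count_le ⌈((n : ℝ) + 1) * M⌉₊ ((n + 1) * h x) (mul_nonneg hn.le (h0 x))
      ((mul_le_mul_of_nonneg_left (hM x) hn.le).trans (Nat.le_ceil _))
    have h2 : S n x = ∑ i ∈ Finset.range ⌈((n : ℝ) + 1) * M⌉₊,
        if ((i : ℝ) + 1 < (n + 1) * h x) then (1 : ℝ) else 0 := by
      rw [hS]
      apply Finset.sum_congr rfl
      intro i _
      have h3 : ((i : ℝ) + 1) / (n + 1) < h x ↔ (i : ℝ) + 1 < (n + 1) * h x := by
        rw [div_lt_iff₀' hn]
      by_cases h4 : (i : ℝ) + 1 < (n + 1) * h x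
      · rw [if_pos h4, indicator_of_mem]
        exact h3.2 h4
      · rw [if_neg h4, indicator_of_notMem]
        exact fun h5 => h4 (h3.1 h5)
    rw [h2]
    exact h1
  have hSopen : ∀ n (s : ℝ), IsOpen {y | s < ∫ x, S n x ∂(vm (Φ y))} := by
    intro n s
    have h1 : LowerSemicontinuous (fun y => ∑ i ∈ Finset.range ⌈((n : ℝ) + 1) * M⌉₊,
        (vm (Φ y)).real {x | ((i : ℝ) + 1) / (n + 1) < h x}) := by
      apply lowerSemicontinuous_sum
      intro i _
      rw [lowerSemicontinuous_iff_isOpen_preimage]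
      intro u
      exact isOpen_lt_vm Φ hΦ (hl _) u
    have h2 := (lowerSemicontinuous_iff_isOpen_preimage.1 h1) s
    simp only [hSint]
    exact h2
  have hset : {y | r < ∫ x, h x ∂(vm (Φ y))} =
      ⋃ n : ℕ, {y | ((n : ℝ) + 1) * r < ∫ x, S n x ∂(vm (Φ y))} := by
    ext y
    simp only [mem_ofPred_eq, mem_iUnion]
    constructor
    · intro hy
      have hpos : 0 < ∫ x, h x ∂(vm (Φ y)) - r := by linarith
      obtain ⟨n, hn⟩ := exists_nat_gt ((vm (Φ y)).real univ / (∫ x, h x ∂(vm (Φ y)) - r))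
      rw [div_lt_iff₀ hpos] at hn
      refine ⟨n, ?_⟩
      have h1 : ∫ x, ((n : ℝ) + 1) * h x ∂(vm (Φ y)) ≤ ∫ x, (S n x + 1) ∂(vm (Φ y)) :=
        integral_mono ((hint y).const_mul _) ((hSi n y).add (integrable_const 1))
          (fun x => (hSb n x).2)
      rw [integral_const_mul, integral_add (hSi n y) (integrable_const 1), integral_const,
        smul_eq_mul, mul_one] at h1
      nlinarith
    · rintro ⟨n, hn⟩
      have hn0 : (0 : ℝ) < (n : ℝ) + 1 := by positivity
      have h1 : ∫ x, S n x ∂(vm (Φ y)) ≤ ∫ x, ((n : ℝ) + 1) * h x ∂(vm (Φ y)) :=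
        integral_mono (hSi n y) ((hint y).const_mul _) (fun x => (hSb n x).1)
      rw [integral_const_mul] at h1
      exact lt_of_mul_lt_mul_left (hn.trans_le h1) hn0.le
  rw [hset]
  exact isOpen_iUnion (fun n => hSopen n _)

theorem measurable_vm [MeasurableSpace Y] [BorelSpace Y] (Φ : Y → C(X, ℝ) →L[ℝ] ℝ)
    (hΦ : ∀ f, Continuous fun y => Φ y f) : Measurable fun y => vm (Φ y) := by
  have hb : ∀ U : Set X, IsOpen U → Measurable fun y => vm (Φ y) U := by
    intro U hU
    have h1 : Measurable fun y => (vm (Φ y)).real U :=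
      measurable_of_Ioi (fun r => (isOpen_lt_vm Φ hΦ hU r).measurableSet)
    have h2 : (fun y => vm (Φ y) U) = fun y => ENNReal.ofReal ((vm (Φ y)).real U) := by
      funext y
      rw [ofReal_measureReal]
    rw [h2]
    exact h1.ennreal_ofReal
  exact Measurable.measure_of_isPiSystem (S := {s : Set X | IsOpen s})
    (BorelSpace.measurable_eq (α := X)) isPiSystem_isOpen (fun s hs => hb s hs)
    (hb univ isOpen_univ)

end Pool.Agent.ZDB

end

section

/-!
# ZDB/VmMap : variation measures and maps (general)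
vm_le_map: h : X → X' continuous, φ' f = φ (f ∘ h).  Open U' ⊆ X': vm φ'(U') ≤ vm φ(h⁻¹U'), by `lt_vm_open` and `le_vm`
(if f vanishes off U' then f∘h vanishes off h⁻¹U', and φ' f = φ (f∘h)).  Borel E, ε > 0: inner regularity
(`MeasurableSet.exists_isCompact_lt_add`) gives a compact K ⊆ h⁻¹(Eᶜ) with vm φ(h⁻¹(Eᶜ) ∖ K) < ε.  U' := (h '' K)ᶜ is
open, contains E, and h⁻¹U' ⊆ Kᶜ, so vm φ'(E) ≤ vm φ'(U') ≤ vm φ(Kᶜ) ≤ vm φ(h⁻¹E)+ε.  (`Measure.le_iff`,
`Measure.map_apply`.)
-/

open Set Filter Topology MeasureTheory Pool.Agent.H53.ZD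

namespace Pool.Agent.ZDB

variable {X : Type*} [TopologicalSpace X] [CompactSpace X] [T2Space X] [MeasurableSpace X] [BorelSpace X]

theorem vm_le_map {X' : Type*} [TopologicalSpace X'] [CompactSpace X'] [T2Space X']
    [MeasurableSpace X'] [BorelSpace X'] (h : C(X, X')) (φ : C(X, ℝ) →L[ℝ] ℝ)
    (φ' : C(X', ℝ) →L[ℝ] ℝ) (hφ : ∀ f : C(X', ℝ), φ' f = φ (f.comp h)) :
    vm φ' ≤ (vm φ).map h := by
  have hopen : ∀ U' : Set X', IsOpen U' → vm φ' U' ≤ vm φ (h ⁻¹' U') := by
    intro U' hU'
    have h1 : (vm φ').real U' ≤ (vm φ).real (h ⁻¹' U') := by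
      by_contra hlt
      obtain ⟨f, hf1, hf2, hf3⟩ := lt_vm_open φ' hU' (not_le.1 hlt)
      have h2 := le_vm φ (hU'.preimage h.continuous).measurableSet (f.comp h)
        (fun x => hf1 (h x)) (fun x hx => hf2 (h x) hx)
      rw [hφ] at hf3
      linarith
    exact (ENNReal.toReal_le_toReal (measure_ne_top _ _) (measure_ne_top _ _)).1 h1
  rw [Measure.le_iff]
  intro E hE
  rw [Measure.map_apply h.continuous.measurable hE]
  apply ENNReal.le_of_forall_pos_le_add
  intro ε hε _
  have hEm : MeasurableSet (h ⁻¹' E) := h.continuous.measurable hE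
  obtain ⟨K, hK1, hK2, hK3⟩ := hEm.compl.exists_isCompact_sdiff_lt (μ := vm φ)
    (measure_ne_top _ _) (ENNReal.coe_pos.2 hε).ne'
  have hU' : IsOpen (h '' K)ᶜ := (hK2.image h.continuous).isClosed.isOpen_compl
  have hEU : E ⊆ (h '' K)ᶜ := by
    rintro y hy ⟨k, hk, rfl⟩
    exact hK1 hk hy
  have hsub : h ⁻¹' (h '' K)ᶜ ⊆ h ⁻¹' E ∪ ((h ⁻¹' E)ᶜ \ K) := by
    intro x hx
    by_cases hxE : x ∈ h ⁻¹' E
    · exact Or.inl hxE
    · exact Or.inr ⟨hxE, fun hxK => hx ⟨x, hxK, rfl⟩⟩
  calc vm φ' E ≤ vm φ' (h '' K)ᶜ := measure_mono hEU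
    _ ≤ vm φ (h ⁻¹' (h '' K)ᶜ) := hopen _ hU'
    _ ≤ vm φ (h ⁻¹' E ∪ ((h ⁻¹' E)ᶜ \ K)) := measure_mono hsub
    _ ≤ vm φ (h ⁻¹' E) + vm φ ((h ⁻¹' E)ᶜ \ K) := measure_union_le _ _
    _ ≤ vm φ (h ⁻¹' E) + ε := add_le_add le_rfl hK3.le

end Pool.Agent.ZDB

end

section

/-!
# ZDB/WDef : tuples of coordinates, the functions φ
All statements are coordinatewise.  `phi t y ζ` is the dense function number m at the cube point whose first coordinates are y∘p and whose last
coordinates are ζ.  nm_pull: mass (range c) y = ∑_j |y (c j)| for injective c (`mass_finset` for the finset image).  On Ball (Fin n) nm is the finite sum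
∑|ζ j|, continuous.
-/

open Set Filter Topology MeasureTheory Pool.Agent.H53.ZD

namespace Pool.Agent.ZDB

variable {κ : Type*}

/-- the coordinates along an injective tuple -/
noncomputable def pull {n : ℕ} (c : Fin n → κ) (y : Ball κ) : Ball (Fin n) :=
  open Classical in
  if h : Function.Injective c then Ball.mk' (fun i => y (c i)) (fun s => by
    have := y.sum_le (s.map ⟨c, h⟩)
    simpa [Finset.sum_map] using this) else 0

open Classical in
/-- the point with coordinates `ζ` along the tuple `c` -/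
noncomputable def emb {n : ℕ} (c : Fin n → κ) (ζ : Ball (Fin n)) : Ball κ :=
  Ball.mk' (fun i => ∑ j, if c j = i then ζ j else 0) (fun s => by
    calc ∑ i ∈ s, |∑ j, if c j = i then ζ j else 0|
        ≤ ∑ i ∈ s, ∑ j, |if c j = i then ζ j else 0| :=
          Finset.sum_le_sum fun i _ => Finset.abs_sum_le_sum_abs _ _
      _ = ∑ j, ∑ i ∈ s, |if c j = i then ζ j else 0| := Finset.sum_comm
      _ ≤ ∑ j, |ζ j| := by
          refine Finset.sum_le_sum fun j _ => ?_
          by_cases hj : c j ∈ s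
          · rw [Finset.sum_eq_single_of_mem (c j) hj]
            · simp
            · intro i _ hi
              rw [if_neg (fun h => hi h.symm), abs_zero]
          · rw [Finset.sum_eq_zero]
            · exact abs_nonneg _
            · intro i hi
              have hne : c j ≠ i := fun h => hj (by rw [h]; exact hi)
              rw [if_neg hne, abs_zero]
      _ ≤ 1 := ζ.sum_le _)

theorem pull_apply {n : ℕ} {c : Fin n → κ} (hc : Function.Injective c) (y : Ball κ) (j : Fin n) :
    pull c y j = y (c j) := by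
  unfold pull
  rw [dif_pos hc]
  rfl

theorem nm_pull {n : ℕ} {c : Fin n → κ} (hc : Function.Injective c) (y : Ball κ) :
    nm (pull c y) = Ball.mass (range c) y := by
  apply le_antisymm
  · rw [nm, Ball.mass_le_iff]
    intro s _
    have h1 : ∑ i ∈ s, |pull c y i| = ∑ i ∈ s.map ⟨c, hc⟩, |y i| := by
      rw [Finset.sum_map]
      refine Finset.sum_congr rfl fun j _ => ?_
      rw [pull_apply hc]
      rfl
    rw [h1]
    apply Ball.sum_le_mass
    intro i hi
    rw [Finset.mem_map] at hi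
    obtain ⟨j, _, rfl⟩ := hi
    exact mem_range_self j
  · rw [Ball.mass_le_iff]
    intro s hs
    have h1 : ∑ j ∈ s.preimage c hc.injOn, |y (c j)| = ∑ i ∈ s, |y i| :=
      Finset.sum_preimage c s hc.injOn (fun i => |y i|) (fun i hi hn => absurd (hs i hi) hn)
    rw [← h1]
    have h2 : ∑ j ∈ s.preimage c hc.injOn, |y (c j)| =
        ∑ j ∈ s.preimage c hc.injOn, |pull c y j| := by
      refine Finset.sum_congr rfl fun j _ => ?_
      rw [pull_apply hc]
    rw [h2]
    exact Ball.sum_le_mass _ _ fun j _ => mem_univ j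

theorem emb_apply {n : ℕ} {c : Fin n → κ} (hc : Function.Injective c) (ζ : Ball (Fin n))
    (j : Fin n) : emb c ζ (c j) = ζ j := by
  classical
  unfold emb
  rw [Ball.mk'_apply, Finset.sum_eq_single j]
  · rw [if_pos rfl]
  · intro k _ hk
    rw [if_neg (fun h => hk (hc h))]
  · intro h
    exact absurd (Finset.mem_univ j) h

theorem emb_mem {n : ℕ} (c : Fin n → κ) (ζ : Ball (Fin n)) : emb c ζ ∈ BA (range c) := by
  classical
  rw [mem_BA]
  intro i hi
  unfold emb
  rw [Ball.mk'_apply]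
  refine Finset.sum_eq_zero fun j _ => ?_
  rw [if_neg (fun h => hi ⟨j, h⟩)]

private theorem WDef_pull_emb {n : ℕ} {c : Fin n → κ} (hc : Function.Injective c)
    (ζ : Ball (Fin n)) : pull c (emb c ζ) = ζ := by
  ext j
  rw [pull_apply hc, emb_apply hc]

theorem nm_emb {n : ℕ} {c : Fin n → κ} (hc : Function.Injective c) (ζ : Ball (Fin n)) :
    nm (emb c ζ) = nm ζ := by
  rw [nm_split (range c) (emb c ζ), mem_BA_iff_mass.1 (emb_mem c ζ), add_zero,
    ← nm_pull hc, WDef_pull_emb hc]

theorem pull_plus_emb {n : ℕ} {c : Fin n → κ} (hc : Function.Injective c) {y : Ball κ}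
    {ζ : Ball (Fin n)} (hy : ∀ j, y (c j) = 0) (h : nm y + nm ζ ≤ 1) :
    pull c (plus y (emb c ζ)) = ζ := by
  ext j
  rw [pull_apply hc, plus_apply (by rw [nm_emb hc]; exact h), hy j, emb_apply hc, zero_add]

theorem cubePt_append {n₀ n₁ : ℕ} (p : Fin n₀ → κ) (c : Fin n₁ → κ) (y : Ball κ) :
    cubePt (Fin.append p c) y = Fin.append (cubePt p y) (cubePt c y) := by
  funext i
  refine Fin.addCases (fun j => ?_) (fun j => ?_) i
  · rw [Fin.append_left]
    apply Subtype.ext
    simp only [cubePt, Fin.append_left]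
  · rw [Fin.append_right]
    apply Subtype.ext
    simp only [cubePt, Fin.append_right]

private theorem WDef_nm_fin {n : ℕ} (ζ : Ball (Fin n)) : nm ζ = ∑ j, |ζ j| := by
  apply le_antisymm
  · rw [nm, Ball.mass_le_iff]
    intro s _
    exact Finset.sum_le_sum_of_subset_of_nonneg (Finset.subset_univ s) fun _ _ _ => abs_nonneg _
  · exact Ball.sum_le_mass ζ Finset.univ fun j _ => mem_univ j

theorem continuous_nm_fin (n : ℕ) : Continuous (fun ζ : Ball (Fin n) => nm ζ) := by
  simp_rw [WDef_nm_fin]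
  exact continuous_finsetSum _ fun i _ => (Ball.continuous_coord i).abs

/-- the type of a `w`-object -/
structure WType (κ : Type*) where
  n₀ : ℕ
  p : Fin n₀ → κ
  n₁ : ℕ
  m : ℕ

/-- the function `φ` -/
noncomputable def WType.phi (t : WType κ) (y : Ball κ) (ζ : Ball (Fin t.n₁)) : ℝ :=
  dseq (t.n₀ + t.n₁) t.m (Fin.append (cubePt t.p y) (cubePt id ζ))

theorem WType.phi_pull (t : WType κ) {c : Fin t.n₁ → κ} (hc : Function.Injective c)
    (y : Ball κ) : t.phi y (pull c y) =
      dseq (t.n₀ + t.n₁) t.m (cubePt (Fin.append t.p c) y) := by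
  unfold WType.phi
  rw [cubePt_append]
  congr 2
  funext j
  apply Subtype.ext
  exact pull_apply hc y j

theorem WType.phi_congr (t : WType κ) {y y' : Ball κ} (h : ∀ i, y (t.p i) = y' (t.p i))
    (ζ : Ball (Fin t.n₁)) : t.phi y ζ = t.phi y' ζ := by
  unfold WType.phi
  have h1 : cubePt t.p y = cubePt t.p y' := by
    funext i
    exact Subtype.ext (h i)
  rw [h1]

theorem WType.continuous_phi (t : WType κ) :
    Continuous (fun z : Ball κ × Ball (Fin t.n₁) => t.phi z.1 z.2) := by
  unfold WType.phi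
  apply (dseq (t.n₀ + t.n₁) t.m).continuous.comp
  apply continuous_pi
  intro i
  refine Fin.addCases (fun j => ?_) (fun j => ?_) i
  · simp only [Fin.append_left]
    exact (continuous_apply j).comp ((continuous_cubePt t.p).comp continuous_fst)
  · simp only [Fin.append_right]
    exact (continuous_apply j).comp ((continuous_cubePt id).comp continuous_snd)

end Pool.Agent.ZDB

end
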