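import Pool.Agent.ZDM.P02

/-!
# Merged form of the modules ZDB.CloCode, ZDB.NuLam, ZDB.ReflTuple, ZDB.OpenRefl, ZDB.RetA, ZDB.RetKey, ZDB.RetB, ZDB.RetCof, ZDB.RetBasic, ZDB.WRefl, ZDB.AlphaA
-/

set_option autoImplicit false
set_option linter.unusedSectionVars false

section

/-!
# ZDB/CloCode : codes of clopen sets
`Coded c O`: the coded function is within 1/(4C) of T 1_O.
* Coded.unique: |T(1_O − 1_O')| ≤ 1/(2C), so |1_O − 1_O'| ≤ 1/2 (hV), so O = O'.
* exists_coded: `exists_code_level` with ε = 1/(4C).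
* club_coded: closing: φ(F) := ⋃ over the (countably many, FCode.fibre_countable) codes c with c.supp = F and over the (at most one) O
  with Coded c O of a countable set A with (T 1_O) ∘ res A' = T 1_O for all A' ⊇ A (`exists_countable_level`).  Use `Club.of_closing`
  (or `skolem` with β = countable sets).
-/

open Set Filter Topology MeasureTheory Pool.Agent.H53.ZD

namespace Pool.Agent.ZDB

variable {κ L : Type*} [TopologicalSpace L] [CompactSpace L] [T2Space L] [TotallyDisconnectedSpace L]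
  [MeasurableSpace L] [BorelSpace L]

namespace Sys

variable (S : Sys κ L)

/-- `c` codes the clopen set `O` -/
def Coded (c : FCode κ) (O : Set L) : Prop :=
  IsClopen O ∧ ∀ y, |S.T (cind O) y - c.ev y| ≤ 1 / (4 * S.C)

/-- the level of a clopen set, expressed through `T` -/
def LevC (A : Set κ) (O : Set L) : Prop := (S.T (cind O)).comp (resC A) = S.T (cind O)

theorem coded_unique {c : FCode κ} {O O' : Set L} (h : S.Coded c O) (h' : S.Coded c O') :
    O = O' := by
  have hC : 0 < S.C := zero_lt_one.trans_le S.one_le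
  have h1 : ∀ y, |S.T (cind O - cind O') y| ≤ 1 / (2 * S.C) := by
    intro y
    rw [map_sub, ContinuousMap.sub_apply]
    have h2 := abs_le.1 (h.2 y)
    have h3 := abs_le.1 (h'.2 y)
    have h4 : 1 / (2 * S.C) = 1 / (4 * S.C) + 1 / (4 * S.C) := by
      field_simp
      ring
    rw [h4, abs_le]
    constructor <;> linarith
  have h5 : ∀ l, |cind O l - cind O' l| ≤ 1 / 2 := by
    intro l
    have h6 := S.hV (S.T (cind O - cind O')) (1 / (2 * S.C)) h1 (by positivity) l
    rw [ContinuousLinearEquiv.symm_apply_apply, ContinuousMap.sub_apply] at h6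
    have h7 : S.C * (1 / (2 * S.C)) = 1 / 2 := by
      field_simp
    rwa [h7] at h6
  ext l
  constructor
  · intro hl
    by_contra hl'
    have h8 := h5 l
    rw [cind_of_mem h.1 hl, cind_of_notMem hl'] at h8
    norm_num at h8
  · intro hl
    by_contra hl'
    have h8 := h5 l
    rw [cind_of_mem h'.1 hl, cind_of_notMem hl'] at h8
    norm_num at h8

theorem exists_coded {O : Set L} (hO : IsClopen O) {A : Set κ} (hA : S.LevC A O) :
    ∃ c : FCode κ, (c.supp : Set κ) ⊆ A ∧ S.Coded c O := by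
  have hC : 0 < S.C := zero_lt_one.trans_le S.one_le
  obtain ⟨c, hc, h⟩ := exists_code_level (S.T (cind O)) A hA
    (show (0 : ℝ) < 1 / (4 * S.C) by positivity)
  exact ⟨c, hc, hO, fun y => (h y).le⟩

/-- every clopen set has a countable level -/
theorem exists_levC (O : Set L) : ∃ A : Set κ, A.Countable ∧ ∀ A', A ⊆ A' → S.LevC A' O :=
  exists_countable_level (S.T (cind O))

theorem club_coded : Club (fun A : Set κ => ∀ c : FCode κ, (c.supp : Set κ) ⊆ A →
    ∀ O, S.Coded c O → S.LevC A O) := by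
  refine (skolem (P := FCode κ) (β := {A : Set κ // A.Countable}) FCode.supp
    FCode.fibre_countable Subtype.val (fun b => b.2)
    (fun c b => ∀ O, S.Coded c O → ∀ A', b.1 ⊆ A' → S.LevC A' O)).mono ?_
  intro A hA c hc O hO
  obtain ⟨b, hb, hbA⟩ := hA c hc (by
    obtain ⟨B, hB, hB'⟩ := S.exists_levC O
    refine ⟨⟨B, hB⟩, fun O' hO' A' hA' => ?_⟩
    rw [← S.coded_unique hO hO']
    exact hB' A' hA')
  exact hb O hO A hbA

end Sys

end Pool.Agent.ZDB

end

section

/-!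
# ZDB/NuLam : the measures nu y = |ν_y| and lam l = |λ_l|
Everything is a specialisation of VmOpen/VmLsc to Φ = S.nuF (resp. S.lamF); y ↦ S.nuF y f = S.T f y is continuous.
* nu_univ_le: `vm_univ_le` and ‖S.nuF y‖ ≤ C (`ContinuousLinearMap.opNorm_le_bound`, hT).  Same for lam.
* nu_univ_ge: g = S.T.symm 1 has |g| ≤ C (hV with M = 1) and 1 = S.T g y ≤ ∫|g| dnu ≤ C·nu(univ).  Same for lam.
* one_le_int: 1 = cind O l = S.T.symm (S.T (cind O)) l ≤ ∫|S.T (cind O)| dlam_l ≤ ∫ nu_y(O) dlam_l (abs_vm_cind; the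
  integrand y ↦ nu_y(O) is measurable and bounded by C, so integrable).
* integrable_bdd is a general helper: a bounded measurable function is integrable for a finite measure.
-/

open Set Filter Topology MeasureTheory Pool.Agent.H53.ZD

namespace Pool.Agent.ZDB

variable {κ L : Type*} [TopologicalSpace L] [CompactSpace L] [T2Space L] [TotallyDisconnectedSpace L]
  [MeasurableSpace L] [BorelSpace L]

theorem integrable_bdd {X : Type*} [MeasurableSpace X] (μ : Measure X) [IsFiniteMeasure μ]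
    {f : X → ℝ} (hf : Measurable f) (M : ℝ) (hM : ∀ x, |f x| ≤ M) : Integrable f μ :=
  Integrable.of_bound hf.aestronglyMeasurable M (Filter.Eventually.of_forall hM)

namespace Sys

variable (S : Sys κ L)

instance (y : Ball κ) : IsFiniteMeasure (S.nu y) := inferInstanceAs (IsFiniteMeasure (vm _))
instance (l : L) : IsFiniteMeasure (S.lam l) := inferInstanceAs (IsFiniteMeasure (vm _))
instance (y : Ball κ) : (S.nu y).Regular := inferInstanceAs (Measure.Regular (vm _))
instance (l : L) : (S.lam l).Regular := inferInstanceAs (Measure.Regular (vm _))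

lemma C_pos : 0 < S.C := zero_lt_one.trans_le S.one_le

lemma nuF_apply (y : Ball κ) (f : C(L, ℝ)) : S.nuF y f = S.T f y := rfl
lemma lamF_apply (l : L) (g : C(Ball κ, ℝ)) : S.lamF l g = S.T.symm g l := rfl

theorem nu_univ_le (y : Ball κ) : (S.nu y).real univ ≤ S.C :=
  (vm_univ_le (S.nuF y)).trans (ContinuousLinearMap.opNorm_le_bound _ S.C_pos.le
    (fun f => S.hT f ‖f‖ (fun l => f.norm_coe_le_norm l) (norm_nonneg _) y))

theorem lam_univ_le (l : L) : (S.lam l).real univ ≤ S.C :=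
  (vm_univ_le (S.lamF l)).trans (ContinuousLinearMap.opNorm_le_bound _ S.C_pos.le
    (fun g => S.hV g ‖g‖ (fun y => g.norm_coe_le_norm y) (norm_nonneg _) l))

theorem nu_le (y : Ball κ) (U : Set L) : (S.nu y).real U ≤ S.C :=
  (measureReal_mono (subset_univ U)).trans (S.nu_univ_le y)

theorem lam_le (l : L) (W : Set (Ball κ)) : (S.lam l).real W ≤ S.C :=
  (measureReal_mono (subset_univ W)).trans (S.lam_univ_le l)

theorem nu_univ_ge (y : Ball κ) : 1 / S.C ≤ (S.nu y).real univ := by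
  have h1 : ∀ l, |S.T.symm 1 l| ≤ S.C := fun l => by
    have := S.hV 1 1 (fun y => by simp) zero_le_one l
    rwa [mul_one] at this
  have h2 : (1 : ℝ) ≤ ∫ l, |S.T.symm 1 l| ∂(S.nu y) := by
    have h3 := abs_le_integral_vm (S.nuF y) (S.T.symm 1)
    rw [S.nuF_apply, S.T.apply_symm_apply] at h3
    have h5 : |(1 : C(Ball κ, ℝ)) y| = 1 := by simp
    rw [h5] at h3
    exact h3
  have h4 : ∫ l, |S.T.symm 1 l| ∂(S.nu y) ≤ ∫ _l, S.C ∂(S.nu y) := by
    apply integral_mono
    · exact integrable_cont _ _ (by fun_prop)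
    · exact integrable_const _
    · exact h1
  rw [integral_const, smul_eq_mul] at h4
  rw [div_le_iff₀ S.C_pos]
  exact h2.trans h4

theorem lam_univ_ge (l : L) : 1 / S.C ≤ (S.lam l).real univ := by
  have h1 : ∀ y, |S.T 1 y| ≤ S.C := fun y => by
    have := S.hT 1 1 (fun y => by simp) zero_le_one y
    rwa [mul_one] at this
  have h2 : (1 : ℝ) ≤ ∫ y, |S.T 1 y| ∂(S.lam l) := by
    have h3 := abs_le_integral_vm (S.lamF l) (S.T 1)
    rw [S.lamF_apply, S.T.symm_apply_apply] at h3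
    have h5 : |(1 : C(L, ℝ)) l| = 1 := by simp
    rw [h5] at h3
    exact h3
  have h4 : ∫ y, |S.T 1 y| ∂(S.lam l) ≤ ∫ _y, S.C ∂(S.lam l) := by
    apply integral_mono
    · exact integrable_cont _ _ (by fun_prop)
    · exact integrable_const _
    · exact h1
  rw [integral_const, smul_eq_mul] at h4
  rw [div_le_iff₀ S.C_pos]
  exact h2.trans h4

lemma cont_nuF (f : C(L, ℝ)) : Continuous fun y => S.nuF y f := (S.T f).continuous

lemma cont_lamF (g : C(Ball κ, ℝ)) : Continuous fun l => S.lamF l g := (S.T.symm g).continuous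

theorem isOpen_nu {U : Set L} (hU : IsOpen U) (r : ℝ) : IsOpen {y | r < (S.nu y).real U} :=
  isOpen_lt_vm S.nuF S.cont_nuF hU r

theorem isOpen_lam {W : Set (Ball κ)} (hW : IsOpen W) (r : ℝ) :
    IsOpen {l | r < (S.lam l).real W} :=
  isOpen_lt_vm S.lamF S.cont_lamF hW r

theorem isOpen_int_nu {h : L → ℝ} (h0 : ∀ x, 0 ≤ h x) (M : ℝ) (hM : ∀ x, h x ≤ M)
    (hl : ∀ s, IsOpen {x | s < h x}) (r : ℝ) : IsOpen {y | r < ∫ x, h x ∂(S.nu y)} :=
  isOpen_lt_integral S.nuF S.cont_nuF h0 M hM hl r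

theorem isOpen_int_lam {h : Ball κ → ℝ} (h0 : ∀ x, 0 ≤ h x) (M : ℝ) (hM : ∀ x, h x ≤ M)
    (hl : ∀ s, IsOpen {x | s < h x}) (r : ℝ) : IsOpen {l | r < ∫ x, h x ∂(S.lam l)} :=
  isOpen_lt_integral S.lamF S.cont_lamF h0 M hM hl r

theorem measurable_nu : Measurable S.nu := measurable_vm S.nuF S.cont_nuF
theorem measurable_lam : Measurable S.lam := measurable_vm S.lamF S.cont_lamF

theorem measurable_nu_real {U : Set L} (hU : MeasurableSet U) :
    Measurable fun y => (S.nu y).real U :=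
  (Measure.measurable_coe hU |>.comp S.measurable_nu).ennreal_toReal

theorem measurable_lam_real {W : Set (Ball κ)} (hW : MeasurableSet W) :
    Measurable fun l => (S.lam l).real W :=
  (Measure.measurable_coe hW |>.comp S.measurable_lam).ennreal_toReal

theorem abs_T_le (f : C(L, ℝ)) (y : Ball κ) : |S.T f y| ≤ ∫ l, |f l| ∂(S.nu y) :=
  abs_le_integral_vm (S.nuF y) f

theorem abs_V_le (g : C(Ball κ, ℝ)) (l : L) : |S.T.symm g l| ≤ ∫ y, |g y| ∂(S.lam l) :=
  abs_le_integral_vm (S.lamF l) g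

theorem abs_T_cind_le {O : Set L} (hO : IsClopen O) (y : Ball κ) :
    |S.T (cind O) y| ≤ (S.nu y).real O :=
  abs_vm_cind (S.nuF y) hO

theorem atom_le {E : Set L} (hE : IsClopen E) {l : L} (hl : l ∈ E) (y : Ball κ) :
    (S.nu y).real {l} - (S.nu y).real (E \ {l}) ≤ |S.T (cind E) y| :=
  vm_atom (S.nuF y) hE hl

theorem one_le_int_T {O : Set L} (hO : IsClopen O) {l : L} (hl : l ∈ O) :
    1 ≤ ∫ y, |S.T (cind O) y| ∂(S.lam l) := by
  have h := S.abs_V_le (S.T (cind O)) l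
  rw [S.T.symm_apply_apply] at h
  have h1 : cind O l = 1 := by
    unfold cind
    rw [dif_pos hO]
    exact Set.indicator_of_mem hl (fun _ => (1 : ℝ))
  rw [h1, abs_one] at h
  exact h

theorem one_le_int {O : Set L} (hO : IsClopen O) {l : L} (hl : l ∈ O) :
    1 ≤ ∫ y, (S.nu y).real O ∂(S.lam l) := by
  refine (S.one_le_int_T hO hl).trans ?_
  apply integral_mono
  · exact integrable_cont _ _ (by fun_prop)
  · exact integrable_bdd _ (S.measurable_nu_real hO.isOpen.measurableSet) S.C (fun y => by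
      rw [abs_of_nonneg measureReal_nonneg]
      exact S.nu_le y O)
  · intro y
    exact S.abs_T_cind_le hO y

end Sys

end Pool.Agent.ZDB

end

section

/-!
# ZDB/ReflTuple : reflection for tuples
Apply `refl` with β = Σ n, (Fin n → κ), sb ⟨n,c⟩ = range c (finite), and R' p b := ∃ c : Fin (nn p) → κ, b = ⟨nn p, c⟩ ∧ R p c.
(range c is nonempty because 0 < nn p.)
-/

open Set Filter Topology MeasureTheory Pool.Agent.H53.ZD

namespace Pool.Agent.ZDB

variable {κ : Type*}

theorem refl_tuple {P : Type*} (sp : P → Finset κ) (hsp : ∀ F, {p | sp p = F}.Countable)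
    (nn : P → ℕ) (R : ∀ p : P, (Fin (nn p) → κ) → Prop) :
    Club (fun A : Set κ => ∀ p, (sp p : Set κ) ⊆ A → ∀ c : Fin (nn p) → κ, R p c → 0 < nn p →
      (∀ j, c j ∉ A) → ∃ s : ℕ → Fin (nn p) → κ, (∀ i, R p (s i)) ∧ (∀ i j, s i j ∈ A) ∧
        Pairwise (fun i i' => Disjoint (range (s i)) (range (s i')))) := by
  refine (refl (β := Σ n, (Fin n → κ)) sp hsp (fun b => range b.2) (fun b => countable_range b.2)
    (fun p b => ∃ c : Fin (nn p) → κ, b = ⟨nn p, c⟩ ∧ R p c)).mono ?_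
  intro A hA p hp c hc hn hout
  obtain ⟨s, hs, -, hsub, hd⟩ := hA p hp ⟨nn p, c⟩ ⟨c, rfl, hc⟩ ⟨c ⟨0, hn⟩, mem_range_self _⟩
    (by
      rw [Set.disjoint_left]
      rintro _ ⟨j, rfl⟩ h
      exact hout j h)
  choose t ht hRt using hs
  refine ⟨t, hRt, ?_, ?_⟩
  · intro i j
    apply hsub i
    rw [ht i]
    exact mem_range_self _
  · intro i i' hne
    have h2 : Disjoint (range (s i).2) (range (s i').2) := hd hne
    rw [ht i, ht i'] at h2
    exact h2

end Pool.Agent.ZDB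

end

section

/-!
# ZDB/OpenRefl : reflection of open conditions (README 1.1, used in 2.1 and 8.1)
W p c ⊆ Ball κ is a family of sets (p parameter with finite support sp p, c an injective tuple of length nn p).
Apply `refl_tuple` to the parameters p⁺ = (p, F : Finset κ, n'' : ℕ, qv : κ →₀ ℚ, δ : ℚ, vv : ℕ → ℚ of finite support (ℕ →₀ ℚ)),
sp⁺ = sp p ∪ F ∪ qv.support (countable fibres), tuples c⁺ of length nn p + n'', and
R p⁺ c⁺ := Injective c⁺ ∧ ∀ Y, (∀ i ∈ F, |Y i − qv i| < 2δ) → (∀ j, |Y (c⁺ j) − vv j| < 2δ) → Y ∈ W p (c⁺ ∘ castAdd n'').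
Given Z ∈ interior (W p c), c injective with values outside A (length > 0): `mem_nhds_ball`: G finite, δ₀ with
(∀ i ∈ G, |Y i − Z i| < δ₀) → Y ∈ W p c; δ rational, 0 < 3δ < δ₀.  F := G ∩ A, c⁺ := c followed by an injective enumeration of
(G∖A)∖range c; rational qv (support ⊆ F) with |qv i − Z i| < δ on F; rational vv j with |vv j − Z(c⁺ j)| < δ and |vv j| ≤ |Z (c⁺ j)|.
Then R p⁺ c⁺ holds.  Reflection gives disjoint tuples s⁺ i in A with R.  Put s i := s⁺ i ∘ castAdd, Q i := range (s⁺ i),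
v i := the point with v i (s⁺ i j) = vv j, 0 elsewhere (nm (v i) ≤ ∑|vv j| ≤ ∑ |Z(c⁺ j)| ≤ mass Aᶜ Z since c⁺ is injective, outside A).
If Y = Z on F and Y = Z + v i on Q i, and i is so large that |Z k| < δ for k ∈ Q i (`Ball.mass_disjoint_tendsto_zero`), then
|Y k − qv k| < δ on F and |Y (s⁺ i j) − vv j| = |Z (s⁺ i j)| < δ.  So Y ∈ W p (s i).
-/

open Set Filter Topology MeasureTheory Pool.Agent.H53.ZD

namespace Pool.Agent.ZDB

variable {κ : Type*}

private theorem openRefl_near (z : ℝ) {δ : ℚ} (hδ : (0 : ℝ) < δ) :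
    ∃ r : ℚ, |(r : ℝ) - z| < δ ∧ |(r : ℝ)| ≤ |z| := by
  rcases lt_trichotomy z 0 with h | h | h
  · obtain ⟨r, h1, h2⟩ := exists_rat_btwn (show z < min 0 (z + δ) from lt_min h (by linarith))
    have h3 : (r : ℝ) < 0 := h2.trans_le (min_le_left _ _)
    have h4 : (r : ℝ) < z + δ := h2.trans_le (min_le_right _ _)
    refine ⟨r, ?_, ?_⟩
    · rw [abs_lt]; constructor <;> linarith
    · rw [abs_of_neg h3, abs_of_neg h]; linarith
  · exact ⟨0, by simp [h, hδ], by simp [h]⟩
  · obtain ⟨r, h1, h2⟩ := exists_rat_btwn (show max 0 (z - δ) < z from max_lt h (by linarith))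
    have h3 : (0 : ℝ) < r := (le_max_left _ _).trans_lt h1
    have h4 : z - δ < (r : ℝ) := (le_max_right _ _).trans_lt h1
    refine ⟨r, ?_, ?_⟩
    · rw [abs_lt]; constructor <;> linarith
    · rw [abs_of_pos h3, abs_of_pos h]; linarith

private theorem openRefl_fibre [DecidableEq κ] {P : Type*} (sp : P → Finset κ)
    (hsp : ∀ F, {p | sp p = F}.Countable) (F : Finset κ) :
    {t : P × List (κ × ℚ) × ℕ × ℚ × List ℚ |
      sp t.1 ∪ (t.2.1.map Prod.fst).toFinset = F}.Countable := by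
  have h1 : (⋃ H ∈ (F.powerset : Finset (Finset κ)), {p | sp p = H}).Countable :=
    Set.Countable.biUnion (Finset.countable_toSet _) (fun H _ => hsp H)
  have h2 : {l : List (κ × ℚ) | ∀ x ∈ l, x.1 ∈ F}.Countable := by
    refine (countable_range (fun l : List (F × ℚ) => l.map (fun x => (x.1.1, x.2)))).mono ?_
    intro l hl
    refine ⟨l.attach.map (fun x => (⟨x.1.1, hl x.1 x.2⟩, x.1.2)), ?_⟩
    simp only [List.map_map]
    conv_rhs => rw [← List.attach_map_subtype_val l]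
    rfl
  refine (h1.prod (h2.prod (countable_univ (α := ℕ × ℚ × List ℚ)))).mono ?_
  rintro ⟨p, l, r⟩ ht
  have ht' : sp p ∪ (l.map Prod.fst).toFinset = F := ht
  refine ⟨?_, ?_, mem_univ _⟩
  · simp only [mem_iUnion]
    refine ⟨sp p, Finset.mem_powerset.2 ?_, rfl⟩
    rw [← ht']
    exact Finset.subset_union_left
  · intro x hx
    rw [← ht']
    exact Finset.mem_union_right _ (List.mem_toFinset.2 (List.mem_map.2 ⟨x, hx, rfl⟩))

theorem open_refl {P : Type*} (sp : P → Finset κ) (hsp : ∀ F, {p | sp p = F}.Countable)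
    (nn : P → ℕ) (W : ∀ p : P, (Fin (nn p) → κ) → Set (Ball κ)) :
    Club (fun A : Set κ => ∀ p, (sp p : Set κ) ⊆ A → 0 < nn p → ∀ c : Fin (nn p) → κ,
      Function.Injective c → (∀ j, c j ∉ A) → ∀ Z : Ball κ, Z ∈ interior (W p c) →
      ∃ (s : ℕ → Fin (nn p) → κ) (v : ℕ → Ball κ) (Q : ℕ → Set κ) (F : Finset κ),
        (∀ i, Function.Injective (s i)) ∧ (∀ i, range (s i) ⊆ Q i) ∧ (∀ i, (Q i).Finite) ∧
        (∀ i, Q i ⊆ A) ∧ Pairwise (fun i j => Disjoint (Q i) (Q j)) ∧ (∀ i, v i ∈ BA (Q i)) ∧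
        (∀ i, nm (v i) ≤ Ball.mass Aᶜ Z) ∧ (F : Set κ) ⊆ A ∧
        ∀ᶠ i in atTop, ∀ Y : Ball κ, (∀ k ∈ F, Y k = Z k) → (∀ k ∈ Q i, Y k = Z k + v i k) →
          Y ∈ W p (s i)) := by
  classical
  let P' := P × List (κ × ℚ) × ℕ × ℚ × List ℚ
  let sp' : P' → Finset κ := fun t => sp t.1 ∪ (t.2.1.map Prod.fst).toFinset
  have hsp' : ∀ F, {t | sp' t = F}.Countable := fun F => openRefl_fibre sp hsp F
  let nn' : P' → ℕ := fun t => nn t.1 + t.2.2.1
  let R' : ∀ t : P', (Fin (nn' t) → κ) → Prop := fun t c' =>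
    Function.Injective c' ∧ ∀ Y : Ball κ, (∀ e ∈ t.2.1, |Y e.1 - e.2| < 2 * t.2.2.2.1) →
      (∀ j : Fin (nn' t), |Y (c' j) - t.2.2.2.2.getD j 0| < 2 * t.2.2.2.1) →
        Y ∈ W t.1 (fun j => c' (Fin.castAdd t.2.2.1 j))
  refine (refl_tuple sp' hsp' nn' R').mono ?_
  intro A hA p hp hn c hc hcA Z hZ
  obtain ⟨G, δ₀, hδ₀, hG⟩ := mem_nhds_ball (mem_interior_iff_mem_nhds.1 hZ)
  obtain ⟨δ, hδ, hδ3⟩ : ∃ δ : ℚ, (0 : ℝ) < δ ∧ 3 * (δ : ℝ) < δ₀ := by
    obtain ⟨δ, h1, h2⟩ := exists_rat_btwn (show (0 : ℝ) < δ₀ / 3 by positivity)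
    exact ⟨δ, h1, by linarith⟩
  choose q hq using fun k : κ => openRefl_near (Z k) hδ
  set G1 : Finset κ := G.filter (· ∈ A) with hG1
  set G2 : Finset κ := (G.filter (· ∉ A)) \ (Finset.univ.image c) with hG2
  have hG2m : ∀ k ∈ G2, k ∉ A ∧ k ∉ Finset.univ.image c := by
    intro k hk
    rw [hG2, Finset.mem_sdiff, Finset.mem_filter] at hk
    exact ⟨hk.1.2, hk.2⟩
  set m := G2.card with hm
  let e : Fin m ≃ G2 := G2.equivFin.symm
  let c' : Fin (nn p + m) → κ := Fin.append c (fun j => (e j).1)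
  have hc'l : ∀ j, c' (Fin.castAdd m j) = c j := fun j => Fin.append_left _ _ _
  have hc'r : ∀ j, c' (Fin.natAdd (nn p) j) = (e j).1 := fun j => Fin.append_right _ _ _
  have hc'A : ∀ j, c' j ∉ A := by
    intro j
    refine Fin.addCases (fun j => ?_) (fun j => ?_) j
    · rw [hc'l]; exact hcA j
    · rw [hc'r]
      exact (hG2m _ (e j).2).1
  have hc'i : Function.Injective c' := by
    have hne : ∀ (j : Fin (nn p)) (j' : Fin m), c j ≠ (e j').1 := by
      intro j j' h
      exact (hG2m _ (e j').2).2 (Finset.mem_image.2 ⟨j, Finset.mem_univ _, h⟩)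
    intro a
    refine Fin.addCases (fun a => ?_) (fun a => ?_) a
    · intro b
      refine Fin.addCases (fun b => ?_) (fun b => ?_) b
      · rw [hc'l, hc'l]; intro h; rw [hc h]
      · rw [hc'l, hc'r]; intro h; exact absurd h (hne _ _)
    · intro b
      refine Fin.addCases (fun b => ?_) (fun b => ?_) b
      · rw [hc'l, hc'r]; intro h; exact absurd h.symm (hne _ _)
      · rw [hc'r, hc'r]; intro h; rw [e.injective (Subtype.ext h)]
  let l : List (κ × ℚ) := G1.toList.map (fun k => (k, q k))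
  let vl : List ℚ := List.ofFn (fun j => q (c' j))
  have hvl : ∀ j : Fin (nn p + m), vl.getD j 0 = q (c' j) := by
    intro j
    simp [vl, List.getD_eq_getElem?_getD]
  let t : P' := (p, l, m, δ, vl)
  have hR : R' t c' := by
    refine ⟨hc'i, fun Y h1 h2 => ?_⟩
    have e1 : (fun j => c' (Fin.castAdd m j)) = c := funext hc'l
    change Y ∈ W p (fun j => c' (Fin.castAdd m j))
    rw [e1]
    refine hG Y fun k hk => ?_
    have key : |Y k - q k| < 2 * (δ : ℝ) := by
      by_cases hkA : k ∈ A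
      · exact h1 (k, q k) (List.mem_map.2 ⟨k, Finset.mem_toList.2 (Finset.mem_filter.2 ⟨hk, hkA⟩), rfl⟩)
      · obtain ⟨j, rfl⟩ : ∃ j, c' j = k := by
          by_cases hkc : k ∈ Finset.univ.image c
          · obtain ⟨j, -, hj⟩ := Finset.mem_image.1 hkc
            exact ⟨Fin.castAdd m j, by rw [hc'l, hj]⟩
          · have hk2 : k ∈ G2 := by
              rw [hG2, Finset.mem_sdiff, Finset.mem_filter]; exact ⟨⟨hk, hkA⟩, hkc⟩
            exact ⟨Fin.natAdd (nn p) (e.symm ⟨k, hk2⟩), by rw [hc'r, e.apply_symm_apply]⟩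
        have := h2 j
        change |Y (c' j) - ((vl.getD j 0 : ℚ) : ℝ)| < 2 * (δ : ℝ) at this
        rwa [hvl] at this
    have h3 : |(q k : ℝ) - Z k| < δ := (hq k).1
    calc |Y k - Z k| = |(Y k - q k) + (q k - Z k)| := by ring_nf
      _ ≤ |Y k - q k| + |(q k : ℝ) - Z k| := abs_add_le _ _
      _ < δ₀ := by linarith
  have hspt : (sp' t : Set κ) ⊆ A := by
    intro k hk
    have hk' : k ∈ sp p ∪ (l.map Prod.fst).toFinset := hk
    rw [Finset.mem_union, List.mem_toFinset, List.mem_map] at hk'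
    rcases hk' with h | ⟨x, hx, rfl⟩
    · exact hp h
    · obtain ⟨k', hk', rfl⟩ := List.mem_map.1 hx
      exact (Finset.mem_filter.1 (Finset.mem_toList.1 hk')).2
  obtain ⟨s', hs'R, hs'A, hs'd⟩ := hA t hspt c' hR (by change 0 < nn p + m; omega) hc'A
  have hsumc : ∑ j, |(q (c' j) : ℝ)| ≤ Ball.mass Aᶜ Z := by
    calc ∑ j, |(q (c' j) : ℝ)| ≤ ∑ j, |Z (c' j)| := Finset.sum_le_sum fun j _ => (hq _).2
      _ = ∑ k ∈ Finset.univ.image c', |Z k| := by
        rw [Finset.sum_image (fun a _ b _ h => hc'i h)]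
      _ ≤ Ball.mass Aᶜ Z := Ball.sum_le_mass Z _ (by
        intro k hk
        obtain ⟨j, -, rfl⟩ := Finset.mem_image.1 hk
        exact hc'A j)
  have hs'i : ∀ i, Function.Injective (s' i) := fun i => (hs'R i).1
  let vf : ℕ → κ → ℝ := fun i k => ∑ j : Fin (nn p + m), if s' i j = k then (q (c' j) : ℝ) else 0
  have hvfs : ∀ i j, vf i (s' i j) = q (c' j) := by
    intro i j
    simp only [vf]
    rw [Finset.sum_eq_single j]
    · simp
    · intro b _ hb
      rw [if_neg]
      exact fun h => hb (hs'i i h)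
    · intro h; exact absurd (Finset.mem_univ _) h
  have hvfsum : ∀ i (u : Finset κ), ∑ k ∈ u, |vf i k| ≤ Ball.mass Aᶜ Z := by
    intro i u
    calc ∑ k ∈ u, |vf i k| ≤ ∑ k ∈ u, ∑ j : Fin (nn p + m), if s' i j = k then |(q (c' j) : ℝ)| else 0 := by
          refine Finset.sum_le_sum fun k _ => (Finset.abs_sum_le_sum_abs _ _).trans ?_
          refine Finset.sum_le_sum fun j _ => ?_
          split_ifs <;> simp
      _ = ∑ j : Fin (nn p + m), ∑ k ∈ u, if s' i j = k then |(q (c' j) : ℝ)| else 0 := Finset.sum_comm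
      _ ≤ ∑ j : Fin (nn p + m), |(q (c' j) : ℝ)| := by
          refine Finset.sum_le_sum fun j _ => ?_
          rw [Finset.sum_ite_eq]
          split_ifs
          · exact le_rfl
          · exact abs_nonneg _
      _ ≤ _ := hsumc
  let v : ℕ → Ball κ := fun i => Ball.mk' (vf i) (fun u => (hvfsum i u).trans (Ball.mass_le_one _ _))
  refine ⟨fun i j => s' i (Fin.castAdd m j), v, fun i => range (s' i), G1, ?_, ?_, ?_, ?_, hs'd,
    ?_, ?_, ?_, ?_⟩
  · intro i a b h
    exact Fin.castAdd_injective _ _ (hs'i i h)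
  · rintro i _ ⟨j, rfl⟩
    exact mem_range_self _
  · exact fun i => finite_range _
  · rintro i _ ⟨j, rfl⟩
    exact hs'A i j
  · intro i
    rw [mem_BA]
    intro k hk
    change vf i k = 0
    refine Finset.sum_eq_zero fun j _ => if_neg fun h => hk ⟨j, h⟩
  · intro i
    rw [nm, Ball.mass_le_iff]
    intro u _
    exact hvfsum i u
  · intro k hk
    exact (Finset.mem_filter.1 hk).2
  · have hlim := Ball.mass_disjoint_tendsto_zero (fun i => range (s' i)) hs'd Z
    filter_upwards [hlim.eventually (gt_mem_nhds hδ)] with i hi Y hY1 hY2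
    refine (hs'R i).2 Y ?_ ?_
    · intro x hx
      obtain ⟨k, hk, rfl⟩ := List.mem_map.1 hx
      have hk' : k ∈ G1 := Finset.mem_toList.1 hk
      change |Y k - q k| < 2 * (δ : ℝ)
      rw [hY1 k hk', abs_sub_comm]
      have := (hq k).1
      linarith
    · intro j
      change |Y (s' i j) - ((vl.getD j 0 : ℚ) : ℝ)| < 2 * (δ : ℝ)
      have h1 : Y (s' i j) = Z (s' i j) + vf i (s' i j) := hY2 _ (mem_range_self _)
      rw [h1, hvfs, hvl, add_sub_cancel_right]
      have := Ball.abs_le_mass Z (mem_range_self (f := s' i) j)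
      linarith

end Pool.Agent.ZDB

end

section

/-!
# ZDB/RetA : properties of the retractions (README 1.3), first half
rho_spec: by definition (Classical.choose).  P_A f := V((T f)∘res A) = f∘ρ_A; res A ∘ res A' = res A = res A' ∘ res A for A ⊆ A' gives
P_A P_A' = P_A' P_A = P_A, and C(L) separates points.  nu_res_le: S.nuF (res A y) f = (T f)(res A y) = T(f∘ρ_A)(y), use `vm_le_map`;
lam_rho_le: S.lamF (ρ_A l) g = (V g)(ρ_A l) = V(g∘res A)(l).  nu_compl_LA: y = res A y, so nu y ≤ (nu y).map ρ_A and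
ρ_A⁻¹((LA A)ᶜ) = ∅.  D_mono: if ρ_{B₀}l = ρ_{B₁}l =: m (B₀⊆A₀⊆A₁⊆B₁) then ρ_{A₁}l = ρ_{A₁}ρ_{B₁}l = ρ_{A₁}ρ_{B₀}l = ρ_{B₀}l, same for A₀.
-/

open Set Filter Topology MeasureTheory Pool.Agent.H53.ZD

namespace Pool.Agent.ZDB

variable {κ L : Type*} [TopologicalSpace L] [CompactSpace L] [T2Space L] [TotallyDisconnectedSpace L]
  [MeasurableSpace L] [BorelSpace L]

/-- continuous functions separate the points of a compact Hausdorff space -/
theorem RetA.sep {X : Type*} [TopologicalSpace X] [CompactSpace X] [T2Space X]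
    {x y : X} (h : ∀ f : C(X, ℝ), f x = f y) : x = y := by
  by_contra hne
  obtain ⟨f, hf0, hf1, _⟩ := exists_continuous_zero_one_of_isClosed
    (isClosed_singleton (x := x)) (isClosed_singleton (x := y))
    (Set.disjoint_singleton.2 hne)
  have h0 : f x = 0 := hf0 (mem_singleton x)
  have h1 : f y = 1 := hf1 (mem_singleton y)
  have := h f
  rw [h0, h1] at this
  exact zero_ne_one this

namespace Sys

variable (S : Sys κ L) {A A' A₀ A₁ : Set κ}

theorem rho_spec (hA : S.Ret A) (f : C(L, ℝ)) :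
    S.T.symm ((S.T f).comp (resC A)) = f.comp (S.rho A) := by
  have h : ∃ ρ, S.IsRet A ρ := hA.2
  unfold rho
  rw [dif_pos h]
  exact h.choose_spec f

theorem T_comp_rho (hA : S.Ret A) (f : C(L, ℝ)) :
    S.T (f.comp (S.rho A)) = (S.T f).comp (resC A) := by
  rw [← S.rho_spec hA f, ContinuousLinearEquiv.apply_symm_apply]

theorem V_comp_res (hA : S.Ret A) (g : C(Ball κ, ℝ)) :
    S.T.symm (g.comp (resC A)) = (S.T.symm g).comp (S.rho A) := by
  have h := S.rho_spec hA (S.T.symm g)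
  rwa [ContinuousLinearEquiv.apply_symm_apply] at h

theorem rho_eq_of_isRet {ρ : C(L, L)} (h : S.IsRet A ρ) : S.rho A = ρ := by
  have h' : ∃ ρ, S.IsRet A ρ := ⟨ρ, h⟩
  have h1 : S.IsRet A (S.rho A) := by
    unfold rho
    rw [dif_pos h']
    exact h'.choose_spec
  ext l
  apply RetA.sep
  intro f
  have h2 := (h1 f).symm.trans (h f)
  exact congrArg (fun g : C(L, ℝ) => g l) h2

theorem rho_rho (hA : S.Ret A) (hA' : S.Ret A') (h : A ⊆ A') (l : L) :
    S.rho A (S.rho A' l) = S.rho A l := by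
  apply RetA.sep
  intro f
  have h1 : (f.comp (S.rho A)).comp (S.rho A') = f.comp (S.rho A) := by
    rw [← S.rho_spec hA' (f.comp (S.rho A)), S.T_comp_rho hA f, ← S.rho_spec hA f]
    congr 1
    ext y
    change S.T f (Ball.res A (Ball.res A' y)) = S.T f (Ball.res A y)
    rw [Ball.res_eq_of_subset h]
  exact congrArg (fun g : C(L, ℝ) => g l) h1

theorem rho_rho' (hA : S.Ret A) (hA' : S.Ret A') (h : A ⊆ A') (l : L) :
    S.rho A' (S.rho A l) = S.rho A l := by
  apply RetA.sep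
  intro f
  have h1 : (f.comp (S.rho A')).comp (S.rho A) = f.comp (S.rho A) := by
    rw [← S.rho_spec hA (f.comp (S.rho A')), S.T_comp_rho hA' f, ← S.rho_spec hA f]
    congr 1
    ext y
    change S.T f (Ball.res A' (Ball.res A y)) = S.T f (Ball.res A y)
    rw [Ball.res_eq_of_subset' h]
  exact congrArg (fun g : C(L, ℝ) => g l) h1

theorem rho_idem (hA : S.Ret A) (l : L) : S.rho A (S.rho A l) = S.rho A l :=
  S.rho_rho hA hA (Subset.refl A) l

theorem nu_res_le (hA : S.Ret A) (y : Ball κ) :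
    S.nu (Ball.res A y) ≤ (S.nu y).map (S.rho A) := by
  unfold nu
  apply vm_le_map (S.rho A) (S.nuF y) (S.nuF (Ball.res A y))
  intro f
  rw [S.nuF_apply, S.nuF_apply, S.T_comp_rho hA f]
  rfl

theorem nu_res_real (hA : S.Ret A) (y : Ball κ) {U : Set L} (hU : MeasurableSet U) :
    (S.nu (Ball.res A y)).real U ≤ (S.nu y).real (S.rho A ⁻¹' U) := by
  have h := S.nu_res_le hA y U
  rw [Measure.map_apply (S.rho A).continuous.measurable hU] at h
  exact ENNReal.toReal_mono (measure_ne_top _ _) h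

theorem lam_rho_le (hA : S.Ret A) (l : L) :
    S.lam (S.rho A l) ≤ (S.lam l).map (Ball.res A) := by
  unfold lam
  apply vm_le_map (resC A) (S.lamF l) (S.lamF (S.rho A l))
  intro g
  rw [S.lamF_apply, S.lamF_apply, S.V_comp_res hA g]
  rfl

theorem lam_rho_real (hA : S.Ret A) (l : L) {W : Set (Ball κ)} (hW : MeasurableSet W) :
    (S.lam (S.rho A l)).real W ≤ (S.lam l).real (Ball.res A ⁻¹' W) := by
  have h := S.lam_rho_le hA l W
  rw [Measure.map_apply (Ball.continuous_res A).measurable hW] at h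
  exact ENNReal.toReal_mono (measure_ne_top _ _) h

theorem rho_mem_LA (hA : S.Ret A) (l : L) : S.rho A l ∈ S.LA A := S.rho_idem hA l

theorem isClosed_LA (A : Set κ) : IsClosed (S.LA A) :=
  isClosed_eq (S.rho A).continuous continuous_id

theorem LA_mono (hA : S.Ret A) (hA' : S.Ret A') (h : A ⊆ A') : S.LA A ⊆ S.LA A' := by
  intro l hl
  have h1 : S.rho A l = l := hl
  change S.rho A' l = l
  rw [← h1, S.rho_rho' hA hA' h]

theorem nu_compl_LA (hA : S.Ret A) {y : Ball κ} (hy : y ∈ BA A) : S.nu y (S.LA A)ᶜ = 0 := by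
  have h1 : Ball.res A y = y := hy
  have h := S.nu_res_le hA y (S.LA A)ᶜ
  rw [h1, Measure.map_apply (S.rho A).continuous.measurable
    (S.isClosed_LA A).isOpen_compl.measurableSet] at h
  have h2 : S.rho A ⁻¹' (S.LA A)ᶜ = ∅ := by
    ext l
    simp only [mem_preimage, mem_compl_iff, mem_empty_iff_false, iff_false, not_not]
    exact S.rho_mem_LA hA l
  rw [h2, measure_empty] at h
  exact nonpos_iff_eq_zero.1 h

theorem lam_compl_BA (hA : S.Ret A) {l : L} (hl : l ∈ S.LA A) : S.lam l (BA A)ᶜ = 0 := by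
  have h1 : S.rho A l = l := hl
  have h := S.lam_rho_le hA l (BA A)ᶜ
  rw [h1, Measure.map_apply (Ball.continuous_res A).measurable
    (isClosed_BA A).isOpen_compl.measurableSet] at h
  have h2 : Ball.res A ⁻¹' (BA A)ᶜ = ∅ := by
    ext y
    simp only [mem_preimage, mem_compl_iff, mem_empty_iff_false, iff_false, not_not]
    exact res_mem_BA A y
  rw [h2, measure_empty] at h
  exact nonpos_iff_eq_zero.1 h

theorem isOpen_D (A₀ A₁ : Set κ) : IsOpen (S.D A₀ A₁) :=
  (isClosed_eq (S.rho A₀).continuous (S.rho A₁).continuous).isOpen_compl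

theorem D_mono {B₀ B₁ : Set κ} (hB₀ : S.Ret B₀) (hA₀ : S.Ret A₀) (hA₁ : S.Ret A₁)
    (hB₁ : S.Ret B₁) (h₀ : B₀ ⊆ A₀) (h : A₀ ⊆ A₁) (h₁ : A₁ ⊆ B₁) :
    S.D A₀ A₁ ⊆ S.D B₀ B₁ := by
  intro l hl hB
  apply hl
  have e1 : S.rho A₁ l = S.rho B₀ l := by
    rw [← S.rho_rho hA₁ hB₁ h₁ l, ← hB, S.rho_rho' hB₀ hA₁ (h₀.trans h)]
  have e0 : S.rho A₀ l = S.rho B₀ l := by
    rw [← S.rho_rho hA₀ hB₁ (h.trans h₁) l, ← hB, S.rho_rho' hB₀ hA₀ h₀]
  rw [e0, e1]

theorem rho_mem_D (hA₀ : S.Ret A₀) (hA₁ : S.Ret A₁) (hA' : S.Ret A') (h : A₀ ⊆ A₁)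
    (h' : A₁ ⊆ A') (l : L) : S.rho A' l ∈ S.D A₀ A₁ ↔ l ∈ S.D A₀ A₁ := by
  unfold D
  rw [mem_ofPred_eq, mem_ofPred_eq, S.rho_rho hA₀ hA' (h.trans h'), S.rho_rho hA₁ hA' h']

theorem notMem_D (hA₀ : S.Ret A₀) (hA₁ : S.Ret A₁) (h : A₀ ⊆ A₁) {l : L} (hl : l ∈ S.LA A₀) :
    l ∉ S.D A₀ A₁ := by
  intro hD
  apply hD
  have h1 : S.rho A₀ l = l := hl
  have h2 : S.rho A₁ l = l := S.LA_mono hA₀ hA₁ h hl
  rw [h1, h2]

end Sys

end Pool.Agent.ZDB

end

section

/-!
# ZDB/RetKey : V((T 1_O) ∘ res A) is {0,1}-valued for club many A   (README 1.3)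
For O clopen, l ∈ L, ε > 0 rational.  Club: reflection (`refl_tuple`) with parameters (n₀, p : Fin n₀ → κ, n', m, e : ℚ),
sp = range p, nn = n', R (n₀,p,n',m,e) c := ∃ O' clopen, ∀ y, |T(1_{O'}) y − dseq (n₀+n') m (cubePt (Fin.append p c) y)| ≤ e.
(countably many parameters with a given support.)  Let A be in the club, O clopen, e > 0 rational.  By `exists_code`
(with A = univ; resC univ = id) there are tuples p in A, c in Aᶜ, and m with |T 1_O − dseq (n₀+n') m (cubePt (append p c))| ≤ e.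
If n' = 0 then |T 1_O y − T 1_O (res A y)| ≤ 2e directly.  Otherwise there are disjoint tuples c_i in A and clopen O_i with
|T 1_{O_i} y − g(y∘p, y∘c_i)| ≤ e.  For fixed y: y∘c_i → 0 (Ball.mass_disjoint_tendsto_zero), and
|g(y∘p,0) − T 1_O(res A y)| ≤ e, so limsup_i |T 1_{O_i} y − T 1_O(res A y)| ≤ 2e.  Hence, by dominated convergence (all functions are
bounded by C) applied to max(|T 1_{O_i} y − T 1_O(res A y)| − 2e, 0) → 0 and `abs_V_le`:
limsup_i |1_{O_i}(l) − V(T 1_O ∘ res A)(l)| ≤ 2eC.  So V(T 1_O ∘ res A)(l) is within 2eC of {0,1} for every e.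
-/

open Set Filter Topology MeasureTheory Pool.Agent.H53.ZD

namespace Pool.Agent.ZDB

variable {κ L : Type*} [TopologicalSpace L] [CompactSpace L] [T2Space L] [TotallyDisconnectedSpace L]
  [MeasurableSpace L] [BorelSpace L]

private theorem tendsto_tuple {A : Set κ} {n n' : ℕ} {p : Fin n → κ} (hp : ∀ j, p j ∈ A)
    {c : Fin n' → κ} (hc : ∀ j, c j ∉ A) {s : ℕ → Fin n' → κ}
    (hs : Pairwise (fun i i' => Disjoint (range (s i)) (range (s i')))) (y : Ball κ) :
    Tendsto (fun i => cubePt (Fin.append p (s i)) y) atTop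
      (𝓝 (cubePt (Fin.append p c) (Ball.res A y))) := by
  rw [tendsto_pi_nhds]
  intro j
  rw [tendsto_subtype_rng]
  refine Fin.addCases (fun j => ?_) (fun j => ?_) j
  · simp only [cubePt, Fin.append_left]
    rw [Ball.res_of_mem y (hp j)]
    exact tendsto_const_nhds
  · simp only [cubePt, Fin.append_right]
    rw [Ball.res_of_notMem y (hc j)]
    refine squeeze_zero_norm (fun i => ?_)
      (Ball.mass_disjoint_tendsto_zero (fun i => range (s i)) hs y)
    rw [Real.norm_eq_abs]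
    exact Ball.abs_le_mass y ⟨j, rfl⟩

private theorem exists_enum (F : Finset κ) : ∃ p : Fin F.card → κ, range p = (F : Set κ) := by
  refine ⟨fun i => (F.equivFin.symm i : κ), ?_⟩
  ext x
  constructor
  · rintro ⟨i, rfl⟩
    exact (F.equivFin.symm i).2
  · intro hx
    refine ⟨F.equivFin ⟨x, hx⟩, ?_⟩
    simp

namespace Sys

variable (S : Sys κ L)

private theorem cind_zero_or_one {O : Set L} (hO : IsClopen O) (l : L) :
    cind O l = 0 ∨ cind O l = 1 := by
  by_cases h : l ∈ O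
  · exact Or.inr (cind_of_mem hO h)
  · exact Or.inl (cind_of_notMem h)

/-- the approximation step -/
private theorem approx_step {A : Set κ} {O : Set L} {n n' : ℕ} {p : Fin n → κ}
    (hp : ∀ j, p j ∈ A) {c : Fin n' → κ} (hc : ∀ j, c j ∉ A) {s : ℕ → Fin n' → κ}
    (hs : Pairwise (fun i i' => Disjoint (range (s i)) (range (s i')))) {e : ℝ} (he : 0 < e)
    {g : C(Cube (n + n'), ℝ)}
    (hg : ∀ y, |S.T (cind O) y - g (cubePt (Fin.append p c) y)| ≤ e)
    {U : ℕ → Set L}
    (hU' : ∀ i y, |S.T (cind (U i)) y - g (cubePt (Fin.append p (s i)) y)| ≤ e) (l : L) :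
    ∃ i, |cind (U i) l - S.T.symm ((S.T (cind O)).comp (resC A)) l| ≤ (2 * S.C + 1) * e := by
  -- the error functions
  obtain ⟨h, hh⟩ : ∃ h : ℕ → Ball κ → ℝ, h = fun i y => |g (cubePt (Fin.append p (s i)) y) -
      g (cubePt (Fin.append p c) (Ball.res A y))| := ⟨_, rfl⟩
  have hcont : ∀ i, Continuous (h i) := by
    intro i
    rw [hh]
    exact ((g.continuous.comp (continuous_cubePt _)).sub
      (g.continuous.comp ((continuous_cubePt _).comp (Ball.continuous_res A)))).abs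
  obtain ⟨M, hM⟩ : ∃ M : ℝ, ∀ z, |g z| ≤ M := ⟨‖g‖, fun z => g.norm_coe_le_norm z⟩
  have hbd : ∀ i y, |h i y| ≤ M + M := by
    intro i y
    rw [hh]
    simp only [abs_abs]
    exact (abs_sub _ _).trans (add_le_add (hM _) (hM _))
  have hlim : Tendsto (fun i => ∫ y, h i y ∂(S.lam l)) atTop (𝓝 (∫ _, (0 : ℝ) ∂(S.lam l))) := by
    refine tendsto_integral_of_dominated_convergence (fun _ => M + M)
      (fun i => (hcont i).measurable.aestronglyMeasurable) (integrable_const _)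
      (fun i => Eventually.of_forall fun y => by
        rw [Real.norm_eq_abs]; exact hbd i y) (Eventually.of_forall fun y => ?_)
    have h1 := (g.continuous.tendsto _).comp (tendsto_tuple hp hc hs y)
    have h2 := (h1.sub_const (g (cubePt (Fin.append p c) (Ball.res A y)))).abs
    rw [sub_self, abs_zero] at h2
    rw [hh]
    exact h2
  rw [integral_zero] at hlim
  obtain ⟨i, hi⟩ := (hlim.eventually (gt_mem_nhds he)).exists
  refine ⟨i, ?_⟩
  have h1 : cind (U i) l - S.T.symm ((S.T (cind O)).comp (resC A)) l =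
      S.T.symm (S.T (cind (U i)) - (S.T (cind O)).comp (resC A)) l := by
    rw [map_sub, ContinuousLinearEquiv.symm_apply_apply]
    rfl
  rw [h1]
  refine (S.abs_V_le _ l).trans ?_
  have hint : Integrable (h i) (S.lam l) := integrable_bdd _ (hcont i).measurable _ (hbd i)
  have h2 : ∫ y, |(S.T (cind (U i)) - (S.T (cind O)).comp (resC A)) y| ∂(S.lam l) ≤
      ∫ y, (2 * e + h i y) ∂(S.lam l) := by
    refine integral_mono_of_nonneg (Eventually.of_forall fun y => abs_nonneg _)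
      ((integrable_const _).add hint) (Eventually.of_forall fun y => ?_)
    have h3 := hU' i y
    have h4 := hg (Ball.res A y)
    have h5 : (S.T (cind (U i)) - (S.T (cind O)).comp (resC A)) y =
        (S.T (cind (U i)) y - g (cubePt (Fin.append p (s i)) y)) +
        (g (cubePt (Fin.append p (s i)) y) - g (cubePt (Fin.append p c) (Ball.res A y))) -
        (S.T (cind O) (Ball.res A y) - g (cubePt (Fin.append p c) (Ball.res A y))) := by
      show S.T (cind (U i)) y - S.T (cind O) (Ball.res A y) = _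
      ring
    show |(S.T (cind (U i)) - (S.T (cind O)).comp (resC A)) y| ≤ 2 * e + h i y
    rw [h5]
    refine (abs_sub _ _).trans ?_
    have h6 := abs_add_le (S.T (cind (U i)) y - g (cubePt (Fin.append p (s i)) y))
      (g (cubePt (Fin.append p (s i)) y) - g (cubePt (Fin.append p c) (Ball.res A y)))
    have h7 : h i y = |g (cubePt (Fin.append p (s i)) y) -
      g (cubePt (Fin.append p c) (Ball.res A y))| := by rw [hh]
    rw [h7]
    linarith
  refine h2.trans ?_
  rw [integral_add (integrable_const _) hint, integral_const, smul_eq_mul]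
  have h3 := mul_le_mul_of_nonneg_right (S.lam_univ_le l) (by positivity : 0 ≤ 2 * e)
  linarith

theorem club_key : Club (fun A : Set κ => ∀ O : Set L, IsClopen O → ∀ l,
    S.T.symm ((S.T (cind O)).comp (resC A)) l = 0 ∨
      S.T.symm ((S.T (cind O)).comp (resC A)) l = 1) := by
  classical
  have key := refl_tuple (κ := κ) (P := FCode κ × ℕ × ℕ) (fun q => q.1.supp)
    (fun F => by
      have h1 : {q : FCode κ × ℕ × ℕ | q.1.supp = F} =
          {c : FCode κ | c.supp = F} ×ˢ univ := by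
        ext q
        simp
      rw [h1]
      exact (FCode.fibre_countable F).prod countable_univ)
    (fun q => q.2.1)
    (fun q x => ∃ O' : Set L, IsClopen O' ∧ ∀ y, |S.T (cind O') y -
      dseq (q.1.n + q.2.1) q.1.m (cubePt (Fin.append q.1.p x) y)| ≤ 1 / (q.2.2 + 1 : ℝ))
  refine key.mono fun A hA O hO l => ?_
  have hC := S.C_pos
  obtain ⟨v, hv⟩ : ∃ v, v = S.T.symm ((S.T (cind O)).comp (resC A)) l := ⟨_, rfl⟩
  rw [← hv]
  have hmain : ∀ k : ℕ, |v| ≤ (2 * S.C + 1) * (1 / (k + 1 : ℝ)) ∨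
      |v - 1| ≤ (2 * S.C + 1) * (1 / (k + 1 : ℝ)) := by
    intro k
    obtain ⟨e, he'⟩ : ∃ e : ℝ, e = 1 / (k + 1 : ℝ) := ⟨_, rfl⟩
    rw [← he']
    have he : 0 < e := by
      rw [he']
      positivity
    -- it suffices to find a clopen set with a close indicator
    suffices hs : ∃ U : Set L, IsClopen U ∧ |cind U l - v| ≤ (2 * S.C + 1) * e by
      obtain ⟨U, hU, hUv⟩ := hs
      rcases cind_zero_or_one hU l with h0 | h0
      · left
        rw [h0, zero_sub, abs_neg] at hUv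
        exact hUv
      · right
        rw [h0, abs_sub_comm] at hUv
        exact hUv
    obtain ⟨F, -, hF⟩ := exists_code (S.T (cind O)) univ (by
      ext y
      show S.T (cind O) (Ball.res univ y) = S.T (cind O) y
      congr 1
      ext i
      exact Ball.res_of_mem y (mem_univ i)) he
    obtain ⟨F₁, hF₁⟩ : ∃ F₁ : Finset κ, F₁ = F.filter (fun i => i ∈ A) := ⟨_, rfl⟩
    obtain ⟨F₂, hF₂⟩ : ∃ F₂ : Finset κ, F₂ = F.filter (fun i => i ∉ A) := ⟨_, rfl⟩
    obtain ⟨p, hp⟩ := exists_enum F₁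
    obtain ⟨c, hc⟩ := exists_enum F₂
    have hpA : ∀ j, p j ∈ A := by
      intro j
      have h1 : p j ∈ (F₁ : Set κ) := by
        rw [← hp]
        exact ⟨j, rfl⟩
      rw [hF₁, Finset.coe_filter] at h1
      exact h1.2
    have hcA : ∀ j, c j ∉ A := by
      intro j
      have h1 : c j ∈ (F₂ : Set κ) := by
        rw [← hc]
        exact ⟨j, rfl⟩
      rw [hF₂, Finset.coe_filter] at h1
      exact h1.2
    have hrange : (F : Set κ) ⊆ range (Fin.append p c) := by
      intro i hi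
      by_cases hiA : i ∈ A
      · have h1 : i ∈ range p := by
          rw [hp, hF₁, Finset.coe_filter]
          exact ⟨hi, hiA⟩
        obtain ⟨j, rfl⟩ := h1
        exact ⟨Fin.castAdd _ j, Fin.append_left _ _ _⟩
      · have h1 : i ∈ range c := by
          rw [hc, hF₂, Finset.coe_filter]
          exact ⟨hi, hiA⟩
        obtain ⟨j, rfl⟩ := h1
        exact ⟨Fin.natAdd _ j, Fin.append_right _ _ _⟩
    obtain ⟨m, hm⟩ := hF (F₁.card + F₂.card) (Fin.append p c) hrange (subset_univ _)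
    have hg : ∀ y, |S.T (cind O) y -
        dseq (F₁.card + F₂.card) m (cubePt (Fin.append p c) y)| ≤ e := fun y => (hm y).le
    rcases Nat.eq_zero_or_pos F₂.card with h0 | h0
    · -- all coordinates are in `A`
      refine ⟨O, hO, ?_⟩
      have hsame : ∀ y : Ball κ, cubePt (Fin.append p c) (Ball.res A y) =
          cubePt (Fin.append p c) y := by
        intro y
        ext j
        refine Fin.addCases (fun j => ?_) (fun j => ?_) j
        · simp only [cubePt, Fin.append_left]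
          rw [Ball.res_of_mem y (hpA j)]
        · exact absurd j.2 (by omega)
      have h1 : cind O l - v =
          S.T.symm (S.T (cind O) - (S.T (cind O)).comp (resC A)) l := by
        rw [map_sub, ContinuousLinearEquiv.symm_apply_apply, hv]
        rfl
      rw [h1]
      refine (S.hV _ (2 * e) (fun y => ?_) (by positivity) l).trans ?_
      · have h2 := hg y
        have h3 := hg (Ball.res A y)
        rw [hsame] at h3
        show |S.T (cind O) y - S.T (cind O) (Ball.res A y)| ≤ 2 * e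
        rw [abs_le] at h2 h3 ⊢
        constructor <;> linarith [h2.1, h2.2, h3.1, h3.2]
      · nlinarith
    · obtain ⟨s, hs1, hs2, hs3⟩ := hA (⟨F₁.card, p, m⟩, F₂.card, k) (by
        intro i hi
        simp only [FCode.supp, Finset.coe_image, Finset.coe_univ, image_univ] at hi
        obtain ⟨j, rfl⟩ := hi
        exact hpA j) c ⟨O, hO, fun y => by
          rw [← he']
          exact hg y⟩ h0 hcA
      choose U hU hU' using hs1
      obtain ⟨i, hi⟩ := S.approx_step (A := A) (O := O) hpA hcA hs3 he hg (U := U)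
        (fun i y => by
          have := hU' i y
          rw [he']
          exact this) l
      refine ⟨U i, hU i, ?_⟩
      rw [hv]
      exact hi
  by_contra hcon
  push Not at hcon
  obtain ⟨h0, h1⟩ := hcon
  have h2 : 0 < min |v| |v - 1| := lt_min (abs_pos.2 h0) (abs_pos.2 (sub_ne_zero.2 h1))
  obtain ⟨k, hk⟩ := exists_nat_one_div_lt (div_pos h2 (by positivity : 0 < 2 * S.C + 1))
  rw [lt_div_iff₀ (by positivity : 0 < 2 * S.C + 1)] at hk
  rcases hmain k with h3 | h3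
  · have := min_le_left |v| |v - 1|
    linarith
  · have := min_le_right |v| |v - 1|
    linarith

end Sys

end Pool.Agent.ZDB

end

section

/-!
# ZDB/RetB : properties of the retractions (README 1.3), second half: clopen sets of level A, upper sets
clop_iff: V((T 1_O)∘res A) = 1_O∘ρ_A = 1_{ρ_A⁻¹O} (rho_spec, cind_comp), and T 1_O∘res A = T 1_O iff 1_{ρ_A⁻¹O} = 1_O iff ρ_A⁻¹O = O.
Clop.mono: ρ_A ρ_A' = ρ_A: l ∈ O ⇔ ρ_A l ∈ O ⇔ ρ_A(ρ_A' l) ∈ O ⇔ ρ_A' l ∈ O.  Clop.upper: Clop.mono.  D_upper: rho_mem_D.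
Clop.subset_D: l ∈ E ⇒ ρ_{A₁}l ∈ E, while ρ_{A₀}l ∈ LA A₀ is not in E, so they differ.
lam_real_ge: lam_rho_real and res A⁻¹W ⊆ W.  nu_real_ge: nu_res_real and ρ_A⁻¹U ⊆ U.
-/

open Set Filter Topology MeasureTheory Pool.Agent.H53.ZD

namespace Pool.Agent.ZDB

variable {κ L : Type*} [TopologicalSpace L] [CompactSpace L] [T2Space L] [TotallyDisconnectedSpace L]
  [MeasurableSpace L] [BorelSpace L]

namespace Sys

variable (S : Sys κ L) {A A' A₀ A₁ : Set κ}

theorem clop_iff (hA : S.Ret A) {O : Set L} (hO : IsClopen O) : S.Clop A O ↔ S.LevC A O := by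
  unfold Clop LevC
  have h1 : (S.T (cind O)).comp (resC A) = S.T ((cind O).comp (S.rho A)) :=
    (S.T_comp_rho hA (cind O)).symm
  rw [h1, ← cind_comp (S.rho A) hO]
  constructor
  · rintro ⟨-, h⟩
    rw [h]
  · intro h
    exact ⟨hO, cind_injective (hO.preimage (S.rho A).continuous) hO (S.T.injective h)⟩

theorem Clop.mem_iff {O : Set L} (hO : S.Clop A O) (l : L) : S.rho A l ∈ O ↔ l ∈ O := by
  constructor
  · intro h
    rw [← hO.2]
    exact h
  · intro h
    rw [← hO.2] at h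
    exact h

theorem Clop.mono (hA : S.Ret A) (hA' : S.Ret A') (h : A ⊆ A') {O : Set L} (hO : S.Clop A O) :
    S.Clop A' O := by
  refine ⟨hO.1, ?_⟩
  ext l
  change S.rho A' l ∈ O ↔ l ∈ O
  rw [← Clop.mem_iff S hO (S.rho A' l), S.rho_rho hA hA' h l, Clop.mem_iff S hO l]

theorem clop_preimage (hA : S.Ret A) {O : Set L} (hO : IsClopen O) :
    S.Clop A (S.rho A ⁻¹' O) := by
  refine ⟨hO.preimage (S.rho A).continuous, ?_⟩
  ext l
  change S.rho A (S.rho A l) ∈ O ↔ S.rho A l ∈ O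
  rw [S.rho_idem hA]

theorem Clop.compl {O : Set L} (hO : S.Clop A O) : S.Clop A Oᶜ := by
  refine ⟨hO.1.compl, ?_⟩
  rw [preimage_compl, hO.2]
theorem Clop.inter {O O' : Set L} (hO : S.Clop A O) (hO' : S.Clop A O') : S.Clop A (O ∩ O') := by
  refine ⟨hO.1.inter hO'.1, ?_⟩
  rw [preimage_inter, hO.2, hO'.2]
theorem Clop.union {O O' : Set L} (hO : S.Clop A O) (hO' : S.Clop A O') : S.Clop A (O ∪ O') := by
  refine ⟨hO.1.union hO'.1, ?_⟩
  rw [preimage_union, hO.2, hO'.2]
theorem Clop.diff {O O' : Set L} (hO : S.Clop A O) (hO' : S.Clop A O') : S.Clop A (O \ O') := by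
  refine ⟨hO.1.diff hO'.1, ?_⟩
  rw [preimage_sdiff, hO.2, hO'.2]
theorem clop_univ (A : Set κ) : S.Clop A univ := ⟨isClopen_univ, preimage_univ⟩
theorem clop_empty (A : Set κ) : S.Clop A ∅ := ⟨isClopen_empty, preimage_empty⟩

theorem Clop.upper (hA : S.Ret A) {O : Set L} (hO : S.Clop A O) : S.Upper A O := by
  intro A' h hA' l hl
  exact (Clop.mem_iff S (Clop.mono S hA hA' h hO) l).1 hl

theorem D_upper (hA₀ : S.Ret A₀) (hA₁ : S.Ret A₁) (h : A₀ ⊆ A₁) : S.Upper A₁ (S.D A₀ A₁) := by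
  intro A' h' hA' l hl
  exact (S.rho_mem_D hA₀ hA₁ hA' h h' l).1 hl

theorem Upper.inter {U U' : Set L} (hU : S.Upper A U) (hU' : S.Upper A U') :
    S.Upper A (U ∩ U') := by
  intro A' h hA' l hl
  exact ⟨hU A' h hA' l hl.1, hU' A' h hA' l hl.2⟩

theorem Upper.mono {U : Set L} (hU : S.Upper A U) (h : A ⊆ A') : S.Upper A' U := by
  intro A'' h' hA'' l hl
  exact hU A'' (h.trans h') hA'' l hl

theorem Clop.subset_D (hA₀ : S.Ret A₀) (hA₁ : S.Ret A₁) (h : A₀ ⊆ A₁) {E : Set L}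
    (hE : S.Clop A₁ E) (hd : Disjoint E (S.LA A₀)) : E ⊆ S.D A₀ A₁ := by
  intro l hl heq
  have h1 : S.rho A₁ l ∈ E := (Clop.mem_iff S hE l).2 hl
  have h2 : S.rho A₀ l = S.rho A₁ l := heq
  rw [← h2] at h1
  exact Set.disjoint_left.1 hd h1 (S.rho_mem_LA hA₀ l)

/-- `(T 1_O)(res A y) = (T 1_O)(y)` for clopen sets of level `A` -/
theorem Clop.T_res (hA : S.Ret A) {O : Set L} (hO : S.Clop A O) (y : Ball κ) :
    S.T (cind O) (Ball.res A y) = S.T (cind O) y := by
  have h := (S.clop_iff hA hO.1).1 hO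
  have h1 := congrArg (fun g : C(Ball κ, ℝ) => g y) h
  exact h1

/-- for `l` over `l₀`: `|λ_l|` dominates `|λ_{l₀}|` on sets of level `A` -/
theorem lam_real_ge (hA : S.Ret A) {l l₀ : L} (hl : S.rho A l = l₀) {W : Set (Ball κ)}
    (hW : MeasurableSet W) (hlev : ∀ y, Ball.res A y ∈ W → y ∈ W) :
    (S.lam l₀).real W ≤ (S.lam l).real W := by
  rw [← hl]
  refine (S.lam_rho_real hA l hW).trans ?_
  exact measureReal_mono (fun y hy => hlev y hy) (measure_ne_top _ _)

/-- for `Y` over `y`: `|ν_Y|` dominates `|ν_y|` on upper sets -/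
theorem nu_real_ge (hA : S.Ret A) {Y y : Ball κ} (hY : Ball.res A Y = y) {U : Set L}
    (hU : MeasurableSet U) (hup : ∀ l, S.rho A l ∈ U → l ∈ U) :
    (S.nu y).real U ≤ (S.nu Y).real U := by
  rw [← hY]
  refine (S.nu_res_real hA Y hU).trans ?_
  exact measureReal_mono (fun l hl => hup l hl) (measure_ne_top _ _)

end Sys

end Pool.Agent.ZDB

end

section

/-!
# ZDB/RetCof : retractions exist for club many A
Intersect `club_key`, the club of `CloCode.exists_levC univ` (cind univ = 1; `Club.superset`), and use `exists_isRet`; the sets of a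
ClubFam are countable.  retCof: `Club.exists`.
-/

open Set Filter Topology MeasureTheory Pool.Agent.H53.ZD

namespace Pool.Agent.ZDB

variable {κ L : Type*} [TopologicalSpace L] [CompactSpace L] [T2Space L] [TotallyDisconnectedSpace L]
  [MeasurableSpace L] [BorelSpace L]

namespace Sys

variable (S : Sys κ L)

theorem club_ret : Club S.Ret := by
  obtain ⟨A0, hA0, h0⟩ := S.exists_levC (univ : Set L)
  obtain ⟨𝒢, h𝒢⟩ := S.club_key.and (Club.superset A0 hA0)
  refine ⟨𝒢, fun A hA => ⟨𝒢.countable A hA, S.exists_isRet (h𝒢 A hA).1 ?_⟩⟩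
  have h1 := h0 A (h𝒢 A hA).2
  unfold LevC at h1
  rwa [cind_univ] at h1

theorem retCof : S.RetCof := by
  intro A hA
  obtain ⟨A', h1, -, h2⟩ := S.club_ret.exists hA
  exact ⟨A', h1, h2⟩

end Sys

end Pool.Agent.ZDB

end

section

/-!
# ZDB/RetBasic : RetA and RetB
-/

open Set Filter Topology MeasureTheory Pool.Agent.H53.ZD

namespace Pool.Agent.ZDB



end Pool.Agent.ZDB

end

section

/-!
# ZDB/WRefl : unbounded reflection of w-objects
Club: Ret and refl_unbdd_tuple with parameters (co : FCode κ, t : WType κ, e : ℚ), sp = co.supp ∪ range t.p (countably many parameters with a given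
support), nn = t.n₁, R c := ∃ O E, Coded co O ∧ WObj t O e c E.  Given O ∈ Clop b: clop_iff and exists_coded give a code co with support in b; the O in R
is the same by coded_unique.
-/

open Set Filter Topology MeasureTheory Pool.Agent.H53.ZD

namespace Pool.Agent.ZDB

variable {κ L : Type*} [TopologicalSpace L] [CompactSpace L] [T2Space L] [TotallyDisconnectedSpace L]
  [MeasurableSpace L] [BorelSpace L]

namespace Sys

variable (S : Sys κ L)

/-- `w`-objects of type `t` -/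
def WObj (t : WType κ) (O : Set L) (e : ℝ) (c : Fin t.n₁ → κ) (E : Set L) : Prop :=
  Function.Injective c ∧ IsClopen E ∧ E ⊆ O ∧ ∀ y, |S.T (cind E) y - t.phi y (pull c y)| ≤ e

/-- unbounded reflection of `w`-objects at level `b` -/
def WRefl (b : Set κ) : Prop :=
  ∀ O, S.Clop b O → ∀ t : WType κ, range t.p ⊆ b → ∀ e : ℚ, 0 < t.n₁ → ∀ c E,
    S.WObj t O e c E → (∀ j, c j ∉ b) → ∀ A : Set κ, A.Countable →
      ∃ c' E', S.WObj t O e c' E' ∧ ∀ j, c' j ∉ A

private theorem wtype_countable (F : Finset κ) : {t : WType κ | range t.p ⊆ (F : Set κ)}.Countable := by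
  refine (countable_range (fun z : (Σ n : ℕ, (Fin n → F) × ℕ × ℕ) =>
    (⟨z.1, fun i => (z.2.1 i : κ), z.2.2.1, z.2.2.2⟩ : WType κ))).mono ?_
  rintro ⟨n₀, p, n₁, m⟩ hc
  have hp : ∀ i, p i ∈ F := fun i => Finset.mem_coe.1 (hc (mem_range_self i))
  exact ⟨⟨n₀, (fun i => ⟨p i, hp i⟩, n₁, m)⟩, rfl⟩

theorem club_wrefl : Club S.WRefl := by
  classical
  set sp : (FCode κ × WType κ × ℚ) → Finset κ :=
    fun p => p.1.supp ∪ Finset.univ.image p.2.1.p with hsp_def
  have hsp : ∀ F, {p | sp p = F}.Countable := by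
    intro F
    have h1 := FCode.countable_of_supp (F : Set κ) F.countable_toSet
    have h2 := wtype_countable (κ := κ) F
    refine (h1.prod (h2.prod (countable_univ : (univ : Set ℚ).Countable))).mono ?_
    rintro ⟨c, t, e⟩ hp
    have hp' : c.supp ∪ Finset.univ.image t.p = F := hp
    refine ⟨?_, ?_, mem_univ _⟩
    · change (c.supp : Set κ) ⊆ (F : Set κ)
      rw [← hp', Finset.coe_union]
      exact subset_union_left
    · change range t.p ⊆ (F : Set κ)
      rintro _ ⟨i, rfl⟩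
      rw [← hp', Finset.mem_coe, Finset.mem_union]
      exact Or.inr (Finset.mem_image_of_mem _ (Finset.mem_univ i))
  have key := refl_unbdd_tuple sp hsp (fun p => p.2.1.n₁)
    (fun p c => ∃ O E, S.Coded p.1 O ∧ S.WObj p.2.1 O (p.2.2 : ℝ) c E)
  refine (key.and S.club_ret).mono ?_
  rintro b ⟨hb, hret⟩ O hO t ht e hn c E hE hc A hA
  obtain ⟨co, hco, hcoO⟩ := S.exists_coded (A := b) hO.1 ((S.clop_iff hret hO.1).1 hO)
  obtain ⟨c', ⟨O', E', hO', hE'⟩, hc'⟩ := hb (co, t, e) (by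
    rw [hsp_def]
    simp only [Finset.coe_union, Finset.coe_image, Finset.coe_univ, image_univ]
    exact union_subset hco ht) c ⟨O, E, hcoO, hE⟩ hn hc A hA
  have hOO : O' = O := S.coded_unique hO' hcoO
  subst hOO
  exact ⟨c', E', hE', hc'⟩

end Sys

end Pool.Agent.ZDB

end

section

/-!
# ZDB/AlphaA : elementary properties of a, â  (README §3)
`a x U A τ` is the supremum of nu_Y(U ∩ D A₀ A₁) over the extensions (A₀,A₁,Y) of x over A with nm Y < nm x + τ; the set of values is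
nonempty for countable A and τ > 0 (trivial extension: A₀ = A₁ ⊇ A ∪ supp x Ret (retCof), Y = x) and bounded by C.
`ahat` is the infimum over countable A; it is attained and constant for large A: choose countable A_n with a(A_n) < ahat + 1/n and
A = ⋃ A_n (a is antitone in A).  `alpha` is the infimum over τ > 0 (ahat is monotone in τ).
Subadditivity in U: D-sets: nu(( U ∪ U')∩D) ≤ nu(U∩D) + nu(U'∩D).
nm x = 1: an extension Y of x has res A₀ Y = x and nm Y ≤ 1 = nm x, so Y = x (`eq_of_res_eq_of_nm_le`), and nu x is carried by LA A₀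
(x ∈ BA A₀), disjoint from D A₀ A₁ (`notMem_D`); so a = 0.
-/

open Set Filter Topology MeasureTheory Pool.Agent.H53.ZD

namespace Pool.Agent.ZDB

variable {κ L : Type*} [TopologicalSpace L] [CompactSpace L] [T2Space L] [TotallyDisconnectedSpace L]
  [MeasurableSpace L] [BorelSpace L]

namespace Sys

variable (S : Sys κ L) {x Y : Ball κ} {U U' : Set L} {A A' A₀ A₁ : Set κ} {τ τ' r : ℝ}

theorem exists_triv_ext (x : Ball κ) (hA : A.Countable) : ∃ A₀, S.Ext x A A₀ A₀ x := by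
  obtain ⟨B, hB, hx⟩ := exists_countable_BA x
  obtain ⟨A', hA', hR⟩ := S.retCof (A ∪ B) (hA.union hB)
  have hx' : x ∈ BA A' := BA_mono (subset_union_right.trans hA') hx
  exact ⟨A', subset_union_left.trans hA', Subset.rfl, hR, hR, hx', hx'⟩

theorem Ext.mono (h : S.Ext x A' A₀ A₁ Y) (hA : A ⊆ A') : S.Ext x A A₀ A₁ Y :=
  ⟨hA.trans h.sub₀, h.sub₁, h.ret₀, h.ret₁, h.memY, h.resY⟩

theorem Ext.nm_le (h : S.Ext x A A₀ A₁ Y) : nm x ≤ nm Y := by
  rw [← h.resY]
  exact nm_res_le A₀ Y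

theorem Ext.memX (h : S.Ext x A A₀ A₁ Y) : x ∈ BA A₀ := by
  rw [← h.resY]
  exact res_mem_BA A₀ Y

theorem Ext.res_of_subset (h : S.Ext x A A₀ A₁ Y) {b : Set κ} (hb : b ⊆ A) (hx : x ∈ BA b) :
    Ball.res b Y = x := by
  have h1 : Ball.res b x = x := hx
  rw [← Ball.res_eq_of_subset (hb.trans h.sub₀) Y, h.resY, h1]

theorem bdd_a (x : Ball κ) (U : Set L) (A : Set κ) (τ : ℝ) :
    BddAbove {r | ∃ A₀ A₁ Y, S.Ext x A A₀ A₁ Y ∧ nm Y < nm x + τ ∧
      r = (S.nu Y).real (U ∩ S.D A₀ A₁)} := by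
  refine ⟨S.C, ?_⟩
  rintro r ⟨A₀, A₁, Y, _, _, rfl⟩
  exact S.nu_le Y _

theorem le_a (h : S.Ext x A A₀ A₁ Y) (hY : nm Y < nm x + τ) :
    (S.nu Y).real (U ∩ S.D A₀ A₁) ≤ S.a x U A τ :=
  le_csSup (S.bdd_a x U A τ) ⟨A₀, A₁, Y, h, hY, rfl⟩

theorem nonempty_a (x : Ball κ) (U : Set L) (hA : A.Countable) (hτ : 0 < τ) :
    {r | ∃ A₀ A₁ Y, S.Ext x A A₀ A₁ Y ∧ nm Y < nm x + τ ∧
      r = (S.nu Y).real (U ∩ S.D A₀ A₁)}.Nonempty := by
  obtain ⟨A₀, h⟩ := S.exists_triv_ext x hA
  exact ⟨_, A₀, A₀, x, h, by linarith, rfl⟩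

theorem exists_of_lt_a (hA : A.Countable) (hτ : 0 < τ) (h : r < S.a x U A τ) :
    ∃ A₀ A₁ Y, S.Ext x A A₀ A₁ Y ∧ nm Y < nm x + τ ∧ r < (S.nu Y).real (U ∩ S.D A₀ A₁) := by
  obtain ⟨s, ⟨A₀, A₁, Y, h1, h2, rfl⟩, hs⟩ := exists_lt_of_lt_csSup (S.nonempty_a x U hA hτ) h
  exact ⟨A₀, A₁, Y, h1, h2, hs⟩

theorem a_le_of (hA : A.Countable) (hτ : 0 < τ)
    (h : ∀ A₀ A₁ Y, S.Ext x A A₀ A₁ Y → nm Y < nm x + τ → (S.nu Y).real (U ∩ S.D A₀ A₁) ≤ r) :
    S.a x U A τ ≤ r := by
  refine csSup_le (S.nonempty_a x U hA hτ) ?_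
  rintro s ⟨A₀, A₁, Y, h1, h2, rfl⟩
  exact h A₀ A₁ Y h1 h2

theorem a_nonneg (x : Ball κ) (U : Set L) (A : Set κ) (τ : ℝ) : 0 ≤ S.a x U A τ := by
  refine Real.sSup_nonneg ?_
  rintro s ⟨A₀, A₁, Y, _, _, rfl⟩
  exact measureReal_nonneg

theorem a_le_of' (hr : 0 ≤ r)
    (h : ∀ A₀ A₁ Y, S.Ext x A A₀ A₁ Y → nm Y < nm x + τ → (S.nu Y).real (U ∩ S.D A₀ A₁) ≤ r) :
    S.a x U A τ ≤ r := by
  refine Real.sSup_le ?_ hr
  rintro s ⟨A₀, A₁, Y, h1, h2, rfl⟩
  exact h A₀ A₁ Y h1 h2

theorem a_le_C (x : Ball κ) (U : Set L) (A : Set κ) (τ : ℝ) : S.a x U A τ ≤ S.C :=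
  S.a_le_of' S.C_pos.le fun _ _ Y _ _ => S.nu_le Y _

theorem a_mono_set (hU : U ⊆ U') (x : Ball κ) (A : Set κ) (τ : ℝ) :
    S.a x U A τ ≤ S.a x U' A τ := by
  refine S.a_le_of' (S.a_nonneg _ _ _ _) fun A₀ A₁ Y h1 h2 => ?_
  exact (measureReal_mono (inter_subset_inter_left _ hU)).trans (S.le_a h1 h2)

theorem a_mono_tau (hτ : τ ≤ τ') (x : Ball κ) (U : Set L) (A : Set κ) :
    S.a x U A τ ≤ S.a x U A τ' := by
  refine S.a_le_of' (S.a_nonneg _ _ _ _) fun A₀ A₁ Y h1 h2 => ?_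
  exact S.le_a h1 (by linarith)

theorem a_anti (hA : A ⊆ A') (x : Ball κ) (U : Set L) (τ : ℝ) : S.a x U A' τ ≤ S.a x U A τ := by
  refine S.a_le_of' (S.a_nonneg _ _ _ _) fun A₀ A₁ Y h1 h2 => ?_
  exact S.le_a (Ext.mono S h1 hA) h2

theorem a_union_le (x : Ball κ) (U U' : Set L) (A : Set κ) (τ : ℝ) :
    S.a x (U ∪ U') A τ ≤ S.a x U A τ + S.a x U' A τ := by
  refine S.a_le_of' (add_nonneg (S.a_nonneg _ _ _ _) (S.a_nonneg _ _ _ _))
    fun A₀ A₁ Y h1 h2 => ?_
  rw [union_inter_distrib_right]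
  exact (measureReal_union_le _ _).trans (add_le_add (S.le_a h1 h2) (S.le_a h1 h2))

theorem bdd_ahat (x : Ball κ) (U : Set L) (τ : ℝ) :
    BddBelow {r | ∃ A : Set κ, A.Countable ∧ r = S.a x U A τ} := by
  refine ⟨0, ?_⟩
  rintro r ⟨A, _, rfl⟩
  exact S.a_nonneg _ _ _ _

theorem nonempty_ahat (x : Ball κ) (U : Set L) (τ : ℝ) :
    {r | ∃ A : Set κ, A.Countable ∧ r = S.a x U A τ}.Nonempty :=
  ⟨_, ∅, countable_empty, rfl⟩

theorem ahat_le_a (hA : A.Countable) : S.ahat x U τ ≤ S.a x U A τ :=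
  csInf_le (S.bdd_ahat x U τ) ⟨A, hA, rfl⟩

theorem le_ahat (h : ∀ A : Set κ, A.Countable → r ≤ S.a x U A τ) : r ≤ S.ahat x U τ := by
  refine le_csInf (S.nonempty_ahat x U τ) ?_
  rintro s ⟨A, hA, rfl⟩
  exact h A hA

theorem exists_ahat_eq (x : Ball κ) (U : Set L) (τ : ℝ) :
    ∃ A : Set κ, A.Countable ∧ ∀ A', A ⊆ A' → A'.Countable → S.a x U A' τ = S.ahat x U τ := by
  have key : ∀ n : ℕ, ∃ A : Set κ, A.Countable ∧
      S.a x U A τ < S.ahat x U τ + 1 / ((n : ℝ) + 1) := by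
    intro n
    have h1 : S.ahat x U τ < S.ahat x U τ + 1 / ((n : ℝ) + 1) := by
      have : (0 : ℝ) < 1 / ((n : ℝ) + 1) := by positivity
      linarith
    obtain ⟨s, ⟨A, hA, rfl⟩, hs⟩ := exists_lt_of_csInf_lt (S.nonempty_ahat x U τ) h1
    exact ⟨A, hA, hs⟩
  choose B hB hBlt using key
  refine ⟨⋃ n, B n, countable_iUnion hB, fun A' hA' hc => le_antisymm ?_ (S.ahat_le_a hc)⟩
  refine le_of_forall_pos_le_add fun ε hε => ?_
  obtain ⟨n, hn⟩ := exists_nat_one_div_lt hε
  have h2 : S.a x U A' τ ≤ S.a x U (B n) τ := S.a_anti ((subset_iUnion B n).trans hA') x U τ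
  linarith [hBlt n]

theorem ahat_nonneg (x : Ball κ) (U : Set L) (τ : ℝ) : 0 ≤ S.ahat x U τ :=
  S.le_ahat fun _ _ => S.a_nonneg _ _ _ _

theorem ahat_le_C (x : Ball κ) (U : Set L) (τ : ℝ) : S.ahat x U τ ≤ S.C :=
  (S.ahat_le_a countable_empty).trans (S.a_le_C _ _ _ _)

theorem ahat_mono_set (hU : U ⊆ U') (x : Ball κ) (τ : ℝ) : S.ahat x U τ ≤ S.ahat x U' τ :=
  S.le_ahat fun A hA => (S.ahat_le_a hA).trans (S.a_mono_set hU x A τ)

theorem ahat_mono_tau (hτ : τ ≤ τ') (x : Ball κ) (U : Set L) : S.ahat x U τ ≤ S.ahat x U τ' :=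
  S.le_ahat fun A hA => (S.ahat_le_a hA).trans (S.a_mono_tau hτ x U A)

theorem ahat_union_le (x : Ball κ) (U U' : Set L) (τ : ℝ) :
    S.ahat x (U ∪ U') τ ≤ S.ahat x U τ + S.ahat x U' τ := by
  obtain ⟨A, hA, h1⟩ := S.exists_ahat_eq x U τ
  obtain ⟨A', hA', h2⟩ := S.exists_ahat_eq x U' τ
  rw [← h1 (A ∪ A') subset_union_left (hA.union hA'),
    ← h2 (A ∪ A') subset_union_right (hA.union hA')]
  exact (S.ahat_le_a (hA.union hA')).trans (S.a_union_le _ _ _ _ _)

end Sys

end Pool.Agent.ZDB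

end
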