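import Pool.Agent.ZDM.P03

/-!
# Merged form of the modules ZDB.NFun, ZDB.RetLevels, ZDB.AlphaB, ZDB.FBasic, ZDB.PairCode, ZDB.RLQ, ZDB.RetUnion
-/

set_option autoImplicit false
set_option linter.unusedSectionVars false

section

/-!
# ZDB/NFun : the two step functional N_x
Inner function: for f ∈ C(L × Ball κ) the map l ↦ ∫ f(l,y) dlam_l(y): for f ≥ 0 it is lower semicontinuous: at l₀, f(l,·) → f(l₀,·)
uniformly as l → l₀ (compactness of the ball, `ContinuousMap.curry`), |∫ (f(l,·) − f(l₀,·)) dlam_l| ≤ C·sup, and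
l ↦ ∫ f(l₀,y) dlam_l(y) is lower semicontinuous (isOpen_int_lam).  So it is measurable, bounded by C·M; for general f write f = f⁺ − f⁻.
isOpen_N: isOpen_int_nu for the inner function.  N_level_le: h(l) = ∫ f(l,y) dlam_l(y) satisfies h(ρ_A l) ≤ h(l):
∫ f(ρ_A l,y) dlam_{ρ_A l}(y) ≤ ∫ f(ρ_A l, res A y) dlam_l(y) (lam_rho_le, f ≥ 0) = h(l); then
N_{res A x}(f) = ∫ h dnu_{res A x} ≤ ∫ h∘ρ_A dnu_x ≤ ∫ h dnu_x.
exists_of_lt_N: if N_x(f) > r ≥ 0 then f(l,y) > r/C² for some (l,y) (else f ≤ r/C² and N_x(f) ≤ r).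
fS F is the function (l,y) ↦ ∑_{i∈F}|y_i|.  cost_le: let Y ∈ BA A', Ret A', b ⊆ A'.  On LA A' cost b l = ∫ mass (A'∖b) y dlam_l(y) =
sup_n ∫ (fS F_n)(l,y) dlam_l(y) for finite F_n increasing to the countable set A'∖b (monotone convergence), so
{l ∈ LA A' | q < cost b l} is the increasing union of the sets {q < ∫ fS F_n dlam_l}, each of nu_Y-measure ≤ c/q (Markov).
-/

open Set Filter Topology MeasureTheory Pool.Agent.H53.ZD

namespace Pool.Agent.ZDB

variable {κ L : Type*} [TopologicalSpace L] [CompactSpace L] [T2Space L] [TotallyDisconnectedSpace L]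
  [MeasurableSpace L] [BorelSpace L]

namespace Sys

variable (S : Sys κ L) {A : Set κ}

/-- level of a function on `L × B` -/
def Lev (A : Set κ) (f : C(L × Ball κ, ℝ)) : Prop :=
  ∀ l y, f (S.rho A l, Ball.res A y) = f (l, y)

private theorem norm_bd (f : C(L × Ball κ, ℝ)) (z : L × Ball κ) : |f z| ≤ ‖f‖ := by
  rw [← Real.norm_eq_abs]
  exact f.norm_coe_le_norm z

private theorem int_sec (f : C(L × Ball κ, ℝ)) (l : L) (μ : Measure (Ball κ)) [IsFiniteMeasure μ] :
    Integrable (fun y => f (l, y)) μ := by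
  refine integrable_bdd μ ?_ ‖f‖ fun y => norm_bd f (l, y)
  exact (f.continuous.comp (Continuous.prodMk_right l)).measurable

private theorem isOpen_inner {f : C(L × Ball κ, ℝ)} (h0 : ∀ z, 0 ≤ f z) (s : ℝ) :
    IsOpen {l | s < ∫ y, f (l, y) ∂(S.lam l)} := by
  rw [isOpen_iff_mem_nhds]
  intro l₀ hl₀
  have hl₀' : s < ∫ y, f (l₀, y) ∂(S.lam l₀) := hl₀
  have hC := S.C_pos
  obtain ⟨ε, hε, hs⟩ : ∃ ε : ℝ, 0 < ε ∧ s + ε < ∫ y, f (l₀, y) ∂(S.lam l₀) := by
    refine ⟨((∫ y, f (l₀, y) ∂(S.lam l₀)) - s) / 2, ?_, ?_⟩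
    · linarith
    · linarith
  have hopen : IsOpen {l | s + ε < ∫ y, f (l₀, y) ∂(S.lam l)} := by
    refine S.isOpen_int_lam (fun y => h0 _) ‖f‖ (fun y => (le_abs_self _).trans (norm_bd f _))
      (fun t => ?_) _
    exact isOpen_lt continuous_const (f.continuous.comp (Continuous.prodMk_right l₀))
  have hcur : Tendsto (fun l => dist (f.curry l) (f.curry l₀)) (𝓝 l₀) (𝓝 0) := by
    have := (f.curry.continuous.tendsto l₀)
    exact tendsto_iff_dist_tendsto_zero.1 this
  have hd : 0 < ε / S.C := div_pos hε hC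
  filter_upwards [hopen.mem_nhds hs, hcur.eventually (gt_mem_nhds hd)] with l h1 h2
  have h1' : s + ε < ∫ y, f (l₀, y) ∂(S.lam l) := h1
  have h3 : ∀ y, f (l₀, y) - ε / S.C ≤ f (l, y) := by
    intro y
    have h4 : dist (f.curry l y) (f.curry l₀ y) < ε / S.C :=
      (ContinuousMap.dist_apply_le_dist y).trans_lt h2
    rw [Real.dist_eq] at h4
    have h5 := (abs_lt.1 h4).1
    have h6 : (f.curry l) y = f (l, y) := rfl
    have h7 : (f.curry l₀) y = f (l₀, y) := rfl
    rw [h6, h7] at h5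
    linarith
  have h8 : (∫ y, f (l₀, y) ∂(S.lam l)) - ε / S.C * (S.lam l).real univ ≤
      ∫ y, f (l, y) ∂(S.lam l) := by
    have h9 : ∫ y, (f (l₀, y) - ε / S.C) ∂(S.lam l) =
        (∫ y, f (l₀, y) ∂(S.lam l)) - ε / S.C * (S.lam l).real univ := by
      rw [integral_sub (int_sec f l₀ _) (integrable_const _), integral_const, smul_eq_mul,
        mul_comm]
    rw [← h9]
    exact integral_mono ((int_sec f l₀ _).sub (integrable_const _)) (int_sec f l _) h3
  have h10 : ε / S.C * (S.lam l).real univ ≤ ε := by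
    calc ε / S.C * (S.lam l).real univ ≤ ε / S.C * S.C :=
          mul_le_mul_of_nonneg_left (S.lam_univ_le l) hd.le
      _ = ε := by field_simp
  change s < ∫ y, f (l, y) ∂(S.lam l)
  linarith

theorem measurable_inner (f : C(L × Ball κ, ℝ)) :
    Measurable fun l => ∫ y, f (l, y) ∂(S.lam l) := by
  set g : C(L × Ball κ, ℝ) := f + ContinuousMap.const _ ‖f‖ with hg
  have hg0 : ∀ z, 0 ≤ g z := by
    intro z
    have h1 := (abs_le.1 (norm_bd f z)).1
    have h2 : g z = f z + ‖f‖ := rfl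
    rw [h2]; linarith
  have h1 : Measurable fun l => ∫ y, g (l, y) ∂(S.lam l) :=
    measurable_of_Ioi fun s => (S.isOpen_inner hg0 s).measurableSet
  have h2 : Measurable fun l => ‖f‖ * (S.lam l).real univ :=
    (S.measurable_lam_real MeasurableSet.univ).const_mul _
  have h3 : (fun l => ∫ y, f (l, y) ∂(S.lam l)) =
      fun l => (∫ y, g (l, y) ∂(S.lam l)) - ‖f‖ * (S.lam l).real univ := by
    ext l
    have h4 : ∫ y, g (l, y) ∂(S.lam l) = (∫ y, f (l, y) ∂(S.lam l)) + ‖f‖ * (S.lam l).real univ := by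
      have h5 : ∀ y, g (l, y) = f (l, y) + ‖f‖ := fun y => rfl
      simp only [h5]
      rw [integral_add (int_sec f l _) (integrable_const _), integral_const, smul_eq_mul, mul_comm]
    rw [h4]; ring
  rw [h3]
  exact h1.sub h2

theorem abs_inner_le (f : C(L × Ball κ, ℝ)) {M : ℝ} (hM : ∀ z, |f z| ≤ M) (l : L) :
    |∫ y, f (l, y) ∂(S.lam l)| ≤ S.C * M := by
  have hM0 : 0 ≤ M := (abs_nonneg _).trans (hM (l, 0))
  calc |∫ y, f (l, y) ∂(S.lam l)| ≤ ∫ y, |f (l, y)| ∂(S.lam l) := abs_integral_le_integral_abs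
    _ ≤ ∫ _, M ∂(S.lam l) :=
        integral_mono (int_sec f l _).abs (integrable_const _) fun y => hM (l, y)
    _ = (S.lam l).real univ * M := by rw [integral_const, smul_eq_mul]
    _ ≤ S.C * M := mul_le_mul_of_nonneg_right (S.lam_univ_le l) hM0

private theorem int_inner (f : C(L × Ball κ, ℝ)) (x : Ball κ) :
    Integrable (fun l => ∫ y, f (l, y) ∂(S.lam l)) (S.nu x) :=
  integrable_bdd _ (S.measurable_inner f) _ fun l => S.abs_inner_le f (norm_bd f) l

theorem N_add (x : Ball κ) (f g : C(L × Ball κ, ℝ)) : S.N x (f + g) = S.N x f + S.N x g := by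
  unfold N
  rw [← integral_add (S.int_inner f x) (S.int_inner g x)]
  congr 1
  ext l
  rw [← integral_add (int_sec f l _) (int_sec g l _)]
  rfl

theorem N_sub (x : Ball κ) (f g : C(L × Ball κ, ℝ)) : S.N x (f - g) = S.N x f - S.N x g := by
  have h := S.N_add x (f - g) g
  rw [sub_add_cancel] at h
  linarith

theorem N_smul (x : Ball κ) (c : ℝ) (f : C(L × Ball κ, ℝ)) : S.N x (c • f) = c * S.N x f := by
  unfold N
  rw [← integral_const_mul]
  congr 1
  ext l
  rw [← integral_const_mul]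
  rfl

theorem N_mono (x : Ball κ) {f g : C(L × Ball κ, ℝ)} (h : ∀ z, f z ≤ g z) :
    S.N x f ≤ S.N x g := by
  unfold N
  exact integral_mono (S.int_inner f x) (S.int_inner g x) fun l =>
    integral_mono (int_sec f l _) (int_sec g l _) fun y => h (l, y)

theorem N_nonneg (x : Ball κ) {f : C(L × Ball κ, ℝ)} (h : ∀ z, 0 ≤ f z) : 0 ≤ S.N x f := by
  unfold N
  exact integral_nonneg fun l => integral_nonneg fun y => h (l, y)

theorem N_le (x : Ball κ) {f : C(L × Ball κ, ℝ)} {M : ℝ} (hM0 : 0 ≤ M) (hM : ∀ z, f z ≤ M) :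
    S.N x f ≤ M * S.C ^ 2 := by
  have hC := S.C_pos
  unfold N
  have h1 : ∀ l, ∫ y, f (l, y) ∂(S.lam l) ≤ M * S.C := by
    intro l
    calc ∫ y, f (l, y) ∂(S.lam l) ≤ ∫ _, M ∂(S.lam l) :=
          integral_mono (int_sec f l _) (integrable_const _) fun y => hM (l, y)
      _ = (S.lam l).real univ * M := by rw [integral_const, smul_eq_mul]
      _ ≤ S.C * M := mul_le_mul_of_nonneg_right (S.lam_univ_le l) hM0
      _ = M * S.C := mul_comm _ _
  calc ∫ l, (∫ y, f (l, y) ∂(S.lam l)) ∂(S.nu x) ≤ ∫ _, M * S.C ∂(S.nu x) :=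
        integral_mono (S.int_inner f x) (integrable_const _) h1
    _ = (S.nu x).real univ * (M * S.C) := by rw [integral_const, smul_eq_mul]
    _ ≤ S.C * (M * S.C) := mul_le_mul_of_nonneg_right (S.nu_univ_le x) (by positivity)
    _ = M * S.C ^ 2 := by ring

private theorem N_sum {ι : Type*} (s : Finset ι) (x : Ball κ) (f : ι → C(L × Ball κ, ℝ)) :
    S.N x (∑ i ∈ s, f i) = ∑ i ∈ s, S.N x (f i) := by
  classical
  induction s using Finset.induction_on with
  | empty =>
    rw [Finset.sum_empty, Finset.sum_empty]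
    have h := S.N_add x 0 0
    rw [add_zero] at h
    linarith
  | insert a t ha ih =>
    rw [Finset.sum_insert ha, Finset.sum_insert ha, N_add, ih]

theorem N_sum_le_one {ι : Type*} (s : Finset ι) (x : Ball κ) (f : ι → C(L × Ball κ, ℝ))
    (h : ∀ z, ∑ i ∈ s, f i z ≤ 1) : ∑ i ∈ s, S.N x (f i) ≤ S.C ^ 2 := by
  rw [← N_sum]
  have h1 := S.N_le x (f := ∑ i ∈ s, f i) zero_le_one (fun z => by
    rw [ContinuousMap.sum_apply]; exact h z)
  rwa [one_mul] at h1

theorem isOpen_N {f : C(L × Ball κ, ℝ)} (h0 : ∀ z, 0 ≤ f z) (r : ℝ) :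
    IsOpen {x | r < S.N x f} := by
  unfold N
  exact S.isOpen_int_nu (fun l => integral_nonneg fun y => h0 (l, y)) (S.C * ‖f‖)
    (fun l => (le_abs_self _).trans (S.abs_inner_le f (norm_bd f) l)) (S.isOpen_inner h0) r

theorem N_level_le (hA : S.Ret A) {f : C(L × Ball κ, ℝ)} (h0 : ∀ z, 0 ≤ f z) (hf : S.Lev A f)
    (x : Ball κ) : S.N (Ball.res A x) f ≤ S.N x f := by
  have hm := S.measurable_inner f
  have hmr : Measurable (S.rho A) := (S.rho A).continuous.measurable
  have hi0 : ∀ l, 0 ≤ ∫ y, f (l, y) ∂(S.lam l) := fun l => integral_nonneg fun y => h0 (l, y)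
  -- the inner function decreases under the retraction
  have h1 : ∀ l, ∫ y, f (S.rho A l, y) ∂(S.lam (S.rho A l)) ≤ ∫ y, f (l, y) ∂(S.lam l) := by
    intro l
    calc ∫ y, f (S.rho A l, y) ∂(S.lam (S.rho A l))
        ≤ ∫ y, f (S.rho A l, y) ∂((S.lam l).map (Ball.res A)) :=
          integral_mono_measure (S.lam_rho_le hA l) (Eventually.of_forall fun y => h0 _)
            (int_sec f _ _)
      _ = ∫ y, f (S.rho A l, Ball.res A y) ∂(S.lam l) :=
          integral_map (Ball.measurable_res A).aemeasurable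
            (f.continuous.comp (Continuous.prodMk_right _)).measurable.aestronglyMeasurable
      _ = ∫ y, f (l, y) ∂(S.lam l) := by
          congr 1
          ext y
          exact hf l y
  unfold N
  calc ∫ l, (∫ y, f (l, y) ∂(S.lam l)) ∂(S.nu (Ball.res A x))
      ≤ ∫ l, (∫ y, f (l, y) ∂(S.lam l)) ∂((S.nu x).map (S.rho A)) :=
        integral_mono_measure (S.nu_res_le hA x) (Eventually.of_forall hi0)
          (integrable_bdd _ hm _ fun l => S.abs_inner_le f (norm_bd f) l)
    _ = ∫ l, (∫ y, f (S.rho A l, y) ∂(S.lam (S.rho A l))) ∂(S.nu x) :=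
        integral_map hmr.aemeasurable hm.aestronglyMeasurable
    _ ≤ ∫ l, (∫ y, f (l, y) ∂(S.lam l)) ∂(S.nu x) := by
        refine integral_mono ?_ (S.int_inner f x) h1
        exact integrable_bdd _ (hm.comp hmr) _ fun l => S.abs_inner_le f (norm_bd f) _

theorem exists_of_lt_N {f : C(L × Ball κ, ℝ)} {x : Ball κ} {r : ℝ} (hr : 0 ≤ r)
    (h : r < S.N x f) : ∃ z, r / S.C ^ 2 < f z := by
  have hC := S.C_pos
  by_contra hcon
  push Not at hcon
  have h1 := S.N_le x (f := f) (div_nonneg hr (by positivity)) hcon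
  rw [div_mul_cancel₀ _ (by positivity)] at h1
  linarith

/-- lower bound of `N` by a product set -/
theorem N_ge (x : Ball κ) {f : C(L × Ball κ, ℝ)} (h0 : ∀ z, 0 ≤ f z) {U : Set L}
    {R : L → Set (Ball κ)} {r s : ℝ} (hr : 0 ≤ r) (hs : 0 ≤ s) (hU : r ≤ (S.nu x).real U)
    (hR : ∀ l ∈ U, s ≤ (S.lam l).real (R l)) (hf : ∀ l ∈ U, ∀ y ∈ R l, 1 ≤ f (l, y)) :
    r * s ≤ S.N x f := by
  have hi0 : ∀ l, 0 ≤ ∫ y, f (l, y) ∂(S.lam l) := fun l => integral_nonneg fun y => h0 (l, y)
  have h1 : ∀ l ∈ U, s ≤ ∫ y, f (l, y) ∂(S.lam l) := by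
    intro l hl
    have h2 := mul_meas_ge_le_integral_of_nonneg (Eventually.of_forall fun y => h0 (l, y))
      (int_sec f l (S.lam l)) 1
    rw [one_mul] at h2
    refine (hR l hl).trans ((measureReal_mono ?_).trans h2)
    intro y hy
    exact hf l hl y hy
  have h3 := mul_meas_ge_le_integral_of_nonneg (μ := S.nu x) (Eventually.of_forall hi0)
    (S.int_inner f x) s
  have h4 : r ≤ (S.nu x).real {l | s ≤ ∫ y, f (l, y) ∂(S.lam l)} :=
    hU.trans (measureReal_mono h1)
  calc r * s = s * r := mul_comm _ _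
    _ ≤ s * (S.nu x).real {l | s ≤ ∫ y, f (l, y) ∂(S.lam l)} := mul_le_mul_of_nonneg_left h4 hs
    _ ≤ S.N x f := h3

/-- the function `(l,y) ↦ |y|_F` -/
noncomputable def fS (F : Finset κ) : C(L × Ball κ, ℝ) :=
  ⟨fun z => ∑ i ∈ F, |z.2 i|, by
    refine continuous_finsetSum _ fun i _ => ?_
    exact ((Ball.continuous_coord i).comp continuous_snd).abs⟩

theorem fS_apply (F : Finset κ) (z : L × Ball κ) :
    (fS F : C(L × Ball κ, ℝ)) z = Ball.mass (F : Set κ) z.2 := by
  change ∑ i ∈ F, |z.2 i| = _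
  refine le_antisymm (Ball.sum_le_mass _ _ fun i hi => hi) ?_
  rw [Ball.mass_le_iff]
  intro s hs
  exact Finset.sum_le_sum_of_subset_of_nonneg (fun i hi => by simpa using hs i hi)
    fun i _ _ => abs_nonneg _

private theorem exh {D : Set κ} (hD : D.Countable) : ∃ F : ℕ → Finset κ, Monotone F ∧
    (∀ n, (F n : Set κ) ⊆ D) ∧ ∀ i ∈ D, ∃ n, i ∈ F n := by
  classical
  rcases D.eq_empty_or_nonempty with h | h
  · refine ⟨fun _ => ∅, monotone_const, fun n => by simp, fun i hi => ?_⟩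
    rw [h] at hi
    exact hi.elim
  · obtain ⟨e, he⟩ := hD.exists_eq_range h
    refine ⟨fun n => (Finset.range n).image e, fun m n hmn =>
      Finset.image_subset_image (Finset.range_mono hmn), fun n i hi => ?_, fun i hi => ?_⟩
    · rw [Finset.coe_image] at hi
      obtain ⟨k, -, rfl⟩ := hi
      rw [he]
      exact mem_range_self k
    · rw [he] at hi
      obtain ⟨k, rfl⟩ := hi
      exact ⟨k + 1, Finset.mem_image_of_mem _ (Finset.mem_range.2 k.lt_succ_self)⟩

theorem cost_le_of_N {b A' : Set κ} (hA' : S.Ret A') (hb : b ⊆ A') {Y : Ball κ} (hY : Y ∈ BA A')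
    {c : ℝ} (hc : ∀ F : Finset κ, (F : Set κ) ⊆ A' \ b → S.N Y (fS F) ≤ c) {q : ℝ} (hq : 0 < q) :
    q * (S.nu Y).real {l | q < S.cost b l} ≤ c := by
  obtain ⟨F, hFm, hFs, hFe⟩ := exh (hA'.1.mono (diff_subset : A' \ b ⊆ A'))
  -- the partial inner functions
  have hfm : ∀ n, Measurable fun l => ∫ y, fS (F n) (l, y) ∂(S.lam l) :=
    fun n => S.measurable_inner _
  have hval : ∀ n l y, (fS (F n) : C(L × Ball κ, ℝ)) (l, y) = Ball.mass (F n : Set κ) y :=
    fun n l y => fS_apply (F n) (l, y)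
  have hf0 : ∀ n, ∀ z : L × Ball κ, 0 ≤ fS (F n) z := fun n z => by
    rw [fS_apply]; exact Ball.mass_nonneg _ _
  have hmono : ∀ l, Monotone fun n => ∫ y, fS (F n) (l, y) ∂(S.lam l) := by
    intro l m n hmn
    refine integral_mono (int_sec _ l _) (int_sec _ l _) fun y => ?_
    simp only [hval]
    exact Ball.mass_mono (Finset.coe_subset.2 (hFm hmn)) y
  -- Markov for each of them
  have hmk : ∀ n, q * (S.nu Y).real {l | q ≤ ∫ y, fS (F n) (l, y) ∂(S.lam l)} ≤ c := by
    intro n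
    have h1 := mul_meas_ge_le_integral_of_nonneg (μ := S.nu Y)
      (Eventually.of_forall fun l => integral_nonneg fun y => hf0 n (l, y))
      (S.int_inner (fS (F n)) Y) q
    exact h1.trans (hc (F n) (hFs n))
  -- convergence on `LA A'`
  have hconv : ∀ l ∈ S.LA A', Tendsto (fun n => ∫ y, fS (F n) (l, y) ∂(S.lam l)) atTop
      (𝓝 (S.cost b l)) := by
    intro l hl
    have hae : ∀ᵐ y ∂(S.lam l), Ball.res A' y = y := by
      rw [ae_iff]
      exact S.lam_compl_BA hA' hl
    have h2 : S.cost b l = ∫ y, Ball.mass (A' \ b) y ∂(S.lam l) := by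
      unfold cost
      refine integral_congr_ae ?_
      filter_upwards [hae] with y hy
      have h3 : Ball.mass bᶜ y = Ball.mass bᶜ (Ball.res A' y) := by rw [hy]
      rw [h3, Ball.mass_res]
      congr 1
      ext i
      constructor
      · exact fun h => ⟨h.2, h.1⟩
      · exact fun h => ⟨h.2, h.1⟩
    rw [h2]
    simp only [hval]
    refine tendsto_integral_of_dominated_convergence (fun _ => (1 : ℝ))
      (fun n => (Ball.measurable_mass _).aestronglyMeasurable) (integrable_const _)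
      (fun n => Eventually.of_forall fun y => ?_) (Eventually.of_forall fun y => ?_)
    · rw [Real.norm_eq_abs, abs_of_nonneg (Ball.mass_nonneg _ _)]
      exact Ball.mass_le_one _ _
    · have h4 : Tendsto (fun n => Ball.mass ((A' \ b) \ (F n : Set κ)) y) atTop (𝓝 0) := by
        refine Ball.mass_tendsto_zero _ (fun i => ?_) y
        by_cases hi : i ∈ A' \ b
        · obtain ⟨n, hn⟩ := hFe i hi
          filter_upwards [eventually_ge_atTop n] with m hm hmem
          exact hmem.2 (hFm hm hn)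
        · exact Eventually.of_forall fun n hmem => hi hmem.1
      have h5 : ∀ n, Ball.mass (F n : Set κ) y =
          Ball.mass (A' \ b) y - Ball.mass ((A' \ b) \ (F n : Set κ)) y := by
        intro n
        have h6 := Ball.mass_union (disjoint_sdiff_self_right (x := (F n : Set κ)) (y := A' \ b)) y
        rw [union_sdiff_cancel (hFs n)] at h6
        linarith
      simp only [h5]
      have h7 := (tendsto_const_nhds (x := Ball.mass (A' \ b) y) (f := (atTop : Filter ℕ))).sub h4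
      rwa [sub_zero] at h7
  -- the union
  have hmonoS : Monotone fun n => {l | q ≤ ∫ y, fS (F n) (l, y) ∂(S.lam l)} := by
    intro m n hmn l hl
    exact le_trans (show q ≤ _ from hl) (hmono l hmn)
  have hsub : {l | q < S.cost b l} ⊆
      (⋃ n, {l | q ≤ ∫ y, fS (F n) (l, y) ∂(S.lam l)}) ∪ (S.LA A')ᶜ := by
    intro l hl
    by_cases hL : l ∈ S.LA A'
    · left
      obtain ⟨n, hn⟩ := ((hconv l hL).eventually (lt_mem_nhds (show q < S.cost b l from hl))).exists
      exact mem_iUnion.2 ⟨n, hn.le⟩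
    · exact Or.inr hL
  have h0 : (S.nu Y).real (S.LA A')ᶜ = 0 := by
    rw [Measure.real, S.nu_compl_LA hA' hY, ENNReal.toReal_zero]
  have hle : (S.nu Y).real {l | q < S.cost b l} ≤
      (S.nu Y).real (⋃ n, {l | q ≤ ∫ y, fS (F n) (l, y) ∂(S.lam l)}) := by
    refine (measureReal_mono hsub).trans ((measureReal_union_le _ _).trans ?_)
    rw [h0, add_zero]
  have hlim : Tendsto (fun n => (S.nu Y).real {l | q ≤ ∫ y, fS (F n) (l, y) ∂(S.lam l)}) atTop
      (𝓝 ((S.nu Y).real (⋃ n, {l | q ≤ ∫ y, fS (F n) (l, y) ∂(S.lam l)}))) :=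
    (ENNReal.tendsto_toReal (measure_ne_top _ _)).comp (tendsto_measure_iUnion_atTop hmonoS)
  refine (mul_le_mul_of_nonneg_left hle hq.le).trans ?_
  exact le_of_tendsto (hlim.const_mul q) (Eventually.of_forall hmk)

end Sys

end Pool.Agent.ZDB

end

section

/-!
# ZDB/RetLevels : the countable algebra Clop A and the space L_A
* countable_clop: O ↦ a code c of O with supp ⊆ A (`clop_iff`, `exists_coded`) is injective (`coded_unique`), and there are countably
  many codes with support in A (`FCode.countable_of_supp`).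
* exists_clop_nhds: l ∈ LA A, W open, l ∈ W: take a clopen O' with l ∈ O' ⊆ W and O = ρ_A⁻¹(O'); O ∩ LA A = O' ∩ LA A.
* exists_seq: enumerate the countably many O ∈ Clop A with l ∈ O (nonempty: univ) and take finite intersections.  If O' ∈ Clop A and
  O_j ∩ LA A ⊆ O' then O_j ⊆ O' (x ∈ O_j ⇒ ρ_A x ∈ O_j ∩ LA A ⊆ O' ⇒ x ∈ O').
* nu_tendsto: for y ∈ BA A the measure nu y is carried by LA A, and (O_j ∩ LA A) decreases to {l}.
* open_eq: an open set W with W ⊇ ... : for l ∈ W open there is a relatively clopen neighbourhood; LA A has a countable base, so the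
  open set {l | ρ_A l ∈ W} is a countable increasing union of sets Q_m ∈ Clop A: the Clop A sets Q with Q ∩ LA A ⊆ W, countably many;
  finite unions.
-/

open Set Filter Topology MeasureTheory Pool.Agent.H53.ZD

namespace Pool.Agent.ZDB

variable {κ L : Type*} [TopologicalSpace L] [CompactSpace L] [T2Space L] [TotallyDisconnectedSpace L]
  [MeasurableSpace L] [BorelSpace L]

namespace Sys

variable (S : Sys κ L) {A : Set κ}

theorem countable_clop (hA : S.Ret A) : {O : Set L | S.Clop A O}.Countable := by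
  classical
  refine ((FCode.countable_of_supp A hA.1).image
    (fun c : FCode κ => if h : ∃ O, S.Coded c O then h.choose else ∅)).mono ?_
  intro O hO
  have hO' : S.Clop A O := hO
  obtain ⟨c, hc, hcO⟩ := S.exists_coded hO'.1 ((S.clop_iff hA hO'.1).1 hO')
  refine ⟨c, hc, ?_⟩
  have h : ∃ O, S.Coded c O := ⟨O, hcO⟩
  show (if h : ∃ O, S.Coded c O then h.choose else ∅) = O
  rw [dif_pos h]
  exact S.coded_unique h.choose_spec hcO

theorem exists_clop_nhds (hA : S.Ret A) {l : L} (hl : l ∈ S.LA A) {W : Set L} (hW : IsOpen W)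
    (hlW : l ∈ W) : ∃ O, S.Clop A O ∧ l ∈ O ∧ O ∩ S.LA A ⊆ W := by
  obtain ⟨O', h1, h2, h3⟩ := compact_exists_isClopen_in_isOpen hW hlW
  have hl' : S.rho A l = l := hl
  refine ⟨S.rho A ⁻¹' O', S.clop_preimage hA h1, ?_, ?_⟩
  · show S.rho A l ∈ O'
    rw [hl']
    exact h2
  · rintro x ⟨hx1, hx2⟩
    have hx3 : S.rho A x = x := hx2
    have hx4 : S.rho A x ∈ O' := hx1
    rw [hx3] at hx4
    exact h3 hx4

theorem exists_seq (hA : S.Ret A) {l : L} (hl : l ∈ S.LA A) :
    ∃ O : ℕ → Set L, Antitone O ∧ (∀ j, S.Clop A (O j)) ∧ (∀ j, l ∈ O j) ∧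
      (∀ O', S.Clop A O' → l ∈ O' → ∃ j, O j ⊆ O') ∧ (⋂ j, O j) ∩ S.LA A = {l} := by
  have hcount : {O : Set L | S.Clop A O ∧ l ∈ O}.Countable :=
    (S.countable_clop hA).mono (fun O hO => hO.1)
  obtain ⟨e, he⟩ := hcount.exists_eq_range ⟨univ, S.clop_univ A, mem_univ l⟩
  have hei : ∀ i, S.Clop A (e i) ∧ l ∈ e i := fun i => by
    have : e i ∈ {O : Set L | S.Clop A O ∧ l ∈ O} := by
      rw [he]
      exact mem_range_self i
    exact this
  set O : ℕ → Set L := fun j => Nat.rec (e 0) (fun j s => s ∩ e (j + 1)) j with hO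
  have hO0 : O 0 = e 0 := rfl
  have hOs : ∀ j, O (j + 1) = O j ∩ e (j + 1) := fun j => rfl
  have hanti : Antitone O := antitone_nat_of_succ_le (fun j => by
    rw [hOs]
    exact inter_subset_left)
  have hc : ∀ j, S.Clop A (O j) ∧ l ∈ O j := by
    intro j
    induction j with
    | zero => exact hei 0
    | succ j ih =>
      rw [hOs]
      exact ⟨Clop.inter S ih.1 (hei (j + 1)).1, ih.2, (hei (j + 1)).2⟩
  have hOe : ∀ j, O j ⊆ e j := by
    intro j
    cases j with
    | zero => exact subset_rfl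
    | succ j =>
      rw [hOs]
      exact inter_subset_right
  have hbase : ∀ O', S.Clop A O' → l ∈ O' → ∃ j, O j ⊆ O' := by
    intro O' h1 h2
    have h3 : O' ∈ {O : Set L | S.Clop A O ∧ l ∈ O} := ⟨h1, h2⟩
    rw [he] at h3
    obtain ⟨j, rfl⟩ := h3
    exact ⟨j, hOe j⟩
  refine ⟨O, hanti, fun j => (hc j).1, fun j => (hc j).2, hbase, ?_⟩
  apply Subset.antisymm
  · rintro x ⟨hx1, hx2⟩
    by_contra hne
    have hne' : l ∈ ({x} : Set L)ᶜ := fun h => hne (by
      rw [mem_singleton_iff] at h ⊢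
      exact h.symm)
    obtain ⟨O', h1, h2, h3⟩ := S.exists_clop_nhds hA hl isClosed_singleton.isOpen_compl hne'
    obtain ⟨j, hj⟩ := hbase O' h1 h2
    exact h3 ⟨hj (mem_iInter.1 hx1 j), hx2⟩ rfl
  · rintro x rfl
    exact ⟨mem_iInter.2 (fun j => (hc j).2), hl⟩

/-- the preimage of an open set under the retraction is an increasing union of `Clop A` sets -/
theorem exists_increasing (hA : S.Ret A) {W : Set L} (hW : IsOpen W) :
    ∃ Q : ℕ → Set L, Monotone Q ∧ (∀ m, S.Clop A (Q m)) ∧ S.rho A ⁻¹' W = ⋃ m, Q m := by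
  have hcount : {O : Set L | S.Clop A O ∧ O ⊆ S.rho A ⁻¹' W}.Countable :=
    (S.countable_clop hA).mono (fun O hO => hO.1)
  obtain ⟨e, he⟩ := hcount.exists_eq_range ⟨∅, S.clop_empty A, empty_subset _⟩
  have hei : ∀ i, S.Clop A (e i) ∧ e i ⊆ S.rho A ⁻¹' W := fun i => by
    have : e i ∈ {O : Set L | S.Clop A O ∧ O ⊆ S.rho A ⁻¹' W} := by
      rw [he]
      exact mem_range_self i
    exact this
  set Q : ℕ → Set L := fun j => Nat.rec (e 0) (fun j s => s ∪ e (j + 1)) j with hQ
  have hQs : ∀ j, Q (j + 1) = Q j ∪ e (j + 1) := fun j => rfl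
  have hmono : Monotone Q := monotone_nat_of_le_succ (fun j => by
    rw [hQs]
    exact subset_union_left)
  have hc : ∀ j, S.Clop A (Q j) ∧ Q j ⊆ S.rho A ⁻¹' W := by
    intro j
    induction j with
    | zero => exact hei 0
    | succ j ih =>
      rw [hQs]
      exact ⟨Clop.union S ih.1 (hei (j + 1)).1, union_subset ih.2 (hei (j + 1)).2⟩
  have heQ : ∀ j, e j ⊆ Q j := by
    intro j
    cases j with
    | zero => exact subset_rfl
    | succ j =>
      rw [hQs]
      exact subset_union_right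
  refine ⟨Q, hmono, fun j => (hc j).1, ?_⟩
  apply Subset.antisymm
  · intro x hx
    obtain ⟨O, h1, h2, h3⟩ := S.exists_clop_nhds hA (S.rho_mem_LA hA x) hW hx
    have h4 : O ∈ {O : Set L | S.Clop A O ∧ O ⊆ S.rho A ⁻¹' W} := by
      refine ⟨h1, fun y hy => ?_⟩
      exact h3 ⟨(Clop.mem_iff S h1 y).2 hy, S.rho_mem_LA hA y⟩
    rw [he] at h4
    obtain ⟨j, rfl⟩ := h4
    exact mem_iUnion.2 ⟨j, heQ j ((Clop.mem_iff S h1 x).1 h2)⟩
  · exact iUnion_subset (fun j => (hc j).2)

theorem nu_tendsto_atom (hA : S.Ret A) {l : L} (hl : l ∈ S.LA A) {O : ℕ → Set L}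
    (hO : Antitone O) (hc : ∀ j, S.Clop A (O j)) (hi : (⋂ j, O j) ∩ S.LA A = {l}) {y : Ball κ}
    (hy : y ∈ BA A) : Tendsto (fun j => (S.nu y).real (O j)) atTop (𝓝 ((S.nu y).real {l})) := by
  have h1 : Tendsto (fun j => S.nu y (O j)) atTop (𝓝 (S.nu y (⋂ j, O j))) :=
    tendsto_measure_iInter_atTop (fun j => (hc j).1.isOpen.measurableSet.nullMeasurableSet) hO
      ⟨0, measure_ne_top _ _⟩
  have h2 : S.nu y (⋂ j, O j) = S.nu y {l} := by
    rw [← hi]
    apply le_antisymm
    · calc S.nu y (⋂ j, O j) ≤ S.nu y (((⋂ j, O j) ∩ S.LA A) ∪ (S.LA A)ᶜ) := by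
            apply measure_mono
            intro x hx
            by_cases h : x ∈ S.LA A
            · exact Or.inl ⟨hx, h⟩
            · exact Or.inr h
        _ ≤ S.nu y ((⋂ j, O j) ∩ S.LA A) + S.nu y (S.LA A)ᶜ := measure_union_le _ _
        _ = S.nu y ((⋂ j, O j) ∩ S.LA A) := by rw [S.nu_compl_LA hA hy, add_zero]
    · exact measure_mono inter_subset_left
  rw [h2] at h1
  exact (ENNReal.tendsto_toReal (measure_ne_top _ _)).comp h1

/-- `|ν_y|({l})` as a measurable function of `y` -/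
theorem measurable_atom (l : L) : Measurable fun y => (S.nu y).real {l} :=
  S.measurable_nu_real isClosed_singleton.measurableSet

end Sys

end Pool.Agent.ZDB

end

section

/-!
# ZDB/AlphaB : elementary properties of α  (README §3)
alpha is the infimum of ahat x U τ over τ > 0; ahat is monotone in τ and in U, subadditive in U, between 0 and C.
nm x = 1: an extension Y of x has res A₀ Y = x and nm Y ≤ 1 = nm x, so Y = x (`eq_of_res_eq_of_nm_le`), and nu x is carried by LA A₀
(x ∈ BA A₀, nu_compl_LA), disjoint from D A₀ A₁ (`notMem_D`); so a = 0 for every countable A (sSup of ∅ or {0}), ahat = 0, alpha = 0.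
exists_ext_of_lt_alpha: r < alpha ≤ ahat x U τ ≤ a x U A τ, `exists_of_lt_a`.
Ext.trans: res A₀ Z = res A₀ (res B₀ Z) = res A₀ Y = x.
-/

open Set Filter Topology MeasureTheory Pool.Agent.H53.ZD

namespace Pool.Agent.ZDB

variable {κ L : Type*} [TopologicalSpace L] [CompactSpace L] [T2Space L] [TotallyDisconnectedSpace L]
  [MeasurableSpace L] [BorelSpace L]

namespace Sys

variable (S : Sys κ L) {x Y : Ball κ} {U U' : Set L} {A A' A₀ A₁ : Set κ} {τ τ' r : ℝ}

theorem alpha_le_ahat (hτ : 0 < τ) : S.alpha x U ≤ S.ahat x U τ := by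
  refine csInf_le ⟨0, ?_⟩ ⟨τ, hτ, rfl⟩
  rintro r ⟨τ', _, rfl⟩
  exact S.ahat_nonneg _ _ _

theorem exists_tau (h : S.alpha x U < r) :
    ∃ τ : ℝ, 0 < τ ∧ ∀ τ', 0 < τ' → τ' ≤ τ → S.ahat x U τ' < r := by
  obtain ⟨s, ⟨τ, hτ, rfl⟩, hs⟩ := exists_lt_of_csInf_lt
    (⟨_, 1, one_pos, rfl⟩ : {r | ∃ τ : ℝ, 0 < τ ∧ r = S.ahat x U τ}.Nonempty) h
  exact ⟨τ, hτ, fun τ' _ h' => (S.ahat_mono_tau h' x U).trans_lt hs⟩

theorem le_alpha (h : ∀ τ : ℝ, 0 < τ → r ≤ S.ahat x U τ) : r ≤ S.alpha x U := by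
  refine le_csInf (⟨_, 1, one_pos, rfl⟩ : {r | ∃ τ : ℝ, 0 < τ ∧ r = S.ahat x U τ}.Nonempty) ?_
  rintro s ⟨τ, hτ, rfl⟩
  exact h τ hτ

theorem alpha_nonneg (x : Ball κ) (U : Set L) : 0 ≤ S.alpha x U := by
  exact S.le_alpha fun _ _ => S.ahat_nonneg _ _ _
theorem alpha_le_C (x : Ball κ) (U : Set L) : S.alpha x U ≤ S.C := by
  exact (S.alpha_le_ahat one_pos).trans (S.ahat_le_C _ _ _)

theorem alpha_mono (hU : U ⊆ U') (x : Ball κ) : S.alpha x U ≤ S.alpha x U' := by
  exact S.le_alpha fun τ hτ => (S.alpha_le_ahat hτ).trans (S.ahat_mono_set hU x τ)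

theorem alpha_union_le (x : Ball κ) (U U' : Set L) :
    S.alpha x (U ∪ U') ≤ S.alpha x U + S.alpha x U' := by
  refine le_of_forall_pos_le_add fun ε hε => ?_
  obtain ⟨τ₁, h1, h2⟩ := S.exists_tau (x := x) (U := U) (r := S.alpha x U + ε / 2) (by linarith)
  obtain ⟨τ₂, h3, h4⟩ := S.exists_tau (x := x) (U := U') (r := S.alpha x U' + ε / 2)
    (by linarith)
  have h5 := h2 (min τ₁ τ₂) (lt_min h1 h3) (min_le_left _ _)
  have h6 := h4 (min τ₁ τ₂) (lt_min h1 h3) (min_le_right _ _)
  have h7 := S.alpha_le_ahat (x := x) (U := U ∪ U') (lt_min h1 h3)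
  have h8 := S.ahat_union_le x U U' (min τ₁ τ₂)
  linarith

theorem ahat_eq_zero_of_nm (hx : nm x = 1) (U : Set L) (τ : ℝ) : S.ahat x U τ = 0 := by
  refine le_antisymm ((S.ahat_le_a countable_empty).trans ?_) (S.ahat_nonneg _ _ _)
  refine S.a_le_of' le_rfl fun A₀ A₁ Y h _ => ?_
  have hY : Y = x := eq_of_res_eq_of_nm_le h.resY (by rw [hx]; exact nm_le_one Y)
  rw [hY]
  have h1 : S.nu x (S.LA A₀)ᶜ = 0 := S.nu_compl_LA h.ret₀ (Ext.memX S h)
  have h2 : U ∩ S.D A₀ A₁ ⊆ (S.LA A₀)ᶜ := fun l hl hl2 =>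
    S.notMem_D h.ret₀ h.ret₁ h.sub₁ hl2 hl.2
  have h3 : S.nu x (U ∩ S.D A₀ A₁) = 0 := measure_mono_null h2 h1
  rw [measureReal_def, h3]
  simp

theorem alpha_eq_zero_of_nm (hx : nm x = 1) (U : Set L) : S.alpha x U = 0 := by
  exact le_antisymm ((S.alpha_le_ahat one_pos).trans (S.ahat_eq_zero_of_nm hx U 1).le)
    (S.alpha_nonneg x U)

/-- light extensions with large value, for a given countable set -/
theorem exists_ext_of_lt_alpha (h : r < S.alpha x U) (hA : A.Countable) (hτ : 0 < τ) :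
    ∃ A₀ A₁ Y, S.Ext x A A₀ A₁ Y ∧ nm Y < nm x + τ ∧ r < (S.nu Y).real (U ∩ S.D A₀ A₁) := by
  exact S.exists_of_lt_a hA hτ (h.trans_le ((S.alpha_le_ahat hτ).trans (S.ahat_le_a hA)))

/-- composing extensions: an extension of an extension is an extension -/
theorem Ext.trans {Z : Ball κ} {B B₀ B₁ : Set κ} (h : S.Ext x A A₀ A₁ Y) (h' : S.Ext Y B B₀ B₁ Z)
    (hB : A₁ ⊆ B) : S.Ext x A A₀ B₁ Z := by
  refine ⟨h.sub₀, h.sub₁.trans (hB.trans (h'.sub₀.trans h'.sub₁)), h.ret₀, h'.ret₁, h'.memY, ?_⟩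
  rw [← res_res_of_subset (h.sub₁.trans (hB.trans h'.sub₀)) Z, h'.resY, h.resY]

end Sys

end Pool.Agent.ZDB

end

section

/-!
# ZDB/FBasic : the functional F (README §4)
G_O(y) = nu_y(univ) + nu_y(Oᶜ) for clopen O (lower semicontinuous, between 0 and 2C); Fv l = sup over clopen O ∋ l of ∫ G_O dlam_l ≤ 2C².
* isOpen_Fs: if s < Fv l there is a clopen O ∋ l with s < ∫ G_O dlam_l; for l' ∈ O near l: s < ∫ G_O dlam_l' ≤ Fv l' (isOpen_int_lam).
* Fv_rho_le: O clopen, ρ_A l ∈ O, O' = ρ_A⁻¹O ∋ l: ∫ G_O dlam_{ρ_A l} ≤ ∫ G_O(res A y) dlam_l (lam_rho_le; G_O ≥ 0 measurable) and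
  G_O(res A y) = nu_{res A y}(univ)+nu_{res A y}(Oᶜ) ≤ nu_y(univ) + nu_y(O'ᶜ) (nu_res_real).
* Fv_eq (l ∈ LA b): ≤: Oᶜ ⊆ {l}ᶜ.  ≥: exists_seq: O_j, nu_y(O_jᶜ) → nu_y({l}ᶜ) for y ∈ BA b (nu_tendsto_atom), lam_l is carried by BA b;
  dominated convergence.
* int_atom_ge: one_le_int for O_j and dominated convergence, nu_y(O_j) → nu_y{l} on BA b.
* meas_atom_ge: 1 ≤ ∫ nu_y{l} dlam_l ≤ C·lam_l{nu_y{l} ≥ 1/(2C)} + (1/(2C))·C.
-/

open Set Filter Topology MeasureTheory Pool.Agent.H53.ZD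

namespace Pool.Agent.ZDB

variable {κ L : Type*} [TopologicalSpace L] [CompactSpace L] [T2Space L] [TotallyDisconnectedSpace L]
  [MeasurableSpace L] [BorelSpace L]

namespace Sys

variable (S : Sys κ L) {A b : Set κ} {l : L} {s : ℝ}

/-- the integrand -/
private noncomputable def GG (O : Set L) (y : Ball κ) : ℝ :=
  (S.nu y).real univ + (S.nu y).real Oᶜ

private lemma GG_nonneg (O : Set L) (y : Ball κ) : 0 ≤ S.GG O y := by
  unfold GG; positivity

private lemma GG_le (O : Set L) (y : Ball κ) : S.GG O y ≤ 2 * S.C := by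
  unfold GG
  have h1 := S.nu_le y univ
  have h2 := S.nu_le y Oᶜ
  linarith

private lemma measurable_GG {O : Set L} (hO : MeasurableSet O) : Measurable (S.GG O) :=
  (S.measurable_nu_real MeasurableSet.univ).add (S.measurable_nu_real hO.compl)

private lemma integrable_GG {O : Set L} (hO : MeasurableSet O) (μ : Measure (Ball κ))
    [IsFiniteMeasure μ] : Integrable (S.GG O) μ :=
  integrable_bdd μ (S.measurable_GG hO) (2 * S.C) (fun y => by
    rw [abs_of_nonneg (S.GG_nonneg O y)]; exact S.GG_le O y)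

private lemma int_GG_le (O : Set L) (hO : MeasurableSet O) (l : L) :
    ∫ y, S.GG O y ∂(S.lam l) ≤ 2 * S.C ^ 2 := by
  calc ∫ y, S.GG O y ∂(S.lam l) ≤ ∫ _, 2 * S.C ∂(S.lam l) :=
        integral_mono (S.integrable_GG hO _) (integrable_const _) (fun y => S.GG_le O y)
    _ = (S.lam l).real univ * (2 * S.C) := by rw [integral_const, smul_eq_mul]
    _ ≤ S.C * (2 * S.C) := by
        apply mul_le_mul_of_nonneg_right (S.lam_univ_le l)
        have := S.C_pos
        positivity
    _ = 2 * S.C ^ 2 := by ring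

private lemma isOpen_GG {O : Set L} (hO : IsClopen O) (s : ℝ) : IsOpen {y | s < S.GG O y} := by
  have h : {y | s < S.GG O y} =
      ⋃ r : ℝ, {y | r < (S.nu y).real univ} ∩ {y | s - r < (S.nu y).real Oᶜ} := by
    ext y
    simp only [mem_setOf_eq, mem_iUnion, mem_inter_iff, GG]
    constructor
    · intro h
      obtain ⟨r, h1, h2⟩ := exists_between
        (show s - (S.nu y).real Oᶜ < (S.nu y).real univ by linarith)
      exact ⟨r, h2, by linarith⟩
    · rintro ⟨r, h1, h2⟩
      linarith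
  rw [h]
  exact isOpen_iUnion fun r => (S.isOpen_nu isOpen_univ r).inter (S.isOpen_nu hO.compl.isOpen _)

private lemma bdd_Fv (l : L) : BddAbove {r | ∃ O : Set L, IsClopen O ∧ l ∈ O ∧
    r = ∫ y, ((S.nu y).real univ + (S.nu y).real Oᶜ) ∂(S.lam l)} := by
  refine ⟨2 * S.C ^ 2, ?_⟩
  rintro r ⟨O, hO, -, rfl⟩
  exact S.int_GG_le O hO.isOpen.measurableSet l

private lemma ne_Fv (l : L) : {r | ∃ O : Set L, IsClopen O ∧ l ∈ O ∧
    r = ∫ y, ((S.nu y).real univ + (S.nu y).real Oᶜ) ∂(S.lam l)}.Nonempty :=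
  ⟨_, univ, isClopen_univ, mem_univ _, rfl⟩

theorem Fv_le (l : L) : S.Fv l ≤ 2 * S.C ^ 2 := by
  apply csSup_le (S.ne_Fv l)
  rintro r ⟨O, hO, -, rfl⟩
  exact S.int_GG_le O hO.isOpen.measurableSet l

theorem le_Fv {O : Set L} (hO : IsClopen O) (hl : l ∈ O) :
    ∫ y, ((S.nu y).real univ + (S.nu y).real Oᶜ) ∂(S.lam l) ≤ S.Fv l :=
  le_csSup (S.bdd_Fv l) ⟨O, hO, hl, rfl⟩

theorem Fv_nonneg (l : L) : 0 ≤ S.Fv l := by
  refine le_trans ?_ (S.le_Fv isClopen_univ (mem_univ l))
  exact integral_nonneg fun y => by positivity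

theorem Fs_neg_one : S.Fs (-1) = univ := by
  ext l
  simp only [Fs, mem_setOf_eq, mem_univ, iff_true]
  have := S.Fv_nonneg l
  linarith

theorem Fs_anti {s s' : ℝ} (h : s ≤ s') : S.Fs s' ⊆ S.Fs s := fun _ hl => lt_of_le_of_lt h hl

theorem isOpen_Fs (s : ℝ) : IsOpen (S.Fs s) := by
  rw [isOpen_iff_mem_nhds]
  intro l hl
  obtain ⟨r, ⟨O, hO, hlO, rfl⟩, hr⟩ := exists_lt_of_lt_csSup (S.ne_Fv l) (show s < S.Fv l from hl)
  have h1 : IsOpen {l' | s < ∫ y, S.GG O y ∂(S.lam l')} :=
    S.isOpen_int_lam (fun y => S.GG_nonneg O y) (2 * S.C) (fun y => S.GG_le O y)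
      (fun t => S.isOpen_GG hO t) s
  filter_upwards [h1.mem_nhds (show l ∈ {l' | s < ∫ y, S.GG O y ∂(S.lam l')} from hr),
    hO.isOpen.mem_nhds hlO] with l' h2 h3
  exact lt_of_lt_of_le h2 (S.le_Fv hO h3)

private lemma measurable_res (A : Set κ) : Measurable (Ball.res A) :=
  (Ball.continuous_res A).measurable

theorem Fv_rho_le (hA : S.Ret A) (l : L) : S.Fv (S.rho A l) ≤ S.Fv l := by
  apply csSup_le (S.ne_Fv _)
  rintro r ⟨O, hO, hl, rfl⟩
  have hO' : IsClopen (S.rho A ⁻¹' O) := hO.preimage (S.rho A).continuous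
  have hm : Measurable (Ball.res A : Ball κ → Ball κ) := measurable_res A
  calc ∫ y, S.GG O y ∂(S.lam (S.rho A l))
      ≤ ∫ y, S.GG O y ∂((S.lam l).map (Ball.res A)) :=
        integral_mono_measure (S.lam_rho_le hA l)
          (Eventually.of_forall fun y => S.GG_nonneg O y)
          (S.integrable_GG hO.isOpen.measurableSet _)
    _ = ∫ y, S.GG O (Ball.res A y) ∂(S.lam l) :=
        integral_map hm.aemeasurable (S.measurable_GG hO.isOpen.measurableSet).aestronglyMeasurable
    _ ≤ ∫ y, S.GG (S.rho A ⁻¹' O) y ∂(S.lam l) := by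
        apply integral_mono
        · exact integrable_bdd _ ((S.measurable_GG hO.isOpen.measurableSet).comp hm) (2 * S.C)
            (fun y => by
              rw [abs_of_nonneg (S.GG_nonneg O _)]; exact S.GG_le O _)
        · exact S.integrable_GG hO'.isOpen.measurableSet _
        · intro y
          have h1 := S.nu_res_real hA y (MeasurableSet.univ (α := L))
          have h2 := S.nu_res_real hA y hO.isOpen.measurableSet.compl
          simp only [preimage_univ] at h1
          simp only [preimage_compl] at h2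
          show S.GG O (Ball.res A y) ≤ S.GG (S.rho A ⁻¹' O) y
          unfold GG
          linarith
    _ ≤ S.Fv l := S.le_Fv hO' hl

theorem upper_Fs (A : Set κ) (s : ℝ) : S.Upper A (S.Fs s) := by
  intro A' _ hA' l hl
  exact lt_of_lt_of_le hl (S.Fv_rho_le hA' l)

private lemma tendsto_compl (hb : S.Ret b) (hl : l ∈ S.LA b) {O : ℕ → Set L}
    (hO : Antitone O) (hc : ∀ j, S.Clop b (O j)) (hi : (⋂ j, O j) ∩ S.LA b = {l}) {y : Ball κ}
    (hy : y ∈ BA b) : Tendsto (fun j => S.GG (O j) y) atTop (𝓝 (S.GG {l} y)) := by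
  unfold GG
  apply Tendsto.add tendsto_const_nhds
  have h := S.nu_tendsto_atom hb hl hO hc hi hy
  have e1 : ∀ j, (S.nu y).real (O j)ᶜ = (S.nu y).real univ - (S.nu y).real (O j) :=
    fun j => measureReal_compl (hc j).1.isOpen.measurableSet
  have e2 : (S.nu y).real {l}ᶜ = (S.nu y).real univ - (S.nu y).real {l} :=
    measureReal_compl (measurableSet_singleton l)
  simp only [e1, e2]
  exact tendsto_const_nhds.sub h

private lemma ae_BA (hb : S.Ret b) (hl : l ∈ S.LA b) : ∀ᵐ y ∂(S.lam l), y ∈ BA b := by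
  rw [ae_iff]
  exact S.lam_compl_BA hb hl

theorem Fv_eq (hb : S.Ret b) (hl : l ∈ S.LA b) :
    S.Fv l = ∫ y, ((S.nu y).real univ + (S.nu y).real {l}ᶜ) ∂(S.lam l) := by
  apply le_antisymm
  · apply csSup_le (S.ne_Fv _)
    rintro r ⟨O, hO, hl, rfl⟩
    apply integral_mono (S.integrable_GG hO.isOpen.measurableSet _)
      (S.integrable_GG (measurableSet_singleton l) _)
    intro y
    have : (S.nu y).real Oᶜ ≤ (S.nu y).real {l}ᶜ :=
      measureReal_mono (compl_subset_compl.2 (singleton_subset_iff.2 hl))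
    show (S.nu y).real univ + (S.nu y).real Oᶜ ≤ (S.nu y).real univ + (S.nu y).real {l}ᶜ
    linarith
  · obtain ⟨O, hO, hc, hlO, -, hi⟩ := S.exists_seq hb hl
    have ht : Tendsto (fun j => ∫ y, S.GG (O j) y ∂(S.lam l)) atTop
        (𝓝 (∫ y, S.GG {l} y ∂(S.lam l))) := by
      apply tendsto_integral_of_dominated_convergence (fun _ => 2 * S.C)
      · intro j
        exact (S.measurable_GG (hc j).1.isOpen.measurableSet).aestronglyMeasurable
      · exact integrable_const _
      · intro j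
        exact Eventually.of_forall fun y => by
          rw [Real.norm_eq_abs, abs_of_nonneg (S.GG_nonneg _ y)]; exact S.GG_le _ y
      · filter_upwards [S.ae_BA hb hl] with y hy
        exact S.tendsto_compl hb hl hO hc hi hy
    exact le_of_tendsto' ht fun j => S.le_Fv (hc j).1 (hlO j)

theorem int_atom_ge (hb : S.Ret b) (hl : l ∈ S.LA b) :
    1 ≤ ∫ y, (S.nu y).real {l} ∂(S.lam l) := by
  obtain ⟨O, hO, hc, hlO, -, hi⟩ := S.exists_seq hb hl
  have ht : Tendsto (fun j => ∫ y, (S.nu y).real (O j) ∂(S.lam l)) atTop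
      (𝓝 (∫ y, (S.nu y).real {l} ∂(S.lam l))) := by
    apply tendsto_integral_of_dominated_convergence (fun _ => S.C)
    · intro j
      exact (S.measurable_nu_real (hc j).1.isOpen.measurableSet).aestronglyMeasurable
    · exact integrable_const _
    · intro j
      exact Eventually.of_forall fun y => by
        rw [Real.norm_eq_abs, abs_of_nonneg measureReal_nonneg]; exact S.nu_le _ _
    · filter_upwards [S.ae_BA hb hl] with y hy
      exact S.nu_tendsto_atom hb hl hO hc hi hy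
  exact ge_of_tendsto' ht fun j => S.one_le_int (hc j).1 (hlO j)

theorem meas_atom_ge (hb : S.Ret b) (hl : l ∈ S.LA b) :
    1 / (2 * S.C) ≤ (S.lam l).real {y | 1 / (2 * S.C) ≤ (S.nu y).real {l}} := by
  have h1 := S.int_atom_ge hb hl
  have hC := S.C_pos
  have hm := S.measurable_nu_real (measurableSet_singleton l)
  set W : Set (Ball κ) := {y | 1 / (2 * S.C) ≤ (S.nu y).real {l}} with hW
  have hWm : MeasurableSet W := measurableSet_le measurable_const hm
  have hc0 : 0 ≤ 1 / (2 * S.C) := by positivity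
  have hi1 : Integrable (fun y => (S.nu y).real {l}) (S.lam l) :=
    integrable_bdd _ hm S.C (fun y => by
      rw [abs_of_nonneg measureReal_nonneg]; exact S.nu_le _ _)
  have hi2 : Integrable (W.indicator fun _ : Ball κ => S.C) (S.lam l) :=
    (integrable_const _).indicator hWm
  have h2 : ∫ y, (S.nu y).real {l} ∂(S.lam l) ≤
      ∫ y, (W.indicator (fun _ => S.C) y + 1 / (2 * S.C)) ∂(S.lam l) := by
    apply integral_mono hi1 (hi2.add (integrable_const _))
    intro y
    show (S.nu y).real {l} ≤ W.indicator (fun _ => S.C) y + 1 / (2 * S.C)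
    by_cases hy : y ∈ W
    · rw [indicator_of_mem hy]
      have := S.nu_le y {l}
      linarith
    · rw [indicator_of_notMem hy]
      have : (S.nu y).real {l} < 1 / (2 * S.C) := not_le.1 hy
      linarith
  rw [integral_add hi2 (integrable_const _), integral_indicator_const _ hWm, integral_const,
    smul_eq_mul, smul_eq_mul] at h2
  have h3 : (S.lam l).real univ * (1 / (2 * S.C)) ≤ 1 / 2 := by
    calc (S.lam l).real univ * (1 / (2 * S.C)) ≤ S.C * (1 / (2 * S.C)) :=
          mul_le_mul_of_nonneg_right (S.lam_univ_le l) hc0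
      _ = 1 / 2 := by field_simp
  rw [div_le_iff₀ (by positivity)]
  nlinarith [h1, h2, h3]

/-- lower semicontinuity along a convergent sequence -/
theorem Fv_le_of_tendsto {u : ℕ → L} (hu : Tendsto u atTop (𝓝 l)) {M : ℝ}
    (hM : ∀ n, S.Fv (u n) ≤ M) : S.Fv l ≤ M := by
  by_contra h
  have h1 : l ∈ S.Fs M := not_le.1 h
  obtain ⟨n, hn⟩ := (hu.eventually ((S.isOpen_Fs M).mem_nhds h1)).exists
  exact absurd (hM n) (not_le.2 hn)

end Sys

end Pool.Agent.ZDB

end

section

/-!
# ZDB/PairCode : codes for continuous functions on L × B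
A PCode is a list of pairs of FCodes; evP sums 1_{cloOf c₁}(l)·(ev c₂)(y).
* fibre_countable: lists over the countable set of pairs with supports in a given finite set.
* exists_pcode: f of level A (Ret A).  For l₀ ∈ LA A the set W(l₀) = {l | ∀ y, |f(l,y) − f(l₀,y)| < ε/2} is open (`ContinuousMap.curry`/compactness of
  the ball), and l ∈ W(l₀) iff ρ_A l ∈ W(l₀), because f(l,y) = f(ρ_A l, res A y) = f(ρ_A l, y).  exists_clop_nhds: O ∈ Clop A, l₀ ∈ O,
  O ∩ LA A ⊆ W(l₀), hence O ⊆ W(l₀) (l ∈ O ⇒ ρ_A l ∈ O ∩ LA A).  Compactness of LA A: finitely many such O_1..O_N cover LA A, hence cover L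
  (ρ_A l ∈ O_i ⇒ l ∈ O_i).  Disjointify inside Clop A.  Each O_i has a code c_i with support in A (exists_coded, clop_iff) and cloOf c_i = O_i
  (coded_unique); f(l_i, ·) = f(l_i, res A ·) has level A, so there is an FCode with support in A within ε/2 (exists_code_level).
-/

open Set Filter Topology MeasureTheory Pool.Agent.H53.ZD

namespace Pool.Agent.ZDB

variable {κ L : Type*} [TopologicalSpace L] [CompactSpace L] [T2Space L] [TotallyDisconnectedSpace L]
  [MeasurableSpace L] [BorelSpace L]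

/-- codes for functions on `L × B` -/
abbrev PCode (κ : Type*) := List (FCode κ × FCode κ)

open Classical in
/-- the support of a code -/
noncomputable def PCode.supp (pc : PCode κ) : Finset κ :=
  (pc.map fun x => x.1.supp ∪ x.2.supp).foldr (fun F F' => F ∪ F') ∅

private theorem supp_sub {pc : PCode κ} {x : FCode κ × FCode κ} (hx : x ∈ pc) :
    x.1.supp ⊆ PCode.supp pc ∧ x.2.supp ⊆ PCode.supp pc := by
  classical
  induction pc with
  | nil => simp at hx
  | cons a t ih =>
    have h : PCode.supp (a :: t) = (a.1.supp ∪ a.2.supp) ∪ PCode.supp t := by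
      unfold PCode.supp
      rw [List.map_cons, List.foldr_cons]
    rcases List.mem_cons.1 hx with rfl | hx
    · rw [h]
      constructor
      · exact fun i hi => Finset.mem_union_left _ (Finset.mem_union_left _ hi)
      · exact fun i hi => Finset.mem_union_left _ (Finset.mem_union_right _ hi)
    · rw [h]
      exact ⟨fun i hi => Finset.mem_union_right _ ((ih hx).1 hi),
        fun i hi => Finset.mem_union_right _ ((ih hx).2 hi)⟩

private theorem supp_cons_sub {a : FCode κ × FCode κ} {t : PCode κ} {A : Set κ}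
    (h1 : (a.1.supp : Set κ) ⊆ A) (h2 : (a.2.supp : Set κ) ⊆ A)
    (h3 : (PCode.supp t : Set κ) ⊆ A) : (PCode.supp (a :: t) : Set κ) ⊆ A := by
  classical
  have h : PCode.supp (a :: t) = (a.1.supp ∪ a.2.supp) ∪ PCode.supp t := by
    unfold PCode.supp
    rw [List.map_cons, List.foldr_cons]
  rw [h]
  intro i hi
  rw [Finset.mem_coe, Finset.mem_union, Finset.mem_union] at hi
  rcases hi with (hi | hi) | hi
  · exact h1 hi
  · exact h2 hi
  · exact h3 hi

private theorem lists_countable {α : Type*} {s : Set α} (hs : s.Countable) :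
    {l : List α | ∀ x ∈ l, x ∈ s}.Countable := by
  have : Countable s := hs.to_subtype
  refine (countable_range (fun l : List s => l.map Subtype.val)).mono ?_
  intro l hl
  have hl' : ∀ x ∈ l, x ∈ s := hl
  refine ⟨l.pmap (fun x hx => ⟨x, hx⟩) hl', ?_⟩
  show (l.pmap (fun x hx => (⟨x, hx⟩ : s)) hl').map Subtype.val = l
  rw [List.map_pmap]
  exact List.pmap_eq_self.2 (fun x _ => rfl)

theorem PCode.fibre_countable (F : Finset κ) : {pc : PCode κ | PCode.supp pc = F}.Countable := by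
  have h1 := FCode.countable_of_supp (F : Set κ) F.countable_toSet
  refine (lists_countable (h1.prod h1)).mono ?_
  intro pc hpc x hx
  have h4 := supp_sub hx
  have hpc' : PCode.supp pc = F := hpc
  rw [hpc'] at h4
  exact ⟨Finset.coe_subset.2 h4.1, Finset.coe_subset.2 h4.2⟩

theorem PairCode.cont {X Y : Type*} [TopologicalSpace X] [TopologicalSpace Y] (f : C(X, ℝ))
    (g : C(Y, ℝ)) : Continuous fun z : X × Y => f z.1 * g z.2 :=
  (f.continuous.comp continuous_fst).mul (g.continuous.comp continuous_snd)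

namespace Sys

variable (S : Sys κ L)

/-- the coded clopen set (or the empty set) -/
noncomputable def cloOf (c : FCode κ) : Set L :=
  open Classical in if h : ∃ O, S.Coded c O then h.choose else ∅

theorem cloOf_eq {c : FCode κ} {O : Set L} (h : S.Coded c O) : S.cloOf c = O := by
  have h' : ∃ O, S.Coded c O := ⟨O, h⟩
  unfold cloOf
  rw [dif_pos h']
  exact S.coded_unique h'.choose_spec h

/-- the coded function of one pair of codes (separate: faster elaboration) -/
noncomputable def evOne (x : FCode κ × FCode κ) : C(L × Ball κ, ℝ) :=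
  ⟨fun z => cind (S.cloOf x.1) z.1 * x.2.ev z.2, PairCode.cont (cind (S.cloOf x.1)) x.2.ev⟩

/-- the coded function on `L × B` -/
noncomputable def evP (pc : PCode κ) : C(L × Ball κ, ℝ) := (pc.map S.evOne).sum

private theorem evP_cons (a : FCode κ × FCode κ) (t : PCode κ) (z : L × Ball κ) :
    S.evP (a :: t) z = cind (S.cloOf a.1) z.1 * a.2.ev z.2 + S.evP t z := by
  unfold evP
  rw [List.map_cons, List.sum_cons, ContinuousMap.add_apply]
  rfl

private theorem evP_nil (z : L × Ball κ) : S.evP ([] : PCode κ) z = 0 := by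
  unfold evP
  rfl

private theorem lev_rho {A : Set κ} (hA : S.Ret A) {f : C(L × Ball κ, ℝ)} (hf : S.Lev A f)
    (l : L) (y : Ball κ) : f (S.rho A l, y) = f (l, y) := by
  have h1 := hf (S.rho A l) y
  rw [S.rho_idem hA] at h1
  rw [← h1]
  exact hf l y

private theorem pcode_of_list {A : Set κ} (hA : S.Ret A) (f : C(L × Ball κ, ℝ)) (hf : S.Lev A f)
    {ε : ℝ} (hε : 0 < ε) (Q : List (Set L × L))
    (hQ : ∀ q ∈ Q, S.Clop A q.1 ∧ S.rho A q.2 = q.2 ∧
      ∀ l ∈ q.1, ∀ y, |f (l, y) - f (q.2, y)| ≤ ε / 2) :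
    ∃ (pc : PCode κ) (U : Set L), (PCode.supp pc : Set κ) ⊆ A ∧ S.Clop A U ∧
      (∀ q ∈ Q, q.1 ⊆ U) ∧ (∀ l ∈ U, ∀ y, |f (l, y) - S.evP pc (l, y)| ≤ ε) ∧
      (∀ l, l ∉ U → ∀ y, S.evP pc (l, y) = 0) := by
  induction Q with
  | nil =>
    refine ⟨[], ∅, ?_, S.clop_empty A, ?_, ?_, ?_⟩
    · have h : PCode.supp ([] : PCode κ) = ∅ := rfl
      rw [h, Finset.coe_empty]
      exact empty_subset _
    · intro q hq
      simp at hq
    · intro l hl
      exact hl.elim
    · intro l _ y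
      exact S.evP_nil _
  | cons q Q ih =>
    obtain ⟨pc, U, h1, h2, h3, h4, h5⟩ := ih (fun q' hq' => hQ q' (List.mem_cons_of_mem _ hq'))
    obtain ⟨hq1, hq2, hq3⟩ := hQ q (List.mem_cons_self ..)
    have hO : S.Clop A (q.1 \ U) := Clop.diff S hq1 h2
    obtain ⟨c, hc, hcO⟩ := S.exists_coded hO.1 ((S.clop_iff hA hO.1).1 hO)
    have hclo : S.cloOf c = q.1 \ U := S.cloOf_eq hcO
    have hlev : ((f.curry q.2).comp (resC A)) = f.curry q.2 := by
      ext y
      show f (q.2, Ball.res A y) = f (q.2, y)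
      have h6 := hf q.2 y
      rwa [hq2] at h6
    obtain ⟨c', hc', hc'e⟩ := exists_code_level (f.curry q.2) A hlev (half_pos hε)
    refine ⟨(c, c') :: pc, q.1 ∪ U, supp_cons_sub hc hc' h1, Clop.union S hq1 h2, ?_, ?_, ?_⟩
    · intro q' hq'
      rcases List.mem_cons.1 hq' with rfl | hq'
      · exact subset_union_left
      · exact (h3 q' hq').trans subset_union_right
    · intro l hl y
      rw [evP_cons]
      show |f (l, y) - (cind (S.cloOf c) l * c'.ev y + S.evP pc (l, y))| ≤ ε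
      rw [hclo]
      by_cases hU : l ∈ U
      · rw [cind_of_notMem (fun h => h.2 hU), zero_mul, zero_add]
        exact h4 l hU y
      · have hl' : l ∈ q.1 := by
          rcases hl with hl | hl
          · exact hl
          · exact absurd hl hU
        rw [cind_of_mem hO.1 ⟨hl', hU⟩, one_mul, h5 l hU y, add_zero]
        have h6 := hq3 l hl' y
        have h7 : |f (q.2, y) - c'.ev y| < ε / 2 := hc'e y
        rw [abs_le] at h6 ⊢
        rw [abs_lt] at h7
        constructor <;> linarith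
    · intro l hl y
      rw [evP_cons]
      show cind (S.cloOf c) l * c'.ev y + S.evP pc (l, y) = 0
      rw [hclo, cind_of_notMem (fun h => hl (Or.inl h.1)), zero_mul, zero_add]
      exact h5 l (fun h => hl (Or.inr h)) y

theorem exists_pcode {A : Set κ} (hA : S.Ret A) (f : C(L × Ball κ, ℝ)) (hf : S.Lev A f) {ε : ℝ}
    (hε : 0 < ε) : ∃ pc : PCode κ, (PCode.supp pc : Set κ) ⊆ A ∧ ∀ z, |f z - S.evP pc z| ≤ ε := by
  -- neighbourhoods
  have hex : ∀ l₀ : L, ∃ O : Set L, l₀ ∈ S.LA A → (S.Clop A O ∧ l₀ ∈ O ∧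
      ∀ l ∈ O, ∀ y, |f (l, y) - f (l₀, y)| ≤ ε / 2) := by
    intro l₀
    by_cases hl₀ : l₀ ∈ S.LA A
    · have hW : IsOpen ((f.curry : L → C(Ball κ, ℝ)) ⁻¹' Metric.ball (f.curry l₀) (ε / 2)) :=
        Metric.isOpen_ball.preimage f.curry.continuous
      have hlW : l₀ ∈ (f.curry : L → C(Ball κ, ℝ)) ⁻¹' Metric.ball (f.curry l₀) (ε / 2) :=
        Metric.mem_ball_self (half_pos hε)
      obtain ⟨O, hO, hlO, hsub⟩ := S.exists_clop_nhds hA hl₀ hW hlW
      refine ⟨O, fun _ => ⟨hO, hlO, fun l hl y => ?_⟩⟩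
      have h1 : S.rho A l ∈ (f.curry : L → C(Ball κ, ℝ)) ⁻¹' Metric.ball (f.curry l₀) (ε / 2) :=
        hsub ⟨(Clop.mem_iff S hO l).2 hl, S.rho_mem_LA hA l⟩
      have h2 : dist (f.curry (S.rho A l)) (f.curry l₀) < ε / 2 := h1
      have h3 : dist (f.curry (S.rho A l) y) (f.curry l₀ y) < ε / 2 :=
        (ContinuousMap.dist_apply_le_dist y).trans_lt h2
      rw [Real.dist_eq] at h3
      have h4 : f.curry (S.rho A l) y = f (l, y) := S.lev_rho hA hf l y
      have h5 : f.curry l₀ y = f (l₀, y) := rfl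
      rw [h4, h5] at h3
      exact h3.le
    · exact ⟨∅, fun h => absurd h hl₀⟩
  choose O hO using hex
  have hcomp : IsCompact (S.LA A) := (S.isClosed_LA A).isCompact
  obtain ⟨t, ht, hcov⟩ := hcomp.elim_nhds_subcover O
    (fun l hl => (hO l hl).1.1.isOpen.mem_nhds (hO l hl).2.1)
  obtain ⟨pc, U, h1, h2, h3, h4, -⟩ := S.pcode_of_list hA f hf hε
    (t.toList.map (fun l => (O l, l))) (by
      intro q hq
      rw [List.mem_map] at hq
      obtain ⟨l, hl, rfl⟩ := hq
      have hl' := ht l (Finset.mem_toList.1 hl)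
      exact ⟨(hO l hl').1, hl', (hO l hl').2.2⟩)
  refine ⟨pc, h1, ?_⟩
  rintro ⟨l, y⟩
  refine h4 l ?_ y
  have h5 := hcov (S.rho_mem_LA hA l)
  rw [mem_iUnion₂] at h5
  obtain ⟨l', hl', hm⟩ := h5
  have h6 : S.rho A l ∈ U :=
    h3 (O l', l') (List.mem_map.2 ⟨l', Finset.mem_toList.2 hl', rfl⟩) hm
  exact (Clop.mem_iff S h2 l).1 h6

end Sys

end Pool.Agent.ZDB

end

section

/-!
# ZDB/RLQ : the return cost of light extensions (README 2.1, key lemma)
def RLQ.  club_rlq: apply `open_refl` with parameters (n : ℕ, r : ℚ) (sp = ∅), nn = n, W (n,r) c = {Y | r < N_Y(fS (range c))}, which is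
open (isOpen_N).  Let b be in the club and Ret.  Let x ∈ BA b, res b Y = x, K(|Y|−|x|) ≤ 1−|x|, q > 0; K = 0 is trivial.
Take A' ⊇ b Ret with Y ∈ BA A'.  By `cost_le_of_N` it is enough to show K·N_Y(fS F) ≤ C² for every finite F ⊆ A'∖b.
Suppose r rational, C²/K < r < N_Y(fS F) (F ≠ ∅ since N_Y(0) = 0); c an injective enumeration of F.  Reflection gives s i, v i, Q i, F₀.
Choose K indices i_1,…,i_K, all eventual, with Q i_k disjoint from F₀ (possible: the Q i are disjoint, F₀ finite).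
Define Y* := Y on F₀ ∪ ... precisely: Y* := Z₀ + ∑_k v i_k where Z₀ := res b Y = x; the masses: |Y*| ≤ |x| + K·mass bᶜ Y = |x| + K(|Y|−|x|) ≤ 1.
Y* = Y on F₀ (F₀ ⊆ b, and v i_k = 0 on F₀), and on Q i_k: Y* = x + v i_k = Y + v i_k (Q i_k ⊆ b, the other v's vanish there).
So r < N_{Y*}(fS (range (s i_k))) for every k, while ∑_k fS(range (s i_k)) ≤ 1 (disjoint ranges, |y| ≤ 1), so
K r < C² by `N_sum_le_one`.  Contradiction.
(To build Y*: `Ball.mk'` with the function i ↦ x i + ∑_k v i_k i.)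
-/

open Set Filter Topology MeasureTheory Pool.Agent.H53.ZD

namespace Pool.Agent.ZDB

variable {κ L : Type*} [TopologicalSpace L] [CompactSpace L] [T2Space L] [TotallyDisconnectedSpace L]
  [MeasurableSpace L] [BorelSpace L]

namespace Sys

variable (S : Sys κ L)

/-- the return cost inequality at level `b` -/
def RLQ (b : Set κ) : Prop :=
  ∀ x ∈ BA b, ∀ Y : Ball κ, Ball.res b Y = x → ∀ K : ℕ, (K : ℝ) * (nm Y - nm x) ≤ 1 - nm x →
    ∀ q : ℝ, 0 < q → (K : ℝ) * q * (S.nu Y).real {l | q < S.cost b l} ≤ S.C ^ 2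

private lemma rlq_core {b : Set κ} (_hb : S.Ret b)
    (hrefl : ∀ p : ℕ × ℚ, ((∅ : Finset κ) : Set κ) ⊆ b → 0 < p.1 → ∀ c : Fin p.1 → κ,
      Function.Injective c → (∀ j, c j ∉ b) → ∀ Z : Ball κ,
      Z ∈ interior {Y : Ball κ | (p.2 : ℝ) < S.N Y (fS (open Classical in Finset.univ.image c))} →
      ∃ (s : ℕ → Fin p.1 → κ) (v : ℕ → Ball κ) (Q : ℕ → Set κ) (F : Finset κ),
        (∀ i, Function.Injective (s i)) ∧ (∀ i, range (s i) ⊆ Q i) ∧ (∀ i, (Q i).Finite) ∧
        (∀ i, Q i ⊆ b) ∧ Pairwise (fun i j => Disjoint (Q i) (Q j)) ∧ (∀ i, v i ∈ BA (Q i)) ∧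
        (∀ i, nm (v i) ≤ Ball.mass bᶜ Z) ∧ (F : Set κ) ⊆ b ∧
        ∀ᶠ i in atTop, ∀ Y : Ball κ, (∀ k ∈ F, Y k = Z k) → (∀ k ∈ Q i, Y k = Z k + v i k) →
          Y ∈ {Y : Ball κ | (p.2 : ℝ) < S.N Y (fS (open Classical in Finset.univ.image (s i)))})
    {x Y : Ball κ} (hY : Ball.res b Y = x) {K : ℕ} (hK0 : 0 < K)
    (hK : (K : ℝ) * (nm Y - nm x) ≤ 1 - nm x) (F : Finset κ) (hF : ∀ i ∈ F, i ∉ b) :
    S.N Y (fS F) ≤ S.C ^ 2 / K := by
  classical
  have hC := S.C_pos
  have hK0' : (0 : ℝ) < K := by exact_mod_cast hK0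
  by_contra hcon
  push Not at hcon
  obtain ⟨r, hr1, hr2⟩ := exists_rat_btwn hcon
  have hr0 : (0 : ℝ) < r := lt_trans (by positivity) hr1
  have hFc : 0 < F.card := by
    rw [Finset.card_pos, Finset.nonempty_iff_ne_empty]
    rintro rfl
    have h0 : S.N Y (fS (∅ : Finset κ)) ≤ 0 := by
      have := S.N_le Y (f := fS (∅ : Finset κ)) (M := 0) le_rfl (fun z => by simp [fS])
      simpa using this
    linarith
  let c : Fin F.card → κ := fun i => (F.equivFin.symm i : κ)
  have hcinj : Function.Injective c :=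
    Subtype.val_injective.comp F.equivFin.symm.injective
  have hcim : Finset.univ.image c = F := by
    ext i
    simp only [Finset.mem_image, Finset.mem_univ, true_and, c]
    constructor
    · rintro ⟨j, rfl⟩
      exact (F.equivFin.symm j).2
    · intro hi
      exact ⟨F.equivFin ⟨i, hi⟩, by simp⟩
  have hcb : ∀ j, c j ∉ b := fun j => hF _ (F.equivFin.symm j).2
  have hopen : IsOpen {Y : Ball κ | (r : ℝ) < S.N Y (fS (Finset.univ.image c))} := by
    refine S.isOpen_N (fun z => ?_) _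
    rw [fS_apply]; exact Ball.mass_nonneg _ _
  have hmem : Y ∈ interior {Y : Ball κ | (r : ℝ) < S.N Y (fS (Finset.univ.image c))} := by
    rw [hopen.interior_eq]
    show (r : ℝ) < S.N Y (fS (Finset.univ.image c))
    rw [hcim]; exact hr2
  obtain ⟨s, v, Q, F₀, hs1, hs2, hs3, hs4, hs5, hs6, hs7, hs8, hs9⟩ :=
    hrefl (F.card, r) (by simp) hFc c hcinj hcb Y hmem
  have hev : ∀ᶠ i in atTop, ∀ k ∈ F₀, k ∉ Q i := by
    rw [Filter.eventually_all_finset]
    intro k _
    by_cases h : ∃ m, k ∈ Q m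
    · obtain ⟨m, hm⟩ := h
      filter_upwards [eventually_gt_atTop m] with n hn hkn
      exact Set.disjoint_left.1 (hs5 hn.ne) hm hkn
    · push Not at h
      exact Eventually.of_forall h
  obtain ⟨N, hN⟩ := eventually_atTop.1 (hs9.and hev)
  have hmass : Ball.mass bᶜ Y = nm Y - nm x := by rw [mass_compl, hY]
  -- the point `Y*`
  let g : κ → ℝ := fun k => x k + ∑ j ∈ Finset.range K, v (N + j) k
  have hg : ∀ t : Finset κ, ∑ k ∈ t, |g k| ≤ 1 := by
    intro t
    calc ∑ k ∈ t, |g k| ≤ ∑ k ∈ t, (|x k| + ∑ j ∈ Finset.range K, |v (N + j) k|) := by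
          refine Finset.sum_le_sum fun k _ => ?_
          exact (abs_add_le _ _).trans (add_le_add le_rfl (Finset.abs_sum_le_sum_abs _ _))
      _ = ∑ k ∈ t, |x k| + ∑ j ∈ Finset.range K, ∑ k ∈ t, |v (N + j) k| := by
          rw [Finset.sum_add_distrib, Finset.sum_comm]
      _ ≤ nm x + ∑ j ∈ Finset.range K, (nm Y - nm x) := by
          refine add_le_add (Ball.sum_le_mass x t fun _ _ => mem_univ _) ?_
          refine Finset.sum_le_sum fun j _ => ?_
          refine (Ball.sum_le_mass (v (N + j)) t fun _ _ => mem_univ _).trans ?_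
          rw [← hmass]; exact hs7 (N + j)
      _ = nm x + K * (nm Y - nm x) := by
          rw [Finset.sum_const, Finset.card_range, nsmul_eq_mul]
      _ ≤ 1 := by linarith
  let Z : Ball κ := Ball.mk' g hg
  have hxb : ∀ k ∈ b, x k = Y k := by
    intro k hk
    rw [← hY, Ball.res_of_mem _ hk]
  have hv0 : ∀ i k, k ∉ Q i → v i k = 0 := fun i k hk => mem_BA.1 (hs6 i) k hk
  have hZ : ∀ j ∈ Finset.range K, (r : ℝ) < S.N Z (fS (Finset.univ.image (s (N + j)))) := by
    intro j hj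
    refine (hN (N + j) (Nat.le_add_right _ _)).1 Z ?_ ?_
    · intro k hk
      show x k + ∑ j ∈ Finset.range K, v (N + j) k = Y k
      rw [Finset.sum_eq_zero, add_zero, hxb k (hs8 hk)]
      intro j' _
      exact hv0 _ _ ((hN (N + j') (Nat.le_add_right _ _)).2 k hk)
    · intro k hk
      show x k + ∑ j ∈ Finset.range K, v (N + j) k = Y k + v (N + j) k
      rw [Finset.sum_eq_single j, hxb k (hs4 _ hk)]
      · intro j' _ hj'
        refine hv0 _ _ fun hk' => ?_
        have hne : N + j' ≠ N + j := by omega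
        exact Set.disjoint_left.1 (hs5 hne) hk' hk
      · intro h; exact absurd hj h
  have hsum : ∑ j ∈ Finset.range K, S.N Z (fS (Finset.univ.image (s (N + j)))) ≤ S.C ^ 2 := by
    refine S.N_sum_le_one (Finset.range K) Z _ fun z => ?_
    show ∑ j ∈ Finset.range K, ∑ i ∈ Finset.univ.image (s (N + j)), |z.2 i| ≤ 1
    rw [← Finset.sum_biUnion]
    · exact z.2.sum_le _
    · intro j _ j' _ hjj'
      rw [Function.onFun, Finset.disjoint_left]
      intro k hk hk'
      simp only [Finset.mem_image, Finset.mem_univ, true_and] at hk hk'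
      have hne : N + j ≠ N + j' := by omega
      exact Set.disjoint_left.1 (hs5 hne) (hs2 _ hk) (hs2 _ hk')
  have hlow : (K : ℝ) * r ≤ ∑ j ∈ Finset.range K, S.N Z (fS (Finset.univ.image (s (N + j)))) := by
    calc (K : ℝ) * r = ∑ j ∈ Finset.range K, (r : ℝ) := by simp
      _ ≤ _ := Finset.sum_le_sum fun j hj => (hZ j hj).le
  rw [div_lt_iff₀ hK0'] at hr1
  linarith

theorem club_rlq : Club S.RLQ := by
  classical
  have h1 := open_refl (κ := κ) (P := ℕ × ℚ) (fun _ => ∅) (fun F => Set.to_countable _)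
    (fun p => p.1)
    (fun p c => {Y : Ball κ | (p.2 : ℝ) < S.N Y (fS (open Classical in Finset.univ.image c))})
  refine (h1.and S.club_ret).mono ?_
  rintro b ⟨hrefl, hb⟩ x hx Y hY K hK q hq
  have hC := S.C_pos
  rcases Nat.eq_zero_or_pos K with rfl | hK0
  · simp only [Nat.cast_zero, zero_mul]
    positivity
  have hK0' : (0 : ℝ) < K := by exact_mod_cast hK0
  obtain ⟨A₀, hA₀, hYA⟩ := exists_countable_BA Y
  obtain ⟨A', hA', hret⟩ := S.retCof (b ∪ A₀) (hb.1.union hA₀)
  have h2 := S.cost_le_of_N hret (subset_union_left.trans hA')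
    (BA_mono (subset_union_right.trans hA') hYA) (c := S.C ^ 2 / K)
    (fun F hF => S.rlq_core hb hrefl hY hK0 hK F (fun i hi => (hF hi).2)) hq
  rw [le_div_iff₀ hK0'] at h2
  calc (K : ℝ) * q * (S.nu Y).real {l | q < S.cost b l}
      = q * (S.nu Y).real {l | q < S.cost b l} * K := by ring
    _ ≤ S.C ^ 2 := h2

end Sys

end Pool.Agent.ZDB

end

section

/-!
# ZDB/RetUnion : increasing unions of levels
Let B = ⋃ A n, A n increasing, all Ret.
* ret_union: for g ∈ C(Ball), g∘res (A n) → g∘res B uniformly (`Ball.unif_dep`: a finite set F of coordinates, F ∩ B ⊆ A n eventually).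
  So for f ∈ C(L) the functions f∘ρ_{A n} = V((T f)∘res(A n)) converge uniformly to V((T f)∘res B).  Given l, any two cluster points x, x'
  of (ρ_{A n} l) have f x = f x' for all f, so ρ_{A n} l converges to some ρ(l) (compactness), f∘ρ = V((T f)∘res B), ρ is continuous since
  f∘ρ is continuous for all f ∈ C(L) (completely regular).  Countability is clear.
* clop_union: 1_O∘ρ_{A n} → 1_O∘ρ_B = 1_O uniformly, so 1_O∘ρ_{A n} = 1_O for large n (both are {0,1}-valued).
* inverse_limit: l n ∈ LA (A n), ρ_{A n} (l (n+1)) = l n.  Let l* be a cluster point of (l n); ρ_{A n} l* = l n because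
  ρ_{A n} (l m) = l n for m ≥ n.  l n ∈ LA (A n) ⊆ LA B closed, so l* ∈ LA B.  A point of LA B is determined by its images
  (clop_union), so l* is unique and l n → l*.
* eq_of_rho_eq: x, x' ∈ LA B with ρ_{A n} x = ρ_{A n} x' for all n are equal: a set O ∈ Clop B separating them is in Clop (A n).
-/

open Set Filter Topology MeasureTheory Pool.Agent.H53.ZD

namespace Pool.Agent.ZDB

variable {κ L : Type*} [TopologicalSpace L] [CompactSpace L] [T2Space L] [TotallyDisconnectedSpace L]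
  [MeasurableSpace L] [BorelSpace L]

namespace Sys

variable (S : Sys κ L) {A : ℕ → Set κ}

omit [CompactSpace L] [T2Space L] [TotallyDisconnectedSpace L] [MeasurableSpace L] [BorelSpace L]
  [TopologicalSpace L] in
theorem eventually_close_res (hm : Monotone A) (g : C(Ball κ, ℝ)) {ε : ℝ} (hε : 0 < ε) :
    ∀ᶠ n in atTop, ∀ y, |g (Ball.res (A n) y) - g (Ball.res (⋃ n, A n) y)| < ε := by
  obtain ⟨F, d, hd, h⟩ := Ball.unif_dep g.continuous hε
  have h1 : ∀ᶠ n in atTop, ∀ i ∈ F, i ∈ (⋃ n, A n) → i ∈ A n := by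
    rw [Filter.eventually_all_finset]
    intro i _
    by_cases hi : i ∈ ⋃ n, A n
    · obtain ⟨k, hk⟩ := mem_iUnion.1 hi
      filter_upwards [eventually_ge_atTop k] with n hn _
      exact hm hn hk
    · exact Eventually.of_forall (fun n h => (hi h).elim)
  filter_upwards [h1] with n hn y
  apply h
  intro i hi
  have e : Ball.res (A n) y i = Ball.res (⋃ n, A n) y i := by
    by_cases hi2 : i ∈ ⋃ n, A n
    · rw [Ball.res_of_mem y (hn i hi hi2), Ball.res_of_mem y hi2]
    · rw [Ball.res_of_notMem y (fun h => hi2 (mem_iUnion.2 ⟨n, h⟩)), Ball.res_of_notMem y hi2]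
  rw [e, sub_self, abs_zero]
  exact hd

theorem eventually_rho_close (hm : Monotone A) (hA : ∀ n, S.Ret (A n)) (f : C(L, ℝ)) {ε : ℝ}
    (hε : 0 < ε) : ∀ᶠ n in atTop, ∀ l,
      |f (S.rho (A n) l) - S.T.symm ((S.T f).comp (resC (⋃ n, A n))) l| < ε := by
  have hC : 0 < S.C := zero_lt_one.trans_le S.one_le
  have hδ : 0 < ε / (2 * S.C) := by positivity
  filter_upwards [eventually_close_res hm (S.T f) hδ] with n hn l
  have h1 := S.hV ((S.T f).comp (resC (A n)) - (S.T f).comp (resC (⋃ n, A n))) (ε / (2 * S.C))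
    (fun y => (hn y).le) hδ.le l
  rw [map_sub, ContinuousMap.sub_apply, S.rho_spec (hA n) f] at h1
  have h2 : S.C * (ε / (2 * S.C)) = ε / 2 := by
    field_simp
  rw [h2] at h1
  exact lt_of_le_of_lt h1 (by linarith)

theorem tendsto_rho (hm : Monotone A) (hA : ∀ n, S.Ret (A n)) (f : C(L, ℝ)) (l : L) :
    Tendsto (fun n => f (S.rho (A n) l)) atTop
      (𝓝 (S.T.symm ((S.T f).comp (resC (⋃ n, A n))) l)) := by
  rw [Metric.tendsto_atTop']
  intro ε hε
  obtain ⟨N, hN⟩ := Filter.eventually_atTop.1 (S.eventually_rho_close hm hA f hε)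
  refine ⟨N, fun n hn => ?_⟩
  rw [Real.dist_eq]
  exact hN n hn.le l

theorem eq_of_forall_eq {x x' : L} (h : ∀ f : C(L, ℝ), f x = f x') : x = x' := by
  by_contra hne
  obtain ⟨V, h1, h2, h3⟩ := compact_exists_isClopen_in_isOpen
    (isOpen_compl_singleton (x := x')) (show x ∈ ({x'} : Set L)ᶜ from hne)
  have h4 := h (cind V)
  rw [cind_of_mem h1 h2, cind_of_notMem (fun h5 => h3 h5 rfl)] at h4
  exact one_ne_zero h4

theorem mem_of_cluster {l : ℕ → L} {x : L} (hx : ClusterPt x (map l atTop)) {K : Set L}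
    (hK : IsClosed K) (h : ∀ᶠ n in atTop, l n ∈ K) : x ∈ K := by
  have h1 : x ∈ closure K := mem_closure_iff_clusterPt.2 (hx.mono (le_principal_iff.2 h))
  rwa [hK.closure_eq] at h1

theorem ret_union (hm : Monotone A) (hA : ∀ n, S.Ret (A n)) : S.Ret (⋃ n, A n) := by
  refine ⟨countable_iUnion (fun n => (hA n).1), ?_⟩
  have key : ∀ l : L, ∃ x : L, ∀ f : C(L, ℝ),
      f x = S.T.symm ((S.T f).comp (resC (⋃ n, A n))) l := by
    intro l
    obtain ⟨x, hx⟩ := exists_clusterPt_of_compactSpace (map (fun n => S.rho (A n) l) atTop)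
    refine ⟨x, fun f => ?_⟩
    have h1 := S.tendsto_rho hm hA f l
    by_contra hne
    obtain ⟨c, hc⟩ : ∃ c, c = S.T.symm ((S.T f).comp (resC (⋃ n, A n))) l := ⟨_, rfl⟩
    rw [← hc] at h1 hne
    have hpos : 0 < |f x - c| := abs_pos.2 (sub_ne_zero.2 hne)
    have h2 : ∀ᶠ n in atTop, S.rho (A n) l ∈ {z : L | |f z - c| ≤ |f x - c| / 2} := by
      have h3 := (Metric.tendsto_nhds.1 h1) (|f x - c| / 2) (by linarith)
      filter_upwards [h3] with n hn
      rw [Real.dist_eq] at hn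
      exact hn.le
    have h4 := mem_of_cluster hx (K := {z : L | |f z - c| ≤ |f x - c| / 2})
      (isClosed_le (by fun_prop) continuous_const) h2
    have h5 : |f x - c| ≤ |f x - c| / 2 := h4
    linarith
  choose ρ hρ using key
  have hcont : Continuous ρ := by
    rw [(isTopologicalBasis_isClopen (X := L)).continuous_iff]
    intro O hO
    have e : ρ ⁻¹' O = {l | 1 / 2 < S.T.symm ((S.T (cind O)).comp (resC (⋃ n, A n))) l} := by
      ext l
      rw [mem_preimage, Set.mem_ofPred_eq, ← hρ l (cind O)]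
      constructor
      · intro h
        rw [cind_of_mem hO h]
        norm_num
      · intro h
        by_contra hn
        rw [cind_of_notMem hn] at h
        norm_num at h
    rw [e]
    exact isOpen_lt continuous_const (ContinuousMap.continuous _)
  refine ⟨⟨ρ, hcont⟩, fun f => ?_⟩
  ext l
  exact (hρ l f).symm

theorem clop_union (hm : Monotone A) (hA : ∀ n, S.Ret (A n)) {O : Set L}
    (hO : S.Clop (⋃ n, A n) O) : ∃ n, S.Clop (A n) O := by
  obtain ⟨n, hn⟩ := (S.eventually_rho_close hm hA (cind O) (ε := 1 / 2) (by norm_num)).exists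
  refine ⟨n, hO.1, ?_⟩
  ext l
  have h1 := hn l
  rw [S.rho_spec (S.ret_union hm hA), ContinuousMap.comp_apply] at h1
  rw [mem_preimage]
  have h2 : S.rho (⋃ n, A n) l ∈ O ↔ l ∈ O := hO.mem_iff S l
  by_cases h3 : S.rho (A n) l ∈ O
  · by_cases h4 : l ∈ O
    · exact ⟨fun _ => h4, fun _ => h3⟩
    · rw [cind_of_mem hO.1 h3, cind_of_notMem (fun h => h4 (h2.1 h))] at h1
      norm_num at h1
  · by_cases h4 : l ∈ O
    · rw [cind_of_notMem h3, cind_of_mem hO.1 (h2.2 h4)] at h1
      norm_num at h1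
    · exact ⟨fun h => (h3 h).elim, fun h => (h4 h).elim⟩

theorem eq_of_rho_eq (hm : Monotone A) (hA : ∀ n, S.Ret (A n)) {x x' : L}
    (hx : x ∈ S.LA (⋃ n, A n)) (hx' : x' ∈ S.LA (⋃ n, A n))
    (h : ∀ n, S.rho (A n) x = S.rho (A n) x') : x = x' := by
  apply eq_of_forall_eq
  intro f
  have h1 := S.tendsto_rho hm hA f x
  have h2 := S.tendsto_rho hm hA f x'
  simp only [h] at h1
  have h3 := tendsto_nhds_unique h1 h2
  rw [S.rho_spec (S.ret_union hm hA), ContinuousMap.comp_apply, ContinuousMap.comp_apply] at h3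
  have e1 : S.rho (⋃ n, A n) x = x := hx
  have e2 : S.rho (⋃ n, A n) x' = x' := hx'
  rwa [e1, e2] at h3

theorem inverse_limit (hm : Monotone A) (hA : ∀ n, S.Ret (A n)) {l : ℕ → L}
    (hl : ∀ n, l n ∈ S.LA (A n)) (hr : ∀ n, S.rho (A n) (l (n + 1)) = l n) :
    ∃ x, x ∈ S.LA (⋃ n, A n) ∧ (∀ n, S.rho (A n) x = l n) ∧ Tendsto l atTop (𝓝 x) := by
  have hB := S.ret_union hm hA
  have h1 : ∀ n m, n ≤ m → S.rho (A n) (l m) = l n := by
    intro n m hnm
    induction m, hnm using Nat.le_induction with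
    | base => exact hl n
    | succ m hnm ih => rw [← S.rho_rho (hA n) (hA m) (hm hnm), hr m, ih]
  have h2 : ∀ x, ClusterPt x (map l atTop) → x ∈ S.LA (⋃ n, A n) ∧
      ∀ n, S.rho (A n) x = l n := by
    intro x hx
    refine ⟨mem_of_cluster hx (S.isClosed_LA _) (Eventually.of_forall (fun n =>
      S.LA_mono (hA n) hB (subset_iUnion A n) (hl n))), fun n => ?_⟩
    exact mem_of_cluster hx (K := {z | S.rho (A n) z = l n})
      (isClosed_eq (S.rho (A n)).continuous continuous_const)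
      (by filter_upwards [eventually_ge_atTop n] with m hm' using h1 n m hm')
  obtain ⟨x, hx⟩ := exists_clusterPt_of_compactSpace (map l atTop)
  refine ⟨x, (h2 x hx).1, (h2 x hx).2, ?_⟩
  apply le_nhds_of_unique_clusterPt
  intro y hy
  apply S.eq_of_rho_eq hm hA (h2 y hy).1 (h2 x hx).1
  intro n
  rw [(h2 y hy).2 n, (h2 x hx).2 n]

end Sys

end Pool.Agent.ZDB

end
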