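import Pool.Agent.ZDM.P04

/-!
# Merged form of the modules ZDB.StemDef, ZDB.AlphaBasic, ZDB.EvDef, ZDB.PathDef, ZDB.Purity0, ZDB.Rigid, ZDB.StemClub, ZDB.AlphaPos, ZDB.CostStep, ZDB.Dust
-/

set_option autoImplicit false
set_option linter.unusedSectionVars false

section

/-!
# ZDB/StemDef : block functions
clamp t = max 0 (min 1 t).  chi g r₀ F y = clamp (|y|_F · g y − r₀),  pf g r₀ P F (l,y) = 1_P(l)·chi g r₀ F y.
All statements are elementary: mass F y = ∑_{i∈F}|y i| is continuous (`continuous_mass_finset`), |y|_F depends on the coordinates in F only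
(`Ball.mass_res`, F ⊆ A), cind P (ρ_A l) = cind P l for P ∈ Clop A.  Lev.mul etc.: pointwise.
pf_pos: 0 < 1_P(l)·chi ⇒ chi > 0 ⇒ |y|_F·g y > r₀.  pf_eq_one: l ∈ P, |y|_F·g y ≥ r₀+1.
-/

open Set Filter Topology MeasureTheory Pool.Agent.H53.ZD

namespace Pool.Agent.ZDB

variable {κ L : Type*} [TopologicalSpace L] [CompactSpace L] [T2Space L] [TotallyDisconnectedSpace L]
  [MeasurableSpace L] [BorelSpace L]

/-- clamp to `[0,1]` -/
noncomputable def clamp (t : ℝ) : ℝ := max 0 (min 1 t)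

lemma continuous_clamp : Continuous clamp :=
  continuous_const.max (continuous_const.min continuous_id)

lemma clamp_nonneg (t : ℝ) : 0 ≤ clamp t := le_max_left _ _
lemma clamp_le_one (t : ℝ) : clamp t ≤ 1 := max_le zero_le_one (min_le_left _ _)

theorem clamp_pos {t : ℝ} (h : 0 < clamp t) : 0 < t := by
  unfold clamp at h
  rcases lt_max_iff.1 h with h | h
  · exact absurd h (lt_irrefl _)
  · exact (lt_min_iff.1 h).2

theorem clamp_eq_one {t : ℝ} (h : 1 ≤ t) : clamp t = 1 := by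
  unfold clamp
  rw [min_eq_left h, max_eq_right zero_le_one]

/-- the block function on the ball -/
noncomputable def chi (g : C(Ball κ, ℝ)) (r₀ : ℝ) (F : Finset κ) : C(Ball κ, ℝ) :=
  ⟨fun y => clamp (Ball.mass (F : Set κ) y * g y - r₀),
    continuous_clamp.comp (((continuous_mass_finset F).mul g.continuous).sub continuous_const)⟩

/-- the block function on `L × B` -/
noncomputable def pf (g : C(Ball κ, ℝ)) (r₀ : ℝ) (P : Set L) (F : Finset κ) :
    C(L × Ball κ, ℝ) :=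
  ⟨fun z => cind P z.1 * chi g r₀ F z.2,
    ((cind P).continuous.comp continuous_fst).mul ((chi g r₀ F).continuous.comp continuous_snd)⟩

lemma pf_apply (g : C(Ball κ, ℝ)) (r₀ : ℝ) (P : Set L) (F : Finset κ) (z : L × Ball κ) :
    pf g r₀ P F z = cind P z.1 * clamp (Ball.mass (F : Set κ) z.2 * g z.2 - r₀) := rfl

theorem pf_nonneg (g : C(Ball κ, ℝ)) (r₀ : ℝ) (P : Set L) (F : Finset κ) (z : L × Ball κ) :
    0 ≤ pf g r₀ P F z := by
  rw [pf_apply]
  exact mul_nonneg (cind_nonneg P _) (clamp_nonneg _)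

theorem pf_le_one (g : C(Ball κ, ℝ)) (r₀ : ℝ) (P : Set L) (F : Finset κ) (z : L × Ball κ) :
    pf g r₀ P F z ≤ 1 := by
  rw [pf_apply]
  exact mul_le_one₀ (cind_le_one P _) (clamp_nonneg _) (clamp_le_one _)

theorem pf_pos {g : C(Ball κ, ℝ)} {r₀ : ℝ} {P : Set L} {F : Finset κ} {l : L} {y : Ball κ}
    (hg : 0 < g y) (h : 0 < pf g r₀ P F (l, y)) : r₀ / g y < Ball.mass (F : Set κ) y := by
  rw [pf_apply] at h
  have h1 : 0 < clamp (Ball.mass (F : Set κ) y * g y - r₀) := by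
    by_contra hcon
    have h2 : clamp (Ball.mass (F : Set κ) y * g y - r₀) = 0 :=
      le_antisymm (not_lt.1 hcon) (clamp_nonneg _)
    rw [h2, mul_zero] at h
    exact lt_irrefl _ h
  have h3 := clamp_pos h1
  rw [div_lt_iff₀ hg]
  linarith

theorem pf_eq_one {g : C(Ball κ, ℝ)} {r₀ : ℝ} {P : Set L} {F : Finset κ} {l : L} {y : Ball κ}
    (hP : IsClopen P) (hl : l ∈ P) (h : r₀ + 1 ≤ Ball.mass (F : Set κ) y * g y) :
    pf g r₀ P F (l, y) = 1 := by
  rw [pf_apply]
  change cind P l * clamp (Ball.mass (F : Set κ) y * g y - r₀) = 1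
  rw [cind_of_mem hP hl, clamp_eq_one (by linarith), mul_one]

namespace Sys

variable (S : Sys κ L) {A A' : Set κ}

theorem Lev.mul {f f' : C(L × Ball κ, ℝ)} (h : S.Lev A f) (h' : S.Lev A f') :
    S.Lev A (f * f') := by
  intro l y
  rw [ContinuousMap.mul_apply, ContinuousMap.mul_apply, h l y, h' l y]

theorem Lev.sub {f f' : C(L × Ball κ, ℝ)} (h : S.Lev A f) (h' : S.Lev A f') :
    S.Lev A (f - f') := by
  intro l y
  rw [ContinuousMap.sub_apply, ContinuousMap.sub_apply, h l y, h' l y]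

theorem Lev.one : S.Lev A (1 : C(L × Ball κ, ℝ)) := fun _ _ => rfl

theorem Lev.mono (hA : S.Ret A) (hA' : S.Ret A') (h : A ⊆ A') {f : C(L × Ball κ, ℝ)}
    (hf : S.Lev A f) : S.Lev A' f := by
  intro l y
  rw [← hf (S.rho A' l) (Ball.res A' y), S.rho_rho hA hA' h, Ball.res_eq_of_subset h, hf l y]

theorem lev_pf {g : C(Ball κ, ℝ)} (hg : g.comp (resC A) = g) (r₀ : ℝ) {P : Set L}
    (hP : S.Clop A P) {F : Finset κ} (hF : (F : Set κ) ⊆ A) : S.Lev A (pf g r₀ P F) := by
  intro l y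
  rw [pf_apply, pf_apply]
  change cind P (S.rho A l) * clamp (Ball.mass (F : Set κ) (Ball.res A y) * g (Ball.res A y) - r₀) =
    cind P l * clamp (Ball.mass (F : Set κ) y * g y - r₀)
  have h1 : g (Ball.res A y) = g y := DFunLike.congr_fun hg y
  have h2 : Ball.mass (F : Set κ) (Ball.res A y) = Ball.mass (F : Set κ) y := by
    rw [Ball.mass_res, inter_eq_left.2 hF]
  have h3 : cind P (S.rho A l) = cind P l := by
    unfold cind
    split_ifs with h
    · change P.indicator (fun _ => (1 : ℝ)) (S.rho A l) = P.indicator (fun _ => (1 : ℝ)) l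
      by_cases hl : l ∈ P
      · rw [indicator_of_mem hl, indicator_of_mem (Clop.mem_iff S hP l |>.2 hl)]
      · rw [indicator_of_notMem hl, indicator_of_notMem (fun h' => hl (Clop.mem_iff S hP l |>.1 h'))]
    · rfl
  rw [h1, h2, h3]

/-- the reflection property of stems at level `A` (README 8.1 (2)) -/
def StemRefl (g : C(Ball κ, ℝ)) (r₀ : ℝ) (A : Set κ) : Prop :=
  ∀ A', S.Ret A' → A ⊆ A' → ∀ Z ∈ BA A', ∀ P, S.Clop A' P → ∀ F : Finset κ,
    (F : Set κ) ⊆ A' \ A → F.Nonempty → ∀ f : C(L × Ball κ, ℝ), (∀ z, 0 ≤ f z) →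
    (∀ z, f z ≤ 1) → S.Lev A f → ∀ r : ℝ, r < S.N Z (f * pf g r₀ P F) →
    ∃ (v : ℕ → Ball κ) (Q : ℕ → Set κ) (Fi : ℕ → Finset κ) (Pi : ℕ → Set L),
      (∀ i, (Q i).Finite) ∧ (∀ i, Q i ⊆ A) ∧ Pairwise (fun i j => Disjoint (Q i) (Q j)) ∧
      (∀ i, v i ∈ BA (Q i)) ∧ (∀ i, nm (v i) ≤ Ball.mass Aᶜ Z) ∧
      (∀ i, (Fi i : Set κ) ⊆ Q i) ∧ (∀ i, S.Clop A (Pi i)) ∧
      ∀ᶠ i in atTop, r < S.N (plus (Ball.res A Z) (v i)) (f * pf g r₀ (Pi i) (Fi i))

end Sys

end Pool.Agent.ZDB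

end

section

/-!
# ZDB/AlphaBasic : AlphaA and AlphaB
-/

open Set Filter Topology MeasureTheory Pool.Agent.H53.ZD

namespace Pool.Agent.ZDB



end Pool.Agent.ZDB

end

section

/-!
# ZDB/EvDef : the functions g and e₀ of the final assembly
ginv rh c y = 1/(c·rh y) if c·rh > 0 everywhere (otherwise 1).  ginv_lev: rh (res A y) = rh (res b (res A y)) = rh (res b y) = rh y for b ⊆ A.
evE (l,y) = 1_E(l)·clamp((|y|_{F₀} − (1 − rh y) − g/2)/(2g/5)).  evE_pos: clamp_pos; evE_eq_one: clamp_eq_one, cind_of_mem.  evE_lev: cind E (ρ_A l) = cind E l, mass F₀ (res A y) = mass F₀ y (F₀ ⊆ A).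
-/

open Set Filter Topology MeasureTheory Pool.Agent.H53.ZD

namespace Pool.Agent.ZDB

variable {κ L : Type*} [TopologicalSpace L] [CompactSpace L] [T2Space L] [TotallyDisconnectedSpace L]
  [MeasurableSpace L] [BorelSpace L]

/-- the function `1/(c·rh)` -/
noncomputable def ginv (rh : C(Ball κ, ℝ)) (c : ℝ) : C(Ball κ, ℝ) :=
  open Classical in
  if h : ∀ y, 0 < c * rh y then
    ⟨fun y => (c * rh y)⁻¹, (continuous_const.mul rh.continuous).inv₀ fun y => (h y).ne'⟩ else 1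

theorem ginv_apply {rh : C(Ball κ, ℝ)} {c : ℝ} (h : ∀ y, 0 < c * rh y) (y : Ball κ) :
    ginv rh c y = (c * rh y)⁻¹ := by
  unfold ginv
  rw [dif_pos h]
  rfl

private theorem ginv_apply' {rh : C(Ball κ, ℝ)} {c : ℝ} (h : ¬ ∀ y, 0 < c * rh y) (y : Ball κ) :
    ginv rh c y = 1 := by
  unfold ginv
  rw [dif_neg h]
  rfl

theorem ginv_pos (rh : C(Ball κ, ℝ)) (c : ℝ) (y : Ball κ) : 0 < ginv rh c y := by
  by_cases h : ∀ y, 0 < c * rh y
  · rw [ginv_apply h]
    exact inv_pos.2 (h y)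
  · rw [ginv_apply' h]
    exact one_pos

private theorem rh_res {rh : C(Ball κ, ℝ)} {A b : Set κ} (hrh : rh.comp (resC b) = rh)
    (hb : b ⊆ A) (y : Ball κ) : rh (Ball.res A y) = rh y := by
  have h1 : rh (Ball.res b (Ball.res A y)) = rh (Ball.res A y) :=
    DFunLike.congr_fun hrh (Ball.res A y)
  have h2 : rh (Ball.res b y) = rh y := DFunLike.congr_fun hrh y
  rw [← h1, Ball.res_eq_of_subset hb, h2]

theorem ginv_lev {rh : C(Ball κ, ℝ)} (c : ℝ) {A b : Set κ} (hrh : rh.comp (resC b) = rh)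
    (hb : b ⊆ A) : (ginv rh c).comp (resC A) = ginv rh c := by
  ext y
  change ginv rh c (Ball.res A y) = ginv rh c y
  by_cases h : ∀ y, 0 < c * rh y
  · rw [ginv_apply h, ginv_apply h, rh_res hrh hb]
  · rw [ginv_apply' h, ginv_apply' h]

/-- the event function of the `w`-object -/
noncomputable def evE (E : Set L) (F₀ : Finset κ) (rh : C(Ball κ, ℝ)) (g : ℝ) :
    C(L × Ball κ, ℝ) :=
  ⟨fun z => cind E z.1 *
      clamp ((Ball.mass (F₀ : Set κ) z.2 - (1 - rh z.2) - g / 2) / (2 * g / 5)),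
    ((cind E).continuous.comp continuous_fst).mul (continuous_clamp.comp
      ((((((continuous_mass_finset F₀).comp continuous_snd).sub
        (continuous_const.sub (rh.continuous.comp continuous_snd))).sub
          continuous_const)).div_const _))⟩

private theorem evE_apply (E : Set L) (F₀ : Finset κ) (rh : C(Ball κ, ℝ)) (g : ℝ)
    (z : L × Ball κ) : evE E F₀ rh g z = cind E z.1 *
      clamp ((Ball.mass (F₀ : Set κ) z.2 - (1 - rh z.2) - g / 2) / (2 * g / 5)) := rfl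

theorem evE_nonneg (E : Set L) (F₀ : Finset κ) (rh : C(Ball κ, ℝ)) (g : ℝ) (z : L × Ball κ) :
    0 ≤ evE E F₀ rh g z := by
  rw [evE_apply]
  exact mul_nonneg (cind_nonneg E _) (clamp_nonneg _)

theorem evE_le_one (E : Set L) (F₀ : Finset κ) (rh : C(Ball κ, ℝ)) (g : ℝ) (z : L × Ball κ) :
    evE E F₀ rh g z ≤ 1 := by
  rw [evE_apply]
  exact mul_le_one₀ (cind_le_one E _) (clamp_nonneg _) (clamp_le_one _)

theorem evE_pos {E : Set L} {F₀ : Finset κ} {rh : C(Ball κ, ℝ)} {g : ℝ} (hg : 0 < g) {l : L}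
    {y : Ball κ} (h : 0 < evE E F₀ rh g (l, y)) :
    1 - rh y + g / 2 < Ball.mass (F₀ : Set κ) y := by
  rw [evE_apply] at h
  have h1 : 0 < clamp ((Ball.mass (F₀ : Set κ) y - (1 - rh y) - g / 2) / (2 * g / 5)) := by
    by_contra hcon
    have h2 : clamp ((Ball.mass (F₀ : Set κ) y - (1 - rh y) - g / 2) / (2 * g / 5)) = 0 :=
      le_antisymm (not_lt.1 hcon) (clamp_nonneg _)
    change 0 < cind E l *
      clamp ((Ball.mass (F₀ : Set κ) y - (1 - rh y) - g / 2) / (2 * g / 5)) at h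
    rw [h2, mul_zero] at h
    exact lt_irrefl _ h
  have h3 := clamp_pos h1
  have h4 : 0 < 2 * g / 5 := by positivity
  have h5 := (div_pos_iff_of_pos_right h4).1 h3
  linarith

theorem evE_eq_one {E : Set L} {F₀ : Finset κ} {rh : C(Ball κ, ℝ)} {g : ℝ} (hg : 0 < g)
    (hE : IsClopen E) {l : L} (hl : l ∈ E) {y : Ball κ}
    (h : 1 - rh y + 9 * g / 10 ≤ Ball.mass (F₀ : Set κ) y) : evE E F₀ rh g (l, y) = 1 := by
  rw [evE_apply]
  change cind E l *
      clamp ((Ball.mass (F₀ : Set κ) y - (1 - rh y) - g / 2) / (2 * g / 5)) = 1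
  have h4 : 0 < 2 * g / 5 := by positivity
  rw [cind_of_mem hE hl, clamp_eq_one, mul_one]
  rw [le_div_iff₀ h4]
  linarith

theorem Sys.evE_lev (S : Sys κ L) {A b : Set κ} {E : Set L} (hE : S.Clop A E) {F₀ : Finset κ}
    (hF₀ : (F₀ : Set κ) ⊆ A) {rh : C(Ball κ, ℝ)} (hrh : rh.comp (resC b) = rh) (hb : b ⊆ A)
    (g : ℝ) : S.Lev A (evE E F₀ rh g) := by
  intro l y
  rw [evE_apply, evE_apply]
  change cind E (S.rho A l) * clamp ((Ball.mass (F₀ : Set κ) (Ball.res A y) -
      (1 - rh (Ball.res A y)) - g / 2) / (2 * g / 5)) =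
    cind E l * clamp ((Ball.mass (F₀ : Set κ) y - (1 - rh y) - g / 2) / (2 * g / 5))
  have h2 : Ball.mass (F₀ : Set κ) (Ball.res A y) = Ball.mass (F₀ : Set κ) y := by
    rw [Ball.mass_res, inter_eq_left.2 hF₀]
  have h3 : cind E (S.rho A l) = cind E l := by
    unfold cind
    split_ifs with h
    · change E.indicator (fun _ => (1 : ℝ)) (S.rho A l) = E.indicator (fun _ => (1 : ℝ)) l
      by_cases hl : l ∈ E
      · rw [indicator_of_mem hl, indicator_of_mem (Sys.Clop.mem_iff S hE l |>.2 hl)]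
      · rw [indicator_of_notMem hl,
          indicator_of_notMem (fun h' => hl (Sys.Clop.mem_iff S hE l |>.1 h'))]
    · rfl
  rw [rh_res hrh hb, h2, h3]

end Pool.Agent.ZDB

end

section

/-!
# ZDB/PathDef : the data of the path theorem (README 8.1)
X k = res (A k) X; e k = e₀·∏_{i<k} pf (P i)(F i).  e_lev: pf (P i)(F i) has level A (i+1) ⊆ A k (lev_pf, g has level A 0, Lev.mono).
-/

open Set Filter Topology MeasureTheory Pool.Agent.H53.ZD

namespace Pool.Agent.ZDB

variable {κ L : Type*} [TopologicalSpace L] [CompactSpace L] [T2Space L] [TotallyDisconnectedSpace L]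
  [MeasurableSpace L] [BorelSpace L]

namespace Sys

/-- the data of the path theorem -/
structure PathData (S : Sys κ L) (n : ℕ) where
  g : C(Ball κ, ℝ)
  r₀ : ℝ
  g_pos : ∀ y, 0 < g y
  r₀_nonneg : 0 ≤ r₀
  A : ℕ → Set κ
  mono : Monotone A
  ret : ∀ k, S.Ret (A k)
  stem : ∀ k, k < n → S.StemRefl g r₀ (A k)
  g_lev : g.comp (resC (A 0)) = g
  X : Ball κ
  memX : X ∈ BA (A n)
  e₀ : C(L × Ball κ, ℝ)
  e₀_nonneg : ∀ z, 0 ≤ e₀ z
  e₀_le_one : ∀ z, e₀ z ≤ 1
  e₀_lev : S.Lev (A 0) e₀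
  P : ℕ → Set L
  F : ℕ → Finset κ
  clopP : ∀ k, k < n → S.Clop (A (k + 1)) (P k)
  F_sub : ∀ k, k < n → (F k : Set κ) ⊆ A (k + 1) \ A k
  F_ne : ∀ k, k < n → (F k).Nonempty
  F₀ : Finset κ
  F₀_sub : (F₀ : Set κ) ⊆ A 0
  u : ℝ
  u_pos : 0 < u
  step_le : ∀ k, k < n → nm (Ball.res (A (k + 1)) X) - nm (Ball.res (A k) X) ≤ u

namespace PathData

variable {S : Sys κ L} {n : ℕ} (D : PathData S n)

/-- the points of the stem -/
noncomputable def Xk (k : ℕ) : Ball κ := Ball.res (D.A k) D.X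

/-- the event functions of the stem -/
noncomputable def ek (k : ℕ) : C(L × Ball κ, ℝ) :=
  D.e₀ * ∏ i ∈ Finset.range k, pf D.g D.r₀ (D.P i) (D.F i)

theorem ek_zero : D.ek 0 = D.e₀ := by
  rw [ek, Finset.range_zero, Finset.prod_empty, mul_one]

theorem ek_succ (k : ℕ) : D.ek (k + 1) = D.ek k * pf D.g D.r₀ (D.P k) (D.F k) := by
  rw [ek, ek, Finset.prod_range_succ, mul_assoc]

private theorem ek_succ_apply (k : ℕ) (z : L × Ball κ) :
    D.ek (k + 1) z = D.ek k z * pf D.g D.r₀ (D.P k) (D.F k) z := by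
  rw [D.ek_succ k]
  rfl

private theorem pf_lev' {k : ℕ} (hk : k < n) :
    S.Lev (D.A (k + 1)) (pf D.g D.r₀ (D.P k) (D.F k)) := by
  refine lev_pf S ?_ D.r₀ (D.clopP k hk) (fun i hi => (D.F_sub k hk hi).1)
  ext y
  have h1 : ∀ y, D.g (Ball.res (D.A 0) y) = D.g y := fun y => by
    have := congrArg (fun f : C(Ball κ, ℝ) => f y) D.g_lev
    exact this
  change D.g (Ball.res (D.A (k + 1)) y) = D.g y
  rw [← h1 (Ball.res (D.A (k + 1)) y), res_res_of_subset (D.mono (Nat.zero_le _)), h1]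

theorem ek_nonneg (k : ℕ) (z : L × Ball κ) : 0 ≤ D.ek k z := by
  induction k with
  | zero => rw [D.ek_zero]; exact D.e₀_nonneg z
  | succ k ih => rw [D.ek_succ_apply]; exact mul_nonneg ih (pf_nonneg _ _ _ _ _)

theorem ek_le_one (k : ℕ) (z : L × Ball κ) : D.ek k z ≤ 1 := by
  induction k with
  | zero => rw [D.ek_zero]; exact D.e₀_le_one z
  | succ k ih =>
    rw [D.ek_succ_apply]
    exact mul_le_one₀ ih (pf_nonneg _ _ _ _ _) (pf_le_one _ _ _ _ _)

theorem ek_anti {k k' : ℕ} (h : k ≤ k') (z : L × Ball κ) : D.ek k' z ≤ D.ek k z := by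
  induction k', h using Nat.le_induction with
  | base => exact le_rfl
  | succ m _ ih =>
    refine le_trans ?_ ih
    rw [D.ek_succ_apply]
    exact mul_le_of_le_one_right (D.ek_nonneg m z) (pf_le_one _ _ _ _ _)

theorem ek_lev {k : ℕ} (hk : k ≤ n) : S.Lev (D.A k) (D.ek k) := by
  induction k with
  | zero => rw [D.ek_zero]; exact D.e₀_lev
  | succ k ih =>
    rw [D.ek_succ]
    exact Lev.mul S (Lev.mono S (D.ret k) (D.ret (k + 1)) (D.mono (Nat.le_succ k))
      (ih (Nat.le_of_succ_le hk))) (D.pf_lev' hk)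

theorem pf_lev {k : ℕ} (hk : k < n) : S.Lev (D.A (k + 1)) (pf D.g D.r₀ (D.P k) (D.F k)) := by
  exact D.pf_lev' hk

theorem Xk_mem (k : ℕ) : D.Xk k ∈ BA (D.A k) := res_mem_BA _ _

theorem nm_Xk_le (k : ℕ) : nm (D.Xk k) ≤ nm D.X := nm_res_le _ _

/-- restriction of `X_j + w` to level `k ≤ j` -/
theorem res_plus {k j : ℕ} (h : k ≤ j) {w : Ball κ} (hw : w ∈ BA (D.A k))
    (hm : nm D.X + nm w ≤ 1) :
    Ball.res (D.A k) (plus (D.Xk j) w) = plus (D.Xk k) w := by
  have h1 : nm (D.Xk j) + nm w ≤ 1 := le_trans (add_le_add (D.nm_Xk_le j) le_rfl) hm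
  have h2 : Ball.res (D.A k) w = w := hw
  have h3 : Ball.res (D.A k) (D.Xk j) = D.Xk k := res_res_of_subset (D.mono h) D.X
  rw [_root_.Pool.Agent.ZDB.res_plus h1, h2, h3]

/-- top monotonicity: `N_{X_k+w}(f) ≤ N_{X_j+w}(f)` for `f ≥ 0` of level `A k`, `k ≤ j` -/
theorem N_mono_stem {k j : ℕ} (h : k ≤ j) {w : Ball κ} (hw : w ∈ BA (D.A k))
    (hm : nm D.X + nm w ≤ 1) {f : C(L × Ball κ, ℝ)} (h0 : ∀ z, 0 ≤ f z)
    (hf : S.Lev (D.A k) f) : S.N (plus (D.Xk k) w) f ≤ S.N (plus (D.Xk j) w) f := by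
  rw [← D.res_plus h hw hm]
  exact S.N_level_le (D.ret k) h0 hf _

/-- the growth of `N(f)` is at most the growth of `N(1)` for `0 ≤ f ≤ 1` of level `A k` -/
theorem N_growth_le {k j : ℕ} (h : k ≤ j) {w : Ball κ} (hw : w ∈ BA (D.A k))
    (hm : nm D.X + nm w ≤ 1) {f : C(L × Ball κ, ℝ)} (h1 : ∀ z, f z ≤ 1)
    (hf : S.Lev (D.A k) f) :
    S.N (plus (D.Xk j) w) f - S.N (plus (D.Xk k) w) f ≤
      S.N (plus (D.Xk j) w) 1 - S.N (plus (D.Xk k) w) 1 := by
  have h2 := D.N_mono_stem h hw hm (f := 1 - f) (fun z => by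
    have := h1 z
    change 0 ≤ 1 - f z
    linarith) (Lev.sub S (Lev.one S) hf)
  rw [S.N_sub, S.N_sub] at h2
  linarith

end PathData

end Sys

end Pool.Agent.ZDB

end

section

/-!
# ZDB/Purity0 : README 2.2
Q clopen, disjoint from LA b.  ρ_b⁻¹(Q) = ∅, so (T 1_Q)∘res b = T(1_Q∘ρ_b) = 0.  By `Ball.unif_dep` (ε = 1/(2C)) there are F, d > 0 with
|T 1_Q y − T 1_Q (res b y)| < 1/(2C) if |y_i − (res b y)_i| < d on F; since |y_i − (res b y)_i| ≤ mass bᶜ y, this gives:
|T 1_Q y| ≥ 1/(2C) ⇒ mass bᶜ y ≥ d.  For l ∈ Q: 1 ≤ ∫|T 1_Q| dlam_l ≤ C·lam_l(|T 1_Q| ≥ 1/(2C)) + (1/(2C))·C, so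
lam_l(mass bᶜ y ≥ d) ≥ 1/(2C) and cost b l ≥ d/(2C) > q := d/(4C).  So Q ⊆ {l | q < cost b l}.
Let x ∈ BA b, nm x < 1, res b Y = x, δ = (nm Y − nm x)/(1−nm x) ∈ [0,1].  If δ = 0: Y = x and nu x is carried by LA b.  Otherwise
K = ⌊1/δ⌋₊ ≥ 1/(2δ) and K(nm Y − nm x) ≤ 1 − nm x, so nu_Y(Q) ≤ C²/(Kq) ≤ (2C²/q)·δ.
cost_light: K = ⌊(1−nm x)/τ⌋₊ ≥ 1, K ≥ (1−nm x)/(2τ), K(nm Y − nm x) ≤ Kτ ≤ 1−nm x, so the measure is ≤ C²/(Kq) ≤ 2τC²/(q(1−nm x)) ≤ k₀.
-/

open Set Filter Topology MeasureTheory Pool.Agent.H53.ZD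

namespace Pool.Agent.ZDB

variable {κ L : Type*} [TopologicalSpace L] [CompactSpace L] [T2Space L] [TotallyDisconnectedSpace L]
  [MeasurableSpace L] [BorelSpace L]

namespace Sys

variable (S : Sys κ L)

private lemma purity0_floor {t : ℝ} (ht : 1 ≤ t) : 1 ≤ (⌊t⌋₊ : ℝ) ∧ t / 2 ≤ (⌊t⌋₊ : ℝ) := by
  have h1 : 1 ≤ ⌊t⌋₊ := (Nat.one_le_floor_iff t).2 ht
  have h1' : (1 : ℝ) ≤ (⌊t⌋₊ : ℝ) := by exact_mod_cast h1
  have h2 : t < (⌊t⌋₊ : ℝ) + 1 := Nat.lt_floor_add_one t
  exact ⟨h1', by linarith⟩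

/-- the consequence of the return cost inequality for light extensions -/
private lemma purity0_light {b : Set κ} (hR : S.RLQ b) {x Y : Ball κ} (hx : x ∈ BA b)
    (hY : Ball.res b Y = x) {q τ : ℝ} (hq : 0 < q) (hτ : 0 < τ) (hτ1 : τ ≤ 1 - nm x)
    (hYx : nm Y - nm x ≤ τ) :
    (S.nu Y).real {l | q < S.cost b l} ≤ 2 * S.C ^ 2 * τ / (q * (1 - nm x)) := by
  have hx1 : 0 < 1 - nm x := hτ.trans_le hτ1
  have ht : 1 ≤ (1 - nm x) / τ := (one_le_div hτ).2 hτ1
  obtain ⟨hK1, hK2⟩ := purity0_floor ht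
  set K : ℕ := ⌊(1 - nm x) / τ⌋₊ with hK
  have hK0 : (0 : ℝ) < K := by linarith
  have hKτ : (K : ℝ) * τ ≤ 1 - nm x := by
    have : (K : ℝ) ≤ (1 - nm x) / τ := Nat.floor_le (by positivity)
    calc (K : ℝ) * τ ≤ (1 - nm x) / τ * τ := by gcongr
      _ = 1 - nm x := div_mul_cancel₀ _ hτ.ne'
  have hKY : (K : ℝ) * (nm Y - nm x) ≤ 1 - nm x := by
    refine le_trans ?_ hKτ
    exact mul_le_mul_of_nonneg_left hYx hK0.le
  have h := hR x hx Y hY K hKY q hq
  set m := (S.nu Y).real {l | q < S.cost b l} with hm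
  have hm0 : 0 ≤ m := measureReal_nonneg
  rw [le_div_iff₀ (by positivity)]
  -- `m * (q * (1 - nm x)) ≤ 2 C² τ`
  have h3 : (1 - nm x) ≤ 2 * K * τ := by
    have : (1 - nm x) / τ / 2 * τ ≤ K * τ := by gcongr
    have e : (1 - nm x) / τ / 2 * τ = (1 - nm x) / 2 := by field_simp
    linarith
  calc m * (q * (1 - nm x)) ≤ m * (q * (2 * K * τ)) := by gcongr
    _ = 2 * ((K : ℝ) * q * m) * τ := by ring
    _ ≤ 2 * S.C ^ 2 * τ := by gcongr

theorem purity0 {b : Set κ} (hb : S.Ret b) (hR : S.RLQ b) {Q : Set L} (hQ : IsClopen Q)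
    (hQb : Disjoint Q (S.LA b)) : ∃ c : ℝ, 0 < c ∧ ∀ x ∈ BA b, nm x < 1 → ∀ Y : Ball κ,
      Ball.res b Y = x → (S.nu Y).real Q ≤ c * ((nm Y - nm x) / (1 - nm x)) := by
  have hC := S.C_pos
  set f : C(Ball κ, ℝ) := S.T (cind Q) with hf
  have hf1 : ∀ y, |f y| ≤ S.C := by
    intro y
    simpa using S.hT (cind Q) 1 (fun l => abs_cind_le Q l) zero_le_one y
  have hfres : ∀ y, f (Ball.res b y) = 0 := by
    intro y
    have h1 := S.T_comp_rho hb (cind Q)
    rw [← cind_comp (S.rho b) hQ] at h1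
    have h2 : S.rho b ⁻¹' Q = ∅ := by
      ext l
      simp only [mem_preimage, mem_empty_iff_false, iff_false]
      intro h
      exact Set.disjoint_left.1 hQb h (S.rho_mem_LA hb l)
    rw [h2, cind_empty, map_zero] at h1
    have h3 := congrArg (fun g : C(Ball κ, ℝ) => g y) h1
    simp only [ContinuousMap.zero_apply, ContinuousMap.comp_apply] at h3
    exact h3.symm
  obtain ⟨F, d, hd, hFd⟩ := Ball.unif_dep f.continuous (ε := 1 / (2 * S.C)) (by positivity)
  have hfy : ∀ y, |f y| ≤ (S.C / d) * Ball.mass bᶜ y + 1 / (2 * S.C) := by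
    intro y
    have hm0 : 0 ≤ Ball.mass bᶜ y := Ball.mass_nonneg _ _
    rcases le_or_gt d (Ball.mass bᶜ y) with h | h
    · have h1 : S.C ≤ (S.C / d) * Ball.mass bᶜ y := by
        rw [div_mul_eq_mul_div, le_div_iff₀ hd]
        exact mul_le_mul_of_nonneg_left h hC.le
      have h2 : (0 : ℝ) < 1 / (2 * S.C) := by positivity
      linarith [hf1 y]
    · have h1 : ∀ i ∈ F, |y i - Ball.res b y i| < d := by
        intro i _
        by_cases hi : i ∈ b
        · rw [Ball.res_of_mem _ hi, sub_self, abs_zero]; exact hd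
        · rw [Ball.res_of_notMem _ hi, sub_zero]
          exact (Ball.abs_le_mass y (A := bᶜ) hi).trans_lt h
      have h2 := hFd y (Ball.res b y) h1
      rw [hfres y, sub_zero] at h2
      have h3 : 0 ≤ (S.C / d) * Ball.mass bᶜ y := by positivity
      linarith
  have hint_mass : ∀ l, Integrable (fun y => Ball.mass bᶜ y) (S.lam l) := fun l =>
    integrable_bdd (S.lam l) (Ball.measurable_mass bᶜ) 1
      (fun y => by rw [abs_of_nonneg (Ball.mass_nonneg _ _)]; exact Ball.mass_le_one _ _)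
  have hcost : ∀ l ∈ Q, d / (4 * S.C) < S.cost b l := by
    intro l hl
    have h1 : 1 ≤ ∫ y, |f y| ∂(S.lam l) := S.one_le_int_T hQ hl
    have h2 : ∫ y, |f y| ∂(S.lam l) ≤
        ∫ y, ((S.C / d) * Ball.mass bᶜ y + 1 / (2 * S.C)) ∂(S.lam l) := by
      refine integral_mono (integrable_cont _ _ (by fun_prop)) ?_ hfy
      exact ((hint_mass l).const_mul _).add (integrable_const _)
    have h3 : ∫ y, ((S.C / d) * Ball.mass bᶜ y + 1 / (2 * S.C)) ∂(S.lam l) =
        (S.C / d) * S.cost b l + (S.lam l).real univ * (1 / (2 * S.C)) := by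
      rw [integral_add ((hint_mass l).const_mul _) (integrable_const _), integral_const_mul]
      simp [cost]
    have h4 : (S.lam l).real univ * (1 / (2 * S.C)) ≤ 1 / 2 := by
      have := S.lam_univ_le l
      calc (S.lam l).real univ * (1 / (2 * S.C)) ≤ S.C * (1 / (2 * S.C)) := by gcongr
        _ = 1 / 2 := by field_simp
    have h5 : 1 / 2 ≤ (S.C / d) * S.cost b l := by linarith
    rw [div_mul_eq_mul_div, le_div_iff₀ hd] at h5
    rw [div_lt_iff₀ (by positivity)]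
    nlinarith
  refine ⟨2 * S.C ^ 2 / (d / (4 * S.C)), by positivity, ?_⟩
  intro x hx hx1 Y hY
  have hx1' : 0 < 1 - nm x := by linarith
  have hxY : nm x ≤ nm Y := by rw [← hY]; exact nm_res_le b Y
  rcases eq_or_lt_of_le hxY with h | h
  · have hYx : Y = x := eq_of_res_eq_of_nm_le hY h.ge
    rw [← h, sub_self, zero_div, mul_zero, hYx]
    have h0 : S.nu x Q = 0 :=
      measure_mono_null (fun l hl => fun h' => Set.disjoint_left.1 hQb hl h')
        (S.nu_compl_LA hb hx)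
    rw [measureReal_def, h0]
    simp
  · have h1 := S.purity0_light hR hx hY (q := d / (4 * S.C)) (τ := nm Y - nm x) (by positivity)
      (by linarith) (by linarith [nm_le_one Y]) le_rfl
    have h2 : (S.nu Y).real Q ≤ (S.nu Y).real {l | d / (4 * S.C) < S.cost b l} :=
      measureReal_mono (fun l hl => hcost l hl)
    refine h2.trans (h1.trans (le_of_eq ?_))
    have hq : d / (4 * S.C) ≠ 0 := by positivity
    field_simp

/-- light extensions have small return cost: if `|Y| < |x| + τ` with `τ ≤ κ₀ q (1-|x|)/(2C²)`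
then the measure of the points of cost `> q` is at most `κ₀` -/
theorem cost_light {b : Set κ} (hR : S.RLQ b) {x Y : Ball κ} (hx : x ∈ BA b) (hx1 : nm x < 1)
    (hY : Ball.res b Y = x) {q k₀ τ : ℝ} (hq : 0 < q) (hk : 0 < k₀) (hτ : 0 < τ)
    (hτ1 : τ ≤ 1 - nm x) (hτ2 : τ ≤ k₀ * q * (1 - nm x) / (2 * S.C ^ 2))
    (hYx : nm Y < nm x + τ) : (S.nu Y).real {l | q < S.cost b l} ≤ k₀ := by
  have hC := S.C_pos
  have hx1' : 0 < 1 - nm x := by linarith
  refine (S.purity0_light hR hx hY hq hτ hτ1 (by linarith)).trans ?_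
  rw [div_le_iff₀ (by positivity)]
  rw [le_div_iff₀ (by positivity)] at hτ2
  linarith

end Sys

end Pool.Agent.ZDB

end

section

/-!
# ZDB/Rigid : rigidity (README 4.2)
l' ∈ LA b', A ⊆ b' both Ret, l = ρ_A l', R := ρ_A⁻¹{l} ∋ l'.  Fv l' = ∫ (nu_y(univ) + nu_y({l'}ᶜ)) dlam_{l'}, Fv l likewise (l ∈ LA A).
nu_y({l'}ᶜ) = nu_y(Rᶜ) + nu_y(R∖{l'}), nu_y(univ) ≥ nu_{res A y}(univ), nu_y(Rᶜ) ≥ nu_{res A y}({l}ᶜ) (nu_res_real).
With G(y) = nu_y(univ)+nu_y({l}ᶜ) ≥ 1/C:  Fv l' ≥ ∫ G(res A y) dlam_{l'} + ∫ nu_y(R∖{l'}) dlam_{l'}, and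
∫ G∘res A dlam_{l'} = ∫ G d(map) ≥ ∫ G dlam_l + (1/C)(lam_{l'}(univ) − lam_l(univ)) since lam_l ≤ map (res A) lam_{l'} (apply this domination to
G − 1/C ≥ 0).  Hence (a), (b) [and Fv l ≤ Fv l'].
(c) O ∈ Clop A, l ∈ O: nu_y({l'}ᶜ) = nu_y(Oᶜ) + nu_y(O∖{l'}) and nu_y(Oᶜ) ≥ nu_{res A y}(Oᶜ) (ρ_A⁻¹Oᶜ = Oᶜ);
Fv l' ≥ ∫ (nu_y(univ)+nu_y(Oᶜ)) dlam_l + ∫ nu_y(O∖{l'}) dlam_{l'} and Fv l = ∫(nu_y(univ)+nu_y(Oᶜ)) dlam_l + ∫ nu_y(O∖{l}) dlam_l.
(d) atom_res: nu_{res A y}{l} ≤ nu_y(R) = nu_y{l'} + nu_y(R∖{l'}).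
-/

open Set Filter Topology MeasureTheory Pool.Agent.H53.ZD

namespace Pool.Agent.ZDB

variable {κ L : Type*} [TopologicalSpace L] [CompactSpace L] [T2Space L] [TotallyDisconnectedSpace L]
  [MeasurableSpace L] [BorelSpace L]

namespace Sys

variable (S : Sys κ L) {A b b' : Set κ} {l l' : L}

private theorem dom_int (hA : S.Ret A) (h : S.rho A l' = l) {f : Ball κ → ℝ}
    (hf : Measurable f) {M : ℝ} (h0 : ∀ y, 0 ≤ f y) (hM : ∀ y, f y ≤ M) :
    ∫ y, f y ∂(S.lam l) ≤ ∫ y, f (Ball.res A y) ∂(S.lam l') := by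
  have hr : Measurable (Ball.res A : Ball κ → Ball κ) := Ball.measurable_res A
  have h1 : S.lam l ≤ (S.lam l').map (Ball.res A) := by
    rw [← h]
    exact S.lam_rho_le hA l'
  have h2 : Integrable f ((S.lam l').map (Ball.res A)) := by
    refine integrable_bdd _ hf M (fun y => ?_)
    rw [abs_of_nonneg (h0 y)]
    exact hM y
  have h3 := integral_mono_measure h1 (Filter.Eventually.of_forall h0) h2
  rwa [integral_map hr.aemeasurable hf.aestronglyMeasurable] at h3

private theorem int_nu {U : Set L} (hU : MeasurableSet U) (l : L) :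
    Integrable (fun y => (S.nu y).real U) (S.lam l) :=
  integrable_bdd _ (S.measurable_nu_real hU) S.C (fun y => by
    rw [abs_of_nonneg measureReal_nonneg]
    exact S.nu_le y U)

private theorem int_nu_res {U : Set L} (hU : MeasurableSet U) (l : L) :
    Integrable (fun y => (S.nu (Ball.res A y)).real U) (S.lam l) :=
  integrable_bdd _ ((S.measurable_nu_real hU).comp (Ball.measurable_res A)) S.C (fun y => by
    rw [abs_of_nonneg measureReal_nonneg]
    exact S.nu_le _ U)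

private theorem int_split {U V W : Set L} (hU : MeasurableSet U) (hV : MeasurableSet V)
    (hW : MeasurableSet W) (l : L) :
    ∫ y, ((S.nu (Ball.res A y)).real U + (S.nu (Ball.res A y)).real V + (S.nu y).real W)
      ∂(S.lam l) = ∫ y, ((S.nu (Ball.res A y)).real U + (S.nu (Ball.res A y)).real V) ∂(S.lam l) +
      ∫ y, (S.nu y).real W ∂(S.lam l) :=
  integral_add (f := fun y => (S.nu (Ball.res A y)).real U + (S.nu (Ball.res A y)).real V)
    ((S.int_nu_res hU l).add (S.int_nu_res hV l)) (S.int_nu hW l)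

private theorem int_sub_const (c : ℝ) {g : Ball κ → ℝ} {μ : Measure (Ball κ)} [IsFiniteMeasure μ]
    (hg : Integrable g μ) : ∫ y, (g y - c) ∂μ = ∫ y, g y ∂μ - μ.real univ * c := by
  rw [integral_sub hg (integrable_const _), integral_const, smul_eq_mul]

private theorem mass_le (hA : S.Ret A) (h : S.rho A l' = l) :
    (S.lam l).real univ ≤ (S.lam l').real univ := by
  have h1 := S.lam_rho_real hA l' (W := univ) MeasurableSet.univ
  rw [h, preimage_univ] at h1
  exact h1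

private theorem split_compl (y : Ball κ) {R : Set L} (hR : MeasurableSet R) (hl' : l' ∈ R) :
    (S.nu y).real {l'}ᶜ = (S.nu y).real Rᶜ + (S.nu y).real (R \ {l'}) := by
  rw [← measureReal_union _ (hR.diff (measurableSet_singleton l'))]
  · congr 1
    ext x
    simp only [mem_compl_iff, mem_singleton_iff, mem_union, Set.mem_sdiff]
    constructor
    · intro hx
      by_cases hxR : x ∈ R
      · exact Or.inr ⟨hxR, hx⟩
      · exact Or.inl hxR
    · rintro (hx | hx)
      · rintro rfl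
        exact hx hl'
      · exact hx.2
  · rw [disjoint_left]
    intro x hx hx2
    exact hx hx2.1

private theorem measR (A : Set κ) (l : L) : MeasurableSet (S.rho A ⁻¹' {l}) :=
  (isClosed_singleton.preimage (S.rho A).continuous).measurableSet

/-- the main inequality -/
private theorem main (hA : S.Ret A) (hb' : S.Ret b') (hl' : l' ∈ S.LA b')
    (h : S.rho A l' = l) :
    1 / S.C * ((S.lam l').real univ - (S.lam l).real univ) +
      ∫ y, (S.nu y).real ((S.rho A ⁻¹' {l}) \ {l'}) ∂(S.lam l') ≤ S.Fv l' - S.Fv l := by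
  have hl : l ∈ S.LA A := by
    rw [← h]
    exact S.rho_mem_LA hA l'
  have hR := S.measR A l
  have hlR : l' ∈ S.rho A ⁻¹' {l} := h
  have hcl : MeasurableSet ({l}ᶜ : Set L) := (measurableSet_singleton l).compl
  rw [S.Fv_eq hb' hl', S.Fv_eq hA hl]
  have e1 : ∫ y, ((S.nu (Ball.res A y)).real univ + (S.nu (Ball.res A y)).real {l}ᶜ +
      (S.nu y).real ((S.rho A ⁻¹' {l}) \ {l'})) ∂(S.lam l') ≤
      ∫ y, ((S.nu y).real univ + (S.nu y).real {l'}ᶜ) ∂(S.lam l') := by
    apply integral_mono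
    · exact ((S.int_nu_res MeasurableSet.univ l').add (S.int_nu_res hcl l')).add
        (S.int_nu (hR.diff (measurableSet_singleton l')) l')
    · exact (S.int_nu MeasurableSet.univ l').add
        (S.int_nu (measurableSet_singleton l').compl l')
    · intro y
      change (S.nu (Ball.res A y)).real univ + (S.nu (Ball.res A y)).real {l}ᶜ +
        (S.nu y).real ((S.rho A ⁻¹' {l}) \ {l'}) ≤ (S.nu y).real univ + (S.nu y).real {l'}ᶜ
      rw [S.split_compl y hR hlR]
      have h1 := S.nu_res_real hA y (U := univ) MeasurableSet.univ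
      have h2 := S.nu_res_real hA y hcl
      rw [preimage_univ] at h1
      rw [preimage_compl] at h2
      linarith
  rw [S.int_split MeasurableSet.univ hcl (hR.diff (measurableSet_singleton l'))] at e1
  -- domination for `G - 1/C`
  have e2 := S.dom_int hA h (f := fun y => (S.nu y).real univ + (S.nu y).real {l}ᶜ - 1 / S.C)
    (((S.measurable_nu_real MeasurableSet.univ).add (S.measurable_nu_real hcl)).sub_const _)
    (M := S.C + S.C) (fun y => by
      have h1 := S.nu_univ_ge y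
      have h2 : 0 ≤ (S.nu y).real {l}ᶜ := measureReal_nonneg
      linarith) (fun y => by
      have h1 := S.nu_le y univ
      have h2 := S.nu_le y ({l}ᶜ : Set L)
      have h3 : 0 < 1 / S.C := one_div_pos.2 S.C_pos
      linarith)
  rw [int_sub_const (1 / S.C) (g := fun y => (S.nu y).real univ + (S.nu y).real {l}ᶜ)
      ((S.int_nu MeasurableSet.univ l).add (S.int_nu hcl l)),
    int_sub_const (1 / S.C) (g := fun y => (S.nu (Ball.res A y)).real univ +
      (S.nu (Ball.res A y)).real {l}ᶜ)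
      ((S.int_nu_res MeasurableSet.univ l').add (S.int_nu_res hcl l'))] at e2
  linarith

theorem rigid_mass (hA : S.Ret A) (hb' : S.Ret b') (hAb : A ⊆ b') (hl' : l' ∈ S.LA b')
    (h : S.rho A l' = l) :
    (S.lam l').real univ - (S.lam l).real univ ≤ S.C * (S.Fv l' - S.Fv l) := by
  have h1 := S.main hA hb' hl' h
  have h2 : 0 ≤ ∫ y, (S.nu y).real ((S.rho A ⁻¹' {l}) \ {l'}) ∂(S.lam l') :=
    integral_nonneg (fun y => measureReal_nonneg)
  have h3 : 1 / S.C * ((S.lam l').real univ - (S.lam l).real univ) ≤ S.Fv l' - S.Fv l := by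
    linarith
  rw [one_div, inv_mul_le_iff₀ S.C_pos] at h3
  exact h3

theorem rigid_fibre (hA : S.Ret A) (hb' : S.Ret b') (hAb : A ⊆ b') (hl' : l' ∈ S.LA b')
    (h : S.rho A l' = l) :
    ∫ y, (S.nu y).real ((S.rho A ⁻¹' {l}) \ {l'}) ∂(S.lam l') ≤ S.Fv l' - S.Fv l := by
  have h1 := S.main hA hb' hl' h
  have h2 := S.mass_le hA h
  have h3 : 0 ≤ 1 / S.C * ((S.lam l').real univ - (S.lam l).real univ) :=
    mul_nonneg (one_div_pos.2 S.C_pos).le (sub_nonneg.2 h2)
  linarith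

theorem rigid_clop (hA : S.Ret A) (hb' : S.Ret b') (hAb : A ⊆ b') (hl' : l' ∈ S.LA b')
    (h : S.rho A l' = l) {O : Set L} (hO : S.Clop A O) (hlO : l ∈ O) :
    ∫ y, (S.nu y).real (O \ {l'}) ∂(S.lam l') ≤
      S.Fv l' - S.Fv l + ∫ y, (S.nu y).real (O \ {l}) ∂(S.lam l) := by
  have hl : l ∈ S.LA A := by
    rw [← h]
    exact S.rho_mem_LA hA l'
  have hOm : MeasurableSet O := hO.1.2.measurableSet
  have hl'O : l' ∈ O := by
    rw [← hO.2]
    change S.rho A l' ∈ O
    rw [h]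
    exact hlO
  rw [S.Fv_eq hb' hl', S.Fv_eq hA hl]
  have e1 : ∫ y, ((S.nu (Ball.res A y)).real univ + (S.nu (Ball.res A y)).real Oᶜ +
      (S.nu y).real (O \ {l'})) ∂(S.lam l') ≤
      ∫ y, ((S.nu y).real univ + (S.nu y).real {l'}ᶜ) ∂(S.lam l') := by
    apply integral_mono
    · exact ((S.int_nu_res MeasurableSet.univ l').add (S.int_nu_res hOm.compl l')).add
        (S.int_nu (hOm.diff (measurableSet_singleton l')) l')
    · exact (S.int_nu MeasurableSet.univ l').add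
        (S.int_nu (measurableSet_singleton l').compl l')
    · intro y
      change (S.nu (Ball.res A y)).real univ + (S.nu (Ball.res A y)).real Oᶜ +
        (S.nu y).real (O \ {l'}) ≤ (S.nu y).real univ + (S.nu y).real {l'}ᶜ
      rw [S.split_compl y hOm hl'O]
      have h1 := S.nu_res_real hA y (U := univ) MeasurableSet.univ
      have h2 := S.nu_res_real hA y hOm.compl
      rw [preimage_univ] at h1
      rw [preimage_compl, hO.2] at h2
      linarith
  rw [S.int_split MeasurableSet.univ hOm.compl (hOm.diff (measurableSet_singleton l'))] at e1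
  have e2 := S.dom_int hA h (f := fun y => (S.nu y).real univ + (S.nu y).real Oᶜ)
    ((S.measurable_nu_real MeasurableSet.univ).add (S.measurable_nu_real hOm.compl))
    (M := S.C + S.C) (fun y => add_nonneg measureReal_nonneg measureReal_nonneg)
    (fun y => add_le_add (S.nu_le y univ) (S.nu_le y _))
  have e3 : ∫ y, ((S.nu y).real univ + (S.nu y).real {l}ᶜ) ∂(S.lam l) =
      ∫ y, ((S.nu y).real univ + (S.nu y).real Oᶜ) ∂(S.lam l) +
        ∫ y, (S.nu y).real (O \ {l}) ∂(S.lam l) := by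
    rw [← integral_add (f := fun y => (S.nu y).real univ + (S.nu y).real Oᶜ)
      ((S.int_nu MeasurableSet.univ l).add (S.int_nu hOm.compl l))
      (S.int_nu (hOm.diff (measurableSet_singleton l)) l)]
    congr 1
    funext y
    rw [S.split_compl y hOm hlO]
    ring
  linarith

theorem atom_res_le (hA : S.Ret A) (h : S.rho A l' = l) (y : Ball κ) :
    (S.nu (Ball.res A y)).real {l} ≤
      (S.nu y).real {l'} + (S.nu y).real ((S.rho A ⁻¹' {l}) \ {l'}) := by
  have h1 := S.nu_res_real hA y (measurableSet_singleton l)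
  refine h1.trans ?_
  have h2 : S.rho A ⁻¹' {l} ⊆ {l'} ∪ ((S.rho A ⁻¹' {l}) \ {l'}) := by
    intro x hx
    by_cases hx' : x = l'
    · exact Or.inl hx'
    · exact Or.inr ⟨hx, hx'⟩
  exact (measureReal_mono h2).trans (measureReal_union_le _ _)

/-- the extra mass, on a measurable set: `|λ_{l'}|(r_A⁻¹ W) ≤ |λ_l|(W) + C (F(l')-F(l))` -/
theorem lam_le_add (hA : S.Ret A) (hb' : S.Ret b') (hAb : A ⊆ b') (hl' : l' ∈ S.LA b')
    (h : S.rho A l' = l) {W : Set (Ball κ)} (hW : MeasurableSet W) :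
    (S.lam l').real (Ball.res A ⁻¹' W) ≤ (S.lam l).real W + S.C * (S.Fv l' - S.Fv l) := by
  have h1 := S.rigid_mass hA hb' hAb hl' h
  have h2 := S.lam_rho_real hA l' hW.compl
  rw [h, preimage_compl, measureReal_compl hW,
    measureReal_compl ((Ball.measurable_res A) hW)] at h2
  linarith

theorem Fv_mono_of_rho (hA : S.Ret A) (h : S.rho A l' = l) : S.Fv l ≤ S.Fv l' := by
  rw [← h]
  exact S.Fv_rho_le hA l'

/-- extra mass for integrals of bounded nonnegative functions -/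
theorem int_le_add (hA : S.Ret A) (hb' : S.Ret b') (hAb : A ⊆ b') (hl' : l' ∈ S.LA b')
    (h : S.rho A l' = l) {f : Ball κ → ℝ} (hf : Measurable f) {M : ℝ} (h0 : ∀ y, 0 ≤ f y)
    (hM : ∀ y, f y ≤ M) :
    ∫ y, f (Ball.res A y) ∂(S.lam l') ≤
      ∫ y, f y ∂(S.lam l) + M * (S.C * (S.Fv l' - S.Fv l)) := by
  have hM0 : 0 ≤ M := (h0 0).trans (hM 0)
  have h1 := S.rigid_mass hA hb' hAb hl' h
  have h2 := S.dom_int hA h (f := fun y => M - f y) (measurable_const.sub hf) (M := M)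
    (fun y => sub_nonneg.2 (hM y)) (fun y => by linarith [h0 y])
  have hi : ∀ (μ : Measure (Ball κ)) [IsFiniteMeasure μ] (g : Ball κ → Ball κ), Measurable g →
      Integrable (fun y => f (g y)) μ := fun μ _ g hg =>
    integrable_bdd _ (hf.comp hg) M (fun y => by
      rw [abs_of_nonneg (h0 _)]
      exact hM _)
  rw [integral_sub (integrable_const _) (hi _ (fun y => y) measurable_id),
    integral_sub (integrable_const _) (hi _ _ (Ball.measurable_res A)), integral_const,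
    integral_const, smul_eq_mul, smul_eq_mul] at h2
  have h3 := mul_le_mul_of_nonneg_left h1 hM0
  linarith

end Sys

end Pool.Agent.ZDB

end

section

/-!
# ZDB/StemClub : the reflection property of stems holds for club many A
Club: Ret, club_coded, and `open_refl` with parameters (pc : PCode κ, n₀, p : Fin n₀ → κ, n' , m : ℕ, pat : Finset (Fin n') , r' : ℚ),
sp = supp pc ∪ range p, nn = n', and
W (..) c := {Y | ∃ P', Coded ⟨n₀+n', Fin.append p c, m⟩ P' ∧ r' < N_Y((evP pc ⊔ 0) * pf g r₀ P' (image of pat under c))}.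
(P' is unique, so W is open or empty: isOpen_N.)
Let A be in the club and Z, P, F, f, r as in StemRefl.  ε > 0 with r + 2εC² < N_Z(f*pf g r₀ P F), r' rational with
r + εC² < r' < N_Z(..) − εC².  pc from exists_pcode (f, A, ε); |f − (evP pc ⊔ 0)| ≤ ε (f ≥ 0) so r' < N_Z((evP pc ⊔ 0)*pf) (0 ≤ pf ≤ 1; N_mono, N_le).
Code of P: by exists_code for T(cind P) (level A', clop_iff) with ε = 1/(4C): a finite F_P ⊆ A'; p = enumeration of F_P ∩ A, c = injective enumeration of
(F_P ∖ A) ∪ F (outside A; nonempty because F is), pat = the indices of F; m with Coded ⟨n₀+n', append p c, m⟩ P.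
open_refl: s i, v i, Q i, F₁.  For large i take Y := plus (res A Z) (v i) (nm (res A Z) + nm (v i) ≤ nm Z): Y = Z on F₁ (Q i is disjoint from F₁ for large i,
F₁ ⊆ A) and Y = Z + v i on Q i ⊆ A.  So Y ∈ W (s i): P' =: Pi i, of level A by club_coded (supports p, s i ⊆ A) and clop_iff; Fi i := image of pat under s i.
N_Y(f*pf ..) ≥ N_Y((evP pc ⊔ 0)*pf ..) − εC² > r.  For the other i put Pi i = ∅ (clop_empty), the same Fi.
-/

open Set Filter Topology MeasureTheory Pool.Agent.H53.ZD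

namespace Pool.Agent.ZDB

variable {κ L : Type*} [TopologicalSpace L] [CompactSpace L] [T2Space L] [TotallyDisconnectedSpace L]
  [MeasurableSpace L] [BorelSpace L]

/-- the parameters of the reflection -/
private structure StemPar (κ : Type*) where
  pc : PCode κ
  n₀ : ℕ
  n' : ℕ
  p : Fin n₀ → κ
  m : ℕ
  pat : Finset (Fin n')
  r' : ℚ

open Classical in
private noncomputable def StemPar.sp (x : StemPar κ) : Finset κ :=
  PCode.supp x.pc ∪ Finset.univ.image x.p

private theorem StemPar.fibre (F : Finset κ) : {x : StemPar κ | x.sp = F}.Countable := by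
  classical
  have h1 : {pc : PCode κ | PCode.supp pc ⊆ F}.Countable := by
    have h2 : (⋃ F' ∈ (F.powerset : Set (Finset κ)), {pc : PCode κ | PCode.supp pc = F'}).Countable :=
      (F.powerset.countable_toSet).biUnion (fun F' _ => PCode.fibre_countable F')
    refine h2.mono ?_
    intro pc hpc
    have hpc' : PCode.supp pc ⊆ F := hpc
    simp only [mem_iUnion]
    exact ⟨PCode.supp pc, Finset.mem_coe.2 (Finset.mem_powerset.2 hpc'), rfl⟩
  have : Countable {pc : PCode κ // PCode.supp pc ⊆ F} := h1.to_subtype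
  refine (countable_range (fun z : (Σ n₀ : ℕ, Σ n' : ℕ, {pc : PCode κ // PCode.supp pc ⊆ F} ×
    (Fin n₀ → F) × ℕ × Finset (Fin n') × ℚ) =>
    (⟨z.2.2.1.1, z.1, z.2.1, fun i => (z.2.2.2.1 i : κ), z.2.2.2.2.1, z.2.2.2.2.2.1,
      z.2.2.2.2.2.2⟩ : StemPar κ))).mono ?_
  rintro ⟨pc, n₀, n', p, m, pat, r'⟩ hx
  have hx' : PCode.supp pc ∪ Finset.univ.image p = F := hx
  have hpc : PCode.supp pc ⊆ F := by
    rw [← hx']
    exact Finset.subset_union_left
  have hp : ∀ i, p i ∈ F := by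
    intro i
    rw [← hx']
    exact Finset.mem_union_right _ (Finset.mem_image_of_mem _ (Finset.mem_univ i))
  exact ⟨⟨n₀, n', ⟨pc, hpc⟩, fun i => ⟨p i, hp i⟩, m, pat, r'⟩, rfl⟩

open Classical in
private def StemPar.W (S : Sys κ L) (g : C(Ball κ, ℝ)) (r₀ : ℝ) (x : StemPar κ)
    (c : Fin x.n' → κ) : Set (Ball κ) :=
  {Y | ∃ P', S.Coded ⟨x.n₀ + x.n', Fin.append x.p c, x.m⟩ P' ∧
    (x.r' : ℝ) < S.N Y ((S.evP x.pc ⊔ 0) * pf g r₀ P' (x.pat.image c))}

private theorem range_app {a b : ℕ} (p : Fin a → κ) (c : Fin b → κ) :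
    range (Fin.append p c) = range p ∪ range c := by
  ext x
  constructor
  · rintro ⟨i, rfl⟩
    refine Fin.addCases (fun j => ?_) (fun j => ?_) i
    · rw [Fin.append_left]
      exact Or.inl (mem_range_self j)
    · rw [Fin.append_right]
      exact Or.inr (mem_range_self j)
  · rintro (⟨j, rfl⟩ | ⟨j, rfl⟩)
    · exact ⟨Fin.castAdd b j, Fin.append_left _ _ _⟩
    · exact ⟨Fin.natAdd a j, Fin.append_right _ _ _⟩

private theorem supp_app {a b : ℕ} (p : Fin a → κ) (c : Fin b → κ) (m : ℕ) :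
    ((⟨a + b, Fin.append p c, m⟩ : FCode κ).supp : Set κ) = range p ∪ range c := by
  classical
  rw [← range_app]
  unfold FCode.supp
  ext x
  simp

private theorem enum_range (G : Finset κ) :
    range (fun i : Fin G.card => (G.equivFin.symm i : κ)) = (G : Set κ) := by
  ext i
  constructor
  · rintro ⟨j, rfl⟩
    exact (G.equivFin.symm j).2
  · intro hi
    exact ⟨G.equivFin ⟨i, hi⟩, by simp⟩

private theorem eventually_disj {Q : ℕ → Set κ} (hQ : Pairwise fun i j => Disjoint (Q i) (Q j))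
    (F : Finset κ) : ∀ᶠ i in atTop, ∀ k ∈ F, k ∉ Q i := by
  rw [Finset.eventually_all]
  intro k _
  have h1 : {i | k ∈ Q i}.Subsingleton := by
    intro i hi j hj
    by_contra hij
    exact Set.disjoint_left.1 (hQ hij) hi hj
  have h2 := h1.finite.eventually_cofinite_notMem
  rw [Nat.cofinite_eq_atTop] at h2
  exact h2

namespace Sys

variable (S : Sys κ L)

private theorem N_close (Y : Ball κ) (f f' : C(L × Ball κ, ℝ)) (g : C(Ball κ, ℝ)) (r₀ : ℝ)
    (P : Set L) (F : Finset κ) {ε : ℝ} (hε : 0 ≤ ε) (h : ∀ z, f z ≤ f' z + ε) :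
    S.N Y (f * pf g r₀ P F) ≤ S.N Y (f' * pf g r₀ P F) + ε * S.C ^ 2 := by
  have h1 : S.N Y (f * pf g r₀ P F) ≤
      S.N Y (f' * pf g r₀ P F + (ContinuousMap.const _ ε : C(L × Ball κ, ℝ))) := by
    refine S.N_mono Y fun z => ?_
    have h2 := pf_nonneg g r₀ P F z
    have h3 := pf_le_one g r₀ P F z
    change f z * pf g r₀ P F z ≤ f' z * pf g r₀ P F z + ε
    have h4 := mul_le_mul_of_nonneg_right (h z) h2
    have h5 := mul_le_mul_of_nonneg_left h3 hε
    linarith
  rw [S.N_add] at h1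
  have h6 : S.N Y (ContinuousMap.const _ ε : C(L × Ball κ, ℝ)) ≤ ε * S.C ^ 2 :=
    S.N_le Y hε (fun z => le_refl ε)
  linarith

theorem club_stem (g : C(Ball κ, ℝ)) (r₀ : ℝ) : Club (S.StemRefl g r₀) := by
  classical
  refine ((S.club_ret.and S.club_coded).and (open_refl (StemPar.sp (κ := κ)) StemPar.fibre
    StemPar.n' (StemPar.W S g r₀))).mono ?_
  rintro A ⟨⟨hA, hcod⟩, hrefl⟩
  intro A' hA' hAA' Z hZ P hP F hF hFne f hf0 hf1 hfA r hr
  have hCpos : 0 < S.C := S.C_pos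
  set d : ℝ := S.N Z (f * pf g r₀ P F) - r with hd
  have hd0 : 0 < d := sub_pos.2 hr
  set ε : ℝ := d / (4 * S.C ^ 2) with hεdef
  have hε : 0 < ε := by positivity
  have hεC : ε * S.C ^ 2 = d / 4 := by
    rw [hεdef]
    field_simp
  obtain ⟨r', hr1, hr2⟩ := exists_rat_btwn (show r + d / 4 < r + d - d / 4 by linarith)
  obtain ⟨pc, hpcA, hpc⟩ := S.exists_pcode hA f hfA hε
  have hsup1 : ∀ z, f z ≤ (S.evP pc ⊔ 0) z + ε := by
    intro z
    have h1 := (abs_le.1 (hpc z)).2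
    have h2 : S.evP pc z ≤ (S.evP pc ⊔ 0) z := by
      rw [ContinuousMap.sup_apply]
      exact le_max_left _ _
    linarith
  have hsup2 : ∀ z, (S.evP pc ⊔ 0) z ≤ f z + ε := by
    intro z
    have h1 := (abs_le.1 (hpc z)).1
    rw [ContinuousMap.sup_apply]
    refine max_le (by linarith) ?_
    have := hf0 z
    change (0:ℝ) ≤ f z + ε
    linarith
  have hsup0 : ∀ z, 0 ≤ (S.evP pc ⊔ 0) z := by
    intro z
    rw [ContinuousMap.sup_apply]
    exact le_max_right _ _
  -- the code of `P`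
  have hlev : S.LevC A' P := (S.clop_iff hA' hP.1).1 hP
  obtain ⟨FP, hFPA, hFP⟩ := exists_code (S.T (cind P)) A' hlev
    (show (0 : ℝ) < 1 / (4 * S.C) by positivity)
  set G₀ : Finset κ := FP.filter (fun i => i ∈ A) with hG₀
  set G₁ : Finset κ := FP.filter (fun i => i ∉ A) ∪ F with hG₁
  set pp : Fin G₀.card → κ := fun i => (G₀.equivFin.symm i : κ) with hpp
  set cc : Fin G₁.card → κ := fun i => (G₁.equivFin.symm i : κ) with hcc
  have hrp : range pp = (G₀ : Set κ) := enum_range G₀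
  have hrc : range cc = (G₁ : Set κ) := enum_range G₁
  have hcinj : Function.Injective cc := fun i j hij =>
    G₁.equivFin.symm.injective (Subtype.ext hij)
  have hG₁out : ∀ k ∈ G₁, k ∉ A := by
    intro k hk
    rcases Finset.mem_union.1 hk with h | h
    · exact (Finset.mem_filter.1 h).2
    · exact (hF h).2
  have hcout : ∀ j, cc j ∉ A := fun j => hG₁out _ (G₁.equivFin.symm j).2
  have hn' : 0 < G₁.card := by
    rw [Finset.card_pos]
    exact hFne.mono Finset.subset_union_right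
  have hranA' : range (Fin.append pp cc) ⊆ A' := by
    rw [range_app, hrp, hrc]
    rintro k (hk | hk)
    · exact hFPA (Finset.mem_filter.1 hk).1
    · rcases Finset.mem_union.1 hk with h | h
      · exact hFPA (Finset.mem_filter.1 h).1
      · exact (hF h).1
  have hFPran : (FP : Set κ) ⊆ range (Fin.append pp cc) := by
    rw [range_app, hrp, hrc]
    intro k hk
    by_cases hkA : k ∈ A
    · exact Or.inl (Finset.mem_coe.2 (Finset.mem_filter.2 ⟨hk, hkA⟩))
    · exact Or.inr (Finset.mem_coe.2 (Finset.mem_union_left _ (Finset.mem_filter.2 ⟨hk, hkA⟩)))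
  obtain ⟨m, hm⟩ := hFP _ (Fin.append pp cc) hFPran hranA'
  set pat : Finset (Fin G₁.card) := Finset.univ.filter (fun j => cc j ∈ F) with hpat
  have himg : pat.image cc = F := by
    ext k
    simp only [hpat, Finset.mem_image, Finset.mem_filter, Finset.mem_univ, true_and]
    constructor
    · rintro ⟨j, hj, rfl⟩
      exact hj
    · intro hk
      have h1 : k ∈ range cc := by
        rw [hrc]
        exact Finset.mem_coe.2 (Finset.mem_union_right _ hk)
      obtain ⟨j, rfl⟩ := h1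
      exact ⟨j, hk, rfl⟩
  set x : StemPar κ := ⟨pc, G₀.card, G₁.card, pp, m, pat, r'⟩ with hx
  have hcodP : S.Coded ⟨x.n₀ + x.n', Fin.append x.p cc, x.m⟩ P :=
    ⟨hP.1, fun y => (hm y).le⟩
  have hspA : (x.sp : Set κ) ⊆ A := by
    intro k hk
    rcases Finset.mem_union.1 (Finset.mem_coe.1 hk) with h | h
    · exact hpcA h
    · obtain ⟨j, -, rfl⟩ := Finset.mem_image.1 h
      exact (Finset.mem_filter.1 (G₀.equivFin.symm j).2).2
  have hint : Z ∈ interior (StemPar.W S g r₀ x cc) := by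
    rw [mem_interior]
    refine ⟨{Y | (r' : ℝ) < S.N Y ((S.evP pc ⊔ 0) * pf g r₀ P F)}, ?_, ?_, ?_⟩
    · intro Y hY
      refine ⟨P, hcodP, ?_⟩
      have h1 : (r' : ℝ) < S.N Y ((S.evP pc ⊔ 0) * pf g r₀ P F) := hY
      have h2 : x.pat.image cc = F := himg
      rw [h2]
      exact h1
    · refine S.isOpen_N (fun z => ?_) r'
      exact mul_nonneg (hsup0 z) (pf_nonneg g r₀ P F z)
    · have h1 := S.N_close Z f (S.evP pc ⊔ 0) g r₀ P F hε.le hsup1
      rw [hεC] at h1
      change (r' : ℝ) < S.N Z ((S.evP pc ⊔ 0) * pf g r₀ P F)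
      linarith
  obtain ⟨s, v, Q, F₁, hsinj, hsQ, hQfin, hQA, hQd, hvQ, hvn, hF₁A, hev⟩ :=
    hrefl x hspA hn' cc hcinj hcout Z hint
  let Pi : ℕ → Set L := fun i =>
    if h : ∃ P', S.Coded ⟨x.n₀ + x.n', Fin.append x.p (s i), x.m⟩ P' ∧
      (x.r' : ℝ) < S.N (plus (Ball.res A Z) (v i))
        ((S.evP x.pc ⊔ 0) * pf g r₀ P' (x.pat.image (s i))) then h.choose else ∅
  refine ⟨v, Q, fun i => x.pat.image (s i), Pi, hQfin, hQA, hQd, hvQ, hvn, ?_, ?_, ?_⟩
  · intro i k hk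
    obtain ⟨j, -, rfl⟩ := Finset.mem_image.1 (Finset.mem_coe.1 hk)
    exact hsQ i (mem_range_self j)
  · intro i
    change S.Clop A (dite _ _ _)
    split_ifs with h
    · have h1 := h.choose_spec.1
      have h2 : (((⟨x.n₀ + x.n', Fin.append x.p (s i), x.m⟩ : FCode κ).supp : Finset κ) : Set κ)
          ⊆ A := by
        rw [supp_app]
        rintro k (hk | hk)
        · obtain ⟨j, rfl⟩ := hk
          exact (Finset.mem_filter.1 (G₀.equivFin.symm j).2).2
        · exact hQA i (hsQ i hk)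
      exact (S.clop_iff hA h1.1).2 (hcod _ h2 _ h1)
    · exact S.clop_empty A
  · filter_upwards [hev, eventually_disj hQd F₁] with i hi hdi
    have hnm : nm (Ball.res A Z) + nm (v i) ≤ 1 := by
      have h1 := hvn i
      have h2 := nm_split A Z
      have h3 := nm_le_one Z
      rw [nm_res]
      linarith
    have hvi := mem_BA.1 (hvQ i)
    have hW : plus (Ball.res A Z) (v i) ∈ StemPar.W S g r₀ x (s i) := by
      refine hi _ ?_ ?_
      · intro k hk
        rw [plus_apply hnm, Ball.res_of_mem Z (hF₁A hk), hvi k (hdi k hk), add_zero]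
      · intro k hk
        rw [plus_apply hnm, Ball.res_of_mem Z (hQA i hk)]
    have hex : ∃ P', S.Coded ⟨x.n₀ + x.n', Fin.append x.p (s i), x.m⟩ P' ∧
      (x.r' : ℝ) < S.N (plus (Ball.res A Z) (v i))
        ((S.evP x.pc ⊔ 0) * pf g r₀ P' (x.pat.image (s i))) := hW
    have hPi : Pi i = hex.choose := dif_pos hex
    rw [hPi]
    have h1 := hex.choose_spec.2
    have h2 := S.N_close (plus (Ball.res A Z) (v i)) (S.evP x.pc ⊔ 0) f g r₀ hex.choose
      (x.pat.image (s i)) hε.le hsup2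
    rw [hεC] at h2
    have h3 : (r' : ℝ) < S.N (plus (Ball.res A Z) (v i))
      (f * pf g r₀ hex.choose (x.pat.image (s i))) + d / 4 := h1.trans_le h2
    linarith

end Sys

end Pool.Agent.ZDB

end

section

/-!
# ZDB/AlphaPos : README 3.1
nm x < 1, A countable, τ > 0.  A₀ ⊇ A Ret with x ∈ BA A₀; s ∉ A₀ (κ uncountable); A₁ ⊇ A₀ ∪ {s} Ret; 0 < u < min τ (1 − nm x) ;
Y = x + u e_s (u ≤ 1).  h(y) = min 1 (|y s|/u) ∈ C(Ball), 0 ≤ h ≤ 1, h(Y) = 1, h∘res A₁ = h, h∘res A₀ = 0.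
f = S.T.symm h: f∘ρ_{A₁} = f, f∘ρ_{A₀} = V(h∘res A₀) = 0 (V_comp_res).  If l ∉ D A₀ A₁ then f(l) = f(ρ_{A₁}l) = f(ρ_{A₀}l) = 0.
1 = h(Y) = T f Y ≤ ∫|f| dnu_Y ≤ C·nu_Y(D A₀ A₁) (|f| ≤ C).  So a x univ A τ ≥ 1/C.
-/

open Set Filter Topology MeasureTheory Pool.Agent.H53.ZD

namespace Pool.Agent.ZDB

variable {κ L : Type*} [TopologicalSpace L] [CompactSpace L] [T2Space L] [TotallyDisconnectedSpace L]
  [MeasurableSpace L] [BorelSpace L]

namespace Sys

variable (S : Sys κ L)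

theorem alpha_univ_ge [Uncountable κ] {x : Ball κ} (hx : nm x < 1) :
    1 / S.C ≤ S.alpha x univ := by
  classical
  refine S.le_alpha fun τ hτ => S.le_ahat fun A hAc => ?_
  obtain ⟨Ax, hAxc, hAx⟩ := exists_countable_BA x
  obtain ⟨A₀, hA₀sub, hA₀⟩ := S.retCof (A ∪ Ax) (hAc.union hAxc)
  have hxA₀ : x ∈ BA A₀ := BA_mono (subset_union_right.trans hA₀sub) hAx
  obtain ⟨s, hs⟩ : ∃ s, s ∉ A₀ := by
    by_contra hcon
    push Not at hcon
    have : (univ : Set κ).Countable := hA₀.1.mono fun s _ => hcon s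
    exact not_countable_univ this
  obtain ⟨A₁, hA₁sub, hA₁⟩ := S.retCof (A₀ ∪ {s}) (hA₀.1.union (countable_singleton s))
  have hsA₁ : s ∈ A₁ := hA₁sub (Or.inr rfl)
  set u : ℝ := min τ (1 - nm x) / 2 with hu
  have hupos : 0 < u := by
    have : 0 < min τ (1 - nm x) := lt_min hτ (by linarith)
    rw [hu]; linarith
  have hu1 : u < 1 - nm x := by
    have := min_le_right τ (1 - nm x)
    rw [hu]; linarith
  have hu2 : u < τ := by
    have := min_le_left τ (1 - nm x)
    rw [hu]; linarith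
  have hu3 : u ≤ 1 := by have := nm_nonneg x; linarith
  let e : Ball κ := Ball.mk' (fun i => if i = s then u else 0) (by
    intro F
    by_cases hF : s ∈ F
    · rw [Finset.sum_eq_single s (fun i _ hi => by simp [hi]) (fun h => (h hF).elim)]
      simp [abs_of_pos hupos, hu3]
    · rw [Finset.sum_eq_zero (fun i hi => by
        have : i ≠ s := fun h => hF (h ▸ hi)
        simp [this])]
      exact zero_le_one)
  have he : ∀ i, e i = if i = s then u else 0 := fun i => rfl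
  have hen : nm e ≤ u := by
    rw [show nm e = Ball.mass univ e from rfl, Ball.mass_le_iff]
    intro F _
    by_cases hF : s ∈ F
    · rw [Finset.sum_eq_single s (fun i _ hi => by simp [he, hi]) (fun h => (h hF).elim)]
      simp [he, abs_of_pos hupos]
    · rw [Finset.sum_eq_zero (fun i hi => by
        have : i ≠ s := fun h => hF (h ▸ hi)
        simp [he, this])]
      exact hupos.le
  have hlen : nm x + nm e ≤ 1 := by linarith
  have heA₀ : e ∈ BA A₀ᶜ := by
    rw [mem_BA]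
    intro i hi
    have : i ≠ s := fun h => hi (h ▸ hs)
    simp [he, this]
  have heA₁ : e ∈ BA A₁ := by
    rw [mem_BA]
    intro i hi
    have : i ≠ s := fun h => hi (h ▸ hsA₁)
    simp [he, this]
  set Y : Ball κ := plus x e with hY
  have hA₀A₁ : A₀ ⊆ A₁ := subset_union_left.trans hA₁sub
  have hExt : S.Ext x A A₀ A₁ Y := by
    refine ⟨subset_union_left.trans hA₀sub, hA₀A₁, hA₀, hA₁, ?_, ?_⟩
    · exact plus_mem_BA (BA_mono hA₀A₁ hxA₀) heA₁
    · exact res_plus_left hxA₀ heA₀ hlen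
  have hYn : nm Y < nm x + τ := (nm_plus_le _ _).trans_lt (by linarith)
  -- the test function
  let h : C(Ball κ, ℝ) := ⟨fun y => min 1 (|y s| / u), by
    exact continuous_const.min ((Ball.continuous_coord s).abs.div_const u)⟩
  have hh : ∀ y, h y = min 1 (|y s| / u) := fun y => rfl
  have hh0 : ∀ y, |h y| ≤ 1 := by
    intro y
    have h1 : 0 ≤ |y s| / u := by positivity
    rw [hh, abs_of_nonneg (le_min zero_le_one h1)]
    exact min_le_left _ _
  have hhY : h Y = 1 := by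
    have hYs : Y s = u := by
      rw [hY, plus_apply hlen, mem_BA.1 hxA₀ s hs, he]
      simp
    rw [hh, hYs, abs_of_pos hupos, div_self hupos.ne', min_self]
  have hres₁ : h.comp (resC A₁) = h := by
    ext y
    change h (Ball.res A₁ y) = h y
    rw [hh, hh, Ball.res_of_mem _ hsA₁]
  have hres₀ : h.comp (resC A₀) = 0 := by
    ext y
    change h (Ball.res A₀ y) = 0
    rw [hh, Ball.res_of_notMem _ hs]
    simp
  set f : C(L, ℝ) := S.T.symm h with hf
  have hf₁ : f.comp (S.rho A₁) = f := by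
    rw [hf, ← S.V_comp_res hA₁, hres₁]
  have hf₀ : f.comp (S.rho A₀) = 0 := by
    rw [hf, ← S.V_comp_res hA₀, hres₀, map_zero]
  have hfC : ∀ l, |f l| ≤ S.C := fun l => by
    have := S.hV h 1 hh0 zero_le_one l
    rwa [mul_one] at this
  have hfD : ∀ l, l ∉ S.D A₀ A₁ → f l = 0 := by
    intro l hl
    have hl' : S.rho A₀ l = S.rho A₁ l := by
      by_contra hne
      exact hl hne
    have e1 : f (S.rho A₁ l) = f l := DFunLike.congr_fun hf₁ l
    have e0 : f (S.rho A₀ l) = 0 := DFunLike.congr_fun hf₀ l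
    rw [← e1, ← hl', e0]
  have hD : MeasurableSet (S.D A₀ A₁) := (S.isOpen_D A₀ A₁).measurableSet
  have hTf : S.T f Y = 1 := by
    rw [hf, ContinuousLinearEquiv.apply_symm_apply, hhY]
  have h1 := S.abs_T_le f Y
  rw [hTf, abs_one] at h1
  have h2 : ∫ l, |f l| ∂(S.nu Y) ≤ ∫ l, (S.D A₀ A₁).indicator (fun _ => S.C) l ∂(S.nu Y) := by
    refine integral_mono_of_nonneg (Eventually.of_forall fun l => abs_nonneg _) ?_
      (Eventually.of_forall fun l => ?_)
    · exact (integrable_const S.C).indicator hD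
    · by_cases hl : l ∈ S.D A₀ A₁
      · simp only [indicator_of_mem hl]
        exact hfC l
      · simp only [indicator_of_notMem hl, hfD l hl, abs_zero, le_refl]
  rw [integral_indicator hD, setIntegral_const, smul_eq_mul] at h2
  have h3 := S.le_a (U := univ) hExt hYn
  rw [univ_inter] at h3
  have hC := S.C_pos
  rw [div_le_iff₀ hC]
  calc (1 : ℝ) ≤ (S.nu Y).real (S.D A₀ A₁) * S.C := h1.trans h2
    _ ≤ S.a x univ A τ * S.C := by gcongr

end Sys

end Pool.Agent.ZDB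

end

section

/-!
# ZDB/CostStep : return masses over an intermediate level
b ⊆ b₁ ⊆ b', l₁ = ρ_{b₁} l'.  mass bᶜ y = mass bᶜ (res b₁ y) + mass b₁ᶜ y (bᶜ is the disjoint union of bᶜ ∩ b₁ and b₁ᶜ; Ball.mass_union,
Ball.mass_res).
* cost_step: integrate; ∫ mass bᶜ (res b₁ y) dlam_{l'} ≤ ∫ mass bᶜ dlam_{l₁} + 1·C(Fv l' − Fv l₁) (int_le_add with f = mass bᶜ, M = 1).
* mass_step: {r ≤ mass bᶜ} ⊆ res b₁⁻¹{r/2 ≤ mass bᶜ} ∪ {r/2 ≤ mass b₁ᶜ}, lam_le_add for the first set.
-/

open Set Filter Topology MeasureTheory Pool.Agent.H53.ZD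

namespace Pool.Agent.ZDB

variable {κ L : Type*} [TopologicalSpace L] [CompactSpace L] [T2Space L] [TotallyDisconnectedSpace L]
  [MeasurableSpace L] [BorelSpace L]

namespace Sys

variable (S : Sys κ L) {b b₁ b' : Set κ} {l₁ l' : L}

theorem mass_compl_step (h : b ⊆ b₁) (y : Ball κ) :
    Ball.mass bᶜ y = Ball.mass bᶜ (Ball.res b₁ y) + Ball.mass b₁ᶜ y := by
  rw [Ball.mass_res]
  have hd : Disjoint (bᶜ ∩ b₁) b₁ᶜ := by
    rw [Set.disjoint_left]
    exact fun x hx hx' => hx' hx.2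
  rw [← Ball.mass_union hd]
  congr 1
  ext x
  simp only [mem_compl_iff, mem_union, mem_inter_iff]
  constructor
  · intro hx
    by_cases hx1 : x ∈ b₁
    · exact Or.inl ⟨hx, hx1⟩
    · exact Or.inr hx1
  · rintro (hx | hx)
    · exact hx.1
    · exact fun hxb => hx (h hxb)

theorem cost_step (hb₁ : S.Ret b₁) (hb' : S.Ret b') (h : b ⊆ b₁) (h' : b₁ ⊆ b')
    (hl' : l' ∈ S.LA b') (hr : S.rho b₁ l' = l₁) :
    S.cost b l' ≤ S.cost b l₁ + S.C * (S.Fv l' - S.Fv l₁) + S.cost b₁ l' := by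
  have hi1 : Integrable (fun y : Ball κ => Ball.mass bᶜ (Ball.res b₁ y)) (S.lam l') :=
    integrable_bdd (S.lam l') ((Ball.measurable_mass bᶜ).comp (Ball.continuous_res b₁).measurable)
      1 (fun y => by
        rw [abs_of_nonneg (Ball.mass_nonneg _ _)]
        exact Ball.mass_le_one _ _)
  have hi2 : Integrable (fun y : Ball κ => Ball.mass b₁ᶜ y) (S.lam l') :=
    integrable_bdd (S.lam l') (Ball.measurable_mass b₁ᶜ) 1 (fun y => by
      rw [abs_of_nonneg (Ball.mass_nonneg _ _)]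
      exact Ball.mass_le_one _ _)
  have h1 : S.cost b l' = ∫ y, Ball.mass bᶜ (Ball.res b₁ y) ∂(S.lam l') + S.cost b₁ l' := by
    unfold cost
    rw [← integral_add hi1 hi2]
    exact integral_congr_ae (Filter.Eventually.of_forall fun y => mass_compl_step h y)
  have h2 := S.int_le_add hb₁ hb' h' hl' hr (Ball.measurable_mass bᶜ) (M := 1)
    (fun y => Ball.mass_nonneg _ _) (fun y => Ball.mass_le_one _ _)
  rw [one_mul] at h2
  rw [h1]
  have h3 : ∫ y, Ball.mass bᶜ y ∂(S.lam l₁) = S.cost b l₁ := rfl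
  rw [h3] at h2
  linarith

theorem mass_step (hb₁ : S.Ret b₁) (hb' : S.Ret b') (h : b ⊆ b₁) (h' : b₁ ⊆ b')
    (hl' : l' ∈ S.LA b') (hr : S.rho b₁ l' = l₁) {r : ℝ} :
    (S.lam l').real {y | r ≤ Ball.mass bᶜ y} ≤ (S.lam l₁).real {y | r / 2 ≤ Ball.mass bᶜ y} +
      S.C * (S.Fv l' - S.Fv l₁) + (S.lam l').real {y | r / 2 ≤ Ball.mass b₁ᶜ y} := by
  have hW : MeasurableSet {y : Ball κ | r / 2 ≤ Ball.mass bᶜ y} :=
    measurableSet_le measurable_const (Ball.measurable_mass bᶜ)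
  have h1 := S.lam_le_add hb₁ hb' h' hl' hr hW
  have h2 : (S.lam l').real {y | r ≤ Ball.mass bᶜ y} ≤
      (S.lam l').real (Ball.res b₁ ⁻¹' {y : Ball κ | r / 2 ≤ Ball.mass bᶜ y}) +
      (S.lam l').real {y | r / 2 ≤ Ball.mass b₁ᶜ y} := by
    refine (measureReal_mono ?_).trans (measureReal_union_le _ _)
    intro y hy
    have hy' : r ≤ Ball.mass bᶜ y := hy
    rw [mass_compl_step h y] at hy'
    by_cases h3 : r / 2 ≤ Ball.mass bᶜ (Ball.res b₁ y)
    · exact Or.inl h3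
    · refine Or.inr ?_
      show r / 2 ≤ Ball.mass b₁ᶜ y
      linarith [not_le.1 h3]
  linarith

theorem cost_self (hb : S.Ret b) (hl : l₁ ∈ S.LA b) : S.cost b l₁ = 0 := by
  have h1 : ∀ᵐ y ∂(S.lam l₁), Ball.mass bᶜ y = 0 := by
    have h2 : S.lam l₁ (BA b)ᶜ = 0 := S.lam_compl_BA hb hl
    rw [Filter.Eventually, mem_ae_iff]
    refine measure_mono_null ?_ h2
    intro y hy hy'
    exact hy (mem_BA_iff_mass.1 hy')
  unfold cost
  rw [integral_congr_ae h1]
  simp

end Sys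

end Pool.Agent.ZDB

end

section

/-!
# ZDB/Dust : README 9.3, countable dust families
For Y ∈ KB and r < alpha Y P: exists_ext_of_lt_alpha over A = top with τ = δ: an extension (A₀,A₁,Z), z = res A₀ᶜ Z ∈ BA topᶜ (top ⊆ A₀), nm z < δ, Z = plus Y z, r < nu_Z(P ∩ D) ≤ nu_Z(P).
For rational r let U_z^r = {Y ∈ KB | r < nu_{plus Y z}(P)} (z ∈ BA topᶜ, nm z < δ): relatively open in KB (isOpen_nu, P clopen; continuousOn_plus, nm Y + nm z ≤ 1).  KB ⊆ BA top is
second countable (top countable: BA top embeds into top → ℝ), so countably many z suffice to cover ⋃_z U_z^r (Lindelöf: `TopologicalSpace.isOpen_iUnion_countable` in the subtype).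
𝒱 := the union over r ∈ ℚ.  For real r choose a rational r' with r ≤ r' < alpha Y P.
-/

open Set Filter Topology MeasureTheory Pool.Agent.H53.ZD

namespace Pool.Agent.ZDB

variable {κ L : Type*} [TopologicalSpace L] [CompactSpace L] [T2Space L] [TotallyDisconnectedSpace L]
  [MeasurableSpace L] [BorelSpace L]

namespace Sys

theorem exists_dust (S : Sys κ L) {top : Set κ} (ht : S.Ret top) {KB : Set (Ball κ)}
    (hKB : KB ⊆ BA top) {δ : ℝ} (hδ : 0 < δ) (hnm : ∀ Y ∈ KB, nm Y + δ ≤ 1) {P : Set L}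
    (hP : IsClopen P) :
    ∃ 𝒱 : Set (Ball κ), 𝒱.Countable ∧ (∀ z ∈ 𝒱, z ∈ BA topᶜ ∧ nm z < δ) ∧
      ∀ Y ∈ KB, ∀ r : ℝ, r < S.alpha Y P → ∃ z ∈ 𝒱, r < (S.nu (plus Y z)).real P := by
  classical
  -- one point
  have key : ∀ Y ∈ KB, ∀ r : ℝ, r < S.alpha Y P →
      ∃ z : Ball κ, (z ∈ BA topᶜ ∧ nm z < δ) ∧ r < (S.nu (plus Y z)).real P := by
    intro Y _ r hr
    obtain ⟨A₀, A₁, Z, hE, hZ, hlt⟩ := S.exists_ext_of_lt_alpha hr ht.1 hδ
    refine ⟨Ball.res A₀ᶜ Z, ⟨BA_mono (compl_subset_compl.2 hE.sub₀) (res_mem_BA A₀ᶜ Z), ?_⟩, ?_⟩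
    · rw [nm_res_compl, hE.resY]
      linarith
    · have h1 : plus Y (Ball.res A₀ᶜ Z) = Z := by
        conv_lhs => rw [← hE.resY]
        exact plus_res_compl A₀ Z
      rw [h1]
      exact hlt.trans_le (measureReal_mono inter_subset_left)
  -- second countability
  have : Countable top := ht.1
  let g : KB → (top → ℝ) := fun Y i => Y.1 i
  have hg : Topology.IsInducing g := by
    rw [Topology.isInducing_iff_nhds]
    intro x
    refine le_antisymm ?_ ?_
    · have hc : Continuous g := continuous_pi fun i =>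
        (Ball.continuous_coord (i : κ)).comp continuous_subtype_val
      exact (hc.tendsto x).le_comap
    · rw [← tendsto_id', tendsto_subtype_rng, Ball.tendsto_iff]
      intro i
      by_cases hi : i ∈ top
      · exact (tendsto_pi_nhds.1 (tendsto_comap (f := g) (x := 𝓝 (g x)))) ⟨i, hi⟩
      · have h0 : ∀ Y : KB, Y.1 i = 0 := fun Y => mem_BA.1 (hKB Y.2) i hi
        have e : (fun a : KB => ((id a : KB) : Ball κ) i) = fun _ => (x : Ball κ) i := by
          funext a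
          change a.1 i = x.1 i
          rw [h0, h0]
        rw [e]
        exact tendsto_const_nhds
  have hsc : SecondCountableTopology KB := hg.secondCountableTopology
  -- the open sets
  let Zs : Set (Ball κ) := {z | z ∈ BA topᶜ ∧ nm z < δ}
  let W : ℚ → Zs → Set KB := fun r z => {Y : KB | (r : ℝ) < (S.nu (plus Y.1 z.1)).real P}
  have hW : ∀ r z, IsOpen (W r z) := by
    intro r z
    have hc : Continuous (fun Y : KB => plus Y.1 z.1) := by
      refine (continuousOn_plus z.1).comp_continuous continuous_subtype_val fun Y => ?_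
      have h1 := hnm Y.1 Y.2
      have h2 := z.2.2
      show nm Y.1 + nm z.1 ≤ 1
      linarith
    exact (S.isOpen_nu hP.isOpen (r : ℝ)).preimage hc
  choose T hT1 hT2 using fun r : ℚ => TopologicalSpace.isOpen_iUnion_countable (W r) (hW r)
  refine ⟨⋃ r : ℚ, Subtype.val '' (T r), countable_iUnion fun r => (hT1 r).image _, ?_, ?_⟩
  · intro z hz
    obtain ⟨r, hr⟩ := mem_iUnion.1 hz
    obtain ⟨z', _, rfl⟩ := hr
    exact z'.2
  · intro Y hY r hr
    obtain ⟨r', h1, h2⟩ := exists_rat_btwn hr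
    obtain ⟨z, hz, hlt⟩ := key Y hY r' h2
    have hmem : (⟨Y, hY⟩ : KB) ∈ ⋃ z, W r' z := mem_iUnion.2 ⟨⟨z, hz⟩, hlt⟩
    rw [← hT2 r'] at hmem
    obtain ⟨z', hz', hlt'⟩ := mem_iUnion₂.1 hmem
    refine ⟨z'.1, mem_iUnion.2 ⟨r', mem_image_of_mem _ hz'⟩, h1.trans hlt'⟩

end Sys

end Pool.Agent.ZDB

end
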