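import Pool.Agent.ZDM.P05

/-!
# Merged form of the modules ZDB.GMono, ZDB.Ins, ZDB.Superadd, ZDB.AlphaSplit, ZDB.InsGroup, ZDB.GroupStep, ZDB.Purity, ZDB.GoodFam
-/

set_option autoImplicit false
set_option linter.unusedSectionVars false

section

/-!
# ZDB/GMono : generic monotonicity (README 3.6)
Club: intersection of Ret, `club_coded` and a `skolem` club: parameters (c : FCode κ, s s₁ τ₁ δ : ℚ, F : Finset κ, qv : κ →₀ ℚ),
sp = c.supp ∪ F ∪ qv.support; candidates Y'' : Ball κ with support sb Y'' = {i | Y'' i ≠ 0} (countable);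
R := ∃ O, Coded c O ∧ (∀ i ∈ F, |Y'' i − qv i| < δ) ∧ nm Y'' ≤ 1 − τ₁ ∧ ∃ A'' countable, a Y'' (O ∩ Fs s) A'' τ₁ < s₁.
Proof for b in the club: O ∈ Clop b, s, y ∈ BA b, res b Y = y, nm Y < 1; U = O ∩ Fs s (open).  Suppose alpha Y U < alpha y U: rationals
alpha Y U < s₁ < s₂ < alpha y U, τ₁ > 0 rational with ahat Y U τ₁ < s₁, nm Y ≤ 1 − τ₁, so a Y U A τ₁ < s₁ for some countable A.
Enumerate b (countable) and let F_k ⊆ b be finite increasing with union b, δ_k = 2^{-k}, qv_k rational approximations of y on F_k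
(|qv − y| < δ_k/2): Y is a witness for the parameter (c, .., F_k, δ_k, ..) (Y i = y i for i ∈ b), c ∈ codes with support ⊆ b of O
(exists_coded, clop_iff).  skolem: Y''_k with support ⊆ b, |Y''_k i − y i| < 2δ_k on F_k, nm Y''_k ≤ 1 − τ₁, A''_k countable with
a Y''_k U A''_k τ₁ < s₁ (the O in R is the same by coded_unique).  So Y''_k → y (Ball.tendsto_iff; both vanish off b).
A := b ∪ ⋃ A''_k.  exists_ext_of_lt_alpha: an extension (A₀,A₁,Z) of y over A, nm Z < nm y + τ₁, nu_Z(U ∩ D A₀ A₁) > s₂.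
z := res A₀ᶜ Z (nm z < τ₁, Z = plus y z).  Z_k := plus Y''_k z is an extension (A₀,A₁,Z_k) of Y''_k over A''_k, nm Z_k < nm Y''_k + τ₁, so
nu_{Z_k}(U∩D) ≤ a < s₁; Z_k → Z (continuousOn_plus or coordinatewise), but {W | s₂ < nu_W(U∩D)}... lower semicontinuity (isOpen_nu)
gives nu_{Z_k}(U∩D) > s₂ eventually.  Contradiction.
-/

open Set Filter Topology MeasureTheory Pool.Agent.H53.ZD

namespace Pool.Agent.ZDB

variable {κ L : Type*} [TopologicalSpace L] [CompactSpace L] [T2Space L] [TotallyDisconnectedSpace L]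
  [MeasurableSpace L] [BorelSpace L]

namespace Sys

variable (S : Sys κ L)

/-- generic monotonicity at level `b` -/
def GMono (b : Set κ) : Prop :=
  ∀ O, S.Clop b O → ∀ s : ℚ, ∀ y ∈ BA b, ∀ Y : Ball κ, Ball.res b Y = y → nm Y < 1 →
    S.alpha y (O ∩ S.Fs s) ≤ S.alpha Y (O ∩ S.Fs s)

private theorem gm_countable (F' : Finset κ) :
    {p : FCode κ × (ℚ × ℚ × ℚ × ℚ) × Finset (κ × ℚ) |
      (open Classical in p.1.supp ∪ p.2.2.image Prod.fst) = F'}.Countable := by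
  classical
  have h1 := FCode.countable_of_supp (F' : Set κ) F'.countable_toSet
  have h2 : {G : Finset (κ × ℚ) | (G : Set (κ × ℚ)) ⊆ (F' : Set κ) ×ˢ univ}.Countable := by
    have h3 : ((F' : Set κ) ×ˢ (univ : Set ℚ)).Countable :=
      F'.countable_toSet.prod (countable_univ)
    have h4 := Set.countable_setOf_finite_subset h3
    have h5 : {G : Finset (κ × ℚ) | (G : Set (κ × ℚ)) ⊆ (F' : Set κ) ×ˢ univ} =
        (fun G : Finset (κ × ℚ) => (G : Set (κ × ℚ))) ⁻¹'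
          {t | t.Finite ∧ t ⊆ (F' : Set κ) ×ˢ univ} := by
      ext G
      simp only [mem_setOf_eq, mem_preimage]
      exact ⟨fun h => ⟨G.finite_toSet, h⟩, fun h => h.2⟩
    rw [h5]
    exact h4.preimage Finset.coe_injective
  refine ((h1.prod ((countable_univ (α := ℚ × ℚ × ℚ × ℚ)).prod h2))).mono ?_
  rintro ⟨c, x, G⟩ hp
  simp only [mem_setOf_eq] at hp
  refine ⟨?_, mem_univ _, ?_⟩
  · show (c.supp : Set κ) ⊆ F'
    intro i hi
    rw [← hp]
    exact Finset.mem_coe.2 (Finset.mem_union_left _ (Finset.mem_coe.1 hi))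
  · show (G : Set (κ × ℚ)) ⊆ (F' : Set κ) ×ˢ univ
    rintro ⟨i, q⟩ hi
    refine ⟨?_, mem_univ _⟩
    rw [← hp]
    exact Finset.mem_coe.2 (Finset.mem_union_right _
      (Finset.mem_image.2 ⟨(i, q), Finset.mem_coe.1 hi, rfl⟩))

private theorem gm_supp_countable (y : Ball κ) : {i | y i ≠ 0}.Countable := by
  obtain ⟨A, hA, hy⟩ := exists_countable_BA y
  refine hA.mono fun i hi => ?_
  by_contra h
  exact hi (mem_BA.1 hy i h)

theorem club_gmono : Club S.GMono := by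
  classical
  have hsk := skolem (P := FCode κ × (ℚ × ℚ × ℚ × ℚ) × Finset (κ × ℚ)) (β := Ball κ)
    (fun p => p.1.supp ∪ p.2.2.image Prod.fst) gm_countable (fun Y => {i | Y i ≠ 0})
    gm_supp_countable
    (fun p Y => ∃ O, S.Coded p.1 O ∧ (∀ e ∈ p.2.2, |Y e.1 - e.2| < p.2.1.2.2.2) ∧
      nm Y ≤ 1 - p.2.1.2.2.1 ∧ ∃ A : Set κ, A.Countable ∧
        S.a Y (O ∩ S.Fs p.2.1.1) A p.2.1.2.2.1 < p.2.1.2.1)
  refine (hsk.and S.club_ret).mono ?_
  rintro b ⟨hb, hR⟩ O hO s y hy Y hY hnY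
  by_contra hcon
  rw [not_le] at hcon
  obtain ⟨s₁, h1, h2⟩ := exists_rat_btwn hcon
  obtain ⟨s₂, h3, h4⟩ := exists_rat_btwn h2
  obtain ⟨τ, hτ, hτ'⟩ := S.exists_tau h1
  obtain ⟨τ₁, h5, h6⟩ := exists_rat_btwn (lt_min hτ (sub_pos.2 hnY))
  have h7 : S.ahat Y (O ∩ S.Fs s) τ₁ < s₁ := hτ' _ h5 (h6.le.trans (min_le_left _ _))
  have h8 : nm Y ≤ 1 - τ₁ := by
    have := h6.le.trans (min_le_right _ _)
    linarith
  obtain ⟨A', hA', hA''⟩ := S.exists_ahat_eq Y (O ∩ S.Fs s) τ₁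
  have h9 : S.a Y (O ∩ S.Fs s) A' τ₁ < s₁ := by
    rw [hA'' A' subset_rfl hA']
    exact h7
  obtain ⟨c, hc, hcO⟩ := S.exists_coded hO.1 ((S.clop_iff hR hO.1).1 hO)
  obtain ⟨g, hg⟩ := Set.countable_iff_exists_injOn.1 hR.1
  have hfin : ∀ k : ℕ, {i | i ∈ b ∧ g i < k}.Finite := by
    intro k
    refine Set.Finite.of_finite_image ((Set.finite_Iio k).subset ?_) (hg.mono fun i hi => hi.1)
    rintro _ ⟨i, hi, rfl⟩
    exact hi.2
  have hyY : ∀ i ∈ b, Y i = y i := fun i hi => by rw [← hY, Ball.res_of_mem Y hi]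
  have hδ : ∀ k : ℕ, (0 : ℝ) < ((((1 : ℚ) / 2) ^ k : ℚ) : ℝ) := fun k => by positivity
  have hq : ∀ (k : ℕ) (i : κ), ∃ q : ℚ, |y i - q| < ((((1 : ℚ) / 2) ^ k : ℚ) : ℝ) :=
    fun k i => exists_rat_near (y i) (hδ k)
  choose q hq using hq
  have hex : ∀ k : ℕ, ∃ Z : Ball κ, (∀ i ∈ b, g i < k → |Z i - y i| <
      2 * ((((1 : ℚ) / 2) ^ k : ℚ) : ℝ)) ∧ nm Z ≤ 1 - τ₁ ∧ Z ∈ BA b ∧
      ∃ A : Set κ, A.Countable ∧ S.a Z (O ∩ S.Fs s) A τ₁ < s₁ := by
    intro k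
    obtain ⟨Z, ⟨O', hO', hZ1, hZ2, A, hA, hZ3⟩, hZ4⟩ := hb
      (c, (s, s₁, τ₁, ((1 : ℚ) / 2) ^ k), (hfin k).toFinset.image fun i => (i, q k i)) (by
        intro i hi
        rw [Finset.mem_coe, Finset.mem_union] at hi
        rcases hi with hi | hi
        · exact hc (Finset.mem_coe.2 hi)
        · simp only [Finset.mem_image, Finite.mem_toFinset, mem_setOf_eq] at hi
          obtain ⟨_, ⟨j, hj, rfl⟩, rfl⟩ := hi
          exact hj.1) ⟨Y, O, hcO, by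
        intro e he
        simp only [Finset.mem_image, Finite.mem_toFinset, mem_setOf_eq] at he
        obtain ⟨j, hj, rfl⟩ := he
        show |Y j - (q k j : ℝ)| < _
        rw [hyY j hj.1]
        exact hq k j, h8, A', hA', h9⟩
    have hOO : O' = O := S.coded_unique hO' hcO
    subst hOO
    refine ⟨Z, fun i hi hik => ?_, hZ2, mem_BA.2 fun i hi => ?_, A, hA, hZ3⟩
    · have h10 := hZ1 (i, q k i) (by
        simp only [Finset.mem_image, Finite.mem_toFinset, mem_setOf_eq]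
        exact ⟨i, ⟨hi, hik⟩, rfl⟩)
      have h11 := hq k i
      have h12 : Z i - y i = (Z i - (q k i : ℝ)) - (y i - (q k i : ℝ)) := by ring
      rw [h12]
      refine (abs_sub _ _).trans_lt ?_
      have h10' : |Z i - (q k i : ℝ)| < ((((1 : ℚ) / 2) ^ k : ℚ) : ℝ) := h10
      linarith
    · by_contra h
      exact hi (hZ4 h)
  choose Z hZ1 hZ2 hZ3 A hA hZ4 using hex
  have hlim : Tendsto Z atTop (𝓝 y) := by
    rw [Ball.tendsto_iff]
    intro i
    by_cases hi : i ∈ b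
    · rw [tendsto_iff_dist_tendsto_zero]
      have h10 : Tendsto (fun k : ℕ => 2 * ((((1 : ℚ) / 2) ^ k : ℚ) : ℝ)) atTop (𝓝 0) := by
        have := (tendsto_pow_atTop_nhds_zero_of_lt_one (r := (1 : ℝ) / 2) (by norm_num)
          (by norm_num)).const_mul 2
        rw [mul_zero] at this
        refine this.congr fun k => ?_
        push_cast
        ring
      refine squeeze_zero' (Eventually.of_forall fun k => dist_nonneg) ?_ h10
      filter_upwards [eventually_gt_atTop (g i)] with k hk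
      rw [Real.dist_eq]
      exact (hZ1 k i hi hk).le
    · have h10 : ∀ k, Z k i = y i := fun k => by
        rw [mem_BA.1 (hZ3 k) i hi, mem_BA.1 hy i hi]
      simp only [h10]
      exact tendsto_const_nhds
  have hAc : (b ∪ ⋃ k, A k).Countable := hR.1.union (countable_iUnion hA)
  have hU : IsOpen (O ∩ S.Fs s) := hO.1.isOpen.inter (S.isOpen_Fs s)
  obtain ⟨A₀, A₁, W, hE, hW1, hW2⟩ := S.exists_ext_of_lt_alpha h4 hAc h5
  have hbA₀ : b ⊆ A₀ := subset_union_left.trans hE.sub₀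
  have hz : nm (Ball.res A₀ᶜ W) < τ₁ := by
    rw [nm_res_compl, hE.resY]
    linarith
  have hW3 : plus y (Ball.res A₀ᶜ W) = W := by
    have := plus_res_compl A₀ W
    rwa [hE.resY] at this
  have hle : ∀ k, nm (Z k) + nm (Ball.res A₀ᶜ W) ≤ 1 := fun k => by
    have := hZ2 k
    linarith
  have hylt : nm y + nm (Ball.res A₀ᶜ W) ≤ 1 := by
    have h10 : nm y ≤ nm Y := by
      rw [← hY]
      exact nm_res_le _ _
    linarith
  have hlim2 : Tendsto (fun k => plus (Z k) (Ball.res A₀ᶜ W)) atTop (𝓝 W) := by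
    have h10 := (continuousOn_plus (Ball.res A₀ᶜ W)) y hylt
    have h11 : Tendsto Z atTop (𝓝[{x | nm x + nm (Ball.res A₀ᶜ W) ≤ 1}] y) :=
      tendsto_nhdsWithin_iff.2 ⟨hlim, Eventually.of_forall hle⟩
    have h12 := h10.tendsto.comp h11
    rw [hW3] at h12
    exact h12
  have hop := S.isOpen_nu (hU.inter (S.isOpen_D A₀ A₁)) s₂
  have hev := hlim2.eventually (hop.mem_nhds hW2)
  obtain ⟨k, hk⟩ := hev.exists
  have hk' : (s₂ : ℝ) < (S.nu (plus (Z k) (Ball.res A₀ᶜ W))).real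
    (O ∩ S.Fs s ∩ S.D A₀ A₁) := hk
  have hext : S.Ext (Z k) (A k) A₀ A₁ (plus (Z k) (Ball.res A₀ᶜ W)) := by
    refine ⟨(subset_iUnion A k).trans (subset_union_right.trans hE.sub₀), hE.sub₁, hE.ret₀,
      hE.ret₁, plus_mem_BA (BA_mono (hbA₀.trans hE.sub₁) (hZ3 k)) ?_,
      res_plus_left (BA_mono hbA₀ (hZ3 k)) (res_mem_BA _ _) (hle k)⟩
    rw [mem_BA]
    intro i hi
    by_cases hi0 : i ∈ A₀ᶜ
    · rw [Ball.res_of_mem _ hi0]
      exact mem_BA.1 hE.memY i hi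
    · rw [Ball.res_of_notMem _ hi0]
  have h10 := S.le_a (U := O ∩ S.Fs s) (τ := τ₁) hext (by
    have := nm_plus_le (Z k) (Ball.res A₀ᶜ W)
    linarith)
  have h11 := hZ4 k
  linarith

end Sys

end Pool.Agent.ZDB

end

section

/-!
# ZDB/Ins : insertion of one copy of a stem block (README 8.1 (2),(3))
f := ek k₀ * W, Y_k := plus (Xk k) w, current points Y'_k := plus (Xk k) w'.
* ins_zero (t = 0, w' = w): low1, low2 are strict because ε > 0.  lows: N_{Y_{k₀+1}}(f·pf(P k₀)(F k₀)) = N_{Y_{k₀+1}}(ek (k₀+1)*W) ≥ N_{Y_{k₀+1}}(ek k₀*W) − ε (hdrop)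
  ≥ N_{Y_{k₀}}(f) − ε (N_mono_stem) > N_{Y_{k₀}}(f) − 2ε.
* ins_succ: apply D.stem k₀ with A' = A (k₀+1), Z = Y'_{k₀+1}, P k₀, F k₀, f, r = N_{Y_{k₀}}(f) − 2ε (lows).  mass (A k₀)ᶜ Z = nm(X_{k₀+1}) − nm(X_{k₀}) ≤ u
  (w' ∈ BA (A k₀)); res (A k₀) Z = Y'_{k₀} (res_plus).  So there are v i, Q i, Fi i, Pi i with, for large i, r < N_{plus Y'_{k₀} (v i)}(f*pf (Pi i)(Fi i)).
  plus Y'_k (v i) = plus (Xk k) (plus w' (v i)) (plus_assoc; masses: nm X + nm w' + u ≤ 1) → Y'_k as i → ∞ (tendsto_plus).  The conditions low1, low2, lowc, lows at w' are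
  finitely many strict inequalities N_{Y'_k}(h) > bound with h ≥ 0 continuous: open conditions (isOpen_N), so they hold for w'' = plus w' (v i), i large.
  (1 − ek k₀*W ≥ 0.)  Also for large i Q i is disjoint from the finite sets F' c and E₀.  Take such an i; new copy c: P' = Pi i, F' = Fi i ⊆ Q i ⊆ A k₀; nm w'' ≤ nm w' + u.
-/

open Set Filter Topology MeasureTheory Pool.Agent.H53.ZD

namespace Pool.Agent.ZDB

variable {κ L : Type*} [TopologicalSpace L] [CompactSpace L] [T2Space L] [TotallyDisconnectedSpace L]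
  [MeasurableSpace L] [BorelSpace L]

namespace Sys

namespace PathData

variable {S : Sys κ L} {n : ℕ}

/-- the state after the insertion of `t` copies of the stem block `k₀` -/
structure Ins (D : PathData S n) (k₀ β : ℕ) (w : Ball κ) (W : C(L × Ball κ, ℝ)) (E₀ : Finset κ)
    (ε : ℝ) (t : ℕ) where
  w' : Ball κ
  P' : Fin t → Set L
  F' : Fin t → Finset κ
  mem : w' ∈ BA (D.A k₀)
  nm_le : nm w' ≤ nm w + t * D.u
  clop : ∀ c, S.Clop (D.A k₀) (P' c)
  Fsub : ∀ c, (F' c : Set κ) ⊆ D.A k₀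
  Fdisj : ∀ c c', c ≠ c' → Disjoint (F' c) (F' c')
  Fdisj₀ : ∀ c, Disjoint (F' c) E₀
  low1 : ∀ k, k₀ ≤ k → k ≤ β →
    S.N (plus (D.Xk k) w) (D.ek k * W) - ε < S.N (plus (D.Xk k) w') (D.ek k * W)
  low2 : ∀ k, k₀ ≤ k → k ≤ β →
    S.N (plus (D.Xk k) w) (1 - D.ek k₀ * W) - ε < S.N (plus (D.Xk k) w') (1 - D.ek k₀ * W)
  lowc : ∀ c, S.N (plus (D.Xk k₀) w) (D.ek k₀ * W) - 2 * ε <
    S.N (plus (D.Xk k₀) w') (D.ek k₀ * W * pf D.g D.r₀ (P' c) (F' c))
  lows : S.N (plus (D.Xk k₀) w) (D.ek k₀ * W) - 2 * ε <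
    S.N (plus (D.Xk (k₀ + 1)) w') (D.ek k₀ * W * pf D.g D.r₀ (D.P k₀) (D.F k₀))

theorem ekW_nonneg (D : PathData S n) (k : ℕ) {W : C(L × Ball κ, ℝ)} (hW0 : ∀ z, 0 ≤ W z)
    (z : L × Ball κ) : 0 ≤ (D.ek k * W) z :=
  mul_nonneg (D.ek_nonneg k z) (hW0 z)

theorem ekW_le_one (D : PathData S n) (k : ℕ) {W : C(L × Ball κ, ℝ)} (hW0 : ∀ z, 0 ≤ W z)
    (hW1 : ∀ z, W z ≤ 1) (z : L × Ball κ) : (D.ek k * W) z ≤ 1 :=
  mul_le_one₀ (D.ek_le_one k z) (hW0 z) (hW1 z)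

theorem ins_zero (D : PathData S n) {k₀ β : ℕ} (hk : k₀ < n) {w : Ball κ}
    (hw : w ∈ BA (D.A k₀)) (hm : nm D.X + nm w ≤ 1) {W : C(L × Ball κ, ℝ)}
    (hW0 : ∀ z, 0 ≤ W z) (hWl : S.Lev (D.A k₀) W) (E₀ : Finset κ)
    {ε : ℝ} (hε : 0 < ε)
    (hdrop : S.N (plus (D.Xk (k₀ + 1)) w) (D.ek k₀ * W) -
      S.N (plus (D.Xk (k₀ + 1)) w) (D.ek (k₀ + 1) * W) ≤ ε) :
    Nonempty (Ins D k₀ β w W E₀ ε 0) := by
  refine ⟨{ w' := w, P' := fun c => c.elim0, F' := fun c => c.elim0, mem := hw,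
            nm_le := ?_, clop := fun c => c.elim0, Fsub := fun c => c.elim0,
            Fdisj := fun c => c.elim0, Fdisj₀ := fun c => c.elim0,
            low1 := ?_, low2 := ?_, lowc := fun c => c.elim0, lows := ?_ }⟩
  · simp
  · intro k _ _
    linarith
  · intro k _ _
    linarith
  · have e1 : D.ek (k₀ + 1) * W = D.ek k₀ * W * pf D.g D.r₀ (D.P k₀) (D.F k₀) := by
      rw [D.ek_succ]
      ring
    rw [← e1]
    have h1 := D.N_mono_stem (Nat.le_succ k₀) hw hm (f := D.ek k₀ * W)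
      (D.ekW_nonneg k₀ hW0) (Lev.mul S (D.ek_lev hk.le) hWl)
    linarith

theorem ins_succ (D : PathData S n) {k₀ β : ℕ} (hk : k₀ < n) (hβ : β ≤ n) {w : Ball κ}
    {W : C(L × Ball κ, ℝ)} (hW0 : ∀ z, 0 ≤ W z) (hW1 : ∀ z, W z ≤ 1)
    (hWl : S.Lev (D.A k₀) W) (E₀ : Finset κ) {ε : ℝ} {t : ℕ}
    (hm : nm D.X + nm w + (t + 1) * D.u ≤ 1) (I : Ins D k₀ β w W E₀ ε t) :
    Nonempty (Ins D k₀ β w W E₀ ε (t + 1)) := by
  classical
  have hu := D.u_pos
  have hmw : nm D.X + nm I.w' + D.u ≤ 1 := by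
    have := I.nm_le
    linarith
  have hmw0 : nm D.X + nm I.w' ≤ 1 := by linarith
  have hAA : D.A k₀ ⊆ D.A (k₀ + 1) := D.mono (Nat.le_succ k₀)
  have hZmem : plus (D.Xk (k₀ + 1)) I.w' ∈ BA (D.A (k₀ + 1)) :=
    plus_mem_BA (D.Xk_mem _) (BA_mono hAA I.mem)
  have hmX : ∀ k, nm (D.Xk k) + nm I.w' ≤ 1 := fun k => by
    have := D.nm_Xk_le k
    linarith
  obtain ⟨v, Q, Fi, Pi, hQfin, hQA, hQd, hvQ, hvnm, hFi, hPi, hev⟩ := D.stem k₀ hk
    (D.A (k₀ + 1)) (D.ret _) hAA (plus (D.Xk (k₀ + 1)) I.w') hZmem (D.P k₀) (D.clopP k₀ hk)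
    (D.F k₀) (D.F_sub k₀ hk) (D.F_ne k₀ hk) (D.ek k₀ * W) (D.ekW_nonneg k₀ hW0)
    (D.ekW_le_one k₀ hW0 hW1) (Lev.mul S (D.ek_lev hk.le) hWl) _ I.lows
  have hmass : Ball.mass (D.A k₀)ᶜ (plus (D.Xk (k₀ + 1)) I.w') ≤ D.u := by
    have h1 : Ball.mass (D.A k₀)ᶜ (plus (D.Xk (k₀ + 1)) I.w') =
        Ball.mass (D.A k₀)ᶜ (D.Xk (k₀ + 1)) :=
      Ball.mass_congr fun i hi => by
        rw [plus_apply (hmX _), (mem_BA.1 I.mem) i hi, add_zero]
    have h2 : Ball.res (D.A k₀) (D.Xk (k₀ + 1)) = Ball.res (D.A k₀) D.X :=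
      res_res_of_subset hAA _
    rw [h1, mass_compl, h2]
    exact D.step_le k₀ hk
  have hv : ∀ i, nm (v i) ≤ D.u := fun i => (hvnm i).trans hmass
  have hassoc : ∀ k i, plus (plus (D.Xk k) I.w') (v i) = plus (D.Xk k) (plus I.w' (v i)) :=
    fun k i => plus_assoc (by
      have h1 := D.nm_Xk_le k
      have h2 := hv i
      linarith)
  have htend : ∀ k, Tendsto (fun i => plus (D.Xk k) (plus I.w' (v i))) atTop
      (𝓝 (plus (D.Xk k) I.w')) := by
    intro k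
    have h := tendsto_plus (x := plus (D.Xk k) I.w') hQd hvQ (fun i => by
      have h1 := D.nm_Xk_le k
      have h2 := hv i
      have h3 := nm_plus_le (D.Xk k) I.w'
      linarith)
    exact h.congr fun i => hassoc k i
  have hopen : ∀ (k : ℕ) (h : C(L × Ball κ, ℝ)), (∀ z, 0 ≤ h z) → ∀ r : ℝ,
      r < S.N (plus (D.Xk k) I.w') h →
      ∀ᶠ i in atTop, r < S.N (plus (D.Xk k) (plus I.w' (v i))) h := by
    intro k h h0 r hr
    exact (htend k).eventually ((S.isOpen_N h0 r).mem_nhds hr)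
  have hpf : ∀ (P : Set L) (F : Finset κ) (z : L × Ball κ),
      0 ≤ (D.ek k₀ * W * pf D.g D.r₀ P F) z := fun P F z =>
    mul_nonneg (D.ekW_nonneg k₀ hW0 z) (pf_nonneg _ _ _ _ _)
  have ev1 : ∀ᶠ i in atTop, ∀ k ∈ Finset.Icc k₀ β,
      S.N (plus (D.Xk k) w) (D.ek k * W) - ε <
        S.N (plus (D.Xk k) (plus I.w' (v i))) (D.ek k * W) := by
    rw [Filter.eventually_all_finset]
    intro k hk'
    rw [Finset.mem_Icc] at hk'
    exact hopen k _ (D.ekW_nonneg k hW0) _ (I.low1 k hk'.1 hk'.2)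
  have ev2 : ∀ᶠ i in atTop, ∀ k ∈ Finset.Icc k₀ β,
      S.N (plus (D.Xk k) w) (1 - D.ek k₀ * W) - ε <
        S.N (plus (D.Xk k) (plus I.w' (v i))) (1 - D.ek k₀ * W) := by
    rw [Filter.eventually_all_finset]
    intro k hk'
    rw [Finset.mem_Icc] at hk'
    refine hopen k _ (fun z => ?_) _ (I.low2 k hk'.1 hk'.2)
    have := D.ekW_le_one k₀ hW0 hW1 z
    change 0 ≤ 1 - (D.ek k₀ * W) z
    linarith
  have ev3 : ∀ᶠ i in atTop, ∀ c : Fin t, S.N (plus (D.Xk k₀) w) (D.ek k₀ * W) - 2 * ε <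
      S.N (plus (D.Xk k₀) (plus I.w' (v i)))
        (D.ek k₀ * W * pf D.g D.r₀ (I.P' c) (I.F' c)) := by
    rw [Filter.eventually_all]
    intro c
    exact hopen k₀ _ (hpf _ _) _ (I.lowc c)
  have ev4 := hopen (k₀ + 1) _ (hpf (D.P k₀) (D.F k₀)) _ I.lows
  have hres : Ball.res (D.A k₀) (plus (D.Xk (k₀ + 1)) I.w') = plus (D.Xk k₀) I.w' :=
    D.res_plus (Nat.le_succ k₀) I.mem hmw0
  have hfin : ∀ E : Finset κ, ∀ᶠ i in atTop, ∀ e ∈ E, e ∉ Q i := by
    intro E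
    rw [Filter.eventually_all_finset]
    intro e _
    by_cases hj : ∃ m, e ∈ Q m
    · obtain ⟨m, hm'⟩ := hj
      filter_upwards [eventually_gt_atTop m] with j hj hje
      exact (Set.disjoint_left.1 (hQd hj.ne)) hm' hje
    · push Not at hj
      exact Eventually.of_forall hj
  obtain ⟨i, hi1, hi2, hi3, hi4, hi5, hi6⟩ := (ev1.and (ev2.and (ev3.and (ev4.and (hev.and
    (hfin (E₀ ∪ Finset.univ.biUnion I.F'))))))).exists
  rw [hres, hassoc] at hi5
  have hnew : ∀ E : Finset κ, E ⊆ E₀ ∪ Finset.univ.biUnion I.F' → Disjoint (Fi i) E := by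
    intro E hE
    rw [Finset.disjoint_left]
    intro e he heE
    exact hi6 e (hE heE) (hFi i he)
  have hnew0 : Disjoint (Fi i) E₀ := hnew _ Finset.subset_union_left
  have hnewc : ∀ c, Disjoint (Fi i) (I.F' c) := fun c => hnew _
    ((Finset.subset_biUnion_of_mem I.F' (Finset.mem_univ c)).trans Finset.subset_union_right)
  refine ⟨{ w' := plus I.w' (v i),
            P' := Fin.snoc (α := fun _ => Set L) I.P' (Pi i),
            F' := Fin.snoc (α := fun _ => Finset κ) I.F' (Fi i),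
            mem := plus_mem_BA I.mem (BA_mono (hQA i) (hvQ i)),
            nm_le := ?_, clop := ?_, Fsub := ?_, Fdisj := ?_, Fdisj₀ := ?_,
            low1 := fun k h1 h2 => hi1 k (Finset.mem_Icc.2 ⟨h1, h2⟩),
            low2 := fun k h1 h2 => hi2 k (Finset.mem_Icc.2 ⟨h1, h2⟩),
            lowc := ?_, lows := hi4 }⟩
  · have h1 := nm_plus_le I.w' (v i)
    have h2 := hv i
    have h3 := I.nm_le
    push_cast
    linarith
  · intro c
    refine Fin.lastCases ?_ (fun c => ?_) c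
    · rw [Fin.snoc_last]
      exact hPi i
    · rw [Fin.snoc_castSucc]
      exact I.clop c
  · intro c
    refine Fin.lastCases ?_ (fun c => ?_) c
    · rw [Fin.snoc_last]
      exact (hFi i).trans (hQA i)
    · rw [Fin.snoc_castSucc]
      exact I.Fsub c
  · intro c
    refine Fin.lastCases ?_ (fun c => ?_) c
    · intro c'
      refine Fin.lastCases ?_ (fun c' => ?_) c'
      · intro h
        exact absurd rfl h
      · intro _
        rw [Fin.snoc_last, Fin.snoc_castSucc]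
        exact hnewc c'
    · intro c'
      refine Fin.lastCases ?_ (fun c' => ?_) c'
      · intro _
        rw [Fin.snoc_last, Fin.snoc_castSucc]
        exact (hnewc c).symm
      · intro h
        rw [Fin.snoc_castSucc, Fin.snoc_castSucc]
        exact I.Fdisj c c' fun h' => h (by rw [h'])
  · intro c
    refine Fin.lastCases ?_ (fun c => ?_) c
    · rw [Fin.snoc_last]
      exact hnew0
    · rw [Fin.snoc_castSucc]
      exact I.Fdisj₀ c
  · intro c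
    refine Fin.lastCases ?_ (fun c => ?_) c
    · rw [Fin.snoc_last, Fin.snoc_last]
      exact hi5
    · rw [Fin.snoc_castSucc, Fin.snoc_castSucc]
      exact hi3 c

end PathData

end Sys

end Pool.Agent.ZDB

end

section

/-!
# ZDB/Superadd : README 3.2
Let B countable with U₁, U₂ B-upper.  Fix a countable A and ε > 0; WLOG B ⊆ A.  r_i < ahat x U_i τ_i.
Choose recursively extensions (A₀^i, A₁^i, Y^i) of x over A ∪ ⋃_{i'<i} A₁^{i'}, nm Y^i < nm x + τ₂, nu_{Y^i}(U₂ ∩ D A₀^i A₁^i) > r₂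
(exists_of_lt_a; r₂ < ahat ≤ a).  Then an extension (A₀,A₁,Y₁) of x over ⋃ A₁^i, nm Y₁ < nm x + τ₁, nu_{Y₁}(U₁ ∩ D A₀ A₁) > r₁.
z_i := res (A₀^i)ᶜ Y^i (so Y^i = plus x z_i, z_i ∈ BA (A₁^i ∖ A₀^i), nm z_i = nm Y^i − nm x < τ₂), X_i := plus Y₁ z_i:
nm Y₁ + nm z_i < nm x + τ₁ + τ₂ ≤ 1; supports: Y₁ = x + (part outside A₀), z_i inside A₁^i ⊆ A₀.
(A₀^i, A₁, X_i) is an extension of x over A, nm X_i < nm x + τ₁ + τ₂; res A₀ X_i = Y^i.
X_i → Y₁ (`tendsto_plus`, the sets A₁^i∖A₀^i are disjoint), so for large i nu_{X_i}(U₁ ∩ D A₀ A₁) > r₁ (isOpen_nu; U₁ ∩ D open).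
nu_{X_i}(U₂ ∩ D A₀^i A₁^i) ≥ nu_{Y^i}(..) > r₂ (nu_real_ge at level A₀: U₂ ∩ D A₀^i A₁^i is A₀-upper).  Both sets are disjoint subsets of
(U₁ ∪ U₂) ∩ D A₀^i A₁ (D_mono).  So a x (U₁∪U₂) A (τ₁+τ₂) ≥ r₁ + r₂.
-/

open Set Filter Topology MeasureTheory Pool.Agent.H53.ZD

namespace Pool.Agent.ZDB

variable {κ L : Type*} [TopologicalSpace L] [CompactSpace L] [T2Space L] [TotallyDisconnectedSpace L]
  [MeasurableSpace L] [BorelSpace L]

namespace Sys

variable (S : Sys κ L)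

/-- upper for some countable set -/
def UpperSome (U : Set L) : Prop := ∃ A : Set κ, A.Countable ∧ S.Upper A U

theorem superadd {x : Ball κ} {U₁ U₂ : Set L} (h₁ : IsOpen U₁) (h₂ : IsOpen U₂)
    (u₁ : S.UpperSome U₁) (u₂ : S.UpperSome U₂) (hd : Disjoint U₁ U₂) {τ₁ τ₂ : ℝ} (t₁ : 0 < τ₁)
    (t₂ : 0 < τ₂) (ht : τ₁ + τ₂ ≤ 1 - nm x) :
    S.ahat x U₁ τ₁ + S.ahat x U₂ τ₂ ≤ S.ahat x (U₁ ∪ U₂) (τ₁ + τ₂) := by
  classical
  refine S.le_ahat fun A hAc => ?_
  by_contra hcon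
  push Not at hcon
  obtain ⟨B, hBc, hB⟩ := u₂
  set ε : ℝ := (S.ahat x U₁ τ₁ + S.ahat x U₂ τ₂ - S.a x (U₁ ∪ U₂) A (τ₁ + τ₂)) / 4 with hε
  have hεpos : 0 < ε := by rw [hε]; linarith
  set r₁ : ℝ := S.ahat x U₁ τ₁ - ε with hr₁
  set r₂ : ℝ := S.ahat x U₂ τ₂ - ε with hr₂
  have hsum : S.a x (U₁ ∪ U₂) A (τ₁ + τ₂) < r₁ + r₂ := by
    rw [hr₁, hr₂]
    have : S.ahat x U₁ τ₁ + S.ahat x U₂ τ₂ - S.a x (U₁ ∪ U₂) A (τ₁ + τ₂) = 4 * ε := by
      rw [hε]; ring
    linarith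
  -- extensions for `U₂`
  have hex : ∀ E : {E : Set κ // E.Countable}, ∃ p : Set κ × {E : Set κ // E.Countable} × Ball κ,
      S.Ext x E.1 p.1 p.2.1.1 p.2.2 ∧ nm p.2.2 < nm x + τ₂ ∧
        r₂ < (S.nu p.2.2).real (U₂ ∩ S.D p.1 p.2.1.1) := by
    intro E
    have hlt : r₂ < S.a x U₂ E.1 τ₂ := by
      have := S.ahat_le_a (x := x) (U := U₂) (τ := τ₂) E.2
      rw [hr₂]; linarith
    obtain ⟨A₀, A₁, Y, hE, hY, hr⟩ := S.exists_of_lt_a E.2 t₂ hlt
    exact ⟨(A₀, ⟨A₁, hE.ret₁.1⟩, Y), hE, hY, hr⟩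
  choose p hpE hpn hpr using hex
  let E : ℕ → {E : Set κ // E.Countable} := fun n =>
    Nat.rec ⟨A ∪ B, hAc.union hBc⟩ (fun _ E => (p E).2.1) n
  have hE0 : (E 0).1 = A ∪ B := rfl
  have hEs : ∀ n, E (n + 1) = (p (E n)).2.1 := fun n => rfl
  have hstep : ∀ n, (E n).1 ⊆ (E (n + 1)).1 := fun n => by
    rw [hEs]
    exact (hpE (E n)).sub₀.trans (hpE (E n)).sub₁
  have hmono : ∀ {m n : ℕ}, m ≤ n → (E m).1 ⊆ (E n).1 := by
    intro m n hmn
    exact monotone_nat_of_le_succ (f := fun n => (E n).1) hstep hmn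
  set Einf : Set κ := ⋃ n, (E n).1 with hEinf
  have hEc : Einf.Countable := countable_iUnion fun n => (E n).2
  have hsubinf : ∀ n, (E n).1 ⊆ Einf := fun n => subset_iUnion (fun n => (E n).1) n
  -- the extension for `U₁`
  have hlt₁ : r₁ < S.a x U₁ Einf τ₁ := by
    have := S.ahat_le_a (x := x) (U := U₁) (τ := τ₁) hEc
    rw [hr₁]; linarith
  obtain ⟨A₀, A₁, Y, hY, hYn, hYr⟩ := S.exists_of_lt_a hEc t₁ hlt₁
  -- notation
  set B₀ : ℕ → Set κ := fun i => (p (E i)).1 with hB₀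
  set B₁ : ℕ → Set κ := fun i => (p (E i)).2.1.1 with hB₁
  set Z : ℕ → Ball κ := fun i => (p (E i)).2.2 with hZ
  have hZE : ∀ i, S.Ext x (E i).1 (B₀ i) (B₁ i) (Z i) := fun i => hpE (E i)
  have hZn : ∀ i, nm (Z i) < nm x + τ₂ := fun i => hpn (E i)
  have hZr : ∀ i, r₂ < (S.nu (Z i)).real (U₂ ∩ S.D (B₀ i) (B₁ i)) := fun i => hpr (E i)
  have hB₁E : ∀ i, B₁ i = (E (i + 1)).1 := fun i => by rw [hEs]
  have hB₁A₀ : ∀ i, B₁ i ⊆ A₀ := fun i => by
    rw [hB₁E]; exact (hsubinf (i + 1)).trans hY.sub₀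
  have hB₀A₀ : ∀ i, B₀ i ⊆ A₀ := fun i => (hZE i).sub₁.trans (hB₁A₀ i)
  have hABsub : A ∪ B ⊆ A₀ := (hsubinf 0).trans hY.sub₀
  set z : ℕ → Ball κ := fun i => Ball.res (B₀ i)ᶜ (Z i) with hz
  have hZz : ∀ i, plus x (z i) = Z i := fun i => by
    have := plus_res_compl (B₀ i) (Z i)
    rw [(hZE i).resY] at this
    exact this
  have hzn : ∀ i, nm (z i) = nm (Z i) - nm x := fun i => by
    have := nm_res_compl (B₀ i) (Z i)
    rw [(hZE i).resY] at this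
    exact this
  have hzBA₁ : ∀ i, z i ∈ BA (B₁ i) := fun i => by
    rw [mem_BA]
    intro k hk
    by_cases hk' : k ∈ (B₀ i)ᶜ
    · rw [hz]
      simp only
      rw [Ball.res_of_mem _ hk']
      exact mem_BA.1 (hZE i).memY k hk
    · exact Ball.res_of_notMem _ hk'
  have hzBA₀ : ∀ i, ∀ k ∈ B₀ i, z i k = 0 := fun i k hk =>
    Ball.res_of_notMem _ (by simpa using hk)
  have hzQ : ∀ i, z i ∈ BA (B₁ i \ B₀ i) := fun i => by
    rw [mem_BA]
    intro k hk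
    by_cases hk' : k ∈ B₀ i
    · exact hzBA₀ i k hk'
    · exact mem_BA.1 (hzBA₁ i) k fun h => hk ⟨h, hk'⟩
  have hQd : Pairwise fun i j => Disjoint (B₁ i \ B₀ i) (B₁ j \ B₀ j) := by
    have key : ∀ i j, i < j → Disjoint (B₁ i \ B₀ i) (B₁ j \ B₀ j) := by
      intro i j hij
      rw [Set.disjoint_left]
      rintro k ⟨hk, -⟩ ⟨-, hk'⟩
      apply hk'
      apply (hZE j).sub₀
      rw [hB₁E] at hk
      exact hmono (Nat.succ_le_of_lt hij) hk
    intro i j hij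
    rcases lt_or_gt_of_ne hij with h | h
    · exact key i j h
    · exact (key j i h).symm
  have hlen : ∀ i, nm Y + nm (z i) < nm x + (τ₁ + τ₂) := fun i => by
    rw [hzn]; have := hZn i; linarith
  have hlen1 : ∀ i, nm Y + nm (z i) ≤ 1 := fun i => by
    have := hlen i; linarith
  have htend : Tendsto (fun i => plus Y (z i)) atTop (𝓝 Y) := tendsto_plus hQd hzQ hlen1
  have hev : ∀ᶠ i in atTop, r₁ < (S.nu (plus Y (z i))).real (U₁ ∩ S.D A₀ A₁) := by
    have hop : IsOpen {y : Ball κ | r₁ < (S.nu y).real (U₁ ∩ S.D A₀ A₁)} :=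
      S.isOpen_nu (h₁.inter (S.isOpen_D A₀ A₁)) r₁
    exact htend.eventually (hop.mem_nhds hYr)
  obtain ⟨i, hi⟩ := hev.exists
  -- properties of `X = plus Y (z i)`
  have hxB₀ : x ∈ BA (B₀ i) := Sys.Ext.memX S (hZE i)
  have hresB₀ : Ball.res (B₀ i) (plus Y (z i)) = x := by
    rw [res_plus (hlen1 i)]
    have e1 : Ball.res (B₀ i) Y = x := by
      rw [← res_res_of_subset (hB₀A₀ i), hY.resY]
      exact hxB₀
    have e2 : Ball.res (B₀ i) (z i) = 0 := by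
      ext k
      by_cases hk : k ∈ B₀ i
      · rw [Ball.res_of_mem _ hk]; exact hzBA₀ i k hk
      · rw [Ball.res_of_notMem _ hk]; rfl
    rw [e1, e2, plus_zero]
  have hresA₀ : Ball.res A₀ (plus Y (z i)) = Z i := by
    rw [res_plus (hlen1 i), hY.resY]
    have e2 : Ball.res A₀ (z i) = z i := BA_mono (hB₁A₀ i) (hzBA₁ i)
    rw [e2, hZz]
  have hExt : S.Ext x A (B₀ i) A₁ (plus Y (z i)) := by
    refine ⟨?_, ?_, (hZE i).ret₀, hY.ret₁, ?_, hresB₀⟩
    · refine Subset.trans ?_ (hZE i).sub₀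
      refine Subset.trans ?_ (hmono (Nat.zero_le i))
      rw [hE0]; exact subset_union_left
    · exact (hB₀A₀ i).trans hY.sub₁
    · exact plus_mem_BA hY.memY (BA_mono ((hB₁A₀ i).trans hY.sub₁) (hzBA₁ i))
  have hXn : nm (plus Y (z i)) < nm x + (τ₁ + τ₂) := (nm_plus_le _ _).trans_lt (hlen i)
  have hup : ∀ l, S.rho A₀ l ∈ U₂ ∩ S.D (B₀ i) (B₁ i) → l ∈ U₂ ∩ S.D (B₀ i) (B₁ i) := by
    rintro l ⟨hl1, hl2⟩
    refine ⟨hB A₀ (subset_union_right.trans hABsub) hY.ret₀ l hl1, ?_⟩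
    exact S.D_upper (hZE i).ret₀ (hZE i).ret₁ (hZE i).sub₁ A₀ (hB₁A₀ i) hY.ret₀ l hl2
  have hopen₂ : IsOpen (U₂ ∩ S.D (B₀ i) (B₁ i)) := h₂.inter (S.isOpen_D _ _)
  have hopen₁ : IsOpen (U₁ ∩ S.D A₀ A₁) := h₁.inter (S.isOpen_D _ _)
  have hge₂ : r₂ < (S.nu (plus Y (z i))).real (U₂ ∩ S.D (B₀ i) (B₁ i)) :=
    (hZr i).trans_le (S.nu_real_ge hY.ret₀ hresA₀ hopen₂.measurableSet hup)
  have hdisj : Disjoint (U₁ ∩ S.D A₀ A₁) (U₂ ∩ S.D (B₀ i) (B₁ i)) :=
    hd.mono inter_subset_left inter_subset_left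
  have hun := measureReal_union (μ := S.nu (plus Y (z i))) hdisj hopen₂.measurableSet
  have hsub : (U₁ ∩ S.D A₀ A₁) ∪ (U₂ ∩ S.D (B₀ i) (B₁ i)) ⊆ (U₁ ∪ U₂) ∩ S.D (B₀ i) A₁ := by
    refine union_subset ?_ ?_
    · exact inter_subset_inter subset_union_left
        (S.D_mono (hZE i).ret₀ hY.ret₀ hY.ret₁ hY.ret₁ (hB₀A₀ i) hY.sub₁ Subset.rfl)
    · exact inter_subset_inter subset_union_right
        (S.D_mono (hZE i).ret₀ (hZE i).ret₀ (hZE i).ret₁ hY.ret₁ Subset.rfl (hZE i).sub₁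
          ((hB₁A₀ i).trans hY.sub₁))
  have hle := measureReal_mono (μ := S.nu (plus Y (z i))) hsub
  have hfin := S.le_a (U := U₁ ∪ U₂) hExt hXn
  linarith

end Sys

end Pool.Agent.ZDB

end

section

/-!
# ZDB/AlphaSplit : README 3.3
upperSome_clopen: `exists_levC` gives A Ret with Clop A O (clop_iff), then `Clop.upper`.
ahat_split: superadd with U₁ = U∩O, U₂ = U∖O (both open, UpperSome), τ₁ = τ₂ = τ.
alpha_split: ≤ is alpha_union_le; ≥: for small τ: ahat(U∩O;τ)+ahat(U∖O;τ) ≤ ahat(U;2τ) and alpha ≤ ahat; let 2τ → 0 (`le_alpha`, given τ'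
use τ = min τ' (1−nm x) / 2 and monotonicity).
ahat_light: ahat x O τ ≤ ahat x univ (2τ) − ahat x Oᶜ τ ≤ ahat x univ (2τ) − alpha x Oᶜ and alpha x Oᶜ ≥ alpha x univ − alpha x O.
-/

open Set Filter Topology MeasureTheory Pool.Agent.H53.ZD

namespace Pool.Agent.ZDB

variable {κ L : Type*} [TopologicalSpace L] [CompactSpace L] [T2Space L] [TotallyDisconnectedSpace L]
  [MeasurableSpace L] [BorelSpace L]

namespace Sys

variable (S : Sys κ L) {x : Ball κ} {U O : Set L}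

theorem upperSome_clopen (hO : IsClopen O) : S.UpperSome O := by
  obtain ⟨A, hAc, hA⟩ := S.exists_levC O
  obtain ⟨A', hAA', hA'⟩ := S.retCof A hAc
  exact ⟨A', hA'.1, Sys.Clop.upper S hA' ((S.clop_iff hA' hO).2 (hA A' hAA'))⟩

theorem UpperSome.inter {U U' : Set L} (hU : S.UpperSome U) (hU' : S.UpperSome U') :
    S.UpperSome (U ∩ U') := by
  obtain ⟨A, hAc, hA⟩ := hU
  obtain ⟨A', hAc', hA'⟩ := hU'
  refine ⟨A ∪ A', hAc.union hAc', ?_⟩
  rintro B hB hBr l ⟨h1, h2⟩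
  exact ⟨hA B (subset_union_left.trans hB) hBr l h1, hA' B (subset_union_right.trans hB) hBr l h2⟩

theorem ahat_split (hU : IsOpen U) (hu : S.UpperSome U) (hO : IsClopen O) {τ : ℝ} (hτ : 0 < τ)
    (ht : 2 * τ ≤ 1 - nm x) : S.ahat x (U ∩ O) τ + S.ahat x (U \ O) τ ≤ S.ahat x U (2 * τ) := by
  have h := S.superadd (x := x) (U₁ := U ∩ O) (U₂ := U \ O) (hU.inter hO.isOpen)
    (hU.sdiff hO.isClosed) (Sys.UpperSome.inter S hu (S.upperSome_clopen hO))
    (by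
      rw [sdiff_eq]
      exact Sys.UpperSome.inter S hu (S.upperSome_clopen hO.compl))
    (disjoint_sdiff_inter.symm) hτ hτ (by linarith)
  rwa [inter_union_sdiff, ← two_mul] at h

theorem alpha_split (hU : IsOpen U) (hu : S.UpperSome U) (hO : IsClopen O) (hx : nm x < 1) :
    S.alpha x U = S.alpha x (U ∩ O) + S.alpha x (U \ O) := by
  apply le_antisymm
  · have h := S.alpha_union_le x (U ∩ O) (U \ O)
    rwa [inter_union_sdiff] at h
  · refine S.le_alpha fun τ hτ => ?_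
    set τ' : ℝ := min τ (1 - nm x) / 2 with hτ'
    have hpos : 0 < τ' := by
      have : 0 < min τ (1 - nm x) := lt_min hτ (by linarith)
      rw [hτ']; linarith
    have h1 : 2 * τ' ≤ 1 - nm x := by
      have := min_le_right τ (1 - nm x)
      rw [hτ']; linarith
    have h2 : 2 * τ' ≤ τ := by
      have := min_le_left τ (1 - nm x)
      rw [hτ']; linarith
    have h3 := S.ahat_split hU hu hO hpos h1
    have h4 := S.alpha_le_ahat (x := x) (U := U ∩ O) hpos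
    have h5 := S.alpha_le_ahat (x := x) (U := U \ O) hpos
    have h6 := S.ahat_mono_tau h2 x U
    linarith

theorem ahat_light (hO : IsClopen O) {τ : ℝ} (hτ : 0 < τ) (ht : 2 * τ ≤ 1 - nm x) :
    S.ahat x O τ ≤ S.alpha x O + (S.ahat x univ (2 * τ) - S.alpha x univ) := by
  have h1 := S.ahat_split (x := x) (U := univ) isOpen_univ (S.upperSome_clopen isClopen_univ) hO hτ ht
  rw [univ_inter, ← compl_eq_univ_sdiff] at h1
  have h2 := S.alpha_le_ahat (x := x) (U := Oᶜ) hτ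
  have h3 := S.alpha_union_le x O Oᶜ
  rw [union_compl_self] at h3
  linarith

end Sys

end Pool.Agent.ZDB

end

section

/-!
# ZDB/InsGroup : insertion of a whole group (README 8.1 (3))
Ins with t = G copies (ins_zero, ins_succ, induction).  s' := σ/G ∈ (0,1], p_c := pf g r₀ (P' c)(F' c) ∈ [0,1], V := ∏_c (1 − s'(1 − p_c)), E' := ⋃ F' c.
* prof: for (l,y) let τ = #{c | p_c(l,y) = 0}, φ = τ/G.  V(l,y) ≤ (1−s')^τ ≤ exp(−s'τ) = exp(−σφ).  For the other G−τ copies p_c(l,y) > 0, so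
  r₀/g y < mass (F' c) y (pf_pos); the F' c are disjoint: mass E' y ≥ (G−τ) r₀/g y = (1−φ)G r₀/g y.
* low: let k₀ ≤ k ≤ β, Y_k, Y'_k as in Ins, f = ek k₀*W.  N_{Y'_k}(f p_c) ≥ N_{Y'_{k₀}}(f p_c) (N_mono_stem; f p_c has level A k₀) > N_{Y_{k₀}}(f) − 2ε (lowc).
  N_{Y'_k}(ek k*W*(1−p_c)) ≤ N_{Y'_k}(f(1−p_c)) = N_{Y'_k}(1) − N_{Y'_k}(1−f) − N_{Y'_k}(f p_c)  (ek k ≤ ek k₀)
  ≤ N_{Y'_k}(1) − (N_{Y_k}(1−f) − ε) − (N_{Y_{k₀}}(f) − 2ε)  (low2), and N_{Y_k}(1−f) = N_{Y_k}(1) − N_{Y_k}(f), N_{Y_k}(f) ≤ N_{Y_{k₀}}(f) + ε (N_growth_le and hgrow).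
  So it is ≤ N_{Y'_k}(1) − N_{Y_k}(1) + 4ε.
  V ≥ 1 − s'∑_c(1−p_c) (product inequality), so N_{Y'_k}(ek k*(W*V)) ≥ N_{Y'_k}(ek k*W) − s'∑_c N_{Y'_k}(ek k*W*(1−p_c))
  ≥ N_{Y_k}(ek k*W) − ε − σ(N_{Y'_k}(1) − N_{Y_k}(1) + 4ε)   (low1; s'G = σ).
-/

open Set Filter Topology MeasureTheory Pool.Agent.H53.ZD

namespace Pool.Agent.ZDB

variable {κ L : Type*} [TopologicalSpace L] [CompactSpace L] [T2Space L] [TotallyDisconnectedSpace L]
  [MeasurableSpace L] [BorelSpace L]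

private theorem InsGroup_prod_ge {ι : Type*} (s : Finset ι) (a : ι → ℝ) (h0 : ∀ i, 0 ≤ a i)
    (h1 : ∀ i, a i ≤ 1) : 1 - ∑ i ∈ s, a i ≤ ∏ i ∈ s, (1 - a i) := by
  classical
  induction s using Finset.induction_on with
  | empty => simp
  | insert i t hi ih =>
    rw [Finset.sum_insert hi, Finset.prod_insert hi]
    have h2 : ∏ j ∈ t, (1 - a j) ≤ 1 :=
      Finset.prod_le_one (fun j _ => by linarith [h1 j]) (fun j _ => by linarith [h0 j])
    nlinarith [h0 i, h1 i]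

private theorem InsGroup_N_sum (S : Sys κ L) {ι : Type*} (s : Finset ι) (x : Ball κ)
    (f : ι → C(L × Ball κ, ℝ)) : S.N x (∑ i ∈ s, f i) = ∑ i ∈ s, S.N x (f i) := by
  classical
  induction s using Finset.induction_on with
  | empty =>
    rw [Finset.sum_empty, Finset.sum_empty]
    have h := S.N_add x 0 0
    rw [add_zero] at h
    linarith
  | insert a t ha ih =>
    rw [Finset.sum_insert ha, Finset.sum_insert ha, S.N_add, ih]

namespace Sys

namespace PathData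

variable {S : Sys κ L} {n : ℕ}

private theorem InsGroup_ins (D : PathData S n) {k₀ β : ℕ} (hk : k₀ < β) (hβ : β ≤ n)
    {w : Ball κ} (hw : w ∈ BA (D.A k₀)) {W : C(L × Ball κ, ℝ)} (hW0 : ∀ z, 0 ≤ W z)
    (hW1 : ∀ z, W z ≤ 1) (hWl : S.Lev (D.A k₀) W) (E₀ : Finset κ) {G : ℕ}
    (hm : nm D.X + nm w + G * D.u ≤ 1) {ε : ℝ} (hε : 0 < ε)
    (hdrop : S.N (plus (D.Xk (k₀ + 1)) w) (D.ek k₀ * W) -
      S.N (plus (D.Xk (k₀ + 1)) w) (D.ek (k₀ + 1) * W) ≤ ε) :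
    ∀ t ≤ G, Nonempty (Ins D k₀ β w W E₀ ε t) := by
  have hu := D.u_pos
  have hkn : k₀ < n := hk.trans_le hβ
  intro t
  induction t with
  | zero =>
    intro _
    have h1 : (0 : ℝ) ≤ G * D.u := by positivity
    exact ins_zero D hkn hw (by linarith) hW0 hWl E₀ hε hdrop
  | succ t ih =>
    intro ht
    obtain ⟨I⟩ := ih (by omega)
    refine ins_succ D hkn hβ hW0 hW1 hWl E₀ ?_ I
    have h1 : ((t : ℝ) + 1) ≤ G := by exact_mod_cast ht
    have h2 := mul_le_mul_of_nonneg_right h1 hu.le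
    linarith

private theorem InsGroup_g (D : PathData S n) (k : ℕ) : D.g.comp (resC (D.A k)) = D.g := by
  ext y
  have h1 : ∀ z, D.g (Ball.res (D.A 0) z) = D.g z := fun z => DFunLike.congr_fun D.g_lev z
  change D.g (Ball.res (D.A k) y) = D.g y
  rw [← h1 (Ball.res (D.A k) y), res_res_of_subset (D.mono (Nat.zero_le k)), h1]

theorem exists_group (D : PathData S n) {k₀ β : ℕ} (hk : k₀ < β) (hβ : β ≤ n) {w : Ball κ}
    (hw : w ∈ BA (D.A k₀)) {W : C(L × Ball κ, ℝ)} (hW0 : ∀ z, 0 ≤ W z) (hW1 : ∀ z, W z ≤ 1)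
    (hWl : S.Lev (D.A k₀) W) (E₀ : Finset κ) {G : ℕ} (hG : 0 < G)
    (hm : nm D.X + nm w + G * D.u ≤ 1) {σ ε : ℝ} (hσ : 0 < σ) (hσ1 : σ ≤ 1) (hε : 0 < ε)
    (hdrop : S.N (plus (D.Xk (k₀ + 1)) w) (D.ek k₀ * W) -
      S.N (plus (D.Xk (k₀ + 1)) w) (D.ek (k₀ + 1) * W) ≤ ε)
    (hgrow : ∀ k, k₀ ≤ k → k ≤ β →
      S.N (plus (D.Xk k) w) 1 - S.N (plus (D.Xk k₀) w) 1 ≤ ε) :
    ∃ (w' : Ball κ) (V : C(L × Ball κ, ℝ)) (E' : Finset κ), w' ∈ BA (D.A k₀) ∧
      nm w' ≤ nm w + G * D.u ∧ (∀ z, 0 ≤ V z) ∧ (∀ z, V z ≤ 1) ∧ S.Lev (D.A k₀) V ∧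
      (E' : Set κ) ⊆ D.A k₀ ∧ Disjoint E' E₀ ∧
      (∀ l y, ∃ φ : ℝ, 0 ≤ φ ∧ φ ≤ 1 ∧ V (l, y) ≤ Real.exp (-(σ * φ)) ∧
        (1 - φ) * G * (D.r₀ / D.g y) ≤ Ball.mass (E' : Set κ) y) ∧
      ∀ k, k₀ ≤ k → k ≤ β →
        S.N (plus (D.Xk k) w) (D.ek k * W) - ε -
          σ * (S.N (plus (D.Xk k) w') 1 - S.N (plus (D.Xk k) w) 1 + 4 * ε) ≤
        S.N (plus (D.Xk k) w') (D.ek k * (W * V)) := by
  classical
  have hu := D.u_pos
  have hkn : k₀ ≤ n := (hk.trans_le hβ).le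
  have hGr : (0 : ℝ) < G := by exact_mod_cast hG
  have hG1 : (1 : ℝ) ≤ G := by exact_mod_cast hG
  obtain ⟨I⟩ := InsGroup_ins D hk hβ hw hW0 hW1 hWl E₀ hm hε hdrop G le_rfl
  obtain ⟨s', hs'⟩ : ∃ s' : ℝ, s' = σ / G := ⟨_, rfl⟩
  have hs0 : 0 < s' := by rw [hs']; positivity
  have hsG : s' * G = σ := by rw [hs']; field_simp
  have hs1 : s' ≤ 1 := by
    rw [hs', div_le_one hGr]
    linarith
  set p : Fin G → C(L × Ball κ, ℝ) := fun c => pf D.g D.r₀ (I.P' c) (I.F' c) with hp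
  have hp0 : ∀ c z, 0 ≤ p c z := fun c z => pf_nonneg _ _ _ _ _
  have hp1 : ∀ c z, p c z ≤ 1 := fun c z => pf_le_one _ _ _ _ _
  have hpl : ∀ c, S.Lev (D.A k₀) (p c) := fun c =>
    S.lev_pf (InsGroup_g D k₀) D.r₀ (I.clop c) (I.Fsub c)
  set V : C(L × Ball κ, ℝ) := ∏ c, (1 - s' • (1 - p c)) with hV
  have hVz : ∀ z, V z = ∏ c, (1 - s' * (1 - p c z)) := by
    intro z
    rw [hV, ContinuousMap.prod_apply]
    rfl
  have hfac0 : ∀ c z, 0 ≤ s' * (1 - p c z) := fun c z =>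
    mul_nonneg hs0.le (by linarith [hp1 c z])
  have hfac1 : ∀ c z, s' * (1 - p c z) ≤ 1 := fun c z => by
    have h1 : s' * (1 - p c z) ≤ 1 * 1 :=
      mul_le_mul hs1 (by linarith [hp0 c z]) (by linarith [hp1 c z]) zero_le_one
    linarith
  have hw'm : nm D.X + nm I.w' ≤ 1 := by linarith [I.nm_le]
  have hm0 : nm D.X + nm w ≤ 1 := by
    have h1 : (0 : ℝ) ≤ G * D.u := by positivity
    linarith
  refine ⟨I.w', V, Finset.univ.biUnion I.F', I.mem, I.nm_le, ?_, ?_, ?_, ?_, ?_, ?_, ?_⟩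
  · intro z
    rw [hVz]
    exact Finset.prod_nonneg fun c _ => by linarith [hfac1 c z]
  · intro z
    rw [hVz]
    exact Finset.prod_le_one (fun c _ => by linarith [hfac1 c z])
      (fun c _ => by linarith [hfac0 c z])
  · intro l y
    rw [hVz, hVz]
    refine Finset.prod_congr rfl fun c _ => ?_
    rw [hpl c l y]
  · intro i hi
    rw [Finset.mem_coe, Finset.mem_biUnion] at hi
    obtain ⟨c, -, hc⟩ := hi
    exact I.Fsub c hc
  · rw [Finset.disjoint_biUnion_left]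
    exact fun c _ => I.Fdisj₀ c
  · -- the profile
    intro l y
    set Z : Finset (Fin G) := Finset.univ.filter fun c => p c (l, y) = 0 with hZ
    have hZc : (Z.card : ℝ) ≤ G := by
      have : Z.card ≤ G := by
        calc Z.card ≤ (Finset.univ : Finset (Fin G)).card := Finset.card_filter_le _ _
          _ = G := by simp
      exact_mod_cast this
    refine ⟨Z.card / G, by positivity, by rw [div_le_one hGr]; exact hZc, ?_, ?_⟩
    · rw [hVz]
      have h1 : ∀ c, 1 - s' * (1 - p c (l, y)) ≤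
          Real.exp (-(s' * (if p c (l, y) = 0 then 1 else 0))) := by
        intro c
        by_cases hc : p c (l, y) = 0
        · rw [if_pos hc, hc, sub_zero, mul_one]
          exact Real.one_sub_le_exp_neg s'
        · rw [if_neg hc, mul_zero, neg_zero, Real.exp_zero]
          linarith [hfac0 c (l, y)]
      calc ∏ c, (1 - s' * (1 - p c (l, y)))
          ≤ ∏ c, Real.exp (-(s' * (if p c (l, y) = 0 then 1 else 0))) :=
            Finset.prod_le_prod (fun c _ => by linarith [hfac1 c (l, y)]) fun c _ => h1 c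
        _ = Real.exp (-(σ * (Z.card / G))) := by
            rw [← Real.exp_sum, Finset.sum_neg_distrib, ← Finset.mul_sum, Finset.sum_boole]
            congr 2
            rw [hs']
            ring
    · have hgy := D.g_pos y
      have hr0 := D.r₀_nonneg
      have hE : Ball.mass ((Finset.univ.biUnion I.F' : Finset κ) : Set κ) y =
          ∑ c, Ball.mass (I.F' c : Set κ) y := by
        rw [mass_finset, Finset.sum_biUnion]
        · exact Finset.sum_congr rfl fun c _ => (mass_finset _ _).symm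
        · intro c _ c' _ hne
          exact I.Fdisj c c' hne
      rw [hE]
      have h2 : ∀ c, (if p c (l, y) = 0 then 0 else D.r₀ / D.g y) ≤
          Ball.mass (I.F' c : Set κ) y := by
        intro c
        by_cases hc : p c (l, y) = 0
        · rw [if_pos hc]
          exact Ball.mass_nonneg _ _
        · rw [if_neg hc]
          exact (pf_pos hgy (lt_of_le_of_ne (hp0 c (l, y)) (Ne.symm hc))).le
      refine le_trans (le_of_eq ?_) (Finset.sum_le_sum fun c _ => h2 c)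
      have h3 : ∑ c, (if p c (l, y) = 0 then 0 else D.r₀ / D.g y) =
          ∑ c : Fin G, (D.r₀ / D.g y - (if p c (l, y) = 0 then 1 else 0) * (D.r₀ / D.g y)) := by
        refine Finset.sum_congr rfl fun c _ => ?_
        by_cases hc : p c (l, y) = 0
        · rw [if_pos hc, if_pos hc]; ring
        · rw [if_neg hc, if_neg hc]; ring
      rw [h3, Finset.sum_sub_distrib, ← Finset.sum_mul, Finset.sum_boole, Finset.sum_const,
        Finset.card_univ, Fintype.card_fin, nsmul_eq_mul, ← hZ]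
      field_simp
  · -- the lower bound
    intro k hk0 hkβ
    set f : C(L × Ball κ, ℝ) := D.ek k₀ * W with hf
    have hf0 : ∀ z, 0 ≤ f z := fun z => mul_nonneg (D.ek_nonneg k₀ z) (hW0 z)
    have hf1 : ∀ z, f z ≤ 1 := fun z =>
      mul_le_one₀ (D.ek_le_one k₀ z) (hW0 z) (hW1 z)
    have hfl : S.Lev (D.A k₀) f := Lev.mul S (D.ek_lev hkn) hWl
    have a1 := I.low1 k hk0 hkβ
    have a2 := I.low2 k hk0 hkβ
    have a3 := D.N_growth_le hk0 hw hm0 hf1 hfl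
    have a4 := hgrow k hk0 hkβ
    have hc : ∀ c, S.N (plus (D.Xk k) I.w') (D.ek k * W * (1 - p c)) ≤
        S.N (plus (D.Xk k) I.w') 1 - S.N (plus (D.Xk k) w) 1 + 4 * ε := by
      intro c
      have b1 := I.lowc c
      have b2 : S.N (plus (D.Xk k₀) I.w') (f * p c) ≤ S.N (plus (D.Xk k) I.w') (f * p c) :=
        D.N_mono_stem hk0 I.mem hw'm (fun z => mul_nonneg (hf0 z) (hp0 c z))
          (Lev.mul S hfl (hpl c))
      have b3 : S.N (plus (D.Xk k) I.w') (D.ek k * W * (1 - p c)) ≤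
          S.N (plus (D.Xk k) I.w') (f - f * p c) := by
        refine S.N_mono _ fun z => ?_
        have c1 := D.ek_anti hk0 z
        have c2 : D.ek k z * W z * (1 - p c z) ≤ D.ek k₀ z * W z * (1 - p c z) :=
          mul_le_mul_of_nonneg_right (mul_le_mul_of_nonneg_right c1 (hW0 z))
            (by linarith [hp1 c z])
        calc (D.ek k * W * (1 - p c)) z = D.ek k z * W z * (1 - p c z) := rfl
          _ ≤ D.ek k₀ z * W z * (1 - p c z) := c2
          _ = D.ek k₀ z * W z - D.ek k₀ z * W z * p c z := by ring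
          _ = (f - f * p c) z := rfl
      rw [S.N_sub] at b3
      rw [S.N_sub, S.N_sub] at a2
      change S.N (plus (D.Xk k₀) w) f - 2 * ε < S.N (plus (D.Xk k₀) I.w') (f * p c) at b1
      linarith
    have hfun : ∀ z, (D.ek k * W - s' • ∑ c, (D.ek k * W * (1 - p c))) z ≤
        (D.ek k * (W * V)) z := by
      intro z
      have d1 := InsGroup_prod_ge (Finset.univ : Finset (Fin G)) (fun c => s' * (1 - p c z))
        (fun c => hfac0 c z) (fun c => hfac1 c z)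
      have d2 : 0 ≤ D.ek k z * W z := mul_nonneg (D.ek_nonneg k z) (hW0 z)
      have d3 := mul_le_mul_of_nonneg_left d1 d2
      rw [← hVz z] at d3
      have d4 : (D.ek k * W - s' • ∑ c, (D.ek k * W * (1 - p c))) z =
          D.ek k z * W z - s' * ∑ c, (D.ek k z * W z * (1 - p c z)) := by
        rw [ContinuousMap.sub_apply, ContinuousMap.smul_apply, ContinuousMap.sum_apply]
        rfl
      rw [d4]
      calc D.ek k z * W z - s' * ∑ c, (D.ek k z * W z * (1 - p c z))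
          = D.ek k z * W z * (1 - ∑ c, s' * (1 - p c z)) := by
            rw [← Finset.mul_sum, ← Finset.mul_sum]
            ring
        _ ≤ D.ek k z * W z * V z := d3
        _ = (D.ek k * (W * V)) z := by
            change D.ek k z * W z * V z = D.ek k z * (W z * V z)
            ring
    have e1 := S.N_mono (plus (D.Xk k) I.w') hfun
    rw [S.N_sub, S.N_smul, InsGroup_N_sum] at e1
    have e2 : ∑ c, S.N (plus (D.Xk k) I.w') (D.ek k * W * (1 - p c)) ≤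
        G * (S.N (plus (D.Xk k) I.w') 1 - S.N (plus (D.Xk k) w) 1 + 4 * ε) := by
      refine (Finset.sum_le_sum fun c _ => hc c).trans (le_of_eq ?_)
      rw [Finset.sum_const, Finset.card_univ, Fintype.card_fin, nsmul_eq_mul]
    have e3 := mul_le_mul_of_nonneg_left e2 hs0.le
    rw [← mul_assoc, hsG] at e3
    linarith

end PathData

end Sys

end Pool.Agent.ZDB

end

section

/-!
# ZDB/GroupStep : one group (README 8.1 (1)-(3))
m(k) = N_{Y_k}(ek k*W), M(k) = N_{Y_k}(1), Y_k = plus (Xk k) w (α ≤ k ≤ β), drop(k) = N_{Y_{k+1}}(ek k*W) − N_{Y_{k+1}}(ek (k+1)*W) ≥ 0,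
Φ(k) = M(k) + ∑_{α ≤ i < k} drop(i).  Φ is monotone on [α,β] (M increasing: N_mono_stem).  m(k+1) = N_{Y_{k+1}}(ek k*W) − drop(k) and
N_{Y_{k+1}}(ek k*W) − m(k) ≤ M(k+1) − M(k) (N_growth_le), so ∑ drop ≤ M(β) − M(α) + m(α) ≤ 2C², and Φ(β) − Φ(α) ≤ 3C² ≤ Kε.
exists_stretch with r = R+1: α' with Φ(α'+R+1) − Φ(α') ≤ ε.  k₀ := α', β' := α'+R+1.  drop(α') ≤ ε, M(k) − M(α') ≤ ε for k in [α',β'].
exists_group with w, W, E₀ := E ∪ F₀: w', V, E'.  New state: w', W*V, E ∪ E', α', β'.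
prof: φ = φ_old + φ_new.  low: add the two estimates (−ε − σ(growth + 4ε) and the old one; 4ε ≤ 5ε).  E ⊆ A α ⊆ A α'.
-/

open Set Filter Topology MeasureTheory Pool.Agent.H53.ZD

namespace Pool.Agent.ZDB

variable {κ L : Type*} [TopologicalSpace L] [CompactSpace L] [T2Space L] [TotallyDisconnectedSpace L]
  [MeasurableSpace L] [BorelSpace L]

namespace Sys

namespace PathData

variable {S : Sys κ L} {n : ℕ}

/-- the state after `j` groups -/
structure GState (D : PathData S n) (G : ℕ) (θ σ ε : ℝ) (j α β : ℕ) where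
  w : Ball κ
  W : C(L × Ball κ, ℝ)
  E : Finset κ
  hαβ : α ≤ β
  hβ : β ≤ n
  w_mem : w ∈ BA (D.A α)
  w_nm : nm w ≤ j * (G * D.u)
  W_nonneg : ∀ z, 0 ≤ W z
  W_le_one : ∀ z, W z ≤ 1
  W_lev : S.Lev (D.A α) W
  E_sub : (E : Set κ) ⊆ D.A α
  E_disj : Disjoint E D.F₀
  prof : ∀ l y, ∃ φ : ℝ, 0 ≤ φ ∧ φ ≤ j ∧ W (l, y) ≤ Real.exp (-(σ * φ)) ∧
    (j - φ) * G * (D.r₀ / D.g y) ≤ Ball.mass (E : Set κ) y
  low : ∀ k, α ≤ k → k ≤ β →
    θ - j * ε - σ * (S.N (plus (D.Xk k) w) 1 - S.N (D.Xk k) 1 + j * (5 * ε)) ≤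
      S.N (plus (D.Xk k) w) (D.ek k * W)

theorem group_step (D : PathData S n) {G J : ℕ} (hG : 0 < G) (hm : nm D.X + J * (G * D.u) ≤ 1)
    {θ σ ε : ℝ} (hσ : 0 < σ) (hσ1 : σ ≤ 1) (hε : 0 < ε) {j α β : ℕ} (hj : j < J)
    (st : GState D G θ σ ε j α β) {R K : ℕ} (hK0 : 0 < K) (hK : 3 * S.C ^ 2 ≤ K * ε)
    (hlen : α + K * (R + 1) ≤ β) :
    ∃ α' β', α ≤ α' ∧ β' ≤ β ∧ α' + R ≤ β' ∧ Nonempty (GState D G θ σ ε (j + 1) α' β') := by
  classical
  obtain ⟨w, W, E, hαβ, hβn, hw, hwn, hW0, hW1, hWl, hEs, hEd, hprof, hlow⟩ := st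
  have hu := D.u_pos
  have hC := S.C_pos
  have hGu : 0 ≤ (G : ℝ) * D.u := by positivity
  have hj' : ((j : ℝ) + 1) * (G * D.u) ≤ J * (G * D.u) := by
    refine mul_le_mul_of_nonneg_right ?_ hGu
    exact_mod_cast hj
  have hm1 : nm D.X + nm w + G * D.u ≤ 1 := by
    have : ((j : ℝ) + 1) * (G * D.u) = j * (G * D.u) + G * D.u := by ring
    linarith
  have hm0 : nm D.X + nm w ≤ 1 := by linarith
  have hwk : ∀ k, α ≤ k → w ∈ BA (D.A k) := fun k hk => BA_mono (D.mono hk) hw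
  have hWk : ∀ k, α ≤ k → S.Lev (D.A k) W := fun k hk =>
    Lev.mono S (D.ret α) (D.ret k) (D.mono hk) hWl
  have heW1 : ∀ k z, (D.ek k * W) z ≤ 1 := fun k z =>
    mul_le_one₀ (D.ek_le_one k z) (hW0 z) (hW1 z)
  have heW0 : ∀ k z, 0 ≤ (D.ek k * W) z := fun k z => mul_nonneg (D.ek_nonneg k z) (hW0 z)
  obtain ⟨M, hM⟩ : ∃ M : ℕ → ℝ, ∀ k, M k = S.N (plus (D.Xk k) w) 1 := ⟨_, fun _ => rfl⟩
  obtain ⟨m, hmd⟩ : ∃ m : ℕ → ℝ, ∀ k, m k = S.N (plus (D.Xk k) w) (D.ek k * W) :=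
    ⟨_, fun _ => rfl⟩
  obtain ⟨drop, hdr⟩ : ∃ drop : ℕ → ℝ, ∀ k, drop k =
      S.N (plus (D.Xk (k + 1)) w) (D.ek k * W) -
        S.N (plus (D.Xk (k + 1)) w) (D.ek (k + 1) * W) := ⟨_, fun _ => rfl⟩
  have hdrop0 : ∀ k, 0 ≤ drop k := by
    intro k
    have := S.N_mono (plus (D.Xk (k + 1)) w) (f := D.ek (k + 1) * W) (g := D.ek k * W)
      (fun z => mul_le_mul_of_nonneg_right (D.ek_anti (Nat.le_succ k) z) (hW0 z))
    rw [hdr]
    linarith
  have hMmono : ∀ k, α ≤ k → M k ≤ M (k + 1) := by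
    intro k hk
    rw [hM, hM]
    exact D.N_mono_stem (Nat.le_succ k) (hwk k hk) hm0 (fun z => zero_le_one) (Lev.one S)
  have hstep : ∀ k, α ≤ k → k < β → drop k ≤ M (k + 1) - M k + m k - m (k + 1) := by
    intro k hk hkβ
    have h1 := D.N_growth_le (Nat.le_succ k) (hwk k hk) hm0 (f := D.ek k * W) (heW1 k)
      (Lev.mul S (D.ek_lev (by omega)) (hWk k hk))
    rw [hdr, hM, hM, hmd, hmd]
    linarith
  obtain ⟨Φ, hΦ⟩ : ∃ Φ : ℕ → ℝ, ∀ k, Φ k = M k + ∑ i ∈ Finset.Ico α k, drop i :=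
    ⟨_, fun _ => rfl⟩
  have hΦsucc : ∀ k, α ≤ k → Φ (k + 1) - Φ k = M (k + 1) - M k + drop k := by
    intro k hk
    rw [hΦ, hΦ, Finset.sum_Ico_succ_top hk]
    ring
  have hΦmono : ∀ k, α ≤ k → k < β → Φ k ≤ Φ (k + 1) := by
    intro k hk _
    have h1 := hΦsucc k hk
    have h2 := hMmono k hk
    have h3 := hdrop0 k
    linarith
  have htel : ∀ k, α ≤ k → k ≤ β → ∑ i ∈ Finset.Ico α k, drop i ≤ M k - M α + m α - m k := by
    intro k hk
    induction k, hk using Nat.le_induction with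
    | base => intro _; simp
    | succ k hk ih =>
      intro hkβ
      rw [Finset.sum_Ico_succ_top hk]
      have h1 := ih (by omega)
      have h2 := hstep k hk (by omega)
      linarith
  have hMub : ∀ k, M k ≤ S.C ^ 2 := by
    intro k
    rw [hM]
    have := S.N_le (plus (D.Xk k) w) (f := 1) (M := 1) zero_le_one (fun z => le_rfl)
    linarith
  have hMnn : ∀ k, 0 ≤ M k := by
    intro k
    rw [hM]
    exact S.N_nonneg _ fun z => zero_le_one
  have hmub : ∀ k, m k ≤ S.C ^ 2 := by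
    intro k
    rw [hmd]
    have := S.N_le (plus (D.Xk k) w) (f := D.ek k * W) (M := 1) zero_le_one (heW1 k)
    linarith
  have hmnn : ∀ k, 0 ≤ m k := by
    intro k
    rw [hmd]
    exact S.N_nonneg _ (heW0 k)
  have hB : Φ β - Φ α ≤ 3 * S.C ^ 2 := by
    have h1 := htel β hαβ le_rfl
    have h2 : Φ α = M α := by rw [hΦ]; simp
    rw [h2, hΦ]
    have := hMub β
    have := hMnn α
    have := hmub α
    have := hmnn β
    linarith
  obtain ⟨α', hα', hr, hsmall⟩ := exists_stretch Φ α β (R + 1) K (3 * S.C ^ 2) ε hΦmono hB hK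
    hK0 hlen
  have hΦle : ∀ k k', α ≤ k → k ≤ k' → k' ≤ β → Φ k ≤ Φ k' := by
    intro k k' hk hkk'
    induction k', hkk' using Nat.le_induction with
    | base => intro _; exact le_rfl
    | succ k' hkk' ih =>
      intro h
      exact (ih (by omega)).trans (hΦmono k' (by omega) (by omega))
  have hMle : ∀ k k', α ≤ k → k ≤ k' → k' ≤ β → M k' - M k ≤ Φ k' - Φ k := by
    intro k k' hk hkk'
    induction k', hkk' using Nat.le_induction with
    | base => intro _; simp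
    | succ k' hkk' ih =>
      intro h
      have h1 := ih (by omega)
      have h2 := hΦsucc k' (by omega)
      have h3 := hdrop0 k'
      linarith
  have hd : S.N (plus (D.Xk (α' + 1)) w) (D.ek α' * W) -
      S.N (plus (D.Xk (α' + 1)) w) (D.ek (α' + 1) * W) ≤ ε := by
    rw [← hdr]
    have h1 := hΦsucc α' hα'
    have h2 := hMmono α' hα'
    have h3 := hΦle (α' + 1) (α' + (R + 1)) (by omega) (by omega) hr
    linarith
  have hgr : ∀ k, α' ≤ k → k ≤ α' + (R + 1) →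
      S.N (plus (D.Xk k) w) 1 - S.N (plus (D.Xk α') w) 1 ≤ ε := by
    intro k hk hk'
    rw [← hM, ← hM]
    have h1 := hMle α' k hα' hk (by omega)
    have h2 := hΦle k (α' + (R + 1)) (by omega) hk' hr
    linarith
  obtain ⟨w', V, E', hw', hwn', hV0, hV1, hVl, hEs', hEd', hprof', hlow'⟩ :=
    exists_group D (k₀ := α') (β := α' + (R + 1)) (by omega) (by omega) (hwk α' hα') hW0 hW1
      (hWk α' hα') (E ∪ D.F₀) hG hm1 hσ hσ1 hε hd hgr
  rw [Finset.disjoint_union_right] at hEd'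
  refine ⟨α', α' + (R + 1), hα', hr, by omega, ⟨?_⟩⟩
  exact
    { w := w'
      W := W * V
      E := E ∪ E'
      hαβ := by omega
      hβ := by omega
      w_mem := hw'
      w_nm := by
        push_cast
        have : ((j : ℝ) + 1) * (G * D.u) = j * (G * D.u) + G * D.u := by ring
        linarith
      W_nonneg := fun z => mul_nonneg (hW0 z) (hV0 z)
      W_le_one := fun z => mul_le_one₀ (hW1 z) (hV0 z) (hV1 z)
      W_lev := Lev.mul S (hWk α' hα') hVl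
      E_sub := by
        rw [Finset.coe_union]
        exact union_subset (hEs.trans (D.mono hα')) hEs'
      E_disj := by
        rw [Finset.disjoint_union_left]
        exact ⟨hEd, hEd'.2⟩
      prof := by
        intro l y
        obtain ⟨φ, h0, hj0, h1, h2⟩ := hprof l y
        obtain ⟨φ', h0', hj0', h1', h2'⟩ := hprof' l y
        refine ⟨φ + φ', by linarith, by push_cast; linarith, ?_, ?_⟩
        · have h3 : Real.exp (-(σ * (φ + φ'))) =
              Real.exp (-(σ * φ)) * Real.exp (-(σ * φ')) := by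
            rw [← Real.exp_add]
            ring_nf
          rw [h3]
          exact mul_le_mul h1 h1' (hV0 _) (Real.exp_pos _).le
        · rw [Finset.coe_union, Ball.mass_union (Finset.disjoint_coe.2 hEd'.1.symm)]
          push_cast
          have h4 : ((j : ℝ) + 1 - (φ + φ')) * G * (D.r₀ / D.g y) =
              (j - φ) * G * (D.r₀ / D.g y) + (1 - φ') * G * (D.r₀ / D.g y) := by ring
          rw [h4]
          exact add_le_add h2 h2'
      low := by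
        intro k hk hk'
        have h1 := hlow k (by omega) (by omega)
        have h2 := hlow' k hk hk'
        refine le_trans ?_ h2
        push_cast
        have h3 : 0 ≤ σ * ε := by positivity
        nlinarith }

end PathData

end Sys

end Pool.Agent.ZDB

end

section

/-!
# ZDB/Purity : purity and the localized measure ᾱ (README 3.4)
* alpha_eq_zero_of_disjoint: nm x = 1 is `alpha_eq_zero_of_nm`.  Otherwise an extension (A₀,A₁,Y) of x over b has res b Y = x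
  (Ext.res_of_subset), so nu_Y(Q) ≤ c(nm Y − nm x)/(1−nm x) ≤ cτ/(1−nm x) (purity0): ahat x Q τ ≤ cτ/(1−nm x) → 0.
* ab: infimum over all clopen O ∋ l.  exists_clop_lt_ab: given a clopen O ∋ l with alpha x (O∩Fs s) < r, O' = ρ_b⁻¹O ∈ Clop b contains l,
  (O'∖O) is clopen and disjoint from LA b, O'∩Fs s ⊆ (O∩Fs s) ∪ (O'∖O), so alpha x (O'∩Fs s) ≤ alpha x (O∩Fs s) + 0.
* ab_eq_ab0: if s < Fv l then Fs s is an open neighbourhood of l, so there is a clopen O₀ with l ∈ O₀ ⊆ Fs s; for O ∋ l clopen,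
  ab x l s ≤ alpha x ((O∩O₀)∩Fs s) ≤ alpha x (O ∩ O₀) ≤ .. so both infima agree (ab0 = ab x l (−1), Fs (−1) = univ).
* ab0_eq_zero: l ∉ LA b: there is a clopen Q ∋ l disjoint from the closed set LA b.
-/

open Set Filter Topology MeasureTheory Pool.Agent.H53.ZD

namespace Pool.Agent.ZDB

variable {κ L : Type*} [TopologicalSpace L] [CompactSpace L] [T2Space L] [TotallyDisconnectedSpace L]
  [MeasurableSpace L] [BorelSpace L]

namespace Sys

variable (S : Sys κ L) {b : Set κ} {x : Ball κ} {l : L} {s s' r : ℝ}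

theorem alpha_eq_zero_of_disjoint (hb : S.Ret b) (hR : S.RLQ b) (hx : x ∈ BA b) {Q : Set L}
    (hQ : IsClopen Q) (hQb : Disjoint Q (S.LA b)) : S.alpha x Q = 0 := by
  rcases eq_or_lt_of_le (nm_le_one x) with h1 | h1
  · exact S.alpha_eq_zero_of_nm h1 Q
  obtain ⟨c, hc, hcQ⟩ := S.purity0 hb hR hQ hQb
  have h2 : (0 : ℝ) < 1 - nm x := by linarith
  have h3 : ∀ τ : ℝ, 0 < τ → S.alpha x Q ≤ c * (τ / (1 - nm x)) := by
    intro τ hτ
    refine (S.alpha_le_ahat hτ).trans ((S.ahat_le_a hb.1).trans ?_)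
    refine S.a_le_of' (by positivity) fun A₀ A₁ Y hE hY => ?_
    have h4 := hcQ x hx h1 Y (Ext.res_of_subset S hE Subset.rfl hx)
    refine ((measureReal_mono inter_subset_left).trans h4).trans ?_
    have h5 : nm Y - nm x ≤ τ := by linarith
    gcongr
  refine le_antisymm ?_ (S.alpha_nonneg x Q)
  refine le_of_forall_pos_le_add fun ε hε => ?_
  have h4 := h3 (ε * (1 - nm x) / c) (by positivity)
  have h5 : c * (ε * (1 - nm x) / c / (1 - nm x)) = ε := by field_simp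
  rw [h5] at h4
  linarith

theorem ab_bdd (x : Ball κ) (l : L) (s : ℝ) :
    BddBelow {r | ∃ O : Set L, IsClopen O ∧ l ∈ O ∧ r = S.alpha x (O ∩ S.Fs s)} := by
  refine ⟨0, ?_⟩
  rintro r ⟨O, _, _, rfl⟩
  exact S.alpha_nonneg _ _

theorem ab_nonempty (x : Ball κ) (l : L) (s : ℝ) :
    {r | ∃ O : Set L, IsClopen O ∧ l ∈ O ∧ r = S.alpha x (O ∩ S.Fs s)}.Nonempty :=
  ⟨_, univ, isClopen_univ, mem_univ l, rfl⟩

theorem ab_le {O : Set L} (hO : IsClopen O) (hl : l ∈ O) :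
    S.ab x l s ≤ S.alpha x (O ∩ S.Fs s) :=
  csInf_le (S.ab_bdd x l s) ⟨O, hO, hl, rfl⟩

theorem ab0_le {O : Set L} (hO : IsClopen O) (hl : l ∈ O) : S.ab0 x l ≤ S.alpha x O := by
  have h := S.ab_le (x := x) (s := -1) hO hl
  rwa [S.Fs_neg_one, inter_univ] at h

theorem ab_nonneg (x : Ball κ) (l : L) (s : ℝ) : 0 ≤ S.ab x l s := by
  refine le_csInf (S.ab_nonempty x l s) ?_
  rintro r ⟨O, _, _, rfl⟩
  exact S.alpha_nonneg _ _

theorem ab_le_C (x : Ball κ) (l : L) (s : ℝ) : S.ab x l s ≤ S.C :=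
  (S.ab_le isClopen_univ (mem_univ l)).trans (S.alpha_le_C _ _)

theorem ab0_nonneg (x : Ball κ) (l : L) : 0 ≤ S.ab0 x l := S.ab_nonneg x l (-1)

theorem ab0_le_C (x : Ball κ) (l : L) : S.ab0 x l ≤ S.C := S.ab_le_C x l (-1)

theorem ab_anti (h : s ≤ s') (x : Ball κ) (l : L) : S.ab x l s' ≤ S.ab x l s := by
  refine le_csInf (S.ab_nonempty x l s) ?_
  rintro r ⟨O, hO, hl, rfl⟩
  exact (S.ab_le hO hl).trans (S.alpha_mono (inter_subset_inter_right _ (S.Fs_anti h)) x)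

theorem ab_le_ab0 (x : Ball κ) (l : L) (s : ℝ) : S.ab x l s ≤ S.ab0 x l := by
  refine le_csInf (S.ab_nonempty x l (-1)) ?_
  rintro r ⟨O, hO, hl, rfl⟩
  rw [S.Fs_neg_one, inter_univ]
  exact (S.ab_le hO hl).trans (S.alpha_mono inter_subset_left x)

theorem ab_of_nm (hx : nm x = 1) (l : L) (s : ℝ) : S.ab x l s = 0 := by
  refine le_antisymm ?_ (S.ab_nonneg x l s)
  exact (S.ab_le isClopen_univ (mem_univ l)).trans (S.alpha_eq_zero_of_nm hx _).le

theorem nm_lt_one_of_ab (h : 0 < S.ab x l s) : nm x < 1 := by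
  rcases eq_or_lt_of_le (nm_le_one x) with h1 | h1
  · rw [S.ab_of_nm h1] at h
    exact absurd h (lt_irrefl 0)
  · exact h1

theorem exists_clop_of_ab_lt (hb : S.Ret b) (hR : S.RLQ b) (hx : x ∈ BA b) (hl : l ∈ S.LA b)
    (h : S.ab x l s < r) : ∃ O, S.Clop b O ∧ l ∈ O ∧ S.alpha x (O ∩ S.Fs s) < r := by
  obtain ⟨t, ⟨O, hO, hlO, rfl⟩, ht⟩ := exists_lt_of_csInf_lt (S.ab_nonempty x l s) h
  have hO' : S.Clop b (S.rho b ⁻¹' O) := S.clop_preimage hb hO
  have hl' : S.rho b l = l := hl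
  refine ⟨S.rho b ⁻¹' O, hO', ?_, ?_⟩
  · rw [mem_preimage, hl']; exact hlO
  · have hd : IsClopen (S.rho b ⁻¹' O \ O) := hO'.1.diff hO
    have hdis : Disjoint (S.rho b ⁻¹' O \ O) (S.LA b) := by
      refine Set.disjoint_left.2 fun m hm hmL => ?_
      have h1 : S.rho b m = m := hmL
      have h2 : S.rho b m ∈ O := hm.1
      rw [h1] at h2
      exact hm.2 h2
    have h0 := S.alpha_eq_zero_of_disjoint hb hR hx hd hdis
    have hsub : S.rho b ⁻¹' O ∩ S.Fs s ⊆ (O ∩ S.Fs s) ∪ (S.rho b ⁻¹' O \ O) := by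
      rintro m ⟨hm1, hm2⟩
      by_cases hmO : m ∈ O
      · exact Or.inl ⟨hmO, hm2⟩
      · exact Or.inr ⟨hm1, hmO⟩
    calc S.alpha x (S.rho b ⁻¹' O ∩ S.Fs s)
        ≤ S.alpha x ((O ∩ S.Fs s) ∪ (S.rho b ⁻¹' O \ O)) := S.alpha_mono hsub x
      _ ≤ S.alpha x (O ∩ S.Fs s) + S.alpha x (S.rho b ⁻¹' O \ O) := S.alpha_union_le x _ _
      _ = S.alpha x (O ∩ S.Fs s) := by rw [h0, add_zero]
      _ < r := ht

theorem le_ab_of (hb : S.Ret b) (hR : S.RLQ b) (hx : x ∈ BA b) (hl : l ∈ S.LA b)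
    (h : ∀ O, S.Clop b O → l ∈ O → r ≤ S.alpha x (O ∩ S.Fs s)) : r ≤ S.ab x l s := by
  by_contra hcon
  obtain ⟨O, hO, hlO, h1⟩ := S.exists_clop_of_ab_lt hb hR hx hl (not_le.1 hcon)
  exact absurd (h O hO hlO) (not_le.2 h1)

theorem ab_eq_ab0 (hs : s < S.Fv l) : S.ab x l s = S.ab0 x l := by
  refine le_antisymm (S.ab_le_ab0 x l s) ?_
  obtain ⟨O₀, hO₀, hl₀, hsub⟩ := compact_exists_isClopen_in_isOpen (S.isOpen_Fs s)
    (show l ∈ S.Fs s from hs)
  refine le_csInf (S.ab_nonempty x l s) ?_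
  rintro t ⟨O, hO, hl, rfl⟩
  exact (S.ab0_le (hO.inter hO₀) ⟨hl, hl₀⟩).trans
    (S.alpha_mono (inter_subset_inter_right _ hsub) x)

theorem ab0_eq_zero (hb : S.Ret b) (hR : S.RLQ b) (hx : x ∈ BA b) (hl : l ∉ S.LA b) :
    S.ab0 x l = 0 := by
  obtain ⟨Q, hQ, hlQ, hsub⟩ := compact_exists_isClopen_in_isOpen (S.isClosed_LA b).isOpen_compl
    (show l ∈ (S.LA b)ᶜ from hl)
  refine le_antisymm ?_ (S.ab0_nonneg x l)
  refine (S.ab0_le hQ hlQ).trans (S.alpha_eq_zero_of_disjoint hb hR hx hQ ?_).le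
  exact Set.disjoint_left.2 fun m hm hmL => hsub hm hmL

end Sys

end Pool.Agent.ZDB

end

section

/-!
# ZDB/GoodFam : the family of good sets, alive nodes, the numbers s_b(l) and Σ
* exists_goodFam: intersect club_ret, club_rlq, club_gmono.  refine: Club.refine.
* alpha_empty: all values nu(∅ ∩ D) are 0.  Fs s = ∅ for s ≥ 2C² (Fv_le), so the sets defining sb and Sig are bounded above by 2C² and
  downward closed (ab_anti, alpha_mono with Fs_anti).
* Fv_le_sb: for s < Fv l ab x l s = ab0 x l > 0 (ab_eq_ab0).  sb_le_Sig: ab x l s ≤ alpha x (univ ∩ Fs s).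
* exists_of_lt_Sig: the set is nonempty: alpha 0 (Fs (−1)) = alpha 0 univ ≥ 1/C > 0.
-/

open Set Filter Topology MeasureTheory Pool.Agent.H53.ZD

namespace Pool.Agent.ZDB

variable {κ L : Type*} [TopologicalSpace L] [CompactSpace L] [T2Space L] [TotallyDisconnectedSpace L]
  [MeasurableSpace L] [BorelSpace L]

/-- a club family of good sets -/
structure GoodFam (S : Sys κ L) extends ClubFam κ where
  ret : ∀ A, G A → S.Ret A
  rlq : ∀ A, G A → S.RLQ A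
  gmono : ∀ A, G A → S.GMono A

theorem exists_goodFam (S : Sys κ L) : Nonempty (GoodFam S) := by
  obtain ⟨𝒢, h⟩ := (S.club_ret.and S.club_rlq).and S.club_gmono
  exact ⟨{ toClubFam := 𝒢
           ret := fun A hA => (h A hA).1.1
           rlq := fun A hA => (h A hA).1.2
           gmono := fun A hA => (h A hA).2 }⟩

theorem GoodFam.refine {S : Sys κ L} (𝒢 : GoodFam S) {P : Set κ → Prop} (h : Club P) :
    ∃ 𝒢' : GoodFam S, ∀ A, 𝒢'.G A → 𝒢.G A ∧ P A := by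
  obtain ⟨𝒢', h'⟩ := h.refine 𝒢.toClubFam
  exact ⟨{ toClubFam := 𝒢'
           ret := fun A hA => 𝒢.ret A (h' A hA).1
           rlq := fun A hA => 𝒢.rlq A (h' A hA).1
           gmono := fun A hA => 𝒢.gmono A (h' A hA).1 }, h'⟩

theorem GoodFam.exists_superset {S : Sys κ L} (𝒢 : GoodFam S) {A : Set κ} (hA : A.Countable) :
    ∃ A', A ⊆ A' ∧ 𝒢.G A' := 𝒢.cofinal A hA

namespace Sys

variable (S : Sys κ L) {b : Set κ} {l : L} {x : Ball κ} {s : ℝ}

/-- alive nodes -/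
def Alive (b : Set κ) (l : L) : Prop := ∃ x ∈ BA b, 0 < S.ab0 x l

/-- `s_b(l)` -/
noncomputable def sb (b : Set κ) (l : L) : ℝ := sSup {s | ∃ x ∈ BA b, 0 < S.ab x l s}

/-- `Σ` -/
noncomputable def Sig : ℝ := sSup {s | ∃ x : Ball κ, 0 < S.alpha x (S.Fs s)}

theorem alpha_empty (x : Ball κ) : S.alpha x ∅ = 0 := by
  refine le_antisymm ?_ (S.alpha_nonneg x ∅)
  refine (S.alpha_le_ahat (x := x) (U := ∅) one_pos).trans ?_
  refine (S.ahat_le_a (x := x) (U := ∅) (A := ∅) (τ := 1) countable_empty).trans ?_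
  refine S.a_le_of' le_rfl fun A₀ A₁ Y _ _ => ?_
  simp

theorem Fs_eq_empty (h : 2 * S.C ^ 2 ≤ s) : S.Fs s = ∅ := by
  refine eq_empty_of_forall_notMem fun l hl => ?_
  have h1 : s < S.Fv l := hl
  have h2 := S.Fv_le l
  linarith

theorem lt_of_alpha_pos {x : Ball κ} (h : 0 < S.alpha x (S.Fs s)) : s < 2 * S.C ^ 2 := by
  by_contra hc
  rw [S.Fs_eq_empty (not_lt.mp hc), S.alpha_empty x] at h
  exact lt_irrefl _ h

theorem alpha_pos_of_ab_pos (h : 0 < S.ab x l s) : 0 < S.alpha x (S.Fs s) := by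
  have h1 := S.ab_le (x := x) (s := s) (l := l) isClopen_univ (mem_univ l)
  rw [univ_inter] at h1
  exact h.trans_le h1

theorem bdd_sb (b : Set κ) (l : L) : BddAbove {s | ∃ x ∈ BA b, 0 < S.ab x l s} := by
  refine ⟨2 * S.C ^ 2, ?_⟩
  rintro s ⟨x, _, h⟩
  exact (S.lt_of_alpha_pos (S.alpha_pos_of_ab_pos h)).le

theorem bdd_Sig : BddAbove {s | ∃ x : Ball κ, 0 < S.alpha x (S.Fs s)} := by
  refine ⟨2 * S.C ^ 2, ?_⟩
  rintro s ⟨x, h⟩
  exact (S.lt_of_alpha_pos h).le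

theorem le_sb (hx : x ∈ BA b) (h : 0 < S.ab x l s) : s ≤ S.sb b l :=
  le_csSup (S.bdd_sb b l) ⟨x, hx, h⟩

theorem nonempty_sb (ha : S.Alive b l) : {s | ∃ x ∈ BA b, 0 < S.ab x l s}.Nonempty := by
  obtain ⟨x, hx, h⟩ := ha
  exact ⟨-1, x, hx, h⟩

theorem exists_of_lt_sb (ha : S.Alive b l) (h : s < S.sb b l) : ∃ x ∈ BA b, 0 < S.ab x l s := by
  obtain ⟨s', ⟨x, hx, h'⟩, hs'⟩ := exists_lt_of_lt_csSup (S.nonempty_sb ha) h
  exact ⟨x, hx, h'.trans_le (S.ab_anti hs'.le x l)⟩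

theorem ab_eq_zero_of_sb_lt (h : S.sb b l < s) (hx : x ∈ BA b) : S.ab x l s = 0 := by
  refine le_antisymm ?_ (S.ab_nonneg x l s)
  by_contra hc
  exact absurd (S.le_sb hx (not_le.mp hc)) (not_le.mpr h)

theorem Fv_le_sb (ha : S.Alive b l) : S.Fv l ≤ S.sb b l := by
  obtain ⟨x, hx, h⟩ := ha
  refine le_of_forall_lt fun s hs => ?_
  obtain ⟨s', h1, h2⟩ := exists_between hs
  refine h1.trans_le (S.le_sb hx ?_)
  rw [S.ab_eq_ab0 h2]
  exact h

theorem le_Sig (h : 0 < S.alpha x (S.Fs s)) : s ≤ S.Sig := le_csSup S.bdd_Sig ⟨x, h⟩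

theorem sb_le_Sig (ha : S.Alive b l) : S.sb b l ≤ S.Sig := by
  refine csSup_le (S.nonempty_sb ha) ?_
  rintro s ⟨x, _, h⟩
  exact S.le_Sig (S.alpha_pos_of_ab_pos h)

theorem Fv_le_Sig (ha : S.Alive b l) : S.Fv l ≤ S.Sig := (S.Fv_le_sb ha).trans (S.sb_le_Sig ha)

theorem exists_of_lt_Sig [Uncountable κ] (h : s < S.Sig) : ∃ x : Ball κ, 0 < S.alpha x (S.Fs s) := by
  have h0 : nm (0 : Ball κ) < 1 := by
    have : nm (0 : Ball κ) = 0 := by simp [nm, Ball.mass]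
    rw [this]; exact one_pos
  have hne : {s | ∃ x : Ball κ, 0 < S.alpha x (S.Fs s)}.Nonempty := by
    refine ⟨-1, 0, ?_⟩
    rw [S.Fs_neg_one]
    have h1 := S.alpha_univ_ge h0
    have h2 : 0 < 1 / S.C := one_div_pos.mpr (zero_lt_one.trans_le S.one_le)
    exact h2.trans_le h1
  obtain ⟨s', ⟨x, h'⟩, hs'⟩ := exists_lt_of_lt_csSup hne h
  exact ⟨x, h'.trans_le (S.alpha_mono (S.Fs_anti hs'.le) x)⟩

theorem alpha_eq_zero_of_Sig_lt (h : S.Sig < s) (x : Ball κ) : S.alpha x (S.Fs s) = 0 := by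
  refine le_antisymm ?_ (S.alpha_nonneg x _)
  by_contra hc
  exact absurd (S.le_Sig (not_le.mp hc)) (not_le.mpr h)

end Sys

end Pool.Agent.ZDB

end
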