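import Pool.Agent.ZDM.P06

/-!
# Merged form of the modules ZDB.PathThm, ZDB.Stab, ZDB.UnifPurity, ZDB.AbUpper, ZDB.ExtBound, ZDB.LandB, ZDB.TTDef, ZDB.Transfer, ZDB.Conv
-/

set_option autoImplicit false
set_option linter.unusedSectionVars false

section

/-!
# ZDB/PathThm : the path theorem (README 8.1)
C = S.C ≥ 1.  σ = θ/(16C²) (≤ 1), J ≥ 1 with J·σ·η ≥ log(2C²/θ), ε = θ/(32J), K with Kε ≥ 3C², K > 0; R_0 = 0, R_{i+1} = K(R_i+1); n = R_J.
(WLOG θ ≤ C²: otherwise main at k = 0 is impossible by N_le; so log(2C²/θ) > 0.)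
Let D be path data with the hypotheses.  G := ⌊(1 − nm X)/(J u)⌋₊.
Case G = 0: (1−nm X)/u < J, so hfin gives ψ₀ y ≥ 1 for all y (r₀/g y ≥ 0), and he₀ would give mass F₀ y > 1 if e₀(l,y) > 0; so e₀ = 0 and N(e₀) = 0 < θ.
Case G ≥ 1: nm X + J G u ≤ 1.  State at j = 0: w = 0, W = 1, E = ∅, α = 0, β = n (low: hmain; plus x 0 = x).  group_step J times (lengths R_J, R_{J−1}, …, R_0 = 0).
State at J, k = α: N_{plus (Xk k) w}(ek k*W) ≥ θ − Jε − σ(C² + 5Jε) ≥ θ/2 + something positive: > θ/2 − …; precisely θ − θ/32 − θ/16 − 5θσ/32 > θ/2 (N(1) ≤ C², N ≥ 0).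
exists_of_lt_N with r = θ/2: (l,y) with ek k(l,y)·W(l,y) > θ/(2C²).  So e₀(l,y) > 0 and W(l,y) > θ/(2C²): exp(−σφ) > θ/(2C²) gives φ < log(2C²/θ)/σ ≤ ηJ.
mass E y ≥ (J−φ)G r₀/g y ≥ (1−η)JG r₀/g y ≥ (1−η)((1−nm X)/u − J) r₀/g y (JG ≥ (1−nm X)/u − J), mass F₀ y > ψ₀ y (he₀), E and F₀ disjoint:
1 ≥ nm y ≥ mass F₀ y + mass E y > ψ₀ y + (1−η)((1−nm X)/u−J) r₀/g y ≥ 1.  Contradiction.
-/

open Set Filter Topology MeasureTheory Pool.Agent.H53.ZD

namespace Pool.Agent.ZDB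

variable {κ L : Type*} [TopologicalSpace L] [CompactSpace L] [T2Space L] [TotallyDisconnectedSpace L]
  [MeasurableSpace L] [BorelSpace L]

namespace Sys

/-- the lengths of the stretches -/
private def lenR (K : ℕ) : ℕ → ℕ
  | 0 => 0
  | i + 1 => K * (lenR K i + 1)

/-- the initial state -/
private theorem init_state {S : Sys κ L} {n : ℕ} (D : PathData S n) (G : ℕ) {θ σ ε : ℝ}
    (h3 : ∀ k, k ≤ n → θ ≤ S.N (D.Xk k) (D.ek k)) :
    Nonempty (PathData.GState D G θ σ ε 0 0 n) := by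
  refine ⟨{ w := 0
            W := 1
            E := ∅
            hαβ := Nat.zero_le _
            hβ := le_rfl
            w_mem := ?_
            w_nm := ?_
            W_nonneg := fun z => ?_
            W_le_one := fun z => ?_
            W_lev := Lev.one S
            E_sub := by simp
            E_disj := by simp
            prof := fun l y => ⟨0, le_rfl, ?_, ?_, ?_⟩
            low := fun k _ hk => ?_ }⟩
  · rw [mem_BA]
    intro i _
    rfl
  · have h : nm (0 : Ball κ) = 0 := nm_eq_zero.2 rfl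
    rw [h]
    simp
  · show (0 : ℝ) ≤ 1
    exact zero_le_one
  · exact le_of_eq rfl
  · simp
  · rw [mul_zero, neg_zero, Real.exp_zero]
    exact le_of_eq rfl
  · simp [Ball.mass_empty]
  · rw [plus_zero, mul_one]
    have h := h3 k hk
    simp only [Nat.cast_zero, zero_mul, sub_self, add_zero, mul_zero, sub_zero]
    exact h

/-- all the groups -/
private theorem all_groups {S : Sys κ L} {J K : ℕ} (D : PathData S (lenR K J)) {G : ℕ}
    (hG : 0 < G) (hm : nm D.X + J * (G * D.u) ≤ 1) {θ σ ε : ℝ} (hσ : 0 < σ) (hσ1 : σ ≤ 1)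
    (hε : 0 < ε) (hK0 : 0 < K) (hK : 3 * S.C ^ 2 ≤ K * ε)
    (h3 : ∀ k, k ≤ lenR K J → θ ≤ S.N (D.Xk k) (D.ek k)) :
    ∀ j, j ≤ J → ∃ α β, α + lenR K (J - j) ≤ β ∧
      Nonempty (PathData.GState D G θ σ ε j α β) := by
  intro j
  induction j with
  | zero =>
    intro _
    exact ⟨0, lenR K J, by simp, init_state D G h3⟩
  | succ j ih =>
    intro hj
    obtain ⟨α, β, hlen, ⟨st⟩⟩ := ih (by omega)
    have hJ : J - j = (J - (j + 1)) + 1 := by omega
    rw [hJ] at hlen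
    obtain ⟨α', β', h1, h2, h4, h5⟩ := PathData.group_step D hG hm hσ hσ1 hε (by omega) st
      (R := lenR K (J - (j + 1))) hK0 hK hlen
    exact ⟨α', β', h4, h5⟩

theorem path_thm (S : Sys κ L) {θ η : ℝ} (hθ : 0 < θ) (hη : 0 < η) (hη1 : η < 1) :
    ∃ n J : ℕ, 0 < n ∧ 0 < J ∧ ∀ (D : PathData S n) (ψ₀ : Ball κ → ℝ),
      (∀ l y, 0 < D.e₀ (l, y) → ψ₀ y < Ball.mass (D.F₀ : Set κ) y) →
      (∀ y, 1 ≤ ψ₀ y + (1 - η) * ((1 - nm D.X) / D.u - J) * (D.r₀ / D.g y)) →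
      (∀ k, k ≤ n → θ ≤ S.N (D.Xk k) (D.ek k)) → False := by
  have hC1 : 1 ≤ S.C := S.one_le
  have hC : 0 < S.C := zero_lt_one.trans_le hC1
  have hC2 : 1 ≤ S.C ^ 2 := one_le_pow₀ hC1
  have hC20 : 0 < S.C ^ 2 := by positivity
  have hN0 : ∀ {n : ℕ} (D : PathData S n) (M : ℝ), 0 ≤ M → (∀ z, D.e₀ z ≤ M) →
      θ ≤ S.N (D.Xk 0) (D.ek 0) → θ ≤ M * S.C ^ 2 := by
    intro n D M hM h h1
    rw [D.ek_zero] at h1
    exact h1.trans (S.N_le _ hM h)
  by_cases hcase : S.C ^ 2 < θ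
  · refine ⟨1, 1, one_pos, one_pos, fun D ψ₀ _ _ h3 => ?_⟩
    have h := hN0 D 1 zero_le_one D.e₀_le_one (h3 0 (Nat.zero_le _))
    linarith
  push Not at hcase
  -- the parameters
  obtain ⟨σ, hσdef⟩ : ∃ σ : ℝ, σ = θ / (16 * S.C ^ 2) := ⟨_, rfl⟩
  have hσ : 0 < σ := by rw [hσdef]; positivity
  have hσC : σ * S.C ^ 2 = θ / 16 := by
    rw [hσdef]; field_simp
  have hσ16 : σ ≤ 1 / 16 := by
    rw [hσdef, div_le_iff₀ (by positivity)]
    linarith
  have hσ1 : σ ≤ 1 := by linarith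
  obtain ⟨Λ, hΛ⟩ : ∃ Λ : ℝ, Λ = Real.log (2 * S.C ^ 2 / θ) := ⟨_, rfl⟩
  have hΛarg : 0 < 2 * S.C ^ 2 / θ := by positivity
  obtain ⟨J, hJ⟩ : ∃ J : ℕ, Λ / (σ * η) ≤ J ∧ 0 < J := by
    obtain ⟨J, hJ⟩ := exists_nat_ge (Λ / (σ * η))
    exact ⟨J + 1, hJ.trans (by push_cast; linarith), Nat.succ_pos _⟩
  obtain ⟨hJ1, hJ0⟩ := hJ
  have hJ0' : (0 : ℝ) < J := Nat.cast_pos.2 hJ0
  have hJ2 : Λ ≤ σ * (η * J) := by
    rw [div_le_iff₀ (by positivity)] at hJ1
    linarith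
  obtain ⟨ε, hεdef⟩ : ∃ ε : ℝ, ε = θ / (32 * J) := ⟨_, rfl⟩
  have hε : 0 < ε := by rw [hεdef]; positivity
  have hJε : J * ε = θ / 32 := by
    rw [hεdef]; field_simp
  obtain ⟨K, hKge, hK0⟩ : ∃ K : ℕ, 3 * S.C ^ 2 / ε ≤ K ∧ 0 < K := by
    obtain ⟨K, hK⟩ := exists_nat_ge (3 * S.C ^ 2 / ε)
    exact ⟨K + 1, hK.trans (by push_cast; linarith), Nat.succ_pos _⟩
  have hK : 3 * S.C ^ 2 ≤ K * ε := by
    rwa [div_le_iff₀ hε] at hKge
  have hn : 0 < lenR K J := by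
    obtain ⟨j, rfl⟩ : ∃ j, J = j + 1 := ⟨J - 1, by omega⟩
    exact Nat.mul_pos hK0 (Nat.succ_pos _)
  refine ⟨lenR K J, J, hn, hJ0, fun D ψ₀ he₀ hfin h3 => ?_⟩
  have hu := D.u_pos
  have hJu : 0 < J * D.u := mul_pos hJ0' hu
  have hrg : ∀ y, 0 ≤ D.r₀ / D.g y := fun y => div_nonneg D.r₀_nonneg (D.g_pos y).le
  have hη' : 0 < 1 - η := by linarith
  obtain ⟨G, hGdef⟩ : ∃ G : ℕ, G = ⌊(1 - nm D.X) / (J * D.u)⌋₊ := ⟨_, rfl⟩
  rcases Nat.eq_zero_or_pos G with hG0 | hG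
  · -- no insertion: the event is empty
    rw [hG0] at hGdef
    have h1 : (1 - nm D.X) / (J * D.u) < 1 := by
      rw [← Nat.floor_eq_zero]
      exact hGdef.symm
    have h2 : (1 - nm D.X) / D.u ≤ J := by
      rw [div_lt_one hJu] at h1
      rw [div_le_iff₀ hu]
      exact h1.le
    have h4 : ∀ z, D.e₀ z ≤ 0 := by
      rintro ⟨l, y⟩
      by_contra hcon
      push Not at hcon
      have h5 := he₀ l y hcon
      have h6 := hfin y
      have h7 : (1 - η) * ((1 - nm D.X) / D.u - J) * (D.r₀ / D.g y) ≤ 0 :=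
        mul_nonpos_of_nonpos_of_nonneg
          (mul_nonpos_of_nonneg_of_nonpos hη'.le (by linarith)) (hrg y)
      have h8 := Ball.mass_le_one (D.F₀ : Set κ) y
      linarith
    have h9 := hN0 D 0 le_rfl h4 (h3 0 (Nat.zero_le _))
    linarith
  -- the main case
  have hG' : (0 : ℝ) < G := Nat.cast_pos.2 hG
  have hG1 : (G : ℝ) ≤ (1 - nm D.X) / (J * D.u) := by
    rw [hGdef]
    refine Nat.floor_le ?_
    by_contra hneg
    push Not at hneg
    rw [Nat.floor_of_nonpos hneg.le] at hGdef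
    omega
  have hm : nm D.X + J * (G * D.u) ≤ 1 := by
    rw [le_div_iff₀ hJu] at hG1
    linarith
  have hG2 : (1 - nm D.X) / D.u - J ≤ J * G := by
    have h1 : (1 - nm D.X) / (J * D.u) < G + 1 := by
      rw [hGdef]
      exact Nat.lt_floor_add_one _
    rw [div_lt_iff₀ hJu] at h1
    have h2 : (1 - nm D.X) / D.u ≤ (G + 1) * J := by
      rw [div_le_iff₀ hu]
      linarith
    linarith
  obtain ⟨α, β, -, ⟨st⟩⟩ := all_groups D hG hm hσ hσ1 hε hK0 hK h3 J le_rfl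
  have hlow := st.low α le_rfl st.hαβ
  have hNw : S.N (plus (D.Xk α) st.w) 1 ≤ 1 * S.C ^ 2 :=
    S.N_le _ zero_le_one (fun z => le_of_eq rfl)
  have hNX : 0 ≤ S.N (D.Xk α) 1 := S.N_nonneg _ (fun z => zero_le_one)
  have hhalf : θ / 2 < S.N (plus (D.Xk α) st.w) (D.ek α * st.W) := by
    refine lt_of_lt_of_le ?_ hlow
    have h5 : σ * (S.N (plus (D.Xk α) st.w) 1 - S.N (D.Xk α) 1 + J * (5 * ε)) ≤
        σ * (S.C ^ 2 + 5 * (θ / 32)) := by
      refine mul_le_mul_of_nonneg_left ?_ hσ.le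
      have h6 : (J : ℝ) * (5 * ε) = 5 * (θ / 32) := by
        rw [← hJε]; ring
      rw [h6]
      linarith
    have h7 : σ * (S.C ^ 2 + 5 * (θ / 32)) ≤ θ / 16 + 5 * (θ / 512) := by
      rw [mul_add, hσC]
      have h8 : σ * (5 * (θ / 32)) ≤ 1 / 16 * (5 * (θ / 32)) :=
        mul_le_mul_of_nonneg_right hσ16 (by positivity)
      linarith
    rw [hJε]
    linarith
  obtain ⟨⟨l, y⟩, hz⟩ := S.exists_of_lt_N (by positivity : (0 : ℝ) ≤ θ / 2) hhalf
  have hz' : θ / 2 / S.C ^ 2 < D.ek α (l, y) * st.W (l, y) := hz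
  have hc0 : 0 < θ / 2 / S.C ^ 2 := by positivity
  have hW0 := st.W_nonneg (l, y)
  have he1 := D.ek_le_one α (l, y)
  have he0 := D.ek_nonneg α (l, y)
  have hWc : θ / 2 / S.C ^ 2 < st.W (l, y) := by
    refine hz'.trans_le ?_
    calc D.ek α (l, y) * st.W (l, y) ≤ 1 * st.W (l, y) := mul_le_mul_of_nonneg_right he1 hW0
      _ = st.W (l, y) := one_mul _
  have hepos : 0 < D.e₀ (l, y) := by
    have h1 : 0 < D.ek α (l, y) := by
      rcases he0.lt_or_eq with h | h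
      · exact h
      · rw [← h, zero_mul] at hz'
        linarith
    have h2 := D.ek_anti (Nat.zero_le α) (l, y)
    rw [D.ek_zero] at h2
    exact h1.trans_le h2
  obtain ⟨φ, hφ0, hφJ, hφW, hφE⟩ := st.prof l y
  have hφ : φ ≤ η * J := by
    have h1 : θ / 2 / S.C ^ 2 < Real.exp (-(σ * φ)) := hWc.trans_le hφW
    have h2 := Real.log_lt_log hc0 h1
    rw [Real.log_exp] at h2
    have h3 : Real.log (θ / 2 / S.C ^ 2) = -Λ := by
      rw [hΛ, ← Real.log_inv]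
      congr 1
      field_simp
    rw [h3] at h2
    have h4 : σ * φ < σ * (η * J) := by linarith
    exact (lt_of_mul_lt_mul_left h4 hσ.le).le
  have hmassE : (1 - η) * ((1 - nm D.X) / D.u - J) * (D.r₀ / D.g y) ≤
      Ball.mass (st.E : Set κ) y := by
    refine le_trans ?_ hφE
    refine mul_le_mul_of_nonneg_right ?_ (hrg y)
    calc (1 - η) * ((1 - nm D.X) / D.u - J) ≤ (1 - η) * (J * G) :=
          mul_le_mul_of_nonneg_left hG2 hη'.le
      _ = ((1 - η) * J) * G := by ring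
      _ ≤ (J - φ) * G := by
          refine mul_le_mul_of_nonneg_right ?_ hG'.le
          linarith
  have hF := he₀ l y hepos
  have hfy := hfin y
  have hdis : Disjoint (st.E : Set κ) (D.F₀ : Set κ) := Finset.disjoint_coe.2 st.E_disj
  have hun := Ball.mass_union hdis y
  have hone := Ball.mass_le_one ((st.E : Set κ) ∪ (D.F₀ : Set κ)) y
  linarith

end Sys

end Pool.Agent.ZDB

end

section

/-!
# ZDB/Stab : stabilisation and measurability (README 3.7)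
Fix b Ret, O ∈ Clop b, s : ℚ, U = O ∩ Fs s (open), τ : ℚ > 0, K = {y ∈ BA b | nm y ≤ 1−τ} (closed; `Ball.isClosed_mass_le`).
BA b is second countable (it embeds into b → ℝ, b countable), or: every subset of BA b has a countable dense subset.
* For countable A ⊇ b and real r the set {y ∈ K | r < a y U A τ} is relatively open in K: take an extension (A₀,A₁,Y) of y over A with
  nm Y < nm y + τ, r < nu_Y(U∩D); z = res A₀ᶜ Y, nm z < τ.  For y' ∈ K near y: plus y' z ∈ Ball with nm y' + nm z < 1;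
  (A₀,A₁,plus y' z) is an extension of y' over A (y' ∈ BA b ⊆ BA A₀), nm < nm y' + τ, and r < nu_{plus y' z}(U∩D) (isOpen_nu and
  continuousOn_plus).
* So E_A := {y ∈ K | a y U A τ ≤ r} is closed, increasing in A.  The union of the E_A (A ⊇ b countable) has a countable dense subset, which is
  contained in one E_{A_r} (σ-directed); E_{A_r} is closed, so it contains every E_A.  Let A_* be the union of the A_r over r ∈ ℚ, and over
  the countably many (O, s, τ) (countable_clop).  Then for A ⊇ A_* countable, a y U A τ = a y U A_* τ, so = ahat y U τ.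
* measurable_ahat: {y | nm (res b y) ≤ 1−τ ∧ r < ahat (res b y) U τ} is the preimage under res b of a relatively open subset of the closed K.
* measurable_alpha: alpha y U < r iff nm y = 1 and 0 < r, or there is τ ∈ ℚ, τ > 0, nm y ≤ 1 − τ, ahat y U τ < r (y ∈ BA b).
* measurable_ab: for y ∈ BA b, ab y l s = inf over the countably many O ∈ Clop b with l ∈ O (exists_clop_of_ab_lt, ab_le).
-/

open Set Filter Topology MeasureTheory Pool.Agent.H53.ZD

namespace Pool.Agent.ZDB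

variable {κ L : Type*} [TopologicalSpace L] [CompactSpace L] [T2Space L] [TotallyDisconnectedSpace L]
  [MeasurableSpace L] [BorelSpace L]

namespace Sys

variable (S : Sys κ L)

/-- subsets of `BA b` are separable -/
private lemma stab_dense {b : Set κ} (hb : b.Countable) (E : Set (Ball κ)) (hE : E ⊆ BA b) :
    ∃ D : Set (Ball κ), D ⊆ E ∧ D.Countable ∧ E ⊆ closure D := by
  haveI : Countable b := hb.to_subtype
  haveI : CompactSpace (BA b) := isCompact_iff_compactSpace.1 (isClosed_BA b).isCompact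
  let φ : BA b → (b → ℝ) := fun y i => (y : Ball κ) i
  have hφ : Continuous φ := by
    refine continuous_pi fun i => ?_
    exact (Ball.continuous_coord (i : κ)).comp continuous_subtype_val
  have hinj : Function.Injective φ := by
    intro y y' h
    apply Subtype.ext
    ext i
    by_cases hi : i ∈ b
    · exact congrFun h ⟨i, hi⟩
    · rw [mem_BA.1 y.2 i hi, mem_BA.1 y'.2 i hi]
  haveI : SecondCountableTopology (BA b) :=
    (hφ.isClosedEmbedding hinj).isInducing.secondCountableTopology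
  let E' : Set (BA b) := Subtype.val ⁻¹' E
  obtain ⟨D, hD, hDd⟩ := TopologicalSpace.exists_countable_dense E'
  let ψ : E' → Ball κ := fun y => ((y : BA b) : Ball κ)
  have hψ : Continuous ψ := continuous_subtype_val.comp continuous_subtype_val
  refine ⟨ψ '' D, ?_, hD.image _, ?_⟩
  · rintro _ ⟨y, -, rfl⟩
    exact y.2
  · intro y hy
    have h1 : (⟨⟨y, hE hy⟩, hy⟩ : E') ∈ closure D := hDd _
    exact map_mem_closure hψ h1 (fun z hz => mem_image_of_mem _ hz)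

/-- the closed set `{y ∈ BA b : nm y ≤ 1-τ}` -/
private def SK (b : Set κ) (τ : ℝ) : Set (Ball κ) := {y | y ∈ BA b ∧ nm y ≤ 1 - τ}

private lemma isClosed_SK (b : Set κ) (τ : ℝ) : IsClosed (SK b τ) :=
  (isClosed_BA b).inter (Ball.isClosed_mass_le univ (1 - τ))

/-- `{y ∈ K | r < a y U A τ}` is relatively open in `K` -/
private lemma stab_open {b A : Set κ} (hbA : b ⊆ A) (hA : A.Countable) {U : Set L}
    (hU : IsOpen U) {τ : ℝ} (hτ : 0 < τ) (r : ℝ) :
    ∃ W : Set (Ball κ), IsOpen W ∧ ∀ y ∈ SK b τ, (r < S.a y U A τ ↔ y ∈ W) := by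
  have key : ∀ y ∈ SK b τ, r < S.a y U A τ →
      ∃ W : Set (Ball κ), IsOpen W ∧ y ∈ W ∧ ∀ y' ∈ SK b τ, y' ∈ W → r < S.a y' U A τ := by
    rintro y ⟨hyb, hy⟩ hr
    obtain ⟨A₀, A₁, Y, hE, hY, hrY⟩ := S.exists_of_lt_a hA hτ hr
    let z : Ball κ := Ball.res A₀ᶜ Y
    have hz : nm z < τ := by
      have h1 : nm z = nm Y - nm y := by
        show nm (Ball.res A₀ᶜ Y) = _
        rw [nm_res_compl, hE.resY]
      linarith
    have hYz : plus y z = Y := by
      have := plus_res_compl A₀ Y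
      rw [hE.resY] at this
      exact this
    have hcont : ContinuousOn (fun x : Ball κ => plus x z) (SK b τ) := by
      refine (continuousOn_plus z).mono ?_
      rintro x ⟨-, hx⟩
      show nm x + nm z ≤ 1
      linarith
    have hopen : IsOpen {Y' : Ball κ | r < (S.nu Y').real (U ∩ S.D A₀ A₁)} :=
      S.isOpen_nu (hU.inter (S.isOpen_D A₀ A₁)) r
    obtain ⟨W, hW, hWe⟩ := (continuousOn_iff'.1 hcont) _ hopen
    refine ⟨W, hW, ?_, ?_⟩
    · have h1 : y ∈ (fun x : Ball κ => plus x z) ⁻¹' {Y' | r < (S.nu Y').real (U ∩ S.D A₀ A₁)} ∩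
          SK b τ := by
        refine ⟨?_, hyb, hy⟩
        show r < (S.nu (plus y z)).real (U ∩ S.D A₀ A₁)
        rw [hYz]; exact hrY
      rw [hWe] at h1
      exact h1.1
    · rintro y' ⟨hyb', hy'⟩ hyW
      have h1 : y' ∈ W ∩ SK b τ := ⟨hyW, hyb', hy'⟩
      rw [← hWe] at h1
      have h2 : r < (S.nu (plus y' z)).real (U ∩ S.D A₀ A₁) := h1.1
      have hA₀ : b ⊆ A₀ := hbA.trans hE.sub₀
      have hA₁ : b ⊆ A₁ := hA₀.trans hE.sub₁
      have hsum : nm y' + nm z ≤ 1 := by linarith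
      have hzA₀ : z ∈ BA A₀ᶜ := res_mem_BA _ _
      have hE' : S.Ext y' A A₀ A₁ (plus y' z) := by
        refine ⟨hE.sub₀, hE.sub₁, hE.ret₀, hE.ret₁, ?_, ?_⟩
        · refine plus_mem_BA (BA_mono hA₁ hyb') ?_
          rw [mem_BA]
          intro i hi
          show Ball.res A₀ᶜ Y i = 0
          by_cases hi' : i ∈ A₀ᶜ
          · rw [Ball.res_of_mem _ hi']
            exact mem_BA.1 hE.memY i hi
          · rw [Ball.res_of_notMem _ hi']
        · exact res_plus_left (BA_mono hA₀ hyb') hzA₀ hsum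
      refine h2.trans_le (S.le_a hE' ?_)
      have := nm_plus_le y' z
      linarith
  choose! W hW using key
  refine ⟨⋃ y ∈ {y | y ∈ SK b τ ∧ r < S.a y U A τ}, W y, ?_, ?_⟩
  · exact isOpen_biUnion fun y hy => (hW y hy.1 hy.2).1
  · intro y hy
    constructor
    · intro h
      exact mem_biUnion (show y ∈ {y | y ∈ SK b τ ∧ r < S.a y U A τ} from ⟨hy, h⟩)
        (hW y hy h).2.1
    · intro h
      simp only [mem_iUnion] at h
      obtain ⟨y₀, hy₀, hyW⟩ := h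
      exact (hW y₀ hy₀.1 hy₀.2).2.2 y hy hyW

/-- one step of the stabilisation -/
private lemma stab_one {b : Set κ} (hb : b.Countable) {U : Set L}
    (hU : IsOpen U) {τ : ℝ} (hτ : 0 < τ) (r : ℝ) :
    ∃ A : Set κ, b ⊆ A ∧ A.Countable ∧ ∀ y ∈ SK b τ, ∀ A', A'.Countable → b ⊆ A' →
      S.a y U A' τ ≤ r → S.a y U A τ ≤ r := by
  let E : Set (Ball κ) := {y | y ∈ SK b τ ∧ ∃ A' : Set κ, A'.Countable ∧ b ⊆ A' ∧
    S.a y U A' τ ≤ r}
  obtain ⟨D, hDE, hDc, hDd⟩ := stab_dense hb E (fun y hy => hy.1.1)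
  have h1 : ∀ d ∈ D, ∃ A' : Set κ, A'.Countable ∧ b ⊆ A' ∧ S.a d U A' τ ≤ r :=
    fun d hd => (hDE hd).2
  choose! A hA using h1
  have hAc : (b ∪ ⋃ d ∈ D, A d).Countable := hb.union (hDc.biUnion fun d hd => (hA d hd).1)
  refine ⟨b ∪ ⋃ d ∈ D, A d, subset_union_left, hAc, ?_⟩
  intro y hy A' hA'c hbA' hr
  obtain ⟨W, hW, hWe⟩ := S.stab_open (subset_union_left (s := b) (t := ⋃ d ∈ D, A d)) hAc hU hτ r
  have hcl : IsClosed (SK b τ ∩ Wᶜ) := (isClosed_SK b τ).inter hW.isClosed_compl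
  have hDs : D ⊆ SK b τ ∩ Wᶜ := by
    intro d hd
    refine ⟨(hDE hd).1, fun hdW => ?_⟩
    have h2 := (hWe d (hDE hd).1).2 hdW
    have h3 : S.a d U (b ∪ ⋃ d ∈ D, A d) τ ≤ S.a d U (A d) τ :=
      S.a_anti ((subset_biUnion_of_mem (u := A) hd).trans subset_union_right) d U τ
    linarith [(hA d hd).2.2]
  have hyE : y ∈ E := ⟨hy, A', hA'c, hbA', hr⟩
  have h4 : y ∈ SK b τ ∩ Wᶜ := closure_minimal hDs hcl (hDd hyE)
  by_contra hcon
  push Not at hcon
  exact h4.2 ((hWe y hy).1 hcon)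

/-- `A` is a stabilising set for `b` -/
def Stab (b A : Set κ) : Prop :=
  b ⊆ A ∧ A.Countable ∧ ∀ y ∈ BA b, ∀ τ : ℚ, 0 < τ → nm y ≤ 1 - τ → ∀ O, S.Clop b O → ∀ s : ℚ,
    ∀ A', A ⊆ A' → A'.Countable → S.a y (O ∩ S.Fs s) A' τ = S.ahat y (O ∩ S.Fs s) τ

theorem exists_stab {b : Set κ} (hb : S.Ret b) : ∃ A, S.Stab b A := by
  have hcl := S.countable_clop hb
  haveI : Countable {O : Set L | S.Clop b O} := hcl.to_subtype
  have h1 : ∀ p : {O : Set L | S.Clop b O} × ℚ × {τ : ℚ // 0 < τ} × ℚ,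
      ∃ A : Set κ, b ⊆ A ∧ A.Countable ∧ ∀ y ∈ SK b ((p.2.2.1 : ℚ) : ℝ), ∀ A', A'.Countable →
        b ⊆ A' → S.a y ((p.1 : Set L) ∩ S.Fs p.2.1) A' ((p.2.2.1 : ℚ) : ℝ) ≤ p.2.2.2 →
        S.a y ((p.1 : Set L) ∩ S.Fs p.2.1) A ((p.2.2.1 : ℚ) : ℝ) ≤ p.2.2.2 := by
    intro p
    refine S.stab_one hb.1 ?_ ?_ _
    · have hO : S.Clop b (p.1 : Set L) := p.1.2
      exact hO.1.isOpen.inter (S.isOpen_Fs _)
    · exact_mod_cast p.2.2.1.2
  choose A hbA hAc hA using h1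
  refine ⟨b ∪ ⋃ p, A p, subset_union_left, hb.1.union (countable_iUnion hAc), ?_⟩
  intro y hy τ hτ hnm O hO s A' hAA' hA'c
  refine le_antisymm ?_ (S.ahat_le_a hA'c)
  by_contra hcon
  push Not at hcon
  obtain ⟨r, hr1, hr2⟩ := exists_rat_btwn hcon
  obtain ⟨A₂, hA₂c, hA₂⟩ := S.exists_ahat_eq y (O ∩ S.Fs s) τ
  have h2 := hA₂ (A₂ ∪ b) subset_union_left (hA₂c.union hb.1)
  have h3 := hA (⟨O, hO⟩, s, ⟨τ, hτ⟩, r) y ⟨hy, hnm⟩ (A₂ ∪ b) (hA₂c.union hb.1)
    subset_union_right (by show S.a y (O ∩ S.Fs s) (A₂ ∪ b) τ ≤ r; rw [h2]; exact hr1.le)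
  have h4 : A (⟨O, hO⟩, s, ⟨τ, hτ⟩, r) ⊆ A' :=
    ((subset_iUnion A _).trans subset_union_right).trans hAA'
  have h5 := S.a_anti h4 y (O ∩ S.Fs s) τ
  have h6 : S.a y (O ∩ S.Fs s) (A (⟨O, hO⟩, s, ⟨τ, hτ⟩, r)) τ ≤ r := h3
  linarith

theorem Stab.mono {b A A' : Set κ} (h : S.Stab b A) (hA : A ⊆ A') (hA' : A'.Countable) :
    S.Stab b A' :=
  ⟨h.1.trans hA, hA', fun y hy τ hτ hn O hO s A'' hA'' hc =>
    h.2.2 y hy τ hτ hn O hO s A'' (hA.trans hA'') hc⟩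

theorem measurable_ahat {b : Set κ} (hb : S.Ret b) {O : Set L} (hO : S.Clop b O) (s τ : ℚ)
    (hτ : 0 < τ) (r : ℝ) : MeasurableSet {y : Ball κ | nm (Ball.res b y) ≤ 1 - τ ∧
      r < S.ahat (Ball.res b y) (O ∩ S.Fs s) τ} := by
  obtain ⟨A, hA⟩ := S.exists_stab hb
  have hU : IsOpen (O ∩ S.Fs s) := hO.1.isOpen.inter (S.isOpen_Fs _)
  have hτ' : (0 : ℝ) < τ := by exact_mod_cast hτ
  obtain ⟨W, hW, hWe⟩ := S.stab_open hA.1 hA.2.1 hU hτ' r
  have e : {y : Ball κ | nm (Ball.res b y) ≤ 1 - τ ∧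
      r < S.ahat (Ball.res b y) (O ∩ S.Fs s) τ} =
      Ball.res b ⁻¹' (SK b (τ : ℝ) ∩ W) := by
    ext y
    simp only [mem_setOf_eq, mem_preimage, mem_inter_iff]
    constructor
    · rintro ⟨h1, h2⟩
      have hK : Ball.res b y ∈ SK b (τ : ℝ) := ⟨res_mem_BA _ _, h1⟩
      refine ⟨hK, (hWe _ hK).1 ?_⟩
      rw [hA.2.2 _ (res_mem_BA _ _) τ hτ h1 O hO s A subset_rfl hA.2.1]
      exact h2
    · rintro ⟨hK, h2⟩
      refine ⟨hK.2, ?_⟩
      have h3 := (hWe _ hK).2 h2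
      rwa [hA.2.2 _ (res_mem_BA _ _) τ hτ hK.2 O hO s A subset_rfl hA.2.1] at h3
  rw [e]
  exact Ball.measurable_res b ((isClosed_SK b τ).measurableSet.inter hW.measurableSet)

theorem measurable_alpha {b : Set κ} (hb : S.Ret b) {O : Set L} (hO : S.Clop b O) (s : ℚ) :
    Measurable fun y : Ball κ => S.alpha (Ball.res b y) (O ∩ S.Fs s) := by
  refine measurable_of_Iio fun r => ?_
  have hnm : Measurable fun y : Ball κ => nm (Ball.res b y) :=
    (Ball.measurable_mass univ).comp (Ball.measurable_res b)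
  have h1 : ∀ τ : ℚ, 0 < τ → MeasurableSet {y : Ball κ | nm (Ball.res b y) ≤ 1 - τ ∧
      S.ahat (Ball.res b y) (O ∩ S.Fs s) τ < r} := by
    intro τ hτ
    have e : {y : Ball κ | nm (Ball.res b y) ≤ 1 - τ ∧
        S.ahat (Ball.res b y) (O ∩ S.Fs s) τ < r} =
        ⋃ q : {q : ℚ // (q : ℝ) < r}, ({y : Ball κ | nm (Ball.res b y) ≤ 1 - τ} \
          {y : Ball κ | nm (Ball.res b y) ≤ 1 - τ ∧
            ((q : ℚ) : ℝ) < S.ahat (Ball.res b y) (O ∩ S.Fs s) τ}) := by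
      ext y
      simp only [mem_setOf_eq, mem_iUnion, mem_diff, not_and, not_lt]
      constructor
      · rintro ⟨h1, h2⟩
        obtain ⟨q, hq1, hq2⟩ := exists_rat_btwn h2
        exact ⟨⟨q, hq2⟩, h1, fun _ => hq1.le⟩
      · rintro ⟨⟨q, hq⟩, h1, h2⟩
        exact ⟨h1, (h2 h1).trans_lt hq⟩
    rw [e]
    refine MeasurableSet.iUnion fun q => ?_
    exact (measurableSet_le hnm measurable_const).diff (S.measurable_ahat hb hO s τ hτ _)
  have e : (fun y : Ball κ => S.alpha (Ball.res b y) (O ∩ S.Fs s)) ⁻¹' Iio r =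
      ({y : Ball κ | nm (Ball.res b y) = 1} ∩ {_y | 0 < r}) ∪
        ⋃ τ : {τ : ℚ // 0 < τ}, {y : Ball κ | nm (Ball.res b y) ≤ 1 - ((τ : ℚ) : ℝ) ∧
          S.ahat (Ball.res b y) (O ∩ S.Fs s) ((τ : ℚ) : ℝ) < r} := by
    ext y
    simp only [mem_preimage, mem_Iio, mem_union, mem_inter_iff, mem_setOf_eq, mem_iUnion]
    constructor
    · intro h
      rcases eq_or_lt_of_le (nm_le_one (Ball.res b y)) with h1 | h1
      · left
        refine ⟨h1, ?_⟩
        rwa [S.alpha_eq_zero_of_nm h1] at h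
      · right
        obtain ⟨τ₀, hτ₀, h2⟩ := S.exists_tau h
        obtain ⟨τ, hτ1, hτ2⟩ := exists_rat_btwn (show (0 : ℝ) < min τ₀ (1 - nm (Ball.res b y)) from
          lt_min hτ₀ (by linarith))
        refine ⟨⟨τ, by exact_mod_cast hτ1⟩, ?_, ?_⟩
        · have := hτ2.trans_le (min_le_right _ _)
          show nm (Ball.res b y) ≤ 1 - (τ : ℝ)
          linarith
        · exact h2 τ hτ1 (hτ2.trans_le (min_le_left _ _)).le
    · rintro (⟨h1, h2⟩ | ⟨⟨τ, hτ⟩, h1, h2⟩)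
      · rwa [S.alpha_eq_zero_of_nm h1]
      · exact (S.alpha_le_ahat (by exact_mod_cast hτ)).trans_lt h2
  rw [e]
  refine MeasurableSet.union ?_ (MeasurableSet.iUnion fun τ => h1 τ τ.2)
  exact (hnm (measurableSet_singleton 1)).inter (MeasurableSet.const _)

theorem measurable_ab {b : Set κ} (hb : S.Ret b) (hR : S.RLQ b) {l : L} (hl : l ∈ S.LA b)
    (s : ℚ) : Measurable fun y : Ball κ => S.ab (Ball.res b y) l s := by
  refine measurable_of_Iio fun r => ?_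
  have hcl := S.countable_clop hb
  have e : (fun y : Ball κ => S.ab (Ball.res b y) l s) ⁻¹' Iio r =
      ⋃ O ∈ {O : Set L | S.Clop b O ∧ l ∈ O},
        (fun y : Ball κ => S.alpha (Ball.res b y) (O ∩ S.Fs s)) ⁻¹' Iio r := by
    ext y
    simp only [mem_preimage, mem_Iio, mem_iUnion, mem_setOf_eq, exists_prop]
    constructor
    · intro h
      obtain ⟨O, hO, hlO, hO'⟩ := S.exists_clop_of_ab_lt hb hR (res_mem_BA b y) hl h
      exact ⟨O, ⟨hO, hlO⟩, hO'⟩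
    · rintro ⟨O, ⟨hO, hlO⟩, hO'⟩
      exact (S.ab_le hO.1 hlO).trans_lt hO'
  rw [e]
  refine MeasurableSet.biUnion (hcl.mono fun O hO => hO.1) fun O hO => ?_
  exact S.measurable_alpha hb hO.1 s measurableSet_Iio

theorem measurable_ab0 {b : Set κ} (hb : S.Ret b) (hR : S.RLQ b) {l : L} (hl : l ∈ S.LA b) :
    Measurable fun y : Ball κ => S.ab0 (Ball.res b y) l := by
  have h := S.measurable_ab hb hR hl (-1)
  simpa [ab0] using h

end Sys

end Pool.Agent.ZDB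

end

section

/-!
# ZDB/UnifPurity : README 3.5
{l | ρ_A l ∉ LA b} = ρ_A⁻¹((LA b)ᶜ) = ⋃ Q_m increasing, Q_m ∈ Clop A (exists_increasing).  Q_m is disjoint from LA b (b ⊆ A: on LA b ρ_A is
the identity).  ahat x Q_m τ ≤ alpha x Q_m + [ahat x univ (2τ) − alpha x univ] = 0 + [..] (ahat_light, alpha_eq_zero_of_disjoint).
For each m take A^m with a x Q_m A' τ = ahat x Q_m τ for countable A' ⊇ A^m; A₁ := A ∪ ⋃ A^m.  For an extension (A₀,A₁',Y) over A₁ with
nm Y < nm x + τ: nu_Y(Q_m ∩ D) ≤ a x Q_m A₁ τ ≤ [..] for all m; continuity from below gives the claim (even without δ).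
-/

open Set Filter Topology MeasureTheory Pool.Agent.H53.ZD

namespace Pool.Agent.ZDB

variable {κ L : Type*} [TopologicalSpace L] [CompactSpace L] [T2Space L] [TotallyDisconnectedSpace L]
  [MeasurableSpace L] [BorelSpace L]

namespace Sys

variable (S : Sys κ L)

theorem unif_purity {b A : Set κ} (hb : S.Ret b) (hR : S.RLQ b) {x : Ball κ} (hx : x ∈ BA b)
    (hA : S.Ret A) (hbA : b ⊆ A) {τ : ℝ} (hτ : 0 < τ) (ht : 2 * τ ≤ 1 - nm x) :
    ∃ A₁ : Set κ, A₁.Countable ∧ A ⊆ A₁ ∧ ∀ A₀ A₁' Y, S.Ext x A₁ A₀ A₁' Y → nm Y < nm x + τ →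
      (S.nu Y).real ({l | S.rho A l ∉ S.LA b} ∩ S.D A₀ A₁') ≤
        S.ahat x univ (2 * τ) - S.alpha x univ := by
  obtain ⟨Q, hQm, hQc, hQu⟩ := S.exists_increasing hA (S.isClosed_LA b).isOpen_compl
  have hβ : ∀ m, S.ahat x (Q m) τ ≤ S.ahat x univ (2 * τ) - S.alpha x univ := by
    intro m
    have hdis : Disjoint (Q m) (S.LA b) := by
      rw [Set.disjoint_left]
      intro l hl hlb
      have h1 : l ∈ S.rho A ⁻¹' (S.LA b)ᶜ := by
        rw [hQu]
        exact mem_iUnion.2 ⟨m, hl⟩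
      apply h1
      have h2 : S.rho b l = l := hlb
      have h3 := S.rho_rho' hb hA hbA l
      rw [h2] at h3
      rw [h3]
      exact hlb
    have h1 := S.alpha_eq_zero_of_disjoint hb hR hx (hQc m).1 hdis
    have h2 := S.ahat_light (x := x) (hQc m).1 hτ ht
    rw [h1, zero_add] at h2
    exact h2
  have hβ0 : 0 ≤ S.ahat x univ (2 * τ) - S.alpha x univ :=
    (S.ahat_nonneg x (Q 0) τ).trans (hβ 0)
  choose B hB1 hB2 using fun m => S.exists_ahat_eq x (Q m) τ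
  have hcount : (A ∪ ⋃ m, B m).Countable := hA.1.union (countable_iUnion hB1)
  refine ⟨A ∪ ⋃ m, B m, hcount, subset_union_left, ?_⟩
  intro A₀ A₁' Y hE hY
  have hm : ∀ m, (S.nu Y).real (Q m ∩ S.D A₀ A₁') ≤
      S.ahat x univ (2 * τ) - S.alpha x univ := by
    intro m
    have h1 := S.le_a (U := Q m) hE hY
    rw [hB2 m _ ((subset_iUnion B m).trans subset_union_right) hcount] at h1
    exact h1.trans (hβ m)
  have hset : {l | S.rho A l ∉ S.LA b} ∩ S.D A₀ A₁' = ⋃ m, (Q m ∩ S.D A₀ A₁') := by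
    have h1 : {l | S.rho A l ∉ S.LA b} = ⋃ m, Q m := hQu
    rw [h1, iUnion_inter]
  rw [hset]
  have hmono : Monotone (fun m => Q m ∩ S.D A₀ A₁') := fun m n hmn =>
    inter_subset_inter_left _ (hQm hmn)
  have hle : S.nu Y (⋃ m, (Q m ∩ S.D A₀ A₁')) ≤
      ENNReal.ofReal (S.ahat x univ (2 * τ) - S.alpha x univ) := by
    refine le_of_tendsto' (tendsto_measure_iUnion_atTop hmono) (fun m => ?_)
    exact (ENNReal.le_ofReal_iff_toReal_le (measure_ne_top _ _) hβ0).2 (hm m)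
  exact ENNReal.toReal_le_of_le_ofReal hβ0 hle

end Sys

end Pool.Agent.ZDB

end

section

/-!
# ZDB/AbUpper : upper bound of ᾱ at a light point over y
y = res A y'' ∈ BA b.  Claim: for O ∈ Clop b with l ∈ O: alpha y'' O ≤ ahat y O τ.  Let τ'' = nm y + τ − nm y'' > 0 and let (A₀,A₁,Z) be an
extension of y'' over b'' with nm Z < nm y'' + τ''.  (A,b'',y'') is an extension of y over A, so (Ext.trans) (A,A₁,Z) is an extension of y over A
and nm Z < nm y + τ; nu_Z(O ∩ D A₀ A₁) ≤ nu_Z(O ∩ D A A₁) (D_mono) ≤ a y O A τ = ahat y O τ (Stab with s = −1, O ∩ Fs(−1) = O; nm y ≤ 1−τ).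
So alpha y'' O ≤ ahat y'' O τ'' ≤ a y'' O b'' τ'' ≤ ahat y O τ ≤ alpha y O + (ahat y univ (2τ) − alpha y univ) (ahat_light).
l'' ∈ O (O ∈ Clop b, Clop.mono, Clop.mem_iff: ρ_A l'' = l ∈ O), so ab0 y'' l'' ≤ alpha y'' O.  Take O with alpha y O < ab0 y l + ε
(exists_clop_of_ab_lt with s = −1).
-/

open Set Filter Topology MeasureTheory Pool.Agent.H53.ZD

namespace Pool.Agent.ZDB

variable {κ L : Type*} [TopologicalSpace L] [CompactSpace L] [T2Space L] [TotallyDisconnectedSpace L]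
  [MeasurableSpace L] [BorelSpace L]

namespace Sys

variable (S : Sys κ L)

theorem ab0_upper {b A b'' : Set κ} (hb : S.Ret b) (hR : S.RLQ b) (hA : S.Ret A)
    (hst : S.Stab b A) (hb'' : S.Ret b'') (hAb : A ⊆ b'') {l l'' : L} (hl : l ∈ S.LA b)
    (hr : S.rho A l'' = l) {y'' : Ball κ} (hy'' : y'' ∈ BA b'') (hy : Ball.res A y'' ∈ BA b)
    {τ : ℚ} (hτ : 0 < τ) (ht : 2 * (τ : ℝ) ≤ 1 - nm (Ball.res A y''))
    (hlight : nm y'' < nm (Ball.res A y'') + τ) :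
    S.ab0 y'' l'' ≤ S.ab0 (Ball.res A y'') l +
      (S.ahat (Ball.res A y'') univ (2 * (τ : ℝ)) - S.alpha (Ball.res A y'') univ) := by
  have hτ' : (0 : ℝ) < τ := by exact_mod_cast hτ
  refine le_of_forall_pos_le_add fun ε hε => ?_
  have h0 : S.ab (Ball.res A y'') l (-1) < S.ab0 (Ball.res A y'') l + ε := by
    have : S.ab0 (Ball.res A y'') l = S.ab (Ball.res A y'') l (-1) := rfl
    linarith
  obtain ⟨O, hO, hlO, hlt⟩ := S.exists_clop_of_ab_lt hb hR hy hl h0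
  rw [S.Fs_neg_one, inter_univ] at hlt
  have hl'' : l'' ∈ O := by
    have hOA : S.Clop A O := Clop.mono S hb hA hst.1 hO
    rw [← Clop.mem_iff S hOA l'', hr]
    exact hlO
  have h1 : S.ab0 y'' l'' ≤ S.alpha y'' O := S.ab0_le hO.1 hl''
  have hE : S.Ext (Ball.res A y'') A A b'' y'' := ⟨subset_rfl, hAb, hA, hb'', hy'', rfl⟩
  have h2 : S.a y'' O b'' (nm (Ball.res A y'') + τ - nm y'') ≤ S.a (Ball.res A y'') O A τ := by
    refine S.a_le_of' (S.a_nonneg _ _ _ _) fun A₀ A₁ Z hZ hnZ => ?_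
    have hE' := Ext.trans S hE hZ subset_rfl
    refine (measureReal_mono (inter_subset_inter_right _ ?_)).trans
      (S.le_a hE' (by linarith))
    exact S.D_mono hA hZ.ret₀ hZ.ret₁ hZ.ret₁ (hAb.trans hZ.sub₀) hZ.sub₁ subset_rfl
  have h3 : S.alpha y'' O ≤ S.a y'' O b'' (nm (Ball.res A y'') + τ - nm y'') :=
    (S.alpha_le_ahat (by linarith)).trans (S.ahat_le_a hb''.1)
  have h4 : S.a (Ball.res A y'') O A τ = S.ahat (Ball.res A y'') O τ := by
    have h := hst.2.2 _ hy τ hτ (by linarith) O hO (-1) A subset_rfl hst.2.1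
    have e : ((-1 : ℚ) : ℝ) = -1 := by norm_num
    rwa [e, S.Fs_neg_one, inter_univ] at h
  have h5 := S.ahat_light (x := Ball.res A y'') hO.1 hτ' ht
  linarith


end Sys

end Pool.Agent.ZDB

end

section

/-!
# ZDB/ExtBound : values of light extensions over a stabilising set
ext_le_ahat: le_a and Stab (A countable: a y (O∩Fs s) A τ = ahat y (O∩Fs s) τ).  ext_le_ahat0: s = −1, Fs (−1) = univ (Fs_neg_one; the cast of (−1 : ℚ)).
ext_fibre_le: O'_j ∈ Clop b from exists_seq at l (antitone, (⋂O'_j) ∩ LA b = {l}).  ρ_b l' ≠ l iff ρ_b l' ∉ ⋂O'_j (ρ_b l' ∈ LA b) iff l' ∉ O'_j for some j (Clop.mem_iff).  So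
(O ∩ D)∖fibre is the increasing union of the sets (O∖O'_j) ∩ D, each of nu_X-measure ≤ ahat y (O∖O'_j) τ ≤ r (ext_le_ahat0 for O∖O'_j ∈ Clop b, Clop.diff); continuity from below
(measures of an increasing union; or: for every ε …).
ext_clop_le: the Clop set O' (level A₁) contained in D: nothing but monotonicity.
-/

open Set Filter Topology MeasureTheory Pool.Agent.H53.ZD

namespace Pool.Agent.ZDB

variable {κ L : Type*} [TopologicalSpace L] [CompactSpace L] [T2Space L] [TotallyDisconnectedSpace L]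
  [MeasurableSpace L] [BorelSpace L]

namespace Sys

variable (S : Sys κ L) {b A A₀ A₁ : Set κ} {y X : Ball κ} {τ : ℚ} {O : Set L} {l : L}

theorem ext_le_ahat (hst : S.Stab b A) (hy : y ∈ BA b) (hτ : 0 < τ) (hyτ : nm y ≤ 1 - τ)
    (hO : S.Clop b O) (s : ℚ) (hE : S.Ext y A A₀ A₁ X) (hX : nm X < nm y + τ) :
    (S.nu X).real (O ∩ S.Fs s ∩ S.D A₀ A₁) ≤ S.ahat y (O ∩ S.Fs s) τ := by
  have h := hst.2.2 y hy τ hτ hyτ O hO s A subset_rfl hst.2.1
  rw [← h]
  exact S.le_a hE hX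

theorem ext_le_ahat0 (hst : S.Stab b A) (hy : y ∈ BA b) (hτ : 0 < τ) (hyτ : nm y ≤ 1 - τ)
    (hO : S.Clop b O) (hE : S.Ext y A A₀ A₁ X) (hX : nm X < nm y + τ) :
    (S.nu X).real (O ∩ S.D A₀ A₁) ≤ S.ahat y O τ := by
  have h := S.ext_le_ahat hst hy hτ hyτ hO (-1) hE hX
  have e : ((-1 : ℚ) : ℝ) = -1 := by norm_num
  rwa [e, S.Fs_neg_one, inter_univ] at h

theorem ext_fibre_le (hb : S.Ret b) (hl : l ∈ S.LA b) (hst : S.Stab b A) (hy : y ∈ BA b)
    (hτ : 0 < τ) (hyτ : nm y ≤ 1 - τ) (hO : S.Clop b O) (hE : S.Ext y A A₀ A₁ X)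
    (hX : nm X < nm y + τ) {r : ℝ}
    (hr : ∀ O', S.Clop b O' → l ∈ O' → S.ahat y (O \ O') τ ≤ r) :
    (S.nu X).real ((O ∩ S.D A₀ A₁) \ {l' | S.rho b l' = l}) ≤ r := by
  obtain ⟨O', hanti, hOc, hlO, -, hi⟩ := S.exists_seq hb hl
  have hsub : (O ∩ S.D A₀ A₁) \ {l' | S.rho b l' = l} ⊆ ⋃ j, (O \ O' j) ∩ S.D A₀ A₁ := by
    rintro l' ⟨⟨h1, h2⟩, h3⟩
    have h4 : S.rho b l' ∉ (⋂ j, O' j) := by
      intro h4
      have h5 : S.rho b l' ∈ (⋂ j, O' j) ∩ S.LA b := ⟨h4, S.rho_mem_LA hb l'⟩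
      rw [hi] at h5
      exact h3 h5
    simp only [mem_iInter, not_forall] at h4
    obtain ⟨j, hj⟩ := h4
    rw [Clop.mem_iff S (hOc j)] at hj
    exact mem_iUnion.2 ⟨j, ⟨h1, hj⟩, h2⟩
  have hmono : Monotone fun j => (O \ O' j) ∩ S.D A₀ A₁ := by
    intro i j hij
    exact inter_subset_inter_left _ (sdiff_subset_sdiff_right (hanti hij))
  have hle : ∀ j, (S.nu X).real ((O \ O' j) ∩ S.D A₀ A₁) ≤ r := fun j =>
    (S.ext_le_ahat0 hst hy hτ hyτ (Clop.diff S hO (hOc j)) hE hX).trans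
      (hr _ (hOc j) (hlO j))
  have ht : Tendsto (fun j => (S.nu X).real ((O \ O' j) ∩ S.D A₀ A₁)) atTop
      (𝓝 ((S.nu X).real (⋃ j, (O \ O' j) ∩ S.D A₀ A₁))) := by
    have h := tendsto_measure_iUnion_atTop (μ := S.nu X) hmono
    exact (ENNReal.tendsto_toReal (measure_ne_top _ _)).comp h
  exact (measureReal_mono hsub).trans (le_of_tendsto' ht hle)

end Sys

end Pool.Agent.ZDB

end

section

/-!
# ZDB/LandB : step B of the landing lemma (README 6.1), one approximation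
U = O₀ ∩ Fs s₁, W = U ∩ D A₀ A₁'.  nm Y < nm x + τ ≤ 1.  res A Y = x (Ext.res_of_subset; A ⊆ A₁, x ∈ BA A).
alpha Y U ≥ alpha x U ≥ a (GMono at A: O₀ ∈ Clop A).  Choose τ' > 0 with 2τ' ≤ 1 − nm Y, nm Y + τ' ≤ nm x + 2τ,
ahat Y univ (2τ') − alpha Y univ ≤ δ (exists_tau), τ' ≤ 1 − nm Y, τ' ≤ δ η (1−nm Y)/(2C²).
A₂ := the countable set of unif_purity (b := b', x := Y, A := A'', τ := τ').  exists_ext_of_lt_alpha (Y, U, over A₂ ⊇ A'', τ'): an extension
(B₀,B₁,Z) of Y over A₂, nm Z < nm Y + τ', nu_Z(U ∩ D B₀ B₁) > a − δ.  Ext.trans (A₁' ⊆ b' ⊆ A'' ⊆ A₂): (A₀,B₁,Z) is an extension of x over A₁,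
nm Z < nm x + 2τ.  So with V := U ∩ D A₀ B₁:  nu_Z(V) ≤ a x U A₁ (2τ) ≤ a + 3δ; U ∩ D B₀ B₁ ⊆ V (D_mono), so
(1) nu_Z(V ∖ D B₀ B₁) ≤ 4δ;  (2) nu_Z(O₀ ∩ Fs s₂ ∩ D A₀ B₁) ≤ 3δ;  (3) nu_Z({ρ_{A''}l ∉ LA b'} ∩ D B₀ B₁) ≤ δ;
(4) nu_Z{η < cost b' l} ≤ δ (cost_light at b', Y ∈ BA b');  (5) nu_Z((LA B₁)ᶜ) = 0.
W ⊆ V (D A₀ A₁' ⊆ D A₀ B₁).  Gd := {l ∈ W ∩ LA B₁ ∩ D B₀ B₁ | ρ_{A''}l ∈ LA b', Fv l ≤ s₂, cost b' l ≤ η}; W∖Gd is contained in the union of the
five sets: outer measure ≤ 9δ.  M := toMeasurable (nu Z) (W∖Gd); W∖M is Borel, contained in Gd; inner regularity: compact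
K ⊆ W∖M with nu_Z((W∖M)∖K) < δ; nu_Z(W∖K) ≤ 10δ.
Points l'' of K: l'' ∉ LA b' (LA b' ⊆ LA B₀ is disjoint from D B₀ B₁).
nu_Y(W∖ρ_{b'}(K)) ≤ nu_Z(ρ_{b'}⁻¹(W∖ρ_{b'}(K))) ≤ nu_Z(W∖K) (res b' Z = Y; W is b'-upper: Clop.upper, upper_Fs, D_upper; ρ_{b'}''K compact).
-/

open Set Filter Topology MeasureTheory Pool.Agent.H53.ZD

namespace Pool.Agent.ZDB

variable {κ L : Type*} [TopologicalSpace L] [CompactSpace L] [T2Space L] [TotallyDisconnectedSpace L]
  [MeasurableSpace L] [BorelSpace L]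

namespace Sys

variable {S : Sys κ L}

theorem land_B (𝒢 : GoodFam S) {A A₁ A₀ A₁' b' A'' : Set κ} (hA : 𝒢.G A) {x Y : Ball κ}
    (hx : x ∈ BA A) {O₀ : Set L} (hO : S.Clop A O₀) {s₁ s₂ : ℚ} {a δ τ : ℝ} (hδ : 0 < δ)
    (hτ : 0 < τ) (hτx : 2 * τ ≤ 1 - nm x) (hAA : A ⊆ A₁) (hE : S.Ext x A₁ A₀ A₁' Y)
    (hY : nm Y < nm x + τ) (h1 : S.a x (O₀ ∩ S.Fs s₁) A₁ (2 * τ) ≤ a + 3 * δ)
    (h2 : S.a x (O₀ ∩ S.Fs s₂) A₁ (2 * τ) ≤ 3 * δ) (h3 : a ≤ S.alpha x (O₀ ∩ S.Fs s₁))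
    (hb' : 𝒢.G b') (hAb' : A₁' ⊆ b') (hA'' : 𝒢.G A'') (hst : S.Stab b' A'') {η : ℝ}
    (hη : 0 < η) :
    ∃ (B₁ : Set κ) (K : Set L), S.Ret B₁ ∧ A'' ⊆ B₁ ∧ IsCompact K ∧
      (∀ l'' ∈ K, l'' ∈ S.LA B₁ ∧ l'' ∉ S.LA b' ∧ S.rho A'' l'' ∈ S.LA b' ∧ S.Fv l'' ≤ s₂ ∧
        S.cost b' l'' ≤ η) ∧
      (S.nu Y).real ((O₀ ∩ S.Fs s₁ ∩ S.D A₀ A₁') \ (S.rho b' '' K)) ≤ 10 * δ := by
  have hYx : nm x ≤ nm Y := Ext.nm_le S hE
  have hY1 : nm Y < 1 := by linarith
  have hRA : S.Ret A := 𝒢.ret A hA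
  have hRb : S.Ret b' := 𝒢.ret b' hb'
  have hQb : S.RLQ b' := 𝒢.rlq b' hb'
  have hRA'' : S.Ret A'' := 𝒢.ret A'' hA''
  have hbA'' : b' ⊆ A'' := hst.1
  have hYb : Y ∈ BA b' := BA_mono hAb' hE.memY
  have hresY : Ball.res A Y = x := Ext.res_of_subset S hE hAA hx
  have hCpos : 0 < S.C := S.C_pos
  have hgm : S.alpha x (O₀ ∩ S.Fs s₁) ≤ S.alpha Y (O₀ ∩ S.Fs s₁) :=
    𝒢.gmono A hA O₀ hO s₁ x hx Y hresY hY1
  obtain ⟨τ₀, hτ₀, hτ₀'⟩ := S.exists_tau (x := Y) (U := univ) (r := S.alpha Y univ + δ)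
    (by linarith)
  -- the choice of τ'
  obtain ⟨τ', hτ'pos, ht1, ht2, ht3, ht4⟩ : ∃ τ' : ℝ, 0 < τ' ∧ 2 * τ' ≤ 1 - nm Y ∧ τ' ≤ τ ∧
      2 * τ' ≤ τ₀ ∧ τ' ≤ δ * η * (1 - nm Y) / (2 * S.C ^ 2) := by
    have hpos : 0 < δ * η * (1 - nm Y) / (2 * S.C ^ 2) := by
      have : 0 < 1 - nm Y := by linarith
      positivity
    refine ⟨min (min ((1 - nm Y) / 2) τ) (min (τ₀ / 2) (δ * η * (1 - nm Y) / (2 * S.C ^ 2))),
      lt_min (lt_min (by linarith) hτ) (lt_min (by linarith) hpos), ?_, ?_, ?_, ?_⟩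
    · have := (min_le_left (min ((1 - nm Y) / 2) τ)
        (min (τ₀ / 2) (δ * η * (1 - nm Y) / (2 * S.C ^ 2)))).trans (min_le_left _ _)
      linarith
    · exact (min_le_left _ _).trans (min_le_right _ _)
    · have := (min_le_right (min ((1 - nm Y) / 2) τ)
        (min (τ₀ / 2) (δ * η * (1 - nm Y) / (2 * S.C ^ 2)))).trans (min_le_left _ _)
      linarith
    · exact (min_le_right _ _).trans (min_le_right _ _)
  have hah : S.ahat Y univ (2 * τ') - S.alpha Y univ ≤ δ := by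
    have := hτ₀' (2 * τ') (by linarith) ht3
    linarith
  obtain ⟨A₂, hA₂c, hA₂, hpur⟩ := S.unif_purity hRb hQb hYb hRA'' hbA'' hτ'pos ht1
  obtain ⟨B₀, B₁, Z, hZE, hZn, hZr⟩ := S.exists_ext_of_lt_alpha (x := Y) (U := O₀ ∩ S.Fs s₁)
    (r := a - δ) (by linarith) hA₂c hτ'pos
  have hbA₂ : b' ⊆ A₂ := hbA''.trans hA₂
  have hbB₀ : b' ⊆ B₀ := hbA₂.trans hZE.sub₀
  have hbB₁ : b' ⊆ B₁ := hbB₀.trans hZE.sub₁
  have hExt : S.Ext x A₁ A₀ B₁ Z := Ext.trans S hE hZE (hAb'.trans hbA₂)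
  have hZn' : nm Z < nm x + 2 * τ := by linarith
  have e1 : (S.nu Z).real (O₀ ∩ S.Fs s₁ ∩ S.D A₀ B₁) ≤ a + 3 * δ :=
    (S.le_a hExt hZn').trans h1
  have e2 : (S.nu Z).real (O₀ ∩ S.Fs s₂ ∩ S.D A₀ B₁) ≤ 3 * δ :=
    (S.le_a hExt hZn').trans h2
  have e3 : (S.nu Z).real ({l | S.rho A'' l ∉ S.LA b'} ∩ S.D B₀ B₁) ≤ δ :=
    (hpur B₀ B₁ Z hZE hZn).trans hah
  have hresZ : Ball.res b' Z = Y := Ext.res_of_subset S hZE hbA₂ hYb
  have e4 : (S.nu Z).real {l | η < S.cost b' l} ≤ δ :=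
    S.cost_light hQb hYb hY1 hresZ hη hδ hτ'pos (by linarith) ht4 hZn
  have e5 : (S.nu Z).real (S.LA B₁)ᶜ = 0 := by
    rw [measureReal_def, S.nu_compl_LA hZE.ret₁ hZE.memY]
    simp
  have hDD : S.D B₀ B₁ ⊆ S.D A₀ B₁ :=
    S.D_mono hE.ret₀ hZE.ret₀ hZE.ret₁ hZE.ret₁ (hE.sub₁.trans (hAb'.trans hbB₀)) hZE.sub₁
      Subset.rfl
  have hDD' : S.D A₀ A₁' ⊆ S.D A₀ B₁ :=
    S.D_mono hE.ret₀ hE.ret₀ hE.ret₁ hZE.ret₁ Subset.rfl hE.sub₁ (hAb'.trans hbB₁)
  have hOo : IsOpen O₀ := hO.1.isOpen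
  have hWo : IsOpen (O₀ ∩ S.Fs s₁ ∩ S.D A₀ A₁') := (hOo.inter (S.isOpen_Fs _)).inter (S.isOpen_D _ _)
  have hDm : MeasurableSet (S.D B₀ B₁) := (S.isOpen_D _ _).measurableSet
  -- the first piece
  have e6 : (S.nu Z).real ((O₀ ∩ S.Fs s₁ ∩ S.D A₀ B₁) \ S.D B₀ B₁) ≤ 4 * δ := by
    have h := measureReal_sdiff_add_inter (μ := S.nu Z) (s := O₀ ∩ S.Fs s₁ ∩ S.D A₀ B₁) hDm
    have h' : O₀ ∩ S.Fs s₁ ∩ S.D A₀ B₁ ∩ S.D B₀ B₁ = O₀ ∩ S.Fs s₁ ∩ S.D B₀ B₁ := by
      rw [inter_assoc, inter_eq_right.2 hDD]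
    rw [h'] at h
    linarith
  set W : Set L := O₀ ∩ S.Fs s₁ ∩ S.D A₀ A₁' with hW
  set Gd : Set L := {l | l ∈ S.LA B₁ ∧ l ∈ S.D B₀ B₁ ∧ S.rho A'' l ∈ S.LA b' ∧ S.Fv l ≤ s₂ ∧
    S.cost b' l ≤ η} with hGd
  have hsub : W \ Gd ⊆ ((S.LA B₁)ᶜ ∪ ((O₀ ∩ S.Fs s₁ ∩ S.D A₀ B₁) \ S.D B₀ B₁)) ∪
      (({l | S.rho A'' l ∉ S.LA b'} ∩ S.D B₀ B₁) ∪
        ((O₀ ∩ S.Fs s₂ ∩ S.D A₀ B₁) ∪ {l | η < S.cost b' l})) := by
    rintro l ⟨hlW, hlG⟩
    by_cases c1 : l ∈ S.LA B₁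
    swap
    · exact Or.inl (Or.inl c1)
    by_cases c2 : l ∈ S.D B₀ B₁
    swap
    · exact Or.inl (Or.inr ⟨⟨hlW.1, hDD' hlW.2⟩, c2⟩)
    by_cases c3 : S.rho A'' l ∈ S.LA b'
    swap
    · exact Or.inr (Or.inl ⟨c3, c2⟩)
    by_cases c4 : S.Fv l ≤ s₂
    swap
    · exact Or.inr (Or.inr (Or.inl ⟨⟨hlW.1.1, lt_of_not_ge c4⟩, hDD' hlW.2⟩))
    by_cases c5 : S.cost b' l ≤ η
    swap
    · exact Or.inr (Or.inr (Or.inr (lt_of_not_ge c5)))
    exact (hlG ⟨c1, c2, c3, c4, c5⟩).elim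
  have e7 : (S.nu Z).real (W \ Gd) ≤ 9 * δ := by
    refine (measureReal_mono hsub).trans ?_
    have u1 := measureReal_union_le (μ := S.nu Z)
      ((S.LA B₁)ᶜ ∪ ((O₀ ∩ S.Fs s₁ ∩ S.D A₀ B₁) \ S.D B₀ B₁))
      (({l | S.rho A'' l ∉ S.LA b'} ∩ S.D B₀ B₁) ∪
        ((O₀ ∩ S.Fs s₂ ∩ S.D A₀ B₁) ∪ {l | η < S.cost b' l}))
    have u2 := measureReal_union_le (μ := S.nu Z) (S.LA B₁)ᶜ
      ((O₀ ∩ S.Fs s₁ ∩ S.D A₀ B₁) \ S.D B₀ B₁)
    have u3 := measureReal_union_le (μ := S.nu Z) ({l | S.rho A'' l ∉ S.LA b'} ∩ S.D B₀ B₁)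
      ((O₀ ∩ S.Fs s₂ ∩ S.D A₀ B₁) ∪ {l | η < S.cost b' l})
    have u4 := measureReal_union_le (μ := S.nu Z) (O₀ ∩ S.Fs s₂ ∩ S.D A₀ B₁)
      {l | η < S.cost b' l}
    linarith
  -- a measurable hull of the bad set and a compact set
  set M : Set L := toMeasurable (S.nu Z) (W \ Gd) with hM
  have hMm : MeasurableSet M := measurableSet_toMeasurable _ _
  have hMsub : W \ Gd ⊆ M := subset_toMeasurable _ _
  have hMr : (S.nu Z).real M ≤ 9 * δ := by
    rw [measureReal_def, hM, measure_toMeasurable, ← measureReal_def]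
    exact e7
  have hWM : MeasurableSet (W \ M) := hWo.measurableSet.diff hMm
  obtain ⟨K, hKsub, hKc, hKlt⟩ := hWM.exists_isCompact_sdiff_lt (μ := S.nu Z)
    (measure_ne_top _ _) (ε := ENNReal.ofReal δ) (by simpa using hδ)
  have hKr : (S.nu Z).real ((W \ M) \ K) ≤ δ := by
    rw [measureReal_def]
    exact ENNReal.toReal_le_of_le_ofReal hδ.le hKlt.le
  have e8 : (S.nu Z).real (W \ K) ≤ 10 * δ := by
    have hs : W \ K ⊆ M ∪ ((W \ M) \ K) := by
      rintro l ⟨h1, h2⟩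
      by_cases hl : l ∈ M
      · exact Or.inl hl
      · exact Or.inr ⟨⟨h1, hl⟩, h2⟩
    have u1 := measureReal_mono (μ := S.nu Z) hs
    have u2 := measureReal_union_le (μ := S.nu Z) M ((W \ M) \ K)
    linarith
  have hKG : K ⊆ Gd := by
    intro l hl
    by_contra hlG
    exact (hKsub hl).2 (hMsub ⟨(hKsub hl).1, hlG⟩)
  refine ⟨B₁, K, hZE.ret₁, hA₂.trans (hZE.sub₀.trans hZE.sub₁), hKc, ?_, ?_⟩
  · intro l hl
    obtain ⟨c1, c2, c3, c4, c5⟩ := hKG hl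
    refine ⟨c1, fun hlb => ?_, c3, c4, c5⟩
    exact S.notMem_D hZE.ret₀ hZE.ret₁ hZE.sub₁ (S.LA_mono hRb hZE.ret₀ hbB₀ hlb) c2
  · have hcomp : IsCompact (S.rho b' '' K) := hKc.image (S.rho b').continuous
    have hmeas : MeasurableSet (W \ (S.rho b' '' K)) :=
      hWo.measurableSet.diff hcomp.isClosed.measurableSet
    have h := S.nu_res_real hRb Z hmeas
    rw [hresZ] at h
    refine h.trans ((measureReal_mono ?_).trans e8)
    rintro l ⟨hl1, hl2⟩
    refine ⟨⟨⟨?_, ?_⟩, ?_⟩, fun hlK => hl2 ⟨l, hlK, rfl⟩⟩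
    · exact (Clop.upper S hRA hO) b' (hAA.trans (hE.sub₀.trans (hE.sub₁.trans hAb'))) hRb l hl1.1.1
    · exact (S.upper_Fs b' s₁) b' Subset.rfl hRb l hl1.1.2
    · exact (S.D_upper hE.ret₀ hE.ret₁ hE.sub₁) b' hAb' hRb l hl1.2

end Sys

end Pool.Agent.ZDB

end

section

/-!
# ZDB/TTDef : the integrals 𝔱 and the modulus
err b τ y = ahat y₀ univ (2τ) − alpha y₀ univ if y₀ = res b y has nm y₀ ≤ 1 − 2τ, and 0 otherwise.  Measurable: measurable_ahat
(O = univ, s = −1, Fs(−1) = univ, rational 2τ; all the sets {nm y₀ ≤ 1−2τ ∧ r < ahat ..} are measurable) and measurable_alpha.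
exists_modulus: τ_k = 2^{-k}: err b τ_k y → 0 for every y: if nm y₀ = 1 the indicator is 0; if nm y₀ < 1: exists_tau.  Dominated convergence
(0 ≤ err ≤ C); the sets {1−2τ_k < nm y₀ < 1} decrease to ∅.
tt_nonneg, tt_le: 0 ≤ ab0 ≤ C.
-/

open Set Filter Topology MeasureTheory Pool.Agent.H53.ZD

namespace Pool.Agent.ZDB

variable {κ L : Type*} [TopologicalSpace L] [CompactSpace L] [T2Space L] [TotallyDisconnectedSpace L]
  [MeasurableSpace L] [BorelSpace L]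

namespace Sys

variable (S : Sys κ L)

/-- `𝔱(l,b)` -/
noncomputable def tt (b : Set κ) (l : L) : ℝ := ∫ y, S.ab0 (Ball.res b y) l ∂(S.lam l)

/-- the modulus function -/
noncomputable def err (b : Set κ) (τ : ℚ) (y : Ball κ) : ℝ :=
  {y : Ball κ | nm (Ball.res b y) ≤ 1 - 2 * (τ : ℝ)}.indicator
    (fun y => S.ahat (Ball.res b y) univ (2 * (τ : ℝ)) - S.alpha (Ball.res b y) univ) y

/-- the integral of the modulus function -/
noncomputable def errI (b : Set κ) (l : L) (τ : ℚ) : ℝ := ∫ y, S.err b τ y ∂(S.lam l)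

theorem err_nonneg (b : Set κ) {τ : ℚ} (hτ : 0 < τ) (y : Ball κ) : 0 ≤ S.err b τ y := by
  have h2 : (0 : ℝ) < 2 * (τ : ℝ) := by
    have : (0 : ℝ) < τ := by exact_mod_cast hτ
    linarith
  unfold err
  refine indicator_nonneg (fun y _ => ?_) y
  exact sub_nonneg.2 (S.alpha_le_ahat h2)

theorem err_le_C (b : Set κ) {τ : ℚ} (hτ : 0 < τ) (y : Ball κ) : S.err b τ y ≤ S.C := by
  unfold err
  refine indicator_le' (fun y _ => ?_) (fun y _ => S.C_pos.le) y
  have h1 := S.ahat_le_C (Ball.res b y) univ (2 * (τ : ℝ))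
  have h2 := S.alpha_nonneg (Ball.res b y) univ
  linarith

theorem measurable_err {b : Set κ} (hb : S.Ret b) {τ : ℚ} (hτ : 0 < τ) :
    Measurable (S.err b τ) := by
  have hnm : Measurable fun y : Ball κ => nm (Ball.res b y) :=
    (Ball.measurable_mass univ).comp (Ball.measurable_res b)
  have hA : MeasurableSet {y : Ball κ | nm (Ball.res b y) ≤ 1 - 2 * (τ : ℝ)} :=
    measurableSet_le hnm measurable_const
  have hu : (univ : Set L) ∩ S.Fs (((-1 : ℚ) : ℚ) : ℝ) = univ := by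
    have h1 : (((-1 : ℚ) : ℚ) : ℝ) = -1 := by norm_num
    rw [h1, S.Fs_neg_one, univ_inter]
  have hal : Measurable fun y : Ball κ => S.alpha (Ball.res b y) univ := by
    have h1 := S.measurable_alpha hb (S.clop_univ b) (-1)
    rwa [hu] at h1
  have hah : Measurable ({y : Ball κ | nm (Ball.res b y) ≤ 1 - 2 * (τ : ℝ)}.indicator
      (fun y => S.ahat (Ball.res b y) univ (2 * (τ : ℝ)))) := by
    refine measurable_of_Ioi fun r => ?_
    have h1 := S.measurable_ahat hb (S.clop_univ b) (-1) (2 * τ) (by positivity) r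
    rw [hu] at h1
    push_cast at h1
    have h2 : ({y : Ball κ | nm (Ball.res b y) ≤ 1 - 2 * (τ : ℝ)}.indicator
        (fun y => S.ahat (Ball.res b y) univ (2 * (τ : ℝ)))) ⁻¹' Ioi r =
        {y : Ball κ | nm (Ball.res b y) ≤ 1 - 2 * (τ : ℝ) ∧
          r < S.ahat (Ball.res b y) univ (2 * (τ : ℝ))} ∪
        ({y : Ball κ | nm (Ball.res b y) ≤ 1 - 2 * (τ : ℝ)}ᶜ ∩ {_y | r < 0}) := by
      ext y
      by_cases hy : nm (Ball.res b y) ≤ 1 - 2 * (τ : ℝ)
      · have : y ∈ {y : Ball κ | nm (Ball.res b y) ≤ 1 - 2 * (τ : ℝ)} := hy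
        simp only [mem_preimage, indicator_of_mem this, mem_Ioi, mem_union, mem_setOf_eq,
          mem_inter_iff, mem_compl_iff, hy, true_and, not_true_eq_false, false_and, or_false]
      · have : y ∉ {y : Ball κ | nm (Ball.res b y) ≤ 1 - 2 * (τ : ℝ)} := hy
        simp only [mem_preimage, indicator_of_notMem this, mem_Ioi, mem_union, mem_setOf_eq,
          mem_inter_iff, mem_compl_iff, hy, false_and, not_false_eq_true, true_and, false_or]
    rw [h2]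
    exact h1.union (hA.compl.inter (MeasurableSet.const _))
  have h3 : S.err b τ = ({y : Ball κ | nm (Ball.res b y) ≤ 1 - 2 * (τ : ℝ)}.indicator
      (fun y => S.ahat (Ball.res b y) univ (2 * (τ : ℝ)))) -
      ({y : Ball κ | nm (Ball.res b y) ≤ 1 - 2 * (τ : ℝ)}.indicator
      (fun y => S.alpha (Ball.res b y) univ)) := by
    rw [← indicator_sub']
    rfl
  rw [h3]
  exact hah.sub (hal.indicator hA)

theorem exists_modulus {b : Set κ} (hb : S.Ret b) (l : L) {ε : ℝ} (hε : 0 < ε) :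
    ∃ τ : ℚ, 0 < τ ∧ S.errI b l τ ≤ ε ∧
      (S.lam l).real {y : Ball κ | 1 - 2 * (τ : ℝ) < nm (Ball.res b y) ∧
        nm (Ball.res b y) < 1} ≤ ε := by
  have hnm : Measurable fun y : Ball κ => nm (Ball.res b y) :=
    (Ball.measurable_mass univ).comp (Ball.measurable_res b)
  let t : ℕ → ℚ := fun k => (1 / 2) ^ k
  have ht0 : ∀ k, 0 < t k := fun k => by positivity
  have ht : Tendsto (fun k => 2 * ((t k : ℚ) : ℝ)) atTop (𝓝 0) := by
    have h1 : Tendsto (fun k : ℕ => ((1 / 2 : ℝ)) ^ k) atTop (𝓝 0) :=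
      tendsto_pow_atTop_nhds_zero_of_lt_one (by norm_num) (by norm_num)
    have h2 := h1.const_mul 2
    rw [mul_zero] at h2
    refine h2.congr fun k => ?_
    simp only [t]
    push_cast
    ring
  have ht1 : ∀ k, 0 < 2 * ((t k : ℚ) : ℝ) := fun k => by
    have : (0 : ℝ) < ((t k : ℚ) : ℝ) := by exact_mod_cast ht0 k
    linarith
  -- the modulus function tends to zero
  have h1 : ∀ y : Ball κ, Tendsto (fun k => S.err b (t k) y) atTop (𝓝 0) := by
    intro y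
    rw [Metric.tendsto_atTop]
    intro δ hδ
    rcases eq_or_lt_of_le (nm_le_one (Ball.res b y)) with hy | hy
    · refine ⟨0, fun k _ => ?_⟩
      have h2 : S.err b (t k) y = 0 := by
        unfold err
        refine indicator_of_notMem ?_ _
        intro hk
        have h3 : nm (Ball.res b y) ≤ 1 - 2 * ((t k : ℚ) : ℝ) := hk
        linarith [ht1 k]
      rw [h2, dist_self]
      exact hδ
    · obtain ⟨τ₀, hτ₀, h2⟩ := S.exists_tau (x := Ball.res b y) (U := univ)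
        (r := S.alpha (Ball.res b y) univ + δ) (by linarith)
      obtain ⟨N, hN⟩ := (Metric.tendsto_atTop.1 ht) τ₀ hτ₀
      refine ⟨N, fun k hk => ?_⟩
      have h3 := hN k hk
      rw [Real.dist_eq, sub_zero, abs_of_pos (ht1 k)] at h3
      have h4 := h2 _ (ht1 k) h3.le
      have h5 := S.err_nonneg b (ht0 k) y
      rw [Real.dist_eq, sub_zero, abs_of_nonneg h5]
      unfold err
      by_cases hy' : y ∈ {y : Ball κ | nm (Ball.res b y) ≤ 1 - 2 * ((t k : ℚ) : ℝ)}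
      · rw [indicator_of_mem hy']
        linarith
      · rw [indicator_of_notMem hy']
        exact hδ
  have h2 : Tendsto (fun k => S.errI b l (t k)) atTop (𝓝 0) := by
    have h3 := tendsto_integral_of_dominated_convergence (μ := S.lam l)
      (F := fun k y => S.err b (t k) y) (f := fun _ => (0 : ℝ)) (fun _ => S.C)
      (fun k => (S.measurable_err hb (ht0 k)).aestronglyMeasurable) (integrable_const _)
      (fun k => Eventually.of_forall fun y => by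
        rw [Real.norm_eq_abs, abs_of_nonneg (S.err_nonneg b (ht0 k) y)]
        exact S.err_le_C b (ht0 k) y)
      (Eventually.of_forall fun y => h1 y)
    rw [integral_zero] at h3
    exact h3
  have h4 : ∀ k, MeasurableSet {y : Ball κ | 1 - 2 * ((t k : ℚ) : ℝ) < nm (Ball.res b y) ∧
        nm (Ball.res b y) < 1} := fun k =>
    (measurableSet_lt measurable_const hnm).inter (measurableSet_lt hnm measurable_const)
  have h5 : Tendsto (fun k => (S.lam l).real {y : Ball κ |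
      1 - 2 * ((t k : ℚ) : ℝ) < nm (Ball.res b y) ∧ nm (Ball.res b y) < 1}) atTop (𝓝 0) := by
    have h3 := tendsto_integral_of_dominated_convergence (μ := S.lam l)
      (F := fun k => {y : Ball κ | 1 - 2 * ((t k : ℚ) : ℝ) < nm (Ball.res b y) ∧
        nm (Ball.res b y) < 1}.indicator (fun _ => (1 : ℝ))) (f := fun _ => (0 : ℝ)) (fun _ => 1)
      (fun k => (measurable_const.indicator (h4 k)).aestronglyMeasurable) (integrable_const _)
      (fun k => Eventually.of_forall fun y => by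
        refine (norm_indicator_le_norm_self _ _).trans ?_
        simp)
      (Eventually.of_forall fun y => by
        refine tendsto_const_nhds.congr' ?_
        rcases eq_or_lt_of_le (nm_le_one (Ball.res b y)) with hy | hy
        · refine Eventually.of_forall fun k => ?_
          refine (indicator_of_notMem ?_ _).symm
          rintro ⟨-, h⟩
          exact absurd h (by rw [hy]; exact lt_irrefl _)
        · obtain ⟨N, hN⟩ := (Metric.tendsto_atTop.1 ht) (1 - nm (Ball.res b y)) (by linarith)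
          filter_upwards [eventually_ge_atTop N] with k hk
          refine (indicator_of_notMem ?_ _).symm
          rintro ⟨h, -⟩
          have h6 := hN k hk
          rw [Real.dist_eq, sub_zero, abs_of_pos (ht1 k)] at h6
          linarith)
    rw [integral_zero] at h3
    refine h3.congr fun k => ?_
    rw [integral_indicator_const _ (h4 k)]
    simp
  have h6 := (h2.eventually (gt_mem_nhds hε)).and (h5.eventually (gt_mem_nhds hε))
  obtain ⟨k, hk1, hk2⟩ := h6.exists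
  exact ⟨t k, ht0 k, hk1.le, hk2.le⟩

theorem tt_nonneg (b : Set κ) (l : L) : 0 ≤ S.tt b l :=
  integral_nonneg fun _ => S.ab0_nonneg _ _

theorem tt_le (b : Set κ) (l : L) : S.tt b l ≤ S.C ^ 2 := by
  unfold tt
  have h1 : ∫ y, S.ab0 (Ball.res b y) l ∂(S.lam l) ≤ ∫ _y, S.C ∂(S.lam l) :=
    integral_mono_of_nonneg (Eventually.of_forall fun _ => S.ab0_nonneg _ _)
      (integrable_const _) (Eventually.of_forall fun _ => S.ab0_le_C _ _)
  rw [integral_const, smul_eq_mul] at h1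
  have h2 := mul_le_mul_of_nonneg_right (S.lam_univ_le l) S.C_pos.le
  rw [sq]
  exact h1.trans h2

end Sys

end Pool.Agent.ZDB

end

section

/-!
# ZDB/Transfer : README 5.1
Bad := {y ∈ BA b | (nm y ≤ 1−τ ∨ nm y = 1) ∧ ∃ O, Clop b O ∧ l ∈ O ∧ ahat y (O∩Fs s) τ < nu_y{l} − t} is measurable: BA b closed, the countably many
O ∈ Clop b with l ∈ O; on BA b, y = res b y and `measurable_ahat`, `measurable_atom` (for nm y = 1 ahat = 0).
Because res A y ∈ Bad is meaningful: (lam l).real Bad ≤ (lam l'').real (res A ⁻¹' Bad) (lam_rho_real, l = ρ_A l'').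
Let y'' ∈ BA b'' (lam_{l''}-a.e.), y := res A y'' ∈ Bad, mass bᶜ y'' < τ.  Note nm y'' = nm y + mass Aᶜ y'' and mass Aᶜ ≤ mass bᶜ.
(A, b'', y'') is an extension of y over A (res A y'' = y), nm y'' < nm y + τ.  l'' ∈ D A b'' (ρ_A l'' = l ≠ l'' = ρ_{b''} l''), l'' ∈ O
(O ∈ Clop b, so Clop A; ρ_A l'' = l ∈ O), l'' ∈ Fs s.  If nm y ≤ 1−τ: ahat y (O∩Fs s) τ = a y (O∩Fs s) A τ (Stab, A countable)
≥ nu_{y''}(O∩Fs s∩D A b'') ≥ nu_{y''}{l''} ≥ nu_y{l} − nu_{y''}(ρ_A⁻¹{l}∖{l''}) (atom_res_le), hence nu_{y''}(ρ_A⁻¹{l}∖{l''}) > t.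
If nm y = 1: y'' = y ∈ BA b, nu_y{l''} = 0 because nu_y is carried by LA b and l'' ∉ LA b (else ρ_A l'' = l'' = l), so
nu_y{l} ≤ nu_{y''}(ρ_A⁻¹{l}∖{l''}), and nu_y{l} − t > ahat ≥ 0: again > t.
So res A⁻¹Bad ⊆ (BA b'')ᶜ ∪ {τ ≤ mass bᶜ y''} ∪ {t < nu_{y''}(ρ_A⁻¹{l}∖{l''})}, and the last set has measure ≤ (Fv l''−Fv l)/t (Markov,
rigid_fibre).
-/

open Set Filter Topology MeasureTheory Pool.Agent.H53.ZD

namespace Pool.Agent.ZDB

variable {κ L : Type*} [TopologicalSpace L] [CompactSpace L] [T2Space L] [TotallyDisconnectedSpace L]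
  [MeasurableSpace L] [BorelSpace L]

namespace Sys

variable (S : Sys κ L)

theorem measurableSet_bad {b : Set κ} (hb : S.Ret b) {l : L} (hl : l ∈ S.LA b) (s τ : ℚ)
    (hτ : 0 < τ) (t : ℝ) : MeasurableSet {y : Ball κ | y ∈ BA b ∧ (nm y ≤ 1 - τ ∨ nm y = 1) ∧
      ∃ O, S.Clop b O ∧ l ∈ O ∧ S.ahat y (O ∩ S.Fs s) τ < (S.nu y).real {l} - t} := by
  classical
  have hτ' : (0 : ℝ) < τ := by exact_mod_cast hτ
  -- the truncated function
  let g : Set L → Ball κ → ℝ := fun O y =>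
    if nm (Ball.res b y) ≤ 1 - τ then S.ahat (Ball.res b y) (O ∩ S.Fs s) τ else 0
  have hnm : Measurable fun y : Ball κ => nm y := Ball.measurable_mass univ
  have hnmr : Measurable fun y : Ball κ => nm (Ball.res b y) := hnm.comp (Ball.measurable_res b)
  have hg : ∀ O, S.Clop b O → Measurable (g O) := by
    intro O hO
    refine measurable_of_Ioi fun r => ?_
    have e : g O ⁻¹' Ioi r = {y : Ball κ | nm (Ball.res b y) ≤ 1 - τ ∧
        r < S.ahat (Ball.res b y) (O ∩ S.Fs s) τ} ∪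
        ({y | ¬ nm (Ball.res b y) ≤ 1 - τ} ∩ {_y | r < 0}) := by
      ext y
      by_cases h : nm (Ball.res b y) ≤ 1 - τ
      · simp [g, h]
      · have h' : (1 : ℝ) - τ < nm (Ball.res b y) := not_le.1 h
        simp [g, h, h']
    rw [e]
    refine (S.measurable_ahat hb hO s τ hτ r).union (MeasurableSet.inter ?_ ?_)
    · exact (measurableSet_le hnmr measurable_const).compl
    · exact MeasurableSet.const _
  have hc := S.countable_clop hb
  have e : {y : Ball κ | y ∈ BA b ∧ (nm y ≤ 1 - τ ∨ nm y = 1) ∧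
      ∃ O, S.Clop b O ∧ l ∈ O ∧ S.ahat y (O ∩ S.Fs s) τ < (S.nu y).real {l} - t} =
      (BA b ∩ ({y | nm y ≤ 1 - τ} ∪ {y | nm y = 1})) ∩
        ⋃ O ∈ {O : Set L | S.Clop b O}, {y | l ∈ O ∧ g O y < (S.nu y).real {l} - t} := by
    ext y
    simp only [mem_ofPred_eq, mem_inter_iff, mem_union, mem_iUnion, exists_prop]
    constructor
    · rintro ⟨h1, h2, O, hO, hlO, h3⟩
      refine ⟨⟨h1, h2⟩, O, hO, hlO, ?_⟩
      have h1' : Ball.res b y = y := h1
      rcases h2 with h2 | h2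
      · simp only [g, h1', if_pos h2]
        exact h3
      · rw [S.ahat_eq_zero_of_nm h2] at h3
        have h4 : ¬ nm y ≤ 1 - τ := by rw [h2]; linarith
        simp only [g, h1', if_neg h4]
        exact h3
    · rintro ⟨⟨h1, h2⟩, O, hO, hlO, h3⟩
      refine ⟨h1, h2, O, hO, hlO, ?_⟩
      have h1' : Ball.res b y = y := h1
      rcases h2 with h2 | h2
      · simp only [g, h1', if_pos h2] at h3
        exact h3
      · rw [S.ahat_eq_zero_of_nm h2]
        have h4 : ¬ nm y ≤ 1 - τ := by rw [h2]; linarith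
        simp only [g, h1', if_neg h4] at h3
        exact h3
  rw [e]
  refine MeasurableSet.inter (MeasurableSet.inter (isClosed_BA b).measurableSet
    (MeasurableSet.union (measurableSet_le hnm measurable_const)
      (measurableSet_eq_fun hnm measurable_const))) ?_
  refine MeasurableSet.biUnion hc fun O hO => ?_
  have e2 : {y : Ball κ | l ∈ O ∧ g O y < (S.nu y).real {l} - t} =
      {_y | l ∈ O} ∩ {y | g O y < (S.nu y).real {l} - t} := rfl
  rw [e2]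
  exact (MeasurableSet.const _).inter
    (measurableSet_lt (hg O hO) ((S.measurable_atom l).sub_const t))

theorem transfer {b A b'' : Set κ} (hb : S.Ret b) (hA : S.Ret A) (hst : S.Stab b A)
    (hb'' : S.Ret b'') (hAb : A ⊆ b'') {l l'' : L} (hl : l ∈ S.LA b) (hl'' : l'' ∈ S.LA b'')
    (hr : S.rho A l'' = l) (hne : l'' ≠ l) (s τ : ℚ) (hs : (s : ℝ) < S.Fv l'') (hτ : 0 < τ)
    {t : ℝ} (ht : 0 < t) :
    (S.lam l).real {y : Ball κ | y ∈ BA b ∧ (nm y ≤ 1 - τ ∨ nm y = 1) ∧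
      ∃ O, S.Clop b O ∧ l ∈ O ∧ S.ahat y (O ∩ S.Fs s) τ < (S.nu y).real {l} - t} ≤
    (S.lam l'').real {y | (τ : ℝ) ≤ Ball.mass bᶜ y} + (S.Fv l'' - S.Fv l) / t := by
  have hτ' : (0 : ℝ) < τ := by exact_mod_cast hτ
  have hbA : b ⊆ A := hst.1
  have hm := S.measurableSet_bad hb hl s τ hτ t
  set Bad : Set (Ball κ) := {y : Ball κ | y ∈ BA b ∧ (nm y ≤ 1 - τ ∨ nm y = 1) ∧
      ∃ O, S.Clop b O ∧ l ∈ O ∧ S.ahat y (O ∩ S.Fs s) τ < (S.nu y).real {l} - t} with hBad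
  set E : Set L := (S.rho A ⁻¹' {l}) \ {l''} with hE
  have hEm : MeasurableSet E :=
    ((measurableSet_singleton l).preimage (S.rho A).continuous.measurable).diff
      (measurableSet_singleton l'')
  have h1 : (S.lam l).real Bad ≤ (S.lam l'').real (Ball.res A ⁻¹' Bad) := by
    have := S.lam_rho_real hA l'' hm
    rwa [hr] at this
  have hsub : Ball.res A ⁻¹' Bad ⊆ (BA b'')ᶜ ∪ ({y | (τ : ℝ) ≤ Ball.mass bᶜ y} ∪
      {y | t ≤ (S.nu y).real E}) := by
    intro y'' hy''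
    by_cases hB : y'' ∈ BA b''
    swap
    · exact Or.inl hB
    refine Or.inr ?_
    by_cases hτy : (τ : ℝ) ≤ Ball.mass bᶜ y''
    · exact Or.inl hτy
    refine Or.inr ?_
    push Not at hτy
    obtain ⟨hyb, hn, O, hO, hlO, hlt⟩ := hy''
    set y : Ball κ := Ball.res A y'' with hy
    show t ≤ (S.nu y'').real E
    -- norms
    have hyy : nm y'' = nm y + Ball.mass Aᶜ y'' := by
      have := mass_compl A y''
      rw [← hy] at this
      linarith
    have hmm : Ball.mass Aᶜ y'' ≤ Ball.mass bᶜ y'' :=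
      Ball.mass_mono (compl_subset_compl.2 hbA) y''
    have hlt' : nm y'' < nm y + τ := by linarith
    have hatom := S.atom_res_le hA hr y''
    rw [← hy, ← hE] at hatom
    rcases hn with hn | hn
    · -- the light case
      have hst' := hst.2.2 y hyb τ hτ hn O hO s A Subset.rfl hst.2.1
      have hext : S.Ext y A A b'' y'' := ⟨Subset.rfl, hAb, hA, hb'', hB, hy.symm⟩
      have h2 := S.le_a (U := O ∩ S.Fs s) hext hlt'
      have hmem : l'' ∈ (O ∩ S.Fs s) ∩ S.D A b'' := by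
        refine ⟨⟨?_, hs⟩, ?_⟩
        · have hOA : S.Clop A O := hO.mono S hb hA hbA
          rw [← hOA.mem_iff S l'', hr]
          exact hlO
        · show S.rho A l'' ≠ S.rho b'' l''
          rw [hr]
          have : S.rho b'' l'' = l'' := hl''
          rw [this]
          exact hne.symm
      have h3 : (S.nu y'').real {l''} ≤ (S.nu y'').real ((O ∩ S.Fs s) ∩ S.D A b'') :=
        measureReal_mono (singleton_subset_iff.2 hmem)
      rw [hst'] at h2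
      linarith
    · have hle : nm y'' ≤ nm y := by rw [hn]; exact nm_le_one y''
      have hyeq : y'' = y := eq_of_res_eq_of_nm_le hy.symm hle
      have h0 : (S.nu y'').real {l''} = 0 := by
        have h4 : S.nu y'' (S.LA b)ᶜ = 0 := S.nu_compl_LA hb (by rw [hyeq]; exact hyb)
        have h5 : l'' ∉ S.LA b := by
          intro h5
          have h6 : l'' ∈ S.LA A := S.LA_mono hb hA hbA h5
          have h7 : S.rho A l'' = l'' := h6
          exact hne (h7.symm.trans hr)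
        have h6 : S.nu y'' {l''} = 0 :=
          measure_mono_null (singleton_subset_iff.2 h5) h4
        rw [Measure.real, h6, ENNReal.toReal_zero]
      have h7 := S.ahat_nonneg y (O ∩ S.Fs s) τ
      linarith
  have h2 : (S.lam l'').real (Ball.res A ⁻¹' Bad) ≤
      (S.lam l'').real (BA b'')ᶜ + ((S.lam l'').real {y | (τ : ℝ) ≤ Ball.mass bᶜ y} +
        (S.lam l'').real {y | t ≤ (S.nu y).real E}) := by
    refine (measureReal_mono hsub).trans ((measureReal_union_le _ _).trans ?_)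
    exact add_le_add le_rfl (measureReal_union_le _ _)
  have h3 : (S.lam l'').real (BA b'')ᶜ = 0 := by
    rw [Measure.real, S.lam_compl_BA hb'' hl'', ENNReal.toReal_zero]
  have h4 : t * (S.lam l'').real {y | t ≤ (S.nu y).real E} ≤ S.Fv l'' - S.Fv l := by
    refine le_trans ?_ (S.rigid_fibre hA hb'' hAb hl'' hr)
    refine mul_meas_ge_le_integral_of_nonneg (Eventually.of_forall fun y => measureReal_nonneg)
      ?_ t
    exact integrable_bdd _ (S.measurable_nu_real hEm) S.C fun y => by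
      rw [abs_of_nonneg measureReal_nonneg]
      exact S.nu_le y _
  have h5 : (S.lam l'').real {y | t ≤ (S.nu y).real E} ≤ (S.Fv l'' - S.Fv l) / t := by
    rw [le_div_iff₀ ht]
    linarith
  linarith

end Sys

end Pool.Agent.ZDB

end

section

/-!
# ZDB/Conv : README 6.3
c₁ = 1/(2C), m = lam l.  Let O_j ∈ Clop b be the sequence of exists_seq at l, τ_j = 2^{-j}.  For y ∈ BA b with nm y < 1: ab y l s = 0, so
(exists_clop_of_ab_lt, exists_tau, and O_j ⊆ O for large j) ahat y (O_j ∩ Fs s) τ_j < c₁/2 for all large j.  So the sets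
G_j = {y ∈ BA b | nm y ≤ 1 − τ_j, c₁/2 ≤ ahat y (O_j∩Fs s) τ_j} and H_j = {y | 1−τ_j < nm y < 1} satisfy limsup = ∅, hence (Fatou for the
finite measure m; they are measurable: measurable_ahat via y = res b y on BA b, measurable_mass) m(G_j), m(H_j) → 0; take j with both ≤ 1/(16C).
O := O_j, τ := τ_j.  A good with Stab b A.  Let (b'',l'') be as in the statement and suppose s < Fv l''.  transfer with t = c₁/2:
m(Bad) ≤ ω₀ + ε₀/(c₁/2) ≤ 1/(8C) + 4C/(64C²).  {y ∈ BA b | nu_y{l} ≥ c₁} ⊆ G_j ∪ H_j ∪ Bad: if nm y ≤ 1−τ and y ∉ G_j then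
ahat y (O∩Fs s) τ < c₁/2 ≤ nu_y{l} − t; if nm y = 1, ahat y (O∩Fs s) τ = 0 < c₁ − c₁/2 (ahat_eq_zero_of_nm).
m(nu_y{l} ≥ c₁) ≥ 1/(2C) (meas_atom_ge) but the bound is 1/(16C)+1/(16C)+1/(8C)+1/(16C) < 1/(2C).  Contradiction.
-/

open Set Filter Topology MeasureTheory Pool.Agent.H53.ZD

namespace Pool.Agent.ZDB

variable {κ L : Type*} [TopologicalSpace L] [CompactSpace L] [T2Space L] [TotallyDisconnectedSpace L]
  [MeasurableSpace L] [BorelSpace L]

namespace Sys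

variable {S : Sys κ L}

theorem conv (𝒢 : GoodFam S) {b : Set κ} (hb : 𝒢.G b) {l : L} (hl : l ∈ S.LA b) {ε₀ ω₀ : ℝ}
    (hε₀ : ε₀ ≤ 1 / (64 * S.C ^ 2)) (hω₀ : ω₀ ≤ 1 / (8 * S.C)) {s : ℚ}
    (hs : ∀ x ∈ BA b, S.ab x l s = 0) :
    ∃ (A : Set κ) (τ : ℚ), A.Countable ∧ b ⊆ A ∧ 0 < τ ∧ ∀ A', A ⊆ A' → 𝒢.G A' →
      S.Stab b A' ∧ ∀ (b'' : Set κ) (l'' : L), S.Ret b'' → A' ⊆ b'' → l'' ∈ S.LA b'' →
        S.rho A' l'' = l → l'' ≠ l → S.Fv l'' - S.Fv l ≤ ε₀ →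
        (S.lam l'').real {y | (τ : ℝ) ≤ Ball.mass bᶜ y} ≤ ω₀ → S.Fv l'' ≤ s := by
  have hret : S.Ret b := 𝒢.ret b hb
  have hrlq : S.RLQ b := 𝒢.rlq b hb
  have hC := S.C_pos
  obtain ⟨O, hOanti, hOc, hlO, hOcof, -⟩ := S.exists_seq hret hl
  obtain ⟨τs, hτs⟩ : ∃ τs : ℕ → ℚ, ∀ j, τs j = (1 / 2) ^ j := ⟨_, fun _ => rfl⟩
  have hτ0 : ∀ j, 0 < τs j := fun j => by rw [hτs]; positivity
  have hτ0' : ∀ j, (0 : ℝ) < τs j := fun j => by exact_mod_cast hτ0 j
  have hτlim : Tendsto (fun j => (τs j : ℝ)) atTop (𝓝 0) := by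
    have h1 : Tendsto (fun j : ℕ => ((1 : ℝ) / 2) ^ j) atTop (𝓝 0) :=
      tendsto_pow_atTop_nhds_zero_of_lt_one (by norm_num) (by norm_num)
    refine h1.congr fun j => ?_
    rw [hτs]
    push_cast
    rfl
  obtain ⟨c₁, hc₁⟩ : ∃ c₁ : ℝ, c₁ = 1 / (2 * S.C) := ⟨_, rfl⟩
  have hc₁0 : 0 < c₁ := by rw [hc₁]; positivity
  -- the exceptional sets
  let E : ℕ → Set (Ball κ) := fun j =>
    (BA b ∩ {y : Ball κ | nm (Ball.res b y) ≤ 1 - τs j ∧
      c₁ / 4 < S.ahat (Ball.res b y) (O j ∩ S.Fs s) (τs j)}) ∪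
    {y : Ball κ | 1 - (τs j : ℝ) < nm y ∧ nm y < 1}
  have hEm : ∀ j, MeasurableSet (E j) := by
    intro j
    refine MeasurableSet.union ?_ ?_
    · exact (isClosed_BA b).measurableSet.inter
        (S.measurable_ahat hret (hOc j) s (τs j) (hτ0 j) (c₁ / 4))
    · exact (measurableSet_lt measurable_const (Ball.measurable_mass univ)).inter
        (measurableSet_lt (Ball.measurable_mass univ) measurable_const)
  have hElim : ∀ y, ∀ᶠ j in atTop, (y ∈ E j ↔ y ∈ (∅ : Set (Ball κ))) := by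
    intro y
    have h2 : ∀ᶠ j in atTop, ¬ (1 - (τs j : ℝ) < nm y ∧ nm y < 1) := by
      by_cases hy1 : nm y < 1
      · have h3 : ∀ᶠ j in atTop, (τs j : ℝ) < 1 - nm y :=
          hτlim.eventually (gt_mem_nhds (by linarith))
        filter_upwards [h3] with j hj h4
        linarith [h4.1]
      · exact Eventually.of_forall fun j h4 => hy1 h4.2
    have h3 : ∀ᶠ j in atTop, ¬ (y ∈ BA b ∧ nm (Ball.res b y) ≤ 1 - τs j ∧
        c₁ / 4 < S.ahat (Ball.res b y) (O j ∩ S.Fs s) (τs j)) := by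
      by_cases hyb : y ∈ BA b
      · have hres : Ball.res b y = y := hyb
        obtain ⟨O', hO'c, hlO', hO'⟩ := S.exists_clop_of_ab_lt (x := y) (l := l) (s := s)
          (r := c₁ / 4) hret hrlq hyb hl (by rw [hs y hyb]; positivity)
        obtain ⟨τ', hτ', hτ''⟩ := S.exists_tau hO'
        obtain ⟨j₀, hj₀⟩ := hOcof O' hO'c hlO'
        have h5 : ∀ᶠ j in atTop, (τs j : ℝ) < τ' := hτlim.eventually (gt_mem_nhds hτ')
        filter_upwards [h5, eventually_ge_atTop j₀] with j hj hjj h6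
        rw [hres] at h6
        have h7 := hτ'' (τs j) (hτ0' j) hj.le
        have h8 : S.ahat y (O j ∩ S.Fs s) (τs j) ≤ S.ahat y (O' ∩ S.Fs s) (τs j) :=
          S.ahat_mono_set (inter_subset_inter_left _ ((hOanti hjj).trans hj₀)) y _
        linarith [h6.2.2]
      · exact Eventually.of_forall fun j h4 => hyb h4.1
    filter_upwards [h2, h3] with j hj2 hj3
    simp only [mem_empty_iff_false, iff_false]
    rintro (h | h)
    · exact hj3 ⟨h.1, h.2⟩
    · exact hj2 h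
  have hlimE := tendsto_measure_of_tendsto_indicator_of_isFiniteMeasure (A := (∅ : Set (Ball κ)))
    atTop (S.lam l)
    hEm hElim
  rw [measure_empty] at hlimE
  obtain ⟨j, hj⟩ : ∃ j, (S.lam l).real (E j) < 1 / (8 * S.C) := by
    have h1 : (0 : ENNReal) < ENNReal.ofReal (1 / (8 * S.C)) := by
      rw [ENNReal.ofReal_pos]; positivity
    obtain ⟨j, hj⟩ := (hlimE.eventually (gt_mem_nhds h1)).exists
    refine ⟨j, ?_⟩
    rw [measureReal_def]
    exact (ENNReal.lt_ofReal_iff_toReal_lt (measure_ne_top _ _)).1 hj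
  obtain ⟨A, hA⟩ := S.exists_stab hret
  refine ⟨A, τs j, hA.2.1, hA.1, hτ0 j, fun A' hAA' hA'g => ?_⟩
  have hst : S.Stab b A' := Stab.mono S hA hAA' (𝒢.ret A' hA'g).1
  refine ⟨hst, ?_⟩
  intro b'' l'' hb'' hAb hl'' hr hne hF hcost
  by_contra hlt
  push Not at hlt
  have htr := S.transfer hret (𝒢.ret A' hA'g) hst hb'' hAb hl hl'' hr hne s (τs j) hlt (hτ0 j)
    (t := c₁ / 2) (by positivity)
  set Bad : Set (Ball κ) := {y : Ball κ | y ∈ BA b ∧ (nm y ≤ 1 - τs j ∨ nm y = 1) ∧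
      ∃ O, S.Clop b O ∧ l ∈ O ∧ S.ahat y (O ∩ S.Fs s) (τs j) < (S.nu y).real {l} - c₁ / 2}
    with hBad
  have hsub : {y | 1 / (2 * S.C) ≤ (S.nu y).real {l}} ⊆ ((BA b)ᶜ ∪ E j) ∪ Bad := by
    intro y hy
    have hy' : c₁ ≤ (S.nu y).real {l} := by rw [hc₁]; exact hy
    by_cases hyb : y ∈ BA b
    · have hres : Ball.res b y = y := hyb
      by_cases hyE : y ∈ E j
      · exact Or.inl (Or.inr hyE)
      · right
        have hyE1 : ¬ (nm y ≤ 1 - τs j ∧ c₁ / 4 < S.ahat y (O j ∩ S.Fs s) (τs j)) := by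
          intro h
          apply hyE
          left
          refine ⟨hyb, ?_⟩
          show nm (Ball.res b y) ≤ 1 - τs j ∧
            c₁ / 4 < S.ahat (Ball.res b y) (O j ∩ S.Fs s) (τs j)
          rw [hres]
          exact h
        have hyE2 : ¬ (1 - (τs j : ℝ) < nm y ∧ nm y < 1) := fun h => hyE (Or.inr h)
        by_cases hn : nm y ≤ 1 - τs j
        · refine ⟨hyb, Or.inl hn, O j, hOc j, hlO j, ?_⟩
          have h1 : S.ahat y (O j ∩ S.Fs s) (τs j) ≤ c₁ / 4 := by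
            by_contra h2
            push Not at h2
            exact hyE1 ⟨hn, h2⟩
          linarith
        · push Not at hn
          have h1 : nm y = 1 := by
            refine le_antisymm (nm_le_one y) ?_
            by_contra h2
            push Not at h2
            exact hyE2 ⟨hn, h2⟩
          refine ⟨hyb, Or.inr h1, O j, hOc j, hlO j, ?_⟩
          rw [S.ahat_eq_zero_of_nm h1]
          linarith
    · exact Or.inl (Or.inl hyb)
  have h1 := S.meas_atom_ge hret hl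
  have h2 : (S.lam l).real {y | 1 / (2 * S.C) ≤ (S.nu y).real {l}} ≤
      (S.lam l).real (BA b)ᶜ + (S.lam l).real (E j) + (S.lam l).real Bad :=
    (measureReal_mono hsub).trans ((measureReal_union_le _ _).trans
      (add_le_add (measureReal_union_le _ _) le_rfl))
  have h3 : (S.lam l).real (BA b)ᶜ = 0 := by
    rw [measureReal_def, S.lam_compl_BA hret hl]
    simp
  have h4 : (S.Fv l'' - S.Fv l) / (c₁ / 2) ≤ 1 / (16 * S.C) := by
    rw [div_le_iff₀ (by positivity)]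
    refine hF.trans (hε₀.trans (le_of_eq ?_))
    rw [hc₁]
    field_simp
    norm_num
  have h5 : (1 : ℝ) / (2 * S.C) = 8 * (1 / (16 * S.C)) := by
    field_simp
    norm_num
  have h6 : (1 : ℝ) / (8 * S.C) = 2 * (1 / (16 * S.C)) := by
    field_simp
    norm_num
  have h7 : (0 : ℝ) < 1 / (16 * S.C) := by positivity
  linarith

end Sys

end Pool.Agent.ZDB

end
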