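import Pool.Agent.ZDM.P07

/-!
# Merged form of the modules ZDB.TTUpper, ZDB.TransferLim, ZDB.LandA, ZDB.Landing, ZDB.LandCor, ZDB.NearMin, ZDB.ChainStep, ZDB.Chain, ZDB.ChainFin
-/

set_option autoImplicit false
set_option linter.unusedSectionVars false

section

/-!
# ZDB/TTUpper : comparison of 𝔱 at a node and at a node over it
d = Fv l'' − Fv l ≥ 0.  Let y'' ∈ BA b'' (lam_{l''}-a.e.; then res b'' y'' = y''), y = res A y''.  f(z) := ab0 (res b z) l + err b τ z, 0 ≤ f ≤ 2C,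
measurable.  Claim: ab0 y'' l'' ≤ f(y) + C·1_{y ∉ BA b} + C·1_{τ ≤ mass bᶜ y''} + C·1_{1−2τ < nm (res b y) < 1}.
If y ∈ BA b and mass bᶜ y'' < τ then nm y'' = nm y + mass Aᶜ y'' < nm y + τ.  If nm y ≤ 1−2τ: ab0_upper and res b y = y.  If nm y = 1: nm y'' = 1,
ab0 y'' l'' = 0 (ab_of_nm).  Otherwise 1−2τ < nm y < 1.
Integrate over lam_{l''}: ∫ f(res A y'') ≤ ∫ f dlam_l + 2C·C·d (int_le_add); lam_{l''}(res A⁻¹(BA b)ᶜ) ≤ lam_l((BA b)ᶜ) + C d = C d (lam_le_add,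
lam_compl_BA); lam_{l''}(res A⁻¹{1−2τ < nm (res b ·) < 1}) ≤ lam_l{..} + C d.  Total: 2C²d + C²d + C²d = 4C²d.
-/

open Set Filter Topology MeasureTheory Pool.Agent.H53.ZD

namespace Pool.Agent.ZDB

variable {κ L : Type*} [TopologicalSpace L] [CompactSpace L] [T2Space L] [TotallyDisconnectedSpace L]
  [MeasurableSpace L] [BorelSpace L]

namespace Sys

variable (S : Sys κ L)

private theorem tu_ind_le {E : Set (Ball κ)} (y : Ball κ) :
    0 ≤ S.C * E.indicator (1 : Ball κ → ℝ) y ∧ S.C * E.indicator (1 : Ball κ → ℝ) y ≤ S.C := by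
  have hC := S.C_pos
  by_cases h : y ∈ E
  · rw [indicator_of_mem h]
    simp only [Pi.one_apply, mul_one]
    exact ⟨hC.le, le_refl _⟩
  · rw [indicator_of_notMem h]
    simp only [mul_zero]
    exact ⟨le_refl _, hC.le⟩

private theorem tu_ind_mem {E : Set (Ball κ)} {y : Ball κ} (h : y ∈ E) :
    S.C * E.indicator (1 : Ball κ → ℝ) y = S.C := by
  rw [indicator_of_mem h]
  simp only [Pi.one_apply, mul_one]

private theorem tu_int_ind {E : Set (Ball κ)} (hE : MeasurableSet E) (μ : Measure (Ball κ))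
    [IsFiniteMeasure μ] :
    Integrable (fun y => S.C * E.indicator (1 : Ball κ → ℝ) y) μ ∧
      ∫ y, S.C * E.indicator (1 : Ball κ → ℝ) y ∂μ = S.C * μ.real E := by
  constructor
  · refine integrable_bdd μ ((measurable_one.indicator hE).const_mul _) S.C (fun y => ?_)
    have := S.tu_ind_le (E := E) y
    rw [abs_of_nonneg this.1]
    exact this.2
  · rw [integral_const_mul, integral_indicator_one hE]

private theorem tu_sum5 {μ : Measure (Ball κ)} {f1 f2 f3 f4 f5 : Ball κ → ℝ}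
    (h1 : Integrable f1 μ) (h2 : Integrable f2 μ) (h3 : Integrable f3 μ) (h4 : Integrable f4 μ)
    (h5 : Integrable f5 μ) :
    ∫ y, (f1 y + f2 y + f3 y + f4 y + f5 y) ∂μ =
      ∫ y, f1 y ∂μ + ∫ y, f2 y ∂μ + ∫ y, f3 y ∂μ + ∫ y, f4 y ∂μ + ∫ y, f5 y ∂μ := by
  rw [integral_add (f := fun y => f1 y + f2 y + f3 y + f4 y) (((h1.add h2).add h3).add h4) h5,
    integral_add (f := fun y => f1 y + f2 y + f3 y) ((h1.add h2).add h3) h4,
    integral_add (f := fun y => f1 y + f2 y) (h1.add h2) h3, integral_add h1 h2]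

/-- the pointwise version: a function dominating `ab0 · l''` with small integral defect -/
theorem ab0_dominated {b A b'' : Set κ} (hb : S.Ret b) (hR : S.RLQ b) (hA : S.Ret A)
    (hst : S.Stab b A) (hb'' : S.Ret b'') (hAb : A ⊆ b'') {l l'' : L}
    (hl : l ∈ S.LA b) (hl'' : l'' ∈ S.LA b'') (hr : S.rho A l'' = l) {τ : ℚ} (hτ : 0 < τ) :
    ∃ f : Ball κ → ℝ, Measurable f ∧ (∀ y, 0 ≤ f y) ∧ (∀ y, f y ≤ 5 * S.C) ∧
      (∀ y, y ∈ BA b'' → S.ab0 y l'' ≤ f y ∧ S.ab0 (Ball.res b y) l ≤ f y) ∧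
      ∫ y, f y ∂(S.lam l'') ≤ S.tt b l + S.errI b l τ +
        S.C * (S.lam l).real {y : Ball κ | 1 - 2 * (τ : ℝ) < nm (Ball.res b y) ∧
          nm (Ball.res b y) < 1} +
        S.C * (S.lam l'').real {y | (τ : ℝ) ≤ Ball.mass bᶜ y} +
        4 * S.C ^ 2 * (S.Fv l'' - S.Fv l) := by
  have hC := S.C_pos
  have hbA : b ⊆ A := hst.1
  have hτ' : (0 : ℝ) < τ := by exact_mod_cast hτ
  set E1 : Set (Ball κ) := Ball.res A ⁻¹' (BA b)ᶜ with hE1
  set E2 : Set (Ball κ) := {y | (τ : ℝ) ≤ Ball.mass bᶜ y} with hE2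
  set E3 : Set (Ball κ) := {y : Ball κ | 1 - 2 * (τ : ℝ) < nm (Ball.res b y) ∧
          nm (Ball.res b y) < 1} with hE3
  have hnm : Measurable fun y : Ball κ => nm (Ball.res b y) :=
    (Ball.measurable_mass univ).comp (Ball.measurable_res b)
  have mB : MeasurableSet (BA b)ᶜ := (isClosed_BA b).measurableSet.compl
  have m1 : MeasurableSet E1 := (Ball.measurable_res A) mB
  have m2 : MeasurableSet E2 := measurableSet_le measurable_const (Ball.measurable_mass bᶜ)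
  have m3 : MeasurableSet E3 :=
    (measurableSet_lt measurable_const hnm).inter (measurableSet_lt hnm measurable_const)
  have hrr : ∀ y : Ball κ, Ball.res b (Ball.res A y) = Ball.res b y := fun y =>
    Ball.res_eq_of_subset hbA y
  have herr : ∀ y : Ball κ, S.err b τ (Ball.res A y) = S.err b τ y := by
    intro y
    unfold err
    simp only [indicator, mem_ofPred_eq, hrr y]
  have mab : Measurable fun y : Ball κ => S.ab0 (Ball.res b y) l := S.measurable_ab0 hb hR hl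
  have merr : Measurable (S.err b τ) := S.measurable_err hb hτ
  let f : Ball κ → ℝ := fun y => S.ab0 (Ball.res b y) l + S.err b τ y +
    S.C * E1.indicator (1 : Ball κ → ℝ) y + S.C * E2.indicator (1 : Ball κ → ℝ) y +
    S.C * E3.indicator (1 : Ball κ → ℝ) y
  have i0 : Integrable (fun y => S.ab0 (Ball.res b y) l) (S.lam l'') :=
    integrable_bdd _ mab S.C (fun y => by
      rw [abs_of_nonneg (S.ab0_nonneg _ _)]; exact S.ab0_le_C _ _)
  have ie : Integrable (fun y => S.err b τ y) (S.lam l'') :=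
    integrable_bdd _ merr S.C (fun y => by
      rw [abs_of_nonneg (S.err_nonneg b hτ y)]; exact S.err_le_C b hτ y)
  obtain ⟨i1, e1⟩ := S.tu_int_ind m1 (S.lam l'')
  obtain ⟨i2, e2⟩ := S.tu_int_ind m2 (S.lam l'')
  obtain ⟨i3, e3⟩ := S.tu_int_ind m3 (S.lam l'')
  refine ⟨f, ?_, ?_, ?_, ?_, ?_⟩
  · exact (((mab.add merr).add ((measurable_one.indicator m1).const_mul _)).add
      ((measurable_one.indicator m2).const_mul _)).add
      ((measurable_one.indicator m3).const_mul _)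
  · intro y
    have h0 := S.ab0_nonneg (Ball.res b y) l
    have h1 := S.err_nonneg b hτ y
    have h2 := (S.tu_ind_le (E := E1) y).1
    have h3 := (S.tu_ind_le (E := E2) y).1
    have h4 := (S.tu_ind_le (E := E3) y).1
    change 0 ≤ S.ab0 (Ball.res b y) l + S.err b τ y +
      S.C * E1.indicator (1 : Ball κ → ℝ) y + S.C * E2.indicator (1 : Ball κ → ℝ) y +
      S.C * E3.indicator (1 : Ball κ → ℝ) y
    linarith
  · intro y
    have h0 := S.ab0_le_C (Ball.res b y) l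
    have h1 := S.err_le_C b hτ y
    have h2 := (S.tu_ind_le (E := E1) y).2
    have h3 := (S.tu_ind_le (E := E2) y).2
    have h4 := (S.tu_ind_le (E := E3) y).2
    change S.ab0 (Ball.res b y) l + S.err b τ y +
      S.C * E1.indicator (1 : Ball κ → ℝ) y + S.C * E2.indicator (1 : Ball κ → ℝ) y +
      S.C * E3.indicator (1 : Ball κ → ℝ) y ≤ 5 * S.C
    linarith
  · intro y hy
    have h0 := S.ab0_nonneg (Ball.res b y) l
    have h0' := S.ab0_le_C y l''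
    have h1 := S.err_nonneg b hτ y
    have h2 := (S.tu_ind_le (E := E1) y).1
    have h3 := (S.tu_ind_le (E := E2) y).1
    have h4 := (S.tu_ind_le (E := E3) y).1
    change S.ab0 y l'' ≤ S.ab0 (Ball.res b y) l + S.err b τ y +
      S.C * E1.indicator (1 : Ball κ → ℝ) y + S.C * E2.indicator (1 : Ball κ → ℝ) y +
      S.C * E3.indicator (1 : Ball κ → ℝ) y ∧ S.ab0 (Ball.res b y) l ≤
      S.ab0 (Ball.res b y) l + S.err b τ y +
      S.C * E1.indicator (1 : Ball κ → ℝ) y + S.C * E2.indicator (1 : Ball κ → ℝ) y +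
      S.C * E3.indicator (1 : Ball κ → ℝ) y
    refine ⟨?_, by linarith⟩
    by_cases c1 : y ∈ E1
    · rw [S.tu_ind_mem c1]
      linarith
    by_cases c2 : y ∈ E2
    · rw [S.tu_ind_mem c2]
      linarith
    by_cases c3 : y ∈ E3
    · rw [S.tu_ind_mem c3]
      linarith
    have hyb : Ball.res A y ∈ BA b := by
      by_contra hc
      exact c1 hc
    have hres : Ball.res b y = Ball.res A y := by
      rw [← hrr y]
      exact hyb
    have hlt : Ball.mass bᶜ y < τ := not_le.1 c2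
    have hsplit := mass_compl b y
    rw [hres] at hsplit
    rcases eq_or_lt_of_le (nm_le_one (Ball.res A y)) with h5 | h5
    · have h6 : nm y = 1 := le_antisymm (nm_le_one y) (by rw [← h5]; exact nm_res_le A y)
      have h7 : S.ab0 y l'' = 0 := S.ab_of_nm h6 l'' (-1)
      rw [h7]
      linarith
    · have h6 : nm (Ball.res A y) ≤ 1 - 2 * (τ : ℝ) := by
        by_contra hc
        refine c3 ⟨?_, ?_⟩
        · rw [hres]; exact not_le.1 hc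
        · rw [hres]; exact h5
      have h7 := S.ab0_upper hb hR hA hst hb'' hAb hl hr hy hyb hτ (by linarith) (by linarith)
      have h8 : S.err b τ y = S.ahat (Ball.res A y) univ (2 * (τ : ℝ)) -
          S.alpha (Ball.res A y) univ := by
        unfold err
        rw [indicator_of_mem (by
          show nm (Ball.res b y) ≤ 1 - 2 * (τ : ℝ)
          rw [hres]; exact h6), hres]
      rw [h8, hres]
      linarith
  · have hf : ∫ y, f y ∂(S.lam l'') = ∫ y, S.ab0 (Ball.res b y) l ∂(S.lam l'') +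
        ∫ y, S.err b τ y ∂(S.lam l'') + S.C * (S.lam l'').real E1 +
        S.C * (S.lam l'').real E2 + S.C * (S.lam l'').real E3 := by
      rw [← e1, ← e2, ← e3]
      exact tu_sum5 i0 ie i1 i2 i3
    have hd : 0 ≤ S.Fv l'' - S.Fv l := sub_nonneg.2 (S.Fv_mono_of_rho hA hr)
    have a0 : ∫ y, S.ab0 (Ball.res b y) l ∂(S.lam l'') ≤
        S.tt b l + S.C * (S.C * (S.Fv l'' - S.Fv l)) := by
      have h := S.int_le_add hA hb'' hAb hl'' hr mab (M := S.C) (fun y => S.ab0_nonneg _ _)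
        (fun y => S.ab0_le_C _ _)
      simp only [hrr] at h
      exact h
    have a1 : ∫ y, S.err b τ y ∂(S.lam l'') ≤
        S.errI b l τ + S.C * (S.C * (S.Fv l'' - S.Fv l)) := by
      have h := S.int_le_add hA hb'' hAb hl'' hr merr (M := S.C) (fun y => S.err_nonneg b hτ y)
        (fun y => S.err_le_C b hτ y)
      simp only [herr] at h
      exact h
    have a2 : (S.lam l'').real E1 ≤ S.C * (S.Fv l'' - S.Fv l) := by
      have h := S.lam_le_add hA hb'' hAb hl'' hr mB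
      have h0 : (S.lam l).real (BA b)ᶜ = 0 := by
        rw [measureReal_def, S.lam_compl_BA hb hl]
        rfl
      rw [h0] at h
      linarith
    have a3 : (S.lam l'').real E3 ≤ (S.lam l).real E3 + S.C * (S.Fv l'' - S.Fv l) := by
      have h := S.lam_le_add hA hb'' hAb hl'' hr m3
      have h0 : Ball.res A ⁻¹' E3 = E3 := by
        ext y
        simp only [hE3, mem_preimage, mem_ofPred_eq, hrr]
      rw [h0] at h
      exact h
    rw [hf]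
    have a2' := mul_le_mul_of_nonneg_left a2 hC.le
    have a3' := mul_le_mul_of_nonneg_left a3 hC.le
    have hsq : S.C ^ 2 * (S.Fv l'' - S.Fv l) = S.C * (S.C * (S.Fv l'' - S.Fv l)) := by ring
    linarith

theorem tt_upper {b A b'' : Set κ} (hb : S.Ret b) (hR : S.RLQ b) (hA : S.Ret A)
    (hst : S.Stab b A) (hb'' : S.Ret b'') (hR'' : S.RLQ b'') (hAb : A ⊆ b'') {l l'' : L}
    (hl : l ∈ S.LA b) (hl'' : l'' ∈ S.LA b'') (hr : S.rho A l'' = l) {τ : ℚ} (hτ : 0 < τ) :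
    S.tt b'' l'' ≤ S.tt b l + S.errI b l τ +
      S.C * (S.lam l).real {y : Ball κ | 1 - 2 * (τ : ℝ) < nm (Ball.res b y) ∧
        nm (Ball.res b y) < 1} +
      S.C * (S.lam l'').real {y | (τ : ℝ) ≤ Ball.mass bᶜ y} +
      4 * S.C ^ 2 * (S.Fv l'' - S.Fv l) := by
  obtain ⟨f, mf, f0, f5, hf, hint⟩ := S.ab0_dominated hb hR hA hst hb'' hAb hl hl'' hr hτ
  refine le_trans ?_ hint
  have hae : ∀ᵐ y ∂(S.lam l''), y ∈ BA b'' := by
    rw [ae_iff]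
    exact S.lam_compl_BA hb'' hl''
  refine integral_mono_ae ?_ ?_ ?_
  · exact integrable_bdd _ (S.measurable_ab0 hb'' hR'' hl'') S.C (fun y => by
      rw [abs_of_nonneg (S.ab0_nonneg _ _)]; exact S.ab0_le_C _ _)
  · exact integrable_bdd _ mf (5 * S.C) (fun y => by
      rw [abs_of_nonneg (f0 _)]; exact f5 _)
  · filter_upwards [hae] with y hy
    have hy' : Ball.res b'' y = y := hy
    show S.ab0 (Ball.res b'' y) l'' ≤ f y
    rw [hy']
    exact (hf y hy).1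

end Sys

end Pool.Agent.ZDB

end

section

/-!
# ZDB/TransferLim : transfer in the limit
E := {y ∈ BA b | ab0 y l < nu_y{l} − t}.  For k let τ_k = 2^{-k} ∈ ℚ, and take (b_k, l_k) from h with ε_k = 4^{-k}.
Bad_k := the bad set of `transfer` with s = −1, τ = τ_k.  y ∈ E lies in Bad_k for all large k: if nm y = 1 then ahat = 0 = alpha = ab0 for
every O (take O = univ: Clop b univ), so y ∈ Bad_k.  If nm y < 1: exists_clop_of_ab_lt gives O ∈ Clop b, l ∈ O, alpha y (O ∩ Fs(−1)) <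
nu_y{l} − t, and exists_tau gives ahat y (O∩Fs(−1)) τ_k < nu_y{l} − t for large k; nm y ≤ 1 − τ_k for large k.
(Here nm y = 1: ahat_eq_zero_of_nm, and ab0 y l = 0, so 0 < nu_y{l} − t.)
Markov: lam_{l_k}{τ_k ≤ mass bᶜ} ≤ cost b l_k/τ_k ≤ 2^{-k}.  So lam_l(Bad_k) ≤ 2^{-k} + (d + 4^{-k})/t, and
lam_l(E) ≤ lam_l(liminf Bad_k) ≤ liminf lam_l(Bad_k) ≤ d/t (measure of ⋂_{k≥n} Bad_k ≤ inf; increasing union over n).  (E need not be
measurable: it is contained in ⋃_n ⋂_{k ≥ n} Bad_k.)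
alive_of_transferLim: t = 1/(4C): lam_l{nu_y{l} ≥ 1/(2C)} ≥ 1/(2C) > 4Cd (meas_atom_ge), lam_l (BA b)ᶜ = 0, so there is y ∈ BA b with
nu_y{l} ≥ 1/(2C) and ab0 y l ≥ 1/(4C) > 0.
-/

open Set Filter Topology MeasureTheory Pool.Agent.H53.ZD

namespace Pool.Agent.ZDB

variable {κ L : Type*} [TopologicalSpace L] [CompactSpace L] [T2Space L] [TotallyDisconnectedSpace L]
  [MeasurableSpace L] [BorelSpace L]

private theorem TransferLim_meas {X : Type*} [MeasurableSpace X] (μ : Measure X)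
    [IsFiniteMeasure μ] (G : ℕ → Set X) (c : ℕ → ℝ) (r : ℝ) (hc : Tendsto c atTop (𝓝 r))
    (h : ∀ k, μ.real (G k) ≤ c k) (E : Set X) (hE : ∀ x ∈ E, ∃ n, ∀ k, n ≤ k → x ∈ G k) :
    μ.real E ≤ r := by
  have hm : Monotone fun n => ⋂ k, ⋂ (_ : n ≤ k), G k := by
    intro n n' hn x hx
    simp only [mem_iInter] at hx ⊢
    exact fun k hk => hx k (hn.trans hk)
  have h1 : ∀ n, μ.real (⋂ k, ⋂ (_ : n ≤ k), G k) ≤ r := by
    intro n
    refine ge_of_tendsto hc ?_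
    filter_upwards [eventually_ge_atTop n] with k hk
    refine (measureReal_mono ?_).trans (h k)
    intro x hx
    simp only [mem_iInter] at hx
    exact hx k hk
  have h2 : Tendsto (fun n => μ.real (⋂ k, ⋂ (_ : n ≤ k), G k)) atTop
      (𝓝 (μ.real (⋃ n, ⋂ k, ⋂ (_ : n ≤ k), G k))) := by
    have h3 := tendsto_measure_iUnion_atTop (μ := μ) hm
    exact (ENNReal.tendsto_toReal (measure_ne_top μ _)).comp h3
  refine (measureReal_mono ?_).trans (le_of_tendsto' h2 h1)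
  intro x hx
  obtain ⟨n, hn⟩ := hE x hx
  simp only [mem_iUnion, mem_iInter]
  exact ⟨n, hn⟩

namespace Sys

variable (S : Sys κ L)

/-- Markov's inequality for the cost -/
theorem lam_mass_le (b : Set κ) (l : L) {r : ℝ} (hr : 0 < r) :
    (S.lam l).real {y | r ≤ Ball.mass bᶜ y} ≤ S.cost b l / r := by
  have h1 : Integrable (fun y : Ball κ => Ball.mass bᶜ y) (S.lam l) :=
    integrable_bdd (S.lam l) (Ball.measurable_mass bᶜ) 1 (fun y => by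
      rw [abs_of_nonneg (Ball.mass_nonneg _ _)]
      exact Ball.mass_le_one _ _)
  have h2 := mul_meas_ge_le_integral_of_nonneg (μ := S.lam l)
    (Filter.Eventually.of_forall fun y => Ball.mass_nonneg bᶜ y) h1 r
  rw [le_div_iff₀ hr, mul_comm]
  exact h2

theorem cost_nonneg (b : Set κ) (l : L) : 0 ≤ S.cost b l := by
  exact integral_nonneg fun y => Ball.mass_nonneg bᶜ y

theorem transfer_lim {b A : Set κ} (hb : S.Ret b) (hR : S.RLQ b) (hA : S.Ret A)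
    (hst : S.Stab b A) {l : L} (hl : l ∈ S.LA b) {d t : ℝ} (ht : 0 < t)
    (h : ∀ ε : ℝ, 0 < ε → ∃ b'' l'', S.Ret b'' ∧ A ⊆ b'' ∧ l'' ∈ S.LA b'' ∧ S.rho A l'' = l ∧
      l'' ≠ l ∧ S.Fv l'' - S.Fv l ≤ d + ε ∧ S.cost b l'' ≤ ε) :
    (S.lam l).real {y : Ball κ | y ∈ BA b ∧ S.ab0 y l < (S.nu y).real {l} - t} ≤ d / t := by
  have hC := S.C_pos
  -- the numbers
  let τ : ℕ → ℚ := fun k => (1 / 2 : ℚ) ^ k
  have hτ0 : ∀ k, 0 < τ k := fun k => by positivity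
  have hτr : ∀ k, ((τ k : ℚ) : ℝ) = (1 / 2 : ℝ) ^ k := fun k => by
    simp only [τ]
    push_cast
    rfl
  let G : ℕ → Set (Ball κ) := fun k => {y : Ball κ | y ∈ BA b ∧ (nm y ≤ 1 - τ k ∨ nm y = 1) ∧
    ∃ O, S.Clop b O ∧ l ∈ O ∧ S.ahat y (O ∩ S.Fs ((-1 : ℚ) : ℝ)) (τ k) < (S.nu y).real {l} - t}
  have hlim0 : Tendsto (fun k : ℕ => (1 / 2 : ℝ) ^ k) atTop (𝓝 0) :=
    tendsto_pow_atTop_nhds_zero_of_lt_one (by norm_num) (by norm_num)
  have hlim1 : Tendsto (fun k : ℕ => (1 / 4 : ℝ) ^ k) atTop (𝓝 0) :=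
    tendsto_pow_atTop_nhds_zero_of_lt_one (by norm_num) (by norm_num)
  have hlim : Tendsto (fun k : ℕ => (1 / 2 : ℝ) ^ k + (d + (1 / 4 : ℝ) ^ k) / t) atTop
      (𝓝 (d / t)) := by
    have h1 := hlim0.add (((tendsto_const_nhds (x := d)).add hlim1).div_const t)
    simpa using h1
  refine TransferLim_meas (S.lam l) G _ _ hlim ?_ _ ?_
  · intro k
    have he : (0 : ℝ) < (1 / 4 : ℝ) ^ k := by positivity
    obtain ⟨b'', l'', hb'', hAb, hl'', hr, hne, hF, hcost⟩ := h _ he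
    have hs : (((-1 : ℚ) : ℚ) : ℝ) < S.Fv l'' := by
      have := S.Fv_nonneg l''
      push_cast
      linarith
    have h1 := S.transfer hb hA hst hb'' hAb hl hl'' hr hne (-1 : ℚ) (τ k) hs (hτ0 k) ht
    refine h1.trans ?_
    have hp : (0 : ℝ) < (1 / 2 : ℝ) ^ k := by positivity
    have h2 : (S.lam l'').real {y | ((τ k : ℚ) : ℝ) ≤ Ball.mass bᶜ y} ≤ (1 / 2 : ℝ) ^ k := by
      rw [hτr]
      refine (S.lam_mass_le b l'' hp).trans ?_
      rw [div_le_iff₀ hp, ← mul_pow]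
      refine hcost.trans (le_of_eq ?_)
      norm_num
    have h3 : (S.Fv l'' - S.Fv l) / t ≤ (d + (1 / 4 : ℝ) ^ k) / t :=
      div_le_div_of_nonneg_right hF ht.le
    exact add_le_add h2 h3
  · rintro y ⟨hy, hlt⟩
    by_cases hn : nm y = 1
    · refine ⟨0, fun k _ => ⟨hy, Or.inr hn, univ, S.clop_univ b, mem_univ _, ?_⟩⟩
      rw [S.ahat_eq_zero_of_nm hn]
      have h0 : S.ab0 y l = 0 := S.ab_of_nm hn l (-1)
      rw [h0] at hlt
      exact hlt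
    · have hn1 : nm y < 1 := lt_of_le_of_ne (nm_le_one y) hn
      have hlt' : S.ab y l (-1) < (S.nu y).real {l} - t := hlt
      obtain ⟨O, hO, hlO, hal⟩ := S.exists_clop_of_ab_lt hb hR hy hl hlt'
      obtain ⟨τ₀, hτ₀, hah⟩ := S.exists_tau hal
      have hmin : (0 : ℝ) < min τ₀ (1 - nm y) := lt_min hτ₀ (by linarith)
      obtain ⟨n, hn⟩ := Filter.eventually_atTop.1 (hlim0.eventually (gt_mem_nhds hmin))
      refine ⟨n, fun k hk => ⟨hy, Or.inl ?_, O, hO, hlO, ?_⟩⟩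
      · have h1 := (hn k hk).le.trans (min_le_right _ _)
        rw [hτr]
        linarith
      · have h1 := (hn k hk).le.trans (min_le_left _ _)
        have h2 := hah ((1 / 2 : ℝ) ^ k) (by positivity) h1
        rw [hτr]
        push_cast
        exact h2

theorem alive_of_transfer_lim {b A : Set κ} (hb : S.Ret b) (hR : S.RLQ b) (hA : S.Ret A)
    (hst : S.Stab b A) {l : L} (hl : l ∈ S.LA b) {d : ℝ} (hd : d < 1 / (8 * S.C ^ 2))
    (h : ∀ ε : ℝ, 0 < ε → ∃ b'' l'', S.Ret b'' ∧ A ⊆ b'' ∧ l'' ∈ S.LA b'' ∧ S.rho A l'' = l ∧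
      l'' ≠ l ∧ S.Fv l'' - S.Fv l ≤ d + ε ∧ S.cost b l'' ≤ ε) :
    ∃ x ∈ BA b, 0 < S.ab0 x l := by
  have hC := S.C_pos
  by_contra hcon
  push Not at hcon
  have ht : (0 : ℝ) < 1 / (4 * S.C) := by positivity
  have h1 := S.transfer_lim hb hR hA hst hl ht h
  have h2 := S.meas_atom_ge hb hl
  have h3 : (S.lam l).real {y | 1 / (2 * S.C) ≤ (S.nu y).real {l}} ≤
      (S.lam l).real {y : Ball κ | y ∈ BA b ∧ S.ab0 y l < (S.nu y).real {l} - 1 / (4 * S.C)} +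
      (S.lam l).real (BA b)ᶜ := by
    refine (measureReal_mono ?_).trans (measureReal_union_le _ _)
    intro y hy
    by_cases hyb : y ∈ BA b
    · refine Or.inl ⟨hyb, ?_⟩
      have h4 := hcon y hyb
      have h5 : 1 / (2 * S.C) ≤ (S.nu y).real {l} := hy
      have h6 : 1 / (4 * S.C) < 1 / (2 * S.C) := by
        apply one_div_lt_one_div_of_lt (by positivity)
        linarith
      linarith
    · exact Or.inr hyb
  have h4 : (S.lam l).real (BA b)ᶜ = 0 := by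
    rw [measureReal_def, S.lam_compl_BA hb hl]
    rfl
  have h5 : d / (1 / (4 * S.C)) < 1 / (2 * S.C) := by
    have h6 : d / (1 / (4 * S.C)) = d * (4 * S.C) := by
      field_simp
    rw [h6]
    have h7 : 1 / (8 * S.C ^ 2) * (4 * S.C) = 1 / (2 * S.C) := by
      field_simp
      norm_num
    rw [← h7]
    exact mul_lt_mul_of_pos_right hd (by positivity)
  linarith

end Sys

end Pool.Agent.ZDB

end

section

/-!
# ZDB/LandA : step A of the landing lemma (README 6.1)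
U = O j₀ ∩ Fs s₁ (open, UpperSome).  exists_tau (twice): τ > 0 with ahat x U (2τ) < a+δ, ahat x (O j₀ ∩ Fs s₂) (2τ) < δ,
2τ ≤ 1 − nm x, τ ≤ δ q (1 − nm x)/(2C²).  exists_ahat_eq for the sets U (2τ), O j₀ ∩ Fs s₂ (2τ), U∖O j (τ), all j, and A: one countable A₁ ⊇ A
(unions).  a x U A₁ τ ≥ ahat x U τ ≥ alpha x U ≥ a > a − δ: exists_of_lt_a gives the extension (A₀,A₁',Y).
ahat_split: ahat x (U∖O j) τ ≤ ahat x U (2τ) − ahat x (U∩O j) τ ≤ (a+δ) − a, since U ∩ O j = O (max j₀ j) ∩ Fs s₁ (antitone) has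
ahat ≥ alpha ≥ a.  So nu_Y((U∖O j) ∩ D) ≤ a x (U∖O j) A₁ τ ≤ δ for every j; (U∩D)∖⋂O j is the increasing union of (U∩D)∖O j.
cost: cost_light with k₀ = δ (b ⊆ A ⊆ A₁, Ext.res_of_subset).
-/

open Set Filter Topology MeasureTheory Pool.Agent.H53.ZD

namespace Pool.Agent.ZDB

variable {κ L : Type*} [TopologicalSpace L] [CompactSpace L] [T2Space L] [TotallyDisconnectedSpace L]
  [MeasurableSpace L] [BorelSpace L]

namespace Sys

variable {S : Sys κ L}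

theorem land_A (𝒢 : GoodFam S) {A b : Set κ} (hA : 𝒢.G A) (hb : 𝒢.G b) (hbA : b ⊆ A)
    {x : Ball κ} (hx : x ∈ BA b) (hx1 : nm x < 1) {O : ℕ → Set L} (hO : ∀ j, S.Clop A (O j))
    (hanti : Antitone O) {s₁ s₂ : ℚ} {a δ : ℝ} (hδ : 0 < δ)
    (ha : ∀ j, a ≤ S.alpha x (O j ∩ S.Fs s₁)) {j₀ : ℕ}
    (h1 : S.alpha x (O j₀ ∩ S.Fs s₁) < a + δ) (h2 : S.alpha x (O j₀ ∩ S.Fs s₂) < δ) {q : ℝ}
    (hq : 0 < q) :
    ∃ (A₁ : Set κ) (τ : ℝ) (A₀ A₁' : Set κ) (Y : Ball κ), A₁.Countable ∧ A ⊆ A₁ ∧ 0 < τ ∧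
      2 * τ ≤ 1 - nm x ∧ S.Ext x A₁ A₀ A₁' Y ∧ nm Y < nm x + τ ∧
      S.a x (O j₀ ∩ S.Fs s₁) A₁ (2 * τ) ≤ a + 3 * δ ∧
      S.a x (O j₀ ∩ S.Fs s₂) A₁ (2 * τ) ≤ 3 * δ ∧
      a - δ ≤ (S.nu Y).real (O j₀ ∩ S.Fs s₁ ∩ S.D A₀ A₁') ∧
      (S.nu Y).real ((O j₀ ∩ S.Fs s₁ ∩ S.D A₀ A₁') \ ⋂ j, O j) ≤ 4 * δ ∧
      (S.nu Y).real {l | q < S.cost b l} ≤ δ := by
  classical
  have hC := S.C_pos
  have hx1' : 0 < 1 - nm x := by linarith
  set U : Set L := O j₀ ∩ S.Fs s₁ with hU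
  set U₂ : Set L := O j₀ ∩ S.Fs s₂ with hU₂
  obtain ⟨τa, hτa, hτa'⟩ := S.exists_tau h1
  obtain ⟨τb, hτb, hτb'⟩ := S.exists_tau h2
  set τ : ℝ := min (min (τa / 2) (τb / 2))
    (min ((1 - nm x) / 2) (δ * q * (1 - nm x) / (2 * S.C ^ 2))) with hτ
  have hτpos : 0 < τ := by
    rw [hτ]
    refine lt_min (lt_min (by positivity) (by positivity)) (lt_min (by positivity) (by positivity))
  have hτ1 : 2 * τ ≤ τa := by
    have : τ ≤ τa / 2 := (min_le_left _ _).trans (min_le_left _ _)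
    linarith
  have hτ2 : 2 * τ ≤ τb := by
    have : τ ≤ τb / 2 := (min_le_left _ _).trans (min_le_right _ _)
    linarith
  have hτ3 : 2 * τ ≤ 1 - nm x := by
    have : τ ≤ (1 - nm x) / 2 := (min_le_right _ _).trans (min_le_left _ _)
    linarith
  have hτ4 : τ ≤ δ * q * (1 - nm x) / (2 * S.C ^ 2) :=
    (min_le_right _ _).trans (min_le_right _ _)
  obtain ⟨E₁, hE₁c, hE₁⟩ := S.exists_ahat_eq x U (2 * τ)
  obtain ⟨E₂, hE₂c, hE₂⟩ := S.exists_ahat_eq x U₂ (2 * τ)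
  choose E₃ hE₃c hE₃ using fun j => S.exists_ahat_eq x (U \ O j) τ
  set A₁ : Set κ := A ∪ (E₁ ∪ (E₂ ∪ ⋃ j, E₃ j)) with hA₁
  have hA₁c : A₁.Countable :=
    (𝒢.ret A hA).1.union (hE₁c.union (hE₂c.union (countable_iUnion hE₃c)))
  have hAA₁ : A ⊆ A₁ := subset_union_left
  have hE₁A : E₁ ⊆ A₁ := subset_union_left.trans subset_union_right
  have hE₂A : E₂ ⊆ A₁ :=
    subset_union_left.trans (subset_union_right.trans subset_union_right)
  have hE₃A : ∀ j, E₃ j ⊆ A₁ := fun j =>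
    (subset_iUnion E₃ j).trans
      (subset_union_right.trans (subset_union_right.trans subset_union_right))
  have ha1 : S.a x U A₁ (2 * τ) = S.ahat x U (2 * τ) := hE₁ A₁ hE₁A hA₁c
  have ha2 : S.a x U₂ A₁ (2 * τ) = S.ahat x U₂ (2 * τ) := hE₂ A₁ hE₂A hA₁c
  have ha3 : ∀ j, S.a x (U \ O j) A₁ τ = S.ahat x (U \ O j) τ := fun j => hE₃ j A₁ (hE₃A j) hA₁c
  have hU1 : S.ahat x U (2 * τ) < a + δ := hτa' (2 * τ) (by positivity) hτ1
  have hU2 : S.ahat x U₂ (2 * τ) < δ := hτb' (2 * τ) (by positivity) hτ2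
  have hlt : a - δ < S.a x U A₁ τ := by
    have e1 := S.ahat_le_a (x := x) (U := U) (τ := τ) hA₁c
    have e2 := S.alpha_le_ahat (x := x) (U := U) hτpos
    have e3 := ha j₀
    linarith
  obtain ⟨A₀, A₁', Y, hE, hYn, hYr⟩ := S.exists_of_lt_a hA₁c hτpos hlt
  refine ⟨A₁, τ, A₀, A₁', Y, hA₁c, hAA₁, hτpos, hτ3, hE, hYn, ?_, ?_, hYr.le, ?_, ?_⟩
  · rw [ha1]; linarith
  · rw [ha2]; linarith
  · have hUo : IsOpen U := (hO j₀).1.isOpen.inter (S.isOpen_Fs s₁)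
    have hUup : S.UpperSome U :=
      Sys.UpperSome.inter S (S.upperSome_clopen (hO j₀).1) ⟨∅, countable_empty, S.upper_Fs ∅ s₁⟩
    have hj : ∀ j, (S.nu Y).real ((U ∩ S.D A₀ A₁') \ O j) ≤ δ := by
      intro j
      have e1 : (S.nu Y).real ((U \ O j) ∩ S.D A₀ A₁') ≤ S.a x (U \ O j) A₁ τ := S.le_a hE hYn
      have e2 := S.ahat_split hUo hUup (hO j).1 hτpos hτ3
      have e3 := S.alpha_le_ahat (x := x) (U := U ∩ O j) hτpos
      have e4 : S.alpha x (O (max j₀ j) ∩ S.Fs s₁) ≤ S.alpha x (U ∩ O j) := by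
        refine S.alpha_mono ?_ x
        rintro l ⟨hl1, hl2⟩
        exact ⟨⟨hanti (le_max_left j₀ j) hl1, hl2⟩, hanti (le_max_right j₀ j) hl1⟩
      have e5 := ha (max j₀ j)
      have e6 : (U ∩ S.D A₀ A₁') \ O j = (U \ O j) ∩ S.D A₀ A₁' := by
        ext l; simp only [Set.mem_sdiff, mem_inter_iff]; tauto
      rw [e6]
      rw [ha3] at e1
      linarith
    have hun : (U ∩ S.D A₀ A₁') \ ⋂ j, O j = ⋃ j, (U ∩ S.D A₀ A₁') \ O j := by
      rw [sdiff_iInter]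
    have hmono : Monotone fun j => (U ∩ S.D A₀ A₁') \ O j := by
      intro i j hij
      exact sdiff_subset_sdiff_right (hanti hij)
    rw [hun, measureReal_def, hmono.measure_iUnion]
    refine ENNReal.toReal_le_of_le_ofReal (by positivity) (iSup_le fun j => ?_)
    have := hj j
    rw [measureReal_def] at this
    rw [← ENNReal.ofReal_toReal (measure_ne_top (S.nu Y) ((U ∩ S.D A₀ A₁') \ O j))]
    exact ENNReal.ofReal_le_ofReal (by linarith)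
  · exact S.cost_light (𝒢.rlq b hb) hx hx1 (Sys.Ext.res_of_subset S hE (hbA.trans hAA₁) hx) hq hδ
      hτpos (by linarith) hτ4 hYn


end Sys

end Pool.Agent.ZDB

end

section

/-!
# ZDB/Landing : the landing lemma (README 6.1)
a := inf_j alpha x (O j ∩ Fs s₁) > 0 (bounded below by h1), δ := a/50.  j₀ with alpha x (O j₀ ∩ Fs s₁) < a+δ and alpha x (O j₀∩Fs s₂) < δ
(both quantities decrease in j).  land_A.  b' ⊇ A₁' good; A'' good with Stab b' A'' (exists_stab, Stab.mono).  For each k apply land_B with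
η = 2^{-k}: B_k, K_k; W := O j₀ ∩ Fs s₁ ∩ D A₀ A₁'.
E := ⋂_n ⋃_{k≥n} ρ_{b'}''K_k.  nu_Y(W∖E) ≤ 10δ: W∖E = ⋃_n ⋂_{k≥n}(W∖ρ_{b'}''K_k), increasing union of sets of measure ≤ 10δ.
nu_Y(W) ≥ a−δ = 49δ; the sets W∖⋂O j (≤4δ), O j₀∩Fs s₂∩D A₀ A₁' (≤ a x (O j₀ ∩ Fs s₂) A₁ (2τ) ≤ 3δ since Y is τ-light), {q < cost b} (≤δ),
(LA A₁')ᶜ (0), W∖E (≤10δ) do not cover W: pick l'.  l' ∈ LA A₁' ⊆ LA b'; Fv l' > s₁; Fv l' ≤ s₂; cost b l' ≤ q; l' ∈ O j for all j; l' ∉ LA A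
because l' ∈ D A₀ A₁' (notMem_D, LA A ⊆ LA A₀).
Alive: alive_of_transfer_lim at (b',l') with A'' and d = s₂ − s₁: given ε take k with 2^{-k} ≤ ε and l' ∈ ρ_{b'}''K_k: l'' ∈ K_k, ρ_{b'}l'' = l';
ρ_{A''}l'' ∈ LA b', so ρ_{A''}l'' = ρ_{b'}ρ_{A''}l'' = ρ_{b'}l'' = l'; l'' ≠ l' (l' ∈ LA b', l'' ∉ LA b'); Fv l'' − Fv l' ≤ s₂ − s₁.
-/

open Set Filter Topology MeasureTheory Pool.Agent.H53.ZD

namespace Pool.Agent.ZDB

variable {κ L : Type*} [TopologicalSpace L] [CompactSpace L] [T2Space L] [TotallyDisconnectedSpace L]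
  [MeasurableSpace L] [BorelSpace L]

private theorem real_iUnion_le {X : Type*} [MeasurableSpace X] (μ : Measure X)
    [IsFiniteMeasure μ] {V : ℕ → Set X} (hV : Monotone V) {r : ℝ} (hr : 0 ≤ r)
    (h : ∀ n, μ.real (V n) ≤ r) : μ.real (⋃ n, V n) ≤ r := by
  rw [measureReal_def, hV.measure_iUnion]
  refine ENNReal.toReal_le_of_le_ofReal hr (iSup_le fun n => ?_)
  rw [← ENNReal.ofReal_toReal (measure_ne_top μ (V n))]
  exact ENNReal.ofReal_le_ofReal (h n)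

namespace Sys

variable {S : Sys κ L}

theorem landing (𝒢 : GoodFam S) {A b : Set κ} (hA : 𝒢.G A) (hb : 𝒢.G b) (hbA : b ⊆ A)
    {x : Ball κ} (hx : x ∈ BA b) (hx1 : nm x < 1) {O : ℕ → Set L} (hO : ∀ j, S.Clop A (O j))
    (hanti : Antitone O) {s₁ s₂ : ℚ} (hs : (s₂ : ℝ) - s₁ < 1 / (8 * S.C ^ 2))
    (h1 : ∃ a : ℝ, 0 < a ∧ ∀ j, a ≤ S.alpha x (O j ∩ S.Fs s₁))
    (h2 : ∀ ε : ℝ, 0 < ε → ∃ j, S.alpha x (O j ∩ S.Fs s₂) < ε) {q : ℝ} (hq : 0 < q) :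
    ∃ (b' : Set κ) (l' : L), 𝒢.G b' ∧ A ⊆ b' ∧ l' ∈ S.LA b' ∧ (∀ j, l' ∈ O j) ∧ l' ∉ S.LA A ∧
      (s₁ : ℝ) < S.Fv l' ∧ S.Fv l' ≤ s₂ ∧ S.cost b l' ≤ q ∧ S.Alive b' l' := by
  obtain ⟨a₀, ha₀, hle⟩ := h1
  have hbdd : BddBelow (range fun j => S.alpha x (O j ∩ S.Fs s₁)) := by
    refine ⟨a₀, ?_⟩
    rintro _ ⟨j, rfl⟩
    exact hle j
  obtain ⟨a, ha⟩ : ∃ a : ℝ, a = ⨅ j, S.alpha x (O j ∩ S.Fs s₁) := ⟨_, rfl⟩
  have hapos : 0 < a := by
    rw [ha]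
    exact ha₀.trans_le (le_ciInf hle)
  have haj : ∀ j, a ≤ S.alpha x (O j ∩ S.Fs s₁) := by
    intro j
    rw [ha]
    exact ciInf_le hbdd j
  obtain ⟨δ, hδ'⟩ : ∃ δ : ℝ, δ = a / 50 := ⟨_, rfl⟩
  have hδ : 0 < δ := by
    rw [hδ']
    positivity
  obtain ⟨j₁, hj₁⟩ : ∃ j, S.alpha x (O j ∩ S.Fs s₁) < a + δ := by
    refine exists_lt_of_ciInf_lt ?_
    rw [← ha]
    linarith
  obtain ⟨j₂, hj₂⟩ := h2 δ hδ
  obtain ⟨j₀, hj₀⟩ : ∃ j₀, j₀ = max j₁ j₂ := ⟨_, rfl⟩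
  have hO1 : O j₀ ⊆ O j₁ := hanti (by rw [hj₀]; exact le_max_left _ _)
  have hO2 : O j₀ ⊆ O j₂ := hanti (by rw [hj₀]; exact le_max_right _ _)
  have hj1' : S.alpha x (O j₀ ∩ S.Fs s₁) < a + δ :=
    (S.alpha_mono (inter_subset_inter_left _ hO1) x).trans_lt hj₁
  have hj2' : S.alpha x (O j₀ ∩ S.Fs s₂) < δ :=
    (S.alpha_mono (inter_subset_inter_left _ hO2) x).trans_lt hj₂
  obtain ⟨A₁, τ, A₀, A₁', Y, hA₁c, hAA₁, hτ, h2τ, hE, hY, h3, h4, h5, h6, h7⟩ :=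
    land_A 𝒢 hA hb hbA hx hx1 hO hanti hδ haj hj1' hj2' hq
  obtain ⟨b', hAb', hGb'⟩ := 𝒢.cofinal A₁' hE.ret₁.1
  obtain ⟨A₂, hst⟩ := S.exists_stab (𝒢.ret b' hGb')
  obtain ⟨A'', hA₂, hGA''⟩ := 𝒢.cofinal A₂ hst.2.1
  have hst' : S.Stab b' A'' := Stab.mono S hst hA₂ (𝒢.countable _ hGA'')
  have hxA : x ∈ BA A := BA_mono hbA hx
  have key : ∀ k : ℕ, ∃ (B₁ : Set κ) (K : Set L), S.Ret B₁ ∧ A'' ⊆ B₁ ∧ IsCompact K ∧
      (∀ l'' ∈ K, l'' ∈ S.LA B₁ ∧ l'' ∉ S.LA b' ∧ S.rho A'' l'' ∈ S.LA b' ∧ S.Fv l'' ≤ s₂ ∧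
        S.cost b' l'' ≤ 1 / ((k : ℝ) + 1)) ∧
      (S.nu Y).real ((O j₀ ∩ S.Fs s₁ ∩ S.D A₀ A₁') \ (S.rho b' '' K)) ≤ 10 * δ := fun k =>
    land_B 𝒢 hA hxA (hO j₀) hδ hτ h2τ hAA₁ hE hY h3 h4 (haj j₀) hGb' hAb' hGA'' hst'
      (by positivity)
  choose B K hB hAB hK hKp hKm using key
  obtain ⟨W, hW⟩ : ∃ W : Set L, W = O j₀ ∩ S.Fs s₁ ∩ S.D A₀ A₁' := ⟨_, rfl⟩
  rw [← hW] at h5 h6
  have hKm' : ∀ k, (S.nu Y).real (W \ (S.rho b' '' K k)) ≤ 10 * δ := by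
    intro k
    rw [hW]
    exact hKm k
  -- the bad set of the compact sets
  obtain ⟨V, hV⟩ : ∃ V : ℕ → Set L, V = fun n => {l | l ∈ W ∧ ∀ k, n ≤ k → l ∉ S.rho b' '' K k} :=
    ⟨_, rfl⟩
  have hVmono : Monotone V := by
    intro n n' hn l hl
    rw [hV] at hl ⊢
    exact ⟨hl.1, fun k hk => hl.2 k (hn.trans hk)⟩
  have hVm : (S.nu Y).real (⋃ n, V n) ≤ 10 * δ := by
    refine real_iUnion_le _ hVmono (by positivity) fun n => ?_
    refine (measureReal_mono (fun l hl => ?_)).trans (hKm' n)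
    rw [hV] at hl
    exact ⟨hl.1, hl.2 n le_rfl⟩
  have h8 : (S.nu Y).real (O j₀ ∩ S.Fs s₂ ∩ S.D A₀ A₁') ≤ 3 * δ :=
    (S.le_a hE (by linarith)).trans h4
  have h9 : (S.nu Y).real (S.LA A₁')ᶜ = 0 := by
    rw [measureReal_def, S.nu_compl_LA hE.ret₁ hE.memY, ENNReal.toReal_zero]
  -- a point of `W` outside the bad sets
  obtain ⟨l', hl'W, hl'⟩ : ∃ l' ∈ W, l' ∉ (W \ ⋂ j, O j) ∪ (O j₀ ∩ S.Fs s₂ ∩ S.D A₀ A₁') ∪
      {l | q < S.cost b l} ∪ (S.LA A₁')ᶜ ∪ (⋃ n, V n) := by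
    by_contra hcon
    push Not at hcon
    have h10 : (S.nu Y).real W ≤ 4 * δ + 3 * δ + δ + 0 + 10 * δ := by
      refine (measureReal_mono hcon).trans ?_
      refine (measureReal_union_le _ _).trans (add_le_add ?_ hVm)
      refine (measureReal_union_le _ _).trans (add_le_add ?_ h9.le)
      refine (measureReal_union_le _ _).trans (add_le_add ?_ h7)
      exact (measureReal_union_le _ _).trans (add_le_add h6 h8)
    have h11 : a = 50 * δ := by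
      rw [hδ']
      ring
    linarith
  simp only [mem_union, not_or] at hl'
  obtain ⟨⟨⟨⟨hn1, hn2⟩, hn3⟩, hn4⟩, hn5⟩ := hl'
  have hl'W' := hl'W
  rw [hW] at hl'W'
  obtain ⟨⟨hlO, hlF⟩, hlD⟩ := hl'W'
  have hOj : ∀ j, l' ∈ O j := by
    by_contra hcon
    exact hn1 ⟨hl'W, fun h => hcon fun j => mem_iInter.1 h j⟩
  have hFle : S.Fv l' ≤ s₂ := by
    by_contra hcon
    push Not at hcon
    exact hn2 ⟨⟨hlO, hcon⟩, hlD⟩
  have hcost : S.cost b l' ≤ q := by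
    by_contra hcon
    push Not at hcon
    exact hn3 hcon
  have hLA1 : l' ∈ S.LA A₁' := by
    by_contra hcon
    exact hn4 hcon
  have hLAb' : l' ∈ S.LA b' := S.LA_mono hE.ret₁ (𝒢.ret b' hGb') hAb' hLA1
  have hAA₀ : A ⊆ A₀ := hAA₁.trans hE.sub₀
  have hnLA : l' ∉ S.LA A := fun h =>
    S.notMem_D hE.ret₀ hE.ret₁ hE.sub₁ (S.LA_mono (𝒢.ret A hA) hE.ret₀ hAA₀ h) hlD
  refine ⟨b', l', hGb', (hAA₀.trans hE.sub₁).trans hAb', hLAb', hOj, hnLA, hlF, hFle, hcost, ?_⟩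
  refine S.alive_of_transfer_lim (𝒢.ret b' hGb') (𝒢.rlq b' hGb') (𝒢.ret A'' hGA'') hst' hLAb'
    hs fun ε hε => ?_
  obtain ⟨n, hn⟩ := exists_nat_one_div_lt hε
  have hex : ∃ k, n ≤ k ∧ l' ∈ S.rho b' '' K k := by
    by_contra hcon
    push Not at hcon
    refine hn5 (mem_iUnion.2 ⟨n, ?_⟩)
    rw [hV]
    exact ⟨hl'W, hcon⟩
  obtain ⟨k, hk, l'', hl'', hρ⟩ := hex
  obtain ⟨g1, g2, g3, g4, g5⟩ := hKp k l'' hl''
  refine ⟨B k, l'', hB k, hAB k, g1, ?_, ?_, ?_, ?_⟩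
  · have e1 : S.rho b' (S.rho A'' l'') = S.rho A'' l'' := g3
    have e2 := S.rho_rho (𝒢.ret b' hGb') (𝒢.ret A'' hGA'') hst'.1 l''
    rw [← e1, e2, hρ]
  · intro h
    rw [h] at g2
    exact g2 hLAb'
  · have : (s₁ : ℝ) < S.Fv l' := hlF
    linarith
  · refine g5.trans (le_trans ?_ hn.le)
    have : (n : ℝ) ≤ k := by exact_mod_cast hk
    exact one_div_le_one_div_of_le (by positivity) (by linarith)

end Sys

end Pool.Agent.ZDB

end

section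

/-!
# ZDB/LandCor : corollaries of the landing lemma (README 6.2)
* start: WLOG ε₀ small.  Rationals s₁ ∈ (Sig − ε₀, Sig), s₂ > Sig with s₂ − s₁ < 1/(8C²).  exists_of_lt_Sig: x with alpha x (Fs s₁) > 0 (so nm x < 1,
  alpha_eq_zero_of_nm); A = b good with x ∈ BA b (exists_countable_BA); O j = univ; landing with q = 1.
* next: WLOG ε < 1/(8C²).  Rationals s₁ ∈ (sb − ε/2, sb), s₂ ∈ (sb, sb+ε/2).  exists_of_lt_sb: x ∈ BA b with ab x l s₁ > 0 (nm_lt_one_of_ab).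
  exists_seq (at A; l ∈ LA b ⊆ LA A): O_j ∈ Clop A decreasing.  alpha x (O_j∩Fs s₁) ≥ ab x l s₁ =: a (ab_le).  ab x l s₂ = 0
  (ab_eq_zero_of_sb_lt), so exists_clop_of_ab_lt (at A, x ∈ BA A) gives for ε' > 0 an O ∈ Clop A, l ∈ O, alpha x (O∩Fs s₂) < ε', and O_j ⊆ O for
  some j.  landing gives (b',l'): l' ∈ ⋂O_j; ρ_A l' ∈ (⋂O_j)∩LA A = {l} (Clop.mem_iff); l' ≠ l since l' ∉ LA A; s₁ < Fv l' ≤ s₂.
* T: transfer_lim with A good, Stab b A, d = sb b l − Fv l: nodes from `next` with q = ε, and ε.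
-/

open Set Filter Topology MeasureTheory Pool.Agent.H53.ZD

namespace Pool.Agent.ZDB

variable {κ L : Type*} [TopologicalSpace L] [CompactSpace L] [T2Space L] [TotallyDisconnectedSpace L]
  [MeasurableSpace L] [BorelSpace L]

namespace Sys

variable {S : Sys κ L}

theorem start [Uncountable κ] (𝒢 : GoodFam S) {ε₀ : ℝ} (hε : 0 < ε₀) :
    ∃ (b : Set κ) (l : L), 𝒢.G b ∧ l ∈ S.LA b ∧ S.Alive b l ∧ S.Sig - ε₀ < S.Fv l := by
  have hC := S.C_pos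
  set ε₁ : ℝ := min ε₀ (1 / (8 * S.C ^ 2)) with hε₁
  have hpos : 0 < ε₁ := lt_min hε (by positivity)
  have hle0 : ε₁ ≤ ε₀ := min_le_left _ _
  have hle1 : ε₁ ≤ 1 / (8 * S.C ^ 2) := min_le_right _ _
  obtain ⟨s₁, hs1, hs1'⟩ := exists_rat_btwn (show S.Sig - ε₁ / 2 < S.Sig by linarith)
  obtain ⟨s₂, hs2, hs2'⟩ := exists_rat_btwn (show S.Sig < S.Sig + ε₁ / 2 by linarith)
  obtain ⟨x, hx⟩ := S.exists_of_lt_Sig hs1'
  have hx1 : nm x < 1 := by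
    rcases (nm_le_one x).lt_or_eq with h | h
    · exact h
    · rw [S.alpha_eq_zero_of_nm h] at hx
      exact absurd hx (lt_irrefl _)
  obtain ⟨b₀, hb₀c, hxb₀⟩ := exists_countable_BA x
  obtain ⟨b, hb₀b, hb⟩ := 𝒢.exists_superset hb₀c
  have hxb : x ∈ BA b := BA_mono hb₀b hxb₀
  obtain ⟨b', l', h1, h2, h3, -, -, h6, -, -, h9⟩ :=
    landing 𝒢 hb hb (Subset.refl b) hxb hx1 (O := fun _ => univ) (fun _ => S.clop_univ b)
      antitone_const (s₁ := s₁) (s₂ := s₂) (by linarith)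
      ⟨S.alpha x (S.Fs s₁), hx, fun j => by rw [univ_inter]⟩
      (fun ε hε => ⟨0, by
        simp only [univ_inter]
        rw [S.alpha_eq_zero_of_Sig_lt hs2]; exact hε⟩) (q := 1) one_pos
  exact ⟨b', l', h1, h3, h9, by linarith⟩

theorem next (𝒢 : GoodFam S) {b A : Set κ} (hb : 𝒢.G b) {l : L} (hl : l ∈ S.LA b)
    (ha : S.Alive b l) (hA : 𝒢.G A) (hbA : b ⊆ A) {q ε : ℝ} (hq : 0 < q) (hε : 0 < ε) :
    ∃ (b' : Set κ) (l' : L), 𝒢.G b' ∧ A ⊆ b' ∧ l' ∈ S.LA b' ∧ S.rho A l' = l ∧ l' ≠ l ∧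
      S.sb b l - ε < S.Fv l' ∧ S.Fv l' < S.sb b l + ε ∧ S.cost b l' ≤ q ∧ S.Alive b' l' := by
  have hC := S.C_pos
  set ε₁ : ℝ := min ε (1 / (8 * S.C ^ 2)) with hε₁
  have hpos : 0 < ε₁ := lt_min hε (by positivity)
  have hle0 : ε₁ ≤ ε := min_le_left _ _
  have hle1 : ε₁ ≤ 1 / (8 * S.C ^ 2) := min_le_right _ _
  obtain ⟨s₁, hs1, hs1'⟩ := exists_rat_btwn (show S.sb b l - ε₁ / 2 < S.sb b l by linarith)
  obtain ⟨s₂, hs2, hs2'⟩ := exists_rat_btwn (show S.sb b l < S.sb b l + ε₁ / 2 by linarith)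
  obtain ⟨x, hx, hxpos⟩ := S.exists_of_lt_sb ha hs1'
  have hx1 : nm x < 1 := S.nm_lt_one_of_ab hxpos
  have hrA := 𝒢.ret A hA
  have hrb := 𝒢.ret b hb
  have hlA : l ∈ S.LA A := S.LA_mono hrb hrA hbA hl
  obtain ⟨O, hanti, hO, hlO, hmin, hi⟩ := S.exists_seq hrA hlA
  obtain ⟨b', l', h1, h2, h3, h4, h5, h6, h7, h8, h9⟩ :=
    landing 𝒢 hA hb hbA hx hx1 hO hanti (s₁ := s₁) (s₂ := s₂) (by linarith)
      ⟨S.ab x l s₁, hxpos, fun j => S.ab_le (hO j).1 (hlO j)⟩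
      (fun ε' hε' => by
        have h0 : S.ab x l s₂ < ε' := by
          rw [S.ab_eq_zero_of_sb_lt hs2 hx]; exact hε'
        obtain ⟨O', hO', hlO', hlt⟩ :=
          S.exists_clop_of_ab_lt hrA (𝒢.rlq A hA) (BA_mono hbA hx) hlA h0
        obtain ⟨j, hj⟩ := hmin O' hO' hlO'
        exact ⟨j, lt_of_le_of_lt (S.alpha_mono (inter_subset_inter_left _ hj) x) hlt⟩) hq
  have hρ : S.rho A l' ∈ (⋂ j, O j) ∩ S.LA A :=
    ⟨mem_iInter.2 fun j => ((hO j).mem_iff S l').2 (h4 j), S.rho_mem_LA hrA l'⟩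
  rw [hi] at hρ
  refine ⟨b', l', h1, h2, h3, hρ, ?_, by linarith, by linarith, h8, h9⟩
  rintro rfl
  exact h5 hlA

theorem lam_T (𝒢 : GoodFam S) {b : Set κ} (hb : 𝒢.G b) {l : L} (hl : l ∈ S.LA b)
    (ha : S.Alive b l) {t : ℝ} (ht : 0 < t) :
    (S.lam l).real {y : Ball κ | y ∈ BA b ∧ S.ab0 y l < (S.nu y).real {l} - t} ≤
      (S.sb b l - S.Fv l) / t := by
  obtain ⟨A₀, hst₀⟩ := S.exists_stab (𝒢.ret b hb)
  obtain ⟨A, hA₀A, hA⟩ := 𝒢.exists_superset hst₀.2.1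
  have hst : S.Stab b A := hst₀.mono S hA₀A (𝒢.countable A hA)
  refine S.transfer_lim (𝒢.ret b hb) (𝒢.rlq b hb) (𝒢.ret A hA) hst hl ht ?_
  intro ε hε
  obtain ⟨b', l', h1, h2, h3, h4, h5, h6, h7, h8, h9⟩ :=
    next 𝒢 hb hl ha hA hst.1 hε hε
  exact ⟨b', l', 𝒢.ret b' h1, h2, h3, h4, h5, by linarith, h8⟩

end Sys

end Pool.Agent.ZDB

end

section

/-!
# ZDB/NearMin : near minimal values of 𝔱 over a node
For p = (A,q,e) (A ⊇ b good, q, e > 0) i(p) := inf of tt b' l' over Cls b l A q e (nonempty by `next`, values in [0, C²]).  i is increasing when p is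
strengthened (A larger: ρ_A l' = ρ_A ρ_A' l').  ι := sup_p i(p).  Ap, qp, ep: some p with i(p) > ι − ε.  For arbitrary p: some node with
tt < i(p) + ε ≤ ι + ε.  (p ranges over a nonempty set: A exists by cofinality.)
-/

open Set Filter Topology MeasureTheory Pool.Agent.H53.ZD

namespace Pool.Agent.ZDB

variable {κ L : Type*} [TopologicalSpace L] [CompactSpace L] [T2Space L] [TotallyDisconnectedSpace L]
  [MeasurableSpace L] [BorelSpace L]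

namespace Sys

variable {S : Sys κ L}

/-- alive nodes over `(b,l)` with parameters `(A,q,e)` -/
def Cls (𝒢 : GoodFam S) (b : Set κ) (l : L) (A : Set κ) (q e : ℝ) (b' : Set κ) (l' : L) : Prop :=
  𝒢.G b' ∧ A ⊆ b' ∧ l' ∈ S.LA b' ∧ S.rho A l' = l ∧ l' ≠ l ∧ S.Alive b' l' ∧ S.cost b l' ≤ q ∧
    S.sb b l - e < S.Fv l'

private theorem nearMin_nonempty (𝒢 : GoodFam S) {b : Set κ} (hb : 𝒢.G b) {l : L}
    (hl : l ∈ S.LA b) (ha : S.Alive b l) {A : Set κ} {q e : ℝ} (hA : 𝒢.G A) (hbA : b ⊆ A)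
    (hq : 0 < q) (he : 0 < e) :
    {r : ℝ | ∃ b' l', Cls 𝒢 b l A q e b' l' ∧ r = S.tt b' l'}.Nonempty := by
  obtain ⟨b', l', h1, h2, h3, h4, h5, h6, h7, h8, h9⟩ := next 𝒢 hb hl ha hA hbA hq he
  exact ⟨S.tt b' l', b', l', ⟨h1, h2, h3, h4, h5, h9, h8, h6⟩, rfl⟩

theorem exists_near_min (𝒢 : GoodFam S) {b : Set κ} (hb : 𝒢.G b) {l : L} (hl : l ∈ S.LA b)
    (ha : S.Alive b l) {ε : ℝ} (hε : 0 < ε) :
    ∃ (Ap : Set κ) (qp ep ι : ℝ), 𝒢.G Ap ∧ b ⊆ Ap ∧ 0 < qp ∧ 0 < ep ∧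
      (∀ b' l', Cls 𝒢 b l Ap qp ep b' l' → ι - ε ≤ S.tt b' l') ∧
      ∀ (A : Set κ) (q e : ℝ), 𝒢.G A → b ⊆ A → 0 < q → 0 < e →
        ∃ b' l', Cls 𝒢 b l A q e b' l' ∧ S.tt b' l' ≤ ι + ε := by
  classical
  let V : Set κ → ℝ → ℝ → Set ℝ := fun A q e => {r : ℝ | ∃ b' l', Cls 𝒢 b l A q e b' l' ∧ r = S.tt b' l'}
  have hVbd : ∀ A q e, BddBelow (V A q e) := by
    intro A q e
    refine ⟨0, ?_⟩
    rintro r ⟨b', l', -, rfl⟩
    exact S.tt_nonneg b' l'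
  have hVne : ∀ A q e, 𝒢.G A → b ⊆ A → 0 < q → 0 < e → (V A q e).Nonempty := by
    intro A q e hA hbA hq he
    exact nearMin_nonempty 𝒢 hb hl ha hA hbA hq he
  let I : Set ℝ := {r : ℝ | ∃ A q e, 𝒢.G A ∧ b ⊆ A ∧ 0 < q ∧ 0 < e ∧ r = sInf (V A q e)}
  have hIbd : BddAbove I := by
    refine ⟨S.C ^ 2, ?_⟩
    rintro r ⟨A, q, e, hA, hbA, hq, he, rfl⟩
    obtain ⟨r, hr⟩ := hVne A q e hA hbA hq he
    refine (csInf_le (hVbd A q e) hr).trans ?_
    obtain ⟨b', l', -, rfl⟩ := hr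
    exact S.tt_le b' l'
  have hIne : I.Nonempty := ⟨sInf (V b 1 1), b, 1, 1, hb, Subset.rfl, one_pos, one_pos, rfl⟩
  obtain ⟨r, ⟨Ap, qp, ep, hAp, hbAp, hqp, hep, rfl⟩, hr⟩ :=
    exists_lt_of_lt_csSup hIne (sub_lt_self (sSup I) hε)
  refine ⟨Ap, qp, ep, sSup I, hAp, hbAp, hqp, hep, ?_, ?_⟩
  · intro b' l' hc
    exact hr.le.trans (csInf_le (hVbd Ap qp ep) ⟨b', l', hc, rfl⟩)
  · intro A q e hA hbA hq he
    have h1 : sInf (V A q e) < sSup I + ε := by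
      have : sInf (V A q e) ≤ sSup I := le_csSup hIbd ⟨A, q, e, hA, hbA, hq, he, rfl⟩
      linarith
    obtain ⟨r, ⟨b', l', hc, rfl⟩, hr'⟩ := exists_lt_of_csInf_lt (hVne A q e hA hbA hq he) h1
    exact ⟨b', l', hc, hr'.le⟩

end Sys

end Pool.Agent.ZDB

end

section

/-!
# ZDB/ChainStep : one step of the ω-chain (README 7.1)
Given an alive good node (b,l) with Fv l > Sig − 1/(64C²) and θ₀ > 0, k:
1. (Ap,qp,ep,ι) from exists_near_min with ε = (1/2)^k.   2. τ' from exists_modulus with ε = (1/2)^k.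
3. θ := min of θ₀, qp, ep, τ' (positive).  4. e := min ((1/4)^k/(256C²)·θ) .. (positive), s rational in (sb b l, sb b l + e].
5. `conv` with ε₀ = 1/(64C²), ω₀ = 1/(8C) and s (ab x l s = 0 for x ∈ BA b by ab_eq_zero_of_sb_lt): a countable A_c, τ.
6. θ' := min θ τ;  q := (1/4)^k/(256C²)·θ'.
7. A good ⊇ A_c ∪ Ap ∪ b (so Stab b A and the convergence property hold).
8. exists_near_min's last clause for (A, q, e): the next node (b',l') ∈ Cls b l A q e with tt b' l' ≤ ι + (1/2)^k.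
minim: a node over (b,l) with A ⊆ b'', ρ_A l'' = l is in Cls b l Ap qp ep (Ap ⊆ A: ρ_Ap l'' = ρ_Ap ρ_A l'' = ρ_Ap l = l), so
tt b' l' − 2(1/2)^k ≤ ι − (1/2)^k ≤ tt b'' l''.
-/

open Set Filter Topology MeasureTheory Pool.Agent.H53.ZD

namespace Pool.Agent.ZDB

variable {κ L : Type*} [TopologicalSpace L] [CompactSpace L] [T2Space L] [TotallyDisconnectedSpace L]
  [MeasurableSpace L] [BorelSpace L]

namespace Sys

variable {S : Sys κ L}

/-- the data of one step -/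
structure StepOut (𝒢 : GoodFam S) (k : ℕ) (b : Set κ) (l : L) (θ₀ : ℝ) where
  A : Set κ
  s : ℚ
  τ : ℚ
  τ' : ℚ
  e : ℝ
  q : ℝ
  qp : ℝ
  ep : ℝ
  θ : ℝ
  θ' : ℝ
  b' : Set κ
  l' : L
  good : 𝒢.G b'
  memL : l' ∈ S.LA b'
  alive : S.Alive b' l'
  goodA : 𝒢.G A
  stab : S.Stab b A
  subA : A ⊆ b'
  rhoA : S.rho A l' = l
  ne : l' ≠ l
  e_pos : 0 < e
  q_pos : 0 < q
  τ_pos : 0 < τ
  τ'_pos : 0 < τ'
  qp_pos : 0 < qp
  ep_pos : 0 < ep
  θ_pos : 0 < θ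
  θ'_pos : 0 < θ'
  c1 : S.sb b l - e < S.Fv l'
  costq : S.cost b l' ≤ q
  s_gt : S.sb b l < s
  s_le : (s : ℝ) ≤ S.sb b l + e
  conv : ∀ (b'' : Set κ) (l'' : L), S.Ret b'' → A ⊆ b'' → l'' ∈ S.LA b'' → S.rho A l'' = l →
    l'' ≠ l → S.Fv l'' - S.Fv l ≤ 1 / (64 * S.C ^ 2) →
    (S.lam l'').real {y | (τ : ℝ) ≤ Ball.mass bᶜ y} ≤ 1 / (8 * S.C) → S.Fv l'' ≤ s
  minim : ∀ (b'' : Set κ) (l'' : L), Cls 𝒢 b l A qp ep b'' l'' →
    S.tt b' l' - 2 * (1 / 2) ^ k ≤ S.tt b'' l''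
  modI : S.errI b l τ' ≤ (1 / 2) ^ k
  modM : (S.lam l).real {y : Ball κ | 1 - 2 * (τ' : ℝ) < nm (Ball.res b y) ∧
    nm (Ball.res b y) < 1} ≤ (1 / 2) ^ k
  θ_le : θ ≤ θ₀
  θ_qp : θ ≤ qp
  θ_ep : θ ≤ ep
  θ_τ' : θ ≤ τ'
  e_le : e ≤ (1 / 4) ^ k * (1 / (256 * S.C ^ 2)) * θ
  θ'_le : θ' ≤ θ
  θ'_τ : θ' ≤ τ
  q_le : q ≤ (1 / 4) ^ k * (1 / (256 * S.C ^ 2)) * θ'

theorem exists_stepOut (𝒢 : GoodFam S) (k : ℕ) {b : Set κ} (hb : 𝒢.G b) {l : L}
    (hl : l ∈ S.LA b) (ha : S.Alive b l) {θ₀ : ℝ} (hθ₀ : 0 < θ₀) :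
    Nonempty (StepOut 𝒢 k b l θ₀) := by
  classical
  have hCpos : 0 < S.C := lt_of_lt_of_le one_pos S.one_le
  have hk : (0:ℝ) < (1 / 2) ^ k := by positivity
  obtain ⟨Ap, qp, ep, ι, hAp, hbAp, hqp, hep, hmin, hnext⟩ := exists_near_min 𝒢 hb hl ha hk
  have hbR : S.Ret b := 𝒢.ret b hb
  have hApR : S.Ret Ap := 𝒢.ret Ap hAp
  obtain ⟨τ', hτ', hmodI, hmodM⟩ := S.exists_modulus hbR l hk
  set θ : ℝ := min (min θ₀ qp) (min ep (τ' : ℝ)) with hθdef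
  have hτ'R : (0:ℝ) < τ' := by exact_mod_cast hτ'
  have hθ : 0 < θ := lt_min (lt_min hθ₀ hqp) (lt_min hep hτ'R)
  set e : ℝ := (1 / 4) ^ k * (1 / (256 * S.C ^ 2)) * θ with hedef
  have he : 0 < e := by rw [hedef]; positivity
  obtain ⟨s, hs1, hs2⟩ := exists_rat_btwn (lt_add_of_pos_right (S.sb b l) he)
  obtain ⟨Ac, τ, hAcc, hbAc, hτ, hconv⟩ := conv (S := S) 𝒢 hb hl
    (ε₀ := 1 / (64 * S.C ^ 2)) (ω₀ := 1 / (8 * S.C)) le_rfl le_rfl (s := s)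
    (fun x hx => S.ab_eq_zero_of_sb_lt hs1 hx)
  have hτR : (0:ℝ) < τ := by exact_mod_cast hτ
  set θ' : ℝ := min θ (τ : ℝ) with hθ'def
  have hθ' : 0 < θ' := lt_min hθ hτR
  set q : ℝ := (1 / 4) ^ k * (1 / (256 * S.C ^ 2)) * θ' with hqdef
  have hq : 0 < q := by rw [hqdef]; positivity
  obtain ⟨A, hAsub, hA⟩ := 𝒢.exists_superset
    ((hAcc.union hApR.1).union hbR.1)
  have hAcA : Ac ⊆ A := fun x hx => hAsub (Or.inl (Or.inl hx))
  have hApA : Ap ⊆ A := fun x hx => hAsub (Or.inl (Or.inr hx))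
  have hbA : b ⊆ A := fun x hx => hAsub (Or.inr hx)
  have hAR : S.Ret A := 𝒢.ret A hA
  obtain ⟨hstab, hconvA⟩ := hconv A hAcA hA
  obtain ⟨b', l', hc, htt⟩ := hnext A q e hA hbA hq he
  obtain ⟨h1, h2, h3, h4, h5, h6, h7, h8⟩ := hc
  refine ⟨{ A := A, s := s, τ := τ, τ' := τ', e := e, q := q, qp := qp, ep := ep, θ := θ,
            θ' := θ', b' := b', l' := l', good := h1, memL := h3, alive := h6, goodA := hA,
            stab := hstab, subA := h2, rhoA := h4, ne := h5, e_pos := he, q_pos := hq,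
            τ_pos := hτ, τ'_pos := hτ', qp_pos := hqp, ep_pos := hep, θ_pos := hθ,
            θ'_pos := hθ', c1 := h8, costq := h7, s_gt := hs1, s_le := hs2.le,
            conv := hconvA, minim := ?_, modI := hmodI, modM := hmodM,
            θ_le := (min_le_left _ _).trans (min_le_left _ _),
            θ_qp := (min_le_left _ _).trans (min_le_right _ _),
            θ_ep := (min_le_right _ _).trans (min_le_left _ _),
            θ_τ' := (min_le_right _ _).trans (min_le_right _ _),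
            e_le := le_rfl, θ'_le := min_le_left _ _, θ'_τ := min_le_right _ _,
            q_le := le_rfl }⟩
  intro b'' l'' hc''
  obtain ⟨g1, g2, g3, g4, g5, g6, g7, g8⟩ := hc''
  have hlAp : l ∈ S.LA Ap := S.LA_mono hbR hApR hbAp hl
  have hrho : S.rho Ap l'' = l := by
    have e1 := S.rho_rho hApR hAR hApA l''
    rw [g4] at e1
    rw [← e1]
    exact hlAp
  have hm := hmin b'' l'' ⟨g1, hApA.trans g2, g3, hrho, g5, g6, g7, g8⟩
  linarith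

end Sys

end Pool.Agent.ZDB

end

section

/-!
# ZDB/Chain : the ω-chain (README 7.1)
exists_chain: `start` with ε₀ = 1/(64C²) gives (b 0, l 0).  room: by `lam_T` with t = 1/(4C): lam_{l₀}{y ∈ BA b₀ | ab0 y l₀ < nu_y{l₀} − 1/(4C)} ≤
4C(sb − Fv l₀) ≤ 4C/(64C²) = 1/(16C) (sb ≤ Sig); if nm y = 1 and nu_y{l₀} ≥ 1/(2C) then y (∈ BA b₀) is in this set (ab0 = 0); so with
meas_atom_ge lam_{l₀}{nu_y{l₀} ≥ 1/(2C), nm y < 1} ≥ 1/(2C) − 1/(16C) = 7/(16C) > 3/(8C), and by continuity from below there is r₀ > 0 with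
lam_{l₀}{.., nm y ≤ 1 − r₀} ≥ 3/(8C).  θ₀ at stage 0 := min 1 r₀; at stage k+1 := θ' k.
Recursion on the states (b, l, θ₀) with proofs, using `exists_stepOut` (Nonempty → Classical.choice); all fields are read off from the StepOut of stage k.
(top for all k is in ChainFin.)
-/

open Set Filter Topology MeasureTheory Pool.Agent.H53.ZD

namespace Pool.Agent.ZDB

variable {κ L : Type*} [TopologicalSpace L] [CompactSpace L] [T2Space L] [TotallyDisconnectedSpace L]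
  [MeasurableSpace L] [BorelSpace L]

namespace Sys

variable {S : Sys κ L}

/-- the ω-chain -/
structure Chain (𝒢 : GoodFam S) where
  b : ℕ → Set κ
  l : ℕ → L
  A : ℕ → Set κ
  s : ℕ → ℚ
  τ : ℕ → ℚ
  τ' : ℕ → ℚ
  e : ℕ → ℝ
  q : ℕ → ℝ
  qp : ℕ → ℝ
  ep : ℕ → ℝ
  θ : ℕ → ℝ
  θ' : ℕ → ℝ
  r₀ : ℝ
  good : ∀ k, 𝒢.G (b k)
  memL : ∀ k, l k ∈ S.LA (b k)
  alive : ∀ k, S.Alive (b k) (l k)
  top : S.Sig - 1 / (64 * S.C ^ 2) < S.Fv (l 0)
  goodA : ∀ k, 𝒢.G (A k)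
  stab : ∀ k, S.Stab (b k) (A k)
  subA : ∀ k, A k ⊆ b (k + 1)
  rhoA : ∀ k, S.rho (A k) (l (k + 1)) = l k
  ne : ∀ k, l (k + 1) ≠ l k
  e_pos : ∀ k, 0 < e k
  q_pos : ∀ k, 0 < q k
  τ_pos : ∀ k, 0 < τ k
  τ'_pos : ∀ k, 0 < τ' k
  qp_pos : ∀ k, 0 < qp k
  ep_pos : ∀ k, 0 < ep k
  θ_pos : ∀ k, 0 < θ k
  θ'_pos : ∀ k, 0 < θ' k
  c1 : ∀ k, S.sb (b k) (l k) - e k < S.Fv (l (k + 1))
  costq : ∀ k, S.cost (b k) (l (k + 1)) ≤ q k
  s_gt : ∀ k, S.sb (b k) (l k) < s k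
  s_le : ∀ k, (s k : ℝ) ≤ S.sb (b k) (l k) + e k
  conv : ∀ k (b'' : Set κ) (l'' : L), S.Ret b'' → A k ⊆ b'' → l'' ∈ S.LA b'' →
    S.rho (A k) l'' = l k → l'' ≠ l k → S.Fv l'' - S.Fv (l k) ≤ 1 / (64 * S.C ^ 2) →
    (S.lam l'').real {y | (τ k : ℝ) ≤ Ball.mass (b k)ᶜ y} ≤ 1 / (8 * S.C) → S.Fv l'' ≤ s k
  minim : ∀ k (b'' : Set κ) (l'' : L), Cls 𝒢 (b k) (l k) (A k) (qp k) (ep k) b'' l'' →
    S.tt (b (k + 1)) (l (k + 1)) - 2 * (1 / 2) ^ k ≤ S.tt b'' l''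
  modI : ∀ k, S.errI (b k) (l k) (τ' k) ≤ (1 / 2) ^ k
  modM : ∀ k, (S.lam (l k)).real {y : Ball κ | 1 - 2 * (τ' k : ℝ) < nm (Ball.res (b k) y) ∧
    nm (Ball.res (b k) y) < 1} ≤ (1 / 2) ^ k
  θ_zero : θ 0 ≤ 1
  θ_qp : ∀ k, θ k ≤ qp k
  θ_ep : ∀ k, θ k ≤ ep k
  θ_τ' : ∀ k, θ k ≤ τ' k
  e_le : ∀ k, e k ≤ (1 / 4) ^ k * (1 / (256 * S.C ^ 2)) * θ k
  θ'_le : ∀ k, θ' k ≤ θ k
  θ'_τ : ∀ k, θ' k ≤ τ k
  q_le : ∀ k, q k ≤ (1 / 4) ^ k * (1 / (256 * S.C ^ 2)) * θ' k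
  θ_succ : ∀ k, θ (k + 1) ≤ θ' k
  r₀_pos : 0 < r₀
  θ_r₀ : θ 0 ≤ r₀
  room : 3 / (8 * S.C) ≤ (S.lam (l 0)).real
    {y : Ball κ | 1 / (2 * S.C) ≤ (S.nu y).real {l 0} ∧ nm y ≤ 1 - r₀}

/-- the states of the recursion -/
private structure ChSt (𝒢 : GoodFam S) where
  b : Set κ
  l : L
  θ₀ : ℝ
  good : 𝒢.G b
  memL : l ∈ S.LA b
  alive : S.Alive b l
  θ₀_pos : 0 < θ₀

private noncomputable def chOut (𝒢 : GoodFam S) (k : ℕ) (st : ChSt 𝒢) :
    StepOut 𝒢 k st.b st.l st.θ₀ :=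
  Classical.choice (exists_stepOut 𝒢 k st.good st.memL st.alive st.θ₀_pos)

private noncomputable def chSeq (𝒢 : GoodFam S) (st₀ : ChSt 𝒢) : ℕ → ChSt 𝒢
  | 0 => st₀
  | k + 1 => ⟨(chOut 𝒢 k (chSeq 𝒢 st₀ k)).b', (chOut 𝒢 k (chSeq 𝒢 st₀ k)).l',
      (chOut 𝒢 k (chSeq 𝒢 st₀ k)).θ', (chOut 𝒢 k (chSeq 𝒢 st₀ k)).good,
      (chOut 𝒢 k (chSeq 𝒢 st₀ k)).memL, (chOut 𝒢 k (chSeq 𝒢 st₀ k)).alive,
      (chOut 𝒢 k (chSeq 𝒢 st₀ k)).θ'_pos⟩

private theorem chain_room (𝒢 : GoodFam S) {b : Set κ} (hb : 𝒢.G b) {l : L} (hl : l ∈ S.LA b)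
    (ha : S.Alive b l) (htop : S.Sig - 1 / (64 * S.C ^ 2) < S.Fv l) :
    ∃ r₀ : ℝ, 0 < r₀ ∧ 3 / (8 * S.C) ≤ (S.lam l).real
      {y : Ball κ | 1 / (2 * S.C) ≤ (S.nu y).real {l} ∧ nm y ≤ 1 - r₀} := by
  have hC := S.C_pos
  have hret := 𝒢.ret b hb
  set Bad : Set (Ball κ) := {y : Ball κ | y ∈ BA b ∧
    S.ab0 y l < (S.nu y).real {l} - 1 / (4 * S.C)} with hBad
  have hBadle : (S.lam l).real Bad ≤ 1 / (16 * S.C) := by
    refine (lam_T 𝒢 hb hl ha (t := 1 / (4 * S.C)) (by positivity)).trans ?_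
    rw [div_le_iff₀ (by positivity)]
    have h1 : S.sb b l ≤ S.Sig := S.sb_le_Sig ha
    have h2 : (1 : ℝ) / (16 * S.C) * (1 / (4 * S.C)) = 1 / (64 * S.C ^ 2) := by
      field_simp
      norm_num
    rw [h2]
    linarith
  let G : ℕ → Set (Ball κ) := fun j =>
    {y : Ball κ | 1 / (2 * S.C) ≤ (S.nu y).real {l} ∧ nm y ≤ 1 - (1 / 2 : ℝ) ^ j}
  have hGmono : Monotone G := by
    intro i j hij y hy
    refine ⟨hy.1, hy.2.trans ?_⟩
    have : (1 / 2 : ℝ) ^ j ≤ (1 / 2) ^ i :=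
      pow_le_pow_of_le_one (by norm_num) (by norm_num) hij
    linarith
  have hsub : {y | 1 / (2 * S.C) ≤ (S.nu y).real {l}} ⊆ ((⋃ j, G j) ∪ Bad) ∪ (BA b)ᶜ := by
    intro y hy
    have hy' : 1 / (2 * S.C) ≤ (S.nu y).real {l} := hy
    by_cases hyb : y ∈ BA b
    · left
      rcases (nm_le_one y).lt_or_eq with h1 | h1
      · left
        obtain ⟨j, hj⟩ := exists_pow_lt_of_lt_one (sub_pos.2 h1) (by norm_num : (1 / 2 : ℝ) < 1)
        exact mem_iUnion.2 ⟨j, hy', by linarith⟩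
      · right
        refine ⟨hyb, ?_⟩
        have h2 : S.ab0 y l = 0 := S.ab_of_nm h1 l _
        rw [h2]
        have h3 : (1 : ℝ) / (2 * S.C) = 2 * (1 / (4 * S.C)) := by
          field_simp
          norm_num
        have h4 : (0 : ℝ) < 1 / (4 * S.C) := by positivity
        linarith
    · right
      exact hyb
  have h1 := S.meas_atom_ge hret hl
  have h2 : (S.lam l).real {y | 1 / (2 * S.C) ≤ (S.nu y).real {l}} ≤
      (S.lam l).real (⋃ j, G j) + (S.lam l).real Bad + (S.lam l).real (BA b)ᶜ :=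
    (measureReal_mono hsub).trans ((measureReal_union_le _ _).trans
      (add_le_add (measureReal_union_le _ _) le_rfl))
  have h3 : (S.lam l).real (BA b)ᶜ = 0 := by
    rw [measureReal_def, S.lam_compl_BA hret hl]
    simp
  have h5 : (1 : ℝ) / (2 * S.C) = 8 * (1 / (16 * S.C)) := by
    field_simp
    norm_num
  have h6 : (3 : ℝ) / (8 * S.C) = 6 * (1 / (16 * S.C)) := by
    field_simp
    norm_num
  have h7 : (0 : ℝ) < 1 / (16 * S.C) := by positivity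
  have h8 : 3 / (8 * S.C) < (S.lam l).real (⋃ j, G j) := by linarith
  have h9 : ENNReal.ofReal (3 / (8 * S.C)) < S.lam l (⋃ j, G j) := by
    rw [ENNReal.ofReal_lt_iff_lt_toReal (by positivity) (measure_ne_top _ _)]
    exact h8
  have h10 : Tendsto (S.lam l ∘ G) atTop (𝓝 (S.lam l (⋃ j, G j))) :=
    tendsto_measure_iUnion_atTop hGmono
  obtain ⟨j, hj⟩ := (h10.eventually (lt_mem_nhds h9)).exists
  refine ⟨(1 / 2) ^ j, by positivity, ?_⟩
  have h11 : 3 / (8 * S.C) < (S.lam l).real (G j) :=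
    (ENNReal.ofReal_lt_iff_lt_toReal (by positivity) (measure_ne_top _ _)).1 hj
  exact h11.le

theorem exists_chain [Uncountable κ] (𝒢 : GoodFam S) : Nonempty (Chain 𝒢) := by
  have hC := S.C_pos
  obtain ⟨b, l, hb, hl, ha, htop⟩ := start 𝒢 (ε₀ := 1 / (64 * S.C ^ 2)) (by positivity)
  obtain ⟨r₀, hr₀, hroom⟩ := chain_room 𝒢 hb hl ha htop
  let st₀ : ChSt 𝒢 := ⟨b, l, min 1 r₀, hb, hl, ha, lt_min one_pos hr₀⟩
  let sq : ℕ → ChSt 𝒢 := chSeq 𝒢 st₀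
  let o : ∀ k, StepOut 𝒢 k (sq k).b (sq k).l (sq k).θ₀ := fun k => chOut 𝒢 k (sq k)
  exact ⟨{
    b := fun k => (sq k).b
    l := fun k => (sq k).l
    A := fun k => (o k).A
    s := fun k => (o k).s
    τ := fun k => (o k).τ
    τ' := fun k => (o k).τ'
    e := fun k => (o k).e
    q := fun k => (o k).q
    qp := fun k => (o k).qp
    ep := fun k => (o k).ep
    θ := fun k => (o k).θ
    θ' := fun k => (o k).θ'
    r₀ := r₀
    good := fun k => (sq k).good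
    memL := fun k => (sq k).memL
    alive := fun k => (sq k).alive
    top := htop
    goodA := fun k => (o k).goodA
    stab := fun k => (o k).stab
    subA := fun k => (o k).subA
    rhoA := fun k => (o k).rhoA
    ne := fun k => (o k).ne
    e_pos := fun k => (o k).e_pos
    q_pos := fun k => (o k).q_pos
    τ_pos := fun k => (o k).τ_pos
    τ'_pos := fun k => (o k).τ'_pos
    qp_pos := fun k => (o k).qp_pos
    ep_pos := fun k => (o k).ep_pos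
    θ_pos := fun k => (o k).θ_pos
    θ'_pos := fun k => (o k).θ'_pos
    c1 := fun k => (o k).c1
    costq := fun k => (o k).costq
    s_gt := fun k => (o k).s_gt
    s_le := fun k => (o k).s_le
    conv := fun k => (o k).conv
    minim := fun k => (o k).minim
    modI := fun k => (o k).modI
    modM := fun k => (o k).modM
    θ_zero := (o 0).θ_le.trans (min_le_left _ _)
    θ_qp := fun k => (o k).θ_qp
    θ_ep := fun k => (o k).θ_ep
    θ_τ' := fun k => (o k).θ_τ'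
    e_le := fun k => (o k).e_le
    θ'_le := fun k => (o k).θ'_le
    θ'_τ := fun k => (o k).θ'_τ
    q_le := fun k => (o k).q_le
    θ_succ := fun k => (o (k + 1)).θ_le
    r₀_pos := hr₀
    θ_r₀ := (o 0).θ_le.trans (min_le_right _ _)
    room := hroom }⟩

end Sys

end Pool.Agent.ZDB

end

section

/-!
# ZDB/ChainFin : the finite stages of the chain
b k ⊆ A k (Stab), so b is monotone.  ρ_{b k}(l j) = l k for j ≥ k by induction (ρ_{b k} l(k+1) = ρ_{b k} ρ_{A k} l(k+1) = ρ_{b k} l k = l k).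
ρ_{A k}(l j) = ρ_{A k}ρ_{b(k+1)}(l j) = ρ_{A k} l(k+1) = l k for j > k.  l j ≠ l k: else l k ∈ LA(b k) ⊆ LA(b(k+1)) and
l k = ρ_{b(k+1)} l k = ρ_{b(k+1)} l j = l(k+1).  Fv(l k) is increasing (Fv_mono_of_rho), so Sig − 1/(64C²) < Fv(l k) ≤ Sig.
* conv_use: mass_step (b k ⊆ b(k+1) ⊆ b''): lam_{l''}{τ_k ≤ mass (b k)ᶜ} ≤ lam_{l(k+1)}{τ_k/2 ≤ mass (b k)ᶜ} + C(Fv l'' − Fv l(k+1)) +
  lam_{l''}{τ_k/2 ≤ mass (b(k+1))ᶜ} ≤ 2q_k/τ_k + C/(64C²) + 1/(16C) ≤ 2/(256C²) + 1/(64C) + 1/(16C) ≤ 1/(8C)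
  (Markov lam_mass_le; q_k ≤ θ'_k/(256C²) ≤ τ_k/(256C²)); ρ_{A k}l'' = l k, l'' ≠ l k as above; Ch.conv.
* Fv_le_s and cost_le, for fixed j by downward induction on k (k = j: cost (b j)(l j) = 0, cost_self): assume for k+1 ≤ j: Fv(l j) ≤ s i for k+1 ≤ i < j
  and cost (b(k+1))(l j) ≤ (1/4)^{k+1}(1/(64C))θ(k+1) ≤ τ_k/(256C).  Then lam_{l j}{τ_k/2 ≤ mass (b(k+1))ᶜ} ≤ 1/(64C)·.. ≤ 1/(16C), conv_use gives
  Fv(l j) ≤ s k.  So Fv(l j) − Fv(l(k+1)) ≤ 2e_k (s_le, c1), and cost_step: cost (b k)(l j) ≤ q_k + 2C e_k + cost(b(k+1))(l j)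
  ≤ (1/4)^k(1/(256C²))(1+2C)θ_k + (1/4)^{k+1}(1/(64C))θ_k ≤ (1/4)^k(1/(64C))θ_k, because (1+2C)/(256C²) ≤ 3/(256C) and
  3/(256C) + 1/(256C) = 1/(64C).
-/

open Set Filter Topology MeasureTheory Pool.Agent.H53.ZD

namespace Pool.Agent.ZDB

variable {κ L : Type*} [TopologicalSpace L] [CompactSpace L] [T2Space L] [TotallyDisconnectedSpace L]
  [MeasurableSpace L] [BorelSpace L]

namespace Sys

variable {S : Sys κ L} {𝒢 : GoodFam S} (Ch : Chain 𝒢)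

theorem Chain.b_sub_A (k : ℕ) : Ch.b k ⊆ Ch.A k := (Ch.stab k).1

theorem Chain.b_mono : Monotone Ch.b :=
  monotone_nat_of_le_succ fun k => (Ch.b_sub_A k).trans (Ch.subA k)

theorem Chain.θ_anti : Antitone Ch.θ :=
  antitone_nat_of_succ_le fun k => (Ch.θ_succ k).trans (Ch.θ'_le k)

theorem Chain.θ_le_one (k : ℕ) : Ch.θ k ≤ 1 := (Ch.θ_anti (Nat.zero_le k)).trans Ch.θ_zero

theorem Chain.θ_le_τ (k : ℕ) : Ch.θ (k + 1) ≤ Ch.τ k := (Ch.θ_succ k).trans (Ch.θ'_τ k)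

private theorem Chain.retb (k : ℕ) : S.Ret (Ch.b k) := 𝒢.ret _ (Ch.good k)

private theorem Chain.retA (k : ℕ) : S.Ret (Ch.A k) := 𝒢.ret _ (Ch.goodA k)

private theorem Chain.rho_self (k : ℕ) : S.rho (Ch.b k) (Ch.l k) = Ch.l k := Ch.memL k

private theorem Chain.rho_l_succ (k : ℕ) : S.rho (Ch.b k) (Ch.l (k + 1)) = Ch.l k := by
  rw [← S.rho_rho (Ch.retb k) (Ch.retA k) (Ch.b_sub_A k), Ch.rhoA k, Ch.rho_self k]

theorem Chain.rho_l {k j : ℕ} (h : k ≤ j) : S.rho (Ch.b k) (Ch.l j) = Ch.l k := by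
  induction j, h using Nat.le_induction with
  | base => exact Ch.rho_self k
  | succ j hkj ih =>
    rw [← S.rho_rho (Ch.retb k) (Ch.retb j) (Ch.b_mono hkj), Ch.rho_l_succ j, ih]

theorem Chain.Fv_mono {k j : ℕ} (h : k ≤ j) : S.Fv (Ch.l k) ≤ S.Fv (Ch.l j) :=
  S.Fv_mono_of_rho (Ch.retb k) (Ch.rho_l h)

theorem Chain.top' (k : ℕ) : S.Sig - 1 / (64 * S.C ^ 2) < S.Fv (Ch.l k) :=
  Ch.top.trans_le (Ch.Fv_mono (Nat.zero_le k))

/-- a point over `l (k+1)` is over `l k` at level `A k`, and different from `l k` -/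
theorem Chain.over {k : ℕ} {l'' : L} (hr : S.rho (Ch.b (k + 1)) l'' = Ch.l (k + 1)) :
    S.rho (Ch.A k) l'' = Ch.l k ∧ S.rho (Ch.b k) l'' = Ch.l k ∧ l'' ≠ Ch.l k := by
  have h1 : S.rho (Ch.A k) l'' = Ch.l k := by
    rw [← S.rho_rho (Ch.retA k) (Ch.retb (k + 1)) (Ch.subA k), hr, Ch.rhoA k]
  refine ⟨h1, ?_, ?_⟩
  · rw [← S.rho_rho (Ch.retb k) (Ch.retA k) (Ch.b_sub_A k), h1, Ch.rho_self k]
  · intro h
    have h2 : Ch.l k ∈ S.LA (Ch.b (k + 1)) :=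
      S.LA_mono (Ch.retb k) (Ch.retb (k + 1)) (Ch.b_mono (Nat.le_succ k)) (Ch.memL k)
    have h3 : S.rho (Ch.b (k + 1)) (Ch.l k) = Ch.l k := h2
    rw [h, h3] at hr
    exact Ch.ne k hr.symm

/-- `s k - F(l (k+1)) < 2 e k` -/
theorem Chain.s_sub_lt (k : ℕ) : (Ch.s k : ℝ) - S.Fv (Ch.l (k + 1)) < 2 * Ch.e k := by
  have h1 := Ch.s_le k
  have h2 := Ch.c1 k
  linarith

private theorem Chain.C_ne : S.C ≠ 0 := S.C_pos.ne'

private theorem Chain.inv_sq_le : 1 / (256 * S.C ^ 2) ≤ 1 / (256 * S.C) := by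
  have hC := S.C_pos
  have h1 := S.one_le
  refine one_div_le_one_div_of_le (by positivity) ?_
  nlinarith

private theorem Chain.pow_nonneg' (k : ℕ) : (0 : ℝ) ≤ (1 / 4) ^ k := by positivity

private theorem Chain.pow_le_one' (k : ℕ) : ((1 : ℝ) / 4) ^ k ≤ 1 :=
  pow_le_one₀ (by norm_num) (by norm_num)

/-- `e k` is small -/
theorem Chain.e_small (k : ℕ) : 2 * S.C * Ch.e k ≤ (1 / 4) ^ k * (1 / (128 * S.C)) := by
  have hC := S.C_pos
  have h1 : Ch.e k ≤ (1 / 4) ^ k * (1 / (256 * S.C ^ 2)) := by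
    refine (Ch.e_le k).trans ?_
    have h2 : (0 : ℝ) ≤ (1 / 4) ^ k * (1 / (256 * S.C ^ 2)) := by positivity
    exact mul_le_of_le_one_right h2 (Ch.θ_le_one k)
  calc 2 * S.C * Ch.e k ≤ 2 * S.C * ((1 / 4) ^ k * (1 / (256 * S.C ^ 2))) :=
        mul_le_mul_of_nonneg_left h1 (by positivity)
    _ = (1 / 4) ^ k * (1 / (128 * S.C)) := by
        field_simp
        norm_num

theorem Chain.conv_use {k : ℕ} {b'' : Set κ} {l'' : L} (hb'' : S.Ret b'')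
    (hsub : Ch.b (k + 1) ⊆ b'') (hl'' : l'' ∈ S.LA b'')
    (hr : S.rho (Ch.b (k + 1)) l'' = Ch.l (k + 1)) (hS : S.Fv l'' ≤ S.Sig)
    (hm : (S.lam l'').real {y | (Ch.τ k : ℝ) / 2 ≤ Ball.mass (Ch.b (k + 1))ᶜ y} ≤
      1 / (16 * S.C)) : S.Fv l'' ≤ Ch.s k := by
  have hC := S.C_pos
  obtain ⟨h1, h2, h3⟩ := Ch.over hr
  have hτ : (0 : ℝ) < Ch.τ k := by exact_mod_cast Ch.τ_pos k
  refine Ch.conv k b'' l'' hb'' ((Ch.subA k).trans hsub) hl'' h1 h3 ?_ ?_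
  · have := Ch.top' k
    linarith
  · have h4 := S.mass_step (Ch.retb (k + 1)) hb'' (Ch.b_mono (Nat.le_succ k)) hsub hl'' hr
      (r := (Ch.τ k : ℝ))
    have h5 : (S.lam (Ch.l (k + 1))).real {y | (Ch.τ k : ℝ) / 2 ≤ Ball.mass (Ch.b k)ᶜ y} ≤
        1 / (128 * S.C) := by
      refine (S.lam_mass_le (Ch.b k) (Ch.l (k + 1)) (half_pos hτ)).trans ?_
      rw [div_le_iff₀ (half_pos hτ)]
      refine (Ch.costq k).trans ((Ch.q_le k).trans ?_)
      have h6 : (1 / 4 : ℝ) ^ k * (1 / (256 * S.C ^ 2)) ≤ 1 / (256 * S.C) :=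
        (mul_le_of_le_one_left (by positivity) (Chain.pow_le_one' k)).trans Chain.inv_sq_le
      calc (1 / 4 : ℝ) ^ k * (1 / (256 * S.C ^ 2)) * Ch.θ' k
          ≤ 1 / (256 * S.C) * Ch.τ k :=
            mul_le_mul h6 (Ch.θ'_τ k) (Ch.θ'_pos k).le (by positivity)
        _ = 1 / (128 * S.C) * (Ch.τ k / 2) := by
            field_simp
            norm_num
    have h7 : S.C * (S.Fv l'' - S.Fv (Ch.l (k + 1))) ≤ 1 / (64 * S.C) := by
      have h8 : S.Fv l'' - S.Fv (Ch.l (k + 1)) ≤ 1 / (64 * S.C ^ 2) := by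
        have := Ch.top' (k + 1)
        linarith
      calc S.C * (S.Fv l'' - S.Fv (Ch.l (k + 1))) ≤ S.C * (1 / (64 * S.C ^ 2)) :=
            mul_le_mul_of_nonneg_left h8 hC.le
        _ = 1 / (64 * S.C) := by
            field_simp
    have h9 : 1 / (128 * S.C) + 1 / (64 * S.C) + 1 / (16 * S.C) ≤ 1 / (8 * S.C) := by
      have h10 : 1 / (128 * S.C) = 1 / 128 * S.C⁻¹ := by rw [one_div, mul_inv]; norm_num
      have h11 : 1 / (64 * S.C) = 1 / 64 * S.C⁻¹ := by rw [one_div, mul_inv]; norm_num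
      have h12 : 1 / (16 * S.C) = 1 / 16 * S.C⁻¹ := by rw [one_div, mul_inv]; norm_num
      have h13 : 1 / (8 * S.C) = 1 / 8 * S.C⁻¹ := by rw [one_div, mul_inv]; norm_num
      have h14 : 0 < S.C⁻¹ := inv_pos.2 hC
      rw [h10, h11, h12, h13]
      linarith
    linarith

private theorem Chain.joint (j : ℕ) : ∀ n k : ℕ, k + n = j →
    S.cost (Ch.b k) (Ch.l j) ≤ (1 / 4) ^ k * (1 / (64 * S.C)) * Ch.θ k ∧
      (k < j → S.Fv (Ch.l j) ≤ Ch.s k) := by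
  have hC := S.C_pos
  intro n
  induction n with
  | zero =>
    intro k hk
    have hk' : k = j := by omega
    subst hk'
    refine ⟨?_, fun h => absurd h (lt_irrefl _)⟩
    rw [S.cost_self (Ch.retb k) (Ch.memL k)]
    have := (Ch.θ_pos k).le
    positivity
  | succ n ih =>
    intro k hk
    have hkj : k + 1 ≤ j := by omega
    obtain ⟨ih1, -⟩ := ih (k + 1) (by omega)
    have hτ : (0 : ℝ) < Ch.τ k := by exact_mod_cast Ch.τ_pos k
    have hp0 := Chain.pow_nonneg' k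
    have hp1 := Chain.pow_le_one' k
    have hθ := Ch.θ_pos k
    have hθ1 := Ch.θ_pos (k + 1)
    have hF : S.Fv (Ch.l j) ≤ Ch.s k := by
      refine Ch.conv_use (Ch.retb j) (Ch.b_mono hkj) (Ch.memL j) (Ch.rho_l hkj)
        (S.Fv_le_Sig (Ch.alive j)) ?_
      refine (S.lam_mass_le (Ch.b (k + 1)) (Ch.l j) (half_pos hτ)).trans ?_
      rw [div_le_iff₀ (half_pos hτ)]
      refine ih1.trans ?_
      have h6 : (1 / 4 : ℝ) ^ (k + 1) * (1 / (64 * S.C)) ≤ 1 / (64 * S.C) :=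
        mul_le_of_le_one_left (by positivity) (Chain.pow_le_one' (k + 1))
      calc (1 / 4 : ℝ) ^ (k + 1) * (1 / (64 * S.C)) * Ch.θ (k + 1)
          ≤ 1 / (64 * S.C) * Ch.τ k :=
            mul_le_mul h6 (Ch.θ_le_τ k) hθ1.le (by positivity)
        _ = 1 / (32 * S.C) * (Ch.τ k / 2) := by
            field_simp
            norm_num
        _ ≤ 1 / (16 * S.C) * (Ch.τ k / 2) := by
            refine mul_le_mul_of_nonneg_right ?_ (by positivity)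
            exact one_div_le_one_div_of_le (by positivity) (by linarith)
    refine ⟨?_, fun _ => hF⟩
    have h1 := S.cost_step (Ch.retb (k + 1)) (Ch.retb j) (Ch.b_mono (Nat.le_succ k))
      (Ch.b_mono hkj) (Ch.memL j) (Ch.rho_l hkj)
    have h2 : S.C * (S.Fv (Ch.l j) - S.Fv (Ch.l (k + 1))) ≤
        (1 / 4) ^ k * (1 / (128 * S.C)) * Ch.θ k := by
      have h3 := Ch.s_sub_lt k
      have h4 : S.Fv (Ch.l j) - S.Fv (Ch.l (k + 1)) ≤ 2 * Ch.e k := by linarith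
      calc S.C * (S.Fv (Ch.l j) - S.Fv (Ch.l (k + 1))) ≤ S.C * (2 * Ch.e k) :=
            mul_le_mul_of_nonneg_left h4 hC.le
        _ ≤ S.C * (2 * ((1 / 4) ^ k * (1 / (256 * S.C ^ 2)) * Ch.θ k)) := by
            have := Ch.e_le k
            refine mul_le_mul_of_nonneg_left ?_ hC.le
            linarith
        _ = (1 / 4) ^ k * (1 / (128 * S.C)) * Ch.θ k := by
            field_simp
            norm_num
    have h5 : S.cost (Ch.b k) (Ch.l (k + 1)) ≤ (1 / 4) ^ k * (1 / (256 * S.C)) * Ch.θ k := by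
      refine (Ch.costq k).trans ((Ch.q_le k).trans ?_)
      refine mul_le_mul ?_ (Ch.θ'_le k) (Ch.θ'_pos k).le (by positivity)
      exact mul_le_mul_of_nonneg_left Chain.inv_sq_le hp0
    have h6 : S.cost (Ch.b (k + 1)) (Ch.l j) ≤ (1 / 4) ^ k * (1 / (256 * S.C)) * Ch.θ k := by
      refine ih1.trans ?_
      calc (1 / 4 : ℝ) ^ (k + 1) * (1 / (64 * S.C)) * Ch.θ (k + 1)
          ≤ (1 / 4 : ℝ) ^ (k + 1) * (1 / (64 * S.C)) * Ch.θ k :=
            mul_le_mul_of_nonneg_left (Ch.θ_anti (Nat.le_succ k)) (by positivity)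
        _ = (1 / 4) ^ k * (1 / (256 * S.C)) * Ch.θ k := by
            rw [pow_succ]
            field_simp
            norm_num
    have h7 : (1 / 4 : ℝ) ^ k * (1 / (256 * S.C)) * Ch.θ k +
        (1 / 4) ^ k * (1 / (128 * S.C)) * Ch.θ k + (1 / 4) ^ k * (1 / (256 * S.C)) * Ch.θ k =
        (1 / 4) ^ k * (1 / (64 * S.C)) * Ch.θ k := by
      field_simp
      norm_num
    linarith

theorem Chain.Fv_le_s {k j : ℕ} (h : k < j) : S.Fv (Ch.l j) ≤ Ch.s k :=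
  (Chain.joint Ch j (j - k) k (by omega)).2 h

theorem Chain.cost_le {k j : ℕ} (h : k ≤ j) :
    S.cost (Ch.b k) (Ch.l j) ≤ (1 / 4) ^ k * (1 / (64 * S.C)) * Ch.θ k :=
  (Chain.joint Ch j (j - k) k (by omega)).1

end Sys

end Pool.Agent.ZDB

end
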