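import Pool.Agent.ZDM.P08

/-!
# Merged form of the modules ZDB.ChainLim, ZDB.ChainT, ZDB.ChainAe, ZDB.ChainAlive, ZDB.ChainSb, ZDB.ChainMin, ZDB.BaseNode, ZDB.CtxA
-/

set_option autoImplicit false
set_option linter.unusedSectionVars false

section

/-!
# ZDB/ChainLim : the limit node
binf = ⋃ b k (good: union), linf from `inverse_limit` (Ret from 𝒢.ret; ρ_{b n} l(n+1) = l n).
Fv_inf_le_s: Fv (l j) ≤ s k for j > k and l j → linf: Fv_le_of_tendsto for the shifted sequence.  Fv linf ≤ Sig likewise (Fv_le_Sig, alive).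
Fv_inf_sub: Fv linf ≤ s k and s_sub_lt.
cost_inf: for j ≥ k+1: ∫ mass (b k)ᶜ (res (b j) y) dlam_linf ≤ cost (b k)(l j) + C(Fv linf − Fv (l j)) (int_le_add, M = 1)
≤ (1/4)^k(1/(64C))θ_k + 2C e_{j−1}; as j → ∞ mass (b k)ᶜ (res (b j) y) → mass (b k)ᶜ y for y ∈ BA binf (lam_linf-a.e.; dominated by 1), e_j → 0.
-/

open Set Filter Topology MeasureTheory Pool.Agent.H53.ZD

namespace Pool.Agent.ZDB

variable {κ L : Type*} [TopologicalSpace L] [CompactSpace L] [T2Space L] [TotallyDisconnectedSpace L]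
  [MeasurableSpace L] [BorelSpace L]

namespace Sys

variable {S : Sys κ L} {𝒢 : GoodFam S} (Ch : Chain 𝒢)

/-- the limit level -/
def Chain.binf : Set κ := ⋃ k, Ch.b k

theorem Chain.exists_linf : ∃ x, x ∈ S.LA Ch.binf ∧ (∀ n, S.rho (Ch.b n) x = Ch.l n) ∧
    Tendsto Ch.l atTop (𝓝 x) :=
  S.inverse_limit Ch.b_mono (fun n => 𝒢.ret _ (Ch.good n)) Ch.memL
    (fun n => Ch.rho_l (Nat.le_succ n))

/-- the limit point -/
noncomputable def Chain.linf : L := Ch.exists_linf.choose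

theorem Chain.good_inf : 𝒢.G Ch.binf := 𝒢.union Ch.b Ch.b_mono Ch.good
theorem Chain.memL_inf : Ch.linf ∈ S.LA Ch.binf := Ch.exists_linf.choose_spec.1
theorem Chain.sub_inf (k : ℕ) : Ch.b k ⊆ Ch.binf := subset_iUnion Ch.b k
theorem Chain.A_sub_inf (k : ℕ) : Ch.A k ⊆ Ch.binf := (Ch.subA k).trans (Ch.sub_inf (k + 1))
theorem Chain.rho_inf (k : ℕ) : S.rho (Ch.b k) Ch.linf = Ch.l k :=
  Ch.exists_linf.choose_spec.2.1 k
theorem Chain.rhoA_inf (k : ℕ) : S.rho (Ch.A k) Ch.linf = Ch.l k := by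
  rw [← S.rho_rho (𝒢.ret _ (Ch.goodA k)) (𝒢.ret _ (Ch.good (k + 1))) (Ch.subA k),
    Ch.rho_inf (k + 1), Ch.rhoA k]
theorem Chain.tendsto_linf : Tendsto Ch.l atTop (𝓝 Ch.linf) := Ch.exists_linf.choose_spec.2.2

theorem Chain.Fv_le_inf (k : ℕ) : S.Fv (Ch.l k) ≤ S.Fv Ch.linf :=
  S.Fv_mono_of_rho (𝒢.ret _ (Ch.good k)) (Ch.rho_inf k)
theorem Chain.Fv_inf_le_s (k : ℕ) : S.Fv Ch.linf ≤ Ch.s k := by
  refine S.Fv_le_of_tendsto (u := fun n => Ch.l (n + (k + 1)))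
    ((tendsto_add_atTop_iff_nat (k + 1)).2 Ch.tendsto_linf) fun n => ?_
  exact Ch.Fv_le_s (by omega)
theorem Chain.Fv_inf_le_Sig : S.Fv Ch.linf ≤ S.Sig :=
  S.Fv_le_of_tendsto Ch.tendsto_linf fun n => S.Fv_le_Sig (Ch.alive n)
theorem Chain.Fv_inf_sub (k : ℕ) : S.Fv Ch.linf - S.Fv (Ch.l (k + 1)) ≤ 2 * Ch.e k := by
  have h1 := Ch.Fv_inf_le_s k
  have h2 := Ch.s_sub_lt k
  linarith

theorem Chain.cost_inf (k : ℕ) :
    S.cost (Ch.b k) Ch.linf ≤ (1 / 4) ^ k * (1 / (64 * S.C)) * Ch.θ k := by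
  have hC := S.C_pos
  -- finite stages
  have h1 : ∀ n : ℕ, ∫ y, Ball.mass (Ch.b k)ᶜ (Ball.res (Ch.b (k + 1 + n)) y) ∂(S.lam Ch.linf) ≤
      (1 / 4) ^ k * (1 / (64 * S.C)) * Ch.θ k + (1 / 4) ^ (k + n) * (1 / (128 * S.C)) := by
    intro n
    have h2 := S.int_le_add (𝒢.ret _ (Ch.good (k + 1 + n))) (𝒢.ret _ Ch.good_inf)
      (Ch.sub_inf (k + 1 + n)) Ch.memL_inf (Ch.rho_inf (k + 1 + n))
      (f := fun y => Ball.mass (Ch.b k)ᶜ y) (Ball.measurable_mass _) (M := 1)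
      (fun y => Ball.mass_nonneg _ _) (fun y => Ball.mass_le_one _ _)
    have h3 : S.cost (Ch.b k) (Ch.l (k + 1 + n)) ≤ (1 / 4) ^ k * (1 / (64 * S.C)) * Ch.θ k :=
      Ch.cost_le (by omega)
    have h4 : S.Fv Ch.linf - S.Fv (Ch.l (k + 1 + n)) ≤ 2 * Ch.e (k + n) := by
      have := Ch.Fv_inf_sub (k + n)
      rwa [show k + n + 1 = k + 1 + n by ring] at this
    have h5 := Ch.e_small (k + n)
    have h6 : S.C * (S.Fv Ch.linf - S.Fv (Ch.l (k + 1 + n))) ≤ S.C * (2 * Ch.e (k + n)) :=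
      mul_le_mul_of_nonneg_left h4 hC.le
    have h7 : ∫ y, Ball.mass (Ch.b k)ᶜ y ∂(S.lam (Ch.l (k + 1 + n))) =
      S.cost (Ch.b k) (Ch.l (k + 1 + n)) := rfl
    linarith
  -- the limit
  have hae : ∀ᵐ y ∂(S.lam Ch.linf), y ∈ BA Ch.binf := by
    rw [ae_iff]
    exact S.lam_compl_BA (𝒢.ret _ Ch.good_inf) Ch.memL_inf
  have h8 : Tendsto (fun n : ℕ => ∫ y, Ball.mass (Ch.b k)ᶜ (Ball.res (Ch.b (k + 1 + n)) y)
      ∂(S.lam Ch.linf)) atTop (𝓝 (∫ y, Ball.mass (Ch.b k)ᶜ y ∂(S.lam Ch.linf))) := by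
    refine tendsto_integral_of_dominated_convergence (fun _ => (1 : ℝ)) (fun n => ?_)
      (integrable_const _) (fun n => ?_) ?_
    · exact ((Ball.measurable_mass _).comp (Ball.measurable_res _)).aestronglyMeasurable
    · refine Eventually.of_forall fun y => ?_
      rw [Real.norm_eq_abs, abs_of_nonneg (Ball.mass_nonneg _ _)]
      exact Ball.mass_le_one _ _
    · filter_upwards [hae] with y hy
      have h9 : ∀ n, Ball.mass (Ch.b k)ᶜ (Ball.res (Ch.b (k + 1 + n)) y) =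
          nm (Ball.res (Ch.b (k + 1 + n)) y) - nm (Ball.res (Ch.b k) y) := by
        intro n
        rw [mass_compl, res_res_of_subset (Ch.b_mono (by omega))]
      simp only [h9]
      rw [mass_compl]
      have h10 := tendsto_nm_res Ch.b_mono hy
      have h11 : Tendsto (fun n : ℕ => nm (Ball.res (Ch.b (k + 1 + n)) y)) atTop (𝓝 (nm y)) := by
        have h12 := (tendsto_add_atTop_iff_nat (k + 1)).2 h10
        refine h12.congr fun n => ?_
        rw [Nat.add_comm n (k + 1)]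
      exact h11.sub_const _
  have h13 : Tendsto (fun n : ℕ => (1 / 4) ^ k * (1 / (64 * S.C)) * Ch.θ k +
      (1 / 4 : ℝ) ^ (k + n) * (1 / (128 * S.C))) atTop
      (𝓝 ((1 / 4) ^ k * (1 / (64 * S.C)) * Ch.θ k + 0 * (1 / (128 * S.C)))) := by
    refine tendsto_const_nhds.add (Tendsto.mul_const _ ?_)
    have h14 : Tendsto (fun n : ℕ => (1 / 4 : ℝ) ^ n) atTop (𝓝 0) :=
      tendsto_pow_atTop_nhds_zero_of_lt_one (by norm_num) (by norm_num)
    have h15 := (tendsto_add_atTop_iff_nat k).2 h14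
    refine h15.congr fun n => ?_
    rw [Nat.add_comm n k]
  have h16 := le_of_tendsto_of_tendsto' h8 h13 h1
  rw [zero_mul, add_zero] at h16
  exact h16

/-- points of the ball of level `binf` are the limits of their restrictions -/
theorem Chain.tendsto_res_inf {y : Ball κ} (hy : y ∈ BA Ch.binf) :
    Tendsto (fun k => Ball.res (Ch.b k) y) atTop (𝓝 y) :=
  tendsto_res Ch.b_mono hy

end Sys

end Pool.Agent.ZDB

end

section

/-!
# ZDB/ChainT : exceptional sets along the chain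
* sb_succ_le: let ε > 0.  `next` at (b(k+1), l(k+1)) with A = A(k+1).. any good A ⊇ b(k+1), and q = τ_k/(32C): (b',l') with
  Fv l' > sb − ε, cost (b(k+1)) l' ≤ q, alive (so Fv l' ≤ Sig), ρ_A l' = l(k+1), hence ρ_{b(k+1)} l' = l(k+1).  lam_{l'}{τ_k/2 ≤ mass (b(k+1))ᶜ} ≤ 2q/τ_k ≤
  1/(16C); conv_use: Fv l' ≤ s k.
* bad_le: t = (1/2)^k; lam_T at (b(k+1), l(k+1)): lam_{l(k+1)}{y ∈ BA | ab0 y l(k+1) < nu_y{l(k+1)} − t} ≤ (sb − Fv l(k+1))/t ≤ 2e_k·2^k
  (sb_succ_le, s_sub_lt).  The set W := {y | ab0 (res (b(k+1)) y) l(k+1) < nu_{res (b(k+1)) y}{l(k+1)} − t} is measurable (measurable_ab0, measurable_atom,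
  Ball.measurable_res) and W ∩ BA(b(k+1)) is the set above; lam_le_add: lam_linf(res⁻¹W) ≤ lam_{l(k+1)}(W) + C(Fv linf − Fv l(k+1)) ≤ 2e_k 2^k + 2C e_k;
  res⁻¹ W = W.  e_k ≤ (1/4)^k/(256C²).
-/

open Set Filter Topology MeasureTheory Pool.Agent.H53.ZD

namespace Pool.Agent.ZDB

variable {κ L : Type*} [TopologicalSpace L] [CompactSpace L] [T2Space L] [TotallyDisconnectedSpace L]
  [MeasurableSpace L] [BorelSpace L]

namespace Sys

variable {S : Sys κ L} {𝒢 : GoodFam S} (Ch : Chain 𝒢)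

theorem Chain.sb_succ_le (k : ℕ) : S.sb (Ch.b (k + 1)) (Ch.l (k + 1)) ≤ Ch.s k := by
  have hC := S.C_pos
  have hτ : (0 : ℝ) < Ch.τ k := by exact_mod_cast Ch.τ_pos k
  refine le_of_forall_pos_le_add fun ε hε => ?_
  obtain ⟨b', l', h1, h2, h3, h4, h5, h6, h7, h8, h9⟩ :=
    next 𝒢 (Ch.good (k + 1)) (Ch.memL (k + 1)) (Ch.alive (k + 1)) (Ch.good (k + 1))
      (Subset.refl _) (q := (Ch.τ k : ℝ) / (32 * S.C)) (by positivity) hε
  have hm : (S.lam l').real {y | (Ch.τ k : ℝ) / 2 ≤ Ball.mass (Ch.b (k + 1))ᶜ y} ≤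
      1 / (16 * S.C) := by
    refine (S.lam_mass_le (Ch.b (k + 1)) l' (r := (Ch.τ k : ℝ) / 2) (by positivity)).trans ?_
    rw [div_le_iff₀ (by positivity)]
    refine h8.trans (le_of_eq ?_)
    field_simp
    norm_num
  have h10 := Ch.conv_use (𝒢.ret b' h1) h2 h3 h4 (S.Fv_le_Sig h9) hm
  linarith

theorem Chain.bad_le (k : ℕ) :
    (S.lam Ch.linf).real {y : Ball κ | S.ab0 (Ball.res (Ch.b (k + 1)) y) (Ch.l (k + 1)) <
      (S.nu (Ball.res (Ch.b (k + 1)) y)).real {Ch.l (k + 1)} - (1 / 2) ^ k} ≤ (1 / 2) ^ k := by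
  have hC := S.C_pos
  have hC1 := S.one_le
  have hret : S.Ret (Ch.b (k + 1)) := 𝒢.ret _ (Ch.good (k + 1))
  have hretinf : S.Ret Ch.binf := 𝒢.ret _ Ch.good_inf
  obtain ⟨X, hX⟩ : ∃ X : ℝ, X = (1 / 2) ^ k := ⟨_, rfl⟩
  have hX0 : 0 < X := by rw [hX]; positivity
  have hX1 : X ≤ 1 := by rw [hX]; exact pow_le_one₀ (by norm_num) (by norm_num)
  have hX4 : ((1 : ℝ) / 4) ^ k = X * X := by
    rw [hX, ← mul_pow]
    norm_num
  rw [← hX]
  set W : Set (Ball κ) := {y : Ball κ | S.ab0 (Ball.res (Ch.b (k + 1)) y) (Ch.l (k + 1)) <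
      (S.nu (Ball.res (Ch.b (k + 1)) y)).real {Ch.l (k + 1)} - X} with hW
  have hWm : MeasurableSet W := by
    refine measurableSet_lt (S.measurable_ab0 hret (𝒢.rlq _ (Ch.good (k + 1)))
      (Ch.memL (k + 1))) ?_
    exact ((S.measurable_atom (Ch.l (k + 1))).comp
      (Ball.measurable_res (Ch.b (k + 1)))).sub_const X
  have hpre : Ball.res (Ch.b (k + 1)) ⁻¹' W = W := by
    ext y
    simp only [hW, mem_preimage, mem_ofPred_eq, res_res_of_subset (Subset.refl (Ch.b (k + 1)))]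
  have h1 : (S.lam (Ch.l (k + 1))).real W ≤
      (S.sb (Ch.b (k + 1)) (Ch.l (k + 1)) - S.Fv (Ch.l (k + 1))) / X := by
    have h2 := lam_T 𝒢 (Ch.good (k + 1)) (Ch.memL (k + 1)) (Ch.alive (k + 1)) hX0
    have h3 : (S.lam (Ch.l (k + 1))).real W ≤ (S.lam (Ch.l (k + 1))).real
        {y : Ball κ | y ∈ BA (Ch.b (k + 1)) ∧ S.ab0 y (Ch.l (k + 1)) <
          (S.nu y).real {Ch.l (k + 1)} - X} +
        (S.lam (Ch.l (k + 1))).real (BA (Ch.b (k + 1)))ᶜ := by
      refine (measureReal_mono ?_).trans (measureReal_union_le _ _)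
      intro y hy
      by_cases hyb : y ∈ BA (Ch.b (k + 1))
      · left
        have hres : Ball.res (Ch.b (k + 1)) y = y := hyb
        have hy' : S.ab0 (Ball.res (Ch.b (k + 1)) y) (Ch.l (k + 1)) <
          (S.nu (Ball.res (Ch.b (k + 1)) y)).real {Ch.l (k + 1)} - X := hy
        rw [hres] at hy'
        exact ⟨hyb, hy'⟩
      · exact Or.inr hyb
    have h4 : (S.lam (Ch.l (k + 1))).real (BA (Ch.b (k + 1)))ᶜ = 0 := by
      rw [measureReal_def, S.lam_compl_BA hret (Ch.memL (k + 1))]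
      rfl
    linarith
  have h2 : S.sb (Ch.b (k + 1)) (Ch.l (k + 1)) - S.Fv (Ch.l (k + 1)) ≤ 2 * Ch.e k := by
    have := Ch.sb_succ_le k
    have := Ch.s_sub_lt k
    linarith
  have he := Ch.e_small k
  have he0 := Ch.e_pos k
  rw [hX4] at he
  have hone : 1 / (128 * S.C) ≤ 1 / 128 := by
    apply one_div_le_one_div_of_le (by norm_num)
    linarith
  have he1 : 2 * S.C * Ch.e k ≤ X * X / 128 := by
    have : X * X * (1 / (128 * S.C)) ≤ X * X * (1 / 128) :=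
      mul_le_mul_of_nonneg_left hone (by positivity)
    linarith
  have he2 : 2 * Ch.e k ≤ X * X / 128 := by
    have : 2 * Ch.e k ≤ 2 * S.C * Ch.e k := by
      have : 1 * Ch.e k ≤ S.C * Ch.e k := mul_le_mul_of_nonneg_right hC1 he0.le
      linarith
    linarith
  have h3 : (S.sb (Ch.b (k + 1)) (Ch.l (k + 1)) - S.Fv (Ch.l (k + 1))) / X ≤ X / 128 := by
    rw [div_le_iff₀ hX0]
    linarith
  have h4 := S.lam_le_add hret hretinf (Ch.sub_inf (k + 1)) Ch.memL_inf (Ch.rho_inf (k + 1)) hWm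
  rw [hpre] at h4
  have h5 : S.C * (S.Fv Ch.linf - S.Fv (Ch.l (k + 1))) ≤ X * X / 128 := by
    have h6 := mul_le_mul_of_nonneg_left (Ch.Fv_inf_sub k) hC.le
    linarith
  have h6 : X * X ≤ X := by nlinarith
  linarith

end Sys

end Pool.Agent.ZDB

end

section

/-!
# ZDB/ChainAe : c_l ≤ ᾱ(l) almost everywhere at the limit node
Borel–Cantelli (measure_limsup_eq_zero / ae_eventually_notMem, ∑ (1/2)^k < ∞) and bad_le: for lam_linf-a.e. y, for all large k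
ab0 (res b_{k+1} y) l_{k+1} ≥ nu_{res b_{k+1} y}{l_{k+1}} − (1/2)^k; also y ∈ BA binf a.e.  Let y be such a point, nm y < 1.
* atom_liminf: for ε > 0 and large k nu_{res b_k y}{l_k} ≥ nu_y{linf} − ε:  with y_k = res b_k y: nu_{y_k}{l_k} = nu_{y_k}(univ) − nu_{y_k}({l_k}ᶜ) ≥
  nu_{y_k}(univ) − nu_y(ρ_{b_k}⁻¹({l_k}ᶜ)) (nu_res_real) ≥ nu_{y_k}(univ) − nu_y(univ) + nu_y{linf} (linf ∈ ρ_{b_k}⁻¹{l_k}), and
  nu_{y_k}(univ) > nu_y(univ) − ε for large k (isOpen_nu, y_k → y).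
* Let O ∈ Clop binf, linf ∈ O.  clop_union: O ∈ Clop (b n); for k+1 ≥ n, O ∈ Clop (b(k+1)), l(k+1) = ρ linf ∈ O.  GMono at b(k+1) (s = −1):
  alpha y O ≥ alpha (res b_{k+1} y) O ≥ ab0 (res b_{k+1} y) l(k+1) ≥ nu_{y_{k+1}}{l_{k+1}} − (1/2)^k ≥ nu_y{linf} − ε − (1/2)^k.  So alpha y O ≥ nu_y{linf};
  le_ab_of (s = −1) gives ab0 y linf ≥ nu_y{linf}.
-/

open Set Filter Topology MeasureTheory Pool.Agent.H53.ZD

namespace Pool.Agent.ZDB

variable {κ L : Type*} [TopologicalSpace L] [CompactSpace L] [T2Space L] [TotallyDisconnectedSpace L]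
  [MeasurableSpace L] [BorelSpace L]

namespace Sys

variable {S : Sys κ L} {𝒢 : GoodFam S} (Ch : Chain 𝒢)

theorem Chain.atom_liminf {y : Ball κ} (hy : y ∈ BA Ch.binf) {ε : ℝ} (hε : 0 < ε) :
    ∀ᶠ k in atTop, (S.nu y).real {Ch.linf} - ε < (S.nu (Ball.res (Ch.b k) y)).real {Ch.l k} := by
  have h1 := (Ch.tendsto_res_inf hy).eventually ((S.isOpen_nu isOpen_univ
    ((S.nu y).real univ - ε)).mem_nhds (show y ∈ {z | (S.nu y).real univ - ε <
      (S.nu z).real univ} from by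
        show (S.nu y).real univ - ε < (S.nu y).real univ
        linarith))
  filter_upwards [h1] with k hk
  have hk' : (S.nu y).real univ - ε < (S.nu (Ball.res (Ch.b k) y)).real univ := hk
  have h2 : (S.nu (Ball.res (Ch.b k) y)).real {Ch.l k}ᶜ =
      (S.nu (Ball.res (Ch.b k) y)).real univ - (S.nu (Ball.res (Ch.b k) y)).real {Ch.l k} :=
    measureReal_compl (measurableSet_singleton _)
  have h3 : (S.nu y).real {Ch.linf}ᶜ = (S.nu y).real univ - (S.nu y).real {Ch.linf} :=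
    measureReal_compl (measurableSet_singleton _)
  have h4 := S.nu_res_real (𝒢.ret _ (Ch.good k)) y (measurableSet_singleton (Ch.l k)).compl
  have h5 : (S.nu y).real (S.rho (Ch.b k) ⁻¹' {Ch.l k}ᶜ) ≤ (S.nu y).real {Ch.linf}ᶜ := by
    refine measureReal_mono (fun z hz hz2 => ?_)
    rw [mem_singleton_iff] at hz2
    apply hz
    rw [hz2]
    exact Ch.rho_inf k
  linarith

theorem Chain.ae_le : ∀ᵐ y ∂(S.lam Ch.linf), y ∈ BA Ch.binf ∧
    (nm y < 1 → (S.nu y).real {Ch.linf} ≤ S.ab0 y Ch.linf) := by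
  have hret : S.Ret Ch.binf := 𝒢.ret _ Ch.good_inf
  have hBC : ∀ᵐ y ∂(S.lam Ch.linf), ∀ᶠ k in atTop,
      y ∉ {y : Ball κ | S.ab0 (Ball.res (Ch.b (k + 1)) y) (Ch.l (k + 1)) <
      (S.nu (Ball.res (Ch.b (k + 1)) y)).real {Ch.l (k + 1)} - (1 / 2) ^ k} := by
    apply ae_eventually_notMem
    have hs : Summable (fun k : ℕ => ((1 : ℝ) / 2) ^ k) :=
      summable_geometric_of_lt_one (by norm_num) (by norm_num)
    have h1 : ∑' k : ℕ, ENNReal.ofReal (((1 : ℝ) / 2) ^ k) ≠ ⊤ := by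
      rw [← ENNReal.ofReal_tsum_of_nonneg (fun k => by positivity) hs]
      exact ENNReal.ofReal_ne_top
    refine ne_top_of_le_ne_top h1 (ENNReal.tsum_le_tsum (fun k => ?_))
    rw [← ofReal_measureReal (measure_ne_top _ _)]
    exact ENNReal.ofReal_le_ofReal (Ch.bad_le k)
  have hBA : ∀ᵐ y ∂(S.lam Ch.linf), y ∈ BA Ch.binf := by
    rw [ae_iff]
    exact S.lam_compl_BA hret Ch.memL_inf
  filter_upwards [hBC, hBA] with y hy1 hy2
  refine ⟨hy2, fun hy3 => ?_⟩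
  unfold ab0
  refine S.le_ab_of hret (𝒢.rlq _ Ch.good_inf) hy2 Ch.memL_inf (fun O hO hlO => ?_)
  rw [S.Fs_neg_one, inter_univ]
  refine le_of_forall_pos_le_add (fun ε hε => ?_)
  obtain ⟨n, hn⟩ := S.clop_union Ch.b_mono (fun k => 𝒢.ret _ (Ch.good k)) hO
  have hpow : ∀ᶠ k : ℕ in atTop, ((1 : ℝ) / 2) ^ k < ε / 2 :=
    (tendsto_pow_atTop_nhds_zero_of_lt_one (r := (1 : ℝ) / 2) (by norm_num)
      (by norm_num)).eventually_lt_const (by linarith)
  have hat := (tendsto_add_atTop_nat 1).eventually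
    (Ch.atom_liminf hy2 (show (0 : ℝ) < ε / 2 by linarith))
  obtain ⟨k, ⟨hk1, hk2⟩, hk3, hk4⟩ :=
    ((hy1.and hpow).and (hat.and (eventually_ge_atTop n))).exists
  have hretk : S.Ret (Ch.b (k + 1)) := 𝒢.ret _ (Ch.good (k + 1))
  have hO' : S.Clop (Ch.b (k + 1)) O :=
    Clop.mono S (𝒢.ret _ (Ch.good n)) hretk (Ch.b_mono (by omega)) hn
  have hlk : Ch.l (k + 1) ∈ O := by
    rw [← Ch.rho_inf (k + 1)]
    exact (hO'.mem_iff S _).2 hlO
  have h1 := 𝒢.gmono _ (Ch.good (k + 1)) O hO' (-1) (Ball.res (Ch.b (k + 1)) y)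
    (res_mem_BA _ _) y rfl hy3
  have e : (((-1 : ℚ)) : ℝ) = -1 := by norm_num
  rw [e, S.Fs_neg_one, inter_univ] at h1
  have h2 := S.ab0_le (x := Ball.res (Ch.b (k + 1)) y) hO'.1 hlk
  have h3 : (S.nu (Ball.res (Ch.b (k + 1)) y)).real {Ch.l (k + 1)} - (1 / 2) ^ k ≤
      S.ab0 (Ball.res (Ch.b (k + 1)) y) (Ch.l (k + 1)) := not_lt.1 hk1
  linarith

end Sys

end Pool.Agent.ZDB

end

section

/-!
# ZDB/ChainAlive : the limit node is alive
R₀ = {y | nu_y{l₀} ≥ 1/(2C), nm y ≤ 1 − r₀}, lam_{l₀}(R₀) ≥ 3/(8C) (room), measurable.  W := {y | res (b 0) y ∈ R₀}: lam_linf(W) ≥ 3/(8C)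
(lam_rho_real).  Subtract {r₀ ≤ mass (b 0)ᶜ y}: ≤ cost (b 0) linf/r₀ ≤ (1/(64C))θ₀/r₀ ≤ 1/(64C) (lam_mass_le, cost_inf, θ_r₀), and
{nu_y(ρ_{b 0}⁻¹{l₀}∖{linf}) ≥ 1/(4C)}: ≤ 4C(Fv linf − Fv l₀) ≤ 4C/(64C²) = 1/(16C) (Markov, rigid_fibre; top, Fv_inf_le_Sig).
3/(8C) − 1/(64C) − 1/(16C) > 0, so (with ae_le) there is y ∈ BA binf with nm y = nm(res (b 0) y) + mass (b 0)ᶜ y < 1,
nu_y{linf} ≥ nu_{res (b 0) y}{l₀} − nu_y(ρ⁻¹{l₀}∖{linf}) > 1/(4C) (atom_res_le), and nu_y{linf} ≤ ab0 y linf.  So ab0 y linf > 0.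
-/

open Set Filter Topology MeasureTheory Pool.Agent.H53.ZD

namespace Pool.Agent.ZDB

variable {κ L : Type*} [TopologicalSpace L] [CompactSpace L] [T2Space L] [TotallyDisconnectedSpace L]
  [MeasurableSpace L] [BorelSpace L]

namespace Sys

variable {S : Sys κ L} {𝒢 : GoodFam S} (Ch : Chain 𝒢)

theorem Chain.alive_inf : S.Alive Ch.binf Ch.linf := by
  have hC := S.C_pos
  have hC1 := S.one_le
  have hret0 : S.Ret (Ch.b 0) := 𝒢.ret _ (Ch.good 0)
  have hretinf : S.Ret Ch.binf := 𝒢.ret _ Ch.good_inf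
  have hr0 := Ch.r₀_pos
  set μ : Measure (Ball κ) := S.lam Ch.linf with hμ
  set R₀ : Set (Ball κ) := {y : Ball κ | 1 / (2 * S.C) ≤ (S.nu y).real {Ch.l 0} ∧
    nm y ≤ 1 - Ch.r₀} with hR₀
  have hR₀m : MeasurableSet R₀ :=
    (measurableSet_le measurable_const (S.measurable_atom (Ch.l 0))).inter
      (measurableSet_le (Ball.measurable_mass univ) measurable_const)
  have hroom : 3 / (8 * S.C) ≤ μ.real (Ball.res (Ch.b 0) ⁻¹' R₀) := by
    have h1 := S.lam_rho_real hret0 Ch.linf hR₀m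
    rw [Ch.rho_inf 0] at h1
    exact Ch.room.trans h1
  set F : Set L := (S.rho (Ch.b 0) ⁻¹' {Ch.l 0}) \ {Ch.linf} with hF
  have hFm : MeasurableSet F :=
    ((isClosed_singleton.preimage (S.rho (Ch.b 0)).continuous).measurableSet).diff
      (measurableSet_singleton _)
  have hE1 : μ.real {y | Ch.r₀ ≤ Ball.mass (Ch.b 0)ᶜ y} ≤ 1 / (64 * S.C) := by
    refine (S.lam_mass_le (Ch.b 0) Ch.linf hr0).trans ?_
    rw [div_le_iff₀ hr0]
    have h1 := Ch.cost_inf 0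
    have h2 := Ch.θ_r₀
    rw [pow_zero, one_mul] at h1
    exact h1.trans (mul_le_mul_of_nonneg_left h2 (by positivity))
  have hE2 : μ.real {y | 1 / (4 * S.C) ≤ (S.nu y).real F} ≤ 1 / (16 * S.C) := by
    have h1 := S.rigid_fibre hret0 hretinf (Ch.sub_inf 0) Ch.memL_inf (Ch.rho_inf 0)
    have hint : Integrable (fun y => (S.nu y).real F) μ :=
      integrable_bdd _ (S.measurable_nu_real hFm) S.C (fun y => by
        rw [abs_of_nonneg measureReal_nonneg]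
        exact S.nu_le y F)
    have h2 := mul_meas_ge_le_integral_of_nonneg
      (Filter.Eventually.of_forall fun y => (measureReal_nonneg : 0 ≤ (S.nu y).real F)) hint
      (1 / (4 * S.C))
    have h3 : S.Fv Ch.linf - S.Fv (Ch.l 0) ≤ 1 / (64 * S.C ^ 2) := by
      have := Ch.Fv_inf_le_Sig
      have := Ch.top
      linarith
    have h4 : 1 / (4 * S.C) * μ.real {y | 1 / (4 * S.C) ≤ (S.nu y).real F} ≤
        1 / (64 * S.C ^ 2) := h2.trans (h1.trans h3)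
    have h5 : μ.real {y | 1 / (4 * S.C) ≤ (S.nu y).real F} =
        4 * S.C * (1 / (4 * S.C) * μ.real {y | 1 / (4 * S.C) ≤ (S.nu y).real F}) := by
      field_simp
    rw [h5]
    refine (mul_le_mul_of_nonneg_left h4 (by positivity)).trans (le_of_eq ?_)
    field_simp
    norm_num
  have hae := Ch.ae_le
  rw [ae_iff] at hae
  set N : Set (Ball κ) := {y | ¬(y ∈ BA Ch.binf ∧
    (nm y < 1 → (S.nu y).real {Ch.linf} ≤ S.ab0 y Ch.linf))} with hN
  have hNr : μ.real N = 0 := by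
    rw [measureReal_def, hμ, hae]
    rfl
  by_contra hcon
  have hsub : Ball.res (Ch.b 0) ⁻¹' R₀ ⊆ ({y | Ch.r₀ ≤ Ball.mass (Ch.b 0)ᶜ y} ∪
      {y | 1 / (4 * S.C) ≤ (S.nu y).real F}) ∪ N := by
    intro y hy
    by_contra hyn
    apply hcon
    have hy1 : ¬ (Ch.r₀ ≤ Ball.mass (Ch.b 0)ᶜ y) := fun h => hyn (Or.inl (Or.inl h))
    have hy2 : ¬ (1 / (4 * S.C) ≤ (S.nu y).real F) := fun h => hyn (Or.inl (Or.inr h))
    have hy3 : y ∈ BA Ch.binf ∧ (nm y < 1 → (S.nu y).real {Ch.linf} ≤ S.ab0 y Ch.linf) := by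
      by_contra h
      exact hyn (Or.inr h)
    obtain ⟨hya, hyb⟩ : 1 / (2 * S.C) ≤ (S.nu (Ball.res (Ch.b 0) y)).real {Ch.l 0} ∧
      nm (Ball.res (Ch.b 0) y) ≤ 1 - Ch.r₀ := hy
    push Not at hy1 hy2
    have hnm : nm y < 1 := by
      rw [nm_split (Ch.b 0) y]
      rw [nm_res] at hyb
      linarith
    have h1 := S.atom_res_le hret0 (Ch.rho_inf 0) y
    have h2 := hy3.2 hnm
    have h3 : 1 / (2 * S.C) = 1 / (4 * S.C) + 1 / (4 * S.C) := by
      field_simp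
      norm_num
    refine ⟨y, hy3.1, ?_⟩
    have h4 : (0:ℝ) < 1 / (4 * S.C) := by positivity
    have h5 : (S.nu (Ball.res (Ch.b 0) y)).real {Ch.l 0} ≤
      (S.nu y).real {Ch.linf} + (S.nu y).real F := h1
    linarith
  have h1 : μ.real (Ball.res (Ch.b 0) ⁻¹' R₀) ≤ 1 / (64 * S.C) + 1 / (16 * S.C) + 0 := by
    refine (measureReal_mono hsub).trans ?_
    refine (measureReal_union_le _ _).trans ?_
    rw [hNr]
    have h2 := (measureReal_union_le (μ := μ) {y | Ch.r₀ ≤ Ball.mass (Ch.b 0)ᶜ y}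
      {y | 1 / (4 * S.C) ≤ (S.nu y).real F})
    linarith
  have h2 : (3:ℝ) / (8 * S.C) = 24 * (1 / (64 * S.C)) := by
    field_simp
    norm_num
  have h3 : (1:ℝ) / (16 * S.C) = 4 * (1 / (64 * S.C)) := by
    field_simp
    norm_num
  have h4 : (0:ℝ) < 1 / (64 * S.C) := by positivity
  linarith

end Sys

end Pool.Agent.ZDB

end

section

/-!
# ZDB/ChainSb : s_b(l) ≤ F(l) at the limit node, and (P1), (P2)
Let k, ε > 0.  `next` at (binf, linf) (alive_inf) with A = any good A ⊇ binf, q = τ_k/(256C): (b',l'), Fv l' > sb − ε, alive, Fv l' ≤ Sig,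
cost binf l' ≤ q, ρ_{binf}l' = linf, ρ_{b(k+1)}l' = l(k+1).
lam_{l'}{τ_k/2 ≤ mass (b(k+1))ᶜ} ≤ lam_linf{τ_k/4 ≤ mass (b(k+1))ᶜ} + C(Fv l' − Fv linf) + lam_{l'}{τ_k/4 ≤ mass binfᶜ}   (mass_step, b(k+1) ⊆ binf ⊆ b')
≤ (4/τ_k)(1/4)^{k+1}(1/(64C))θ(k+1) + C/(64C²) + 4q/τ_k ≤ 1/(64C) + 1/(64C) + 1/(64C) ≤ 1/(16C)
(cost_inf, θ_le_τ; Fv l' − Fv linf ≤ Sig − Fv(l 0) < 1/(64C²)).  conv_use: Fv l' ≤ s k.  So sb ≤ s k ≤ Fv(l(k+1)) + 2e_k ≤ Fv linf + 2e_k for all k and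
e_k → 0.
P1: ab y linf s = 0 for s > Fv linf ≥ sb (ab_eq_zero_of_sb_lt).  P2: lam_T with t = 1/n: the measure of {ab0 y linf < nu_y{linf} − 1/n} is ≤ 0.
-/

open Set Filter Topology MeasureTheory Pool.Agent.H53.ZD

namespace Pool.Agent.ZDB

variable {κ L : Type*} [TopologicalSpace L] [CompactSpace L] [T2Space L] [TotallyDisconnectedSpace L]
  [MeasurableSpace L] [BorelSpace L]

namespace Sys

variable {S : Sys κ L} {𝒢 : GoodFam S} (Ch : Chain 𝒢)

private theorem Chain.sb_inf_le_s (k : ℕ) : S.sb Ch.binf Ch.linf ≤ Ch.s k := by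
  have hC := S.C_pos
  have hC1 := S.one_le
  have hτ : (0 : ℝ) < Ch.τ k := by exact_mod_cast Ch.τ_pos k
  have hretinf : S.Ret Ch.binf := 𝒢.ret _ Ch.good_inf
  have hret1 : S.Ret (Ch.b (k + 1)) := 𝒢.ret _ (Ch.good (k + 1))
  refine le_of_forall_pos_le_add fun ε hε => ?_
  obtain ⟨b', l', h1, h2, h3, h4, h5, h6, h7, h8, h9⟩ :=
    next 𝒢 Ch.good_inf Ch.memL_inf Ch.alive_inf Ch.good_inf
      (Subset.refl _) (q := (Ch.τ k : ℝ) / (256 * S.C)) (by positivity) hε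
  have hret' : S.Ret b' := 𝒢.ret b' h1
  have hsub : Ch.b (k + 1) ⊆ b' := (Ch.sub_inf (k + 1)).trans h2
  have hr1 : S.rho (Ch.b (k + 1)) l' = Ch.l (k + 1) := by
    rw [← Ch.rho_inf (k + 1), ← h4, S.rho_rho hret1 hretinf (Ch.sub_inf (k + 1))]
  have hSig : S.Fv l' ≤ S.Sig := S.Fv_le_Sig h9
  have hm : (S.lam l').real {y | (Ch.τ k : ℝ) / 2 ≤ Ball.mass (Ch.b (k + 1))ᶜ y} ≤
      1 / (16 * S.C) := by
    have e1 := S.mass_step hretinf hret' (Ch.sub_inf (k + 1)) h2 h3 h4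
      (r := (Ch.τ k : ℝ) / 2)
    have e2 := S.lam_mass_le (Ch.b (k + 1)) Ch.linf (r := (Ch.τ k : ℝ) / 2 / 2) (by positivity)
    have e3 := S.lam_mass_le Ch.binf l' (r := (Ch.τ k : ℝ) / 2 / 2) (by positivity)
    have e4 := Ch.cost_inf (k + 1)
    have e5 := Ch.θ_le_τ k
    have hθ0 := Ch.θ_pos (k + 1)
    have f1 : S.cost (Ch.b (k + 1)) Ch.linf / ((Ch.τ k : ℝ) / 2 / 2) ≤ 1 / (64 * S.C) := by
      rw [div_le_iff₀ (by positivity)]
      refine e4.trans ?_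
      have g1 : ((1:ℝ) / 4) ^ (k + 1) ≤ 1 / 4 := by
        rw [pow_succ]
        have : ((1:ℝ) / 4) ^ k ≤ 1 := pow_le_one₀ (by norm_num) (by norm_num)
        linarith
      have g2 : (1:ℝ) / (64 * S.C) * Ch.θ (k + 1) ≤ 1 / (64 * S.C) * Ch.τ k :=
        mul_le_mul_of_nonneg_left e5 (by positivity)
      have g3 : ((1:ℝ) / 4) ^ (k + 1) * (1 / (64 * S.C) * Ch.θ (k + 1)) ≤
          1 / 4 * (1 / (64 * S.C) * Ch.τ k) :=
        mul_le_mul g1 g2 (by positivity) (by norm_num)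
      linarith
    have f2 : S.cost Ch.binf l' / ((Ch.τ k : ℝ) / 2 / 2) ≤ 1 / (64 * S.C) := by
      rw [div_le_iff₀ (by positivity)]
      refine h8.trans (le_of_eq ?_)
      field_simp
      norm_num
    have f3 : S.C * (S.Fv l' - S.Fv Ch.linf) ≤ 1 / (64 * S.C) := by
      have g1 : S.Fv l' - S.Fv Ch.linf ≤ 1 / (64 * S.C ^ 2) := by
        have := Ch.top
        have := Ch.Fv_le_inf 0
        linarith
      refine (mul_le_mul_of_nonneg_left g1 hC.le).trans (le_of_eq ?_)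
      field_simp
    have f4 : (1:ℝ) / (16 * S.C) = 4 * (1 / (64 * S.C)) := by
      field_simp
      norm_num
    have f5 : (0:ℝ) < 1 / (64 * S.C) := by positivity
    linarith
  have h10 := Ch.conv_use hret' hsub h3 hr1 hSig hm
  linarith

theorem Chain.sb_inf_le : S.sb Ch.binf Ch.linf ≤ S.Fv Ch.linf := by
  have hC := S.C_pos
  have hC1 := S.one_le
  refine le_of_forall_pos_le_add fun ε hε => ?_
  obtain ⟨k, hk⟩ := exists_pow_lt_of_lt_one hε (show ((1:ℝ) / 4) < 1 by norm_num)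
  have h1 := Ch.sb_inf_le_s k
  have h2 := Ch.s_sub_lt k
  have h3 := Ch.Fv_le_inf (k + 1)
  have h4 := Ch.e_small k
  have he := Ch.e_pos k
  have h5 : 2 * Ch.e k ≤ 2 * S.C * Ch.e k := by
    have : 1 * Ch.e k ≤ S.C * Ch.e k := mul_le_mul_of_nonneg_right hC1 he.le
    linarith
  have h6 : (1:ℝ) / (128 * S.C) ≤ 1 := by
    rw [div_le_one (by positivity)]
    linarith
  have h7 : ((1:ℝ) / 4) ^ k * (1 / (128 * S.C)) ≤ (1 / 4) ^ k * 1 :=
    mul_le_mul_of_nonneg_left h6 (by positivity)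
  linarith

theorem Chain.P1 {y : Ball κ} (hy : y ∈ BA Ch.binf) {s : ℝ} (hs : S.Fv Ch.linf < s) :
    S.ab y Ch.linf s = 0 := S.ab_eq_zero_of_sb_lt (Ch.sb_inf_le.trans_lt hs) hy

theorem Chain.P2 : ∀ᵐ y ∂(S.lam Ch.linf), y ∈ BA Ch.binf ∧
    (S.nu y).real {Ch.linf} ≤ S.ab0 y Ch.linf := by
  have hretinf : S.Ret Ch.binf := 𝒢.ret _ Ch.good_inf
  have h1 : ∀ᵐ y ∂(S.lam Ch.linf), y ∈ BA Ch.binf := by
    rw [ae_iff]
    exact S.lam_compl_BA hretinf Ch.memL_inf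
  have h2 : ∀ n : ℕ, ∀ᵐ y ∂(S.lam Ch.linf), ¬(y ∈ BA Ch.binf ∧
      S.ab0 y Ch.linf < (S.nu y).real {Ch.linf} - 1 / ((n : ℝ) + 1)) := by
    intro n
    have ht : (0:ℝ) < 1 / ((n : ℝ) + 1) := by positivity
    have e1 := lam_T 𝒢 Ch.good_inf Ch.memL_inf Ch.alive_inf ht
    have e2 : (S.sb Ch.binf Ch.linf - S.Fv Ch.linf) / (1 / ((n : ℝ) + 1)) ≤ 0 :=
      div_nonpos_of_nonpos_of_nonneg (by have := Ch.sb_inf_le; linarith) ht.le
    have e3 := (measureReal_nonneg (μ := S.lam Ch.linf) (s := {y : Ball κ | y ∈ BA Ch.binf ∧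
      S.ab0 y Ch.linf < (S.nu y).real {Ch.linf} - 1 / ((n : ℝ) + 1)}))
    have e4 : (S.lam Ch.linf).real {y : Ball κ | y ∈ BA Ch.binf ∧
      S.ab0 y Ch.linf < (S.nu y).real {Ch.linf} - 1 / ((n : ℝ) + 1)} = 0 :=
      le_antisymm (e1.trans e2) e3
    rw [measureReal_eq_zero_iff] at e4
    rw [ae_iff]
    simpa only [not_not] using e4
  filter_upwards [h1, ae_all_iff.2 h2] with y hy hy2
  refine ⟨hy, ?_⟩
  refine le_of_forall_pos_le_add fun ε hε => ?_
  obtain ⟨n, hn⟩ := exists_nat_one_div_lt hε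
  have h3 : ¬ (S.ab0 y Ch.linf < (S.nu y).real {Ch.linf} - 1 / ((n : ℝ) + 1)) :=
    fun h => hy2 n ⟨hy, h⟩
  push Not at h3
  linarith

end Sys

end Pool.Agent.ZDB

end

section

/-!
# ZDB/ChainMin : 𝔱 does not drop above the limit node
Let ε > 0; choose k with 2(1/2)^k + (1/2)^{k+1}(1+C) + C·(1/4)^{k+1}/(64C) + 8C²e_k ≤ ε (e_k ≤ (1/4)^k/(256C²)).  q₁ := θ_k/4, e₁ := θ_k/(4C).
Let (b',l') ∈ Cls binf linf binf q₁ e₁ and also Fv l' < Fv linf + e₁ (hypothesis).  It is in Cls (b k)(l k)(A k)(qp k)(ep k):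
ρ_{A k}l' = ρ_{A k}ρ_{binf}l' = ρ_{A k}linf = l k; l' ≠ l k (Chain.over with ρ_{b(k+1)}l' = l(k+1)); cost (b k) l' ≤ cost (b k) linf + C(Fv l' − Fv linf) +
cost binf l' (cost_step) ≤ θ_k/64 + θ_k/4 + θ_k/4 ≤ qp k; Fv l' ≥ Fv linf ≥ Fv(l(k+1)) > sb (b k)(l k) − e_k ≥ sb − ep k.
So tt (b(k+1))(l(k+1)) − 2(1/2)^k ≤ tt b' l' (minim).  tt_upper at (b(k+1), l(k+1)) with A(k+1), b'' = binf, l'' = linf, τ = τ'(k+1):
tt binf linf ≤ tt(b(k+1))(l(k+1)) + (1/2)^{k+1} + C(1/2)^{k+1} + C·lam_linf{τ'(k+1) ≤ mass (b(k+1))ᶜ} + 4C²·2e_k, and the measure is ≤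
cost(b(k+1)) linf/τ'(k+1) ≤ (1/4)^{k+1}/(64C) (θ(k+1) ≤ τ'(k+1)).
-/

open Set Filter Topology MeasureTheory Pool.Agent.H53.ZD

namespace Pool.Agent.ZDB

variable {κ L : Type*} [TopologicalSpace L] [CompactSpace L] [T2Space L] [TotallyDisconnectedSpace L]
  [MeasurableSpace L] [BorelSpace L]

namespace Sys

variable {S : Sys κ L} {𝒢 : GoodFam S} (Ch : Chain 𝒢)

theorem Chain.tt_min {ε : ℝ} (hε : 0 < ε) : ∃ q₁ e₁ : ℝ, 0 < q₁ ∧ 0 < e₁ ∧
    ∀ (b' : Set κ) (l' : L), 𝒢.G b' → Ch.binf ⊆ b' → l' ∈ S.LA b' → S.rho Ch.binf l' = Ch.linf →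
      l' ≠ Ch.linf → S.Alive b' l' → S.cost Ch.binf l' ≤ q₁ → S.Fv l' < S.Fv Ch.linf + e₁ →
      S.tt Ch.binf Ch.linf - ε ≤ S.tt b' l' := by
  have hC : 0 < S.C := S.C_pos
  have hC1 : 1 ≤ S.C := S.one_le
  -- the choice of `k`
  obtain ⟨k, hk⟩ : ∃ k : ℕ, ((1 : ℝ) / 2) ^ k * (4 + S.C) < ε := by
    obtain ⟨k, hk⟩ := exists_pow_lt_of_lt_one (show (0 : ℝ) < ε / (4 + S.C) by positivity)
      (show (1 : ℝ) / 2 < 1 by norm_num)
    exact ⟨k, by rwa [lt_div_iff₀ (by positivity)] at hk⟩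
  have hθ := Ch.θ_pos k
  have hθ1 := Ch.θ_le_one k
  have hp4 : ((1 : ℝ) / 4) ^ k ≤ 1 := pow_le_one₀ (by norm_num) (by norm_num)
  have hp4' : (0 : ℝ) < ((1 : ℝ) / 4) ^ k := by positivity
  refine ⟨Ch.θ k / 4, Ch.θ k / (4 * S.C), by positivity, by positivity, ?_⟩
  intro b' l' hb' hsub hl' hrho hne halive hcost hF
  have hRinf : S.Ret Ch.binf := 𝒢.ret _ Ch.good_inf
  have hRb' : S.Ret b' := 𝒢.ret _ hb'
  have hRk : S.Ret (Ch.b (k + 1)) := 𝒢.ret _ (Ch.good (k + 1))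
  -- `l'` is over `l (k+1)`
  have hr1 : S.rho (Ch.b (k + 1)) l' = Ch.l (k + 1) := by
    rw [← S.rho_rho hRk hRinf (Ch.sub_inf (k + 1)) l', hrho]
    exact Ch.rho_inf (k + 1)
  obtain ⟨hA, -, hne'⟩ := Ch.over hr1
  -- the cost
  have hc1 := S.cost_step (b := Ch.b k) hRinf hRb' (Ch.sub_inf k) hsub hl' hrho
  have hc2 := Ch.cost_inf k
  have hc3 : (1 / 4 : ℝ) ^ k * (1 / (64 * S.C)) * Ch.θ k ≤ Ch.θ k / 64 := by
    have h1 : (1 : ℝ) / (64 * S.C) ≤ 1 / 64 :=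
      one_div_le_one_div_of_le (by norm_num) (by linarith)
    have h2 : (1 / 4 : ℝ) ^ k * (1 / (64 * S.C)) ≤ 1 * (1 / 64) :=
      mul_le_mul hp4 h1 (by positivity) (by norm_num)
    calc (1 / 4 : ℝ) ^ k * (1 / (64 * S.C)) * Ch.θ k ≤ (1 * (1 / 64)) * Ch.θ k :=
          mul_le_mul_of_nonneg_right h2 hθ.le
      _ = Ch.θ k / 64 := by ring
  have hc4 : S.C * (S.Fv l' - S.Fv Ch.linf) ≤ Ch.θ k / 4 := by
    have h1 : S.Fv l' - S.Fv Ch.linf ≤ Ch.θ k / (4 * S.C) := by linarith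
    calc S.C * (S.Fv l' - S.Fv Ch.linf) ≤ S.C * (Ch.θ k / (4 * S.C)) :=
          mul_le_mul_of_nonneg_left h1 hC.le
      _ = Ch.θ k / 4 := by field_simp
  have hcost' : S.cost (Ch.b k) l' ≤ Ch.qp k := by
    have := Ch.θ_qp k
    linarith
  -- the values of `F`
  have hFinf : S.Fv Ch.linf ≤ S.Fv l' := S.Fv_mono_of_rho hRinf hrho
  have hek : Ch.e k ≤ Ch.ep k := by
    have h1 := Ch.e_le k
    have h2 : (1 / 4 : ℝ) ^ k * (1 / (256 * S.C ^ 2)) ≤ 1 := by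
      have h3 : (1 : ℝ) / (256 * S.C ^ 2) ≤ 1 := by
        rw [div_le_one (by positivity)]
        nlinarith
      calc (1 / 4 : ℝ) ^ k * (1 / (256 * S.C ^ 2)) ≤ 1 * 1 :=
            mul_le_mul hp4 h3 (by positivity) (by norm_num)
        _ = 1 := by norm_num
    have h4 : (1 / 4 : ℝ) ^ k * (1 / (256 * S.C ^ 2)) * Ch.θ k ≤ 1 * Ch.θ k :=
      mul_le_mul_of_nonneg_right h2 hθ.le
    have h5 := Ch.θ_ep k
    linarith
  have hF' : S.sb (Ch.b k) (Ch.l k) - Ch.ep k < S.Fv l' := by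
    have h1 := Ch.c1 k
    have h2 := Ch.Fv_le_inf (k + 1)
    linarith
  have hmin := Ch.minim k b' l'
    ⟨hb', (Ch.A_sub_inf k).trans hsub, hl', hA, hne', halive, hcost', hF'⟩
  -- the upper bound at the limit node
  have hτ' := Ch.τ'_pos (k + 1)
  have hτ'' : (0 : ℝ) < Ch.τ' (k + 1) := by exact_mod_cast hτ'
  have hup := S.tt_upper (b := Ch.b (k + 1)) (A := Ch.A (k + 1)) (b'' := Ch.binf) hRk
    (𝒢.rlq _ (Ch.good (k + 1))) (𝒢.ret _ (Ch.goodA (k + 1))) (Ch.stab (k + 1)) hRinf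
    (𝒢.rlq _ Ch.good_inf) (Ch.A_sub_inf (k + 1)) (Ch.memL (k + 1)) Ch.memL_inf
    (Ch.rhoA_inf (k + 1)) hτ'
  have hI := Ch.modI (k + 1)
  have hM := Ch.modM (k + 1)
  have hm1 := S.lam_mass_le (Ch.b (k + 1)) Ch.linf hτ''
  have hci := Ch.cost_inf (k + 1)
  have hm2 : S.cost (Ch.b (k + 1)) Ch.linf / Ch.τ' (k + 1) ≤
      (1 / 4) ^ (k + 1) * (1 / (64 * S.C)) := by
    rw [div_le_iff₀ hτ'']
    exact hci.trans (mul_le_mul_of_nonneg_left (Ch.θ_τ' (k + 1)) (by positivity))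
  have hm3 : S.C * (S.lam Ch.linf).real
      {y | (Ch.τ' (k + 1) : ℝ) ≤ Ball.mass (Ch.b (k + 1))ᶜ y} ≤ (1 / 4) ^ (k + 1) * (1 / 64) := by
    refine (mul_le_mul_of_nonneg_left (hm1.trans hm2) hC.le).trans (le_of_eq ?_)
    field_simp
  have hm4 : S.C * (S.lam (Ch.l (k + 1))).real
      {y : Ball κ | 1 - 2 * (Ch.τ' (k + 1) : ℝ) < nm (Ball.res (Ch.b (k + 1)) y) ∧
        nm (Ball.res (Ch.b (k + 1)) y) < 1} ≤ S.C * (1 / 2) ^ (k + 1) :=
    mul_le_mul_of_nonneg_left hM hC.le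
  have hm5 : 4 * S.C ^ 2 * (S.Fv Ch.linf - S.Fv (Ch.l (k + 1))) ≤ (1 / 4) ^ k * (1 / 32) := by
    have h1 := Ch.Fv_inf_sub k
    have h2 := Ch.e_le k
    have h3 : (1 / 4 : ℝ) ^ k * (1 / (256 * S.C ^ 2)) * Ch.θ k ≤
        (1 / 4 : ℝ) ^ k * (1 / (256 * S.C ^ 2)) * 1 :=
      mul_le_mul_of_nonneg_left hθ1 (by positivity)
    calc 4 * S.C ^ 2 * (S.Fv Ch.linf - S.Fv (Ch.l (k + 1)))
        ≤ 4 * S.C ^ 2 * (2 * ((1 / 4 : ℝ) ^ k * (1 / (256 * S.C ^ 2)) * 1)) :=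
          mul_le_mul_of_nonneg_left (by linarith) (by positivity)
      _ = (1 / 4) ^ k * (1 / 32) := by
          field_simp
          norm_num
  have hpow : ((1 : ℝ) / 4) ^ k ≤ (1 / 2) ^ k :=
    pow_le_pow_left₀ (by norm_num) (by norm_num) k
  have hp2 : (0 : ℝ) < ((1 : ℝ) / 2) ^ k := by positivity
  have e1 : ((1 : ℝ) / 2) ^ (k + 1) = (1 / 2) ^ k / 2 := by rw [pow_succ]; ring
  have e2 : ((1 : ℝ) / 4) ^ (k + 1) = (1 / 4) ^ k / 4 := by rw [pow_succ]; ring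
  rw [e1] at hI hm4
  rw [e2] at hm3
  have hCp : S.C * ((1 / 2) ^ k / 2) ≤ S.C * (1 / 2) ^ k :=
    mul_le_mul_of_nonneg_left (by linarith) hC.le
  have hk' : ((1 : ℝ) / 2) ^ k * (4 + S.C) = 4 * (1 / 2) ^ k + S.C * (1 / 2) ^ k := by ring
  rw [hk'] at hk
  linarith

end Sys

end Pool.Agent.ZDB

end

section

/-!
# ZDB/BaseNode : README 7.1
(b,l) = (binf,linf) of a chain (exists_chain).  P1, P2 from ChainSb.  P3: let A ⊇ b good, k₀ > 0.
E := k₀²/4 (WLOG k₀ ≤ 1).  q₁,e₁ from tt_min with ε = E/4.  τ from exists_modulus at (b,l) with ε = E/(16C).  A⁺ ⊇ A good with Stab b A⁺.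
`next` at (b,l), A⁺, q := min(q₁, k₀, τE/(16C)), ε := small: ≤ e₁, k₀, E/(64C²), k₀/(4C)..: (b',l'), |Fv l' − Fv l| < ε (sb = Fv: sb_inf_le, Fv_le_sb).
ρ_A l' = ρ_A ρ_{A⁺}l' = ρ_A l = l (l ∈ LA b ⊆ LA A); l' ≠ l.
Exceptional set {y' | ¬(res A y' ∈ BA b ∧ ab0 (res b y') l − k₀ ≤ ab0 y' l')}: (i) lam_{l'}(res A⁻¹(BA b)ᶜ) ≤ C(Fv l' − Fv l) ≤ k₀/4 (lam_le_add, lam_compl_BA).
(ii) ab0_dominated (at A⁺): f ≥ ab0 · l' and f ≥ ab0 (res b ·) l on BA b', ∫ f dlam_{l'} ≤ tt b l + E/(16C) + C·E/(16C) + C·cost b l'/τ + 4C²ε ≤ tt b l + E/2,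
while ∫ ab0 (res b' y) l' dlam_{l'} = tt b' l' ≥ tt b l − E/4.  So ∫ (f − ab0(res b' ·) l') dlam_{l'} ≤ 3E/4, integrand ≥ 0 a.e., and
≥ k₀ on {y' ∈ BA b' | ab0 y' l' < ab0 (res b y') l − k₀}; Markov: measure ≤ (3E/4)/k₀ ≤ k₀/4.  (iii) lam_{l'}((BA b')ᶜ) = 0.
-/

open Set Filter Topology MeasureTheory Pool.Agent.H53.ZD

namespace Pool.Agent.ZDB

variable {κ L : Type*} [TopologicalSpace L] [CompactSpace L] [T2Space L] [TotallyDisconnectedSpace L]
  [MeasurableSpace L] [BorelSpace L]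

namespace Sys

variable {S : Sys κ L}

/-- the base node -/
structure Base (𝒢 : GoodFam S) (b : Set κ) (l : L) : Prop where
  good : 𝒢.G b
  memL : l ∈ S.LA b
  P1 : ∀ y ∈ BA b, ∀ s : ℝ, S.Fv l < s → S.ab y l s = 0
  P2 : ∀ᵐ y ∂(S.lam l), y ∈ BA b ∧ (S.nu y).real {l} ≤ S.ab0 y l
  P3 : ∀ A, 𝒢.G A → b ⊆ A → ∀ k₀ : ℝ, 0 < k₀ → ∃ (b' : Set κ) (l' : L), 𝒢.G b' ∧ A ⊆ b' ∧
    l' ∈ S.LA b' ∧ S.rho A l' = l ∧ l' ≠ l ∧ S.Fv l' ≤ S.Fv l + k₀ ∧ S.cost b l' ≤ k₀ ∧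
    (S.lam l').real {y' : Ball κ | ¬ (Ball.res A y' ∈ BA b ∧
      S.ab0 (Ball.res b y') l - k₀ ≤ S.ab0 y' l')} ≤ k₀

private theorem bn_P3 {𝒢 : GoodFam S} (Ch : Chain 𝒢) (A : Set κ) (hA : 𝒢.G A)
    (hbA : Ch.binf ⊆ A) (k₀ : ℝ) (hk : 0 < k₀) :
    ∃ (b' : Set κ) (l' : L), 𝒢.G b' ∧ A ⊆ b' ∧
    l' ∈ S.LA b' ∧ S.rho A l' = Ch.linf ∧ l' ≠ Ch.linf ∧ S.Fv l' ≤ S.Fv Ch.linf + k₀ ∧
    S.cost Ch.binf l' ≤ k₀ ∧
    (S.lam l').real {y' : Ball κ | ¬ (Ball.res A y' ∈ BA Ch.binf ∧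
      S.ab0 (Ball.res Ch.binf y') Ch.linf - k₀ ≤ S.ab0 y' l')} ≤ k₀ := by
  have hC := S.C_pos
  have hC1 := S.one_le
  have hb := Ch.good_inf
  have hl := Ch.memL_inf
  have hrb := 𝒢.ret _ hb
  have hrA := 𝒢.ret _ hA
  have ha := Ch.alive_inf
  have hsb : S.sb Ch.binf Ch.linf = S.Fv Ch.linf :=
    le_antisymm Ch.sb_inf_le (S.Fv_le_sb ha)
  set E : ℝ := k₀ ^ 2 / 4 with hE
  have hEpos : 0 < E := by positivity
  obtain ⟨q₁, e₁, hq₁, he₁, hmin⟩ := Ch.tt_min (ε := E / 4) (by positivity)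
  obtain ⟨τ, hτ, hτ1, hτ2⟩ := S.exists_modulus hrb Ch.linf (ε := E / (16 * S.C)) (by positivity)
  obtain ⟨A₀, hst₀⟩ := S.exists_stab hrb
  obtain ⟨A', hAA', hA'⟩ := 𝒢.exists_superset ((𝒢.countable A hA).union hst₀.2.1)
  have hst : S.Stab Ch.binf A' :=
    hst₀.mono S (subset_union_right.trans hAA') (𝒢.countable A' hA')
  have hAA : A ⊆ A' := subset_union_left.trans hAA'
  have hrA' := 𝒢.ret _ hA'
  have hτ' : (0 : ℝ) < τ := by exact_mod_cast hτ
  set q : ℝ := min q₁ (min k₀ (τ * E / (16 * S.C))) with hq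
  set ε : ℝ := min e₁ (min k₀ (min (E / (64 * S.C ^ 2)) (k₀ / (4 * S.C)))) with hε
  have hqpos : 0 < q := lt_min hq₁ (lt_min hk (by positivity))
  have hεpos : 0 < ε := lt_min he₁ (lt_min hk (lt_min (by positivity) (by positivity)))
  have hq1 : q ≤ q₁ := min_le_left _ _
  have hq2 : q ≤ k₀ := (min_le_right _ _).trans (min_le_left _ _)
  have hq3 : q ≤ τ * E / (16 * S.C) := (min_le_right _ _).trans (min_le_right _ _)
  have hε1 : ε ≤ e₁ := min_le_left _ _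
  have hε2 : ε ≤ k₀ := (min_le_right _ _).trans (min_le_left _ _)
  have hε3 : ε ≤ E / (64 * S.C ^ 2) :=
    (min_le_right _ _).trans ((min_le_right _ _).trans (min_le_left _ _))
  have hε4 : ε ≤ k₀ / (4 * S.C) :=
    (min_le_right _ _).trans ((min_le_right _ _).trans (min_le_right _ _))
  obtain ⟨b', l', hb', hA'b', hl', hr, hne, _, hF, hcost, ha'⟩ :=
    next 𝒢 hb hl ha hA' (hbA.trans hAA) hqpos hεpos
  have hrb' := 𝒢.ret _ hb'
  rw [hsb] at hF
  have hFm : S.Fv Ch.linf ≤ S.Fv l' := S.Fv_mono_of_rho hrA' hr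
  have hlA : Ch.linf ∈ S.LA A := S.LA_mono hrb hrA hbA hl
  have hrA1 : S.rho A l' = Ch.linf := by
    rw [← S.rho_rho hrA hrA' hAA l', hr]
    exact hlA
  have hrb1 : S.rho Ch.binf l' = Ch.linf := by
    rw [← S.rho_rho hrb hrA hbA l', hrA1]
    exact hl
  have hAb' : A ⊆ b' := hAA.trans hA'b'
  refine ⟨b', l', hb', hAb', hl', hrA1, hne, by linarith, hcost.trans hq2, ?_⟩
  have hmin' := hmin b' l' hb' (hbA.trans hAb') hl' hrb1 hne ha' (hcost.trans hq1) (by linarith)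
  obtain ⟨f, hfm, hf0, hf5, hf, hfi⟩ := S.ab0_dominated hrb (𝒢.rlq _ hb) hrA' hst hrb' hA'b' hl
    hl' hr hτ
  have hmass := S.lam_mass_le Ch.binf l' hτ'
  have hC2 : S.C * (S.lam l').real {y | (τ : ℝ) ≤ Ball.mass Ch.binfᶜ y} ≤ E / 16 := by
    have h1 : S.cost Ch.binf l' / τ ≤ E / (16 * S.C) := by
      rw [div_le_iff₀ hτ']
      refine (hcost.trans hq3).trans (le_of_eq ?_)
      ring
    have h2 := mul_le_mul_of_nonneg_left (hmass.trans h1) hC.le
    refine h2.trans (le_of_eq ?_)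
    field_simp
  have hC3 : S.C * (S.lam Ch.linf).real {y : Ball κ | 1 - 2 * (τ : ℝ) <
      nm (Ball.res Ch.binf y) ∧ nm (Ball.res Ch.binf y) < 1} ≤ E / 16 := by
    refine (mul_le_mul_of_nonneg_left hτ2 hC.le).trans (le_of_eq ?_)
    field_simp
  have hC4 : S.errI Ch.binf Ch.linf τ ≤ E / 16 := by
    refine hτ1.trans ?_
    rw [div_le_div_iff₀ (by positivity) (by norm_num)]
    nlinarith
  have hC5 : 4 * S.C ^ 2 * (S.Fv l' - S.Fv Ch.linf) ≤ E / 16 := by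
    have h1 : S.Fv l' - S.Fv Ch.linf ≤ E / (64 * S.C ^ 2) := by linarith
    refine (mul_le_mul_of_nonneg_left h1 (by positivity)).trans (le_of_eq ?_)
    field_simp
    ring
  have hm' : Measurable fun y : Ball κ => S.ab0 (Ball.res b' y) l' :=
    S.measurable_ab0 hrb' (𝒢.rlq _ hb') hl'
  have hif : Integrable f (S.lam l') := integrable_bdd _ hfm (5 * S.C) fun y => by
    rw [abs_of_nonneg (hf0 y)]
    exact hf5 y
  have hia : Integrable (fun y : Ball κ => S.ab0 (Ball.res b' y) l') (S.lam l') :=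
    integrable_bdd _ hm' S.C fun y => by
      rw [abs_of_nonneg (S.ab0_nonneg _ _)]
      exact S.ab0_le_C _ _
  have hint : ∫ y, (f y - S.ab0 (Ball.res b' y) l') ∂(S.lam l') ≤ E / 2 := by
    rw [integral_sub hif hia]
    have h1 : ∫ y, S.ab0 (Ball.res b' y) l' ∂(S.lam l') = S.tt b' l' := rfl
    rw [h1]
    linarith
  have hBA : ∀ᵐ y ∂(S.lam l'), y ∈ BA b' := by
    rw [ae_iff]
    exact S.lam_compl_BA hrb' hl'
  have hnn : 0 ≤ᵐ[S.lam l'] fun y => f y - S.ab0 (Ball.res b' y) l' := by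
    filter_upwards [hBA] with y hy
    have h1 : Ball.res b' y = y := hy
    have h2 := (hf y hy).1
    show 0 ≤ f y - S.ab0 (Ball.res b' y) l'
    rw [h1]
    linarith
  have hmk := mul_meas_ge_le_integral_of_nonneg hnn (hif.sub hia) k₀
  have hmk' : (S.lam l').real {y | k₀ ≤ f y - S.ab0 (Ball.res b' y) l'} ≤ k₀ / 8 := by
    have h1 : k₀ * (S.lam l').real {y | k₀ ≤ f y - S.ab0 (Ball.res b' y) l'} ≤ E / 2 :=
      hmk.trans hint
    have h2 : E / 2 = k₀ * (k₀ / 8) := by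
      rw [hE]
      ring
    rw [h2] at h1
    exact le_of_mul_le_mul_left h1 hk
  have hW : MeasurableSet (BA Ch.binf : Set (Ball κ))ᶜ := (isClosed_BA _).measurableSet.compl
  have h7 := S.lam_le_add hrA hrb' hAb' hl' hrA1 hW
  have h8 : (S.lam Ch.linf).real (BA Ch.binf)ᶜ = 0 := by
    rw [measureReal_def, S.lam_compl_BA hrb hl]
    rfl
  have h9 : (S.lam l').real (BA b')ᶜ = 0 := by
    rw [measureReal_def, S.lam_compl_BA hrb' hl']
    rfl
  have h10 : S.C * (S.Fv l' - S.Fv Ch.linf) ≤ k₀ / 4 := by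
    have h1 : S.Fv l' - S.Fv Ch.linf ≤ k₀ / (4 * S.C) := by linarith
    refine (mul_le_mul_of_nonneg_left h1 hC.le).trans (le_of_eq ?_)
    field_simp
  have hsub : {y' : Ball κ | ¬ (Ball.res A y' ∈ BA Ch.binf ∧
      S.ab0 (Ball.res Ch.binf y') Ch.linf - k₀ ≤ S.ab0 y' l')} ⊆
      (BA b')ᶜ ∪ (Ball.res A ⁻¹' (BA Ch.binf)ᶜ ∪
        {y | k₀ ≤ f y - S.ab0 (Ball.res b' y) l'}) := by
    intro y hy
    by_cases h1 : y ∈ BA b'
    · right
      by_cases h2 : Ball.res A y ∈ BA Ch.binf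
      · right
        have h3 : ¬ (S.ab0 (Ball.res Ch.binf y) Ch.linf - k₀ ≤ S.ab0 y l') :=
          fun h => hy ⟨h2, h⟩
        rw [not_le] at h3
        have h4 : Ball.res b' y = y := h1
        have h5 := (hf y h1).2
        show k₀ ≤ f y - S.ab0 (Ball.res b' y) l'
        rw [h4]
        linarith
      · left
        exact h2
    · left
      exact h1
  refine (measureReal_mono hsub).trans ((measureReal_union_le _ _).trans ?_)
  have h11 := measureReal_union_le (μ := S.lam l') (Ball.res A ⁻¹' (BA Ch.binf)ᶜ)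
    {y | k₀ ≤ f y - S.ab0 (Ball.res b' y) l'}
  linarith

theorem exists_base [Uncountable κ] (𝒢 : GoodFam S) : ∃ b l, Base 𝒢 b l := by
  obtain ⟨Ch⟩ := exists_chain 𝒢
  exact ⟨Ch.binf, Ch.linf, Ch.good_inf, Ch.memL_inf, fun y hy s hs => Ch.P1 hy hs, Ch.P2,
    fun A hA hbA k₀ hk => bn_P3 Ch A hA hbA k₀ hk⟩

end Sys

end Pool.Agent.ZDB

end

section

/-!
# ZDB/CtxA : README 9.1
m = lam l, η = eta.  G = {y ∈ BA b | nu_y{l} ≥ 1/(2C), nu_y{l} ≤ ab0 y l}: m(G) ≥ 1/(2C) (meas_atom_ge, P2), measurable (measurable_atom, measurable_ab0 with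
y = res b y), and nm y < 1 on G (ab_of_nm).  Let O_j be the sequence of exists_seq at l.  For y ∈ BA b: nu_y(O_j∖{l}) → 0 (nu_tendsto_atom);
alpha y O_j → ab0 y l and alpha y (O_j ∩ Fs sw) → ab y l sw = 0 for a rational sw ∈ (Fv l, Fv l + η] (exists_clop_of_ab_lt, O_j ⊆ O for large j, alpha_mono; P1).
By dominated convergence choose j with ∫ nu_y(O_j∖{l}) dm ≤ η/(60C) (so m{nu_y(O_j∖l) > η} ≤ 1/(60C)), m{alpha y O_j > ab0 y l + η} ≤ 1/(60C),
m{alpha y (O_j∩Fs sw) ≥ η} ≤ 1/(60C) (for y ∈ BA b; measurable_alpha).  O := O_j.  Next τ_k = 2^{-k}: for y with nm y < 1: nm y ≤ 1 − 2τ_k,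
ahat y univ (2τ_k) ≤ alpha y univ + η, and (if alpha y (O∩Fs sw) < η) ahat y (O∩Fs sw) τ_k ≤ η for large k (exists_tau); choose k ≥ 1 such that the
exceptional subsets of G have measure ≤ 1/(60C) each (measurable_ahat).  K0 := the good part of G; m(K0) ≥ 1/(2C) − 6/(60C) ≥ 1/(3C).
(nu_y(O) = nu_y{l} + nu_y(O∖{l}).)
-/

open Set Filter Topology MeasureTheory Pool.Agent.H53.ZD

namespace Pool.Agent.ZDB

variable {κ L : Type*} [TopologicalSpace L] [CompactSpace L] [T2Space L] [TotallyDisconnectedSpace L]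
  [MeasurableSpace L] [BorelSpace L]

private theorem ctxa_small {X : Type*} [MeasurableSpace X] (μ : Measure X) [IsFiniteMeasure μ]
    {E : ℕ → Set X} (hE : ∀ j, MeasurableSet (E j)) (h : ∀ y, ∀ᶠ j in atTop, y ∉ E j)
    {δ : ℝ} (hδ : 0 < δ) : ∀ᶠ j in atTop, μ.real (E j) ≤ δ := by
  have ht : Tendsto (fun j => ∫ y, (E j).indicator (fun _ => (1 : ℝ)) y ∂μ) atTop
      (𝓝 (∫ _, (0 : ℝ) ∂μ)) := by
    apply tendsto_integral_of_dominated_convergence (fun _ => (1 : ℝ))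
    · intro j
      exact (measurable_const.indicator (hE j)).aestronglyMeasurable
    · exact integrable_const _
    · intro j
      refine Eventually.of_forall fun y => ?_
      by_cases hy : y ∈ E j
      · simp [hy]
      · simp [hy]
    · refine Eventually.of_forall fun y => ?_
      refine tendsto_const_nhds.congr' ?_
      filter_upwards [h y] with j hj
      simp [hj]
  simp only [integral_zero] at ht
  have h1 : ∀ j, ∫ y, (E j).indicator (fun _ => (1 : ℝ)) y ∂μ = μ.real (E j) := by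
    intro j
    rw [integral_indicator_const _ (hE j)]
    simp
  simp only [h1] at ht
  exact (ht.eventually (Iic_mem_nhds hδ))

namespace Sys

/-- the small constant `η` -/
noncomputable def eta (S : Sys κ L) : ℝ := 1 / (10000 * S.C ^ 2)

/-- README 9.1 -/
structure CtxA {S : Sys κ L} (𝒢 : GoodFam S) where
  b : Set κ
  l : L
  base : Base 𝒢 b l
  wrefl : S.WRefl b
  O : Set L
  clopO : S.Clop b O
  memO : l ∈ O
  tw : ℚ
  tw_pos : 0 < tw
  tw_le : (tw : ℝ) ≤ 1 / 2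
  sw : ℚ
  sw_gt : S.Fv l < sw
  sw_le : (sw : ℝ) ≤ S.Fv l + S.eta
  K0 : Set (Ball κ)
  K0_meas : MeasurableSet K0
  K0_sub : K0 ⊆ BA b
  K0_ge : 1 / (3 * S.C) ≤ (S.lam l).real K0
  k1a : ∀ y ∈ K0, 1 / (2 * S.C) ≤ (S.nu y).real {l}
  k1b : ∀ y ∈ K0, (S.nu y).real {l} ≤ S.ab0 y l
  k2 : ∀ y ∈ K0, nm y ≤ 1 - 2 * (tw : ℝ)
  k3 : ∀ y ∈ K0, (S.nu y).real (O \ {l}) ≤ S.eta
  k4 : ∀ y ∈ K0, S.alpha y O ≤ S.ab0 y l + S.eta
  k5 : ∀ y ∈ K0, S.ahat y univ (2 * (tw : ℝ)) ≤ S.alpha y univ + S.eta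
  k6 : ∀ y ∈ K0, S.ahat y (O ∩ S.Fs sw) tw ≤ S.eta
  k7 : ∫ y, (S.nu y).real (O \ {l}) ∂(S.lam l) ≤ S.eta

theorem exists_ctxA {S : Sys κ L} {𝒢 : GoodFam S} {b : Set κ} {l : L} (hb : Base 𝒢 b l)
    (hw : S.WRefl b) : Nonempty (CtxA 𝒢) := by
  have hC := S.C_pos
  have hrb := 𝒢.ret _ hb.good
  have hR := 𝒢.rlq _ hb.good
  have hl := hb.memL
  set η : ℝ := S.eta with hη
  have hηpos : 0 < η := by
    rw [hη, eta]
    positivity
  set m := S.lam l with hm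
  have hδ : (0 : ℝ) < 1 / (60 * S.C) := by positivity
  -- the set G
  have mat : Measurable fun y => (S.nu y).real {l} := S.measurable_atom l
  have mab : Measurable fun y : Ball κ => S.ab0 (Ball.res b y) l := S.measurable_ab0 hrb hR hl
  have mBA : MeasurableSet (BA b : Set (Ball κ)) := (isClosed_BA _).measurableSet
  have mnm : Measurable fun y : Ball κ => nm (Ball.res b y) :=
    (Ball.measurable_mass univ).comp (Ball.measurable_res b)
  set G : Set (Ball κ) := {y | y ∈ BA b ∧ 1 / (2 * S.C) ≤ (S.nu y).real {l} ∧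
    (S.nu y).real {l} ≤ S.ab0 (Ball.res b y) l} with hG
  have mG : MeasurableSet G :=
    mBA.inter ((measurableSet_le measurable_const mat).inter (measurableSet_le mat mab))
  have hres : ∀ y ∈ BA b, Ball.res b y = y := fun y hy => hy
  have hBA : ∀ᵐ y ∂m, y ∈ BA b := hb.P2.mono fun y hy => hy.1
  have hGge : 1 / (2 * S.C) ≤ m.real G := by
    refine (S.meas_atom_ge hrb hl).trans (le_of_eq ?_)
    refine measureReal_congr ?_
    filter_upwards [hb.P2] with y hy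
    refine propext ⟨fun h => ?_, fun h => h.2.1⟩
    refine ⟨hy.1, h, ?_⟩
    rw [hres y hy.1]
    exact hy.2
  have hGnm : ∀ y ∈ G, nm y < 1 := by
    intro y hy
    have h1 : 0 < S.ab y l (-1) := by
      have h2 : 0 < 1 / (2 * S.C) := by positivity
      have h3 := hy.2.2
      rw [hres y hy.1] at h3
      exact h2.trans_le (hy.2.1.trans h3)
    exact S.nm_lt_one_of_ab h1
  -- first choice
  obtain ⟨sw, hsw1, hsw2⟩ := exists_rat_btwn (show S.Fv l < S.Fv l + η by linarith)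
  have hFs : S.Fs (((-1 : ℚ)) : ℝ) = univ := by
    have : (((-1 : ℚ)) : ℝ) = -1 := by norm_num
    rw [this]
    exact S.Fs_neg_one
  obtain ⟨Oj, hOa, hOc, hlO, hOs, hOi⟩ := S.exists_seq hrb hl
  have mO : ∀ j, MeasurableSet (Oj j) := fun j => (hOc j).1.isOpen.measurableSet
  have mOl : ∀ j, Measurable fun y => (S.nu y).real (Oj j \ {l}) := fun j =>
    S.measurable_nu_real ((mO j).diff isClosed_singleton.measurableSet)
  have hlim : ∀ y ∈ BA b, Tendsto (fun j => (S.nu y).real (Oj j \ {l})) atTop (𝓝 0) := by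
    intro y hy
    have h1 := S.nu_tendsto_atom hrb hl hOa hOc hOi hy
    have h2 : ∀ j, (S.nu y).real (Oj j \ {l}) = (S.nu y).real (Oj j) - (S.nu y).real {l} :=
      fun j => measureReal_sdiff (singleton_subset_iff.2 (hlO j)) isClosed_singleton.measurableSet
    simp only [h2]
    have h3 := h1.sub_const ((S.nu y).real {l})
    rwa [sub_self] at h3
  have e7 : ∀ᶠ j in atTop, ∫ y, (S.nu y).real (Oj j \ {l}) ∂m ≤ η := by
    have ht : Tendsto (fun j => ∫ y, (S.nu y).real (Oj j \ {l}) ∂m) atTop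
        (𝓝 (∫ _, (0 : ℝ) ∂m)) := by
      apply tendsto_integral_of_dominated_convergence (fun _ => S.C)
      · intro j
        exact (mOl j).aestronglyMeasurable
      · exact integrable_const _
      · intro j
        refine Eventually.of_forall fun y => ?_
        rw [Real.norm_eq_abs, abs_of_nonneg measureReal_nonneg]
        exact S.nu_le _ _
      · filter_upwards [hBA] with y hy
        exact hlim y hy
    simp only [integral_zero] at ht
    exact ht.eventually (Iic_mem_nhds hηpos)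
  -- the three bad sets of the first choice
  have malO : ∀ j, Measurable fun y : Ball κ => S.alpha (Ball.res b y) (Oj j) := by
    intro j
    have := S.measurable_alpha hrb (hOc j) (-1)
    simpa only [hFs, inter_univ] using this
  have malF : ∀ j, Measurable fun y : Ball κ => S.alpha (Ball.res b y) (Oj j ∩ S.Fs sw) :=
    fun j => S.measurable_alpha hrb (hOc j) sw
  have e3 := ctxa_small m (E := fun j => G ∩ {y | η < (S.nu y).real (Oj j \ {l})})
    (fun j => mG.inter (measurableSet_lt measurable_const (mOl j))) (fun y => by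
      by_cases hy : y ∈ G
      · filter_upwards [(hlim y hy.1).eventually (Iio_mem_nhds hηpos)] with j hj
        exact fun h => absurd h.2 (not_lt.2 (le_of_lt hj))
      · exact Eventually.of_forall fun j h => hy h.1) hδ
  have key : ∀ y ∈ BA b, ∀ (s r : ℝ), S.ab y l s < r →
      ∀ᶠ j in atTop, S.alpha y (Oj j ∩ S.Fs s) < r := by
    intro y hy s r hr
    obtain ⟨O', hO', hlO', ha⟩ := S.exists_clop_of_ab_lt hrb hR hy hl hr
    obtain ⟨j₀, hj₀⟩ := hOs O' hO' hlO'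
    filter_upwards [eventually_ge_atTop j₀] with j hj
    refine (S.alpha_mono ?_ y).trans_lt ha
    exact inter_subset_inter_left _ ((hOa hj).trans hj₀)
  have e4 := ctxa_small m (E := fun j => G ∩ {y | S.ab0 (Ball.res b y) l + η <
      S.alpha (Ball.res b y) (Oj j)})
    (fun j => mG.inter (measurableSet_lt (mab.add_const _) (malO j))) (fun y => by
      by_cases hy : y ∈ G
      · have h1 : S.ab y l (-1) < S.ab0 y l + η := by
          show S.ab0 y l < _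
          linarith
        filter_upwards [key y hy.1 (-1) _ h1] with j hj h
        have h2 := h.2
        simp only [mem_ofPred_eq] at h2
        rw [hres y hy.1] at h2
        rw [S.Fs_neg_one, inter_univ] at hj
        linarith
      · exact Eventually.of_forall fun j h => hy h.1) hδ
  have e6 := ctxa_small m (E := fun j => G ∩ {y | η ≤ S.alpha (Ball.res b y) (Oj j ∩ S.Fs sw)})
    (fun j => mG.inter (measurableSet_le measurable_const (malF j))) (fun y => by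
      by_cases hy : y ∈ G
      · have h1 : S.ab y l sw < η := by
          rw [hb.P1 y hy.1 sw hsw1]
          exact hηpos
        filter_upwards [key y hy.1 sw _ h1] with j hj h
        have h2 := h.2
        simp only [mem_ofPred_eq] at h2
        rw [hres y hy.1] at h2
        linarith
      · exact Eventually.of_forall fun j h => hy h.1) hδ
  obtain ⟨j, h7, h3, h4, h6⟩ := (e7.and (e3.and (e4.and e6))).exists
  set O := Oj j with hO
  -- second choice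
  set τ : ℕ → ℚ := fun k => 1 / (k + 2) with hτ
  have hτpos : ∀ k, 0 < τ k := fun k => by
    simp only [hτ]
    positivity
  have hτr : ∀ k, ((τ k : ℚ) : ℝ) = 1 / (k + 2) := fun k => by
    simp only [hτ]
    push_cast
    ring
  have hτle : ∀ k, ((τ k : ℚ) : ℝ) ≤ 1 / 2 := fun k => by
    rw [hτr]
    apply one_div_le_one_div_of_le (by norm_num)
    have : (0 : ℝ) ≤ k := Nat.cast_nonneg k
    linarith
  have hτlim : ∀ ε : ℝ, 0 < ε → ∀ᶠ k in atTop, ((τ k : ℚ) : ℝ) ≤ ε := by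
    intro ε hε
    obtain ⟨N, hN⟩ := exists_nat_gt (1 / ε)
    filter_upwards [eventually_ge_atTop N] with k hk
    rw [hτr, div_le_iff₀ (by positivity)]
    have h1 : (N : ℝ) ≤ k := by exact_mod_cast hk
    rw [div_lt_iff₀ hε] at hN
    nlinarith
  have mal : Measurable fun y : Ball κ => S.alpha (Ball.res b y) univ := by
    have := S.measurable_alpha hrb (S.clop_univ b) (-1)
    simpa only [hFs, inter_univ] using this
  have e2 := ctxa_small m (E := fun k => G ∩ {y | 1 - 2 * ((τ k : ℚ) : ℝ) < nm (Ball.res b y)})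
    (fun k => mG.inter (measurableSet_lt measurable_const mnm)) (fun y => by
      by_cases hy : y ∈ G
      · have h1 := hGnm y hy
        filter_upwards [hτlim ((1 - nm y) / 2) (by linarith)] with k hk h
        have h2 := h.2
        simp only [mem_ofPred_eq] at h2
        rw [hres y hy.1] at h2
        linarith
      · exact Eventually.of_forall fun j h => hy h.1) hδ
  have mset : ∀ k, MeasurableSet {y : Ball κ | nm (Ball.res b y) ≤ 1 - 2 * ((τ k : ℚ) : ℝ) ∧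
      S.alpha (Ball.res b y) univ + η < S.ahat (Ball.res b y) univ (2 * ((τ k : ℚ) : ℝ))} := by
    intro k
    have h1 : {y : Ball κ | nm (Ball.res b y) ≤ 1 - 2 * ((τ k : ℚ) : ℝ) ∧
        S.alpha (Ball.res b y) univ + η < S.ahat (Ball.res b y) univ (2 * ((τ k : ℚ) : ℝ))} =
        ⋃ q : ℚ, {y : Ball κ | S.alpha (Ball.res b y) univ + η < q} ∩
          {y : Ball κ | nm (Ball.res b y) ≤ 1 - ((2 * τ k : ℚ) : ℝ) ∧
            (q : ℝ) < S.ahat (Ball.res b y) (univ ∩ S.Fs (((-1 : ℚ)) : ℝ))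
              ((2 * τ k : ℚ) : ℝ)} := by
      ext y
      simp only [mem_ofPred_eq, mem_iUnion, mem_inter_iff, hFs, inter_univ]
      push_cast
      constructor
      · rintro ⟨h1, h2⟩
        obtain ⟨q, hq1, hq2⟩ := exists_rat_btwn h2
        exact ⟨q, hq1, h1, hq2⟩
      · rintro ⟨q, hq1, h1, hq2⟩
        exact ⟨h1, hq1.trans hq2⟩
    rw [h1]
    refine MeasurableSet.iUnion fun q => ?_
    exact (measurableSet_lt (mal.add_const _) measurable_const).inter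
      (S.measurable_ahat hrb (S.clop_univ b) (-1) (2 * τ k) (by have := hτpos k; positivity) q)
  have e5 := ctxa_small m (E := fun k => G ∩ {y | nm (Ball.res b y) ≤ 1 - 2 * ((τ k : ℚ) : ℝ) ∧
      S.alpha (Ball.res b y) univ + η < S.ahat (Ball.res b y) univ (2 * ((τ k : ℚ) : ℝ))})
    (fun k => mG.inter (mset k)) (fun y => by
      by_cases hy : y ∈ G
      · obtain ⟨t, ht, ht'⟩ := S.exists_tau (x := y) (U := univ) (r := S.alpha y univ + η)
          (by linarith)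
        filter_upwards [hτlim (t / 2) (by linarith)] with k hk h
        have h2 := h.2
        simp only [mem_ofPred_eq] at h2
        rw [hres y hy.1] at h2
        have hp : (0 : ℝ) < τ k := by exact_mod_cast hτpos k
        have h3 := ht' (2 * ((τ k : ℚ) : ℝ)) (by linarith) (by linarith)
        linarith [h2.2]
      · exact Eventually.of_forall fun j h => hy h.1) hδ
  have e8 := ctxa_small m (E := fun k => G ∩ ({y | S.alpha (Ball.res b y) (O ∩ S.Fs sw) < η} ∩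
      {y : Ball κ | nm (Ball.res b y) ≤ 1 - ((τ k : ℚ) : ℝ) ∧
        η < S.ahat (Ball.res b y) (O ∩ S.Fs sw) ((τ k : ℚ) : ℝ)}))
    (fun k => mG.inter ((measurableSet_lt (malF j) measurable_const).inter
      (S.measurable_ahat hrb (hOc j) sw (τ k) (hτpos k) η))) (fun y => by
      by_cases hy : y ∈ G
      · by_cases ha : S.alpha y (O ∩ S.Fs sw) < η
        · obtain ⟨t, ht, ht'⟩ := S.exists_tau (x := y) (U := O ∩ S.Fs sw) ha
          filter_upwards [hτlim t ht] with k hk h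
          have h2 := h.2.2.2
          rw [hres y hy.1] at h2
          have hp : (0 : ℝ) < τ k := by exact_mod_cast hτpos k
          have h3 := ht' ((τ k : ℚ) : ℝ) hp hk
          linarith
        · refine Eventually.of_forall fun k h => ha ?_
          have h2 := h.2.1
          simp only [mem_ofPred_eq] at h2
          rwa [hres y hy.1] at h2
      · exact Eventually.of_forall fun j h => hy h.1) hδ
  obtain ⟨k, h2, h5, h8⟩ := (e2.and (e5.and e8)).exists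
  -- the set K0
  set B : Set (Ball κ) := (G ∩ {y | η < (S.nu y).real (Oj j \ {l})}) ∪
    ((G ∩ {y | S.ab0 (Ball.res b y) l + η < S.alpha (Ball.res b y) (Oj j)}) ∪
    ((G ∩ {y | η ≤ S.alpha (Ball.res b y) (Oj j ∩ S.Fs sw)}) ∪
    ((G ∩ {y | 1 - 2 * ((τ k : ℚ) : ℝ) < nm (Ball.res b y)}) ∪
    ((G ∩ {y | nm (Ball.res b y) ≤ 1 - 2 * ((τ k : ℚ) : ℝ) ∧
      S.alpha (Ball.res b y) univ + η < S.ahat (Ball.res b y) univ (2 * ((τ k : ℚ) : ℝ))}) ∪
    (G ∩ ({y | S.alpha (Ball.res b y) (O ∩ S.Fs sw) < η} ∩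
      {y : Ball κ | nm (Ball.res b y) ≤ 1 - ((τ k : ℚ) : ℝ) ∧
        η < S.ahat (Ball.res b y) (O ∩ S.Fs sw) ((τ k : ℚ) : ℝ)})))))) with hB
  have mB : MeasurableSet B := by
    refine MeasurableSet.union (mG.inter (measurableSet_lt measurable_const (mOl j))) ?_
    refine MeasurableSet.union (mG.inter (measurableSet_lt (mab.add_const _) (malO j))) ?_
    refine MeasurableSet.union (mG.inter (measurableSet_le measurable_const (malF j))) ?_
    refine MeasurableSet.union (mG.inter (measurableSet_lt measurable_const mnm)) ?_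
    refine MeasurableSet.union (mG.inter (mset k)) ?_
    exact mG.inter ((measurableSet_lt (malF j) measurable_const).inter
      (S.measurable_ahat hrb (hOc j) sw (τ k) (hτpos k) η))
  have hBle : m.real B ≤ 6 * (1 / (60 * S.C)) := by
    rw [hB]
    refine (measureReal_union_le _ _).trans ?_
    refine (add_le_add h3 (measureReal_union_le _ _)).trans ?_
    refine (add_le_add_right (add_le_add h4 (measureReal_union_le _ _)) _).trans ?_
    refine (add_le_add_right (add_le_add_right (add_le_add h6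
      (measureReal_union_le _ _)) _) _).trans ?_
    refine (add_le_add_right (add_le_add_right (add_le_add_right (add_le_add h2
      (measureReal_union_le _ _)) _) _) _).trans ?_
    linarith
  have hKG : ∀ y ∈ G \ B, y ∈ G := fun y hy => hy.1
  refine ⟨{
    b := b
    l := l
    base := hb
    wrefl := hw
    O := O
    clopO := hOc j
    memO := hlO j
    tw := τ k
    tw_pos := hτpos k
    tw_le := hτle k
    sw := sw
    sw_gt := hsw1
    sw_le := hsw2.le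
    K0 := G \ B
    K0_meas := mG.diff mB
    K0_sub := fun y hy => hy.1.1
    K0_ge := ?_
    k1a := fun y hy => hy.1.2.1
    k1b := ?_
    k2 := ?_
    k3 := ?_
    k4 := ?_
    k5 := ?_
    k6 := ?_
    k7 := h7 }⟩
  · have h9 : m.real G ≤ m.real (G \ B) + m.real B := by
      refine (measureReal_mono ?_).trans (measureReal_union_le _ _)
      intro y hy
      by_cases h : y ∈ B
      · exact Or.inr h
      · exact Or.inl ⟨hy, h⟩
    have h10 : 1 / (3 * S.C) ≤ 1 / (2 * S.C) - 6 * (1 / (60 * S.C)) := by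
      rw [← sub_nonneg]
      have : 1 / (2 * S.C) - 6 * (1 / (60 * S.C)) - 1 / (3 * S.C) = 1 / (15 * S.C) := by
        field_simp
        norm_num
      rw [this]
      positivity
    linarith
  · intro y hy
    have h1 := hy.1.2.2
    rwa [hres y hy.1.1] at h1
  · intro y hy
    by_contra h
    rw [not_le] at h
    refine hy.2 (Or.inr (Or.inr (Or.inr (Or.inl ⟨hy.1, ?_⟩))))
    show _ < nm (Ball.res b y)
    rw [hres y hy.1.1]
    exact h
  · intro y hy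
    by_contra h
    rw [not_le] at h
    exact hy.2 (Or.inl ⟨hy.1, h⟩)
  · intro y hy
    by_contra h
    rw [not_le] at h
    refine hy.2 (Or.inr (Or.inl ⟨hy.1, ?_⟩))
    show S.ab0 (Ball.res b y) l + η < S.alpha (Ball.res b y) (Oj j)
    rw [hres y hy.1.1]
    exact h
  · intro y hy
    by_contra h
    rw [not_le] at h
    by_cases h1 : 1 - 2 * ((τ k : ℚ) : ℝ) < nm (Ball.res b y)
    · exact hy.2 (Or.inr (Or.inr (Or.inr (Or.inl ⟨hy.1, h1⟩))))
    · refine hy.2 (Or.inr (Or.inr (Or.inr (Or.inr (Or.inl ⟨hy.1, not_lt.1 h1, ?_⟩)))))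
      rw [hres y hy.1.1]
      exact h
  · intro y hy
    by_contra h
    rw [not_le] at h
    by_cases h1 : 1 - 2 * ((τ k : ℚ) : ℝ) < nm (Ball.res b y)
    · exact hy.2 (Or.inr (Or.inr (Or.inr (Or.inl ⟨hy.1, h1⟩))))
    · by_cases h2 : η ≤ S.alpha (Ball.res b y) (Oj j ∩ S.Fs sw)
      · exact hy.2 (Or.inr (Or.inr (Or.inl ⟨hy.1, h2⟩)))
      · refine hy.2 (Or.inr (Or.inr (Or.inr (Or.inr (Or.inr ⟨hy.1, not_le.1 h2, ?_, ?_⟩)))))
        · have hp : (0 : ℝ) < τ k := by exact_mod_cast hτpos k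
          have := not_lt.1 h1
          linarith
        · rw [hres y hy.1.1]
          exact h

end Sys

end Pool.Agent.ZDB

end
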