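import Pool.Agent.ZDM.P09

/-!
# Merged form of the modules ZDB.CtxW, ZDB.TauF, ZDB.CtxR, ZDB.CtxB, ZDB.PreBlock
-/

set_option autoImplicit false
set_option linter.unusedSectionVars false

section

/-!
# ZDB/CtxW : README 9.2, the w-object
m = lam l, η = eta = 1/(10⁴C²), e₁ rational in (0, 1/(200C)], η' := 1/(100C) (= 100Cη).  TO_ge: |T 1_O y| ≥ nu_y{l} − nu_y(O∖{l}) ≥ 1/(2C) − η ≥ 49/(100C) (atom_le,
k1a, k3).  Choose i₀ ∉ b, A good ⊇ (a stabilising set of b) ∪ b ∪ {i₀}, and (b',l') from P3 with k₀ > 0 so small that 2k₀/tw + k₀/η' ≤ 1/(50C).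
E: exists_clop_nhds at b', l' ∈ LA b' for the open set O ∩ (LA A)ᶜ (l' ∉ LA A, since ρ_A l' = l ≠ l'; l' ∈ O since O ∈ Clop b ⊆ Clop A): E ∈ Clop b', E ∩ LA b' ⊆ O ∩ (LA A)ᶜ,
so E ⊆ O (both Clop b') and E ∩ LA A = ∅ (LA A ⊆ LA b').  exists_code for T 1_E (level b', ε = e₁): finite F_E ⊆ b'; t.p := enumeration of F_E ∩ b, c := injective
enumeration of (F_E∖b) ∪ {i₀} (n₁ > 0, outside b, inside b'), m; so WObj t O e₁ c E (phi_pull).
* phi0: ρ_b⁻¹E = ∅ (LA b ⊆ LA A), so T 1_E = 0 on BA b (T_comp_rho, cind_empty); y₀ = res b y: pull c y₀ = 0, so |phi y₀ 0| ≤ e₁, phi_congr.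
* unb: a.wrefl with this object.
* K1 := K0 ∩ {y | ∃ ζ, nm ζ ≤ tw/2 ∧ 4/5|T 1_O y| ≤ |phi y ζ|}; the second set is closed (projection of a compact set along the compact Ball (Fin n₁)).
  Good' := {y' ∈ BA b' | res A y' ∈ K0, mass bᶜ y' ≤ tw/2, nu_{y'}(O∖{l'}) ≤ η'}.  For y' ∈ Good', y = res A y': T 1_O y' = T 1_O y (Clop.T_res),
  |T 1_E y'| ≥ |T 1_O y| − nu_{y'}(O∖E) ≥ |T 1_O y| − η' (cind_diff, l' ∈ E), so |phi y' (pull c y')| ≥ |T 1_O y| − η' − e₁ ≥ 4/5|T 1_O y|; ζ := pull c y', nm ζ ≤ mass bᶜ y' ≤ tw/2;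
  phi y' ζ = phi y ζ.  So res A(Good') ⊆ K1, and m(K0∖K1) ≤ lam_{l'}(res A⁻¹(K0∖K1)) ≤ lam_{l'}((BA b')ᶜ) + lam_{l'}{tw/2 ≤ mass bᶜ} + lam_{l'}{η' ≤ nu_{y'}(O∖l')} ≤
  2k₀/tw + (k₀+η)/η' (lam_mass_le; rigid_clop and k7, Markov) ≤ 1/(50C) + 1/(100C) ≤ 1/(24C).
-/

open Set Filter Topology MeasureTheory Pool.Agent.H53.ZD

namespace Pool.Agent.ZDB

variable {κ L : Type*} [TopologicalSpace L] [CompactSpace L] [T2Space L] [TotallyDisconnectedSpace L]
  [MeasurableSpace L] [BorelSpace L]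

namespace Sys

/-- README 9.2 -/
structure CtxW {S : Sys κ L} (𝒢 : GoodFam S) where
  a : CtxA 𝒢
  t : WType κ
  e₁ : ℚ
  e₁_pos : 0 < e₁
  e₁_le : (e₁ : ℝ) ≤ 1 / (200 * S.C)
  p_sub : range t.p ⊆ a.b
  phi0 : ∀ y, |t.phi y 0| ≤ e₁
  unb : ∀ A : Set κ, A.Countable → ∃ c E, S.WObj t a.O e₁ c E ∧ ∀ j, c j ∉ A
  K1 : Set (Ball κ)
  K1_meas : MeasurableSet K1
  K1_sub : K1 ⊆ a.K0
  K1_ge : 7 / (24 * S.C) ≤ (S.lam a.l).real K1
  kw : ∀ y ∈ K1, ∃ ζ : Ball (Fin t.n₁), nm ζ ≤ (a.tw : ℝ) / 2 ∧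
    4 / 5 * |S.T (cind a.O) y| ≤ |t.phi y ζ|

theorem CtxA.TO_ge {S : Sys κ L} {𝒢 : GoodFam S} (a : CtxA 𝒢) {y : Ball κ} (hy : y ∈ a.K0) :
    49 / (100 * S.C) ≤ |S.T (cind a.O) y| := by
  have hC := S.C_pos
  have hC1 := S.one_le
  have h1 := S.atom_le a.clopO.1 a.memO y
  have h2 := a.k1a y hy
  have h3 := a.k3 y hy
  have h4 : S.eta ≤ 1 / (100 * S.C) := by
    unfold eta
    refine one_div_le_one_div_of_le (by positivity) ?_
    nlinarith
  have h5 : 1 / (2 * S.C) = 49 / (100 * S.C) + 1 / (100 * S.C) := by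
    field_simp
    norm_num
  linarith

private theorem cw_enum_range (G : Finset κ) :
    range (fun i : Fin G.card => (G.equivFin.symm i : κ)) = (G : Set κ) := by
  ext i
  constructor
  · rintro ⟨j, rfl⟩
    exact (G.equivFin.symm j).2
  · intro hi
    exact ⟨G.equivFin ⟨i, hi⟩, by simp⟩

private theorem cw_range_app {a b : ℕ} (p : Fin a → κ) (c : Fin b → κ) :
    range (Fin.append p c) = range p ∪ range c := by
  ext x
  constructor
  · rintro ⟨i, rfl⟩
    refine Fin.addCases (fun j => ?_) (fun j => ?_) i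
    · rw [Fin.append_left]
      exact Or.inl (mem_range_self j)
    · rw [Fin.append_right]
      exact Or.inr (mem_range_self j)
  · rintro (⟨j, rfl⟩ | ⟨j, rfl⟩)
    · exact ⟨Fin.castAdd b j, Fin.append_left _ _ _⟩
    · exact ⟨Fin.natAdd a j, Fin.append_right _ _ _⟩

private theorem cw_closed (S : Sys κ L) (t : WType κ) (O : Set L) (r : ℝ) :
    IsClosed {y : Ball κ | ∃ ζ : Ball (Fin t.n₁), nm ζ ≤ r ∧
      4 / 5 * |S.T (cind O) y| ≤ |t.phi y ζ|} := by
  have h1 : IsClosed {z : Ball κ × Ball (Fin t.n₁) | nm z.2 ≤ r ∧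
      4 / 5 * |S.T (cind O) z.1| ≤ |t.phi z.1 z.2|} := by
    refine IsClosed.inter ?_ ?_
    · exact isClosed_le ((continuous_nm_fin t.n₁).comp continuous_snd) continuous_const
    · exact isClosed_le
        (continuous_const.mul (((S.T (cind O)).continuous.comp continuous_fst).abs))
        (t.continuous_phi.abs)
  have h2 := (h1.isCompact.image continuous_fst).isClosed
  convert h2 using 1
  ext y
  constructor
  · rintro ⟨ζ, hζ⟩
    exact ⟨(y, ζ), hζ, rfl⟩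
  · rintro ⟨⟨y', ζ⟩, hζ, rfl⟩
    exact ⟨ζ, hζ⟩

/-- the data produced by the base node -/
private structure Pre {S : Sys κ L} {𝒢 : GoodFam S} (a : CtxA 𝒢) (e₁ k₀ : ℝ) where
  t : WType κ
  cc : Fin t.n₁ → κ
  E : Set L
  A : Set κ
  b' : Set κ
  l' : L
  hA : 𝒢.G A
  hbA : a.b ⊆ A
  hb' : 𝒢.G b'
  hAb' : A ⊆ b'
  hl' : l' ∈ S.LA b'
  hr : S.rho A l' = a.l
  hF : S.Fv l' ≤ S.Fv a.l + k₀
  hcost : S.cost a.b l' ≤ k₀
  hpb : range t.p ⊆ a.b
  hn : 0 < t.n₁
  hcout : ∀ j, cc j ∉ a.b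
  hlE : l' ∈ E
  hEb : ∀ x ∈ E, x ∉ S.LA a.b
  hW : S.WObj t a.O e₁ cc E

private theorem exists_pre [Uncountable κ] {S : Sys κ L} {𝒢 : GoodFam S} (a : CtxA 𝒢)
    {e₁ k₀ : ℝ} (he₁ : 0 < e₁) (hk₀ : 0 < k₀) : Nonempty (Pre a e₁ k₀) := by
  classical
  have hb := a.base.good
  have hrb := 𝒢.ret _ hb
  obtain ⟨i₀, hi₀⟩ : ∃ i₀, i₀ ∉ a.b := by
    by_contra h
    push Not at h
    have h1 : (univ : Set κ).Countable := (𝒢.countable _ hb).mono fun x _ => h x
    exact (not_countable : ¬ Countable κ) (countable_univ_iff.1 h1)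
  obtain ⟨A, hbA', hA⟩ := 𝒢.exists_superset ((𝒢.countable _ hb).union (countable_singleton i₀))
  have hbA : a.b ⊆ A := subset_union_left.trans hbA'
  have hi₀A : i₀ ∈ A := hbA' (Or.inr rfl)
  have hrA := 𝒢.ret _ hA
  obtain ⟨b', l', hb', hAb', hl', hr, hne, hF, hcost, -⟩ := a.base.P3 A hA hbA k₀ hk₀
  have hrb' := 𝒢.ret _ hb'
  have hOA : S.Clop A a.O := a.clopO.mono S hrb hrA hbA
  have hOb' : S.Clop b' a.O := hOA.mono S hrA hrb' hAb'
  have hlO : l' ∈ a.O := by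
    rw [← hOA.mem_iff, hr]
    exact a.memO
  have hlA : l' ∉ S.LA A := by
    intro h
    have h1 : S.rho A l' = l' := h
    exact hne (h1.symm.trans hr)
  obtain ⟨E, hE, hlE, hEsub⟩ := S.exists_clop_nhds hrb' hl'
    (W := a.O ∩ (S.LA A)ᶜ) (a.clopO.1.isOpen.inter (S.isClosed_LA A).isOpen_compl) ⟨hlO, hlA⟩
  have hEO : E ⊆ a.O := by
    intro x hx
    rw [← hOb'.mem_iff]
    exact (hEsub ⟨(hE.mem_iff S x).2 hx, S.rho_mem_LA hrb' x⟩).1
  have hEb : ∀ x ∈ E, x ∉ S.LA a.b := by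
    intro x hx hxb
    have h1 : x ∈ S.LA A := S.LA_mono hrb hrA hbA hxb
    exact (hEsub ⟨hx, S.LA_mono hrA hrb' hAb' h1⟩).2 h1
  obtain ⟨FE, hFEb', hFE⟩ := exists_code (S.T (cind E)) b' ((S.clop_iff hrb' hE.1).1 hE) he₁
  set G₀ : Finset κ := FE.filter (fun i => i ∈ a.b) with hG₀
  set G₁ : Finset κ := FE.filter (fun i => i ∉ a.b) ∪ {i₀} with hG₁
  set pp : Fin G₀.card → κ := fun i => (G₀.equivFin.symm i : κ) with hpp
  set cc : Fin G₁.card → κ := fun i => (G₁.equivFin.symm i : κ) with hcc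
  have hrp : range pp = (G₀ : Set κ) := cw_enum_range G₀
  have hrc : range cc = (G₁ : Set κ) := cw_enum_range G₁
  have hcinj : Function.Injective cc := fun i j hij =>
    G₁.equivFin.symm.injective (Subtype.ext hij)
  have hG₁out : ∀ k ∈ G₁, k ∉ a.b := by
    intro k hk
    rcases Finset.mem_union.1 hk with h | h
    · exact (Finset.mem_filter.1 h).2
    · rw [Finset.mem_singleton.1 h]
      exact hi₀
  have hcout : ∀ j, cc j ∉ a.b := fun j => hG₁out _ (G₁.equivFin.symm j).2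
  have hn' : 0 < G₁.card := by
    rw [Finset.card_pos]
    exact ⟨i₀, Finset.mem_union_right _ (Finset.mem_singleton_self i₀)⟩
  have hran : range (Fin.append pp cc) ⊆ b' := by
    rw [cw_range_app, hrp, hrc]
    rintro k (hk | hk)
    · exact hFEb' (Finset.mem_filter.1 hk).1
    · rcases Finset.mem_union.1 hk with h | h
      · exact hFEb' (Finset.mem_filter.1 h).1
      · rw [Finset.mem_singleton.1 h]
        exact hAb' hi₀A
  have hFEran : (FE : Set κ) ⊆ range (Fin.append pp cc) := by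
    rw [cw_range_app, hrp, hrc]
    intro k hk
    by_cases hkA : k ∈ a.b
    · exact Or.inl (Finset.mem_coe.2 (Finset.mem_filter.2 ⟨hk, hkA⟩))
    · exact Or.inr (Finset.mem_coe.2 (Finset.mem_union_left _ (Finset.mem_filter.2 ⟨hk, hkA⟩)))
  obtain ⟨m, hm⟩ := hFE _ (Fin.append pp cc) hFEran hran
  have hpb : range pp ⊆ a.b := by
    rw [hrp]
    intro k hk
    exact (Finset.mem_filter.1 (Finset.mem_coe.1 hk)).2
  refine ⟨⟨⟨G₀.card, pp, G₁.card, m⟩, cc, E, A, b', l', hA, hbA, hb', hAb', hl', hr, hF, hcost,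
    hpb, hn', hcout, hlE, hEb, hcinj, hE.1, hEO, fun y => ?_⟩⟩
  rw [WType.phi_pull ⟨G₀.card, pp, G₁.card, m⟩ hcinj]
  exact (hm y).le

private theorem Pre.phi0 {S : Sys κ L} {𝒢 : GoodFam S} {a : CtxA 𝒢} {e₁ k₀ : ℝ}
    (P : Pre a e₁ k₀) (y : Ball κ) : |P.t.phi y 0| ≤ e₁ := by
  have hrb := 𝒢.ret _ a.base.good
  have hE : S.rho a.b ⁻¹' P.E = ∅ := by
    ext x
    simp only [mem_preimage, mem_empty_iff_false, iff_false]
    intro hx
    exact P.hEb _ hx (S.rho_mem_LA hrb x)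
  have h1 : S.T (cind P.E) (Ball.res a.b y) = 0 := by
    have h2 := S.T_comp_rho hrb (cind P.E)
    rw [← cind_comp _ P.hW.2.1, hE, cind_empty, map_zero] at h2
    have h3 := DFunLike.congr_fun h2 y
    exact h3.symm
  have h4 := P.hW.2.2.2 (Ball.res a.b y)
  have h5 : pull P.cc (Ball.res a.b y) = 0 := by
    refine Ball.ext' fun j => ?_
    rw [pull_apply P.hW.1, Ball.zero_apply]
    exact Ball.res_of_notMem _ (P.hcout j)
  rw [h1, h5, zero_sub, abs_neg] at h4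
  rw [P.t.phi_congr (y' := Ball.res a.b y) (fun i =>
    (Ball.res_of_mem y (P.hpb (mem_range_self i))).symm) 0]
  exact h4

private theorem Pre.key {S : Sys κ L} {𝒢 : GoodFam S} {a : CtxA 𝒢} {e₁ k₀ : ℝ}
    (P : Pre a e₁ k₀) (he : e₁ ≤ 1 / (200 * S.C)) {y : Ball κ} (hy : Ball.res P.A y ∈ a.K0)
    (h1 : Ball.mass a.bᶜ y < (a.tw : ℝ) / 2) (h2 : (S.nu y).real (a.O \ {P.l'}) < 1 / (100 * S.C)) :
    ∃ ζ : Ball (Fin P.t.n₁), nm ζ ≤ (a.tw : ℝ) / 2 ∧
      4 / 5 * |S.T (cind a.O) (Ball.res P.A y)| ≤ |P.t.phi (Ball.res P.A y) ζ| := by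
  have hC := S.C_pos
  have hrb := 𝒢.ret _ a.base.good
  have hrA := 𝒢.ret _ P.hA
  have hOA : S.Clop P.A a.O := a.clopO.mono S hrb hrA P.hbA
  have hEc := P.hW.2.1
  have hEO := P.hW.2.2.1
  refine ⟨pull P.cc y, ?_, ?_⟩
  · rw [nm_pull P.hW.1]
    refine le_trans (Ball.mass_mono ?_ y) h1.le
    rintro k ⟨j, rfl⟩
    exact P.hcout j
  · have h3 : P.t.phi (Ball.res P.A y) (pull P.cc y) = P.t.phi y (pull P.cc y) :=
      P.t.phi_congr (fun i => Ball.res_of_mem y (P.hbA (P.hpb (mem_range_self i)))) _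
    rw [h3]
    have h4 := P.hW.2.2.2 y
    have h5 := a.TO_ge hy
    have h6 : S.T (cind a.O) (Ball.res P.A y) = S.T (cind a.O) y := hOA.T_res S hrA y
    rw [h6] at h5 ⊢
    have h7 : |S.T (cind a.O) y - S.T (cind P.E) y| ≤ 1 / (100 * S.C) := by
      have h8 : S.T (cind a.O) y - S.T (cind P.E) y = S.T (cind (a.O \ P.E)) y := by
        rw [cind_diff a.clopO.1 hEc hEO, map_sub]
        rfl
      rw [h8]
      refine (S.abs_T_cind_le (a.clopO.1.diff hEc) y).trans (le_trans ?_ h2.le)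
      refine measureReal_mono ?_
      exact sdiff_subset_sdiff_right (singleton_subset_iff.2 P.hlE)
    have h9 : (49 / (100 * S.C)) / 5 = 1 / (100 * S.C) + 1 / (200 * S.C) + 83 / (1000 * S.C) := by
      field_simp
      norm_num
    have h10 : 0 < 83 / (1000 * S.C) := by positivity
    have h11 := abs_sub_abs_le_abs_sub (S.T (cind a.O) y) (S.T (cind P.E) y)
    have h12 := abs_sub_abs_le_abs_sub (S.T (cind P.E) y) (P.t.phi y (pull P.cc y))
    linarith

theorem exists_ctxW [Uncountable κ] {S : Sys κ L} {𝒢 : GoodFam S} (a : CtxA 𝒢) :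
    Nonempty (CtxW 𝒢) := by
  classical
  have hC := S.C_pos
  have hC1 := S.one_le
  have hrb := 𝒢.ret _ a.base.good
  have htw : (0 : ℝ) < a.tw := by exact_mod_cast a.tw_pos
  obtain ⟨e₁, he1, he2⟩ := exists_rat_btwn (show (0 : ℝ) < 1 / (200 * S.C) by positivity)
  set k₀ : ℝ := min ((a.tw : ℝ) / (200 * S.C)) (1 / (10000 * S.C ^ 2)) with hk₀
  have hk₀pos : 0 < k₀ := lt_min (by positivity) (by positivity)
  obtain ⟨P⟩ := exists_pre a he1 hk₀pos
  have hrA := 𝒢.ret _ P.hA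
  have hrb' := 𝒢.ret _ P.hb'
  have hOA : S.Clop P.A a.O := a.clopO.mono S hrb hrA P.hbA
  set K2 : Set (Ball κ) := {y : Ball κ | ∃ ζ : Ball (Fin P.t.n₁), nm ζ ≤ (a.tw : ℝ) / 2 ∧
      4 / 5 * |S.T (cind a.O) y| ≤ |P.t.phi y ζ|} with hK2
  have hK2m : MeasurableSet K2 := (cw_closed S P.t a.O _).measurableSet
  have hBm : MeasurableSet (a.K0 \ K2) := a.K0_meas.diff hK2m
  have h1 := S.lam_rho_real hrA P.l' hBm
  rw [P.hr] at h1
  have hsub : Ball.res P.A ⁻¹' (a.K0 \ K2) ⊆ {y | (a.tw : ℝ) / 2 ≤ Ball.mass a.bᶜ y} ∪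
      {y | 1 / (100 * S.C) ≤ (S.nu y).real (a.O \ {P.l'})} := by
    intro y hy
    by_contra h
    have h2 : Ball.mass a.bᶜ y < (a.tw : ℝ) / 2 := by
      by_contra h'
      exact h (Or.inl (not_lt.1 h'))
    have h3 : (S.nu y).real (a.O \ {P.l'}) < 1 / (100 * S.C) := by
      by_contra h'
      exact h (Or.inr (not_lt.1 h'))
    exact hy.2 (P.key he2.le hy.1 h2 h3)
  have h2 := measureReal_mono (μ := S.lam P.l') hsub
  have h3 := measureReal_union_le (μ := S.lam P.l') {y | (a.tw : ℝ) / 2 ≤ Ball.mass a.bᶜ y}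
    {y | 1 / (100 * S.C) ≤ (S.nu y).real (a.O \ {P.l'})}
  have h4 : (S.lam P.l').real {y | (a.tw : ℝ) / 2 ≤ Ball.mass a.bᶜ y} ≤ 1 / (100 * S.C) := by
    refine (S.lam_mass_le a.b P.l' (half_pos htw)).trans ?_
    rw [div_le_iff₀ (half_pos htw)]
    refine (P.hcost.trans (min_le_left _ _)).trans (le_of_eq ?_)
    field_simp
    norm_num
  have hOm : MeasurableSet (a.O \ {P.l'}) :=
    a.clopO.1.isOpen.measurableSet.diff (measurableSet_singleton _)
  have h5 : (S.lam P.l').real {y | 1 / (100 * S.C) ≤ (S.nu y).real (a.O \ {P.l'})} ≤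
      2 / (100 * S.C) := by
    have hint : Integrable (fun y => (S.nu y).real (a.O \ {P.l'})) (S.lam P.l') :=
      integrable_bdd _ (S.measurable_nu_real hOm) S.C fun y => by
        rw [abs_of_nonneg measureReal_nonneg]
        exact S.nu_le y _
    have h6 := mul_meas_ge_le_integral_of_nonneg
      (ae_of_all _ fun y => (measureReal_nonneg : 0 ≤ (S.nu y).real (a.O \ {P.l'}))) hint
      (1 / (100 * S.C))
    have h7 := S.rigid_clop hrA hrb' P.hAb' P.hl' P.hr hOA a.memO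
    have h8 := P.hF
    have h9 := a.k7
    have h10 : k₀ ≤ 1 / (10000 * S.C ^ 2) := min_le_right _ _
    have h11 : S.eta = 1 / (10000 * S.C ^ 2) := rfl
    have h12 : 1 / (100 * S.C) * (S.lam P.l').real
        {y | 1 / (100 * S.C) ≤ (S.nu y).real (a.O \ {P.l'})} ≤
        1 / (100 * S.C) * (2 / (100 * S.C)) := by
      have h13 : 1 / (100 * S.C) * (2 / (100 * S.C)) =
          1 / (10000 * S.C ^ 2) + 1 / (10000 * S.C ^ 2) := by
        field_simp
        norm_num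
      rw [h13]
      refine h6.trans ?_
      linarith
    exact le_of_mul_le_mul_left h12 (by positivity)
  have h6 : (S.lam a.l).real a.K0 ≤ (S.lam a.l).real (a.K0 ∩ K2) +
      (S.lam a.l).real (a.K0 \ K2) := by
    refine (measureReal_mono ?_).trans (measureReal_union_le _ _)
    rw [inter_union_sdiff]
  have h7 := a.K0_ge
  have h8 : 1 / (3 * S.C) = 7 / (24 * S.C) + 1 / (24 * S.C) := by
    field_simp
    norm_num
  have h9 : 1 / (24 * S.C) = 1 / (100 * S.C) + 2 / (100 * S.C) + 7 / (600 * S.C) := by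
    field_simp
    norm_num
  have h10 : 0 < 7 / (600 * S.C) := by positivity
  refine ⟨⟨a, P.t, e₁, by exact_mod_cast he1, he2.le, P.hpb, P.phi0, ?_, a.K0 ∩ K2,
    a.K0_meas.inter hK2m, inter_subset_left, by linarith, fun y hy => hy.2⟩⟩
  intro A hA
  exact a.wrefl a.O a.clopO P.t P.hpb e₁ P.hn P.cc P.E P.hW P.hcout A hA

end Sys

end Pool.Agent.ZDB

end

section

/-!
# ZDB/TauF : the function τ and the gap (README 9.2)
tauF y = min(2, min{nm ζ | 3/5|T 1_O y| ≤ |phi y ζ|}).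
* isClosed_tauF: for r < 2 the set {y | tauF y ≤ r} is the projection of the compact set {(y,ζ) | nm ζ ≤ r, 3/5|T 1_O y| ≤ |phi y ζ|} (nm is continuous on
  Ball (Fin n₁); the infimum is attained by compactness); for r ≥ 2 it is everything.  So tauF is measurable.
* exists_tauF: the infimum is attained; y ∈ K1: the ζ of kw satisfies 4/5 ≥ 3/5, so tauF y ≤ tw/2 < 2.
* exists_gap: phi is continuous on the compact Ball κ × Ball (Fin n₁), ζ ↦ scaling is continuous.  Let c₀ = 49/(100C) (TO_ge).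
  τ_min: there is δ > 0 such that |phi y ζ − phi y 0| < c₀/10 for nm ζ < δ (uniform continuity), so |phi y ζ| < e₁ + c₀/10 < 3/5 c₀: hence tauF y ≥ min δ 2 on K0.
  There is s ∈ (0,1) with |phi y ζ − phi y ((1−s)ζ)| ≤ c₀/4 for all y, ζ (uniform continuity; Ball.scale (1−s)).  If y ∈ K0 and
  17/20|T 1_O y| ≤ |phi y ζ| then |phi y ((1−s)ζ)| ≥ 17/20|T 1_O y| − 1/4|T 1_O y| = 3/5|T 1_O y|, so tauF y ≤ (1−s) nm ζ, and nm ζ ≥ tauF y + s·nm ζ ≥ tauF y + s·tauF y ≥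
  tauF y + s·min δ 2.  g := min 1 (s·min δ 2).
-/

open Set Filter Topology MeasureTheory Pool.Agent.H53.ZD

namespace Pool.Agent.ZDB

variable {κ L : Type*} [TopologicalSpace L] [CompactSpace L] [T2Space L] [TotallyDisconnectedSpace L]
  [MeasurableSpace L] [BorelSpace L]

namespace Sys

/-- the function `τ` -/
noncomputable def tauF (S : Sys κ L) (O : Set L) (t : WType κ) (y : Ball κ) : ℝ :=
  sInf ({r | ∃ ζ : Ball (Fin t.n₁), r = nm ζ ∧ 3 / 5 * |S.T (cind O) y| ≤ |t.phi y ζ|} ∪ {2})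

variable (S : Sys κ L)

theorem TauF.bdd (O : Set L) (t : WType κ) (y : Ball κ) :
    BddBelow ({r | ∃ ζ : Ball (Fin t.n₁), r = nm ζ ∧
      3 / 5 * |S.T (cind O) y| ≤ |t.phi y ζ|} ∪ {2}) := by
  refine ⟨0, ?_⟩
  rintro r (⟨ζ, rfl, -⟩ | h)
  · exact nm_nonneg ζ
  · rw [mem_singleton_iff] at h
    rw [h]
    norm_num

theorem tauF_le (O : Set L) (t : WType κ) {y : Ball κ} {ζ : Ball (Fin t.n₁)}
    (h : 3 / 5 * |S.T (cind O) y| ≤ |t.phi y ζ|) : S.tauF O t y ≤ nm ζ :=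
  csInf_le (TauF.bdd S O t y) (Or.inl ⟨ζ, rfl, h⟩)

theorem TauF.le_two (O : Set L) (t : WType κ) (y : Ball κ) : S.tauF O t y ≤ 2 :=
  csInf_le (TauF.bdd S O t y) (Or.inr rfl)

theorem TauF.le_of (O : Set L) (t : WType κ) {y : Ball κ} {c : ℝ} (hc : c ≤ 2)
    (h : ∀ ζ : Ball (Fin t.n₁), 3 / 5 * |S.T (cind O) y| ≤ |t.phi y ζ| → c ≤ nm ζ) :
    c ≤ S.tauF O t y := by
  refine le_csInf ⟨2, Or.inr rfl⟩ ?_
  rintro r (⟨ζ, rfl, h1⟩ | h1)
  · exact h ζ h1
  · rw [mem_singleton_iff] at h1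
    rw [h1]
    exact hc

theorem tauF_nonneg (O : Set L) (t : WType κ) (y : Ball κ) : 0 ≤ S.tauF O t y :=
  TauF.le_of S O t (by norm_num) fun ζ _ => nm_nonneg ζ

theorem TauF.cont_phi (t : WType κ) (y : Ball κ) : Continuous fun ζ => t.phi y ζ :=
  t.continuous_phi.comp (continuous_const.prodMk continuous_id)

theorem TauF.le_iff (O : Set L) (t : WType κ) {y : Ball κ} {r : ℝ} (hr : r < 2) :
    S.tauF O t y ≤ r ↔ ∃ ζ : Ball (Fin t.n₁), nm ζ ≤ r ∧
      3 / 5 * |S.T (cind O) y| ≤ |t.phi y ζ| := by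
  constructor
  · intro h
    have hcl : IsCompact {ζ : Ball (Fin t.n₁) | 3 / 5 * |S.T (cind O) y| ≤ |t.phi y ζ|} :=
      (isClosed_le continuous_const (TauF.cont_phi t y).abs).isCompact
    by_cases hne : {ζ : Ball (Fin t.n₁) | 3 / 5 * |S.T (cind O) y| ≤ |t.phi y ζ|}.Nonempty
    · obtain ⟨ζ, hζ, hmin⟩ := hcl.exists_isMinOn hne (continuous_nm_fin t.n₁).continuousOn
      refine ⟨ζ, ?_, hζ⟩
      have h1 : min (nm ζ) 2 ≤ S.tauF O t y :=
        TauF.le_of S O t (min_le_right _ _) fun ζ' hζ' => (min_le_left _ _).trans (hmin hζ')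
      by_contra hcon
      rw [not_le] at hcon
      have h2 : r < min (nm ζ) 2 := lt_min hcon hr
      linarith
    · exfalso
      rw [not_nonempty_iff_eq_empty] at hne
      have h1 : (2 : ℝ) ≤ S.tauF O t y :=
        TauF.le_of S O t le_rfl fun ζ hζ => by
          have h2 : ζ ∈ ({ζ : Ball (Fin t.n₁) | 3 / 5 * |S.T (cind O) y| ≤ |t.phi y ζ|}) := hζ
          rw [hne] at h2
          exact h2.elim
      linarith
  · rintro ⟨ζ, h1, h2⟩
    exact (S.tauF_le O t h2).trans h1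

theorem isClosed_tauF (O : Set L) (t : WType κ) (r : ℝ) : IsClosed {y | S.tauF O t y ≤ r} := by
  rcases lt_or_ge r 2 with hr | hr
  · have h1 : {y | S.tauF O t y ≤ r} = Prod.fst '' {z : Ball κ × Ball (Fin t.n₁) |
        nm z.2 ≤ r ∧ 3 / 5 * |S.T (cind O) z.1| ≤ |t.phi z.1 z.2|} := by
      ext y
      rw [mem_ofPred_eq, TauF.le_iff S O t hr]
      constructor
      · rintro ⟨ζ, h1, h2⟩
        exact ⟨(y, ζ), ⟨h1, h2⟩, rfl⟩
      · rintro ⟨⟨y', ζ⟩, ⟨h1, h2⟩, rfl⟩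
        exact ⟨ζ, h1, h2⟩
    rw [h1]
    have h2 : IsClosed {z : Ball κ × Ball (Fin t.n₁) |
        nm z.2 ≤ r ∧ 3 / 5 * |S.T (cind O) z.1| ≤ |t.phi z.1 z.2|} := by
      refine IsClosed.inter ?_ ?_
      · exact isClosed_le ((continuous_nm_fin t.n₁).comp continuous_snd) continuous_const
      · exact isClosed_le (continuous_const.mul
          (((S.T (cind O)).continuous.comp continuous_fst).abs)) t.continuous_phi.abs
    exact (h2.isCompact.image continuous_fst).isClosed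
  · have h1 : {y | S.tauF O t y ≤ r} = univ := by
      ext y
      simp only [mem_ofPred_eq, mem_univ, iff_true]
      exact (TauF.le_two S O t y).trans hr
    rw [h1]
    exact isClosed_univ

theorem measurable_tauF (O : Set L) (t : WType κ) : Measurable (S.tauF O t) :=
  measurable_of_Iic fun r => (S.isClosed_tauF O t r).measurableSet

theorem tauF_res {b : Set κ} (hb : S.Ret b) {O : Set L} (hO : S.Clop b O) {t : WType κ}
    (ht : range t.p ⊆ b) (y : Ball κ) : S.tauF O t (Ball.res b y) = S.tauF O t y := by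
  have h1 : S.T (cind O) (Ball.res b y) = S.T (cind O) y := Clop.T_res S hb hO y
  have h2 : ∀ ζ : Ball (Fin t.n₁), t.phi (Ball.res b y) ζ = t.phi y ζ := fun ζ =>
    t.phi_congr (fun i => Ball.res_of_mem y (ht ⟨i, rfl⟩)) ζ
  unfold tauF
  rw [h1]
  simp only [h2]

theorem exists_tauF {S : Sys κ L} {𝒢 : GoodFam S} (w : CtxW 𝒢) {y : Ball κ} (hy : y ∈ w.K1) :
    S.tauF w.a.O w.t y ≤ (w.a.tw : ℝ) / 2 ∧ ∃ ζ : Ball (Fin w.t.n₁),
      nm ζ = S.tauF w.a.O w.t y ∧ 3 / 5 * |S.T (cind w.a.O) y| ≤ |w.t.phi y ζ| := by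
  obtain ⟨ζ₁, h1, h2⟩ := w.kw y hy
  have h3 : 3 / 5 * |S.T (cind w.a.O) y| ≤ |w.t.phi y ζ₁| := by
    have := abs_nonneg (S.T (cind w.a.O) y)
    linarith
  have h4 : S.tauF w.a.O w.t y ≤ (w.a.tw : ℝ) / 2 := (S.tauF_le w.a.O w.t h3).trans h1
  refine ⟨h4, ?_⟩
  have h5 := w.a.tw_le
  obtain ⟨ζ, h6, h7⟩ := (TauF.le_iff S w.a.O w.t (by linarith)).1 (le_refl (S.tauF w.a.O w.t y))
  exact ⟨ζ, le_antisymm h6 (S.tauF_le w.a.O w.t h7), h7⟩

private theorem gap_delta (t : WType κ) {c : ℝ} (hc : 0 < c) :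
    ∃ δ : ℝ, 0 < δ ∧ ∀ (y : Ball κ) (ζ : Ball (Fin t.n₁)), nm ζ < δ →
      |t.phi y ζ - t.phi y 0| < c := by
  have hg : Continuous fun z : Ball κ × Ball (Fin t.n₁) => t.phi z.1 z.2 - t.phi z.1 0 :=
    t.continuous_phi.sub (t.continuous_phi.comp (continuous_fst.prodMk continuous_const))
  have hcl : IsCompact {z : Ball κ × Ball (Fin t.n₁) | c ≤ |t.phi z.1 z.2 - t.phi z.1 0|} :=
    (isClosed_le continuous_const hg.abs).isCompact
  by_cases hne : {z : Ball κ × Ball (Fin t.n₁) | c ≤ |t.phi z.1 z.2 - t.phi z.1 0|}.Nonempty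
  · obtain ⟨z, hz, hmin⟩ := hcl.exists_isMinOn hne
      ((continuous_nm_fin t.n₁).comp continuous_snd).continuousOn
    refine ⟨nm z.2, ?_, ?_⟩
    · rcases (nm_nonneg z.2).lt_or_eq with h | h
      · exact h
      · exfalso
        have h1 : z.2 = 0 := nm_eq_zero.1 h.symm
        have h2 : c ≤ |t.phi z.1 z.2 - t.phi z.1 0| := hz
        rw [h1, sub_self, abs_zero] at h2
        linarith
    · intro y ζ h
      by_contra hcon
      rw [not_lt] at hcon
      have h1 : nm z.2 ≤ nm ζ := hmin (a := (y, ζ)) hcon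
      linarith
  · refine ⟨1, one_pos, fun y ζ _ => ?_⟩
    by_contra hcon
    rw [not_lt] at hcon
    exact hne ⟨(y, ζ), hcon⟩

private theorem gap_abs {s : ℝ} (hs : s ∈ Icc (0 : ℝ) 1) : |1 - s| ≤ 1 := by
  rw [abs_le]
  exact ⟨by linarith [hs.2], by linarith [hs.1]⟩

private theorem gap_scale (t : WType κ) {c : ℝ} (hc : 0 < c) :
    ∃ s : ℝ, 0 < s ∧ ∃ hs : s ∈ Icc (0 : ℝ) 1, ∀ (y : Ball κ) (ζ : Ball (Fin t.n₁)),
      |t.phi y ζ - t.phi y (Ball.scale (1 - s) (gap_abs hs) ζ)| ≤ c := by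
  have hsc : Continuous fun z : Icc (0 : ℝ) 1 × Ball κ × Ball (Fin t.n₁) =>
      Ball.scale (1 - (z.1 : ℝ)) (gap_abs z.1.2) z.2.2 := by
    rw [Ball.continuous_iff]
    intro i
    simp only [Ball.scale_apply]
    exact (continuous_const.sub (continuous_subtype_val.comp continuous_fst)).mul
      ((Ball.continuous_coord i).comp (continuous_snd.comp continuous_snd))
  have hg : Continuous fun z : Icc (0 : ℝ) 1 × Ball κ × Ball (Fin t.n₁) =>
      t.phi z.2.1 z.2.2 - t.phi z.2.1 (Ball.scale (1 - (z.1 : ℝ)) (gap_abs z.1.2) z.2.2) :=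
    (t.continuous_phi.comp continuous_snd).sub
      (t.continuous_phi.comp ((continuous_fst.comp continuous_snd).prodMk hsc))
  have hcl : IsCompact {z : Icc (0 : ℝ) 1 × Ball κ × Ball (Fin t.n₁) | c ≤
      |t.phi z.2.1 z.2.2 - t.phi z.2.1 (Ball.scale (1 - (z.1 : ℝ)) (gap_abs z.1.2) z.2.2)|} :=
    (isClosed_le continuous_const hg.abs).isCompact
  by_cases hne : {z : Icc (0 : ℝ) 1 × Ball κ × Ball (Fin t.n₁) | c ≤
      |t.phi z.2.1 z.2.2 - t.phi z.2.1
        (Ball.scale (1 - (z.1 : ℝ)) (gap_abs z.1.2) z.2.2)|}.Nonempty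
  · obtain ⟨z, hz, hmin⟩ := hcl.exists_isMinOn hne
      (continuous_subtype_val.comp continuous_fst).continuousOn
    have hpos : 0 < (z.1 : ℝ) := by
      rcases z.1.2.1.lt_or_eq with h | h
      · exact h
      · exfalso
        have h2 : c ≤ |t.phi z.2.1 z.2.2 -
          t.phi z.2.1 (Ball.scale (1 - (z.1 : ℝ)) (gap_abs z.1.2) z.2.2)| := hz
        have h3 : Ball.scale (1 - (z.1 : ℝ)) (gap_abs z.1.2) z.2.2 = z.2.2 := by
          ext i
          rw [Ball.scale_apply, ← h]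
          ring
        rw [h3, sub_self, abs_zero] at h2
        linarith
    have hle : (z.1 : ℝ) ≤ 1 := z.1.2.2
    have hs : (z.1 : ℝ) / 2 ∈ Icc (0 : ℝ) 1 := ⟨by linarith, by linarith⟩
    refine ⟨(z.1 : ℝ) / 2, by linarith, hs, fun y ζ => ?_⟩
    by_contra hcon
    rw [not_le] at hcon
    have h1 : (z.1 : ℝ) ≤ (z.1 : ℝ) / 2 := hmin (a := (⟨(z.1 : ℝ) / 2, hs⟩, y, ζ)) hcon.le
    linarith
  · have hs : (1 / 2 : ℝ) ∈ Icc (0 : ℝ) 1 := ⟨by norm_num, by norm_num⟩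
    refine ⟨1 / 2, by norm_num, hs, fun y ζ => ?_⟩
    by_contra hcon
    rw [not_le] at hcon
    exact hne ⟨(⟨1 / 2, hs⟩, y, ζ), hcon.le⟩

theorem exists_gap {S : Sys κ L} {𝒢 : GoodFam S} (w : CtxW 𝒢) :
    ∃ g : ℝ, 0 < g ∧ g ≤ 1 ∧ ∀ y ∈ w.a.K0, ∀ ζ : Ball (Fin w.t.n₁),
      17 / 20 * |S.T (cind w.a.O) y| ≤ |w.t.phi y ζ| → S.tauF w.a.O w.t y + g ≤ nm ζ := by
  have hC : 0 < S.C := lt_of_lt_of_le one_pos S.one_le
  set c₀ : ℝ := 49 / (100 * S.C) with hc₀
  have hc₀pos : 0 < c₀ := by positivity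
  obtain ⟨δ, hδ, hδ1⟩ := gap_delta w.t (c := c₀ / 10) (by positivity)
  obtain ⟨s, hs0, hs, hs1⟩ := gap_scale w.t (c := c₀ / 4) (by positivity)
  have hmin : 0 < min δ 2 := lt_min hδ (by norm_num)
  refine ⟨min 1 (s * min δ 2), lt_min one_pos (mul_pos hs0 hmin), min_le_left _ _, ?_⟩
  intro y hy ζ hζ
  have hT : c₀ ≤ |S.T (cind w.a.O) y| := w.a.TO_ge hy
  have he : (w.e₁ : ℝ) ≤ c₀ / 10 := by
    refine w.e₁_le.trans ?_
    rw [hc₀, div_div, div_le_div_iff₀ (by positivity) (by positivity)]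
    nlinarith
  have h0 := w.phi0 y
  have hτ : min δ 2 ≤ S.tauF w.a.O w.t y := by
    refine TauF.le_of S w.a.O w.t (min_le_right _ _) fun ζ' hζ' => ?_
    by_contra hcon
    rw [not_le] at hcon
    have h1 := hδ1 y ζ' (hcon.trans_le (min_le_left _ _))
    have h2 : |w.t.phi y ζ'| ≤ |w.t.phi y ζ' - w.t.phi y 0| + |w.t.phi y 0| := by
      have := abs_add_le (w.t.phi y ζ' - w.t.phi y 0) (w.t.phi y 0)
      rwa [sub_add_cancel] at this
    linarith
  have hnn := abs_nonneg (S.T (cind w.a.O) y)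
  have h3 : S.tauF w.a.O w.t y ≤ nm ζ := S.tauF_le w.a.O w.t (by linarith)
  have h4 : 3 / 5 * |S.T (cind w.a.O) y| ≤
      |w.t.phi y (Ball.scale (1 - s) (gap_abs hs) ζ)| := by
    have h5 := hs1 y ζ
    have h6 := abs_sub_abs_le_abs_sub (w.t.phi y ζ)
      (w.t.phi y (Ball.scale (1 - s) (gap_abs hs) ζ))
    linarith
  have h7 := S.tauF_le w.a.O w.t h4
  have h8 : nm (Ball.scale (1 - s) (gap_abs hs) ζ) = (1 - s) * nm ζ := by
    rw [nm, Ball.mass_scale, abs_of_nonneg (by linarith [hs.2])]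
  rw [h8] at h7
  have h9 : s * min δ 2 ≤ s * nm ζ := mul_le_mul_of_nonneg_left (hτ.trans h3) hs0.le
  have h10 : min 1 (s * min δ 2) ≤ s * min δ 2 := min_le_right _ _
  linarith

end Sys

end Pool.Agent.ZDB

end

section

/-!
# ZDB/CtxR : README 9.2, the continuous function ϱ̂
ϱ(y) := 1 − nm y − tauF y is measurable, bounded; on K1: ϱ ≥ 1 − (1−2tw) − tw/2 ≥ tw > 0 and ϱ ≤ 1.  Let δ = g·tw/1000.  Density of continuous functions in L¹(lam l)
(lam l finite regular, Ball κ compact Hausdorff, so normal; `MeasureTheory.Integrable.exists_boundedContinuous_integral_sub_le` /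
`MemLp.exists_boundedContinuous_eLpNorm_sub_le`) applied to ϱ·1_{K1} or ϱ: f₀ continuous with ∫|f₀ − ϱ| dlam ≤ δ/(100C); rh := clamp of f₀∘res b to [tw/2, 1]
(max (tw/2) (min 1 ·)); on K1 ⊆ BA b: |rh − ϱ| ≤ |f₀ − ϱ|, which is ≤ δ off a set of measure ≤ 1/(100C) (Markov).  Finite sets F_k increasing to the countable b:
nm y − mass F_k y → 0 on BA b, so {y | nm y − mass F_k y > g/100} has measure ≤ 1/(100C) for large k; Fb := F_k.
K := a compact subset (inner regularity) of K1 minus the two exceptional (measurable) sets with lam(K) ≥ 7/(24C) − 2/(100C) − 1/(100C) ≥ 1/(4C).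
-/

open Set Filter Topology MeasureTheory Pool.Agent.H53.ZD

namespace Pool.Agent.ZDB

variable {κ L : Type*} [TopologicalSpace L] [CompactSpace L] [T2Space L] [TotallyDisconnectedSpace L]
  [MeasurableSpace L] [BorelSpace L]

namespace Sys

/-- README 9.2, continued -/
structure CtxR {S : Sys κ L} (𝒢 : GoodFam S) where
  w : CtxW 𝒢
  g : ℝ
  g_pos : 0 < g
  g_le : g ≤ 1
  gap : ∀ y ∈ w.a.K0, ∀ ζ : Ball (Fin w.t.n₁),
    17 / 20 * |S.T (cind w.a.O) y| ≤ |w.t.phi y ζ| → S.tauF w.a.O w.t y + g ≤ nm ζ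
  rh : C(Ball κ, ℝ)
  rh_lev : rh.comp (resC w.a.b) = rh
  rh_ge : ∀ y, (w.a.tw : ℝ) / 2 ≤ rh y
  rh_le : ∀ y, rh y ≤ 1
  K : Set (Ball κ)
  K_compact : IsCompact K
  K_sub : K ⊆ w.K1
  K_ge : 1 / (4 * S.C) ≤ (S.lam w.a.l).real K
  rh_close : ∀ y ∈ K, |rh y - (1 - nm y - S.tauF w.a.O w.t y)| ≤ g * w.a.tw / 1000
  Fb : Finset κ
  Fb_sub : (Fb : Set κ) ⊆ w.a.b
  Fb_ge : ∀ y ∈ K, nm y ≤ Ball.mass (Fb : Set κ) y + g / 100

private theorem cr_mass_approx {b : Set κ} (hb : b.Countable) (μ : Measure (Ball κ))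
    [IsFiniteMeasure μ] {K : Set (Ball κ)} (hKm : MeasurableSet K) (hK : K ⊆ BA b) {δ ε : ℝ}
    (hδ : 0 < δ) (hε : 0 < ε) : ∃ F : Finset κ, (F : Set κ) ⊆ b ∧
      μ.real (K ∩ {y | Ball.mass (F : Set κ) y + δ < nm y}) < ε := by
  have : Countable b := hb.to_subtype
  set s : Finset b → Set (Ball κ) := fun F =>
    K ∩ {y | Ball.mass ((F.map (Function.Embedding.subtype _) : Finset κ) : Set κ) y + δ < nm y}
    with hs
  have hanti : Antitone s := by
    intro F F' hFF' y hy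
    have h2 : Ball.mass ((F'.map (Function.Embedding.subtype _) : Finset κ) : Set κ) y + δ <
        nm y := hy.2
    refine ⟨hy.1, ?_⟩
    have : Ball.mass ((F.map (Function.Embedding.subtype _) : Finset κ) : Set κ) y ≤
        Ball.mass ((F'.map (Function.Embedding.subtype _) : Finset κ) : Set κ) y := by
      apply Ball.mass_mono
      exact_mod_cast Finset.map_subset_map.2 hFF'
    rw [mem_ofPred_eq]
    linarith
  have hmeas : ∀ F, MeasurableSet (s F) := by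
    intro F
    refine hKm.inter (measurableSet_lt ?_ ?_)
    · exact (Ball.measurable_mass _).add_const _
    · exact Ball.measurable_mass _
  have h0 : ⋂ F, s F = ∅ := by
    rw [eq_empty_iff_forall_notMem]
    intro y hy
    have hyK : y ∈ K := (mem_iInter.1 hy ∅).1
    have hyb := hK hyK
    have e : nm y = Ball.mass b y := by
      rw [nm_split b y, mem_BA_iff_mass.1 hyb, add_zero]
    obtain ⟨F, hF, hlt⟩ := exists_finset_mass (A := b) (y := y) (r := Ball.mass b y - δ)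
      (by linarith)
    classical
    set F' : Finset b := Finset.subtype (fun i => i ∈ b) F with hF'
    have e2 : (F'.map (Function.Embedding.subtype _) : Finset κ) = F := by
      rw [hF', Finset.subtype_map]
      exact Finset.filter_true_of_mem fun i hi => hF hi
    have h2 := (mem_iInter.1 hy F').2
    rw [mem_ofPred_eq, e2, e] at h2
    linarith
  have h1 := hanti.measure_iInter (μ := μ) (fun F => (hmeas F).nullMeasurableSet)
    ⟨∅, measure_ne_top _ _⟩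
  rw [h0, measure_empty] at h1
  have h2 : ⨅ F, μ (s F) < ENNReal.ofReal ε := by
    rw [← h1]
    exact ENNReal.ofReal_pos.2 hε
  obtain ⟨F, hF⟩ := iInf_lt_iff.1 h2
  refine ⟨F.map (Function.Embedding.subtype _), ?_, ?_⟩
  · intro i hi
    simp only [Finset.coe_map, Function.Embedding.subtype_apply, mem_image] at hi
    obtain ⟨j, _, rfl⟩ := hi
    exact j.2
  · rw [measureReal_def]
    exact (ENNReal.lt_ofReal_iff_toReal_lt (measure_ne_top _ _)).1 hF

theorem exists_ctxR {S : Sys κ L} {𝒢 : GoodFam S} (w : CtxW 𝒢) : Nonempty (CtxR 𝒢) := by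
  obtain ⟨g, hg0, hg1, hgap⟩ := exists_gap w
  have hC : 0 < S.C := S.C_pos
  have htw : (0 : ℝ) < w.a.tw := by exact_mod_cast w.a.tw_pos
  have htw2 := w.a.tw_le
  have hbc : w.a.b.Countable := 𝒢.countable _ w.a.base.good
  have hK1b : w.K1 ⊆ BA w.a.b := w.K1_sub.trans w.a.K0_sub
  set m := S.lam w.a.l with hm
  set r : Ball κ → ℝ := fun y => 1 - nm y - S.tauF w.a.O w.t y with hr
  have hrm : Measurable r := by
    have h1 : Measurable (fun y : Ball κ => nm y) := Ball.measurable_mass _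
    exact (measurable_const.sub h1).sub (S.measurable_tauF _ _)
  have hr1 : ∀ y ∈ w.K1, (w.a.tw : ℝ) ≤ r y ∧ r y ≤ 1 := by
    intro y hy
    have h1 := (exists_tauF w hy).1
    have h2 := w.a.k2 y (w.K1_sub hy)
    have h3 := S.tauF_nonneg w.a.O w.t y
    have h4 := nm_nonneg y
    simp only [hr]
    constructor <;> linarith
  set δ : ℝ := g * w.a.tw / 1000 with hδ
  have hδ0 : 0 < δ := by positivity
  have hint : Integrable (w.K1.indicator r) m := by
    refine integrable_bdd m (hrm.indicator w.K1_meas) 1 fun y => ?_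
    by_cases hy : y ∈ w.K1
    · rw [indicator_of_mem hy]
      have := hr1 y hy
      rw [abs_le]
      constructor <;> linarith
    · rw [indicator_of_notMem hy, abs_zero]
      exact zero_le_one
  obtain ⟨f, hf, hfi⟩ := hint.exists_boundedContinuous_integral_sub_le
    (ε := δ / (100 * S.C)) (by positivity)
  -- the continuous function
  have hrc : Continuous (fun y : Ball κ => max ((w.a.tw : ℝ) / 2) (min 1 (f (Ball.res w.a.b y)))) :=
    continuous_const.max (continuous_const.min (f.continuous.comp (Ball.continuous_res _)))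
  set rh : C(Ball κ, ℝ) := ⟨_, hrc⟩ with hrh
  have hrhy : ∀ y, rh y = max ((w.a.tw : ℝ) / 2) (min 1 (f (Ball.res w.a.b y))) := fun _ => rfl
  -- exceptional sets
  set B1 : Set (Ball κ) := {y | δ ≤ ‖w.K1.indicator r y - f y‖} with hB1
  have hB1m : MeasurableSet B1 := by
    refine measurableSet_le measurable_const ?_
    exact ((hrm.indicator w.K1_meas).sub f.continuous.measurable).norm
  have hB1le : m.real B1 ≤ 1 / (100 * S.C) := by
    have h1 := mul_meas_ge_le_integral_of_nonneg (μ := m)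
      (f := fun y => ‖w.K1.indicator r y - f y‖)
      (Filter.Eventually.of_forall fun y => norm_nonneg _) (hint.sub hfi).norm δ
    have h2 : δ * m.real B1 ≤ δ * (1 / (100 * S.C)) := by
      refine (h1.trans hf).trans (le_of_eq ?_)
      ring
    exact le_of_mul_le_mul_left h2 hδ0
  obtain ⟨F, hFb, hF⟩ := cr_mass_approx hbc m w.K1_meas hK1b (δ := g / 100)
    (ε := 1 / (100 * S.C)) (by positivity) (by positivity)
  set B2 : Set (Ball κ) := w.K1 ∩ {y | Ball.mass (F : Set κ) y + g / 100 < nm y} with hB2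
  have hB2m : MeasurableSet B2 := by
    refine w.K1_meas.inter (measurableSet_lt ?_ ?_)
    · exact (Ball.measurable_mass _).add_const _
    · exact Ball.measurable_mass _
  set G : Set (Ball κ) := w.K1 \ (B1 ∪ B2) with hG
  have hGm : MeasurableSet G := w.K1_meas.diff (hB1m.union hB2m)
  have hGlt : 1 / (4 * S.C) < m.real G := by
    have h1 : m.real w.K1 ≤ m.real G + m.real (B1 ∪ B2) := by
      have h2 : w.K1 ⊆ G ∪ (B1 ∪ B2) := by
        intro y hy
        by_cases h : y ∈ B1 ∪ B2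
        · exact Or.inr h
        · exact Or.inl ⟨hy, h⟩
      exact (measureReal_mono h2).trans (measureReal_union_le _ _)
    have h3 := measureReal_union_le (μ := m) B1 B2
    have h4 := w.K1_ge
    have h5 : 7 / (24 * S.C) = 7 / 24 * (1 / S.C) := by field_simp
    have h6 : 1 / (4 * S.C) = 1 / 4 * (1 / S.C) := by field_simp
    have h7 : 1 / (100 * S.C) = 1 / 100 * (1 / S.C) := by field_simp
    have h8 : 0 < 1 / S.C := by positivity
    rw [h7] at hB1le hF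
    rw [h5] at h4
    rw [h6]
    linarith
  obtain ⟨K, hKG, hKc, hKlt⟩ := hGm.exists_lt_isCompact_of_ne_top (μ := m)
    (r := ENNReal.ofReal (1 / (4 * S.C))) (measure_ne_top _ _)
    ((ENNReal.ofReal_lt_iff_lt_toReal (by positivity) (measure_ne_top _ _)).2 hGlt)
  refine ⟨{ w := w, g := g, g_pos := hg0, g_le := hg1, gap := hgap, rh := rh, rh_lev := ?_,
            rh_ge := ?_, rh_le := ?_, K := K, K_compact := hKc,
            K_sub := hKG.trans sdiff_subset, K_ge := ?_, rh_close := ?_, Fb := F, Fb_sub := hFb,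
            Fb_ge := ?_ }⟩
  · ext y
    show rh (Ball.res w.a.b y) = rh y
    rw [hrhy, hrhy, Ball.res_eq_of_subset subset_rfl]
  · intro y
    rw [hrhy]
    exact le_max_left _ _
  · intro y
    rw [hrhy]
    exact max_le (by linarith) (min_le_left _ _)
  · exact ((ENNReal.ofReal_lt_iff_lt_toReal (by positivity) (measure_ne_top _ _)).1 hKlt).le
  · intro y hy
    have hyG := hKG hy
    have hy1 : y ∈ w.K1 := hyG.1
    have hyb : Ball.res w.a.b y = y := hK1b hy1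
    have hnB : y ∉ B1 := fun h => hyG.2 (Or.inl h)
    rw [hB1, mem_ofPred_eq, not_le, indicator_of_mem hy1, Real.norm_eq_abs] at hnB
    have h1 := hr1 y hy1
    have h2 : |rh y - r y| ≤ |r y - f y| := by
      rw [hrhy, hyb]
      have e1 : r y = max ((w.a.tw : ℝ) / 2) (min 1 (r y)) := by
        rw [min_eq_right h1.2, max_eq_right (by linarith)]
      calc |max ((w.a.tw : ℝ) / 2) (min 1 (f y)) - r y|
          = |max ((w.a.tw : ℝ) / 2) (min 1 (f y)) - max ((w.a.tw : ℝ) / 2) (min 1 (r y))| := by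
            rw [← e1]
        _ ≤ |min 1 (f y) - min 1 (r y)| := by
            rw [max_comm, max_comm (a := (w.a.tw : ℝ) / 2)]
            exact abs_max_sub_max_le_abs _ _ _
        _ ≤ |f y - r y| := by
            rw [min_comm, min_comm (a := (1 : ℝ))]
            exact abs_inf_sub_inf_le_abs _ _ _
        _ = |r y - f y| := abs_sub_comm _ _
    exact (h2.trans_lt hnB).le
  · intro y hy
    have hyG := hKG hy
    have hnB : y ∉ B2 := fun h => hyG.2 (Or.inr h)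
    by_contra hcon
    push Not at hcon
    exact hnB ⟨hyG.1, hcon⟩

end Sys

end Pool.Agent.ZDB

end

section

/-!
# ZDB/CtxB : README 9.3, the neighbourhood O_B
kB = eta/(8C(n+1)).  For y ∈ K ⊆ K0: ab0 y l > 0, nm y ≤ 1−2tw.  Let O_j ∈ Clop b be the sequence of exists_seq at l, contained in O for large j; sB rational in
(Fv l, Fv l + kB].  As in CtxA: alpha y O_j → ab0 y l and alpha y (O_j∩Fs sB) → 0 on BA b; choose j with lam-measure of {y ∈ K | alpha y O_j ≥ ab0 y l + kB} and of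
{y ∈ K | alpha y (O_j∩Fs sB) ≥ kB} at most 1/(300C) each; OB := O_j (⊆ O).  Then τ_k = 2^{-k}: the measures of {alpha y OB < ab0 y l + kB, ahat y OB (2τ_k) > ab0 y l + kB} and of
{alpha y (OB∩Fs sB) < kB, ahat y (OB∩Fs sB) τ_k > kB} (y ∈ K) tend to 0 (exists_tau; measurable_ahat: nm y ≤ 1 − 2τ_k for large k); tB := τ_k ≤ min (tw/2, dB).
K := compact subset of the good part of r.K with measure ≥ 1/(4C) − 5/(300C) ≥ 5/(24C).
-/

open Set Filter Topology MeasureTheory Pool.Agent.H53.ZD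

namespace Pool.Agent.ZDB

variable {κ L : Type*} [TopologicalSpace L] [CompactSpace L] [T2Space L] [TotallyDisconnectedSpace L]
  [MeasurableSpace L] [BorelSpace L]

namespace Sys

/-- the constant `κ_B` -/
noncomputable def kB (S : Sys κ L) (n : ℕ) : ℝ := S.eta / (8 * S.C * (n + 1))

/-- README 9.3, the neighbourhood -/
structure CtxB {S : Sys κ L} (𝒢 : GoodFam S) (n : ℕ) where
  r : CtxR 𝒢
  OB : Set L
  clopOB : S.Clop r.w.a.b OB
  memOB : r.w.a.l ∈ OB
  OB_sub : OB ⊆ r.w.a.O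
  tB : ℚ
  tB_pos : 0 < tB
  tB_le : (tB : ℝ) ≤ r.w.a.tw / 2
  sB : ℚ
  sB_gt : S.Fv r.w.a.l < sB
  sB_le : (sB : ℝ) ≤ S.Fv r.w.a.l + S.kB n
  K : Set (Ball κ)
  K_compact : IsCompact K
  K_sub : K ⊆ r.K
  K_ge : 5 / (24 * S.C) ≤ (S.lam r.w.a.l).real K
  b1 : ∀ y ∈ K, S.ahat y OB (2 * (tB : ℝ)) ≤ S.ab0 y r.w.a.l + S.kB n
  b2 : ∀ y ∈ K, S.ahat y (OB ∩ S.Fs sB) tB ≤ S.kB n

private theorem small_of_ev {X : Type*} [MeasurableSpace X] (μ : Measure X) [IsFiniteMeasure μ]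
    {B : ℕ → Set X} (hB : ∀ j, MeasurableSet (B j)) (h : ∀ y, ∀ᶠ j in atTop, y ∉ B j) {ε : ℝ}
    (hε : 0 < ε) : ∃ j₀, ∀ j, j₀ ≤ j → μ.real (B j) ≤ ε := by
  have hanti : Antitone fun j => ⋃ i : ℕ, B (j + i) := by
    intro j j' hj
    refine iUnion_subset fun i => ?_
    have e : j' + i = j + (j' - j + i) := by omega
    rw [e]
    exact subset_iUnion (fun i => B (j + i)) _
  have h1 : Tendsto (fun j => μ (⋃ i : ℕ, B (j + i))) atTop (𝓝 (μ (⋂ j, ⋃ i : ℕ, B (j + i)))) :=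
    tendsto_measure_iInter_atTop
      (fun j => (MeasurableSet.iUnion fun i => hB (j + i)).nullMeasurableSet) hanti
      ⟨0, measure_ne_top _ _⟩
  have h2 : (⋂ j, ⋃ i : ℕ, B (j + i)) = ∅ := by
    rw [eq_empty_iff_forall_notMem]
    intro y hy
    obtain ⟨j₀, hj₀⟩ := eventually_atTop.1 (h y)
    obtain ⟨i, hi⟩ := mem_iUnion.1 (mem_iInter.1 hy j₀)
    exact hj₀ (j₀ + i) (Nat.le_add_right _ _) hi
  rw [h2, measure_empty] at h1
  have h3 : ∀ᶠ j in atTop, μ (⋃ i : ℕ, B (j + i)) < ENNReal.ofReal ε :=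
    h1.eventually (gt_mem_nhds (ENNReal.ofReal_pos.2 hε))
  obtain ⟨j₀, hj₀⟩ := eventually_atTop.1 h3
  refine ⟨j₀, fun j hj => ?_⟩
  have h4 : μ (B j) ≤ ENNReal.ofReal ε := by
    refine (measure_mono ?_).trans (hj₀ j hj).le
    exact subset_iUnion_of_subset 0 (by rw [Nat.add_zero])
  rw [measureReal_def]
  exact ENNReal.toReal_le_of_le_ofReal hε.le h4

private theorem measurable_gt_ahat (S : Sys κ L) {b : Set κ} (hb : S.Ret b) {O : Set L}
    (hO : S.Clop b O) (s τ : ℚ) (hτ : 0 < τ) {f : Ball κ → ℝ} (hf : Measurable f) :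
    MeasurableSet {y : Ball κ | nm (Ball.res b y) ≤ 1 - τ ∧
      f y < S.ahat (Ball.res b y) (O ∩ S.Fs s) τ} := by
  have e : {y : Ball κ | nm (Ball.res b y) ≤ 1 - τ ∧
      f y < S.ahat (Ball.res b y) (O ∩ S.Fs s) τ} =
      ⋃ q : ℚ, ({y : Ball κ | f y < q} ∩ {y : Ball κ | nm (Ball.res b y) ≤ 1 - τ ∧
        (q : ℝ) < S.ahat (Ball.res b y) (O ∩ S.Fs s) τ}) := by
    ext y
    simp only [mem_setOf_eq, mem_iUnion, mem_inter_iff]
    constructor
    · rintro ⟨h1, h2⟩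
      obtain ⟨q, hq1, hq2⟩ := exists_rat_btwn h2
      exact ⟨q, hq1, h1, hq2⟩
    · rintro ⟨q, h1, h2, h3⟩
      exact ⟨h2, h1.trans h3⟩
  rw [e]
  refine MeasurableSet.iUnion fun q => ?_
  exact (measurableSet_lt hf measurable_const).inter (S.measurable_ahat hb hO s τ hτ _)

theorem exists_ctxB {S : Sys κ L} {𝒢 : GoodFam S} (r : CtxR 𝒢) (n : ℕ) {dB : ℝ} (hd : 0 < dB) :
    ∃ cb : CtxB 𝒢 n, cb.r = r ∧ (cb.tB : ℝ) ≤ dB := by
  have hC := S.C_pos
  have hb := r.w.a.base.good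
  have hrb := 𝒢.ret _ hb
  have hR := 𝒢.rlq _ hb
  have hl := r.w.a.base.memL
  have hk : 0 < S.kB n := by
    unfold kB eta
    positivity
  set k : ℝ := S.kB n with hk_def
  set b : Set κ := r.w.a.b with hb_def
  set l : L := r.w.a.l with hl_def
  have hKm : MeasurableSet r.K := r.K_compact.isClosed.measurableSet
  have hK0 : ∀ y ∈ r.K, y ∈ r.w.a.K0 := fun y hy => r.w.K1_sub (r.K_sub hy)
  have hKb : ∀ y ∈ r.K, Ball.res b y = y := fun y hy => r.w.a.K0_sub (hK0 y hy)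
  have hKnm : ∀ y ∈ r.K, nm y ≤ 1 - 2 * (r.w.a.tw : ℝ) := fun y hy => r.w.a.k2 y (hK0 y hy)
  have htw : (0 : ℝ) < r.w.a.tw := by exact_mod_cast r.w.a.tw_pos
  have e1 : (((-1 : ℚ)) : ℝ) = -1 := by norm_num
  have hFs : ∀ U : Set L, U ∩ S.Fs (((-1 : ℚ)) : ℝ) = U := fun U => by
    rw [e1, S.Fs_neg_one, inter_univ]
  obtain ⟨sB, hsB1, hsB2⟩ := exists_rat_btwn (show S.Fv l < S.Fv l + k by linarith)
  obtain ⟨O, hOa, hOc, hlO, hO', -⟩ := S.exists_seq hrb hl
  obtain ⟨j₁, hj₁⟩ := hO' r.w.a.O r.w.a.clopO r.w.a.memO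
  -- first choice
  have hm0 : Measurable fun y : Ball κ => S.ab0 (Ball.res b y) l + k :=
    (S.measurable_ab0 hrb hR hl).add_const k
  set B1 : ℕ → Set (Ball κ) := fun j => r.K ∩ {y | S.ab0 (Ball.res b y) l + k ≤
    S.alpha (Ball.res b y) (O j ∩ S.Fs (((-1 : ℚ)) : ℝ))} with hB1
  set B2 : ℕ → Set (Ball κ) := fun j => r.K ∩ {y | k ≤
    S.alpha (Ball.res b y) (O j ∩ S.Fs (sB : ℝ))} with hB2
  have hB1m : ∀ j, MeasurableSet (B1 j) := fun j =>
    hKm.inter (measurableSet_le hm0 (S.measurable_alpha hrb (hOc j) (-1)))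
  have hB2m : ∀ j, MeasurableSet (B2 j) := fun j =>
    hKm.inter (measurableSet_le measurable_const (S.measurable_alpha hrb (hOc j) sB))
  have hB1e : ∀ y, ∀ᶠ j in atTop, y ∉ B1 j := by
    intro y
    by_cases hy : y ∈ r.K
    · have hyb : y ∈ BA b := r.w.a.K0_sub (hK0 y hy)
      have h1 : S.ab y l (-1) < S.ab0 y l + k := by
        unfold ab0
        linarith
      obtain ⟨U, hU, hlU, hUa⟩ := S.exists_clop_of_ab_lt hrb hR hyb hl h1
      obtain ⟨j₀, hj₀⟩ := hO' U hU hlU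
      refine eventually_atTop.2 ⟨j₀, fun j hj hyB => ?_⟩
      have h2 := hyB.2
      rw [mem_setOf_eq, hKb y hy, e1] at h2
      have h3 : S.alpha y (O j ∩ S.Fs (-1)) ≤ S.alpha y (U ∩ S.Fs (-1)) :=
        S.alpha_mono (inter_subset_inter_left _ ((hOa hj).trans hj₀)) y
      linarith
    · exact Eventually.of_forall fun j hyB => hy hyB.1
  have hB2e : ∀ y, ∀ᶠ j in atTop, y ∉ B2 j := by
    intro y
    by_cases hy : y ∈ r.K
    · have hyb : y ∈ BA b := r.w.a.K0_sub (hK0 y hy)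
      have h1 : S.ab y l sB < k := by
        rw [r.w.a.base.P1 y hyb sB hsB1]
        exact hk
      obtain ⟨U, hU, hlU, hUa⟩ := S.exists_clop_of_ab_lt hrb hR hyb hl h1
      obtain ⟨j₀, hj₀⟩ := hO' U hU hlU
      refine eventually_atTop.2 ⟨j₀, fun j hj hyB => ?_⟩
      have h2 := hyB.2
      rw [mem_setOf_eq, hKb y hy] at h2
      have h3 : S.alpha y (O j ∩ S.Fs sB) ≤ S.alpha y (U ∩ S.Fs sB) :=
        S.alpha_mono (inter_subset_inter_left _ ((hOa hj).trans hj₀)) y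
      linarith
    · exact Eventually.of_forall fun j hyB => hy hyB.1
  have hε : 0 < 1 / (300 * S.C) := by positivity
  obtain ⟨j₂, hj₂⟩ := small_of_ev (S.lam l) hB1m hB1e hε
  obtain ⟨j₃, hj₃⟩ := small_of_ev (S.lam l) hB2m hB2e hε
  set j : ℕ := max j₁ (max j₂ j₃) with hj
  have hm1 := hj₂ j ((le_max_left _ _).trans (le_max_right _ _))
  have hm2 := hj₃ j ((le_max_right _ _).trans (le_max_right _ _))
  -- second choice
  set τ : ℕ → ℚ := fun i => 1 / ((i : ℚ) + 1) with hτ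
  have hτ0 : ∀ i, 0 < τ i := fun i => by rw [hτ]; positivity
  have hτt : Tendsto (fun i => (τ i : ℝ)) atTop (𝓝 0) := by
    have h1 := tendsto_one_div_add_atTop_nhds_zero_nat (𝕜 := ℝ)
    refine h1.congr fun i => ?_
    rw [hτ]
    push_cast
    rfl
  set B3 : ℕ → Set (Ball κ) := fun i => (r.K \ B1 j) ∩ {y | nm (Ball.res b y) ≤ 1 - ((2 * τ i : ℚ) : ℝ) ∧
    S.ab0 (Ball.res b y) l + k < S.ahat (Ball.res b y) (O j ∩ S.Fs (((-1 : ℚ)) : ℝ))
      ((2 * τ i : ℚ) : ℝ)} with hB3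
  set B4 : ℕ → Set (Ball κ) := fun i => (r.K \ B2 j) ∩ {y | nm (Ball.res b y) ≤ 1 - (τ i : ℝ) ∧
    k < S.ahat (Ball.res b y) (O j ∩ S.Fs (sB : ℝ)) (τ i : ℝ)} with hB4
  have hB3m : ∀ i, MeasurableSet (B3 i) := fun i =>
    (hKm.diff (hB1m j)).inter (measurable_gt_ahat S hrb (hOc j) (-1) (2 * τ i)
      (mul_pos two_pos (hτ0 i)) hm0)
  have hB4m : ∀ i, MeasurableSet (B4 i) := fun i =>
    (hKm.diff (hB2m j)).inter (measurable_gt_ahat S hrb (hOc j) sB (τ i) (hτ0 i)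
      measurable_const)
  have hB3e : ∀ y, ∀ᶠ i in atTop, y ∉ B3 i := by
    intro y
    by_cases hy : y ∈ r.K \ B1 j
    · have h1 : S.alpha y (O j ∩ S.Fs (((-1 : ℚ)) : ℝ)) < S.ab0 y l + k := by
        by_contra h
        rw [not_lt] at h
        refine hy.2 ⟨hy.1, ?_⟩
        rw [mem_setOf_eq, hKb y hy.1]
        exact h
      obtain ⟨t, ht, ht'⟩ := S.exists_tau h1
      have h2 : ∀ᶠ i in atTop, (τ i : ℝ) < t / 2 := hτt.eventually (gt_mem_nhds (half_pos ht))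
      refine h2.mono fun i hi hyB => ?_
      have h3 := hyB.2.2
      rw [hKb y hy.1] at h3
      have h4 := ht' ((2 * τ i : ℚ) : ℝ) (by exact_mod_cast mul_pos two_pos (hτ0 i))
        (by push_cast; linarith)
      linarith
    · exact Eventually.of_forall fun i hyB => hy hyB.1
  have hB4e : ∀ y, ∀ᶠ i in atTop, y ∉ B4 i := by
    intro y
    by_cases hy : y ∈ r.K \ B2 j
    · have h1 : S.alpha y (O j ∩ S.Fs sB) < k := by
        by_contra h
        rw [not_lt] at h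
        refine hy.2 ⟨hy.1, ?_⟩
        rw [mem_setOf_eq, hKb y hy.1]
        exact h
      obtain ⟨t, ht, ht'⟩ := S.exists_tau h1
      have h2 : ∀ᶠ i in atTop, (τ i : ℝ) < t := hτt.eventually (gt_mem_nhds ht)
      refine h2.mono fun i hi hyB => ?_
      have h3 := hyB.2.2
      rw [hKb y hy.1] at h3
      have h4 := ht' (τ i : ℝ) (by exact_mod_cast (hτ0 i)) hi.le
      linarith
    · exact Eventually.of_forall fun i hyB => hy hyB.1
  obtain ⟨i₁, hi₁⟩ := small_of_ev (S.lam l) hB3m hB3e hε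
  obtain ⟨i₂, hi₂⟩ := small_of_ev (S.lam l) hB4m hB4e hε
  obtain ⟨i₃, hi₃⟩ := eventually_atTop.1 (hτt.eventually
    (gt_mem_nhds (show (0 : ℝ) < min ((r.w.a.tw : ℝ) / 2) dB from lt_min (half_pos htw) hd)))
  set i : ℕ := max i₁ (max i₂ i₃) with hi
  have hm3 := hi₁ i (le_max_left _ _)
  have hm4 := hi₂ i ((le_max_left _ _).trans (le_max_right _ _))
  have hti := hi₃ i ((le_max_right _ _).trans (le_max_right _ _))
  have hti1 : (τ i : ℝ) < r.w.a.tw / 2 := hti.trans_le (min_le_left _ _)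
  have hti2 : (τ i : ℝ) < dB := hti.trans_le (min_le_right _ _)
  -- the good set
  set G : Set (Ball κ) := r.K \ (B1 j ∪ B2 j ∪ (B3 i ∪ B4 i)) with hG
  have hGm : MeasurableSet G :=
    hKm.diff (((hB1m j).union (hB2m j)).union ((hB3m i).union (hB4m i)))
  have hGge : 1 / (4 * S.C) - 4 * (1 / (300 * S.C)) ≤ (S.lam l).real G := by
    have h1 : (S.lam l).real r.K ≤ (S.lam l).real G +
        (S.lam l).real (B1 j ∪ B2 j ∪ (B3 i ∪ B4 i)) := by
      refine (measureReal_mono ?_).trans (measureReal_union_le _ _)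
      intro y hy
      by_cases h : y ∈ B1 j ∪ B2 j ∪ (B3 i ∪ B4 i)
      · exact Or.inr h
      · exact Or.inl ⟨hy, h⟩
    have h2 := measureReal_union_le (μ := S.lam l) (B1 j ∪ B2 j) (B3 i ∪ B4 i)
    have h3 := measureReal_union_le (μ := S.lam l) (B1 j) (B2 j)
    have h4 := measureReal_union_le (μ := S.lam l) (B3 i) (B4 i)
    have h5 := r.K_ge
    linarith
  obtain ⟨K, hKG, hKc, hKlt⟩ := hGm.exists_isCompact_sdiff_lt (μ := S.lam l) (measure_ne_top _ _)
    (ε := ENNReal.ofReal (1 / (300 * S.C))) (ENNReal.ofReal_pos.2 hε).ne'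
  have hKge : 5 / (24 * S.C) ≤ (S.lam l).real K := by
    have h1 : (S.lam l).real G ≤ (S.lam l).real K + (S.lam l).real (G \ K) := by
      refine (measureReal_mono ?_).trans (measureReal_union_le _ _)
      intro y hy
      by_cases h : y ∈ K
      · exact Or.inl h
      · exact Or.inr ⟨hy, h⟩
    have h2 : (S.lam l).real (G \ K) ≤ 1 / (300 * S.C) := by
      rw [measureReal_def]
      exact ENNReal.toReal_le_of_le_ofReal hε.le hKlt.le
    have h3 : 5 / (24 * S.C) ≤ 1 / (4 * S.C) - 5 * (1 / (300 * S.C)) := by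
      have h4 : 5 / (24 * S.C) = (5 / 24) * (1 / S.C) := by field_simp
      have h5 : 1 / (4 * S.C) = (1 / 4) * (1 / S.C) := by field_simp
      have h6 : 1 / (300 * S.C) = (1 / 300) * (1 / S.C) := by field_simp
      have h7 : 0 < 1 / S.C := by positivity
      rw [h4, h5, h6]
      nlinarith
    linarith
  have hKK : ∀ y ∈ K, y ∈ r.K := fun y hy => (hKG hy).1
  refine ⟨{ r := r, OB := O j, clopOB := hOc j, memOB := hlO j,
            OB_sub := (hOa (le_max_left _ _)).trans hj₁, tB := τ i, tB_pos := hτ0 i,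
            tB_le := hti1.le, sB := sB, sB_gt := hsB1, sB_le := hsB2.le, K := K,
            K_compact := hKc, K_sub := hKK, K_ge := hKge, b1 := ?_, b2 := ?_ }, rfl, hti2.le⟩
  · intro y hy
    have hyK := hKK y hy
    by_contra h
    rw [not_le] at h
    refine (hKG hy).2 (Or.inr (Or.inl ⟨⟨hyK, fun h1 => (hKG hy).2 (Or.inl (Or.inl h1))⟩, ?_, ?_⟩))
    · rw [hKb y hyK]
      have := hKnm y hyK
      push_cast
      linarith
    · rw [hKb y hyK, hFs]
      push_cast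
      exact h
  · intro y hy
    have hyK := hKK y hy
    by_contra h
    rw [not_le] at h
    refine (hKG hy).2 (Or.inr (Or.inr ⟨⟨hyK, fun h1 => (hKG hy).2 (Or.inl (Or.inr h1))⟩, ?_, ?_⟩))
    · rw [hKb y hyK]
      have := hKnm y hyK
      linarith
    · rw [hKb y hyK]
      exact h

end Sys

end Pool.Agent.ZDB

end

section

/-!
# ZDB/PreBlock : README 9.3, pre-blocks from (P3)
Given 𝔸 countable.  A' 𝒢'-good ⊇ 𝔸 ∪ b ∪ (a stabilising set of b) (exists_stab, Stab.mono; 𝒢'-good sets are 𝒢-good by h𝒢).  P3 for A' with k₀ > 0 so small that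
k₀ ≤ kB/(8C), k₀ + 4n·k₀/tB ≤ kB/16 (kB = S.kB n): (top, lB).  Let X₀ := {y' | res b y' ∈ cb.K} (closed).  Bad := P3's exceptional set ∪ {tB/(4n) ≤ mass bᶜ y'} ∪ (BA top)ᶜ:
outer measure ≤ k₀ + 4n k₀/tB + 0 ≤ kB/16 (lam_mass_le, cost ≤ k₀).  For y' ∈ X₀∖Bad: y' ∈ BA top, res A' y' ∈ BA b, hence res A' y' = res b (res A' y') = res b y' ∈ K,
mass bᶜ y' ≤ tB/(4n), ab0 (res b y') l − k₀ ≤ ab0 y' lB.  M := toMeasurable of X₀ ∩ Bad; KB := compact ⊆ X₀∖M with measure of (X₀∖M)∖KB ≤ kB/16.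
-/

open Set Filter Topology MeasureTheory Pool.Agent.H53.ZD

namespace Pool.Agent.ZDB

variable {κ L : Type*} [TopologicalSpace L] [CompactSpace L] [T2Space L] [TotallyDisconnectedSpace L]
  [MeasurableSpace L] [BorelSpace L]

namespace Sys

/-- pre-blocks -/
structure PreBlock {S : Sys κ L} {𝒢 : GoodFam S} {n : ℕ} (𝒢' : GoodFam S) (cb : CtxB 𝒢 n) where
  A' : Set κ
  top : Set κ
  lB : L
  KB : Set (Ball κ)
  goodA' : 𝒢'.G A'
  goodT : 𝒢.G top
  stab : S.Stab cb.r.w.a.b A'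
  sub : A' ⊆ top
  memL : lB ∈ S.LA top
  rhoA : S.rho A' lB = cb.r.w.a.l
  ne : lB ≠ cb.r.w.a.l
  Fv_le : S.Fv lB ≤ S.Fv cb.r.w.a.l + S.kB n / (8 * S.C)
  KB_compact : IsCompact KB
  KB_sub : KB ⊆ BA top
  pb1 : ∀ y ∈ KB, Ball.res cb.r.w.a.b y ∈ cb.K
  pb2 : ∀ y ∈ KB, Ball.res A' y = Ball.res cb.r.w.a.b y
  pb3 : ∀ y ∈ KB, Ball.mass (cb.r.w.a.b)ᶜ y ≤ cb.tB / (4 * n)
  pb4 : ∀ y ∈ KB, S.ab0 (Ball.res cb.r.w.a.b y) cb.r.w.a.l - S.kB n / 8 ≤ S.ab0 y lB
  pb5 : (S.lam lB).real ((Ball.res cb.r.w.a.b ⁻¹' cb.K) \ KB) ≤ S.kB n / 8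

theorem exists_preblock {S : Sys κ L} {𝒢 : GoodFam S} {n : ℕ} (hn : 0 < n) (𝒢' : GoodFam S)
    (h𝒢 : ∀ A, 𝒢'.G A → 𝒢.G A) (cb : CtxB 𝒢 n) {𝔸 : Set κ} (h𝔸 : 𝔸.Countable) :
    ∃ pb : PreBlock 𝒢' cb, 𝔸 ⊆ pb.A' := by
  have hC := S.C_pos
  have hC1 := S.one_le
  have base := cb.r.w.a.base
  have hRb := 𝒢.ret _ base.good
  obtain ⟨A₀, hst₀⟩ := S.exists_stab hRb
  obtain ⟨A', hAA', hA'⟩ := 𝒢'.exists_superset (h𝔸.union hst₀.2.1)
  have hst : S.Stab cb.r.w.a.b A' :=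
    hst₀.mono S (subset_union_right.trans hAA') (𝒢'.countable A' hA')
  have hbA' : cb.r.w.a.b ⊆ A' := hst.1
  have hn' : (0 : ℝ) < n := by exact_mod_cast hn
  have htB : (0 : ℝ) < cb.tB := by exact_mod_cast cb.tB_pos
  have hkB : 0 < S.kB n := by
    unfold kB eta
    positivity
  set k₀ : ℝ := min (S.kB n / (8 * S.C)) (S.kB n * cb.tB / (16 * (cb.tB + 4 * n))) with hk₀
  have hk₀pos : 0 < k₀ := lt_min (by positivity) (by positivity)
  have hk1 : k₀ ≤ S.kB n / (8 * S.C) := min_le_left _ _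
  have hk2 : k₀ ≤ S.kB n * cb.tB / (16 * (cb.tB + 4 * n)) := min_le_right _ _
  have hk3 : k₀ ≤ S.kB n / 8 := by
    refine hk1.trans ?_
    exact div_le_div_of_nonneg_left hkB.le (by norm_num) (by linarith)
  have hk4 : k₀ + k₀ / (cb.tB / (4 * n)) ≤ S.kB n / 16 := by
    have h1 : k₀ + k₀ / (cb.tB / (4 * n)) = k₀ * ((cb.tB + 4 * n) / cb.tB) := by
      field_simp
    rw [h1]
    refine (mul_le_mul_of_nonneg_right hk2 (by positivity)).trans (le_of_eq ?_)
    have h2 : (cb.tB : ℝ) + 4 * n ≠ 0 := by positivity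
    field_simp
  obtain ⟨top, lB, hGt, hAt, hlB, hr, hne, hF, hcost, hbad⟩ :=
    base.P3 A' (h𝒢 A' hA') hbA' k₀ hk₀pos
  have hRt := 𝒢.ret _ hGt
  set X₀ : Set (Ball κ) := Ball.res cb.r.w.a.b ⁻¹' cb.K with hX₀
  have hX₀c : IsClosed X₀ := cb.K_compact.isClosed.preimage (Ball.continuous_res _)
  set B1 : Set (Ball κ) := {y' : Ball κ | ¬ (Ball.res A' y' ∈ BA cb.r.w.a.b ∧
      S.ab0 (Ball.res cb.r.w.a.b y') cb.r.w.a.l - k₀ ≤ S.ab0 y' lB)} with hB1
  set B2 : Set (Ball κ) := {y' : Ball κ | (cb.tB : ℝ) / (4 * n) ≤ Ball.mass (cb.r.w.a.b)ᶜ y'} with hB2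
  set Bad : Set (Ball κ) := B1 ∪ (B2 ∪ (BA top)ᶜ) with hBad
  have hB2m : (S.lam lB).real B2 ≤ k₀ / (cb.tB / (4 * n)) := by
    refine (S.lam_mass_le cb.r.w.a.b lB (by positivity)).trans ?_
    exact div_le_div_of_nonneg_right hcost (by positivity)
  have hB3m : (S.lam lB).real (BA top)ᶜ = 0 := by
    rw [measureReal_def, S.lam_compl_BA hRt hlB]
    rfl
  have hBadm : (S.lam lB).real Bad ≤ S.kB n / 16 := by
    have h1 := measureReal_union_le (μ := S.lam lB) B1 (B2 ∪ (BA top)ᶜ)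
    have h2 := measureReal_union_le (μ := S.lam lB) B2 (BA top)ᶜ
    linarith
  set M : Set (Ball κ) := toMeasurable (S.lam lB) (X₀ ∩ Bad) with hM
  have hMm : MeasurableSet M := measurableSet_toMeasurable _ _
  have hMs : X₀ ∩ Bad ⊆ M := subset_toMeasurable _ _
  have hMr : (S.lam lB).real M ≤ S.kB n / 16 := by
    have h1 : (S.lam lB).real M = (S.lam lB).real (X₀ ∩ Bad) := by
      rw [measureReal_def, measureReal_def, hM, measure_toMeasurable]
    rw [h1]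
    exact (measureReal_mono inter_subset_right).trans hBadm
  have hXM : MeasurableSet (X₀ \ M) := hX₀c.measurableSet.diff hMm
  obtain ⟨KB, hKBs, hKBc, hKBm⟩ := hXM.exists_isCompact_sdiff_lt
    (μ := S.lam lB) (measure_ne_top _ _) (ε := ENNReal.ofReal (S.kB n / 16))
    (by rw [Ne, ENNReal.ofReal_eq_zero, not_le]; positivity)
  have hKBr : (S.lam lB).real ((X₀ \ M) \ KB) ≤ S.kB n / 16 := by
    rw [measureReal_def]
    exact ENNReal.toReal_le_of_le_ofReal (by positivity) hKBm.le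
  have hgood : ∀ y ∈ KB, y ∉ Bad := by
    intro y hy hyB
    exact (hKBs hy).2 (hMs ⟨(hKBs hy).1, hyB⟩)
  refine ⟨{ A' := A', top := top, lB := lB, KB := KB, goodA' := hA', goodT := hGt, stab := hst
            sub := hAt, memL := hlB, rhoA := hr, ne := hne, Fv_le := by linarith
            KB_compact := hKBc, KB_sub := ?_, pb1 := ?_, pb2 := ?_, pb3 := ?_, pb4 := ?_
            pb5 := ?_ }, subset_union_left.trans hAA'⟩
  · intro y hy
    by_contra hc
    exact hgood y hy (Or.inr (Or.inr hc))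
  · intro y hy
    exact (hKBs hy).1
  · intro y hy
    have h1 : y ∉ B1 := fun h => hgood y hy (Or.inl h)
    have h2 : Ball.res A' y ∈ BA cb.r.w.a.b := by
      by_contra hc
      exact h1 (fun h => hc h.1)
    have h3 : Ball.res cb.r.w.a.b (Ball.res A' y) = Ball.res A' y := h2
    rw [← h3, Ball.res_eq_of_subset hbA']
  · intro y hy
    have h1 : y ∉ B2 := fun h => hgood y hy (Or.inr (Or.inl h))
    exact (not_le.1 h1).le
  · intro y hy
    have h1 : y ∉ B1 := fun h => hgood y hy (Or.inl h)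
    have h2 : S.ab0 (Ball.res cb.r.w.a.b y) cb.r.w.a.l - k₀ ≤ S.ab0 y lB := by
      by_contra hc
      exact h1 (fun h => hc h.2)
    linarith
  · have h1 : X₀ \ KB ⊆ M ∪ ((X₀ \ M) \ KB) := by
      intro y hy
      by_cases hyM : y ∈ M
      · exact Or.inl hyM
      · exact Or.inr ⟨⟨hy.1, hyM⟩, hy.2⟩
    have h2 := (measureReal_mono (μ := S.lam lB) h1).trans (measureReal_union_le _ _)
    linarith

end Sys

end Pool.Agent.ZDB

end
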