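import Pool.Agent.ZDM.P10

/-!
# Merged form of the modules ZDB.BlockT, ZDB.CtxT, ZDB.Block, ZDB.Fam, ZDB.Config, ZDB.ConfDef
-/

set_option autoImplicit false
set_option linter.unusedSectionVars false

section

/-!
# ZDB/BlockT : README 9.3, the sets V_t, W_t and the choice of t
b, l, m = lam l, K = cb.K.  mass bᶜ is lower semicontinuous ({mass bᶜ ≤ r} closed).
* V t is the image under res b of the compact set {y' ∈ KB | mass bᶜ y' ≤ t·rh (res b y')} (closed: {mass bᶜ y' − t·rh ≤ 0}: lower semicontinuous minus continuous; e.g.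
  mass bᶜ y' ≤ t rh y' iff ∑_{i∈F}|y' i| ≤ t rh y' for all finite F ⊆ bᶜ, `Ball.mass_le_iff`).  So V t is compact.
* W h t = K ∖ N, N = ⋃_k (image of the compact set {y' ∈ KB | mass bᶜ y' ≤ (1−h)t·rh − 1/(k+1)}): Borel.
* mass bᶜ > 0 on KB: if mass bᶜ y' = 0 then y' ∈ BA b, and ab0 y' lB = 0 (ab0_eq_zero; lB ∉ LA b because ρ_b lB = l ≠ lB), but pb4 and k1a, k1b give
  ab0 y' lB ≥ 1/(2C) − kB/8 > 0.  A lower semicontinuous positive function on the compact KB has a minimum δ > 0 (KB ≠ ∅); so V t = ∅ for t < δ.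
* m(K∖res b(KB)) ≤ kB/8: m(K∖res b KB) ≤ lam_lB(res b⁻¹(K∖res b KB)) ≤ lam_lB(res b⁻¹K∖KB) (ρ_b lB = l, lam_rho_real).  For t ≥ t₁ := tB/(2n·tw): t·rh ≥ t·tw/2 ≥ tB/(4n),
  so V t ⊇ K ∩ res b(KB) and m(V t) ≥ m(K) − kB/8 ≥ m(K)/3.
* t* := inf{t > 0 real | m(V t) ≥ m(K)/3} ∈ [δ, t₁] (V for real t, monotone).  Choose t rational, t* < t < t*/(1−h) ≤ 2t* (h ≤ 1/2; if t* = ... the interval is nonempty since
  h > 0).  m(V t) ≥ m(K)/3; with t' = (1−h)t < t*: m(V t') < m(K)/3 and K∖V t' ⊆ W h t, so m(W h t) ≥ 2m(K)/3.  t ≤ 2t₁ = tB/(n·tw).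
-/

open Set Filter Topology MeasureTheory Pool.Agent.H53.ZD

namespace Pool.Agent.ZDB

variable {κ L : Type*} [TopologicalSpace L] [CompactSpace L] [T2Space L] [TotallyDisconnectedSpace L]
  [MeasurableSpace L] [BorelSpace L]

namespace Sys

variable {S : Sys κ L} {𝒢 : GoodFam S} {n : ℕ} {𝒢' : GoodFam S} {cb : CtxB 𝒢 n}

/-- the cheap base points -/
def PreBlock.V (pb : PreBlock 𝒢' cb) (t : ℝ) : Set (Ball κ) :=
  {y | y ∈ cb.K ∧ ∃ y' ∈ pb.KB, Ball.res cb.r.w.a.b y' = y ∧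
    Ball.mass (cb.r.w.a.b)ᶜ y' ≤ t * cb.r.rh y}

/-- the expensive base points -/
def PreBlock.W (pb : PreBlock 𝒢' cb) (h t : ℝ) : Set (Ball κ) :=
  {y | y ∈ cb.K ∧ ∀ y' ∈ pb.KB, Ball.res cb.r.w.a.b y' = y →
    (1 - h) * t * cb.r.rh y ≤ Ball.mass (cb.r.w.a.b)ᶜ y'}

private theorem BlockT_closed (b : Set κ) {f : Ball κ → ℝ} (hf : Continuous f) :
    IsClosed {y' : Ball κ | Ball.mass bᶜ y' ≤ f y'} := by
  simp only [Ball.mass_le_iff, ofPred_forall]
  refine isClosed_iInter fun s => isClosed_iInter fun _ => ?_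
  exact isClosed_le (continuous_finsetSum _ fun i _ => (Ball.continuous_coord i).abs) hf

private theorem PreBlock.V_eq (pb : PreBlock 𝒢' cb) (t : ℝ) :
    pb.V t = Ball.res cb.r.w.a.b '' (pb.KB ∩
      {y' | Ball.mass (cb.r.w.a.b)ᶜ y' ≤ t * cb.r.rh (Ball.res cb.r.w.a.b y')}) := by
  ext y
  constructor
  · rintro ⟨_, y', hy', rfl, h⟩
    exact ⟨y', ⟨hy', h⟩, rfl⟩
  · rintro ⟨y', ⟨hy', h⟩, rfl⟩
    exact ⟨pb.pb1 y' hy', y', hy', rfl, h⟩

private theorem PreBlock.cont (cb : CtxB 𝒢 n) (t c : ℝ) :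
    Continuous fun y' : Ball κ => t * cb.r.rh (Ball.res cb.r.w.a.b y') - c :=
  (continuous_const.mul (cb.r.rh.continuous.comp (Ball.continuous_res _))).sub continuous_const

theorem PreBlock.isCompact_V (pb : PreBlock 𝒢' cb) (t : ℝ) : IsCompact (pb.V t) := by
  rw [pb.V_eq]
  refine (pb.KB_compact.inter_right (BlockT_closed _ ?_)).image (Ball.continuous_res _)
  exact continuous_const.mul (cb.r.rh.continuous.comp (Ball.continuous_res _))

theorem PreBlock.measurable_W (pb : PreBlock 𝒢' cb) (h t : ℝ) : MeasurableSet (pb.W h t) := by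
  have hW : pb.W h t = cb.K \ ⋃ k : ℕ, Ball.res cb.r.w.a.b '' (pb.KB ∩
      {y' | Ball.mass (cb.r.w.a.b)ᶜ y' ≤
        (1 - h) * t * cb.r.rh (Ball.res cb.r.w.a.b y') - 1 / ((k : ℝ) + 1)}) := by
    ext y
    constructor
    · rintro ⟨hy, h1⟩
      refine ⟨hy, ?_⟩
      rw [mem_iUnion]
      rintro ⟨k, y', ⟨hy', h2⟩, rfl⟩
      have h3 := h1 y' hy' rfl
      have h4 : (0 : ℝ) < 1 / ((k : ℝ) + 1) := by positivity
      have h2' : Ball.mass (cb.r.w.a.b)ᶜ y' ≤
        (1 - h) * t * cb.r.rh (Ball.res cb.r.w.a.b y') - 1 / ((k : ℝ) + 1) := h2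
      linarith
    · rintro ⟨hy, h1⟩
      refine ⟨hy, fun y' hy' hres => ?_⟩
      by_contra hcon
      rw [not_le] at hcon
      obtain ⟨k, hk⟩ := exists_nat_one_div_lt (sub_pos.2 hcon)
      apply h1
      rw [mem_iUnion]
      refine ⟨k, y', ⟨hy', ?_⟩, hres⟩
      show Ball.mass (cb.r.w.a.b)ᶜ y' ≤
        (1 - h) * t * cb.r.rh (Ball.res cb.r.w.a.b y') - 1 / ((k : ℝ) + 1)
      rw [hres]
      linarith
  rw [hW]
  refine cb.K_compact.isClosed.measurableSet.diff (MeasurableSet.iUnion fun k => ?_)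
  exact ((pb.KB_compact.inter_right (BlockT_closed _ (PreBlock.cont cb _ _))).image
    (Ball.continuous_res _)).isClosed.measurableSet

private theorem kB_bound (S : Sys κ L) (n : ℕ) : 0 < S.kB n ∧ S.kB n / 8 < 1 / (100 * S.C) := by
  have hC := S.C_pos
  have hC1 := S.one_le
  have hn : (0 : ℝ) ≤ n := Nat.cast_nonneg n
  have he : 0 < S.eta := by unfold eta; positivity
  have hk : 0 < S.kB n := by unfold kB; positivity
  refine ⟨hk, ?_⟩
  have h1 : S.kB n ≤ S.eta := by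
    unfold kB
    refine div_le_self he.le ?_
    nlinarith
  have h2 : S.eta ≤ 1 / (10000 * S.C) := by
    unfold eta
    apply one_div_le_one_div_of_le (by positivity)
    nlinarith
  have h3 : (1 : ℝ) / (10000 * S.C) = (1 / (100 * S.C)) / 100 := by field_simp; norm_num
  have h4 : 0 < 1 / (100 * S.C) := by positivity
  linarith

private theorem PreBlock.K0 (cb : CtxB 𝒢 n) : cb.K ⊆ cb.r.w.a.K0 :=
  cb.K_sub.trans (cb.r.K_sub.trans cb.r.w.K1_sub)

private theorem PreBlock.rho_b (pb : PreBlock 𝒢' cb) :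
    S.rho cb.r.w.a.b pb.lB = cb.r.w.a.l := by
  have hb : S.Ret cb.r.w.a.b := 𝒢.ret _ cb.r.w.a.base.good
  have hA : S.Ret pb.A' := 𝒢'.ret _ pb.goodA'
  have h1 := S.rho_rho hb hA pb.stab.1 pb.lB
  rw [pb.rhoA] at h1
  rw [← h1]
  exact cb.r.w.a.base.memL

private theorem PreBlock.exists_delta (pb : PreBlock 𝒢' cb) :
    ∃ δ : ℝ, 0 < δ ∧ ∀ y' ∈ pb.KB, δ ≤ Ball.mass (cb.r.w.a.b)ᶜ y' := by
  by_contra hcon
  push Not at hcon
  have hC := S.C_pos
  obtain ⟨y', hy'⟩ := IsCompact.nonempty_iInter_of_sequence_nonempty_isCompact_isClosed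
    (fun k : ℕ => pb.KB ∩ {y' : Ball κ | Ball.mass (cb.r.w.a.b)ᶜ y' ≤ 1 / ((k : ℝ) + 1)})
    (fun k => by
      rintro y ⟨h1, h2⟩
      refine ⟨h1, ?_⟩
      have h2' : Ball.mass (cb.r.w.a.b)ᶜ y ≤ 1 / (((k + 1 : ℕ) : ℝ) + 1) := h2
      refine h2'.trans ?_
      apply one_div_le_one_div_of_le (by positivity)
      push_cast
      linarith)
    (fun k => by
      obtain ⟨y, hy, h1⟩ := hcon (1 / ((k : ℝ) + 1)) (by positivity)
      exact ⟨y, hy, h1.le⟩)
    (pb.KB_compact.inter_right (Ball.isClosed_mass_le _ _))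
    (fun k => pb.KB_compact.isClosed.inter (Ball.isClosed_mass_le _ _))
  rw [mem_iInter] at hy'
  have hyKB : y' ∈ pb.KB := (hy' 0).1
  have hm : Ball.mass (cb.r.w.a.b)ᶜ y' ≤ 0 := by
    refine le_of_forall_pos_le_add fun ε hε => ?_
    obtain ⟨k, hk⟩ := exists_nat_one_div_lt hε
    have h1 : Ball.mass (cb.r.w.a.b)ᶜ y' ≤ 1 / ((k : ℝ) + 1) := (hy' k).2
    linarith
  have hBA : y' ∈ BA cb.r.w.a.b := by
    show Ball.res cb.r.w.a.b y' = y'
    ext i
    by_cases hi : i ∈ cb.r.w.a.b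
    · exact Ball.res_of_mem _ hi
    · rw [Ball.res_of_notMem _ hi]
      have h1 := Ball.abs_le_mass y' (A := (cb.r.w.a.b)ᶜ) hi
      have h2 : |y' i| = 0 := le_antisymm (h1.trans hm) (abs_nonneg _)
      exact (abs_eq_zero.1 h2).symm
  have hnot : pb.lB ∉ S.LA cb.r.w.a.b := by
    intro h
    have h1 : S.rho cb.r.w.a.b pb.lB = pb.lB := h
    exact pb.ne (by rw [← h1]; exact pb.rho_b)
  have h0 := S.ab0_eq_zero (𝒢.ret _ cb.r.w.a.base.good) (𝒢.rlq _ cb.r.w.a.base.good) hBA hnot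
  have h1 := pb.pb4 y' hyKB
  have hK := PreBlock.K0 cb (pb.pb1 y' hyKB)
  have h2 := cb.r.w.a.k1a _ hK
  have h3 := cb.r.w.a.k1b _ hK
  have h4 := (kB_bound S n).2
  have h5 : (1 : ℝ) / (2 * S.C) = 50 * (1 / (100 * S.C)) := by field_simp; norm_num
  have h6 : 0 < 1 / (100 * S.C) := by positivity
  linarith

private theorem PreBlock.V_mono (pb : PreBlock 𝒢' cb) {t t' : ℝ} (h : t ≤ t') :
    pb.V t ⊆ pb.V t' := by
  rintro y ⟨hy, y', hy', hres, h1⟩
  refine ⟨hy, y', hy', hres, h1.trans ?_⟩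
  have h2 := cb.r.rh_ge y
  have h3 : (0 : ℝ) < cb.r.w.a.tw := by exact_mod_cast cb.r.w.a.tw_pos
  exact mul_le_mul_of_nonneg_right h (by linarith)

private theorem PreBlock.miss (pb : PreBlock 𝒢' cb) :
    (S.lam cb.r.w.a.l).real (cb.K \ Ball.res cb.r.w.a.b '' pb.KB) ≤ S.kB n / 8 := by
  have hb : S.Ret cb.r.w.a.b := 𝒢.ret _ cb.r.w.a.base.good
  have hm : MeasurableSet (cb.K \ Ball.res cb.r.w.a.b '' pb.KB) :=
    cb.K_compact.isClosed.measurableSet.diff
      (pb.KB_compact.image (Ball.continuous_res _)).isClosed.measurableSet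
  have h1 := S.lam_rho_real hb pb.lB hm
  rw [pb.rho_b] at h1
  refine h1.trans (le_trans (measureReal_mono ?_ (measure_ne_top _ _)) pb.pb5)
  rintro y ⟨hy1, hy2⟩
  exact ⟨hy1, fun hy => hy2 ⟨y, hy, rfl⟩⟩

theorem PreBlock.exists_t (hn : 0 < n) (pb : PreBlock 𝒢' cb) {h : ℝ} (hh : 0 < h)
    (hh' : h ≤ 1 / 2) :
    ∃ t : ℚ, 0 < t ∧ (t : ℝ) ≤ cb.tB / (n * cb.r.w.a.tw) ∧
      (S.lam cb.r.w.a.l).real cb.K / 3 ≤ (S.lam cb.r.w.a.l).real (pb.V t) ∧
      2 * (S.lam cb.r.w.a.l).real cb.K / 3 ≤ (S.lam cb.r.w.a.l).real (pb.W h t) := by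
  have hC := S.C_pos
  have hn' : (0 : ℝ) < n := by exact_mod_cast hn
  have htB : (0 : ℝ) < cb.tB := by exact_mod_cast cb.tB_pos
  have htw : (0 : ℝ) < cb.r.w.a.tw := by exact_mod_cast cb.r.w.a.tw_pos
  obtain ⟨δ, hδ, hδ'⟩ := pb.exists_delta
  set m := S.lam cb.r.w.a.l with hmdef
  have hKge := cb.K_ge
  have h6 : 0 < 1 / (100 * S.C) := by positivity
  have hK5 : (5 : ℝ) / (24 * S.C) = 500 / 24 * (1 / (100 * S.C)) := by field_simp; norm_num
  have hkB := (kB_bound S n).2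
  have hKpos : 0 < m.real cb.K := by linarith
  set t₁ : ℝ := cb.tB / (2 * n * cb.r.w.a.tw) with ht₁
  have ht₁pos : 0 < t₁ := by positivity
  -- the large values
  have hbig : m.real cb.K / 3 ≤ m.real (pb.V t₁) := by
    have hsub : cb.K ⊆ pb.V t₁ ∪ (cb.K \ Ball.res cb.r.w.a.b '' pb.KB) := by
      intro y hy
      by_cases hy2 : y ∈ Ball.res cb.r.w.a.b '' pb.KB
      · left
        obtain ⟨y', hy', hres⟩ := hy2
        refine ⟨hy, y', hy', hres, (pb.pb3 y' hy').trans ?_⟩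
        have h2 := cb.r.rh_ge y
        have h3 : (cb.tB : ℝ) / (4 * n) = t₁ * (cb.r.w.a.tw / 2) := by
          rw [ht₁]; field_simp; norm_num
        rw [h3]
        exact mul_le_mul_of_nonneg_left h2 ht₁pos.le
      · right
        exact ⟨hy, hy2⟩
    have h1 : m.real cb.K ≤ m.real (pb.V t₁) + m.real (cb.K \ Ball.res cb.r.w.a.b '' pb.KB) :=
      (measureReal_mono hsub (measure_ne_top _ _)).trans (measureReal_union_le _ _)
    have h2 := pb.miss
    linarith
  set A : Set ℝ := {t | 0 < t ∧ m.real cb.K / 3 ≤ m.real (pb.V t)} with hA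
  have hAne : A.Nonempty := ⟨t₁, ht₁pos, hbig⟩
  have hAlow : ∀ t ∈ A, δ ≤ t := by
    rintro t ⟨htpos, ht⟩
    have hne : (pb.V t).Nonempty := by
      rw [nonempty_iff_ne_empty]
      intro h0
      rw [h0, measureReal_empty] at ht
      linarith
    obtain ⟨y, -, y', hy', -, h1⟩ := hne
    have h2 := hδ' y' hy'
    have h3 := cb.r.rh_le y
    have h4 : t * cb.r.rh y ≤ t * 1 := mul_le_mul_of_nonneg_left h3 htpos.le
    linarith
  have hAbdd : BddBelow A := ⟨δ, hAlow⟩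
  set ts := sInf A with hts
  have hts1 : δ ≤ ts := le_csInf hAne hAlow
  have hts2 : ts ≤ t₁ := csInf_le hAbdd ⟨ht₁pos, hbig⟩
  have htspos : 0 < ts := hδ.trans_le hts1
  have h1h : 0 < 1 - h := by linarith
  have hlt : ts < ts / (1 - h) := by
    rw [lt_div_iff₀ h1h]
    nlinarith
  obtain ⟨t, ht1, ht2⟩ := exists_rat_btwn hlt
  have htpos : (0 : ℝ) < t := htspos.trans ht1
  have ht3 : (1 - h) * t < ts := by
    rw [lt_div_iff₀ h1h] at ht2
    linarith
  refine ⟨t, by exact_mod_cast htpos, ?_, ?_, ?_⟩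
  · have h2 : (cb.tB : ℝ) / (n * cb.r.w.a.tw) = 2 * t₁ := by
      rw [ht₁]; field_simp
    rw [h2]
    have h3 : ts / (1 - h) ≤ 2 * ts := by
      rw [div_le_iff₀ h1h]
      nlinarith
    linarith
  · obtain ⟨s, hs, hst⟩ := exists_lt_of_csInf_lt hAne ht1
    exact hs.2.trans (measureReal_mono (pb.V_mono hst.le) (measure_ne_top _ _))
  · have hnot : (1 - h) * (t : ℝ) ∉ A := fun hmem => absurd (csInf_le hAbdd hmem) (not_le.2 ht3)
    have hlt' : m.real (pb.V ((1 - h) * t)) < m.real cb.K / 3 := by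
      by_contra hcon
      exact hnot ⟨by positivity, not_lt.1 hcon⟩
    have hsub : cb.K ⊆ pb.W h t ∪ pb.V ((1 - h) * t) := by
      intro y hy
      by_cases hy2 : y ∈ pb.V ((1 - h) * t)
      · exact Or.inr hy2
      · left
        refine ⟨hy, fun y' hy' hres => ?_⟩
        by_contra hcon
        exact hy2 ⟨hy, y', hy', hres, (not_le.1 hcon).le⟩
    have h2 : m.real cb.K ≤ m.real (pb.W h t) + m.real (pb.V ((1 - h) * t)) :=
      (measureReal_mono hsub (measure_ne_top _ _)).trans (measureReal_union_le _ _)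
    linarith

end Sys

end Pool.Agent.ZDB

end

section

/-!
# ZDB/CtxT : README 9.3, types of blocks
m = lam l (regular, carried by BA b: lam_compl_BA; b countable).  𝒟 from exists_measDense, e' := kB/8.  For every countable 𝔸 there are pb over 𝔸 (exists_preblock), t (exists_t), i, j with
m(V t Δ 𝒟 i) ≤ e', m(W h t Δ 𝒟 j) ≤ e'.  The types (t,i,j) ∈ ℚ×ℕ×ℕ are countable: some type occurs over every countable 𝔸 (otherwise choose 𝔸_τ countable without a pb of type τ over it, and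
take 𝔸 = ⋃ 𝔸_τ).  DV := 𝒟 i ∩ K; m(DV) ≥ m(V t) − e' ≥ m(K)/3 − e' ≥ 5/(72C) − e' ≥ 1/(20C) (V t ⊆ K).  m(𝒟 j ∩ K) ≥ m(W h t) − e' ≥ 2·5/(72C) − e' > 1/(10C): compact K₂ ⊆ 𝒟 j ∩ K with
m(K₂) ≥ 1/(10C).  (e' ≤ eta/(64C) is tiny.)  m(DV∖V t) ≤ e', m(K₂∖W h t) ≤ m(𝒟 j∖W h t) ≤ e'.
-/

open Set Filter Topology MeasureTheory Pool.Agent.H53.ZD

namespace Pool.Agent.ZDB

variable {κ L : Type*} [TopologicalSpace L] [CompactSpace L] [T2Space L] [TotallyDisconnectedSpace L]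
  [MeasurableSpace L] [BorelSpace L]

namespace Sys

/-- the type of the blocks -/
structure CtxT {S : Sys κ L} {𝒢 : GoodFam S} {n : ℕ} (𝒢' : GoodFam S) (cb : CtxB 𝒢 n)
    (h : ℝ) where
  t : ℚ
  t_pos : 0 < t
  t_le : (t : ℝ) ≤ cb.tB / (n * cb.r.w.a.tw)
  DV : Set (Ball κ)
  DV_meas : MeasurableSet DV
  DV_sub : DV ⊆ cb.K
  DV_ge : 1 / (20 * S.C) ≤ (S.lam cb.r.w.a.l).real DV
  K₂ : Set (Ball κ)
  K₂_compact : IsCompact K₂
  K₂_sub : K₂ ⊆ cb.K
  K₂_ge : 1 / (10 * S.C) ≤ (S.lam cb.r.w.a.l).real K₂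
  unb : ∀ 𝔸 : Set κ, 𝔸.Countable → ∃ pb : PreBlock 𝒢' cb, 𝔸 ⊆ pb.A' ∧
    (S.lam cb.r.w.a.l).real (DV \ pb.V t) ≤ S.kB n / 8 ∧
    (S.lam cb.r.w.a.l).real (K₂ \ pb.W h t) ≤ S.kB n / 8

private theorem ctxT_kB (S : Sys κ L) (n : ℕ) : 0 < S.kB n ∧ S.kB n / 8 < 1 / (100 * S.C) := by
  have hC := S.C_pos
  have hC1 := S.one_le
  have hn : (0 : ℝ) ≤ n := Nat.cast_nonneg n
  have he : 0 < S.eta := by unfold eta; positivity
  have hk : 0 < S.kB n := by unfold kB; positivity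
  refine ⟨hk, ?_⟩
  have h1 : S.kB n ≤ S.eta := by
    unfold kB
    refine div_le_self he.le ?_
    nlinarith
  have h2 : S.eta ≤ 1 / (10000 * S.C) := by
    unfold eta
    apply one_div_le_one_div_of_le (by positivity)
    nlinarith
  have h3 : (1 : ℝ) / (10000 * S.C) = (1 / (100 * S.C)) / 100 := by field_simp; norm_num
  have h4 : 0 < 1 / (100 * S.C) := by positivity
  linarith

private theorem ctxT_closed {A : Set κ} {f : Ball κ → ℝ} (hf : Continuous f) :
    IsClosed {y' : Ball κ | Ball.mass A y' ≤ f y'} := by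
  simp only [Ball.mass_le_iff, ofPred_forall]
  refine isClosed_iInter fun s => isClosed_iInter fun _ => ?_
  exact isClosed_le (continuous_finsetSum _ fun i _ => (Ball.continuous_coord i).abs) hf

/-- the relation between the measure of a subset of `K` and the approximating set -/
private theorem ctxT_meas (μ : Measure (Ball κ)) [IsFiniteMeasure μ] {V D K : Set (Ball κ)}
    (hVK : V ⊆ K) {e : ℝ} (h : μ.real (symmDiff V D) ≤ e) : μ.real V - e ≤ μ.real (D ∩ K) := by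
  have h1 : V ⊆ (D ∩ K) ∪ symmDiff V D := by
    intro y hy
    by_cases hD : y ∈ D
    · exact Or.inl ⟨hD, hVK hy⟩
    · exact Or.inr (Or.inl ⟨hy, hD⟩)
  have h2 := (measureReal_mono (μ := μ) h1).trans (measureReal_union_le _ _)
  linarith

theorem exists_ctxT {S : Sys κ L} {𝒢 : GoodFam S} {n : ℕ} (hn : 0 < n) (𝒢' : GoodFam S)
    (h𝒢 : ∀ A, 𝒢'.G A → 𝒢.G A) (cb : CtxB 𝒢 n) {h : ℝ} (hh : 0 < h) (hh' : h ≤ 1 / 2) :
    Nonempty (CtxT 𝒢' cb h) := by
  have hC := S.C_pos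
  obtain ⟨hk, hk'⟩ := ctxT_kB S n
  have hgood := cb.r.w.a.base.good
  obtain ⟨𝒟, h𝒟m, h𝒟⟩ := exists_measDense (𝒢.countable _ hgood) (S.lam cb.r.w.a.l)
    (S.lam_compl_BA (𝒢.ret _ hgood) cb.r.w.a.base.memL)
  set m := S.lam cb.r.w.a.l with hm
  have he : 0 < S.kB n / 8 := by positivity
  -- the types
  obtain ⟨τ, hτ⟩ : ∃ τ : ℚ × ℕ × ℕ, ∀ 𝔸 : Set κ, 𝔸.Countable →
      ∃ pb : PreBlock 𝒢' cb, 𝔸 ⊆ pb.A' ∧ 0 < τ.1 ∧
        (τ.1 : ℝ) ≤ cb.tB / (n * cb.r.w.a.tw) ∧ m.real cb.K / 3 ≤ m.real (pb.V τ.1) ∧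
        2 * m.real cb.K / 3 ≤ m.real (pb.W h τ.1) ∧
        m.real (symmDiff (pb.V τ.1) (𝒟 τ.2.1)) ≤ S.kB n / 8 ∧
        m.real (symmDiff (pb.W h τ.1) (𝒟 τ.2.2)) ≤ S.kB n / 8 := by
    by_contra hcon
    push Not at hcon
    choose A hAc hA using hcon
    obtain ⟨pb, hpb⟩ := exists_preblock hn 𝒢' h𝒢 cb (countable_iUnion hAc)
    obtain ⟨t, ht0, ht1, ht2, ht3⟩ := pb.exists_t hn hh hh'
    obtain ⟨i, hi⟩ := h𝒟 (pb.V t) (pb.isCompact_V t).isClosed.measurableSet _ he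
    obtain ⟨j, hj⟩ := h𝒟 (pb.W h t) (pb.measurable_W h t) _ he
    have h1 := hA (t, i, j) pb ((subset_iUnion A (t, i, j)).trans hpb) ht0 ht1 ht2 ht3 hi
    exact absurd hj (not_le.2 h1)
  obtain ⟨t, i, j⟩ := τ
  obtain ⟨pb, -, ht0, ht1, ht2, ht3, hi, hj⟩ := hτ ∅ countable_empty
  simp only at ht0 ht1 ht2 ht3 hi hj
  have hKge := cb.K_ge
  have h6 : 0 < 1 / (100 * S.C) := by positivity
  have hK5 : (5 : ℝ) / (24 * S.C) = 500 / 24 * (1 / (100 * S.C)) := by field_simp; norm_num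
  have h20 : (1 : ℝ) / (20 * S.C) = 5 * (1 / (100 * S.C)) := by field_simp; norm_num
  have h10 : (1 : ℝ) / (10 * S.C) = 10 * (1 / (100 * S.C)) := by field_simp; norm_num
  have hDV := ctxT_meas m (K := cb.K) (fun y hy => hy.1 : pb.V t ⊆ cb.K) hi
  have hDW := ctxT_meas m (K := cb.K) (fun y hy => hy.1 : pb.W h t ⊆ cb.K) hj
  have hKm : MeasurableSet cb.K := cb.K_compact.isClosed.measurableSet
  obtain ⟨K₂, hK₂s, hK₂c, hK₂m⟩ := ((h𝒟m j).inter hKm).exists_lt_isCompact_of_ne_top (μ := m)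
    (r := ENNReal.ofReal (1 / (10 * S.C))) (measure_ne_top _ _)
    ((ENNReal.ofReal_lt_iff_lt_toReal (by positivity) (measure_ne_top _ _)).2 (by
      rw [← measureReal_def]
      linarith))
  refine ⟨{ t := t, t_pos := ht0, t_le := ht1, DV := 𝒟 i ∩ cb.K,
            DV_meas := (h𝒟m i).inter hKm, DV_sub := inter_subset_right, DV_ge := ?_,
            K₂ := K₂, K₂_compact := hK₂c, K₂_sub := hK₂s.trans inter_subset_right,
            K₂_ge := ?_, unb := ?_ }⟩
  · linarith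
  · exact ((ENNReal.ofReal_lt_iff_lt_toReal (by positivity) (measure_ne_top _ _)).1 hK₂m).le
  · intro 𝔸 h𝔸
    obtain ⟨pb', hpb', -, -, -, -, hi', hj'⟩ := hτ 𝔸 h𝔸
    simp only at hi' hj'
    refine ⟨pb', hpb', (measureReal_mono ?_).trans hi', (measureReal_mono ?_).trans hj'⟩
    · rintro y ⟨⟨hy1, -⟩, hy2⟩
      exact Or.inr ⟨hy1, hy2⟩
    · rintro y ⟨hy1, hy2⟩
      exact Or.inr ⟨(hK₂s hy1).1, hy2⟩

/-- the cheap returns -/
def CtxT.Cs {S : Sys κ L} {𝒢 : GoodFam S} {n : ℕ} {𝒢' : GoodFam S} {cb : CtxB 𝒢 n} {h : ℝ}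
    (ct : CtxT 𝒢' cb h) (F : Finset κ) : Set (Ball κ) :=
  {y | Ball.res cb.r.w.a.b y ∈ ct.K₂ ∧
    Ball.mass (F : Set κ) y ≤ (1 - 2 * h) * ct.t * cb.r.rh y}

theorem CtxT.isClosed_Cs {S : Sys κ L} {𝒢 : GoodFam S} {n : ℕ} {𝒢' : GoodFam S}
    {cb : CtxB 𝒢 n} {h : ℝ} (ct : CtxT 𝒢' cb h) (F : Finset κ) : IsClosed (ct.Cs F) := by
  refine IsClosed.inter ?_ ?_
  · exact ct.K₂_compact.isClosed.preimage (Ball.continuous_res _)
  · exact ctxT_closed (continuous_const.mul cb.r.rh.continuous)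

end Sys

end Pool.Agent.ZDB

end

section

/-!
# ZDB/Block : README 9.3, blocks
pb from ct.unb 𝔸; b, l, m = lam l, kB = S.kB n.  ρ_b lB = l (ρ_b = ρ_b ρ_A').
F: top∖A' is nonempty (else top = A', lB = ρ_A' lB = l).  Finite F_k increasing to the countable top∖A', F_0 ≠ ∅.  ct.Cs F_k ⊆ (res b⁻¹K∖KB) ∪ res b⁻¹(K₂∖W h t) ∪ X_k with X_k = {y' ∈ KB | res b y' ∈ W h t,
mass F_k y' ≤ (1−2h)t·rh y'}; the first has lam_lB-measure ≤ kB/8 (pb5), the second ≤ kB/8 + C·kB/(8C) (lam_le_add at A = b, Fv_le).  On KB ∩ res b⁻¹(W h t): mass bᶜ y' ≥ (1−h)t·rh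
(rh y' = rh(res b y')), and mass bᶜ y' = mass (top∖A') y' = lim mass F_k y' (y' ∈ BA top, res A' y' = res b y'), t·rh > 0: so X_k decreases to ∅ and has measure ≤ kB/8 for large k.  F := F_k:
lam_lB(Cs F) ≤ kB/2.
P: lam_lB((Cs F)ᶜ) ≥ lam_lB(univ) − kB/2 ≥ m(univ) − kB/2.  The set {l' | lam_lB((Cs F)ᶜ) − kB/4 < lam_{l'}((Cs F)ᶜ)} is open (isOpen_lam).  exists_clop_nhds at top for the intersection of this set with
OB and (LA A')ᶜ (lB ∉ LA A'; lB ∈ OB by Clop.mem_iff): P ∈ Clop top, lB ∈ P; P ∩ LA top is in the intersection; so P ⊆ OB (Clop), P ∩ LA A' = ∅, and for l' ∈ P: ρ_top l' ∈ P ∩ LA top,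
lam_{l'}((Cs F)ᶜ) ≥ lam_{ρ_top l'}((Cs F)ᶜ) (lam_real_ge: Cs F has level top: F ⊆ top, b ⊆ top) ≥ m(univ) − kB.
Dust: δ := min(h·t·tw/2, tB/(4n)); nm y' + δ ≤ 1 on KB (nm y' = nm(res b y') + mass bᶜ y' ≤ 1 − 2tw + tB/(4n)).  𝒱 from exists_dust (KB, P, top).  top' := 𝒢'-good ⊇ top ∪ ⋃_{z∈𝒱} supp z.
V := pb.V t.  vec: y ∈ V t: y' ∈ KB over y with mass bᶜ y' ≤ t·rh y.  r = ab0 y l − 2kB < ab0 y' lB ≤ alpha y' P (pb4, ab0_le): z ∈ 𝒱 with r < nu_{plus y' z}(P).  v := plus (res A'ᶜ y') z: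
res A' y' = res b y' = y, so plus y v = plus y' z (plus_assoc); v ∈ BA (top'∖A'); nm v ≤ mass bᶜ y' + nm z ≤ t·rh y + h·t·tw/2 ≤ (1+h)t·rh y, and ≤ tB/(4n) + tB/(4n).
-/

open Set Filter Topology MeasureTheory Pool.Agent.H53.ZD

namespace Pool.Agent.ZDB

variable {κ L : Type*} [TopologicalSpace L] [CompactSpace L] [T2Space L] [TotallyDisconnectedSpace L]
  [MeasurableSpace L] [BorelSpace L]

namespace Sys

/-- blocks -/
structure Block {S : Sys κ L} {𝒢 : GoodFam S} {n : ℕ} {𝒢' : GoodFam S} {cb : CtxB 𝒢 n} {h : ℝ}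
    (ct : CtxT 𝒢' cb h) where
  A' : Set κ
  top' : Set κ
  F : Finset κ
  P : Set L
  V : Set (Ball κ)
  goodA' : 𝒢'.G A'
  goodT : 𝒢'.G top'
  stab : S.Stab cb.r.w.a.b A'
  sub : A' ⊆ top'
  clopP : S.Clop top' P
  P_sub : P ⊆ cb.OB
  P_disj : Disjoint P (S.LA A')
  F_sub : (F : Set κ) ⊆ top' \ A'
  F_ne : F.Nonempty
  ret : ∀ l' ∈ P, (S.lam cb.r.w.a.l).real univ - S.kB n ≤ (S.lam l').real (ct.Cs F)ᶜ
  V_meas : MeasurableSet V
  V_sub : V ⊆ cb.K
  V_ge : (S.lam cb.r.w.a.l).real (ct.DV \ V) ≤ S.kB n / 8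
  vec : ∀ y ∈ V, ∃ v ∈ BA (top' \ A'), nm v ≤ (1 + h) * ct.t * cb.r.rh y ∧
    nm v ≤ cb.tB / (2 * n) ∧ S.ab0 y cb.r.w.a.l - 2 * S.kB n < (S.nu (plus y v)).real P

theorem exists_block {S : Sys κ L} {𝒢 : GoodFam S} {n : ℕ} (hn : 0 < n) {𝒢' : GoodFam S}
    (h𝒢 : ∀ A, 𝒢'.G A → 𝒢.G A) {cb : CtxB 𝒢 n} {h : ℝ} (hh : 0 < h) (hh' : h ≤ 1 / 4)
    (ct : CtxT 𝒢' cb h) {𝔸 : Set κ} (h𝔸 : 𝔸.Countable) : ∃ B : Block ct, 𝔸 ⊆ B.A' := by
  classical
  obtain ⟨pb, h𝔸', hDV, hWm⟩ := ct.unb 𝔸 h𝔸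
  obtain ⟨b, hbdef⟩ : ∃ b, b = cb.r.w.a.b := ⟨_, rfl⟩
  obtain ⟨l, hldef⟩ : ∃ l, l = cb.r.w.a.l := ⟨_, rfl⟩
  obtain ⟨rh, hrhdef⟩ : ∃ rh, rh = cb.r.rh := ⟨_, rfl⟩
  have hb : S.Ret b := by rw [hbdef]; exact 𝒢.ret _ cb.r.w.a.base.good
  have hlb : l ∈ S.LA b := by rw [hbdef, hldef]; exact cb.r.w.a.base.memL
  have hA' : S.Ret pb.A' := 𝒢'.ret _ pb.goodA'
  have htop : S.Ret pb.top := 𝒢.ret _ pb.goodT
  have hbA' : b ⊆ pb.A' := by rw [hbdef]; exact pb.stab.1
  have hbtop : b ⊆ pb.top := hbA'.trans pb.sub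
  have hrA : S.rho pb.A' pb.lB = l := by rw [hldef]; exact pb.rhoA
  have hrb : S.rho b pb.lB = l := by
    rw [← S.rho_rho hb hA' hbA' pb.lB, hrA]
    exact hlb
  have hne : pb.lB ≠ l := by rw [hldef]; exact pb.ne
  have hC := S.C_pos
  have hkB : 0 < S.kB n := by
    unfold kB eta
    positivity
  have htw : (0 : ℝ) < cb.r.w.a.tw := by exact_mod_cast cb.r.w.a.tw_pos
  have htB : (0 : ℝ) < cb.tB := by exact_mod_cast cb.tB_pos
  have ht : (0 : ℝ) < ct.t := by exact_mod_cast ct.t_pos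
  have hn1 : (1 : ℝ) ≤ n := by exact_mod_cast hn
  have hrhge : ∀ y, (cb.r.w.a.tw : ℝ) / 2 ≤ rh y := by rw [hrhdef]; exact cb.r.rh_ge
  have hrhlev : ∀ y, rh (Ball.res b y) = rh y := by
    intro y
    have h1 := congrArg (fun g : C(Ball κ, ℝ) => g y) cb.r.rh_lev
    rw [hrhdef, hbdef]
    exact h1
  -- the set `top \ A'`
  have hC0ne : (pb.top \ pb.A').Nonempty := by
    rw [Set.sdiff_nonempty]
    intro hsub
    have h1 : pb.top = pb.A' := Subset.antisymm hsub pb.sub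
    have h2 : S.rho pb.A' pb.lB = pb.lB := by
      have h3 := pb.memL
      rw [h1] at h3
      exact h3
    exact hne (h2.symm.trans hrA)
  have hC0c : (pb.top \ pb.A').Countable := htop.1.mono sdiff_subset
  obtain ⟨e, he⟩ := hC0c.exists_eq_range hC0ne
  obtain ⟨F, hF⟩ : ∃ F : ℕ → Finset κ, F = fun k => (Finset.range (k + 1)).image e := ⟨_, rfl⟩
  have hFsub : ∀ k, (F k : Set κ) ⊆ pb.top \ pb.A' := by
    intro k i hi
    rw [hF] at hi
    simp only [Finset.coe_image] at hi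
    obtain ⟨j, -, rfl⟩ := hi
    rw [he]
    exact mem_range_self j
  have hFmono : ∀ k k', k ≤ k' → (F k : Set κ) ⊆ F k' := by
    intro k k' hkk i hi
    rw [hF] at hi ⊢
    simp only [Finset.coe_image] at hi ⊢
    obtain ⟨j, hj, rfl⟩ := hi
    refine ⟨j, ?_, rfl⟩
    simp only [Finset.coe_range, mem_Iio] at hj ⊢
    omega
  have hFne : ∀ k, (F k).Nonempty := by
    intro k
    rw [hF]
    exact ⟨e 0, Finset.mem_image.2 ⟨0, by simp, rfl⟩⟩
  have hFall : ∀ s : Finset κ, (∀ i ∈ s, i ∈ pb.top \ pb.A') → ∃ k, (s : Set κ) ⊆ F k := by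
    intro s
    induction s using Finset.induction_on with
    | empty =>
      intro _
      exact ⟨0, by simp⟩
    | insert i s _ ih =>
      intro h1
      obtain ⟨k, hk⟩ := ih fun j hj => h1 j (Finset.mem_insert_of_mem hj)
      have h2 := h1 i (Finset.mem_insert_self i s)
      rw [he] at h2
      obtain ⟨j, hj⟩ := h2
      refine ⟨max k j, ?_⟩
      intro x hx
      rw [Finset.coe_insert] at hx
      rcases hx with rfl | hx
      · rw [hF]
        simp only [Finset.coe_image]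
        refine ⟨j, ?_, hj⟩
        simp only [Finset.coe_range, mem_Iio]
        omega
      · exact hFmono k _ (le_max_left _ _) (hk hx)
  -- masses on `KB`
  have hmass : ∀ y ∈ pb.KB, Ball.mass bᶜ y = Ball.mass (pb.top \ pb.A') y := by
    intro y hy
    have h1 : bᶜ = (pb.top \ pb.A') ∪ (bᶜ \ (pb.top \ pb.A')) := by
      rw [union_sdiff_cancel]
      intro i hi hib
      exact hi.2 (hbA' hib)
    rw [h1, Ball.mass_union disjoint_sdiff_right]
    have h2 : Ball.mass (bᶜ \ (pb.top \ pb.A')) y = 0 := by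
      rw [mass_eq_zero]
      rintro i ⟨hib, hi⟩
      by_cases hit : i ∈ pb.top
      · have hiA : i ∈ pb.A' := by
          by_contra hc
          exact hi ⟨hit, hc⟩
        have h3 : Ball.res pb.A' y = Ball.res b y := by rw [hbdef]; exact pb.pb2 y hy
        have h4 : Ball.res pb.A' y i = Ball.res b y i := by rw [h3]
        rw [Ball.res_of_mem _ hiA, Ball.res_of_notMem _ hib] at h4
        exact h4
      · exact mem_BA.1 (pb.KB_sub hy) i hit
    rw [h2, add_zero]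
  -- the sets `X k`
  obtain ⟨X, hX⟩ : ∃ X : ℕ → Set (Ball κ), X = fun k => {y | y ∈ pb.KB ∧
      Ball.res b y ∈ pb.W h ct.t ∧ Ball.mass (F k : Set κ) y ≤ (1 - 2 * h) * ct.t * rh y} :=
    ⟨_, rfl⟩
  have hWmeas : MeasurableSet (pb.W h ct.t) := pb.measurable_W h ct.t
  have hXm : ∀ k, MeasurableSet (X k) := by
    intro k
    rw [hX]
    refine pb.KB_compact.isClosed.measurableSet.inter
      ((Ball.measurable_res b hWmeas).inter ?_)
    refine (isClosed_le (continuous_mass_finset (F k)) ?_).measurableSet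
    exact continuous_const.mul rh.continuous
  have hXanti : Antitone X := by
    intro k k' hkk y hy
    rw [hX] at hy ⊢
    obtain ⟨h1, h2, h3⟩ := hy
    exact ⟨h1, h2, (Ball.mass_mono (hFmono k k' hkk) y).trans h3⟩
  have hXe : ⋂ k, X k = ∅ := by
    rw [eq_empty_iff_forall_notMem]
    intro y hy
    rw [mem_iInter, hX] at hy
    obtain ⟨hyK, hyW, -⟩ := hy 0
    have h1 : Ball.mass (pb.top \ pb.A') y ≤ (1 - 2 * h) * ct.t * rh y := by
      rw [Ball.mass_le_iff]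
      intro s hs
      obtain ⟨k, hk⟩ := hFall s hs
      exact (Ball.sum_le_mass y s fun i hi => hk hi).trans (hy k).2.2
    rw [← hmass y hyK] at h1
    have h2 := hyW.2 y hyK (by rw [hbdef])
    rw [← hbdef, ← hrhdef, hrhlev] at h2
    have h3 : (0 : ℝ) < rh y := lt_of_lt_of_le (by positivity) (hrhge y)
    have h4 : 0 < h * ct.t * rh y := by positivity
    nlinarith
  obtain ⟨k, hk⟩ : ∃ k, (S.lam pb.lB).real (X k) < S.kB n / 8 := by
    have h1 := tendsto_measure_iInter_atTop (μ := S.lam pb.lB)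
      (fun k => (hXm k).nullMeasurableSet) hXanti ⟨0, measure_ne_top _ _⟩
    rw [hXe, measure_empty] at h1
    have h2 := (ENNReal.tendsto_toReal ENNReal.zero_ne_top).comp h1
    rw [ENNReal.toReal_zero] at h2
    exact ((tendsto_order.1 h2).2 (S.kB n / 8) (by positivity)).exists
  -- the measure of the cheap returns
  have hCs : (S.lam pb.lB).real (ct.Cs (F k)) ≤ S.kB n / 2 := by
    have hsub : ct.Cs (F k) ⊆ ((Ball.res b ⁻¹' cb.K) \ pb.KB) ∪
        (Ball.res b ⁻¹' (ct.K₂ \ pb.W h ct.t) ∪ X k) := by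
      rintro y ⟨hy1, hy2⟩
      rw [← hbdef] at hy1
      rw [← hrhdef] at hy2
      by_cases hyK : y ∈ pb.KB
      · right
        by_cases hyW : Ball.res b y ∈ pb.W h ct.t
        · right
          rw [hX]
          exact ⟨hyK, hyW, hy2⟩
        · left
          exact ⟨hy1, hyW⟩
      · left
        exact ⟨ct.K₂_sub hy1, hyK⟩
    have h5 : (S.lam pb.lB).real ((Ball.res b ⁻¹' cb.K) \ pb.KB) ≤ S.kB n / 8 := by
      rw [hbdef]; exact pb.pb5
    have h6 := S.lam_le_add hb htop hbtop pb.memL hrb (ct.K₂_compact.isClosed.measurableSet.diff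
      hWmeas)
    have h7 : (S.lam l).real (ct.K₂ \ pb.W h ct.t) ≤ S.kB n / 8 := by rw [hldef]; exact hWm
    have h8 : S.C * (S.Fv pb.lB - S.Fv l) ≤ S.kB n / 8 := by
      have h9 : S.Fv pb.lB - S.Fv l ≤ S.kB n / (8 * S.C) := by
        have := pb.Fv_le
        rw [← hldef] at this
        linarith
      refine (mul_le_mul_of_nonneg_left h9 hC.le).trans (le_of_eq ?_)
      field_simp
    refine (measureReal_mono hsub).trans ((measureReal_union_le _ _).trans ?_)
    have h9 := measureReal_union_le (μ := S.lam pb.lB)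
      (Ball.res b ⁻¹' (ct.K₂ \ pb.W h ct.t)) (X k)
    linarith
  have hCsc : IsClosed (ct.Cs (F k)) := ct.isClosed_Cs (F k)
  have huniv : (S.lam l).real univ ≤ (S.lam pb.lB).real univ := by
    have h1 := S.lam_rho_real hb pb.lB MeasurableSet.univ
    rw [hrb, preimage_univ] at h1
    exact h1
  have hcompl : (S.lam l).real univ - S.kB n / 2 ≤ (S.lam pb.lB).real (ct.Cs (F k))ᶜ := by
    rw [measureReal_compl hCsc.measurableSet]
    linarith
  -- the clopen set `P`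
  have hOBlB : pb.lB ∈ cb.OB := by
    rw [← Clop.mem_iff S cb.clopOB pb.lB, ← hbdef, hrb, hldef]
    exact cb.memOB
  have hlA : pb.lB ∉ S.LA pb.A' := by
    intro h1
    have h2 : S.rho pb.A' pb.lB = pb.lB := h1
    exact hne (h2.symm.trans hrA)
  obtain ⟨P, hP, hlP, hPW⟩ := S.exists_clop_nhds htop pb.memL
    (W := ({l' | (S.lam pb.lB).real (ct.Cs (F k))ᶜ - S.kB n / 4 <
      (S.lam l').real (ct.Cs (F k))ᶜ} ∩ cb.OB) ∩ (S.LA pb.A')ᶜ)
    (((S.isOpen_lam hCsc.isOpen_compl _).inter cb.clopOB.1.isOpen).inter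
      (S.isClosed_LA pb.A').isOpen_compl)
    ⟨⟨by
      show (S.lam pb.lB).real (ct.Cs (F k))ᶜ - S.kB n / 4 < (S.lam pb.lB).real (ct.Cs (F k))ᶜ
      linarith, hOBlB⟩, hlA⟩
  have hPr : ∀ l' ∈ P, S.rho pb.top l' ∈ P ∩ S.LA pb.top := fun l' hl' =>
    ⟨(Clop.mem_iff S hP l').2 hl', S.rho_mem_LA htop l'⟩
  have hclopOB : S.Clop pb.top cb.OB := Clop.mono S (hbdef ▸ hb) htop (hbdef ▸ hbtop) cb.clopOB
  have hPOB : P ⊆ cb.OB := fun l' hl' =>
    (Clop.mem_iff S hclopOB l').1 (hPW (hPr l' hl')).1.2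
  have hPd : Disjoint P (S.LA pb.A') := by
    rw [Set.disjoint_left]
    intro l' hl' hl''
    exact (hPW ⟨hl', S.LA_mono hA' htop pb.sub hl''⟩).2 hl''
  have hret : ∀ l' ∈ P, (S.lam l).real univ - S.kB n ≤ (S.lam l').real (ct.Cs (F k))ᶜ := by
    intro l' hl'
    have h1 : (S.lam pb.lB).real (ct.Cs (F k))ᶜ - S.kB n / 4 <
        (S.lam (S.rho pb.top l')).real (ct.Cs (F k))ᶜ := (hPW (hPr l' hl')).1.1
    have h2 := S.lam_real_ge htop (l := l') rfl hCsc.isOpen_compl.measurableSet (fun y hy => by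
      intro hy'
      apply hy
      obtain ⟨h3, h4⟩ := hy'
      refine ⟨?_, ?_⟩
      · rw [← hbdef] at h3 ⊢
        rw [res_res_of_subset hbtop]
        exact h3
      · rw [← hrhdef] at h4 ⊢
        have h5 : rh (Ball.res pb.top y) = rh y := by
          rw [← hrhlev (Ball.res pb.top y), res_res_of_subset hbtop, hrhlev]
        have h6 : Ball.mass (F k : Set κ) (Ball.res pb.top y) = Ball.mass (F k : Set κ) y :=
          Ball.mass_congr fun i hi => Ball.res_of_mem _ (hFsub k hi).1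
        rw [h5, h6]
        exact h4)
    linarith
  -- the dust
  obtain ⟨δ, hδ⟩ : ∃ δ : ℝ, δ = min (h * ct.t * cb.r.w.a.tw / 2) (cb.tB / (4 * n)) := ⟨_, rfl⟩
  have hδ0 : 0 < δ := by
    rw [hδ]
    exact lt_min (by positivity) (by positivity)
  have hδ1 : δ ≤ h * ct.t * cb.r.w.a.tw / 2 := by rw [hδ]; exact min_le_left _ _
  have hδ2 : δ ≤ cb.tB / (4 * n) := by rw [hδ]; exact min_le_right _ _
  have htBn : (cb.tB : ℝ) / (4 * n) ≤ cb.tB / 4 := by
    apply div_le_div_of_nonneg_left htB.le (by norm_num)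
    linarith
  have htBle : (cb.tB : ℝ) ≤ cb.r.w.a.tw / 2 := by exact_mod_cast cb.tB_le
  have hnm : ∀ Y ∈ pb.KB, nm Y + δ ≤ 1 := by
    intro Y hY
    have h1 := nm_split b Y
    have h2 : nm (Ball.res b Y) ≤ 1 - 2 * (cb.r.w.a.tw : ℝ) := by
      apply cb.r.w.a.k2
      apply cb.r.w.K1_sub
      apply cb.r.K_sub
      apply cb.K_sub
      rw [hbdef]
      exact pb.pb1 Y hY
    rw [nm_res] at h2
    have h3 : Ball.mass bᶜ Y ≤ cb.tB / (4 * n) := by rw [hbdef]; exact pb.pb3 Y hY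
    linarith
  obtain ⟨𝒱, h𝒱c, h𝒱1, h𝒱2⟩ := S.exists_dust htop pb.KB_sub hδ0 hnm hP.1
  choose Az hAzc hAz using fun z : Ball κ => exists_countable_BA z
  obtain ⟨top', htop'sub, htop'G⟩ := 𝒢'.exists_superset
    (htop.1.union (h𝒱c.biUnion fun z _ => hAzc z))
  have htop' : S.Ret top' := 𝒢'.ret _ htop'G
  have htt : pb.top ⊆ top' := subset_union_left.trans htop'sub
  refine ⟨⟨pb.A', top', F k, P, pb.V ct.t, pb.goodA', htop'G, pb.stab, pb.sub.trans htt,
    Clop.mono S htop htop' htt hP, hPOB, hPd, fun i hi => ⟨htt (hFsub k hi).1, (hFsub k hi).2⟩,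
    hFne k, ?_, (pb.isCompact_V ct.t).isClosed.measurableSet, fun y hy => hy.1, hDV, ?_⟩, h𝔸'⟩
  · rw [← hldef]
    exact hret
  · rintro y ⟨hyK, y', hy'K, hy'y, hy'm⟩
    rw [← hbdef] at hy'y hy'm
    rw [← hrhdef] at hy'm
    rw [← hrhdef, ← hldef]
    have h4 : S.ab0 y l - S.kB n / 8 ≤ S.ab0 y' pb.lB := by
      have := pb.pb4 y' hy'K
      rw [← hbdef, ← hldef, hy'y] at this
      exact this
    have h5 : S.ab0 y l - 2 * S.kB n < S.alpha y' P := by
      have := S.ab0_le (x := y') hP.1 hlP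
      linarith
    obtain ⟨z, hz𝒱, hz⟩ := h𝒱2 y' hy'K _ h5
    obtain ⟨hzt, hznm⟩ := h𝒱1 z hz𝒱
    have hyA : Ball.res pb.A' y' = y := by
      rw [pb.pb2 y' hy'K, ← hbdef, hy'y]
    have hnm1 : nm y + nm (Ball.res pb.A'ᶜ y') = nm y' := by
      rw [← hyA, nm_res, nm_res, ← nm_split]
    have hsum : nm y + nm (Ball.res pb.A'ᶜ y') + nm z ≤ 1 := by
      rw [hnm1]
      have := hnm y' hy'K
      linarith
    have hpl : plus y (plus (Ball.res pb.A'ᶜ y') z) = plus y' z := by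
      rw [← plus_assoc hsum]
      congr 1
      rw [← hyA]
      exact plus_res_compl pb.A' y'
    have hnm2 : nm (Ball.res pb.A'ᶜ y') ≤ Ball.mass bᶜ y' := by
      rw [nm_res]
      exact Ball.mass_mono (compl_subset_compl.2 hbA') y'
    have hnmv := nm_plus_le (Ball.res pb.A'ᶜ y') z
    refine ⟨plus (Ball.res pb.A'ᶜ y') z, ?_, ?_, ?_, ?_⟩
    · apply plus_mem_BA
      · rw [mem_BA]
        intro i hi
        by_cases hiA : i ∈ pb.A'
        · exact Ball.res_of_notMem _ (fun hc => hc hiA)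
        · have hit : i ∉ top' := fun hc => hi ⟨hc, hiA⟩
          rw [Ball.res_of_mem _ hiA]
          exact mem_BA.1 (pb.KB_sub hy'K) i fun hc => hit (htt hc)
      · rw [mem_BA]
        intro i hi
        by_cases hiA : i ∈ pb.A'
        · exact mem_BA.1 hzt i (fun hc => hc (pb.sub hiA))
        · have hit : i ∉ top' := fun hc => hi ⟨hc, hiA⟩
          refine mem_BA.1 (hAz z) i fun hc => hit (htop'sub (Or.inr ?_))
          exact mem_biUnion hz𝒱 hc
    · have h6 := hrhge y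
      have h7 : h * ct.t * cb.r.w.a.tw / 2 ≤ h * ct.t * rh y := by
        have : 0 ≤ h * ct.t := by positivity
        nlinarith
      have h8 : (1 + h) * ct.t * rh y = ct.t * rh y + h * ct.t * rh y := by ring
      rw [h8]
      linarith
    · have h6 : Ball.mass bᶜ y' ≤ cb.tB / (4 * n) := by rw [hbdef]; exact pb.pb3 y' hy'K
      have h7 : (cb.tB : ℝ) / (2 * n) = cb.tB / (4 * n) + cb.tB / (4 * n) := by
        field_simp
        ring
      rw [h7]
      linarith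
    · rw [hpl]
      exact hz

end Sys

end Pool.Agent.ZDB

end

section

/-!
# ZDB/Fam : README 9.4, the families
As := 𝒢'-good ⊇ b ∪ (a stabilising set).  w-objects: recursion with w.unb: (cw i, Ew i) outside the countable set As ∪ ⋃_{i'<i} range(cw i').
𝔹_0 := As ∪ ⋃ range(cw i) ∪ ⋃ (a countable level of Ew i: exists_levC; then Clop A' (Ew i) for every Ret A' ⊇ it by clop_iff).  For a countable 𝔹 choose recursively blocks B_i (exists_block) over
𝔹 ∪ ⋃_{i'<i} top'(B_{i'}).  Bl j := such a sequence for 𝔹_j, 𝔹_{j+1} := 𝔹_j ∪ ⋃_i top'(Bl j i).  f4 follows because top'(Bl j i) ⊆ 𝔹_{j+1} ⊆ 𝔹_{j'} ⊆ A'(Bl j' i').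
-/

open Set Filter Topology MeasureTheory Pool.Agent.H53.ZD

namespace Pool.Agent.ZDB

variable {κ L : Type*} [TopologicalSpace L] [CompactSpace L] [T2Space L] [TotallyDisconnectedSpace L]
  [MeasurableSpace L] [BorelSpace L]

namespace Sys

/-- the families of blocks and `w`-objects -/
structure Fam {S : Sys κ L} {𝒢 : GoodFam S} {n : ℕ} {𝒢' : GoodFam S} {cb : CtxB 𝒢 n} {h : ℝ}
    (ct : CtxT 𝒢' cb h) where
  As : Set κ
  goodAs : 𝒢'.G As
  stabAs : S.Stab cb.r.w.a.b As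
  cw : ℕ → Fin cb.r.w.t.n₁ → κ
  Ew : ℕ → Set L
  wobj : ∀ i, S.WObj cb.r.w.t cb.r.w.a.O cb.r.w.e₁ (cw i) (Ew i)
  cw_out : ∀ i j, cw i j ∉ As
  cw_disj : Pairwise fun i i' => Disjoint (range (cw i)) (range (cw i'))
  Bl : ℕ → ℕ → Block ct
  f2 : ∀ j i i', range (cw i') ⊆ (Bl j i).A'
  f2' : ∀ j i i', S.Clop (Bl j i).A' (Ew i')
  f3 : ∀ j i, As ⊆ (Bl j i).A'
  f4 : ∀ j j' i i', j < j' → (Bl j i).top' ⊆ (Bl j' i').A'
  f5 : ∀ j i i', i < i' → (Bl j i).top' ⊆ (Bl j i').A'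

private theorem fam_seq {α : Type*} (R : Set κ → α → Prop) (f : α → Set κ)
    (hf : ∀ x, (f x).Countable) (hR : ∀ A : Set κ, A.Countable → ∃ x, R A x)
    (A₀ : Set κ) (hA₀ : A₀.Countable) :
    ∃ (x : ℕ → α) (D : ℕ → Set κ), (∀ i, R (D i) (x i)) ∧ (∀ i, A₀ ⊆ D i) ∧
      ∀ i' i, i' < i → f (x i') ⊆ D i := by
  choose g hg using fun A : {A : Set κ // A.Countable} => hR A.1 A.2
  let st : {A : Set κ // A.Countable} → {A : Set κ // A.Countable} := fun A =>
    ⟨A.1 ∪ f (g A), A.2.union (hf _)⟩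
  let D : ℕ → {A : Set κ // A.Countable} := fun i => st^[i] ⟨A₀, hA₀⟩
  have hD : ∀ i, (D (i + 1)).1 = (D i).1 ∪ f (g (D i)) := by
    intro i
    have : D (i + 1) = st (D i) := Function.iterate_succ_apply' st i _
    rw [this]
  have hmono : Monotone fun i => (D i).1 := by
    refine monotone_nat_of_le_succ fun i => ?_
    rw [hD i]
    exact subset_union_left
  refine ⟨fun i => g (D i), fun i => (D i).1, fun i => hg _, fun i => ?_, fun i' i hi => ?_⟩
  · have : A₀ = (D 0).1 := rfl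
    rw [this]
    exact hmono (Nat.zero_le i)
  · have h1 : f (g (D i')) ⊆ (D (i' + 1)).1 := by
      rw [hD i']
      exact subset_union_right
    exact h1.trans (hmono hi)

theorem exists_fam {S : Sys κ L} {𝒢 : GoodFam S} {n : ℕ} (hn : 0 < n) {𝒢' : GoodFam S}
    (h𝒢 : ∀ A, 𝒢'.G A → 𝒢.G A) {cb : CtxB 𝒢 n} {h : ℝ} (hh : 0 < h) (hh' : h ≤ 1 / 4)
    (ct : CtxT 𝒢' cb h) : Nonempty (Fam ct) := by
  have hrb : S.Ret cb.r.w.a.b := 𝒢.ret _ cb.r.w.a.base.good
  obtain ⟨A₀, hst₀⟩ := S.exists_stab hrb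
  obtain ⟨As, hAs, hgood⟩ := 𝒢'.exists_superset hst₀.2.1
  have hcAs := 𝒢'.countable As hgood
  have hst : S.Stab cb.r.w.a.b As := hst₀.mono S hAs hcAs
  -- the `w`-objects
  obtain ⟨xw, Dw, hw1, hw2, hw3⟩ := fam_seq
    (α := {p : (Fin cb.r.w.t.n₁ → κ) × Set L // S.WObj cb.r.w.t cb.r.w.a.O cb.r.w.e₁ p.1 p.2})
    (fun A p => ∀ j, p.1.1 j ∉ A) (fun p => range p.1.1) (fun p => countable_range _)
    (fun A hA => by
      obtain ⟨c, E, h1, h2⟩ := cb.r.w.unb A hA
      exact ⟨⟨(c, E), h1⟩, h2⟩) As hcAs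
  have hlt : ∀ i' i, i' < i → Disjoint (range (xw i').1.1) (range (xw i).1.1) := by
    intro i' i hi
    rw [Set.disjoint_left]
    rintro _ h1 ⟨j, rfl⟩
    exact hw1 i j (hw3 i' i hi h1)
  choose Lv hLv1 hLv2 using fun i => S.exists_levC (xw i).1.2
  -- the base set
  have hB0 : (As ∪ (⋃ i, range (xw i).1.1) ∪ ⋃ i, Lv i).Countable :=
    (hcAs.union (countable_iUnion fun i => countable_range _)).union (countable_iUnion hLv1)
  -- the blocks
  obtain ⟨xb, Db, hb1, hb2, hb3⟩ := fam_seq (α := ℕ → Block ct)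
    (fun A x => (∀ i, A ⊆ (x i).A') ∧ ∀ i i', i < i' → (x i).top' ⊆ (x i').A')
    (fun x => ⋃ i, (x i).top')
    (fun x => countable_iUnion fun i => 𝒢'.countable _ (x i).goodT)
    (fun A hA => by
      obtain ⟨x, D, h1, h2, h3⟩ := fam_seq (α := Block ct) (fun A B => A ⊆ B.A')
        (fun B => B.top') (fun B => 𝒢'.countable _ B.goodT)
        (fun A hA => exists_block hn h𝒢 hh hh' ct hA) A hA
      exact ⟨x, fun i => (h2 i).trans (h1 i), fun i i' hi => (h3 i i' hi).trans (h1 i')⟩)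
    _ hB0
  have hsub : ∀ j i, As ∪ (⋃ i, range (xw i).1.1) ∪ ⋃ i, Lv i ⊆ (xb j i).A' := fun j i =>
    (hb2 j).trans ((hb1 j).1 i)
  exact ⟨{
    As := As
    goodAs := hgood
    stabAs := hst
    cw := fun i => (xw i).1.1
    Ew := fun i => (xw i).1.2
    wobj := fun i => (xw i).2
    cw_out := fun i j hj => hw1 i j (hw2 i hj)
    cw_disj := fun i i' hne => by
      rcases lt_or_gt_of_ne hne with h1 | h1
      · exact hlt i i' h1
      · exact (hlt i' i h1).symm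
    Bl := xb
    f2 := fun j i i' => ((subset_iUnion (fun i => range (xw i).1.1) i').trans
      (subset_union_right.trans subset_union_left)).trans (hsub j i)
    f2' := fun j i i' => (S.clop_iff (𝒢'.ret _ (xb j i).goodA') (xw i').2.2.1).2
      (hLv2 i' _ (((subset_iUnion Lv i').trans subset_union_right).trans (hsub j i)))
    f3 := fun j i => (subset_union_left.trans subset_union_left).trans (hsub j i)
    f4 := fun j j' i i' hj => ((subset_iUnion (fun i => (xb j i).top') i).trans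
      (hb3 j j' hj)).trans ((hb1 j').1 i')
    f5 := fun j i i' hi => (hb1 j).2 i i' hi }⟩

/-- the choice of the base point -/
theorem Fam.exists_y {S : Sys κ L} {𝒢 : GoodFam S} {n : ℕ} (hn : 0 < n) {𝒢' : GoodFam S}
    {cb : CtxB 𝒢 n} {h : ℝ} {ct : CtxT 𝒢' cb h} (Fm : Fam ct) :
    ∃ y ∈ cb.K, ∀ j, j < n → ∃ᶠ i in atTop, y ∈ (Fm.Bl j i).V := by
  have hC := S.C_pos
  have hC1 := S.one_le
  have hk0 : 0 ≤ S.kB n / 8 := by
    unfold kB eta
    positivity
  have hlim : ∀ j, S.lam cb.r.w.a.l (ct.DV \ {y | ∃ᶠ i in atTop, y ∈ (Fm.Bl j i).V}) ≤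
      ENNReal.ofReal (S.kB n / 8) := by
    intro j
    have h1 : ct.DV \ {y | ∃ᶠ i in atTop, y ∈ (Fm.Bl j i).V} ⊆
        ⋃ N : ℕ, ct.DV \ ⋃ i ≥ N, (Fm.Bl j i).V := by
      rintro y ⟨hy1, hy2⟩
      simp only [mem_setOf_eq, frequently_atTop, not_forall, not_exists, not_and] at hy2
      obtain ⟨N, hN⟩ := hy2
      refine mem_iUnion.2 ⟨N, hy1, ?_⟩
      simp only [mem_iUnion, not_exists]
      intro i hi
      exact hN i hi
    have h2 : Monotone fun N : ℕ => ct.DV \ ⋃ i ≥ N, (Fm.Bl j i).V := by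
      intro N N' hN
      refine diff_subset_diff_right ?_
      exact biUnion_subset_biUnion_left fun i (hi : N' ≤ i) => hN.trans hi
    refine (measure_mono h1).trans ?_
    rw [h2.measure_iUnion]
    refine iSup_le fun N => ?_
    have h3 : ct.DV \ ⋃ i ≥ N, (Fm.Bl j i).V ⊆ ct.DV \ (Fm.Bl j N).V :=
      diff_subset_diff_right (subset_biUnion_of_mem (u := fun i => (Fm.Bl j i).V)
        (show N ∈ {i | i ≥ N} by simp))
    refine (measure_mono h3).trans ?_
    rw [ENNReal.le_ofReal_iff_toReal_le (measure_ne_top _ _) hk0]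
    exact (Fm.Bl j N).V_ge
  by_contra hcon
  have hcov : ct.DV ⊆ ⋃ j ∈ Finset.range n,
      ct.DV \ {y | ∃ᶠ i in atTop, y ∈ (Fm.Bl j i).V} := by
    intro y hy
    by_contra h1
    apply hcon
    refine ⟨y, ct.DV_sub hy, fun j hj => ?_⟩
    by_contra h2
    apply h1
    exact mem_biUnion (Finset.mem_coe.2 (Finset.mem_range.2 hj)) ⟨hy, h2⟩
  have h4 : S.lam cb.r.w.a.l ct.DV ≤ n * ENNReal.ofReal (S.kB n / 8) := by
    refine (measure_mono hcov).trans ((measure_biUnion_finset_le _ _).trans ?_)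
    refine (Finset.sum_le_sum fun j _ => hlim j).trans ?_
    simp
  have h5 : (S.lam cb.r.w.a.l).real ct.DV ≤ n * (S.kB n / 8) := by
    rw [measureReal_def]
    refine (ENNReal.toReal_mono ?_ h4).trans ?_
    · exact ENNReal.mul_ne_top (ENNReal.natCast_ne_top n) ENNReal.ofReal_ne_top
    · rw [ENNReal.toReal_mul, ENNReal.toReal_natCast, ENNReal.toReal_ofReal hk0]
  have h6 := ct.DV_ge
  have h7 : (n : ℝ) * (S.kB n / 8) < 1 / (20 * S.C) := by
    have hn1 : (0 : ℝ) < n + 1 := by positivity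
    have h8 : (n : ℝ) * (S.kB n / 8) ≤ S.eta / (64 * S.C) := by
      unfold kB
      have h9 : S.eta ≥ 0 := by unfold eta; positivity
      rw [show (n : ℝ) * (S.eta / (8 * S.C * (n + 1)) / 8) =
        (n / (n + 1)) * (S.eta / (64 * S.C)) by field_simp; ring]
      have h10 : (n : ℝ) / (n + 1) ≤ 1 := by
        rw [div_le_one hn1]
        linarith
      have h11 : 0 ≤ S.eta / (64 * S.C) := by positivity
      nlinarith
    have h12 : S.eta ≤ 1 := by
      unfold eta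
      rw [div_le_one (by positivity)]
      nlinarith
    have h13 : S.eta / (64 * S.C) ≤ 1 / (64 * S.C) := by gcongr
    have h14 : 1 / (64 * S.C) < 1 / (20 * S.C) := by
      apply one_div_lt_one_div_of_lt (by positivity)
      linarith
    linarith
  linarith

end Sys

end Pool.Agent.ZDB

end

section

/-!
# ZDB/Config : README 9.4, the choice of the indices and vectors of the blocks
y from Fam.exists_y.  Write b, l, kB for cb.r.w.a.b, cb.r.w.a.l, S.kB n; y ∈ cb.K, so y ∈ BA b and nm y ≤ 1 − 2tw (K_sub's, k2), tB ≤ tw/2, b ⊆ As (stabAs.1).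
Downward induction on k ≤ n: there are ix, v such that for k ≤ j < n the conditions v_mem, v_nm, v_nm' hold, and for all K ≤ n and k ≤ j < K:
  ab0 y l − 3kB < nu(bsum y v (Ico k K)).real P_j,  P_j = (Bl j (ix j)).P.                         (*)
k = n: nothing to show.  k = 0: Ico 0 K = range K.
Step from k to k−1 =: q.  For every i let u_i := the vector of Block.vec for Bl q i if y ∈ (Bl q i).V, and u_i := 0 otherwise.  u_i ∈ BA (top'(Bl q i) ∖ A'(Bl q i)); these sets are pairwise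
disjoint in i (f5), nm u_i ≤ tB/(2n).  For every K ≤ n: plus (bsum y v (Ico k K)) u_i → bsum y v (Ico k K) as i → ∞ (tendsto_plus; masses: nm y + n·tB/(2n) ≤ 1), so the finitely many
open conditions (*) (isOpen_nu, P_j clopen hence open) hold at these points for all large i.  Choose such an i with y ∈ (Bl q i).V (frequently).  New ix := update ix q i, v := update v q u_i.
For K > q: Ico q K = insert q (Ico k K), so bsum y v' (Ico q K) = plus (bsum y v (Ico k K)) u_i (bsum_insert, bsum_congr): (*) for j ≥ k.  For j = q: res (top'(Bl q i)) of that point is plus y u_i: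
the v j, k ≤ j < K, are in BA (top'_j∖A'_j) and top'(Bl q i) ⊆ A'_j (f4) (res_bsum or coordinatewise), y ∈ BA b ⊆ BA As ⊆ BA A'(Bl q i) ⊆ BA top'.  nu_real_ge at level top' (P_q ∈ Clop top'):
nu(..).real P_q ≥ nu(plus y u_i).real P_q > ab0 y l − 2kB (vec) > ab0 y l − 3kB (kB > 0: C ≥ 1).
-/

open Set Filter Topology MeasureTheory Pool.Agent.H53.ZD

namespace Pool.Agent.ZDB

variable {κ L : Type*} [TopologicalSpace L] [CompactSpace L] [T2Space L] [TotallyDisconnectedSpace L]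
  [MeasurableSpace L] [BorelSpace L]

namespace Sys

variable {S : Sys κ L} {𝒢 : GoodFam S} {n : ℕ} {𝒢' : GoodFam S} {cb : CtxB 𝒢 n} {h : ℝ}
  {ct : CtxT 𝒢' cb h} {Fm : Fam ct}

/-- a configuration of blocks -/
structure Config {S : Sys κ L} {𝒢 : GoodFam S} {n : ℕ} {𝒢' : GoodFam S} {cb : CtxB 𝒢 n} {h : ℝ}
    {ct : CtxT 𝒢' cb h} (Fm : Fam ct) where
  y : Ball κ
  hy : y ∈ cb.K
  ix : ℕ → ℕ
  v : ℕ → Ball κ
  v_mem : ∀ j, j < n → v j ∈ BA ((Fm.Bl j (ix j)).top' \ (Fm.Bl j (ix j)).A')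
  v_nm : ∀ j, j < n → nm (v j) ≤ (1 + h) * ct.t * cb.r.rh y
  v_nm' : ∀ j, j < n → nm (v j) ≤ cb.tB / (2 * n)
  acc : ∀ K, K ≤ n → ∀ j, j < K → S.ab0 y cb.r.w.a.l - 3 * S.kB n <
    (S.nu (bsum y v (Finset.range K))).real (Fm.Bl j (ix j)).P

private theorem cfg_mass {y : Ball κ} {w : ℕ → Ball κ} {n : ℕ} (hn : 0 < n) {J : Finset ℕ}
    (hJ : J ⊆ Finset.range n) {τ : ℝ} (hτ : 0 ≤ τ) (hw : ∀ j ∈ J, nm (w j) ≤ τ / (2 * n))
    (hy : nm y ≤ 1 - τ) : nm y + ∑ j ∈ J, nm (w j) ≤ 1 := by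
  have hn0 : (0 : ℝ) < n := by exact_mod_cast hn
  have h1 : ∑ j ∈ J, nm (w j) ≤ J.card * (τ / (2 * n)) := by
    refine (Finset.sum_le_sum hw).trans ?_
    rw [Finset.sum_const, nsmul_eq_mul]
  have h2 : (J.card : ℝ) ≤ n := by
    have := Finset.card_le_card hJ
    rw [Finset.card_range] at this
    exact_mod_cast this
  have h3 : (J.card : ℝ) * (τ / (2 * n)) ≤ n * (τ / (2 * n)) :=
    mul_le_mul_of_nonneg_right h2 (by positivity)
  have h4 : (n : ℝ) * (τ / (2 * n)) = τ / 2 := by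
    field_simp
  linarith

theorem Fam.exists_config (hn : 0 < n) (Fm : Fam ct) : Nonempty (Config Fm) := by
  obtain ⟨y, hyK, hfreq⟩ := Fm.exists_y hn
  have hC := S.C_pos
  have hkB : 0 < S.kB n := by
    unfold kB eta
    positivity
  have hyK0 : y ∈ cb.r.w.a.K0 := cb.r.w.K1_sub (cb.r.K_sub (cb.K_sub hyK))
  have hyb : y ∈ BA cb.r.w.a.b := cb.r.w.a.K0_sub hyK0
  have hynm := cb.r.w.a.k2 y hyK0
  have htw : (0 : ℝ) < cb.r.w.a.tw := by exact_mod_cast cb.r.w.a.tw_pos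
  have htB : (0 : ℝ) < cb.tB := by exact_mod_cast cb.tB_pos
  have htB2 := cb.tB_le
  have hynm' : nm y ≤ 1 - (cb.tB : ℝ) := by linarith
  have hn0 : (0 : ℝ) < n := by exact_mod_cast hn
  have hybs : ∀ j i, y ∈ BA (Fm.Bl j i).A' := fun j i =>
    BA_mono (Fm.stabAs.1.trans (Fm.f3 j i)) hyb
  have key : ∀ d, d ≤ n → ∃ (ix : ℕ → ℕ) (v : ℕ → Ball κ),
      (∀ j, n - d ≤ j → j < n → v j ∈ BA ((Fm.Bl j (ix j)).top' \ (Fm.Bl j (ix j)).A') ∧
        nm (v j) ≤ (1 + h) * ct.t * cb.r.rh y ∧ nm (v j) ≤ cb.tB / (2 * n)) ∧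
      ∀ K, K ≤ n → ∀ j, n - d ≤ j → j < K → S.ab0 y cb.r.w.a.l - 3 * S.kB n <
        (S.nu (bsum y v (Finset.Ico (n - d) K))).real (Fm.Bl j (ix j)).P := by
    intro d
    induction d with
    | zero =>
      intro _
      refine ⟨fun _ => 0, fun _ => 0, ?_, ?_⟩
      · intro j h1 h2
        omega
      · intro K hK j h1 h2
        omega
    | succ d ih =>
      intro hd
      obtain ⟨ix, v, hv, hacc⟩ := ih (by omega)
      obtain ⟨q, hq⟩ : ∃ q, q = n - (d + 1) := ⟨_, rfl⟩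
      have hk : n - d = q + 1 := by omega
      have hqn : q < n := by omega
      rw [hk] at hv hacc
      rw [← hq]
      -- the vectors `u i`
      have hu : ∀ i, ∃ u : Ball κ, u ∈ BA ((Fm.Bl q i).top' \ (Fm.Bl q i).A') ∧
          nm u ≤ cb.tB / (2 * n) ∧ (y ∈ (Fm.Bl q i).V → nm u ≤ (1 + h) * ct.t * cb.r.rh y ∧
            S.ab0 y cb.r.w.a.l - 2 * S.kB n < (S.nu (plus y u)).real (Fm.Bl q i).P) := by
        intro i
        by_cases hi : y ∈ (Fm.Bl q i).V
        · obtain ⟨u, h1, h2, h3, h4⟩ := (Fm.Bl q i).vec y hi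
          exact ⟨u, h1, h3, fun _ => ⟨h2, h4⟩⟩
        · refine ⟨0, ?_, ?_, fun h => absurd h hi⟩
          · rw [mem_BA]
            intro j _
            exact Ball.zero_apply j
          · have h0 : nm (0 : Ball κ) = 0 := nm_eq_zero.2 rfl
            rw [h0]
            positivity
      choose u hu1 hu2 hu3 using hu
      have hQ : Pairwise fun i j => Disjoint ((Fm.Bl q i).top' \ (Fm.Bl q i).A')
          ((Fm.Bl q j).top' \ (Fm.Bl q j).A') := by
        have hlt : ∀ i j, i < j → Disjoint ((Fm.Bl q i).top' \ (Fm.Bl q i).A')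
            ((Fm.Bl q j).top' \ (Fm.Bl q j).A') := by
          intro i j hij
          rw [Set.disjoint_left]
          rintro x ⟨h1, -⟩ ⟨-, h2⟩
          exact h2 (Fm.f5 q i j hij h1)
        intro i j hne
        rcases lt_or_gt_of_ne hne with h1 | h1
        · exact hlt i j h1
        · exact (hlt j i h1).symm
      have hsub : ∀ K, K ≤ n → Finset.Ico (q + 1) K ⊆ Finset.range n := by
        intro K hK j hj
        rw [Finset.mem_Ico] at hj
        rw [Finset.mem_range]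
        omega
      have hvJ : ∀ K, K ≤ n → ∀ j ∈ Finset.Ico (q + 1) K, nm (v j) ≤ cb.tB / (2 * n) := by
        intro K hK j hj
        rw [Finset.mem_Ico] at hj
        exact (hv j hj.1 (by omega)).2.2
      -- masses with the new vector
      have hmass : ∀ i K, K ≤ n → nm (bsum y v (Finset.Ico (q + 1) K)) + nm (u i) ≤ 1 := by
        intro i K hK
        have h1 := nm_bsum_le y v (Finset.Ico (q + 1) K)
        have h2 : nm y + ∑ j ∈ insert q (Finset.Ico (q + 1) K),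
            nm (Function.update v q (u i) j) ≤ 1 := by
          apply cfg_mass hn _ htB.le _ hynm'
          · intro j hj
            rcases Finset.mem_insert.1 hj with rfl | hj
            · exact Finset.mem_range.2 hqn
            · exact hsub K hK hj
          · intro j hj
            rcases Finset.mem_insert.1 hj with rfl | hj
            · rw [Function.update_self]
              exact hu2 i
            · have hne : j ≠ q := by
                rw [Finset.mem_Ico] at hj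
                omega
              rw [Function.update_of_ne hne]
              exact hvJ K hK j hj
        rw [Finset.sum_insert (by simp), Function.update_self] at h2
        have h3 : ∑ j ∈ Finset.Ico (q + 1) K, nm (Function.update v q (u i) j) =
            ∑ j ∈ Finset.Ico (q + 1) K, nm (v j) := by
          refine Finset.sum_congr rfl fun j hj => ?_
          have hne : j ≠ q := by
            rw [Finset.mem_Ico] at hj
            omega
          rw [Function.update_of_ne hne]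
        rw [h3] at h2
        linarith
      -- the old conditions at the new points
      have hev : ∀ᶠ i in atTop, ∀ K ∈ Finset.range (n + 1), ∀ j ∈ Finset.range n,
          q + 1 ≤ j → j < K → S.ab0 y cb.r.w.a.l - 3 * S.kB n <
            (S.nu (plus (bsum y v (Finset.Ico (q + 1) K)) (u i))).real (Fm.Bl j (ix j)).P := by
        rw [Filter.eventually_all_finset]
        intro K hK
        rw [Filter.eventually_all_finset]
        intro j hj
        have hKn : K ≤ n := by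
          have := Finset.mem_range.1 hK
          omega
        by_cases hc : q + 1 ≤ j ∧ j < K
        · have h1 := hacc K hKn j hc.1 hc.2
          have h2 : IsOpen (Fm.Bl j (ix j)).P := (Fm.Bl j (ix j)).clopP.1.isOpen
          have h3 := S.isOpen_nu h2 (S.ab0 y cb.r.w.a.l - 3 * S.kB n)
          have h4 := tendsto_plus hQ hu1 (fun i => hmass i K hKn)
          have h5 := h4.eventually (h3.mem_nhds h1)
          filter_upwards [h5] with i hi
          intro _ _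
          exact hi
        · refine Eventually.of_forall fun i h1 h2 => absurd ⟨h1, h2⟩ hc
      obtain ⟨i, hiV, hiev⟩ := ((hfreq q hqn).and_eventually hev).exists
      obtain ⟨hu4, hu5⟩ := hu3 i hiV
      refine ⟨Function.update ix q i, Function.update v q (u i), ?_, ?_⟩
      · intro j h1 h2
        by_cases hjq : j = q
        · subst hjq
          rw [Function.update_self, Function.update_self]
          exact ⟨hu1 i, hu4, hu2 i⟩
        · rw [Function.update_of_ne hjq, Function.update_of_ne hjq]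
          exact hv j (by omega) h2
      · intro K hK j h1 h2
        have hins : Finset.Ico q K = insert q (Finset.Ico (q + 1) K) := by
          ext a
          rw [Finset.mem_insert, Finset.mem_Ico, Finset.mem_Ico]
          omega
        have hcong : bsum y (Function.update v q (u i)) (Finset.Ico (q + 1) K) =
            bsum y v (Finset.Ico (q + 1) K) := by
          apply bsum_congr
          intro a ha
          have hne : a ≠ q := by
            rw [Finset.mem_Ico] at ha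
            omega
          rw [Function.update_of_ne hne]
        have hpt : bsum y (Function.update v q (u i)) (Finset.Ico q K) =
            plus (bsum y v (Finset.Ico (q + 1) K)) (u i) := by
          rw [hins, bsum_insert (by simp), hcong, Function.update_self]
          apply cfg_mass hn _ htB.le _ hynm'
          · intro a ha
            rcases Finset.mem_insert.1 ha with rfl | ha
            · exact Finset.mem_range.2 hqn
            · exact hsub K hK ha
          · intro a ha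
            rcases Finset.mem_insert.1 ha with rfl | ha
            · rw [Function.update_self]
              exact hu2 i
            · have hne : a ≠ q := by
                rw [Finset.mem_Ico] at ha
                omega
              rw [Function.update_of_ne hne]
              exact hvJ K hK a ha
        rw [hpt]
        by_cases hjq : j = q
        · subst hjq
          rw [Function.update_self]
          have hret : S.Ret (Fm.Bl j i).top' := 𝒢'.ret _ (Fm.Bl j i).goodT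
          have hyt : y ∈ BA (Fm.Bl j i).top' := BA_mono (Fm.Bl j i).sub (hybs j i)
          have hr1 : Ball.res (Fm.Bl j i).top' (bsum y v (Finset.Ico (j + 1) K)) = y := by
            have h3 := res_bsum (A := (Fm.Bl j i).top') (y := y) (v := v) (J₁ := ∅)
              (J₂ := Finset.Ico (j + 1) K) (Finset.disjoint_empty_left _) hyt
              (by simp)
              (by
                intro a ha
                rw [Finset.mem_Ico] at ha
                refine BA_mono ?_ (hv a ha.1 (by omega)).1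
                rintro x ⟨-, h5⟩ h6
                exact h5 (Fm.f4 j a i (ix a) (by omega) h6))
              (by
                rw [Finset.empty_union]
                exact cfg_mass hn (hsub K hK) htB.le (hvJ K hK) hynm')
            rw [Finset.empty_union, bsum_empty] at h3
            exact h3
          have hr2 : Ball.res (Fm.Bl j i).top' (u i) = u i :=
            BA_mono sdiff_subset (hu1 i)
          have hres : Ball.res (Fm.Bl j i).top' (plus (bsum y v (Finset.Ico (j + 1) K)) (u i)) =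
              plus y (u i) := by
            rw [res_plus (hmass i K hK), hr1, hr2]
          have h6 := S.nu_real_ge hret hres (U := (Fm.Bl j i).P)
            (Fm.Bl j i).clopP.1.isOpen.measurableSet
            (fun l hl => (Clop.mem_iff S (Fm.Bl j i).clopP l).1 hl)
          linarith
        · rw [Function.update_of_ne hjq]
          exact hiev K (Finset.mem_range.2 (by omega)) j (Finset.mem_range.2 (by omega))
            (by omega) h2
  obtain ⟨ix, v, hv, hacc⟩ := key n le_rfl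
  rw [Nat.sub_self] at hv hacc
  exact ⟨{
    y := y
    hy := hyK
    ix := ix
    v := v
    v_mem := fun j hj => (hv j (Nat.zero_le j) hj).1
    v_nm := fun j hj => (hv j (Nat.zero_le j) hj).2.1
    v_nm' := fun j hj => (hv j (Nat.zero_le j) hj).2.2
    acc := fun K hK j hj => by
      rw [Finset.range_eq_Ico]
      exact hacc K hK j (Nat.zero_le j) hj }⟩

end Sys

end Pool.Agent.ZDB

end

section

/-!
# ZDB/ConfDef : levels and sets belonging to a configuration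
A_j = (Bl j (ix j)).A', T_j = top'.  Facts: As ⊆ A_j (f3), A_j ⊆ T_j (sub), T_j ⊆ A_j' for j < j' (f4), b ⊆ As (stabAs.1).  So Av is monotone, T_k ⊆ Av (k+1) for k < n, As ⊆ Av k.
* sum_le: K·tB/(2n) ≤ tB/2.  nm_y_le: y ∈ cb.K ⊆ r.K ⊆ K1 ⊆ K0 (k2).  isClosed_CU: finite union of the closed sets Cs (isClosed_Cs); isOpen_HK: isOpen_lam.
* Pj_sub_D: P_j ∈ Clop T_j, disjoint from LA A_j (P_disj), so P_j ⊆ D A_j T_j (Clop.subset_D) ⊆ D As (Av K) (D_mono).
* bsum_mem: y ∈ BA b, v j ∈ BA T_j ⊆ BA (Av (j+1)) ⊆ BA (Av K).  res_bsum_Av: range K = range k ∪ Ico k K; v j for j ≥ k is in BA (T_j∖A_j) and Av k = A_k ⊆ A_j (k < n; for k = n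
  also K = n and it is res of a member): so v j ∈ BA (Av k)ᶜ; `res_bsum`.  res_As: same with As ⊆ A_j, J₁ = ∅ (bsum_empty).
-/

open Set Filter Topology MeasureTheory Pool.Agent.H53.ZD

namespace Pool.Agent.ZDB

variable {κ L : Type*} [TopologicalSpace L] [CompactSpace L] [T2Space L] [TotallyDisconnectedSpace L]
  [MeasurableSpace L] [BorelSpace L]

namespace Sys

variable {S : Sys κ L} {𝒢 : GoodFam S} {n : ℕ} {𝒢' : GoodFam S} {cb : CtxB 𝒢 n} {h : ℝ}
  {ct : CtxT 𝒢' cb h} {Fm : Fam ct}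

namespace Config

variable (c : Config Fm)

/-- the levels of the stem -/
def Av (k : ℕ) : Set κ :=
  if k < n then (Fm.Bl k (c.ix k)).A' else (Fm.Bl (n - 1) (c.ix (n - 1))).top'

/-- the clopen sets of the blocks -/
def Pj (j : ℕ) : Set L := (Fm.Bl j (c.ix j)).P

/-- the coordinates of the blocks -/
def Fj (j : ℕ) : Finset κ := (Fm.Bl j (c.ix j)).F

/-- the intersection of the first `K` clopen sets -/
def PI (K : ℕ) : Set L := {l' | ∀ j, j < K → l' ∈ c.Pj j}

/-- the union of the first `K` sets of cheap returns -/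
def CU (K : ℕ) : Set (Ball κ) := {y' | ∃ j, j < K ∧ y' ∈ ct.Cs (c.Fj j)}

/-- the points without cheap returns -/
def HK (K : ℕ) : Set L :=
  {l' | (S.lam cb.r.w.a.l).real univ - S.eta < (S.lam l').real (c.CU K)ᶜ}

theorem y_K0 : c.y ∈ cb.r.w.a.K0 := cb.r.w.K1_sub (cb.r.K_sub (cb.K_sub c.hy))

theorem y_mem : c.y ∈ BA cb.r.w.a.b := cb.r.w.a.K0_sub c.y_K0

theorem nm_y_le : nm c.y ≤ 1 - 2 * (cb.r.w.a.tw : ℝ) := cb.r.w.a.k2 _ c.y_K0

theorem Av_lt {k : ℕ} (hk : k < n) : c.Av k = (Fm.Bl k (c.ix k)).A' := if_pos hk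

theorem mono_Av : Monotone c.Av := by
  refine monotone_nat_of_le_succ fun k => ?_
  by_cases h1 : k + 1 < n
  · have h0 : k < n := by omega
    rw [c.Av_lt h0, c.Av_lt h1]
    exact (Fm.Bl k (c.ix k)).sub.trans (Fm.f4 k (k + 1) _ _ (Nat.lt_succ_self k))
  · by_cases h0 : k < n
    · have h2 : n - 1 = k := by omega
      have h3 : c.Av (k + 1) = (Fm.Bl k (c.ix k)).top' := by
        unfold Av
        rw [if_neg h1, h2]
      rw [c.Av_lt h0, h3]
      exact (Fm.Bl k (c.ix k)).sub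
    · unfold Av
      rw [if_neg h1, if_neg h0]

theorem good_Av (k : ℕ) : 𝒢'.G (c.Av k) := by
  unfold Av
  split_ifs
  · exact (Fm.Bl k (c.ix k)).goodA'
  · exact (Fm.Bl (n - 1) (c.ix (n - 1))).goodT

theorem ret_Av (k : ℕ) : S.Ret (c.Av k) := 𝒢'.ret _ (c.good_Av k)

theorem As_sub_Av (k : ℕ) : Fm.As ⊆ c.Av k := by
  unfold Av
  split_ifs
  · exact Fm.f3 k _
  · exact (Fm.f3 (n - 1) _).trans (Fm.Bl (n - 1) (c.ix (n - 1))).sub

theorem b_sub_Av (k : ℕ) : cb.r.w.a.b ⊆ c.Av k := Fm.stabAs.1.trans (c.As_sub_Av k)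

theorem top_sub_Av {k : ℕ} (hk : k < n) : (Fm.Bl k (c.ix k)).top' ⊆ c.Av (k + 1) := by
  by_cases h1 : k + 1 < n
  · rw [c.Av_lt h1]
    exact Fm.f4 k (k + 1) _ _ (Nat.lt_succ_self k)
  · have h2 : n - 1 = k := by omega
    unfold Av
    rw [if_neg h1, h2]

theorem isClopen_Pj (j : ℕ) : IsClopen (c.Pj j) := (Fm.Bl j (c.ix j)).clopP.1

theorem Pj_sub_OB (j : ℕ) : c.Pj j ⊆ cb.OB := (Fm.Bl j (c.ix j)).P_sub

theorem clopP {k : ℕ} (hk : k < n) : S.Clop (c.Av (k + 1)) (c.Pj k) :=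
  Clop.mono S (𝒢'.ret _ (Fm.Bl k (c.ix k)).goodT) (c.ret_Av (k + 1)) (c.top_sub_Av hk)
    (Fm.Bl k (c.ix k)).clopP

theorem Fj_sub {k : ℕ} (hk : k < n) : (c.Fj k : Set κ) ⊆ c.Av (k + 1) \ c.Av k := by
  rw [c.Av_lt hk]
  exact (Fm.Bl k (c.ix k)).F_sub.trans (sdiff_subset_sdiff_left (c.top_sub_Av hk))

private theorem top_sub_Av' {j K : ℕ} (hj : j < K) (hK : K ≤ n) :
    (Fm.Bl j (c.ix j)).top' ⊆ c.Av K :=
  (c.top_sub_Av (lt_of_lt_of_le hj hK)).trans (c.mono_Av hj)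

theorem Pj_sub_D {j K : ℕ} (hj : j < K) (hK : K ≤ n) : c.Pj j ⊆ S.D Fm.As (c.Av K) := by
  have h1 : S.Ret (Fm.Bl j (c.ix j)).A' := 𝒢'.ret _ (Fm.Bl j (c.ix j)).goodA'
  have h2 : S.Ret (Fm.Bl j (c.ix j)).top' := 𝒢'.ret _ (Fm.Bl j (c.ix j)).goodT
  refine (Clop.subset_D S h1 h2 (Fm.Bl j (c.ix j)).sub (Fm.Bl j (c.ix j)).clopP
    (Fm.Bl j (c.ix j)).P_disj).trans ?_
  exact S.D_mono (𝒢'.ret _ Fm.goodAs) h1 h2 (c.ret_Av K) (Fm.f3 j _) (Fm.Bl j (c.ix j)).sub
    (c.top_sub_Av' hj hK)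

theorem isOpen_PI (K : ℕ) : IsOpen (c.PI K) := by
  have h : c.PI K = ⋂ j ∈ Finset.range K, c.Pj j := by
    ext l'
    simp [PI]
  rw [h]
  exact isOpen_biInter_finset fun j _ => (c.isClopen_Pj j).isOpen

theorem isClosed_CU (K : ℕ) : IsClosed (c.CU K) := by
  have h : c.CU K = ⋃ j ∈ Finset.range K, ct.Cs (c.Fj j) := by
    ext y'
    simp [CU]
  rw [h]
  exact isClosed_biUnion_finset fun j _ => ct.isClosed_Cs _

theorem isOpen_HK (K : ℕ) : IsOpen (c.HK K) := S.isOpen_lam (c.isClosed_CU K).isOpen_compl _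

theorem sum_le {K : ℕ} (hK : K ≤ n) : ∑ j ∈ Finset.range K, nm (c.v j) ≤ (cb.tB : ℝ) / 2 := by
  have htB : (0 : ℝ) < cb.tB := by exact_mod_cast cb.tB_pos
  rcases Nat.eq_zero_or_pos n with h0 | h0
  · have hK0 : K = 0 := by omega
    rw [hK0, Finset.range_zero, Finset.sum_empty]
    positivity
  · have hn : (0 : ℝ) < n := by exact_mod_cast h0
    have h1 : ∑ j ∈ Finset.range K, nm (c.v j) ≤
        ∑ _j ∈ Finset.range K, (cb.tB : ℝ) / (2 * n) :=
      Finset.sum_le_sum fun j hj => c.v_nm' j (lt_of_lt_of_le (Finset.mem_range.1 hj) hK)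
    refine h1.trans ?_
    rw [Finset.sum_const, Finset.card_range, nsmul_eq_mul]
    have h2 : (K : ℝ) ≤ n := by exact_mod_cast hK
    have h3 : (n : ℝ) * ((cb.tB : ℝ) / (2 * n)) = cb.tB / 2 := by field_simp
    have h4 : (0 : ℝ) ≤ (cb.tB : ℝ) / (2 * n) := by positivity
    calc (K : ℝ) * ((cb.tB : ℝ) / (2 * n)) ≤ n * ((cb.tB : ℝ) / (2 * n)) :=
          mul_le_mul_of_nonneg_right h2 h4
      _ = cb.tB / 2 := h3

private theorem v_mem_Av {j K : ℕ} (hj : j < K) (hK : K ≤ n) : c.v j ∈ BA (c.Av K) :=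
  BA_mono (sdiff_subset.trans (c.top_sub_Av' hj hK)) (c.v_mem j (lt_of_lt_of_le hj hK))

private theorem tot_le {K : ℕ} (hK : K ≤ n) :
    nm c.y + ∑ j ∈ Finset.range K, nm (c.v j) ≤ 1 := by
  have h1 := c.sum_le hK
  have h2 := c.nm_y_le
  have h3 := cb.tB_le
  have h4 : (0 : ℝ) < cb.r.w.a.tw := by exact_mod_cast cb.r.w.a.tw_pos
  linarith

theorem bsum_mem {K : ℕ} (hK : K ≤ n) : bsum c.y c.v (Finset.range K) ∈ BA (c.Av K) :=
  bsum_mem_BA (BA_mono (c.b_sub_Av K) c.y_mem) fun _ hj =>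
    c.v_mem_Av (Finset.mem_range.1 hj) hK

theorem res_bsum_Av {k K : ℕ} (hk : k ≤ K) (hK : K ≤ n) :
    Ball.res (c.Av k) (bsum c.y c.v (Finset.range K)) = bsum c.y c.v (Finset.range k) := by
  have hr : Finset.range K = Finset.range k ∪ Finset.Ico k K := by
    ext j
    simp only [Finset.mem_range, Finset.mem_union, Finset.mem_Ico]
    omega
  have ht := c.tot_le hK
  rw [hr] at ht ⊢
  refine res_bsum ?_ (BA_mono (c.b_sub_Av k) c.y_mem) (fun j hj => ?_) (fun j hj => ?_) ht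
  · rw [Finset.disjoint_left]
    intro j h1 h2
    rw [Finset.mem_range] at h1
    rw [Finset.mem_Ico] at h2
    omega
  · exact c.v_mem_Av (Finset.mem_range.1 hj) (hk.trans hK)
  · rw [Finset.mem_Ico] at hj
    have hjn : j < n := by omega
    refine BA_mono ?_ (c.v_mem j hjn)
    have h1 : c.Av k ⊆ (Fm.Bl j (c.ix j)).A' := by
      have := c.mono_Av hj.1
      rwa [c.Av_lt hjn] at this
    intro i hi hik
    exact hi.2 (h1 hik)

theorem res_As {K : ℕ} (hK : K ≤ n) :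
    Ball.res Fm.As (bsum c.y c.v (Finset.range K)) = c.y := by
  have hr : Finset.range K = ∅ ∪ Finset.range K := (Finset.empty_union _).symm
  have ht := c.tot_le hK
  have hbe : bsum c.y c.v ∅ = c.y := bsum_empty _ _
  rw [hr] at ht ⊢
  rw [res_bsum (Finset.disjoint_empty_left _) (BA_mono Fm.stabAs.1 c.y_mem)
    (fun j hj => absurd hj (Finset.notMem_empty j)) (fun j hj => ?_) ht, hbe]
  have hjn : j < n := lt_of_lt_of_le (Finset.mem_range.1 hj) hK
  refine BA_mono ?_ (c.v_mem j hjn)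
  intro i hi hik
  exact hi.2 (Fm.f3 j _ hik)

theorem ext_bsum {K : ℕ} (hK : K ≤ n) :
    S.Ext c.y Fm.As Fm.As (c.Av K) (bsum c.y c.v (Finset.range K)) :=
  ⟨subset_rfl, c.As_sub_Av K, 𝒢'.ret _ Fm.goodAs, c.ret_Av K, c.bsum_mem hK, c.res_As hK⟩

theorem nm_bsum_lt {K : ℕ} (hK : K ≤ n) :
    nm (bsum c.y c.v (Finset.range K)) < nm c.y + cb.tB := by
  have h1 := nm_bsum_le c.y c.v (Finset.range K)
  have h2 := c.sum_le hK
  have htB : (0 : ℝ) < cb.tB := by exact_mod_cast cb.tB_pos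
  linarith

end Config

end Sys

end Pool.Agent.ZDB

end
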